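import Pool.Agent.H66.D2.Dich3
import Pool.Agent.H60.GEN.TopI
import Pool.Agent.H77.STAT.PlayI

/-!
# The numbers of a class with three kinds of windows

`NumI.LcP`: the levels of an order, the last one is the threshold of the target. `NumI.PlN3`: the
strategies, also for these levels, at the static windows of the target with slope larger than one.
`PlN3.play3`: the strategy `Pool.STR.CellD.Play3`, for all parameters.

`IsoR3`: at almost all good windows of the nonfull rows the threshold over the order is iso or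
static, or the threshold of the target is static with slope larger than one. `full_iso3`: the charts
and orders of `FullI`. `micW_iso3`: the micro input.
-/

set_option autoImplicit false

namespace Pool.STR.NumI

open MeasureTheory Set Filter Topology Pool.LEV Pool.RTS Pool.STA

variable {P : ℝ → ℝ → ℝ} {ρ : ℝ → ℝ} (nk : NumI P ρ)

/-- **The levels of the cells**; the last one is the threshold of the target. -/
noncomputable def LcP (o : nk.O) (i : ℕ) : ℝ → ℝ → ℝ :=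
  if i = nk.m then P else nk.Lc o i

/-- **The strategies at the windows**, also for the threshold of the target. -/
structure PlN3 (W : nk.O → Set ℝ) (Att : nk.O → Set (ℝ × ℝ)) : Prop extends nk.PlN W Att where
  gmP : ∀ o, ∀ᵐ g : ℝ, nk.RwD o g → StaU1 P g →
    GmI (fun _ : Unit => nk.LcP o) (fun _ _ _ => True) nk.m
      (fun i => nk.sg o g (i + 1)) g (W o) (fun _ => Att o)

variable {nk}

/-- **The strategy**, for all parameters. -/
theorem PlN3.play3 {W : nk.O → Set ℝ} {Att : nk.O → Set (ℝ × ℝ)} (H : nk.PlN3 W Att) (q : nk.Par) :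
    q.cell.Play3 := by
  have hcO := nk.cO
  -- the null set
  obtain ⟨Z, hZ, hZ0⟩ : ∃ Z : Set ℝ, volume Z = 0 ∧ ∀ g ∉ Z, ∀ o, (g ∈ nk.Gs o → 0 < g → g < 1 →
      ∀ j, nk.D o j g < 1) ∧ (nk.RwD o g → GmI (fun _ : Unit => nk.Lc o) (fun _ _ _ => True) nk.m
      (fun i => nk.sg o g (i + 1)) g (W o) (fun _ => Att o)) ∧
      (nk.RwD o g → StaU1 P g → GmI (fun _ : Unit => nk.LcP o) (fun _ _ _ => True) nk.m
      (fun i => nk.sg o g (i + 1)) g (W o) (fun _ => Att o)) := by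
    have h1 := ae_all_iff.2 fun o => (H.lt o).and ((H.gm o).and (H.gmP o))
    refine ⟨_, h1, fun g hg o => ?_⟩
    rw [Set.mem_compl_iff, Set.mem_ofPred_eq, not_not] at hg
    exact hg o
  have hGs : ∀ (o : nk.O) (g : ℝ), g ∈ q.cell.G o → g ∈ nk.Gs o := fun o g h => h.1
  have hdg : ∀ (o : nk.O) (i : ℕ), q.cell.dg o i = nk.dg o i := fun o i => rfl
  have hlv : ∀ (o : nk.O) (x : q.cell.α) (i : ℕ), i ≤ nk.m → q.cell.lv o x i = nk.Lc o i := by
    intro o x i hi
    unfold CellD.lv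
    rcases hi.lt_or_eq with h | h
    · rw [nk.lc_lt o h]
      exact dif_pos (show i < q.cell.m from h)
    · rw [h, nk.lc_m]
      exact dif_neg (show ¬ nk.m < q.cell.m from lt_irrefl _)
  have hlP : ∀ (o : nk.O) (x : q.cell.α) (i : ℕ), i ≤ nk.m → q.cell.lvP o x i = nk.LcP o i := by
    intro o x i hi
    unfold CellD.lvP LcP
    rcases hi.lt_or_eq with h | h
    · rw [if_neg h.ne, nk.lc_lt o h]
      exact dif_pos (show i < q.cell.m from h)
    · rw [h, if_pos rfl]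
      exact dif_neg (show ¬ nk.m < q.cell.m from lt_irrefl _)
  have hR0 : ∀ (Q : ℝ), RowD P ρ Zᶜ Q → ∀ (o : nk.O) (c g : ℝ), q.cell.RowO W Q o c g →
      (∀ i < q.cell.m, 1 ≤ deriv (q.cell.dg o i) g ∧ q.cell.dg o i g < 1) →
      g ∉ Z ∧ nk.RwD o g := by
    intro Q hrow o c g R hlt
    have hg := R.eq
    have hmem : g ∉ Z := by
      rw [hg]
      exact hrow.mem
    have hgG := hGs o g R.mem
    have hdm : q.cell.dg o nk.m = fun a => P a a := q.cell.dg_m o
    refine ⟨hmem, hgG, R.g0, R.g1, by rw [R.val]; exact hrow.Q1, fun i hi => ?_, fun i hi => ?_,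
      fun i hi => ?_, by rw [R.val]; exact hrow.rdif, by rw [R.val]; exact hrow.rlt⟩
    · rw [← hdg]
      rcases hi.lt_or_eq with h | h
      · rw [q.cell.dg_i o i h]
        exact R.difD _
      · rw [h, hdm]
        exact R.dif
    · rw [← hdg]
      rcases hi.lt_or_eq with h | h
      · exact (hlt i h).1
      · rw [h, hdm]
        exact R.der
    · rw [← hdg]
      rcases hi.lt_or_eq with h | h
      · exact (hlt i h).2
      · rw [h, hdm]
        show P g g < 1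
        rw [R.val]
        exact hrow.Q1
  refine ⟨W, fun o _ => Att o, Z, H.meas, fun o => ?_, fun o _ => H.att o, hZ, ?_, ?_⟩
  · filter_upwards [H.full o] with g h1 h2 h3 h4
    exact h1 (hGs o g h2) h3 h4
  · filter_upwards with Q hrow o ho j
    have h1 := ((hZ0 _ hrow.mem o).1 (hGs o _ ho) hrow.g0 hrow.g1) j
    exact ⟨h1, Or.inr fun x a w k1 k2 k3 => nk.cell_be x o j k1 k2 k3⟩
  · filter_upwards with Q hrow
    refine ⟨fun o c g R hlt => ?_, fun o c g R hs hlt => ?_⟩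
    · obtain ⟨hmem, hR⟩ := hR0 Q hrow o c g R hlt
      have h1 := (hZ0 g hmem o).2.1 hR
      intro s
      obtain ⟨ε, hε, e, he, r₁, hr₁, K, h2⟩ := h1 s
      refine ⟨ε, hε, e, he, r₁, hr₁, K, fun x r b k1 k2 k3 _ C k6 k7 => ?_⟩
      refine h2 () r b k1 k2 k3 trivial ?_ k6 k7
      refine ⟨C.lo, C.hi, C.one, fun i hi a' w' j1 j2 j3 => ?_, fun a' w' j1 j2 j3 => ?_,
        fun i hi v j1 j2 => ?_⟩
      · have := C.bas i hi a' w' j1 j2 j3
        rwa [hlv o x i (le_of_lt hi)] at this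
      · have := C.tgt a' w' j1 j2 j3
        rwa [show q.cell.lv o x q.cell.m = nk.Lc o nk.m from hlv o x _ le_rfl] at this
      · have := C.sl i hi v j1 j2
        rwa [hlv o x i hi] at this
    · obtain ⟨hmem, hR⟩ := hR0 Q hrow o c g R hlt
      have h1 := (hZ0 g hmem o).2.2 hR hs
      intro s
      obtain ⟨ε, hε, e, he, r₁, hr₁, K, h2⟩ := h1 s
      refine ⟨ε, hε, e, he, r₁, hr₁, K, fun x r b k1 k2 k3 _ C k6 k7 => ?_⟩
      refine h2 () r b k1 k2 k3 trivial ?_ k6 k7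
      refine ⟨C.lo, C.hi, C.one, fun i hi a' w' j1 j2 j3 => ?_, fun a' w' j1 j2 j3 => ?_,
        fun i hi v j1 j2 => ?_⟩
      · have := C.bas i hi a' w' j1 j2 j3
        rwa [hlP o x i (le_of_lt hi)] at this
      · have := C.tgt a' w' j1 j2 j3
        rwa [show q.cell.lvP o x q.cell.m = nk.LcP o nk.m from hlP o x _ le_rfl] at this
      · have := C.sl i hi v j1 j2
        rwa [hlP o x i hi] at this

section rows

variable {hP : Law P} {hP01 : ∀ a w : ℝ, 0 ≤ w → w ≤ a → a ≤ 1 → a ≤ P a w ∧ P a w ≤ 1}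

/-- **The strategy**, with one more order. -/
theorem play3_rows {p : nk.Par} (hq : p.cell.Play3) : (p.rows hP hP01).cell.Play3 := by
  obtain ⟨W', Att, Z, p1, p2, p3, p4, p5, p6⟩ := hq
  refine ⟨fun o => o.elim univ W', fun o x => o.elim univ fun o => Att o x, Z, fun o => ?_,
    fun o => ?_, fun o x => ?_, p4, ?_, ?_⟩
  · cases o with
    | none => exact MeasurableSet.univ
    | some o => exact p1 o
  · cases o with
    | none => exact ae_of_all _ fun g _ _ _ => mem_univ _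
    | some o =>
      filter_upwards [p2 o] with g hg h
      exact hg ⟨h.1.1, h.2⟩
  · cases o with
    | none => exact fun u v _ => ae_of_all _ fun t _ _ => mem_univ _
    | some o => exact p3 o x
  · filter_upwards [p5] with Q hQ hrow o ho j
    cases o with
    | none =>
      exfalso
      exact ho.1 ⟨Q, { hrow with mem := mem_univ _ }, rfl⟩
    | some o => exact hQ hrow o ⟨ho.1.1, ho.2⟩ j
  · filter_upwards [p6] with Q hQ hrow
    refine ⟨fun o c g hO hσ => ?_, fun o c g hO hs hσ => ?_⟩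
    · cases o with
      | none =>
        exfalso
        have h1 := hO.mem.1
        rw [hO.eq] at h1
        exact h1 ⟨Q, { hrow with mem := mem_univ _ }, rfl⟩
      | some o =>
        have hO' : p.cell.RowO W' Q o c g :=
          ⟨hO.eq, hO.g0, hO.g1, hO.val, ⟨hO.mem.1.1, hO.mem.2⟩, hO.dns, hO.dif, hO.der, hO.difD,
            hO.c0⟩
        have h1 := (hQ hrow).1 o c g hO' hσ
        intro s
        obtain ⟨ε, hε, e, he, r₁, hr₁, K, H⟩ := h1 s
        exact ⟨ε, hε, e, he, r₁, hr₁, K, fun x r b k1 k2 k3 k4 k5 k6 k7 =>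
          H x r b k1 k2 k3 ⟨Par.ad_rows k4.1, k4.2⟩ k5 k6 k7⟩
    · cases o with
      | none =>
        exfalso
        have h1 := hO.mem.1
        rw [hO.eq] at h1
        exact h1 ⟨Q, { hrow with mem := mem_univ _ }, rfl⟩
      | some o =>
        have hO' : p.cell.RowO W' Q o c g :=
          ⟨hO.eq, hO.g0, hO.g1, hO.val, ⟨hO.mem.1.1, hO.mem.2⟩, hO.dns, hO.dif, hO.der, hO.difD,
            hO.c0⟩
        have h1 := (hQ hrow).2 o c g hO' hs hσ
        intro s
        obtain ⟨ε, hε, e, he, r₁, hr₁, K, H⟩ := h1 s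
        exact ⟨ε, hε, e, he, r₁, hr₁, K, fun x r b k1 k2 k3 k4 k5 k6 k7 =>
          H x r b k1 k2 k3 ⟨Par.ad_rows k4.1, k4.2⟩ k5 k6 k7⟩

/-- **The strategy**, from the parameters on the right. -/
theorem play3_right {p q : nk.Par} (hq : q.cell.Play3) : (p.and q).cell.Play3 := by
  obtain ⟨W', Att, Z, p1, p2, p3, p4, p5, p6⟩ := hq
  refine ⟨W', fun o x => Att o x.2, Z, p1, p2, fun o x => p3 o x.2, p4, ?_, ?_⟩
  · filter_upwards [p5] with Q hQ hrow o ho j
    obtain ⟨a1, a2⟩ := hQ hrow o ho j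
    exact ⟨a1, a2.imp id fun h x => h x.2⟩
  · filter_upwards [p6] with Q hQ hrow
    refine ⟨fun o c g hO hσ => ?_, fun o c g hO hs hσ => ?_⟩
    · have hO' : q.cell.RowO W' Q o c g :=
        ⟨hO.eq, hO.g0, hO.g1, hO.val, hO.mem, hO.dns, hO.dif, hO.der, hO.difD, hO.c0⟩
      have h1 := (hQ hrow).1 o c g hO' hσ
      intro s
      obtain ⟨ε, hε, e, he, r₁, hr₁, K, H⟩ := h1 s
      exact ⟨ε, hε, e, he, r₁, hr₁, K, fun x r b k1 k2 k3 k4 k5 k6 k7 =>
        H x.2 r b k1 k2 k3 ⟨Par.ad_right k4.1, (Par.dfr_right (x, o) g _).trans k4.2⟩ k5 k6 k7⟩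
    · have hO' : q.cell.RowO W' Q o c g :=
        ⟨hO.eq, hO.g0, hO.g1, hO.val, hO.mem, hO.dns, hO.dif, hO.der, hO.difD, hO.c0⟩
      have h1 := (hQ hrow).2 o c g hO' hs hσ
      intro s
      obtain ⟨ε, hε, e, he, r₁, hr₁, K, H⟩ := h1 s
      exact ⟨ε, hε, e, he, r₁, hr₁, K, fun x r b k1 k2 k3 k4 k5 k6 k7 =>
        H x.2 r b k1 k2 k3 ⟨Par.ad_right k4.1, (Par.dfr_right (x, o) g _).trans k4.2⟩ k5 k6 k7⟩

end rows

variable (nk)

/-- **Windows of three kinds.** -/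
def IsoG3 : Prop := ∀ o : nk.O, ∀ᵐ g : ℝ, 0 < g → g < 1 →
  (∃ a', g < a' ∧ a' ≤ 1 ∧ ρ 1 - ρ (P a' a') < 1 - P a' a') → g ∈ nk.Gs o → nk.PT o g g < 1 →
    IsoAt (nk.PT o) g ∨ StaAt (nk.PT o) g ∨ StaU1 P g

/-- **Windows of three kinds**, of the nonfull rows. -/
def IsoR3 : Prop := ∀ o : nk.O, ∀ᵐ Q : ℝ, RowD P ρ univ Q → Lv P (Q, 0) ∈ nk.Gs o →
  nk.PT o (Lv P (Q, 0)) (Lv P (Q, 0)) < 1 →
    IsoAt (nk.PT o) (Lv P (Q, 0)) ∨ StaAt (nk.PT o) (Lv P (Q, 0)) ∨ StaU1 P (Lv P (Q, 0))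

variable {nk}

variable {hP : Law P}
  {hP01 : ∀ a w : ℝ, 0 ≤ w → w ≤ a → a ≤ 1 → a ≤ P a w ∧ P a w ≤ 1}

/-- **Windows of three kinds** of the larger family of orders. -/
theorem isoG3_rows (hM : nk.IsoR3) : (nk.rows hP hP01).IsoG3 := by
  intro o
  cases o with
  | none =>
    filter_upwards [isoS_or_mac (iso_law (diagP hP hP01))] with g h0 h1 h2 _ _ h4
    left
    rcases h0 h1 h2 h4 with h5 | h5
    · exact h5
    exfalso
    have h6 : iso (fun a => P a a) g g = P g g := iso_dia (diagP hP hP01) h1.le h2.le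
    have h4' : P g g < 1 := by
      rw [← h6]
      exact h4
    obtain ⟨v, hv⟩ : ∃ v, v = min ((1 - g) / 2) ((1 - P g g) / 2) := ⟨_, rfl⟩
    have hv0 : 0 < v := by rw [hv]; exact lt_min (by linarith) (by linarith)
    have hv1 : v ≤ (1 - g) / 2 := by rw [hv]; exact min_le_left _ _
    have hv2 : v ≤ (1 - P g g) / 2 := by rw [hv]; exact min_le_right _ _
    have h7 := h5 (g + v) (by linarith) (by linarith) (by
      rw [h6]
      linarith)
    have h8 : iso (fun a => P a a) (g + v) g ≤ P g g + (g + v - g) := iso_le _ _ _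
    rw [h6] at h7
    linarith
  | some o =>
    obtain ⟨B, hB⟩ : ∃ B : Set ℝ, B = {Q | ¬ (RowD P ρ univ Q → Lv P (Q, 0) ∈ nk.Gs o →
      nk.PT o (Lv P (Q, 0)) (Lv P (Q, 0)) < 1 →
        IsoAt (nk.PT o) (Lv P (Q, 0)) ∨ StaAt (nk.PT o) (Lv P (Q, 0)) ∨
          StaU1 P (Lv P (Q, 0)))} := ⟨_, rfl⟩
    have hB0 : volume B = 0 := by
      rw [hB]
      exact ae_iff.1 (hM o)
    have h1 : volume ((fun Q => Lv P (Q, 0)) ''
        {Q | Q ∈ B ∧ DifferentiableAt ℝ (fun Q => Lv P (Q, 0)) Q}) = 0 :=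
      addHaar_image_eq_zero_of_differentiableOn_of_addHaar_eq_zero volume
        (fun Q hQ => hQ.2.differentiableWithinAt)
        (measure_mono_null (fun Q hQ => hQ.1) hB0)
    filter_upwards [measure_eq_zero_iff_ae_notMem.1 h1] with g hg h2 h3 h4 h5 h6
    obtain ⟨Q, hrow, rfl⟩ := h5.2
    by_contra hcon
    refine hg ⟨Q, ⟨?_, hrow.dif⟩, rfl⟩
    rw [hB]
    exact fun h8 => hcon (h8 hrow h5.1 h6)

/-- The form of the dichotomy. -/
theorem IsoG3.all (hP : Law P) (hP1 : ∀ a : ℝ, 0 ≤ a → a ≤ 1 → P a a ≤ 1) (hM : nk.IsoG3) :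
    ∀ᵐ g : ℝ, 0 < g → g < 1 →
      (∃ a', g < a' ∧ a' ≤ 1 ∧ ρ 1 - ρ (P a' a') < 1 - P a' a') →
        ∀ o, g ∈ nk.Gs o → IsoAt (nk.PT o) g ∨ StaAt (nk.PT o) g ∨ StaU1 P g := by
  have := nk.cO
  have h1 := ae_all_iff.2 hM
  filter_upwards [h1] with g k1 h3 h4 h5 o ho
  refine k1 o h3 h4 h5 ho ?_
  obtain ⟨a', l1, l2, l3⟩ := h5
  have j1 : nk.PT o g g ≤ P g g := nk.hle o g g h3 le_rfl h4.le
  have j2 : P g g ≤ P a' a' := hP.mono h3.le le_rfl l1.le l1.le le_rfl l2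
  have j3 := hP1 a' (by linarith) l2
  rcases j3.eq_or_lt with h6 | h6
  · rw [h6] at l3
    simp at l3
  · linarith

/-- **The charts and orders of `FullI`** from windows of three kinds of the nonfull rows. -/
theorem full_iso3 (hP : Law P)
    (hP01 : ∀ a w : ℝ, 0 ≤ w → w ≤ a → a ≤ 1 → a ≤ P a w ∧ P a w ≤ 1)
    (p q : nk.Par) (hJ : p.cell.NoJS ∨ p.cell.NoBS) (hq : q.cell.Play3) (hM : nk.IsoR3) :
    ∃ E' : CellD P ρ, E'.FullI := by
  obtain ⟨s, hs⟩ : ∃ s, s = (p.rows hP hP01).and (q.rows hP hP01) := ⟨_, rfl⟩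
  have h1 : s.cell.NoJS ∨ s.cell.NoBS := by
    rw [hs]
    exact (hJ.imp Par.noJS_rows Par.noBS_rows).imp Par.noJS_left Par.noBS_left
  have h2 : s.cell.Play3 := by
    rw [hs]
    exact play3_right (play3_rows hq)
  refine CellD.dich3_full (E := s.cell) hP (fun a h0 h1 => h0.trans (hP01 a a h0 le_rfl h1).1) h1
    (fun k a h0 h1 => (nk.rows hP hP01).cell_nn k a h0 h1) h2
    (fun o => (nk.rows hP hP01).PT o) (fun _ _ => rfl) ?_
  filter_upwards [IsoG3.all hP (fun a h0 h1 => (hP01 a a h0 le_rfl h1).2)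
    (isoG3_rows (hP := hP) (hP01 := hP01) hM)] with g k1 k2 k3 k4 o ho
  exact k1 k2 k3 k4 o ho.1

/-- **The micro input** from windows of three kinds of the nonfull rows. -/
theorem micW_iso3 (hP : Law P)
    (hP01 : ∀ a w : ℝ, 0 ≤ w → w ≤ a → a ≤ 1 → a ≤ P a w ∧ P a w ≤ 1) (hρ : LipschitzWith 1 ρ)
    (p : nk.Par) (hJ : p.cell.NoJS ∨ p.cell.NoBS) (hM : nk.IsoR3) : MicW P ρ := by
  have h1 : (p.rows hP hP01).cell.NoJS ∨ (p.rows hP hP01).cell.NoBS :=
    hJ.imp Par.noJS_rows Par.noBS_rows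
  refine CellD.micW_dich3 (E := (p.rows hP hP01).cell) hP
    (fun a h0 h1 => ⟨h0.trans (hP01 a a h0 le_rfl h1).1, (hP01 a a h0 le_rfl h1).2⟩) hρ h1
    (fun o => (nk.rows hP hP01).PT o) (fun _ _ => rfl) ?_
  filter_upwards [IsoG3.all hP (fun a h0 h1 => (hP01 a a h0 le_rfl h1).2)
    (isoG3_rows (hP := hP) (hP01 := hP01) hM)] with g k1 k2 k3 k4 o ho
  exact k1 k2 k3 k4 o ho.1

/-- Windows of three kinds, for a larger rate. -/
theorem isoR3_chg {r : ℝ → ℝ} {nk : NumI P r} (h : Rle r ρ)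
    (hP : ∀ a : ℝ, 0 ≤ a → a ≤ 1 → P a a ≤ 1) (hM : nk.IsoR3) : (nk.chg h hP).IsoR3 := by
  intro o
  filter_upwards [hM o, h.lip.ae_differentiableAt_real] with Q h1 h2 h3
  exact h1 (h.row h2 h3)

end Pool.STR.NumI
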