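import Pool.Agent.H62.GEN.GmS
import Pool.Agent.H66.D2.Num3

/-!
# The rows whose chain is static, for the threshold of the target

`PkT.gmI_staP`: as `PkT.gmI_sta`, but the last level of the cells is the threshold `P` of the target,
and not the threshold over the order.
-/

set_option autoImplicit false

namespace Pool.PKG

open MeasureTheory Set Filter Topology
open Pool.Agent.H49.Ent Pool.Agent.H32.Dense Pool.STK Pool.KA Pool.KSAT Pool.K2S Pool.PB
open Pool.GEN Pool.S6C Pool.STAT Pool.CHT Pool.GRW Pool.ONE Pool.STA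
open Pool.LBT (LSys ThrOf)
open Pool.LEV (Law)
open Pool.ALL (RateOf)
open Pool.TOP (TopS)
open Pool.RTS (iso iso_dia diag_thr Diag)
open Pool.STR (NumI LeT CellD AttN StaAt)
open Pool.FRN (AttC UpA Wgd attN_attC)

variable {n : ℕ}

section

variable {hn : 2 ≤ n} {S : PCl n} {P : ℝ → ℝ → ℝ} {r : ℝ → ℝ}
  {P' : ℕ → List (Fin n) × Fin n → ℝ → ℝ → ℝ} {Λ : Finset (Fin n) → Fin n → ℝ → ℝ → ℝ}
  {PB : ℕ → List (Fin n) × Fin n → ℝ → ℝ → ℝ}

/-- **Rows with a static chain**: the strategy against the affine cells whose last level is the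
threshold of the target. -/
theorem PkT.gmI_staP (H : PkT hn S P r P' Λ PB) (hTop : TopS n) (hF : FZX (n - 1)) {o : Od n}
    {g : ℝ} (R : (H.nk hTop hF).RwD o g) (hst : ∀ i < n - 1, StaAt (LL hn P P' o (i + 1)) g)
    {W : Set ℝ} (hWG : W ⊆ Gs P r P' Λ o) :
    STR.GmI (fun _ : Unit => (H.nk hTop hF).LcP o) (fun _ _ _ => True) (n - 1)
      (fun i => (H.nk hTop hF).sg o g (i + 1)) g W (fun _ => AttI (P' o.2)) := by
  have hctx := H.ctx o
  have hlaw := fun i => hctx.law i
  have hg0 := R.g0
  have hg1 := R.g1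
  obtain ⟨nk, hnk⟩ : ∃ nk, nk = H.nk hTop hF := ⟨_, rfl⟩
  have hm : (H.nk hTop hF).m = n - 1 := rfl
  have hexin : ExIn S (ee hn o) (n - 1) (LL hn P P' o) W := fun w hw =>
    H.toPk.exIn hF o w (hWG hw)
  obtain ⟨α, Q, c, F⟩ := H.toPk.fac hTop hF R.mem
  have hdgc : ∀ i ≤ n - 1, ∀ a, LL hn P P' o (i + 1) a a = (H.nk hTop hF).dg o i a :=
    fun i hi a => (H.dg_eq hTop hF o hi a).symm
  have hdge : ∀ i, n - 1 < i → (H.nk hTop hF).dg o i = (H.nk hTop hF).dg o (n - 1) := by
    intro i hi
    have e1 : (H.nk hTop hF).dg o (n - 1) = fun a => P a a := (H.nk hTop hF).dg_m o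
    rw [e1]
    funext a
    unfold NumI.dg
    rw [dif_neg (by rw [hm]; omega)]
  have hder : ∀ i ≤ n - 1 + 1, HasDerivAt (fun x => LL hn P P' o i x x)
      ((H.nk hTop hF).sg o g i) g := by
    intro i hi
    rcases i with _ | i
    · have e1 : (fun x => LL hn P P' o 0 x x) = fun x => x := by
        funext x
        rw [hctx.zero]
      rw [e1]
      exact hasDerivAt_id g
    · have e1 : (fun x => LL hn P P' o (i + 1) x x) = (H.nk hTop hF).dg o i :=
        funext fun a => hdgc i (by omega) a
      rw [e1]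
      exact (R.dif i (by rw [hm]; omega)).hasDerivAt
  have hσ : ∀ i, 1 ≤ (H.nk hTop hF).sg o g i := by
    intro i
    rcases i with _ | i
    · exact le_rfl
    · show 1 ≤ deriv ((H.nk hTop hF).dg o i) g
      rcases Nat.lt_or_ge (n - 1) i with h | h
      · rw [hdge i h]
        exact R.one (n - 1) (by rw [hm])
      · exact R.one i (by rw [hm]; exact h)
  have hlt : ∀ i ≤ n - 1 + 1, LL hn P P' o i g g < 1 := by
    intro i hi
    rcases i with _ | i
    · rw [hctx.zero]
      exact hg1
    · rw [hdgc i (by omega)]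
      exact R.lt i (by rw [hm]; omega)
  have hlst : LL hn P P' o (n - 1 + 1) = P := LL_lst
  intro s
  obtain ⟨γ, hγ0, hγ, ε, hε, r₁, hr₁, K, hG⟩ := gmS_all hctx hexin
    (F.labIn H.toPk ((H.nk hTop hF).sg o g) W) hg0 hder rfl hσ hlt
    (Q := P g g) (by rw [hlst]) R.rdif (h := 1 - deriv r (P g g)) (by
      have := R.rlt
      linarith) (by linarith) s (1 / 2) (by norm_num) le_rfl
  -- the diagonals near the window
  obtain ⟨d, hd, hnear⟩ := near_der (f := fun i x => LL hn P P' o i x x)
    (σ := (H.nk hTop hF).sg o g) (g := g) (e := ε / 16) (by positivity) (n + 1)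
    (fun i hi => hder i (by omega))
  -- the static levels near the window
  obtain ⟨r₂, hr₂, hsta⟩ : ∃ r₂ : ℝ, 0 < r₂ ∧ ∀ i < n - 1, ∀ x, 0 < x → x < r₂ →
      STR.StaD (LL hn P P' o (i + 1)) g x (ε / 4 * x) := by
    have key : ∀ N ≤ n - 1, ∃ r₂ : ℝ, 0 < r₂ ∧ ∀ i < N, ∀ x, 0 < x → x < r₂ →
        STR.StaD (LL hn P P' o (i + 1)) g x (ε / 4 * x) := by
      intro N
      induction N with
      | zero => exact fun _ => ⟨1, one_pos, fun i hi => absurd hi (Nat.not_lt_zero i)⟩
      | succ N ih =>
        intro hN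
        obtain ⟨x₁, h1, h2⟩ := ih (by omega)
        obtain ⟨x₂, h3, h4⟩ := hst N (by omega) (ε / 4) (by positivity)
        refine ⟨min x₁ x₂, lt_min h1 h3, fun i hi x hx hx2 => ?_⟩
        rcases Nat.lt_or_ge i N with h5 | h5
        · exact h2 i h5 x hx (hx2.trans_le (min_le_left _ _))
        · have h6 : i = N := by omega
          subst h6
          exact h4 x hx (hx2.trans_le (min_le_right _ _))
    exact key (n - 1) le_rfl
  obtain ⟨r₀, hr₀⟩ : ∃ r₀, r₀ = min (min r₁ (d / 4)) (min r₂ (min (g / 16) ((1 - g) / 16))) :=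
    ⟨_, rfl⟩
  have hr₀0 : 0 < r₀ := by
    rw [hr₀]
    exact lt_min (lt_min hr₁ (by positivity)) (lt_min hr₂ (lt_min (by positivity) (by linarith)))
  refine ⟨ε / 4, by positivity, 1, one_pos, r₀, hr₀0, insert 0 K,
    fun _ x b hx hxr hbg _ C hK hAt => ?_⟩
  have x1 : x < r₁ := hxr.trans_le (by
    rw [hr₀]; exact (min_le_left _ _).trans (min_le_left _ _))
  have x2 : x < d / 4 := hxr.trans_le (by
    rw [hr₀]; exact (min_le_left _ _).trans (min_le_right _ _))
  have x3 : x < r₂ := hxr.trans_le (by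
    rw [hr₀]; exact (min_le_right _ _).trans (min_le_left _ _))
  have x4 : x < g / 16 := hxr.trans_le (by
    rw [hr₀]; exact (min_le_right _ _).trans ((min_le_right _ _).trans (min_le_left _ _)))
  have x5 : x < (1 - g) / 16 := hxr.trans_le (by
    rw [hr₀]; exact (min_le_right _ _).trans ((min_le_right _ _).trans (min_le_right _ _)))
  have hεx : 0 < ε * x := mul_pos hε hx
  obtain ⟨b1, b2⟩ := abs_le.1 hbg
  have hb0 : 0 < b := by linarith
  have hb1 : b < 1 := by linarith
  have hbW : b ∈ W := by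
    have := hK 0 (Finset.mem_insert_self _ _)
    rwa [zero_mul, sub_zero] at this
  have hLcm : (H.nk hTop hF).LcP o (n - 1) = P := if_pos hm.symm
  -- differences of the diagonals
  have hdiff : ∀ i ≤ n - 1 + 1, ∀ y, |y - g| ≤ 2 * x →
      |LL hn P P' o i y y - LL hn P P' o i b b - (H.nk hTop hF).sg o g i * (y - b)| ≤
        ε / 4 * x := by
    intro i hi y hy
    have h1 := hnear i (by omega) y (by linarith)
    have h2 := hnear i (by omega) b (by linarith)
    have h3 : ε / 16 * |y - g| ≤ ε / 16 * (2 * x) := mul_le_mul_of_nonneg_left hy (by positivity)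
    have h4 : ε / 16 * |b - g| ≤ ε / 16 * x := mul_le_mul_of_nonneg_left hbg (by positivity)
    obtain ⟨u1, u2⟩ := abs_le.1 h1
    obtain ⟨u3, u4⟩ := abs_le.1 h2
    have e1 : (H.nk hTop hF).sg o g i * (y - b) = (H.nk hTop hF).sg o g i * (y - g) -
        (H.nk hTop hF).sg o g i * (b - g) := by ring
    rw [e1, abs_le]
    constructor <;> linarith
  refine hG x b hx x1 (by linarith) ?_ (fun k hk => hK k (Finset.mem_insert_of_mem hk))
    fun p₁ q₁ p₂ q₂ h1 h2 h3 => (hAt p₁ q₁ p₂ q₂ h1 h2 h3).1
  have hγx : γ * x ≤ x / 2 := by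
    have := mul_le_mul_of_nonneg_right hγ hx.le
    linarith
  refine ⟨?_, ?_, C.one, fun i hi a' w' h1 h2 h3 => ?_, fun i hi v h1 h2 => ?_⟩
  · have := C.lo
    linarith
  · have := C.hi
    linarith
  · -- the levels
    have ha1 : a' ≤ 1 := by linarith
    have hw0 : 0 < w' := by linarith
    have hya : |a' - g| ≤ 2 * x := by
      rw [abs_le]
      constructor <;> linarith
    have hda := hdiff i (by omega) a' hya
    obtain ⟨u1, u2⟩ := abs_le.1 hda
    have hup : LL hn P P' o i a' w' ≤ LL hn P P' o i a' a' :=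
      (hlaw i).mono_w _ _ _ hw0.le h2 le_rfl ha1
    have hlow : LL hn P P' o i b b + (H.nk hTop hF).sg o g i * (a' - b) - ε / 2 * x ≤
        LL hn P P' o i a' w' := by
      rcases i with _ | i
      · rw [hctx.zero, hctx.zero]
        show b + 1 * (a' - b) - ε / 2 * x ≤ a'
        linarith
      · rcases Nat.lt_or_ge i (n - 1) with h4 | h4
        · have h5 := hsta i h4 x hx x3 a' w' (by linarith) h2 (by linarith)
          linarith
        · have h5 : i = n - 1 := by omega
          subst h5
          have h6 : |(H.nk hTop hF).LcP o (n - 1) a' w' - (H.nk hTop hF).LcP o (n - 1) b b -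
              (H.nk hTop hF).sg o g (n - 1 + 1) * (a' - b)| ≤ ε / 4 * x :=
            C.tgt a' w' (by linarith) h2 (by linarith)
          have h7 : (H.nk hTop hF).LcP o (n - 1) a' w' = P a' w' := by rw [hLcm]
          have h8 : (H.nk hTop hF).LcP o (n - 1) b b = P b b := by rw [hLcm]
          rw [h7, h8] at h6
          rw [hlst]
          have h10 := (abs_le.1 h6).1
          linarith
    rw [abs_le]
    constructor <;> linarith
  · -- the slopes
    rcases i with _ | i
    · rw [hctx.zero, hctx.zero]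
      have h3 : (2 : ℝ) ≤ s * b := C.one
      have h4 : (s : ℝ) * b ≤ s := mul_le_of_le_one_right (Nat.cast_nonneg _) hb1.le
      have h5 : 1 * v ≤ s * v := mul_le_mul_of_nonneg_right (by linarith) h1
      linarith
    · rcases Nat.lt_or_ge i (n - 1) with h4 | h4
      · have h5 : (H.nk hTop hF).LcP o i b b - (H.nk hTop hF).LcP o i (b - v) (b - v) ≤
            s * v + ε / 4 * x := C.sl i h4.le v h1 h2
        have h6 : ∀ y, 0 ≤ y → y ≤ 1 →
            (H.nk hTop hF).LcP o i y y = LL hn P P' o (i + 1) y y := by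
          intro y hy0 hy1
          have e1 : (H.nk hTop hF).LcP o i = (H.nk hTop hF).Lc o i :=
            if_neg (by rw [hm]; exact h4.ne)
          rw [e1, hdgc i h4.le, (H.nk hTop hF).lc_lt o (i := i) h4,
            (H.nk hTop hF).dg_lt o (i := i) h4]
          exact iso_dia ((H.nk hTop hF).hD o _) hy0 hy1
        rw [h6 b hb0.le hb1.le, h6 (b - v) (by linarith) (by linarith)] at h5
        linarith
      · have h5 : i = n - 1 := by omega
        subst h5
        rw [hlst]
        rcases h2.lt_or_eq with h6 | h6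
        · have h7 : (H.nk hTop hF).LcP o (n - 1) b b -
              (H.nk hTop hF).LcP o (n - 1) (b - v) (b - v) ≤ s * v + ε / 4 * x :=
            C.sl (n - 1) le_rfl v h1 h2
          rw [hLcm] at h7
          linarith
        · rw [h6, sub_self]
          have h7 := H.tgs.up () b b hb0.le le_rfl hb1.le
          have h8 := H.tgs.low () 0 0 le_rfl le_rfl zero_le_one
          have h9 : (2 : ℝ) ≤ s * b := C.one
          linarith

end

end Pool.PKG
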