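import Pool.Agent.H60.GEN.KpJ
import Pool.Agent.H66.D2.GmP

/-!
# `KP m` from the statements about one class, with three kinds of windows

`PkT.plN3`: the strategies of a class, also for the threshold of the target (from `RowsR` and
`NoRr`). `PkT.playX3`: the strategy `Play3` from exactness and the static chains.

`GoalN`: no boxes, and at almost all windows of the nonfull rows the threshold over the order is iso
or static, or the threshold `P` of the target is static with slope larger than one (`StaU1`).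
`ClassN H hTop hF h`: the same for the rows with deficit more than `h`.
`kp_of_classN`: `KP m` from `ClassN`, `ClassJ` and `TopW`.
-/

set_option autoImplicit false

namespace Pool.PKG

open MeasureTheory Set Filter Topology
open Pool.Agent.H49.Ent Pool.Agent.H32.Dense Pool.STK Pool.KA Pool.KSAT Pool.K2S Pool.PB
open Pool.GEN Pool.S6C Pool.STAT Pool.CHT Pool.GRW Pool.ONE Pool.STA
open Pool.LBT (LSys ThrOf)
open Pool.LEV (Law Lv)
open Pool.ALL (RateOf)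
open Pool.TOP (TopS)
open Pool.RTS (iso iso_dia iso_law iso_low diag_thr Diag)
open Pool.STR (NumI LeT CellD AttN Rle RowD Mac TopW MicW StaAt IsoAt StaU1 ae_rowD ae_dia)
open Pool.STAT.CLO (up)
open Pool.FRN (AttC UpA Wgd attN_attC)

variable {n : ℕ} {hn : 2 ≤ n} {S : PCl n} {P : ℝ → ℝ → ℝ} {r ρ : ℝ → ℝ}
  {P' : ℕ → List (Fin n) × Fin n → ℝ → ℝ → ℝ} {Λ : Finset (Fin n) → Fin n → ℝ → ℝ → ℝ}
  {PB : ℕ → List (Fin n) × Fin n → ℝ → ℝ → ℝ}

/-- **The strategies of a class** for the rows of the rate `ρ`, also for the threshold of the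
target. -/
theorem PkT.plN3 (H : PkT hn S P r P' Λ PB) (hTop : TopS n) (hF : FZX (n - 1)) (hr : Rle r ρ)
    {W : Od n → Set ℝ} (hWm : ∀ o, MeasurableSet (W o))
    (hWf : ∀ o, ∀ᵐ g : ℝ, g ∈ Gs P r P' Λ o → 0 < g → g < 1 → g ∈ W o)
    (hI : RowsR H hTop hF hr W) (hII : StaR H hTop hF hr W) (hR : NoRr H hTop hF hr) :
    ∃ W' : Od n → Set ℝ,
      ((H.nk hTop hF).chg hr H.up).PlN3 W' (fun o => AttI (P' o.2)) := by
  have hlaw := H.tgs.law ()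
  have hP01 : ∀ a : ℝ, 0 ≤ a → a ≤ 1 → a ≤ P a a ∧ P a a ≤ 1 := fun a h0 h1 =>
    ⟨H.tgs.low () a a h0 le_rfl h1, H.tgs.up () a a h0 le_rfl h1⟩
  obtain ⟨W', w1, w2, hWW, hWG, hWP⟩ := H.exW hTop hF hWm hWf
  refine ⟨W', ⟨w1, fun o => ?_, fun o => attN_attI (H.cht o.2), fun o => ?_, fun o => ?_⟩,
    fun o => ?_⟩
  · filter_upwards [w2 o] with g h1 h2 h3 h4
    exact h1 h2 h3 h4
  · refine ae_of_all _ fun g hg h0 h1 j => ?_
    obtain ⟨α, Q, c, F⟩ := H.toPk.fac hTop hF (o := o) hg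
    have h2 := F.le j j.2 g g h0 le_rfl F.gα
    have h3 := (tht_pos o.2).trans F.thc
    exact lt_of_le_of_lt h2 (by linarith)
  · filter_upwards [hI o, hII o, NumI.rwD_chg (nk := H.nk hTop hF) hr H.up (H.tgs.law ()) o]
      with g h1 h2 h3 R'
    have R := h3 R'
    have hdia : ∀ i ≤ n - 1, ∀ a, 0 ≤ a → a ≤ 1 →
        LL hn P P' o (i + 1) a a = (H.nk hTop hF).dg o i a := fun i hi a _ _ =>
      (H.dg_eq hTop hF o hi a).symm
    have hexin : ExIn S (ee hn o) (n - 1) (LL hn P P' o) (W' o) := fun w hw =>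
      H.toPk.exIn hF o w (hWG o hw)
    have hone : 1 ≤ deriv (fun a => P a a) g := by
      have h3 := R.one (n - 1) le_rfl
      have e1 : (H.nk hTop hF).dg o (n - 1) = fun a => P a a := (H.nk hTop hF).dg_m o
      rwa [e1] at h3
    rcases hone.eq_or_lt with h4 | h4
    · obtain ⟨α, Q, c, F⟩ := H.toPk.fac hTop hF R.mem
      obtain ⟨E, ρJ, hE, hρJ, htop, hJat⟩ := F.jatE H.toPk
      obtain ⟨E', ρ', hE', hρ', htop', hJat'⟩ := H.jatR hTop hF F hE hρJ htop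
        (hJat ρJ le_rfl)
      exact NumI.gmI_lab (nk := H.nk hTop hF) (H.ctx o) hexin R hdia
        (NumI.labJ_one (nk := H.nk hTop hF) hlaw hP01 (H.ctx o) H.tmh R hdia (hWP o) h4.symm hρ'
          hE'.le htop' hJat' fun ρ'' hρ'' =>
            (h1 R' h4.symm E' ρ' ρ'' hE' hρ' hρ'' htop').mono_W (hWW o))
    · exact gmI_mono (h2 R' h4) (hWW o)
  · filter_upwards [hR o, NumI.rwD_chg (nk := H.nk hTop hF) hr H.up (H.tgs.law ()) o]
      with g h1 h2 R' hs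
    exact H.gmI_staP hTop hF (h2 R') (h1 R' hs.2) (hWG o)

/-- **The strategy of a class**, for both thresholds, from exactness and the static chains. -/
theorem PkT.playX3 (H : PkT hn S P r P' Λ PB) (hTop : TopS n) (hF : FZX (n - 1))
    (hr : Rle r ρ) {W : Od n → Set ℝ} (hWm : ∀ o, MeasurableSet (W o))
    (hWf : ∀ o, ∀ᵐ g : ℝ, g ∈ Gs P r P' Λ o → 0 < g → g < 1 → g ∈ W o)
    (hX : ExcJ H hTop hF hr W) (hR : NoRr H hTop hF hr)
    (q : ((H.nk hTop hF).chg hr H.up).Par) : q.cell.Play3 := by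
  obtain ⟨W', h1, h2, h3, h4, h5⟩ := H.exW hTop hF hWm hWf
  have hI : RowsR H hTop hF hr W' := fun o => by
    filter_upwards [H.rowsR_of hTop hF hr hX o] with g k1 k2 k3 E ρJ ρ' k4 k5 k6 k7
    exact (k1 k2 k3 E ρJ ρ' k4 k5 k6 k7).mono_W (h3 o)
  obtain ⟨W'', hW⟩ := H.plN3 hTop hF hr h1 h2 hI (H.staR_of hTop hF hr hR h4 h5) hR
  exact hW.play3 q

theorem ClassJ.play3 {H : PkT hn S P r P' Λ PB} {hTop : TopS n} {hF : FZX (n - 1)} {h : ℝ}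
    (hC : ClassJ H hTop hF h) :
    ∃ q : ((H.nk hTop hF).chg (H.rle h) H.up).Par, q.cell.Play3 := by
  obtain ⟨W, h1, h2, h3⟩ := hC.exc
  exact ⟨triv _, H.playX3 hTop hF (H.rle h) h1 h2 h3 hC.nor.noRr _⟩

/-- **The statements about one class which give the micro input**: no boxes, and windows of three
kinds, for the rows of `ρ`. -/
structure GoalN {P : ℝ → ℝ → ℝ} {ρ : ℝ → ℝ} (nk : NumI P ρ) : Prop where
  noBS : ∃ p : nk.Par, p.cell.NoJS ∨ p.cell.NoBS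
  iso : nk.IsoR3

theorem GoalN.micW {P : ℝ → ℝ → ℝ} {ρ : ℝ → ℝ} {nk : NumI P ρ} (hP : Law P)
    (hP01 : ∀ a w : ℝ, 0 ≤ w → w ≤ a → a ≤ 1 → a ≤ P a w ∧ P a w ≤ 1) (hρ : LipschitzWith 1 ρ)
    (hG : GoalN nk) : MicW P ρ := by
  obtain ⟨⟨p, hJ⟩, hM⟩ := hG
  exact NumI.micW_iso3 hP hP01 hρ p hJ hM

/-- **The micro input of all classes** for the rows of maximal deficit. -/
theorem micRt_ofN {η : ℝ → ℝ} (hi : ∀ k, 2 ≤ k → k < n → Ext0 k)
    (hG : ∀ (hn : 2 ≤ n) (_ : ∀ k, 1 ≤ k → k < n → FZX k) (hF : FZX (n - 1)) (hTop : TopS n)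
      (D : ℝ), 0 < D → D ≤ 1 → Ext n ((1 + η D) * D) → ∀ (S : PCl n) (P : ℝ → ℝ → ℝ)
      (r : ℝ → ℝ) (P' : ℕ → List (Fin n) × Fin n → ℝ → ℝ → ℝ)
      (Λ : Finset (Fin n) → Fin n → ℝ → ℝ → ℝ)
      (PB : ℕ → List (Fin n) × Fin n → ℝ → ℝ → ℝ) (H : PkT hn S P r P' Λ PB),
      GoalN ((H.nk hTop hF).chg (H.rle ((1 - η D) * D)) H.up)) : LocE n η MicRt := by
  intro hn hZ D hD hD1 hE al g₀ s d hal hg₀ _ e K₀ N S he hC P r hT hr
  have hTop : TopS n := tops_ext hZ hi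
  have hF : FZX (n - 1) := hZ (n - 1) (by omega) (by omega)
  obtain ⟨S', P', Λ, PB, -, -, H⟩ := pkT_ex hn hal hg₀ hC hT hr
  exact (hG hn hZ hF hTop D hD hD1 hE S' P r P' Λ PB H).micW (hT.law ())
    (fun a w h0 h1 h2 => ⟨hT.low () a w h0 h1 h2, hT.up () a w h0 h1 h2⟩)
    (H.rle ((1 - η D) * D)).lip'

/-- **`CellE n η` from the statements about one class.** -/
theorem cellE_ofN {η : ℝ → ℝ} (hi : ∀ k, 2 ≤ k → k < n → Ext0 k)
    (hG : ∀ (hn : 2 ≤ n) (_ : ∀ k, 1 ≤ k → k < n → FZX k) (hF : FZX (n - 1)) (hTop : TopS n)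
      (D : ℝ), 0 < D → D ≤ 1 → Ext n ((1 + η D) * D) → ∀ (S : PCl n) (P : ℝ → ℝ → ℝ)
      (r : ℝ → ℝ) (P' : ℕ → List (Fin n) × Fin n → ℝ → ℝ → ℝ)
      (Λ : Finset (Fin n) → Fin n → ℝ → ℝ → ℝ)
      (PB : ℕ → List (Fin n) × Fin n → ℝ → ℝ → ℝ) (H : PkT hn S P r P' Λ PB),
      GoalN ((H.nk hTop hF).chg (H.rle ((1 - η D) * D)) H.up))
    (hR : LocE n η MicRt → ∀ (hn : 2 ≤ n) (_ : ∀ k, 1 ≤ k → k < n → FZX k) (hF : FZX (n - 1))
      (hTop : TopS n) (D : ℝ), 0 < D → D ≤ 1 → Ext n ((1 + η D) * D) → ∀ (S : PCl n)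
      (P : ℝ → ℝ → ℝ) (r : ℝ → ℝ) (P' : ℕ → List (Fin n) × Fin n → ℝ → ℝ → ℝ)
      (Λ : Finset (Fin n) → Fin n → ℝ → ℝ → ℝ)
      (PB : ℕ → List (Fin n) × Fin n → ℝ → ℝ → ℝ) (H : PkT hn S P r P' Λ PB),
      ∃ q : ((H.nk hTop hF).chg (H.rle ((1 - η D) * D)) H.up).Par, q.cell.Play3) :
    CellE n η := by
  have hM := micRt_ofN hi hG
  intro hn hZ D hD hD1 hE al g₀ s d hal hg₀ _ e K₀ N S he hC P r hT hr
  have hTop : TopS n := tops_ext hZ hi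
  have hF : FZX (n - 1) := hZ (n - 1) (by omega) (by omega)
  obtain ⟨S', P', Λ, PB, -, -, H⟩ := pkT_ex hn hal hg₀ hC hT hr
  obtain ⟨⟨p, hJ⟩, hI⟩ := hG hn hZ hF hTop D hD hD1 hE S' P r P' Λ PB H
  obtain ⟨q, hq⟩ := hR hM hn hZ hF hTop D hD hD1 hE S' P r P' Λ PB H
  exact NumI.full_iso3 (hT.law ())
    (fun a w h0 h1 h2 => ⟨hT.low () a w h0 h1 h2, hT.up () a w h0 h1 h2⟩) p q hJ hq hI

/-- **The open statements which give the micro input**, for the rows with deficit more than `h`: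
no boxes, and windows of three kinds. -/
structure ClassN (H : PkT hn S P r P' Λ PB) (hTop : TopS n) (hF : FZX (n - 1)) (h : ℝ) : Prop where
  /-- (MIC) -/
  noBS : ∃ p : ((H.nk hTop hF).chg (H.rle h) H.up).Par, p.cell.NoJS ∨ p.cell.NoBS
  /-- (C), (D2): iso or static over the order, or a static target -/
  win : ∀ o : Od n, ∀ᵐ g : ℝ, RwH H hTop hF h o g →
    IsoAt (PT hn PB o) g ∨ StaAt (PT hn PB o) g ∨ StaU1 P g

theorem ClassN.goalN {H : PkT hn S P r P' Λ PB} {hTop : TopS n} {hF : FZX (n - 1)} {h : ℝ}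
    (hC : ClassN H hTop hF h) : GoalN ((H.nk hTop hF).chg (H.rle h) H.up) := by
  refine ⟨hC.noBS, fun o : Od n => ?_⟩
  filter_upwards [H.rwH_ae hTop hF h o, ae_rowD (ρ := rt r h) (W := univ) (H.tgs.law ()) (hC.win o)]
    with Q k1 k2 hrow ho _
  exact k2 hrow (k1 hrow ho)

/-- **Three kinds of windows** from the statements (C), (D2). In (D2) the target may be static. -/
theorem classN_of {H : PkT hn S P r P' Λ PB} {hTop : TopS n} {hF : FZX (n - 1)} {h : ℝ}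
    (noBS : ∃ p : ((H.nk hTop hF).chg (H.rle h) H.up).Par, p.cell.NoJS ∨ p.cell.NoBS)
    (thin : ∀ o : Od n, ∀ᵐ g : ℝ, RwH H hTop hF h o g → deriv (fun a => P a a) g ≤ 2 →
      Mac (PT hn PB o) g → STR.ThinAt P (PT hn PB o) g ∨ STR.SteepAt 2 (PT hn PB o) g ∨
        IsoAt (PT hn PB o) g ∨ StaAt (PT hn PB o) g ∨ StaU1 P g)
    (two : ∀ o : Od n, ∀ᵐ g : ℝ, RwH H hTop hF h o g → 2 < deriv (fun a => P a a) g →
      Mac (PT hn PB o) g → StaAt (PT hn PB o) g ∨ StaAt P g) : ClassN H hTop hF h := by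
  refine ⟨noBS, fun o : Od n => ?_⟩
  have hlaw := H.tgs.law ()
  have hL : Law (PT hn PB o) := (H.nk hTop hF).hPT o
  filter_upwards [thin o, two o, STR.isoS_or_mac hL, STR.dia_ae hL, (H.nk hTop hF).derT_ae hlaw o]
    with g k2 k3 k5 k6 k4 R
  have hg0 := R.rwd.g0
  have hg1 := R.rwd.g1
  have hlt : PT hn PB o g g < 1 :=
    lt_of_le_of_lt (H.le o g g hg0 le_rfl hg1.le) R.rwd.val
  rcases k5 hg0 hg1 hlt with hiso | hmac
  · exact Or.inl hiso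
  have hder := (k4 R.rwd.mem hg0 hg1).2
  rcases le_or_gt (deriv (fun a => P a a) g) 2 with h2 | h2
  · rcases k2 R h2 hmac with h3 | h3 | h3 | h3 | h3
    · exact Or.inl (STR.iso_of_thin hL hg0 hg1 hlt (k6 hg0 hg1)
        (fun a w a0 a1 a2 => H.le o a w a0 a1 a2) h3)
    · exact Or.inr (Or.inl (STR.sta_of_steep (k6 hg0 hg1) (hder.trans_le h2) h3))
    · exact Or.inl h3
    · exact Or.inr (Or.inl h3)
    · exact Or.inr (Or.inr h3)
  · rcases k3 R h2 hmac with h3 | h3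
    · exact Or.inr (Or.inl h3)
    · exact Or.inr (Or.inr ⟨h3, by linarith⟩)

/-- **`KP m` from the open statements about one class**, with three kinds of windows. -/
theorem kp_of_classN {m : ℕ} (hm : 1 ≤ m) (η : ℕ → ℝ → ℝ) (hη : ∀ n D, 0 < D → 0 < η n D)
    (hη1 : ∀ n D, 0 < D → η n D ≤ 1)
    (hG : ∀ n : ℕ, 2 ≤ n → n ≤ m → (∀ k, 2 ≤ k → k < n → Ext0 k) →
      ∀ (hn : 2 ≤ n) (_ : ∀ k, 1 ≤ k → k < n → FZX k) (hF : FZX (n - 1)) (hTop : TopS n)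
      (D : ℝ), 0 < D → D ≤ 1 → Ext n ((1 + η n D) * D) → ∀ (S : PCl n) (P : ℝ → ℝ → ℝ)
      (r : ℝ → ℝ) (P' : ℕ → List (Fin n) × Fin n → ℝ → ℝ → ℝ)
      (Λ : Finset (Fin n) → Fin n → ℝ → ℝ → ℝ)
      (PB : ℕ → List (Fin n) × Fin n → ℝ → ℝ → ℝ) (H : PkT hn S P r P' Λ PB),
      ClassN H hTop hF ((1 - η n D) * D))
    (hR : ∀ n : ℕ, 2 ≤ n → n ≤ m → (∀ k, 2 ≤ k → k < n → Ext0 k) → LocE n (η n) MicRt →
      ∀ (hn : 2 ≤ n) (_ : ∀ k, 1 ≤ k → k < n → FZX k) (hF : FZX (n - 1)) (hTop : TopS n)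
      (D : ℝ), 0 < D → D ≤ 1 → Ext n ((1 + η n D) * D) → ∀ (S : PCl n) (P : ℝ → ℝ → ℝ)
      (r : ℝ → ℝ) (P' : ℕ → List (Fin n) × Fin n → ℝ → ℝ → ℝ)
      (Λ : Finset (Fin n) → Fin n → ℝ → ℝ → ℝ)
      (PB : ℕ → List (Fin n) × Fin n → ℝ → ℝ → ℝ) (H : PkT hn S P r P' Λ PB),
      ClassJ H hTop hF ((1 - η n D) * D))
    (hT : ∀ n, 2 ≤ n → n ≤ m → (∀ k, 2 ≤ k → k < n → Ext0 k) →
      LocE n (η n) fun P r _ => TopW P r) : KP m := by
  have hG' := fun n h1 h2 h3 hn hZ hF hTop D d1 d2 d3 S P r P' Λ PB H =>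
    (hG n h1 h2 h3 hn hZ hF hTop D d1 d2 d3 S P r P' Λ PB H).goalN
  have hR' := fun n h1 h2 h3 hM hn hZ hF hTop D d1 d2 d3 S P r P' Λ PB H =>
    (hR n h1 h2 h3 hM hn hZ hF hTop D d1 d2 d3 S P r P' Λ PB H).play3
  have hC : ∀ n, 2 ≤ n → n ≤ m → (∀ k, 2 ≤ k → k < n → Ext0 k) → CellE n (η n) :=
    fun n h1 h2 h3 => cellE_ofN h3 (hG' n h1 h2 h3) (hR' n h1 h2 h3)
  exact kp_indE hm η hη (fun n h1 h2 h3 => (hC n h1 h2 h3).mic (hη1 n))
    (fun n h1 h2 h3 => (hC n h1 h2 h3).sta (hη1 n)) fun n h1 h2 h3 =>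
      jmpE_of_top (hη1 n) ((hC n h1 h2 h3).mic (hη1 n)) ((hC n h1 h2 h3).sta (hη1 n))
        (hT n h1 h2 h3)

end Pool.PKG
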