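import Pool.Agent.H54.SLW.Ts
import Pool.Agent.H77.Z4.Nor3
import Pool.Agent.H66.D2.Kp3

/-!
# The cells of (D2)

At a good window every coordinate `l` before the place `i` has a kind: slope one, thin with slope
more than one, or static with slope at least two (`kd_ae`). `Cell H hTop hF h κ`: the statement (D2)
for the target at the place `κ.length`, at the windows where the coordinates before it have the kinds
`κ`: if the slope of the target is more than two and its fat boxes are `2`-steep, it is static on its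
natural boxes. `TwoAt H hTop hF h i`: (D2) for the place `i`. `twoAt_of`: it follows from the cells.
`TwoAt.big`: the input of the static chains. `classN_two`: `ClassN` from `noBS` and (D2) for all places.
-/

set_option autoImplicit false

namespace Pool.PKG

open MeasureTheory Set Filter Topology
open Pool.Agent.H49.Ent Pool.Agent.H32.Dense Pool.STK Pool.KA Pool.KSAT Pool.K2S Pool.PB
open Pool.GEN Pool.S6C Pool.STAT Pool.CHT Pool.GRW Pool.ONE Pool.STA
open Pool.LBT (LSys ThrOf)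
open Pool.LEV (Law Lv)
open Pool.TOP (TopS)
open Pool.STR (ThinAt SteepAt StaAt Mac StaU1)

variable {n : ℕ} {hn : 2 ≤ n} {S : PCl n} {P : ℝ → ℝ → ℝ} {r : ℝ → ℝ}
  {P' : ℕ → List (Fin n) × Fin n → ℝ → ℝ → ℝ} {Λ : Finset (Fin n) → Fin n → ℝ → ℝ → ℝ}
  {PB : ℕ → List (Fin n) × Fin n → ℝ → ℝ → ℝ}

/-- The kinds of a coordinate of an order at a window. -/
inductive Kd
  | one
  | thin
  | sta

/-- **The kind of a coordinate**: slope one; thin with slope more than one; static with slope at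
least two. -/
def KdAt (hn : 2 ≤ n) (P : ℝ → ℝ → ℝ) (P' PB : ℕ → List (Fin n) × Fin n → ℝ → ℝ → ℝ) (o : Od n)
    (l : ℕ) (g : ℝ) : Kd → Prop
  | .one => deriv (fun a => LvL hn P P' o l a a) g = 1
  | .thin => 1 < deriv (fun a => LvL hn P P' o l a a) g ∧
      ThinAt (LvL hn P P' o l) (LvT hn PB o l) g
  | .sta => 2 ≤ deriv (fun a => LvL hn P P' o l a a) g ∧ StaAt (LvL hn P P' o l) g

/-- **(D2) at the place `i`** of the orders, at the rows with deficit more than `h`. -/
def TwoAt (H : PkT hn S P r P' Λ PB) (hTop : TopS n) (hF : FZX (n - 1)) (h : ℝ) (i : ℕ) : Prop :=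
  ∀ o : Od n, ∀ᵐ g : ℝ, RwH H hTop hF h o g → (∀ l < i, ThS hn P P' PB o l g) →
    2 < deriv (fun a => LvL hn P P' o i a a) g → SteepAt 2 (LvT hn PB o i) g →
    StaAt (LvL hn P P' o i) g

/-- **A cell of (D2)**: the place is the length of `κ`, and the coordinates before it have the kinds
`κ`. -/
def Cell (H : PkT hn S P r P' Λ PB) (hTop : TopS n) (hF : FZX (n - 1)) (h : ℝ) (κ : List Kd) :
    Prop :=
  ∀ o : Od n, ∀ᵐ g : ℝ, RwH H hTop hF h o g → (∀ l < κ.length, ThS hn P P' PB o l g) →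
    (∀ (l : ℕ) (hl : l < κ.length), KdAt hn P P' PB o l g κ[l]) →
    2 < deriv (fun a => LvL hn P P' o κ.length a a) g → SteepAt 2 (LvT hn PB o κ.length) g →
    StaAt (LvL hn P P' o κ.length) g

/-- The active coordinate has the slope one. -/
theorem one_zero (H : PkT hn S P r P' Λ PB) (hTop : TopS n) (hF : FZX (n - 1)) (o : Od n) :
    ∀ᵐ g : ℝ, g ∈ Gs P r P' Λ o → deriv (fun a => LvL hn P P' o 0 a a) g = 1 := by
  have hlaw : Law (LL hn P P' o 1) := Pool.Z4.ll_law (H.toPk) o (i := 0) (by omega)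
  have e0 : LvL hn P P' o 0 = LL hn P P' o 1 := Pool.Z4.lvL_eq o (by omega)
  rw [e0]
  filter_upwards [Pool.Z4.nogap_ae (H.toPk.gs_meas o), STR.dia_ae hlaw] with g h1 h2 hg
  have g0 : 0 < g := hg.1.1.1
  have g1 : g < 1 := hg.1.1.2.1
  have hd := h2 g0 g1
  refine le_antisymm ?_ ?_
  · by_contra hcon
    push Not at hcon
    obtain ⟨s, hs⟩ : ∃ s, s = deriv (fun a => LL hn P P' o 1 a a) g := ⟨_, rfl⟩
    rw [← hs] at hcon
    have h3 := hd.hasDerivAt.isLittleO.def (show 0 < (s - 1) / 2 by linarith)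
    obtain ⟨η, hη, h4⟩ := Metric.eventually_nhds_iff.1 h3
    obtain ⟨w, hw, k1, k2⟩ := (h1 hg).low hη
    have k3 := h4 (y := w) (by rw [Real.dist_eq, abs_lt]; constructor <;> linarith)
    have e1 := H.toPk.act_diag hTop hF hg
    have e2 := H.toPk.act_diag hTop hF hw
    rw [Real.norm_eq_abs, Real.norm_eq_abs, smul_eq_mul, ← hs, e1, e2,
      abs_of_neg (show w - g < 0 by linarith)] at k3
    have k4 := (abs_le.1 k3).2
    nlinarith
  · refine one_le_slope hlaw g0 g1 ?_ hd
    obtain ⟨α, Q, c, F⟩ := H.toPk.fac hTop hF hg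
    rw [H.toPk.act_diag hTop hF hg]
    exact g1

/-- **The kinds** at almost every good window. -/
theorem kd_ae (H : PkT hn S P r P' Λ PB) (hTop : TopS n) (hF : FZX (n - 1)) :
    ∀ᵐ g : ℝ, ∀ o : Od n, g ∈ Gs P r P' Λ o → ∀ i ≤ n - 1, (∀ l < i, ThS hn P P' PB o l g) →
      ∀ l < i, ∃ k : Kd, KdAt hn P P' PB o l g k := by
  filter_upwards [H.slow_thin hTop hF, H.sta_slope hTop hF, H.dia_all H.pble hTop hF]
    with g h1 h2 h3 o ho i hi hl l hli
  obtain ⟨α, Q, c, F⟩ := H.toPk.fac hTop hF ho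
  obtain ⟨d1, d2, d3⟩ := h3 o ho l (by omega)
  have hlt : LvL hn P P' o l g g < 1 := by
    obtain ⟨E, hE, h4, -⟩ := F.ptD H.toPk
    have h5 := h4 l (by omega)
    have h6 : LvL hn P P' o l g g = Pool.ISO.lvN (P' o.2) (cc hn o.1.1) (n - 1) P l g g := rfl
    rw [h6]
    linarith
  have hone : 1 ≤ deriv (fun a => LvL hn P P' o l a a) g :=
    one_le_slope (H.lawL o l) F.g0 F.g1 hlt d1
  rcases hone.eq_or_lt with h4 | h4
  · exact ⟨.one, h4.symm⟩
  · rcases hl l hli with h5 | h5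
    · exact ⟨.thin, h4, h5⟩
    · rcases h2 o ho l (by omega) (fun j hj => hl j (by omega)) h5 with h6 | h6
      · exact absurd h4 (not_lt.2 h6)
      · exact ⟨.sta, h6, h5⟩

theorem Cell.use {H : PkT hn S P r P' Λ PB} {hTop : TopS n} {hF : FZX (n - 1)} {h : ℝ}
    {κ : List Kd} {i : ℕ} (hC : Cell H hTop hF h κ) (hi : κ.length = i) {f : ℕ → Kd}
    (hf : ∀ (l : ℕ) (hl : l < κ.length), κ[l] = f l) (o : Od n) :
    ∀ᵐ g : ℝ, RwH H hTop hF h o g → (∀ l < i, ThS hn P P' PB o l g) →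
      (∀ l < i, KdAt hn P P' PB o l g (f l)) → 2 < deriv (fun a => LvL hn P P' o i a a) g →
      SteepAt 2 (LvT hn PB o i) g → StaAt (LvL hn P P' o i) g := by
  subst hi
  filter_upwards [hC o] with g k1 R hl hk hs hst
  exact k1 R hl (fun l hl' => by
    rw [hf l hl']
    exact hk l hl') hs hst

/-- **(D2) at the place `i`** from the cells of length `i` whose first kind is `one`. -/
theorem twoAt_of (H : PkT hn S P r P' Λ PB) (hTop : TopS n) (hF : FZX (n - 1)) {h : ℝ} {i : ℕ}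
    (hi : 1 ≤ i) (hin : i ≤ n - 1)
    (hC : ∀ κ : List Kd, κ.length + 1 = i → Cell H hTop hF h (Kd.one :: κ)) :
    TwoAt H hTop hF h i := by
  intro o
  have hK : Finite Kd := by
    refine Finite.of_injective (fun k : Kd => match k with
      | .one => (0 : Fin 3) | .thin => 1 | .sta => 2) ?_
    intro a b hab
    cases a <;> cases b <;> simp_all
  have hcount : Countable {κ : List Kd // κ.length + 1 = i} := by
    have : Countable Kd := Finite.to_countable
    infer_instance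
  have hall : ∀ᵐ g : ℝ, ∀ κ : {κ : List Kd // κ.length + 1 = i}, RwH H hTop hF h o g →
      (∀ l < i, ThS hn P P' PB o l g) →
      (∀ l < i, KdAt hn P P' PB o l g ((Kd.one :: κ.1).getD l .one)) →
      2 < deriv (fun a => LvL hn P P' o i a a) g → SteepAt 2 (LvT hn PB o i) g →
      StaAt (LvL hn P P' o i) g := by
    refine ae_all_iff.2 fun κ => ?_
    refine (hC κ.1 κ.2).use (f := fun l => (Kd.one :: κ.1).getD l .one) ?_ ?_ o
    · rw [List.length_cons]
      exact κ.2
    · intro l hl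
      exact (List.getD_eq_getElem _ _ hl).symm
  filter_upwards [hall, kd_ae H hTop hF, one_zero H hTop hF o] with g k1 k2 k3 R hl hs hst
  have h4 : ∀ l, ∃ k : Kd, l < i → KdAt hn P P' PB o l g k := fun l => by
    by_cases h5 : l < i
    · obtain ⟨k, hk⟩ := k2 o R.rwd.mem i hin hl l h5
      exact ⟨k, fun _ => hk⟩
    · exact ⟨.one, fun h6 => absurd h6 h5⟩
  choose f hf using h4
  refine k1 ⟨List.ofFn fun l : Fin (i - 1) => f (l + 1), by
    rw [List.length_ofFn]
    omega⟩ R hl (fun l hli => ?_) hs hst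
  rcases Nat.eq_zero_or_pos l with h5 | h5
  · rw [h5]
    exact k3 R.rwd.mem
  · obtain ⟨j, rfl⟩ : ∃ j, l = j + 1 := ⟨l - 1, by omega⟩
    have h6 : ((Kd.one :: List.ofFn fun l : Fin (i - 1) => f (l + 1)).getD (j + 1) .one) =
        f (j + 1) := by
      rw [List.getD_cons_succ, List.getD_eq_getElem _ _ (by rw [List.length_ofFn]; omega),
        List.getElem_ofFn]
    rw [h6]
    exact hf (j + 1) hli

/-- **The input of the static chains** about the coordinates of the order with large slopes. -/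
theorem TwoAt.big {H : PkT hn S P r P' Λ PB} {hTop : TopS n} {hF : FZX (n - 1)} {h : ℝ}
    (hT : ∀ i, 1 ≤ i → i < n - 1 → TwoAt H hTop hF h i) (o : Od n) :
    ∀ᵐ g : ℝ, RwH H hTop hF h o g → ∀ i, 1 ≤ i → i < n - 1 → (∀ l < i, ThS hn P P' PB o l g) →
      2 < deriv (fun a => LL hn P P' o (i + 1) a a) g → SteepAt 2 (LvT hn PB o i) g →
      StaAt (LL hn P P' o (i + 1)) g := by
  have h1 : ∀ i : ℕ, ∀ᵐ g : ℝ, RwH H hTop hF h o g → 1 ≤ i → i < n - 1 →
      (∀ l < i, ThS hn P P' PB o l g) → 2 < deriv (fun a => LL hn P P' o (i + 1) a a) g →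
      SteepAt 2 (LvT hn PB o i) g → StaAt (LL hn P P' o (i + 1)) g := fun i => by
    by_cases hi : 1 ≤ i ∧ i < n - 1
    swap
    · exact Eventually.of_forall fun g _ k1 k2 => absurd ⟨k1, k2⟩ hi
    filter_upwards [hT i hi.1 hi.2 o] with g k R _ _ hl hs hst
    have e1 : LvL hn P P' o i = LL hn P P' o (i + 1) := Pool.Z4.lvL_eq o (by omega)
    rw [e1] at k
    exact k R hl hs hst
  filter_upwards [ae_all_iff.2 h1] with g k R i
  exact k i R

/-- **`ClassN`** from `noBS` and (D2) for all places of the orders. -/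
theorem classN_two {H : PkT hn S P r P' Λ PB} {hTop : TopS n} {hF : FZX (n - 1)} {h : ℝ}
    (noBS : ∃ p : ((H.nk hTop hF).chg (H.rle h) H.up).Par, p.cell.NoJS ∨ p.cell.NoBS)
    (hT : ∀ i, 1 ≤ i → i ≤ n - 1 → TwoAt H hTop hF h i) : ClassN H hTop hF h := by
  refine ⟨noBS, fun o : Od n => ?_⟩
  have hlaw := H.tgs.law ()
  have hL : Law (PT hn PB o) := (H.nk hTop hF).hPT o
  have hEv : ∀ Sb del : ℝ, 1 ≤ Sb → 0 < del → EvTC (n - 1) Sb del := fun Sb del h1 h2 =>
    evTC (n - 1) (by omega) Sb del h1 h2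
  filter_upwards [TwoAt.big (fun i h1 h2 => hT i h1 (by omega)) o, hT (n - 1) (by omega) le_rfl o,
    Pool.Z4.ths_of H hTop hF, H.mac_of H.pble hTop hF hEv, STR.dia_ae hL,
    (H.nk hTop hF).derT_ae hlaw o] with g k1 k2 k3 k4 k6 k5 R
  have hg0 := R.rwd.g0
  have hg1 := R.rwd.g1
  have hlt : PT hn PB o g g < 1 :=
    lt_of_le_of_lt (H.le o g g hg0 le_rfl hg1.le) R.rwd.val
  have hder := (k5 R.rwd.mem hg0 hg1).2
  have hB := k3 o R.rwd.mem fun i h1 h2 => k1 R i h1 h2
  have eL : LvL hn P P' o (n - 1) = P := by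
    funext a w
    exact LvL_top o a w
  rcases k4 o R.rwd.mem hB with h3 | h3
  · exact Or.inl (STR.iso_of_thin hL hg0 hg1 hlt (k6 hg0 hg1)
      (fun a w a0 a1 a2 => H.le o a w a0 a1 a2) h3)
  · rcases le_or_gt (deriv (fun a => P a a) g) 2 with h2 | h2
    · exact Or.inr (Or.inl (STR.sta_of_steep (k6 hg0 hg1) (hder.trans_le h2) h3))
    · rw [eL, LvT_top] at k2
      exact Or.inr (Or.inr ⟨k2 R hB h2 h3, by linarith⟩)

end Pool.PKG
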