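import Pool.Agent.H66.D2.Apa
import Pool.Agent.H23.D2.Rce

/-!
# The numbers of the windows of a static cell, in real form

`apN_of`: `ApN` from the record and the event of the windows.
-/

set_option autoImplicit false

namespace Pool.TN

open Finset Real MvPolynomial
open Pool.Agent.H49.Ent Pool.Agent.H32.Dense Pool.STK Pool.KA Pool.KSAT Pool.K2S Pool.PB Pool.S6C
open Pool.GEN Pool.CHT Pool.CHX Pool.ISO Pool.D2R Pool.D2Z Pool.D2F Pool.AFT Pool.PKG
open Pool.LBT (ThrOf)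
open Pool.FLF (Fam.sub)
open Pool.PB.Trl (rt rt_mem t_rt)

open Pool.D2R in
/-- **The numbers of the windows** from the record and the event of the windows. -/
theorem apN_of {m : ℕ} {S : PCl m} {P P₂ : List (Fin m) × Fin m → ℝ → ℝ → ℝ} {θ θ₂ : ℝ}
    {c : ℕ → Fin m} {i : ℕ} {Pt : ℝ → ℝ → ℝ} {L T : ℕ → ℝ → ℝ → ℝ} {Sl : ℕ → ℝ} {kd : ℕ → Kd}
    {S₀ N : ℕ} {Al V : ℕ → ℝ} {S₂ N' : ℕ} {V' : ℕ → ℝ} {Eb e₂ K ε q t : ℝ}
    (R : RecQ S P P₂ θ θ₂ c i Pt L T Sl kd S₀ N Al V S₂ N' V' Eb e₂ K ε q t) {y A' : ℝ}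
    (hy : 0 < y) (hεy : ε ≤ y / 4) (hAK : A' ≤ K) {N₁ : ℕ} {v : ℕ → ℝ}
    (hv : ∀ k ≤ N₁, -K ≤ v k ∧ v k ≤ A') (hm : ∀ k ≤ N₁, ∃ j < N, Al j = A' ∧ V j = v k)
    {Sc : ℕ → Prop} (hsc : ∀ l < i, Sc l → kd l = .sta) {J D Dr M : ℕ} {F : Fam m J}
    (hJ : 2 ≤ y * (q * J)) {e h pp : ℕ → ℕ} {z g gc gT g₀ : ℕ → ℕ → ℕ} {κ : ℝ} {B : F.Ω → Prop}
    {G : ℕ → PtT F → ℕ → MvPolynomial (Option (Fin m)) ℝ}
    {H : ℕ → LnT F → ℕ → MvPolynomial (Option (Fin m)) ℝ}
    {Th : ℕ → PtT F → ℕ → MvPolynomial (Option (Fin m)) ℝ}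
    {TH : ℕ → LnT F → ℕ → MvPolynomial (Option (Fin m)) ℝ}
    {Gt : ℕ → PtT F → MvPolynomial (Option (Fin m)) ℝ}
    {Ht : ℕ → LnT F → MvPolynomial (Option (Fin m)) ℝ}
    (E : CEv F c i D Dr N₁ M ⌊(t + A' * q) * J⌋₊ ⌊y * q * J⌋₊ Sc
      (fun k => ⌊(t + v k * q) * J⌋₊) e h pp z g gc gT g₀ κ B G H Th TH Gt Ht)
    (hn : ∀ k ≤ N₁, ((e k : ℝ) ≤ (Eb + y * q) * J ∧ (h k : ℝ) ≤ y * q * J) ∧
      (L i (t + A' * q) (t + v k * q) * J - y * q * J ≤ pp k ∧
        (pp k : ℝ) ≤ L i (t + A' * q) (t + v k * q) * J) ∧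
      (∀ l ≤ i, |(g₀ k l : ℝ) - L l (t + v k * q) (t + v k * q) * J| ≤ y * q * J ∧
        |(g k l : ℝ) - L l (t + v k * q) (t + v k * q) * J| ≤ y * q * J) ∧
      ∀ l < i, Sc l → |(gT k l : ℝ) - L l (t + A' * q) (t + v k * q) * J| ≤ y * q * J) :
    ApN i N₁ J ⌊(t + A' * q) * J⌋₊ ⌊y * q * J⌋₊ Sc (fun k => ⌊(t + v k * q) * J⌋₊) e pp g gc gT g₀
      (q * J) y (t * J) (Eb * J) K A' v Sl (fun l => L l t t * J) := by
  have hq := R.q0
  have hJ0 : (0 : ℝ) ≤ J := Nat.cast_nonneg J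
  have hU0 : 0 ≤ q * J := by positivity
  have hyU : y * q * J = y * (q * J) := by ring
  have hUpos : 0 < q * J := by
    rcases hU0.eq_or_lt with h1 | h1
    · rw [← h1, mul_zero] at hJ
      linarith
    · exact h1
  have hεU : ε * (q * J) ≤ y / 4 * (q * J) := mul_le_mul_of_nonneg_right hεy hU0
  have hKq : ∀ x : ℝ, x ≤ K → x * q ≤ K * q := fun x hx => mul_le_mul_of_nonneg_right hx hq.le
  have hKq' : ∀ x : ℝ, -K ≤ x → -(K * q) ≤ x * q := fun x hx => by
    have := mul_le_mul_of_nonneg_right hx hq.le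
    linarith
  have ht0 := R.t0
  have ht1 := R.t1
  have hx0 : ∀ k ≤ N₁, 0 ≤ (t + v k * q) * J := fun k hk => by
    have := hKq' _ (hv k hk).1
    have h1 : 0 ≤ t + v k * q := by linarith
    positivity
  have hvA : ∀ k ≤ N₁, v k * q ≤ A' * q := fun k hk => mul_le_mul_of_nonneg_right (hv k hk).2 hq.le
  have hA0 : 0 ≤ (t + A' * q) * J := by
    have h1 := hx0 0 (Nat.zero_le _)
    have h2 := hvA 0 (Nat.zero_le _)
    have h3 : (t + v 0 * q) * J ≤ (t + A' * q) * J :=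
      mul_le_mul_of_nonneg_right (by linarith) hJ0
    linarith
  have hbx : ∀ k ≤ N₁, |t + v k * q - t| ≤ K * q := fun k hk => by
    have h1 := hKq' _ (hv k hk).1
    have h2 := hvA k hk
    have h3 := hKq _ hAK
    rw [abs_le]
    constructor <;> linarith
  have hLd : ∀ k ≤ N₁, ∀ l ≤ i, L l t t * J + Sl l * v k * (q * J) - y / 4 * (q * J) ≤
      L l (t + v k * q) (t + v k * q) * J ∧ L l (t + v k * q) (t + v k * q) * J ≤
      L l t t * J + Sl l * v k * (q * J) + y / 4 * (q * J) := by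
    intro k hk l hl
    have h1 := abs_le.1 (R.dL l hl _ (hbx k hk))
    have h2 := mul_le_mul_of_nonneg_right h1.1 hJ0
    have h3 := mul_le_mul_of_nonneg_right h1.2 hJ0
    constructor <;> nlinarith
  have hww : ∀ k ≤ N₁, t * J + v k * (q * J) - 1 ≤ (⌊(t + v k * q) * J⌋₊ : ℝ) ∧
      (⌊(t + v k * q) * J⌋₊ : ℝ) ≤ t * J + v k * (q * J) := fun k hk => by
    have h1 := Nat.floor_le (hx0 k hk)
    have h2 := Nat.lt_floor_add_one ((t + v k * q) * J)
    constructor <;> nlinarith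
  have hAA : t * J + A' * (q * J) - 1 ≤ (⌊(t + A' * q) * J⌋₊ : ℝ) ∧
      (⌊(t + A' * q) * J⌋₊ : ℝ) ≤ t * J + A' * (q * J) := by
    have h1 := Nat.floor_le hA0
    have h2 := Nat.lt_floor_add_one ((t + A' * q) * J)
    constructor <;> nlinarith
  have hyU0 : 0 ≤ y * q * J := by positivity
  have hcl := Nat.floor_le hyU0
  have hcl' := Nat.lt_floor_add_one (y * q * J)
  have hwA : ∀ k ≤ N₁, ⌊(t + v k * q) * J⌋₊ ≤ ⌊(t + A' * q) * J⌋₊ := fun k hk =>
    Nat.floor_le_floor (mul_le_mul_of_nonneg_right (by linarith [hvA k hk]) hJ0)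
  have hb : ∀ k ≤ N₁, ∀ l ≤ i, L l t t * J + Sl l * v k * (q * J) - 2 * (y * (q * J)) ≤ g k l ∧
      (g k l : ℝ) ≤ L l t t * J + Sl l * v k * (q * J) + 2 * (y * (q * J)) := fun k hk l hl => by
    have h1 := abs_le.1 ((hn k hk).2.2.1 l hl).2
    have h2 := hLd k hk l hl
    rw [hyU] at h1
    constructor <;> nlinarith
  refine
    { U0 := hUpos
      y0 := hy
      yU := hJ
      cl1 := by rw [← hyU]; exact hcl
      cl2 := by rw [← hyU]; linarith
      AJ := E.AJ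
      A1 := hAA.1
      A2 := hAA.2
      w1 := hww
      wA := hwA
      wm := fun k hk k' hk' h1 => Nat.floor_le_floor (mul_le_mul_of_nonneg_right (by
        have := mul_le_mul_of_nonneg_right h1 hq.le
        linarith) hJ0)
      ga := fun k hk l hl => ?_
      gb := hb
      gd := fun k hk l hl => ?_
      ng := E.ng
      gr := fun k hk l hl hs => E.t_rg hk hl hs
      gs := fun k hk l hl hs => ?_
      pa := fun k hk => ?_
      lo := fun k hk l hl => ?_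
      ro := fun l hl => ?_
      ee := fun k hk => ?_
      sl := RecQ.sl1 R }
  · have h1 := abs_le.1 ((hn k hk).2.2.1 l hl).1
    have h2 := hLd k hk l hl
    rw [hyU] at h1
    constructor <;> nlinarith
  · obtain ⟨-, -, h3, h4⟩ := E.ng k hk l hl
    have h5 := hb k hk l hl
    have h6 := hww k hk
    have h7 : ((⌊(t + A' * q) * J⌋₊ - ⌊(t + v k * q) * J⌋₊ : ℕ) : ℝ) =
        ⌊(t + A' * q) * J⌋₊ - ⌊(t + v k * q) * J⌋₊ := by
      rw [Nat.cast_sub (hwA k hk)]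
    have h8 : (g k l : ℝ) + ((⌊(t + A' * q) * J⌋₊ - ⌊(t + v k * q) * J⌋₊ : ℕ) : ℝ) ≤
        gc k l + ⌊y * q * J⌋₊ := by exact_mod_cast h3
    have h9 : (gc k l : ℝ) ≤ g k l + ((⌊(t + A' * q) * J⌋₊ - ⌊(t + v k * q) * J⌋₊ : ℕ) : ℝ) +
        ⌊y * q * J⌋₊ := by exact_mod_cast h4
    rw [h7] at h8 h9
    rw [hyU] at hcl hcl' h8 h9
    constructor <;> linarith
  · have h1 := abs_le.1 ((hn k hk).2.2.2 l hl hs)
    rw [hyU] at h1
    have hkd := R.kd l hl
    rw [hsc l hl hs] at hkd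
    obtain ⟨-, hkd⟩ := hkd
    have hvA' := hvA k hk
    have hK1 := hKq' _ (hv k hk).1
    have hK2 := hKq _ hAK
    have h2 := hkd (t + A' * q) (t + v k * q) (by linarith) (by linarith) (by linarith)
    have h3 := (R.lawL l hl.le).mono_w (t + A' * q) (t + v k * q) (t + A' * q)
      (by linarith) (by linarith) le_rfl (by linarith)
    have h4 := abs_le.1 (R.dL l hl.le (t + A' * q) (by
      rw [abs_le]
      constructor <;> linarith))
    have h5 := mul_le_mul_of_nonneg_right h2 hJ0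
    have h6 := mul_le_mul_of_nonneg_right h3 hJ0
    have h7 := mul_le_mul_of_nonneg_right h4.1 hJ0
    have h8 := mul_le_mul_of_nonneg_right h4.2 hJ0
    constructor <;> nlinarith
  · have h1 := (hn k hk).2.1.1
    rw [hyU] at h1
    have hvA' := hvA k hk
    have hK1 := hKq' _ (hv k hk).1
    have hK2 := hKq _ hAK
    have h2 := R.stp (t + A' * q) (t + v k * q) (by linarith) (by linarith) (by linarith)
    obtain ⟨j, hj, hj1, hj2⟩ := hm k hk
    have h3 := (R.TL j hj i le_rfl).1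
    rw [hj1, hj2] at h3
    have h4 := abs_le.1 (R.dT i le_rfl _ (hbx k hk))
    have h5 := mul_le_mul_of_nonneg_right h2 hJ0
    have h6 := mul_le_mul_of_nonneg_right h3 hJ0
    have h7 := mul_le_mul_of_nonneg_right h4.1 hJ0
    nlinarith
  · obtain ⟨j, hj, -, hj2⟩ := hm k hk
    have hK1 := hKq' _ (hv k hk).1
    have hvA' := hvA k hk
    have hK2 := hKq _ hAK
    have h2 := RecQ.lowL R (x := v k) (Or.inl ⟨j, hj, hj2⟩) (by linarith) (by linarith) l hl
    have h3 := hLd k hk l hl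
    have h4 := mul_le_mul_of_nonneg_right h2 hJ0
    have h5 := mul_le_mul_of_nonneg_right ht0.le hJ0
    nlinarith
  · have h1 := R.room l hl (t + K * q) (by
      rw [add_sub_cancel_left, abs_of_nonneg (by
        have := hKq' _ (hv 0 (Nat.zero_le _)).1
        have h3 := hvA 0 (Nat.zero_le _)
        have h2 := hKq _ hAK
        linarith)])
    have h2 := abs_le.1 (R.dL l hl (t + K * q) (by
      rw [add_sub_cancel_left, abs_of_nonneg (by
        have := hKq' _ (hv 0 (Nat.zero_le _)).1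
        have h3 := hvA 0 (Nat.zero_le _)
        have h2 := hKq _ hAK
        linarith)]))
    have h3 := mul_le_mul_of_nonneg_right h1.le hJ0
    have h4 := mul_le_mul_of_nonneg_right h2.1 hJ0
    nlinarith
  · have h1 := (hn k hk).1.1
    nlinarith

end Pool.TN
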