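import Pool.Agent.H66.D2.Cop
import Pool.Agent.H19.BFL.Stmts
import Pool.Agent.H68.OWN.Cnt

/-!
# D2: a full variable kills the coefficients

If `P` is nearly full given `W` (which knows the cells of `alpha`, `beta` up to few bits) and
`∑ alpha j P j + 2 ^ s beta` is bounded on an event, then `alpha` is small on most of the event.
-/

set_option autoImplicit false

namespace Pool.D2A

open Finset Real
open Pool.Agent.H49.Ent Pool.Agent.H32.Dense Pool.STK
open Pool.BFL (Pb)
open Pool.OWN68 (bx mem_bx card_bx)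

variable {Ω τ : Type} [Fintype Ω] {k : ℕ}

/-- The cells. -/
noncomputable def cl (s : ℕ) (α : Fin k → ℝ) (β : ℝ) : (Fin k → ℤ) × ℤ :=
  (fun j => ⌊(2 : ℝ) ^ s * α j⌋, ⌊(2 : ℝ) ^ s * β⌋)

theorem cl_near {s : ℕ} {a b : ℝ} (h : ⌊(2 : ℝ) ^ s * a⌋ = ⌊(2 : ℝ) ^ s * b⌋) :
    |2 ^ s * a - 2 ^ s * b| ≤ 1 := (Int.abs_sub_lt_one_of_floor_eq_floor h).le

/-- The box with one coordinate fixed. -/
theorem card_fix (k M : ℕ) (j : Fin k) :
    ((Fintype.piFinset fun i => if i = j then {(0 : ℤ)} else Finset.Icc (-(M : ℤ)) M).card : ℝ) *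
      (2 * (M : ℝ) + 1) = (2 * (M : ℝ) + 1) ^ k := by
  classical
  rw [Fintype.card_piFinset]
  push_cast
  have e : ∀ i : Fin k, ((if i = j then {(0 : ℤ)} else Finset.Icc (-(M : ℤ)) M).card : ℝ) =
      if i = j then 1 else 2 * (M : ℝ) + 1 := by
    intro i
    by_cases h : i = j
    · rw [if_pos h, if_pos h]
      simp
    · rw [if_neg h, if_neg h, Pool.OWN68.card_I]
      push_cast
      ring
  rw [Finset.prod_congr rfl fun i _ => e i, ← Finset.mul_prod_erase _ _ (Finset.mem_univ j),
    if_pos rfl, one_mul]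
  have e2 : ∀ i ∈ (Finset.univ : Finset (Fin k)).erase j,
      (if i = j then (1 : ℝ) else 2 * (M : ℝ) + 1) = 2 * (M : ℝ) + 1 := fun i hi =>
    if_neg (Finset.ne_of_mem_erase hi)
  rw [Finset.prod_congr rfl e2, Finset.prod_const, Finset.card_erase_of_mem (Finset.mem_univ j),
    Finset.card_univ, Fintype.card_fin, ← pow_succ]
  congr 1
  have := j.2
  omega

open Classical in
/-- **A full variable kills the coefficients.** -/
theorem read_lin {p : Ω → ℝ} (hp : IsLaw p) (W : Ω → τ) {A : ℕ} (hA : 1 ≤ A)
    (s g : ℕ) (P : Ω → Fin k → ℤ) (α : Ω → Fin k → ℝ) (β : Ω → ℝ)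
    (Ev : Ω → Prop) {D e e' : ℝ} (hD : 0 ≤ D)
    (hP : ∀ ω, 0 < p ω → ∀ j, |P ω j| ≤ ((A * 2 ^ s : ℕ) : ℤ))
    (hfull : k * (s * Real.log 2) - e' ≤ CH p P W)
    (hcell : CH p (fun ω => cl s (α ω) (β ω)) W ≤ e)
    (hrel : ∀ ω, 0 < p ω → Ev ω → |∑ j, α ω j * P ω j + 2 ^ s * β ω| ≤ D) :
    Pb p (fun ω => Ev ω ∧ ∃ j, 1 / 2 ^ g ≤ |α ω j|) *
        (((s : ℝ) - g) * Real.log 2 - Real.log (2 * (2 * D + k * A + 1) + 1)) ≤
      e + e' + Real.log (k + 1) + k * Real.log (2 * A + 1) := by
  have h0 := hp.nonneg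
  have hln : 0 < Real.log 2 := Real.log_pos (by norm_num)
  obtain ⟨Bd, hBd⟩ : ∃ Bd : Ω → Prop, Bd = fun ω => Ev ω ∧ ∃ j, 1 / 2 ^ g ≤ |α ω j| := ⟨_, rfl⟩
  rw [← hBd]
  have hBj : ∀ ω, Bd ω → ∃ j, 1 / 2 ^ g ≤ |α ω j| := fun ω h => by
    rw [hBd] at h
    exact h.2
  have hBe : ∀ ω, Bd ω → Ev ω := fun ω h => by
    rw [hBd] at h
    exact h.1
  obtain ⟨M, hM⟩ : ∃ M, M = A * 2 ^ s := ⟨_, rfl⟩
  rw [← hM] at hP
  have hExPb : ∀ c : ℝ, Ex p (fun ω => (if Bd ω then (1 : ℝ) else 0) * c) = Pb p Bd * c := by
    intro c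
    unfold Ex Pb
    rw [Finset.sum_mul]
    refine Finset.sum_congr rfl fun ω _ => ?_
    by_cases hb : Bd ω
    · simp only [if_pos hb]
      ring
    · simp only [if_neg hb]
      ring
  -- the large coefficient
  obtain ⟨J, hJ⟩ : ∃ J : Ω → Option (Fin k),
    J = fun ω => if h : Bd ω then some (hBj ω h).choose else none := ⟨_, rfl⟩
  have hJn : ∀ ω, ¬Bd ω → J ω = none := fun ω h => by
    rw [hJ]
    exact dif_neg h
  have hJs : ∀ ω, Bd ω → ∃ j, J ω = some j ∧ 1 / 2 ^ g ≤ |α ω j| := fun ω h => by
    refine ⟨(hBj ω h).choose, ?_, (hBj ω h).choose_spec⟩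
    rw [hJ]
    exact dif_pos h
  have hJb : ∀ ω j, J ω = some j → Bd ω ∧ 1 / 2 ^ g ≤ |α ω j| := by
    intro ω j h
    by_cases hb : Bd ω
    · obtain ⟨i, h1, h2⟩ := hJs ω hb
      rw [h] at h1
      have : j = i := Option.some.inj h1
      subst this
      exact ⟨hb, h2⟩
    · rw [hJn ω hb] at h
      exact absurd h (by simp)
  -- the other coordinates
  obtain ⟨P', hP'⟩ : ∃ P' : Ω → Fin k → ℤ, P' = fun ω =>
    (J ω).elim (P ω) (fun j => Function.update (P ω) j 0) := ⟨_, rfl⟩
  obtain ⟨x, hx⟩ : ∃ x : Ω → ℤ, x = fun ω => (J ω).elim 0 (fun j => P ω j) := ⟨_, rfl⟩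
  obtain ⟨Y, hY⟩ : ∃ Y : Ω → Option (Fin k) × ((Fin k → ℤ) × ℤ),
    Y = fun ω => (J ω, cl s (α ω) (β ω)) := ⟨_, rfl⟩
  -- the label
  have c1 : CH p Y W ≤ Real.log (k + 1) + e := by
    have h1 := CH_subadd h0 J (fun ω => cl s (α ω) (β ω)) W
    have h2 := CH_le_card h0 hp.sum_one J W (fun _ => (Finset.univ : Finset (Option (Fin k))))
      (fun ω _ => Finset.mem_univ _)
    rw [Ex_const hp.sum_one, Finset.card_univ, Fintype.card_option, Fintype.card_fin] at h2
    push_cast at h2
    rw [hY]
    linarith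
  -- the other coordinates given the label
  have c2 : CH p P' (fun ω => (Y ω, W ω)) ≤
      k * Real.log (2 * (M : ℝ) + 1) - Pb p Bd * Real.log (2 * (M : ℝ) + 1) := by
    have h1 := CH_le_card h0 hp.sum_one P' (fun ω => (Y ω, W ω))
      (fun y => y.1.1.elim (bx k M) (fun j =>
        Fintype.piFinset fun i => if i = j then {(0 : ℤ)} else Finset.Icc (-(M : ℤ)) M))
      (by
        intro ω hω
        have hb := hP ω hω
        rw [hP', hY]
        dsimp only
        cases hc : J ω with
        | none =>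
          simp only [Option.elim_none]
          exact mem_bx.mpr hb
        | some j =>
          simp only [Option.elim_some]
          rw [Fintype.mem_piFinset]
          intro i
          by_cases h : i = j
          · subst h
            rw [Function.update_self, if_pos rfl]
            simp
          · rw [Function.update_of_ne h, if_neg h, Finset.mem_Icc]
            exact abs_le.mp (hb i))
    refine h1.trans ?_
    have h2 : ∀ ω, Real.log ((((fun y : (Option (Fin k) × ((Fin k → ℤ) × ℤ)) × τ =>
        y.1.1.elim (bx k M) (fun j =>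
        Fintype.piFinset fun i => if i = j then {(0 : ℤ)} else Finset.Icc (-(M : ℤ)) M))
          (Y ω, W ω)).card : ℕ) : ℝ) =
        k * Real.log (2 * (M : ℝ) + 1) - (if Bd ω then 1 else 0) * Real.log (2 * (M : ℝ) + 1) := by
      intro ω
      rw [hY]
      dsimp only
      have hM0 : (0 : ℝ) < 2 * M + 1 := by positivity
      cases hc : J ω with
      | none =>
        have hb : ¬Bd ω := fun hb => by
          obtain ⟨j, h1, _⟩ := hJs ω hb
          rw [hc] at h1
          exact absurd h1 (by simp)
        rw [if_neg hb]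
        simp only [Option.elim_none]
        rw [card_bx]
        push_cast
        rw [Real.log_pow]
        ring
      | some j =>
        have hb := (hJb ω j hc).1
        rw [if_pos hb]
        simp only [Option.elim_some]
        have h3 := card_fix k M j
        have h4 : (0 : ℝ) < ((Fintype.piFinset fun i => if i = j then {(0 : ℤ)} else
            Finset.Icc (-(M : ℤ)) M).card : ℝ) := by
          refine lt_of_le_of_ne (Nat.cast_nonneg _) fun h => ?_
          rw [← h, zero_mul] at h3
          exact absurd h3 (by positivity)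
        have h5 := congrArg Real.log h3
        rw [Real.log_mul h4.ne' hM0.ne', Real.log_pow] at h5
        linarith
    refine le_of_eq ?_
    have h3 : Ex p (fun ω => k * Real.log (2 * (M : ℝ) + 1) -
        (if Bd ω then (1 : ℝ) else 0) * Real.log (2 * (M : ℝ) + 1)) =
        k * Real.log (2 * (M : ℝ) + 1) - Pb p Bd * Real.log (2 * (M : ℝ) + 1) := by
      rw [Ex_sub, Ex_const hp.sum_one, hExPb]
    rw [← h3]
    unfold Ex
    exact Finset.sum_congr rfl fun ω _ => congrArg (fun z => p ω * z) (h2 ω)
  -- the last coordinate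
  obtain ⟨K, hK⟩ : ∃ K : ℝ, K = 2 * D + k * A + 1 := ⟨_, rfl⟩
  have hK0 : 0 < K := by rw [hK]; positivity
  have c3 : CH p x (fun ω => (P' ω, (Y ω, W ω))) ≤
      Pb p Bd * (g * Real.log 2 + Real.log (2 * K + 1)) := by
    have h1 := CH_le_int h0 hp.sum_one x (fun ω => (P' ω, (Y ω, W ω)))
      (fun ω => if Bd ω then K * 2 ^ g else 0) (by
        intro ω ω' hω hω' h
        simp only [Prod.mk.injEq] at h
        obtain ⟨e1, e2, e3⟩ := h
        rw [hY] at e2
        simp only [Prod.mk.injEq] at e2
        obtain ⟨e4, e5⟩ := e2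
        by_cases hb : Bd ω
        · rw [if_pos hb]
          obtain ⟨j, hj, hαj⟩ := hJs ω hb
          have hj' : J ω' = some j := by rw [← e4]; exact hj
          have hb' := (hJb ω' j hj').1
          have hr := hrel ω hω (hBe ω hb)
          have hr' := hrel ω' hω' (hBe ω' hb')
          have ho : ∀ i, i ≠ j → P ω i = P ω' i := by
            intro i hi
            rw [hP'] at e1
            dsimp only at e1
            rw [hj, hj'] at e1
            have h2 := congrFun e1 i
            simp only [Option.elim_some] at h2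
            rw [Function.update_of_ne hi, Function.update_of_ne hi] at h2
            exact h2
          have hxj : x ω = P ω j := by rw [hx]; dsimp only; rw [hj]; rfl
          have hxj' : x ω' = P ω' j := by rw [hx]; dsimp only; rw [hj']; rfl
          have hS0 : (0 : ℝ) < 2 ^ s := by positivity
          -- the cells
          have hcβ : |2 ^ s * β ω - 2 ^ s * β ω'| ≤ 1 := cl_near (Prod.ext_iff.mp e5).2
          have hcα : ∀ i, |α ω i - α ω' i| * 2 ^ s ≤ 1 := by
            intro i
            have h2 := cl_near (congrFun (Prod.ext_iff.mp e5).1 i)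
            rw [← mul_sub, abs_mul, abs_of_pos hS0] at h2
            linarith
          have hPR : ∀ i, |(P ω' i : ℝ)| ≤ A * 2 ^ s := by
            intro i
            have h2 : ((|P ω' i| : ℤ) : ℝ) ≤ ((M : ℤ) : ℝ) := by exact_mod_cast hP ω' hω' i
            rw [hM] at h2
            push_cast at h2
            exact h2
          have hsum : |∑ i, (α ω i - α ω' i) * P ω' i| ≤ k * A := by
            refine (Finset.abs_sum_le_sum_abs _ _).trans ?_
            refine (Finset.sum_le_card_nsmul _ _ (A : ℝ) fun i _ => ?_).trans ?_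
            · rw [abs_mul]
              calc |α ω i - α ω' i| * |(P ω' i : ℝ)| ≤ |α ω i - α ω' i| * (A * 2 ^ s) :=
                    mul_le_mul_of_nonneg_left (hPR i) (abs_nonneg _)
                _ = A * (|α ω i - α ω' i| * 2 ^ s) := by ring
                _ ≤ A * 1 := mul_le_mul_of_nonneg_left (hcα i) (Nat.cast_nonneg _)
                _ = A := mul_one _
            · rw [Finset.card_univ, Fintype.card_fin, nsmul_eq_mul]
          have hkey : α ω j * ((P ω j : ℝ) - P ω' j) =
              (∑ i, α ω i * P ω i + 2 ^ s * β ω) - (∑ i, α ω' i * P ω' i + 2 ^ s * β ω') -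
                ∑ i, (α ω i - α ω' i) * P ω' i - (2 ^ s * β ω - 2 ^ s * β ω') := by
            have h2 : ∑ i, α ω i * (P ω i : ℝ) = ∑ i, α ω i * (P ω' i : ℝ) +
                α ω j * ((P ω j : ℝ) - P ω' j) := by
              have h3 : ∑ i, α ω i * ((P ω i : ℝ) - P ω' i) =
                  α ω j * ((P ω j : ℝ) - P ω' j) := by
                refine Finset.sum_eq_single j (fun i _ hi => ?_) (fun h => absurd (mem_univ _) h)
                rw [ho i hi]
                ring
              rw [← h3, ← Finset.sum_add_distrib]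
              exact Finset.sum_congr rfl fun i _ => by ring
            have h4 : ∑ i, (α ω i - α ω' i) * (P ω' i : ℝ) =
                ∑ i, α ω i * (P ω' i : ℝ) - ∑ i, α ω' i * (P ω' i : ℝ) := by
              rw [← Finset.sum_sub_distrib]
              exact Finset.sum_congr rfl fun i _ => by ring
            rw [h2, h4]
            ring
          have h5 : |α ω j| * |(P ω j : ℝ) - P ω' j| ≤ K := by
            rw [← abs_mul, hkey, hK]
            have a1 := abs_sub ((∑ i, α ω i * P ω i + 2 ^ s * β ω) -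
              (∑ i, α ω' i * P ω' i + 2 ^ s * β ω') - ∑ i, (α ω i - α ω' i) * P ω' i)
              (2 ^ s * β ω - 2 ^ s * β ω')
            have a2 := abs_sub ((∑ i, α ω i * P ω i + 2 ^ s * β ω) -
              (∑ i, α ω' i * P ω' i + 2 ^ s * β ω')) (∑ i, (α ω i - α ω' i) * P ω' i)
            have a3 := abs_sub (∑ i, α ω i * P ω i + 2 ^ s * β ω)
              (∑ i, α ω' i * P ω' i + 2 ^ s * β ω')
            linarith
          have h6 : 1 / 2 ^ g * |(P ω j : ℝ) - P ω' j| ≤ K :=
            (mul_le_mul_of_nonneg_right hαj (abs_nonneg _)).trans h5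
          have h7 : |(P ω j : ℝ) - P ω' j| ≤ K * 2 ^ g := by
            rw [one_div, inv_mul_le_iff₀ (by positivity)] at h6
            linarith
          rw [hxj, hxj']
          push_cast
          exact h7
        · rw [if_neg hb]
          have hn := hJn ω hb
          have hn' : J ω' = none := by rw [← e4]; exact hn
          rw [hx]
          dsimp only
          rw [hn, hn']
          simp)
    refine h1.trans ?_
    have h2 : Ex p (fun ω => Real.log (2 * (if Bd ω then K * 2 ^ g else 0) + 1)) ≤
        Ex p (fun ω => (if Bd ω then (1 : ℝ) else 0) *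
          (g * Real.log 2 + Real.log (2 * K + 1))) := by
      refine Ex_mono h0 fun ω _ => ?_
      by_cases hb : Bd ω
      · rw [if_pos hb, if_pos hb, one_mul, ← Real.log_pow, ← Real.log_mul (by positivity)
          (by positivity)]
        refine Real.log_le_log (by positivity) ?_
        have : (1 : ℝ) ≤ 2 ^ g := one_le_pow₀ (by norm_num)
        nlinarith
      · rw [if_neg hb, if_neg hb]
        simp
    exact h2.trans (le_of_eq (hExPb _))
  -- assembly
  have c4 : CH p P (fun ω => (Y ω, W ω)) ≤
      CH p P' (fun ω => (Y ω, W ω)) + CH p x (fun ω => (P' ω, (Y ω, W ω))) := by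
    have h1 := CH_chain h0 x P' (fun ω => (Y ω, W ω))
    rw [← h1]
    refine CH_mono_left h0 fun ω ω' _ _ h => ?_
    simp only [Prod.mk.injEq] at h
    obtain ⟨⟨e1, e2⟩, e3, _⟩ := h
    rw [hY] at e3
    simp only [Prod.mk.injEq] at e3
    have e4 := e3.1
    rw [hP'] at e2
    rw [hx] at e1
    dsimp only at e1 e2
    cases hc : J ω with
    | none =>
      rw [hc] at e4
      rw [hc, ← e4] at e2
      exact e2
    | some j =>
      rw [hc] at e4
      rw [hc, ← e4] at e1 e2
      simp only [Option.elim_some] at e1 e2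
      funext i
      by_cases h : i = j
      · subst h
        exact e1
      · have h2 := congrFun e2 i
        rw [Function.update_of_ne h, Function.update_of_ne h] at h2
        exact h2
  have c5 := CH_le_add h0 P Y W
  have hL1 : s * Real.log 2 ≤ Real.log (2 * (M : ℝ) + 1) := by
    rw [← Real.log_pow]
    refine Real.log_le_log (by positivity) ?_
    rw [hM]
    push_cast
    have h1 : (1 : ℝ) ≤ A := by exact_mod_cast hA
    have h2 : (0 : ℝ) < 2 ^ s := by positivity
    nlinarith
  have hL2 : Real.log (2 * (M : ℝ) + 1) ≤ s * Real.log 2 + Real.log (2 * A + 1) := by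
    rw [← Real.log_pow, ← Real.log_mul (by positivity) (by positivity)]
    refine Real.log_le_log (by positivity) ?_
    rw [hM]
    push_cast
    have h2 : (1 : ℝ) ≤ 2 ^ s := one_le_pow₀ (by norm_num)
    nlinarith
  have hPb0 : 0 ≤ Pb p Bd := by
    unfold Pb
    refine Finset.sum_nonneg fun ω _ => ?_
    split_ifs
    exacts [h0 ω, le_rfl]
  rw [hK] at c3
  have h6 : Pb p Bd * (s * Real.log 2) ≤ Pb p Bd * Real.log (2 * (M : ℝ) + 1) :=
    mul_le_mul_of_nonneg_left hL1 hPb0
  have h7 : k * Real.log (2 * (M : ℝ) + 1) ≤ k * (s * Real.log 2 + Real.log (2 * A + 1)) :=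
    mul_le_mul_of_nonneg_left hL2 (Nat.cast_nonneg _)
  nlinarith

end Pool.D2A
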