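import Pool.Agent.H66.D2.Stc

/-!
# The package `StP` on the event of a static cell: assembly
-/

set_option autoImplicit false

namespace Pool.TN

open Finset Real MvPolynomial
open Pool.Agent.H49.Ent Pool.Agent.H32.Dense Pool.STK Pool.KA Pool.KSAT Pool.K2S Pool.PB Pool.S6C
open Pool.GEN Pool.CHT Pool.CHX Pool.ISO Pool.D2R Pool.D2Z Pool.D2F
open Pool.FLF (Fam.sub)
open Pool.PB.Trl (rt rt_mem t_rt)

variable {m J : ℕ}

/-- **The package `StP`** on the event of a static cell. -/
theorem stp_cev (D r : ℕ) : ∃ C : ℕ, 1 ≤ C ∧ ∀ {m J : ℕ} {F : Fam m J} {c : ℕ → Fin m}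
    {Dr N M A cl : ℕ} {Sc : ℕ → Prop} {w e h pp : ℕ → ℕ} {z g gc gT g₀ : ℕ → ℕ → ℕ} {κ : ℝ}
    {B : F.Ω → Prop} {G : ℕ → PtT F → ℕ → MvPolynomial (Option (Fin m)) ℝ}
    {H : ℕ → LnT F → ℕ → MvPolynomial (Option (Fin m)) ℝ}
    {T : ℕ → PtT F → ℕ → MvPolynomial (Option (Fin m)) ℝ}
    {TH : ℕ → LnT F → ℕ → MvPolynomial (Option (Fin m)) ℝ}
    {Gt : ℕ → PtT F → MvPolynomial (Option (Fin m)) ℝ}
    {Ht : ℕ → LnT F → MvPolynomial (Option (Fin m)) ℝ},
    CEv F c r D Dr N M A cl Sc w e h pp z g gc gT g₀ κ B G H T TH Gt Ht → C ≤ cl →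
    ∀ {i₀ i₁ i₂ i₃ X p x d eM : ℕ} {g' : ℕ → ℕ},
    NumW r N M A cl J Sc w e pp z g gc gT g₀ i₀ i₁ i₂ i₃ X p x g' → e i₂ ≤ eM → e i₃ ≤ eM →
    (∀ y < r, g₀ i₃ y ≤ g' y + d) →
    (∀ l < r, Sc l → ∀ y < l, g₀ i₃ y ≤ g' y + X ∨
      (y + 1 = l ∧ w i₂ + g₀ i₂ y + g₀ i₃ l ≤ w i₃ + g₀ i₂ l + g' y + X)) →
    StP F c r Sc D (w i₂) (w i₃) A (eM + d + C * (cl + X + 1)) d (g₀ i₃) g' (gT i₂) p
      (2 ^ (C * (cl + X + 1))) B (G i₃) (H i₃) (Xcf w TH Sc i₀ i₂)
      (fun s => Ht i₁ (co (w i₂ - w i₁) s)) (Sgf T G Sc i₀ i₂) (gpt F (G i₃))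
      (fun y => grd (Gt i₁ y) (bho J J y)) := by
  obtain ⟨C₁, hC₁, hwf⟩ := wf_cev D r
  obtain ⟨C₂, hC₂, hvls⟩ := CEv.vls D r
  obtain ⟨C₃, hC₃, hvlr⟩ := CEv.vlr D r
  obtain ⟨C₄, hC₄, hvln⟩ := CEv.vln D r
  obtain ⟨C₅, hC₅, hrnd⟩ := chn_rnd D (r + 1)
  obtain ⟨S, hS⟩ : ∃ S, S = wE r + (5 * r + 10) * r + r + 2 := ⟨_, rfl⟩
  obtain ⟨C, hC⟩ : ∃ C, C = C₁ * S + C₁ + C₂ + C₃ + C₄ + C₅ + 20 * (r + 2) := ⟨_, rfl⟩
  refine ⟨C, by omega, ?_⟩
  intro m J F c Dr N M A cl Sc w e h pp z g gc gT g₀ κ B G H T TH Gt Ht E hcl i₀ i₁ i₂ i₃ X p x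
    d eM g' n he2 he3 hd hx2
  obtain ⟨q, hq⟩ : ∃ q, q = cl + X + 1 := ⟨_, rfl⟩
  obtain ⟨Z, hZ⟩ : ∃ Z, Z = C₁ * (cl + X + 1) := ⟨_, rfl⟩
  obtain ⟨Zf, hZf⟩ : ∃ Z, Z = C * (cl + X + 1) := ⟨_, rfl⟩
  rw [← hZf]
  -- the numbers
  have hq1 : 1 ≤ q := by omega
  have e0 : Zf = C₁ * q * S + C₁ * q + C₂ * q + C₃ * q + C₄ * q + C₅ * q +
      20 * (r + 2) * q := by
    rw [hZf, ← hq, hC]
    ring
  have hZq : Z = C₁ * q := by rw [hZ, hq]
  have e1 : C₁ * q * S = Z * wE r + Z * ((5 * r + 10) * r) + Z * r + 2 * Z := by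
    rw [hS, hZq]
    ring
  have e2 : 20 * (r + 2) * q = 20 * (r * q) + 40 * q := by ring
  have e3 : r ≤ r * q := Nat.le_mul_of_pos_right _ (by omega)
  have e4 : C₂ * (cl + 1) ≤ C₂ * q := Nat.mul_le_mul_left _ (by omega)
  have e5 : C₃ * (cl + 1) ≤ C₃ * q := Nat.mul_le_mul_left _ (by omega)
  have e6 : C₄ * (cl + X + 1) ≤ C₄ * q := Nat.mul_le_mul_left _ (by omega)
  have hC' : C₁ ≤ cl ∧ C₂ ≤ cl ∧ C₃ ≤ cl ∧ C₄ ≤ cl ∧ C₅ ≤ cl := by omega
  have hZr : (Z + 1) * r = Z * r + r := by ring
  have h0 := n.h0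
  have h1 := n.h1
  have h2 := n.h2
  have h3 := n.h3
  have hw1 := n.w0
  have hw2 := n.w2
  have eA2 := E.wA i₂ h2
  have eA3 := E.wA i₃ h3
  have eAJ := E.AJ
  have hc := E.inj
  have hc' : Set.InjOn c (Set.Iio r) := hc.mono (Set.Iio_subset_Iio (by omega))
  have hY1 : (1 : ℝ) ≤ 2 ^ Zf := one_le_pow₀ (by norm_num)
  have hYp : ∀ {a b : ℕ}, a ≤ Zf + b → (2 : ℝ) ^ a ≤ 2 ^ Zf * 2 ^ b := fun hab => by
    rw [← pow_add]
    exact p2 hab
  have hdk : ∀ {a b s : ℕ}, s + b ≤ Zf + a → (2 : ℝ) ^ s / 2 ^ a ≤ 2 ^ Zf / 2 ^ b :=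
      fun hab => by
    rw [div_le_div_iff₀ (by positivity) (by positivity), ← pow_add, ← pow_add]
    exact p2 hab
  have hdq : ∀ {a b s u v : ℕ}, s + u + b ≤ Zf + v + a →
      (2 : ℝ) ^ s * 2 ^ u / 2 ^ a ≤ 2 ^ Zf * (2 ^ v / 2 ^ b) := fun hab => by
    rw [← mul_div_assoc, div_le_div_iff₀ (by positivity) (by positivity), ← pow_add, ← pow_add,
      ← pow_add, ← pow_add]
    exact p2 hab
  have up : ∀ {a : ℕ} {s y : ℝ}, 0 ≤ s → y ≤ (2 ^ Z) ^ wE r / 2 ^ a * s →
      y ≤ 2 ^ Zf / 2 ^ a * s := fun hs hy => by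
    refine hy.trans (mul_le_mul_of_nonneg_right (div_le_div_of_nonneg_right ?_ (by positivity))
      hs)
    rw [← pow_mul]
    exact p2 (by omega)
  have hW := fun ω (hω : B ω) => by
    have h4 := hwf E hC'.1 n ω hω
    rw [← hZ] at h4
    exact h4
  have hkc := fun ω => kc_Xcf (TH := TH) (Sc := Sc) hw1 (eA2.trans eAJ) ω
  have hΦ : ∀ ω, Ht i₁ (co (w i₂ - w i₁) (slam F (w i₂) ω)) = Ht i₁ (slam F (w i₁) ω) := fun ω => by
    rw [co_slam F n.w1 (eA2.trans eAJ)]
  have hgc : ∀ i ≤ N, cl ≤ gc i r := fun i hi => by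
    have := (n.pos i hi).2.1 r le_rfl
    omega
  have hpp : ∀ i ≤ N, cl ≤ pp i := fun i hi => (n.pos i hi).2.2
  have hnb : ∀ ω, B ω → Nc c (g₀ i₃) (w i₃) (r + 1) 1
      (fun l => grd (G i₃ (ptr F J ω) l) (bt F ω)) (gpt F (G i₃) (ptr F J ω)) := fun ω hω =>
    hrnd hc (E.evs i₃ h3).ball (fun l hl => by
      have a1 := E.room i₃ h3 l (by omega)
      have a2 := E.ng i₃ h3 l (by omega)
      omega) ω hω
  -- the static sides
  have hgF1 : ∀ l < r, g i₂ l + (w i₃ - w i₂) ≤ g' l + (cl + X) := fun l hl => by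
    by_cases hs : Sc l
    · have := n.up l hl.le
      have := n.sp l hl hs
      omega
    · have a1 := n.rT l hl hs
      have a2 := E.t_rg h2 hl hs
      have a3 := E.ng i₂ h2 l hl.le
      omega
  have hgF2 : ∀ l < r, ¬ Sc l → g' l ≤ g i₂ l + (w i₃ - w i₂) + cl := fun l hl hs => by
    have a1 := n.rT l hl hs
    have a2 := E.t_rg h2 hl hs
    have a3 := E.ng i₂ h2 l hl.le
    omega
  have hpc := n.pc
  have hng3 := fun l hl => E.ng i₃ h3 l hl
  -- the coefficients of the ball
  have hlΓ : ∀ ω, B ω → ∀ l ≤ r, ∀ j < l, |gpt F (G i₃) (ptr F J ω) l (some (c j))| ≤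
      2 ^ ((e i₃ + (r + 1)) + nlp (g₀ i₃) j l) := by
    intro ω hω l hl j hj
    have hcl' : Set.InjOn c (Set.Iio l) := hc.mono (Set.Iio_subset_Iio (by omega))
    have h4 := coe_near (r := l) hcl' (g := g₀ i₃) (e := e i₃) (χ := gG G ω i₃)
      (fun j => cvc_grd ((E.evs i₃ h3).ball.depG _ j) _)
      (fun l' hl' j hj => lip_bt (E.evs i₃ h3).ball hω (by omega) hj) (X := 1) zero_le_one
      (ψ := gpt F (G i₃) (ptr F J ω) l) (fun V h0' => by
        have h5 := hnb ω hω l (by omega) V
        rw [en_sz _ _ _ _ _ h0'] at h5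
        exact h5) hj
    refine h4.trans ?_
    have h6 : (1 : ℝ) + 1 * l ≤ 2 ^ (r + 1) := by
      have h7 : l + 1 ≤ 2 ^ (r + 1) := (by omega : l + 1 ≤ r + 1).trans Nat.lt_two_pow_self.le
      have h8 : ((l + 1 : ℕ) : ℝ) ≤ ((2 ^ (r + 1) : ℕ) : ℝ) := by exact_mod_cast h7
      push_cast at h8
      linarith
    refine (mul_le_mul_of_nonneg_right h6 (by positivity)).trans ?_
    rw [← pow_add]
    exact p2 (by omega)
  exact
    { num :=
        { y2 := by
            calc (2 : ℝ) = 2 ^ 1 := (pow_one 2).symm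
              _ ≤ 2 ^ Zf := p2 (by omega)
          yn := by
            have h4 : (r : ℝ) ≤ 2 ^ r := by
              have := (Nat.lt_two_pow_self (n := r)).le
              exact_mod_cast this
            exact h4.trans (p2 (by omega))
          sT := fun l hl hs => by
            rw [← mul_div_assoc, div_le_div_iff₀ (by positivity) (by positivity), ← pow_add,
              ← pow_add, ← pow_add]
            refine p2 ?_
            have a1 := n.stK l hl hs
            have a2 := n.mo0 l hl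
            have a3 := hng3 r le_rfl
            omega
          sg := fun l hl hs => by
            rw [n.sp l hl hs]
            exact le_mul_of_one_le_left (by positivity) hY1
          rT := fun l hl hs => by
            rw [← mul_div_assoc, div_le_div_iff₀ (by positivity) (by positivity), ← pow_add,
              ← pow_add, ← pow_add]
            refine p2 ?_
            have a1 := n.rT l hl hs
            have a2 := n.vp
            omega
          rK := fun l hl => hYp (by
            by_cases hs : Sc l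
            · rw [n.sp l hl hs]
              omega
            · have a1 := hgF2 l hl hs
              have a4 := n.up l hl.le
              omega)
          tg := fun j hj hs y hy => by
            rw [← pow_add, ← pow_add]
            refine hYp ?_
            have a1 := n.rT j hj hs
            by_cases hsy : Sc y
            · have a2 := n.sp y hy hsy
              have a3 := n.stK y hy hsy
              have a4 := n.mo0 y hy
              omega
            · have a2 := n.rT y hy hsy
              omega }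
      dX := fun s l => by
        unfold Xcf
        split_ifs
        · exact (E.evs i₀ h0).thin.degH _ l
        · exact (E.evs i₂ h2).thin.degH _ l
      dP := fun s => (E.evs i₁ h1).dH _
      dH := fun s l => (E.evs i₃ h3).ball.degH s l
      pX := fun s l => by
        unfold Xcf
        split_ifs
        · exact (E.evs i₀ h0).thin.depH _ l
        · exact (E.evs i₂ h2).thin.depH _ l
      pP := fun s => (E.evs i₁ h1).pH _
      pH := fun s l => (E.evs i₃ h3).ball.depH s l
      cσ := fun y l => mx_cvc (fun l => cvc_grd ((E.evs i₀ h0).thin.depG y l) _)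
        (fun l => cvc_grd ((E.evs i₂ h2).ball.depG y l) _) l
      cΓ := fun y l => cvc_grd ((E.evs i₃ h3).ball.depG y l) _
      cγ := fun y => cvc_grd ((E.evs i₁ h1).pG y) _
      nb := fun ω hω => (hnb ω hω).mono hY1
      dif := fun ω hω l hl => by
        have h4 := (E.row i₃ h3 i₃ h3 le_rfl 0 (by have := hpp i₃ h3; omega)
          (by have := hgc i₃ h3; omega)).dif ω hω l hl
        refine ⟨fun V => (h4.1 V).trans (mul_le_mul_of_nonneg_right
          (div_le_div_of_nonneg_right (p2 (by omega)) (by positivity))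
          (nrm_nonneg _ _ _ _ _ _ _)), fun V V' Z => (h4.2 V V' Z).trans
          (mul_le_mul_of_nonneg_right (div_le_div_of_nonneg_right (p2 (by omega))
          (by positivity)) (add_nonneg (mul_nonneg (nrm_nonneg _ _ _ _ _ _ _)
          (nrm_nonneg _ _ _ _ _ _ _)) (nrz_nonneg _ _ _ _ _ _ _ _ _)))⟩
      vb := fun ω hω => by
        rw [nrm_en]
        refine ((E.bdG h3 (hpp i₃ h3) (hgc i₃ h3) hω).2 r le_rfl).trans
          (mul_le_mul_of_nonneg_right ((one_r r cl).trans (p2 (by omega))) (by positivity))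
      cur := fun ω hω l hl V => by
        have h4 := E.hG h3 (hpp i₃ h3) (hgc i₃ h3) hω hl V
        rw [nrm_en]
        refine h4.trans (mul_le_mul_of_nonneg_right ?_ (en_nonneg _ _ _ _ _ _))
        rw [mul_div_assoc]
        exact mul_le_mul_of_nonneg_right (p2 (by omega)) (by positivity)
      h1 := fun ω hω l hl hs V hV => by
        rw [hkc]
        exact up (sz_nonneg _ _ _ _ _) (((hW ω hω).out hV).1 l hl hs)
      h1' := fun ω hω l hl hs V hV =>
        up (sz_nonneg _ _ _ _ _) (((hW ω hω).out hV).2.1 l hl hs)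
      h2 := fun ω hω l hl hs V hV => by
        rw [hkc]
        exact up (sz_nonneg _ _ _ _ _) (((hW ω hω).out hV).2.2.1 l hl hs)
      h2' := fun ω hω l hl hs V hV =>
        up (sz_nonneg _ _ _ _ _) (((hW ω hω).out hV).2.2.2.1 l hl hs)
      rw1 := fun ω hω V hV => by
        rw [hkc]
        simp only [hΦ]
        have h4 := ((hW ω hω).out hV).2.2.2.2.1
        refine h4.trans (add_le_add (up (sz_nonneg _ _ _ _ _) le_rfl)
          (up (sz_nonneg _ _ _ _ _) le_rfl))
      rw2 := fun ω hω V hV => by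
        have h4 := ((hW ω hω).out hV).2.2.2.2.2.1
        exact h4.trans (add_le_add (up (sz_nonneg _ _ _ _ _) le_rfl)
          (up (sz_nonneg _ _ _ _ _) le_rfl))
      ag := fun ω hω V hV => by
        rw [hkc]
        simp only [hΦ]
        exact up (sz_nonneg _ _ _ _ _) ((hW ω hω).out hV).2.2.2.2.2.2.1
      ch := fun ω hω l hl hs V hV => by
        rw [hkc]
        exact up (sz_nonneg _ _ _ _ _) (((hW ω hω).out hV).2.2.2.2.2.2.2.1 l hl hs)
      rg := fun ω hω l hl hs V hV => by
        rw [hkc]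
        exact up (sz_nonneg _ _ _ _ _) (((hW ω hω).out hV).2.2.2.2.2.2.2.2 l hl hs)
      vl := fun ω hω l hl => by
        by_cases hs : Sc l
        · have h4 := hvls E hC'.2.1 i₀ h0 (hpp i₀ h0) (hgc i₀ h0) ω hω l hl
          have h5 : Sgf T G Sc i₀ i₂ (ptr F J ω) l = grd (T i₀ (ptr F J ω) l) (hx F ω) := by
            unfold Sgf
            rw [mx_pos hs]
            rfl
          rw [h5]
          refine h4.trans (hdq ?_)
          have a1 := n.sp l hl hs
          have a2 := n.stK l hl hs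
          omega
        · have h4 := hvlr E hC'.2.2.1 i₂ h2 (hpp i₂ h2) (hgc i₂ h2) 0 (Nat.zero_le _) ω hω l
            hl.le
          have h5 : Sgf T G Sc i₀ i₂ (ptr F J ω) l = grd (G i₂ (ptr F J ω) l) (hx F ω) := by
            unfold Sgf
            rw [mx_neg hs]
            rfl
          rw [h5]
          refine h4.trans (hdq ?_)
          have a1 := hgF2 l hl hs
          have a3 := E.ng i₂ h2 l hl.le
          omega
      vs := fun ω hω l hl hs => by
        have h4 := hvls E hC'.2.1 i₀ h0 (hpp i₀ h0) (hgc i₀ h0) ω hω l hl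
        have h5 : Sgf T G Sc i₀ i₂ (ptr F J ω) l = grd (T i₀ (ptr F J ω) l) (hx F ω) := by
          unfold Sgf
          rw [mx_pos hs]
          rfl
        rw [h5, mul_div_assoc]
        refine h4.trans (hdq ?_)
        have a1 := n.st2 l hl hs
        omega
      vn := fun ω hω => by
        have h4 := hvln E hC'.2.2.2.1 n ω hω
        rw [mul_div_assoc] at h4 ⊢
        exact h4.trans (mul_le_mul_of_nonneg_right (p2 (by omega)) (by positivity))
      vA := by
        rw [← mul_div_assoc, div_le_div_iff₀ (by positivity) (by positivity), ← pow_add,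
          ← pow_add, ← pow_add]
        refine p2 ?_
        have a2 := n.vp
        omega
      lσ := fun ω hω l hl j hj => by
        have hcl' : Set.InjOn c (Set.Iio l) := hc.mono (Set.Iio_subset_Iio (by omega))
        have hr1 : ∀ u : ℕ, ((1 : ℝ) + 2 ^ u * l) ≤ 2 ^ (u + (r + 1)) := by
          intro u
          have h7 : l + 1 ≤ 2 ^ r := (by omega : l + 1 ≤ r).trans Nat.lt_two_pow_self.le
          have h8 : ((l + 1 : ℕ) : ℝ) ≤ ((2 ^ r : ℕ) : ℝ) := by exact_mod_cast h7
          push_cast at h8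
          have h9 : (1 : ℝ) ≤ 2 ^ u := one_le_pow₀ (by norm_num)
          have h10 : (2 : ℝ) ^ (u + (r + 1)) = 2 ^ u * 2 ^ r * 2 := by
            rw [pow_add, pow_succ]
            ring
          rw [h10]
          nlinarith [mul_le_mul_of_nonneg_left h8 (show (0 : ℝ) ≤ 2 ^ u by positivity)]
        by_cases hs : Sc l
        · have h4 := coe_near (r := l) hcl' (g := g₀ i₃) (e := e i₃ + (r + 1))
            (χ := gpt F (G i₃) (ptr F J ω))
            (fun j => cvc_grd ((E.evs i₃ h3).ball.depG _ j) _)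
            (fun l' hl' j hj => hlΓ ω hω l' (by omega) j hj) (X := 2 ^ (Z * wE r))
            (by positivity) (ψ := Sgf T G Sc i₀ i₂ (ptr F J ω) l) (fun V h0' => by
              have h5 := ((hW ω hω).out h0').2.1 l hl hs
              rw [← pow_mul] at h5
              exact h5) hj
          refine h4.trans ((mul_le_mul_of_nonneg_right (hr1 _) (by positivity)).trans ?_)
          rw [← pow_add]
          refine p2 ?_
          have a1 := nlp_le (g := g₀ i₃) (g' := g') (j := j) (l := l) (x := d) (y := 0)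
            (fun i _ hi => hd i (by omega)) (by rw [n.sp l hl hs]; omega) hj.le
          omega
        · obtain ⟨jz, hjz, hzz⟩ := n.jz
          have hrad := (E.evs i₂ h2).rad jz hjz
          rw [hzz, show w i₂ + (w i₃ - w i₂) = w i₃ by omega] at hrad
          have nr2 := hrnd hc hrad (fun l hl => by
            have h4 := E.room i₂ h2 l (by omega)
            omega) ω hω
          have hG2 : ∀ y, (fun j => grd (Gno (c j) J J (fun y => G i₂ y j) (ptr F J ω)) y) =
              fun j => grd (G i₂ (ptr F J ω) j) y := fun y => funext fun j => grd_Gno _ _ _ _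
          have nr2' : Nc c (fun l => g i₂ l + (w i₃ - w i₂)) (w i₃) (r + 1) 1 (gG G ω i₂)
              (fun j => grd (G i₂ (ptr F J ω) j) (hx F ω)) := by
            have h4 := nr2
            rw [hG2, hG2] at h4
            exact h4
          have h4 := coe_near (r := l) hcl' (g := fun l => g i₂ l + (w i₃ - w i₂))
            (e := e i₂) (χ := gG G ω i₂)
            (fun j => cvc_grd ((E.evs i₂ h2).ball.depG _ j) _)
            (fun l' hl' j hj => by
              have h5 := lip_bt hrad hω (by omega : l' < r + 1) hj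
              simp only [grd_Gno] at h5
              exact h5) (X := 2 ^ 0)
            (by positivity) (ψ := Sgf T G Sc i₀ i₂ (ptr F J ω) l) (fun V h0' => by
              have h5 := nr2' l (by omega) V
              rw [en_sz _ _ _ _ _ h0'] at h5
              have h6 : Sgf T G Sc i₀ i₂ (ptr F J ω) l =
                  grd (G i₂ (ptr F J ω) l) (hx F ω) := by
                unfold Sgf
                rw [mx_neg hs]
                rfl
              rw [h6, pow_zero]
              exact h5) hj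
          refine h4.trans ((mul_le_mul_of_nonneg_right (hr1 _) (by positivity)).trans ?_)
          rw [← pow_add]
          refine p2 ?_
          have a1 := nlp_le (g := fun l => g i₂ l + (w i₃ - w i₂)) (g' := g') (j := j)
            (l := l) (x := cl + X) (y := cl) (fun i _ hi => hgF1 i (by omega))
            (hgF2 l hl hs) hj.le
          omega
      lΓ := fun ω hω l hl j hj => (hlΓ ω hω l hl j hj).trans (p2 (by omega))
      gd := hd
      hr := fun ω hω l hl hs V hV => by
        rw [hkc]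
        have h5 : Xcf w TH Sc i₀ i₂ (slam F (w i₂) ω) l = TH i₂ (slam F (w i₂) ω) l := by
          unfold Xcf
          rw [if_neg hs]
        rw [h5]
        have h4 := E.hrr n hω (hW ω hω) hl hs hV
        refine h4.trans (mul_le_mul_of_nonneg_right ?_ (sz_nonneg _ _ _ _ _))
        rw [mul_div_assoc, mul_div_assoc]
        exact mul_le_mul_of_nonneg_right (p2 (by omega)) (by positivity)
      x2 := fun ω hω l hl hs y hy hsy => by
        rw [hkc]
        have h5 : Xcf w TH Sc i₀ i₂ (slam F (w i₂) ω) l = TH i₀ (slam F (w i₀) ω) l := by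
          unfold Xcf
          rw [if_pos hs, co_slam F hw1 (eA2.trans eAJ)]
        rw [h5]
        have h4 := E.xx2 n hω (Z := Z) (Γo := gpt F (G i₃) (ptr F J ω))
          (κm := mx Sc (kT w TH ω i₀) (kT w TH ω i₂))
          (fun l => cvc_grd ((E.evs i₃ h3).ball.depG _ l) _)
          (mx_cvc (fun l => cvc_grd ((E.evs i₀ h0).thin.depH _ l) _)
            (fun l => cvc_grd ((E.evs i₂ h2).thin.depH _ l) _))
          (fun l hl V hV => (hW ω hω).g3 l hl V hV) hl hs hy (hx2 l hl hs y hy)
        refine h4.trans (mul_le_mul_of_nonneg_right ?_ (by positivity))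
        rw [mul_div_assoc, mul_div_assoc]
        exact mul_le_mul_of_nonneg_right (p2 (by omega)) (by positivity) }

end Pool.TN
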