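import Pool.Agent.H66.D2.Ece
import Pool.Agent.H88.D2.Uow

/-!
# The end of the cell with one static coordinate at the place `1`

`st_end`: the event of a static cell whose static place is `1` is small, away from the critical slopes.
-/

set_option autoImplicit false

namespace Pool.TN

open Finset Real MvPolynomial
open Pool.Agent.H49.Ent Pool.Agent.H32.Dense Pool.STK Pool.KA Pool.KSAT Pool.K2S Pool.PB Pool.S6C
open Pool.GEN Pool.CHT Pool.CHX Pool.ISO Pool.D2R Pool.D2Z Pool.D2F Pool.AFT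
open Pool.LBT (ThrOf)
open Pool.FLF (Fam.sub)
open Pool.PB.Trl (rt rt_mem t_rt)

variable {m J : ℕ}

/-- The polynomial of a chart over one coordinate. -/
theorem zp_one {F : Fam m J} {c : ℕ → Fin m} {r : ℕ} (hr : 0 < r) (hc : Set.InjOn c (Set.Iio r))
    (t : ℕ) {Q : LnT F → MvPolynomial (Option (Fin m)) ℝ} (hQ : ∀ s, DepC c 1 (Q s))
    (Xc : LnT F → ℕ → MvPolynomial (Option (Fin m)) ℝ) (s : LnT F) :
    zp c r t Q Xc 0 s = Polynomial.C ((2 : ℝ) ^ t) * Polynomial.derivative (kpol c t Q s 0) := by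
  unfold zp
  congr 1
  rw [Finset.sum_eq_single 0]
  · rw [evp_eq, if_pos rfl, Finset.range_zero, Finset.sum_empty, add_zero, mul_one]
  · intro j hj hne
    rw [Finset.mem_range] at hj
    have h1 : kpol c t Q s j = 0 := by
      unfold kpol
      rw [pd_zero' (hQ s) (fun l hl h => by
        have h2 : l = 0 := Nat.lt_one_iff.1 hl
        rw [h2] at h
        exact hne (hc (Set.mem_Iio.2 hr) (Set.mem_Iio.2 hj) h).symm), map_zero]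
    rw [h1, Polynomial.derivative_zero, zero_mul]
  · intro h
    exact absurd (Finset.mem_range.2 hr) h

/-- The numbers of the lower bound and of the variation, the static place `1`; `Q` the loss. -/
structure NumO (J A X : ℕ) (w e : ℕ → ℕ) (gT g₀ : ℕ → ℕ → ℕ) (i₀ i₂ i₃ f Q a₁ e₁ b0 b1 : ℕ)
    (g' : ℕ → ℕ) : Prop where
  st : g₀ i₀ 1 + (A - w i₀) ≤ gT i₀ 1 + X
  K1 : w i₃ ≤ a₁
  l0 : (A - w i₃) + g₀ i₃ 1 + Q ≤ gT i₀ 1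
  l3 : (A - w i₃) + g₀ i₃ 1 + Q ≤ gT i₃ 1
  g0 : Q ≤ g₀ i₃ 0
  rm : ∀ l ≤ 1, e i₃ + g₀ i₃ l + Q ≤ J
  ef : e i₃ + Q ≤ e₁
  f0 : b0 + w i₃ ≤ g₀ i₃ 0 + X + a₁
  f1 : b1 + w i₃ ≤ g₀ i₃ 1 + X + a₁
  g1 : g' 0 ≤ g₀ i₃ 0 + X
  va : w i₀ + g₀ i₀ 0 + g₀ i₃ 1 + f ≤ w i₃ + g₀ i₃ 0 + g₀ i₀ 1 + (w i₂ - w i₀) + X

/-- **The end of the cell with one static coordinate at the place** `1`, with the equation of the
thin coordinate as an alternative. -/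
theorem st_endG (m D r : ℕ) (hD : 1 ≤ D) (hr : 2 ≤ r) : ∃ C : ℕ, 1 ≤ C ∧
    ∀ {θ : ℝ} {S : PCl m} {P : List (Fin m) × Fin m → ℝ → ℝ → ℝ} (_ : ThrOf (chsys m θ) S P)
    (_ : TmH S) (c : ℕ → Fin m) (_ : Set.InjOn c (Set.Iio (r + 1))) (a₁ : ℚ) (e₁ h₁ : ℝ)
    (_ : 0 ≤ a₁) (_ : a₁ < 1) (_ : e₁ < θ * a₁) (_ : 0 < h₁) (_ : bet P c 0 a₁ a₁ + h₁ ≤ 1)
    (_ : bet P c 1 a₁ a₁ + h₁ ≤ 1) (a w' : ℚ)
    (b eb h' ε κ₀ : ℝ) (_ : 0 ≤ w') (_ : w' ≤ a) (_ : a ≤ 1) (_ : b < 1) (_ : eb < θ * w')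
    (_ : 0 < h') (_ : bet P c r a w' + h' ≤ 1) (_ : 0 < ε) (_ : 0 < κ₀),
    Bas S (fun J F A₀ => ∀ {Dr N M A cl : ℕ} {Sc : ℕ → Prop} {w e h pp : ℕ → ℕ}
      {z g gc gT g₀ : ℕ → ℕ → ℕ} {κ : ℝ} {B : F.Ω → Prop}
      {G : ℕ → PtT F → ℕ → MvPolynomial (Option (Fin m)) ℝ}
      {H : ℕ → LnT F → ℕ → MvPolynomial (Option (Fin m)) ℝ}
      {T : ℕ → PtT F → ℕ → MvPolynomial (Option (Fin m)) ℝ}
      {TH : ℕ → LnT F → ℕ → MvPolynomial (Option (Fin m)) ℝ}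
      {Gt : ℕ → PtT F → MvPolynomial (Option (Fin m)) ℝ}
      {Ht : ℕ → LnT F → MvPolynomial (Option (Fin m)) ℝ},
      CEv F c r D Dr N M A cl Sc w e h pp z g gc gT g₀ κ B G H T TH Gt Ht → Sub B A₀ →
      ε * J ≤ cl → C ≤ cl →
      ∀ {i₀ i₁ i₂ i₃ X X' p x d eM f : ℕ} {g' : ℕ → ℕ},
      NumW r N M A cl J Sc w e pp z g gc gT g₀ i₀ i₁ i₂ i₃ X' p x g' → C * (cl + X + 1) ≤ X' →
      e i₂ ≤ eM → e i₃ ≤ eM → (∀ y < r, g₀ i₃ y ≤ g' y + d) → g₀ i₃ 0 ≤ g' 0 + X' →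
      (∀ l < r, Sc l ↔ l = 1) →
      (∀ y < r, ¬ Sc y → g₀ i₃ y ≤ g' y + X' ∨ ((∀ l < r, y < l → l = 1) ∧
        EqW r N M A cl w pp z g gc gT g₀ i₀ i₁ i₃ X' 1 y g') ∨
        ∀ ω, B ω → |hs (Ht i₁ (slam F (w i₁) ω)) (bt F ω) (bd F ω) (ev c r (mx Sc (kc (w i₂)
              (Xcf w TH Sc i₀ i₂) ω) (gpt F (G i₃) (ptr F J ω))) y) -
            aS c r Sc (w i₂) 1 (Xcf w TH Sc i₀ i₂) (fun s => Ht i₁ (co (w i₂ - w i₁) s))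
              (gpt F (G i₃)) ω * hs (TH i₀ (slam F (w i₀) ω) 1) (bt F ω) (bd F ω)
              (ev c r (mx Sc (kc (w i₂) (Xcf w TH Sc i₀ i₂) ω)
                (gpt F (G i₃) (ptr F J ω))) y)| ≤
            2 ^ X' * (2 ^ w i₃ / 2 ^ g₀ i₃ r) * 2 ^ g' y) →
      (w i₃ : ℝ) ≤ b * J →
      NumO J A X w e gT g₀ i₀ i₂ i₃ f (C * (cl + X + 1)) ⌊(a₁ : ℝ) * J⌋₊ ⌊e₁ * J⌋₊
        ⌊(bet P c 0 a₁ a₁ + h₁) * J⌋₊ ⌊(bet P c 1 a₁ a₁ + h₁) * J⌋₊ g' →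
      NumF r J (w i₂) (w i₃) ⌊(a : ℝ) * J⌋₊ ⌊(w' : ℝ) * J⌋₊ ⌊eb * J⌋₊
        ⌊(bet P c r a w' + h') * J⌋₊ eM d (C * (cl + X' + 1)) f p 1 (g₀ i₃) g' (gT i₂) →
      Pe F.p B < κ₀ * Pe F.p A₀) := by
  classical
  obtain ⟨C₁, hC₁, hone⟩ := sta_one m D r hD hr
  obtain ⟨C₂, hC₂, hzv⟩ := CEv.zvar m D r hr
  obtain ⟨C₃, hC₃, hend⟩ := end_cevG m D r hD
  obtain ⟨C, hC⟩ : ∃ C, C = 2 * C₁ + 2 * C₂ + C₃ + 2 := ⟨_, rfl⟩
  refine ⟨C, by omega, ?_⟩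
  intro θ S P hP hT c hc a₁ e₁ h₁ ha0 ha1 he1 hh1 hb0 hb1 a w' b eb h' ε κ₀ hw0 hwa ha hb he hh h2
    hε hκ
  have hL2 : 0 < Real.log 2 := Real.log_pos (by norm_num)
  have haR : (a₁ : ℝ) < 1 := by exact_mod_cast ha1
  have ha0R : (0 : ℝ) ≤ a₁ := by exact_mod_cast ha0
  obtain ⟨μ, hμ⟩ : ∃ μ : ℝ, μ = min ε (1 - a₁) * Real.log 2 / 2 := ⟨_, rfl⟩
  have hμ0 : 0 < μ := by
    rw [hμ]
    have : 0 < min ε (1 - (a₁ : ℝ)) := lt_min hε (by linarith)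
    positivity
  have hC2R : (1 : ℝ) ≤ C₂ := by exact_mod_cast hC₂
  have hC20 : (0 : ℝ) < C₂ := by linarith
  obtain ⟨ε₁, hε₁⟩ : ∃ ε₁ : ℝ, ε₁ = μ / C₂ := ⟨_, rfl⟩
  have hε₁0 : 0 < ε₁ := by rw [hε₁]; positivity
  have htm := bas_ev (hT.2 ε₁ hε₁0) hκ
  have hpos : Bas S (fun _ F A => 0 < Pe F.p A) := ⟨1, one_pos, 0, fun J _ F A hA =>
    hT.1 1 J F A hA⟩
  obtain ⟨J₁, hJ₁⟩ := exists_nat_ge ((C₂ : ℝ) / μ)
  refine Bas.mono J₁ ((((hone hP hT c hc a₁ e₁ h₁ ε (κ₀ / 4) ha0 ha1 he1 hh1 hb0 hb1 hε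
    (by positivity)).and htm).and hpos).and
    (hend hP hT c hc a w' b eb h' ε (κ₀ / 4) hw0 hwa ha hb he hh h2 hε (by positivity))) ?_
  rintro J hJ F A₀ ⟨⟨⟨hoA, htA⟩, hA0⟩, hendA⟩
  intro Dr N M A cl Sc w e h pp z g gc gT g₀ κ B G H T TH Gt Ht E hBA hεc hCc i₀ i₁ i₂ i₃ X X' p x
    d eM f g' n hXX he2 he3 hd hg0 h1 heq hbJ no nf
  by_contra hcon
  rw [not_lt] at hcon
  have hs0 : ¬ Sc 0 := fun h => by
    have := (h1 0 (by omega)).1 h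
    omega
  have hs1 : Sc 1 := (h1 1 (by omega)).2 rfl
  have hpn := Pe_nonneg F.isLaw
  have hB0 : 0 < Pe F.p B := (mul_pos hκ hA0).trans_le hcon
  have hJ0 : (0 : ℝ) ≤ J := Nat.cast_nonneg J
  have hik : w i₀ ≤ w i₃ := n.w0.trans n.w2
  have hCX : (2 * C₁ + 2 * C₂ + C₃ + 2) * (cl + X + 1) = 2 * (C₁ * (cl + X + 1)) +
      2 * (C₂ * (cl + X + 1)) + C₃ * (cl + X + 1) + 2 * (cl + X + 1) := by ring
  have hC0 : C * (cl + X + 1) = 2 * (C₁ * (cl + X + 1)) + 2 * (C₂ * (cl + X + 1)) +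
      C₃ * (cl + X + 1) + 2 * (cl + X + 1) := by rw [hC]; ring
  have hCX' : C₃ * (cl + X' + 1) ≤ C * (cl + X' + 1) := Nat.mul_le_mul_right _ (by omega)
  rw [hC, hCX] at hXX
  obtain ⟨Q0, hQ0⟩ : ∃ Q, Q = C * (cl + X + 1) := ⟨_, rfl⟩
  rw [← hQ0] at no
  obtain ⟨t₀, ht₀⟩ : ∃ t, t = C₁ * (cl + X + 1) := ⟨_, rfl⟩
  -- the times
  have hJ1 : (C₂ : ℝ) ≤ μ * J := by
    have h2 : (J₁ : ℝ) ≤ J := by exact_mod_cast hJ
    have h3 := hJ₁.trans h2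
    rw [div_le_iff₀ hμ0] at h3
    linarith
  have hθ0 : 0 ≤ ε₁ * J := by positivity
  have hmain : C₂ * (ε₁ * J + 1) ≤ min ε (1 - (a₁ : ℝ)) * Real.log 2 * J := by
    have e1 : C₂ * (ε₁ * J) = μ * J := by rw [hε₁]; field_simp
    have e2 : 2 * (μ * J) = min ε (1 - (a₁ : ℝ)) * Real.log 2 * J := by rw [hμ]; ring
    rw [mul_add, mul_one, e1]
    linarith
  have hm1 : C₂ * (ε₁ * J + 1) ≤ cl * Real.log 2 := by
    refine hmain.trans ?_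
    have e1 : min ε (1 - (a₁ : ℝ)) * Real.log 2 * J ≤ ε * Real.log 2 * J :=
      mul_le_mul_of_nonneg_right (mul_le_mul_of_nonneg_right (min_le_left _ _) hL2.le) hJ0
    have e2 := mul_le_mul_of_nonneg_right hεc hL2.le
    linarith
  have hm2 : C₂ * (ε₁ * J + 1) ≤ ((J : ℝ) - w i₀) * Real.log 2 := by
    refine hmain.trans ?_
    have e1 : min ε (1 - (a₁ : ℝ)) * Real.log 2 * J ≤ (1 - a₁) * Real.log 2 * J :=
      mul_le_mul_of_nonneg_right (mul_le_mul_of_nonneg_right (min_le_right _ _) hL2.le) hJ0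
    have e2 : (w i₀ : ℝ) ≤ a₁ * J := by
      have h2 : (w i₀ : ℝ) ≤ ⌊(a₁ : ℝ) * J⌋₊ := by exact_mod_cast hik.trans no.K1
      exact h2.trans (Nat.floor_le (mul_nonneg ha0R hJ0))
    have e3 := mul_le_mul_of_nonneg_right e2 hL2.le
    linarith
  have hexp : Real.exp (C₂ * (ε₁ * J + 1)) ≤ 2 ^ cl := by
    have e2 : Real.exp (C₂ * (ε₁ * J + 1)) ≤ Real.exp (cl * Real.log 2) :=
      Real.exp_le_exp.2 hm1
    rw [mul_comm (cl : ℝ), ← Real.rpow_def_of_pos (by norm_num), Real.rpow_natCast] at e2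
    exact e2
  have hall : ∀ i ≤ N, ∀ l < r, cl ≤ gT i l ∧ cl ≤ gc i l := fun i hi l hl => ⟨by
    have := (n.pos i hi).1 l hl
    omega, by
    have := (n.pos i hi).2.1 l hl.le
    omega⟩
  have hgr : ∀ i ≤ N, cl ≤ gc i r := fun i hi => by
    have := (n.pos i hi).2.1 r le_rfl
    omega
  have hZ : ZNum r N A cl X w pp gc gT g₀ 1 i₀ i₀ :=
    ⟨n.h0, le_rfl, hall i₀ n.h0, (n.pos i₀ n.h0).2.2, hgr i₀ n.h0, no.st⟩
  -- the variation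
  obtain ⟨B₁, b1, b2, b3⟩ := hzv E hB0 (X := X) (n := cl) n.h0 n.h2 n.w0 hs0
    (hall i₀ n.h0 1 (by omega)).1 hZ hθ0 (htA B hBA hcon hB0) hm2 hexp
  -- the lower bound
  obtain ⟨V₀, hV₀⟩ : ∃ V₀ : F.Ω → Option (Fin m) → ℝ, V₀ = fun ω =>
    ev c r (mx Sc (kT w TH ω i₀) (kT w TH ω i₂)) 0 := ⟨_, rfl⟩
  have hc' : Set.InjOn c (Set.Iio r) := hc.mono (Set.Iio_subset_Iio (by omega))
  have hΞ : ∀ ω l, CvC c l (mx Sc (kT w TH ω i₀) (kT w TH ω i₂) l) := fun ω =>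
    mx_cvc (fun l => cvc_grd ((E.evs i₀ n.h0).thin.depH _ l) _)
      (fun l => cvc_grd ((E.evs i₂ n.h2).thin.depH _ l) _)
  have v0 : ∀ ω, V₀ ω none = 0 := fun ω => by rw [hV₀]; exact ev_none _ _ _ _
  have v1 : ∀ ω, V₀ ω (some (c 0)) = 1 := fun ω => by
    rw [hV₀]
    exact ev_eq hc' (hΞ ω) (by omega)
  have hbad := (hoA E hBA hεc (by omega) n.h0 n.h3 hik no.K1 hs0 (hall i₃ n.h3)
    (n.pos i₃ n.h3).2.2 (hgr i₃ n.h3) (hall i₀ n.h0 1 (by omega)).1 (t := t₀) (X := X)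
    (by have := no.l0; omega) (by have := no.l3; omega) (by omega) (by have := no.g0; omega)
    (fun l hl => by
      have := no.rm l hl
      omega) (by have := no.ef; omega) (by have := no.f0; omega) (by have := no.f1; omega)).1 V₀
      (fun ω _ => ⟨v0 ω, v1 ω⟩)
  obtain ⟨bad, hbd⟩ : ∃ bad : F.Ω → Prop, bad = fun ω => B ω ∧
      |hs (TH i₀ (slam F (w i₀) ω) 1) (bt F ω) (bd F ω) (V₀ ω)| ≤
        2 ^ (w i₃ + g₀ i₃ 0) / 2 ^ (g₀ i₃ 1 + t₀) := ⟨_, rfl⟩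
  rw [← hbd] at hbad
  obtain ⟨B₂, hB₂⟩ : ∃ B₂ : F.Ω → Prop, B₂ = fun ω => B₁ ω ∧ ¬ bad ω := ⟨_, rfl⟩
  have s2 : Sub B₂ B := fun ω hω => by
    rw [hB₂] at hω
    exact b1 ω hω.1
  have hP2 : Pe F.p B / 4 ≤ Pe F.p B₂ := by
    have h3 := Pe_or F.isLaw (A := B₁) (B₀ := bad) (B₁ := B₂)
      (fun ω hω => by
        rw [hB₂]
        by_cases h4 : bad ω
        · exact Or.inl h4
        · exact Or.inr ⟨hω, h4⟩)
    linarith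
  have hz : ∀ ω, B₂ ω → 2 ^ (w i₃ + g₀ i₃ 0) / 2 ^ (g₀ i₃ 1 + t₀) <
      |hs (TH i₀ (slam F (w i₀) ω) 1) (bt F ω) (bd F ω) (V₀ ω)| := fun ω hω => by
    rw [hB₂] at hω
    refine not_le.1 fun h => hω.2 ?_
    rw [hbd]
    exact ⟨b1 ω hω.1, h⟩
  have hE2 := E.sb (B' := B₂) (κ₁ := 1 / 4) (κ₂ := 4 * max κ 0) s2 (by linarith) (by positivity)
    (by
      have := le_max_left κ 0
      linarith)
  -- the chart of the static place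
  have hX1 : (fun s => Xcf w TH Sc i₀ i₂ s 1) = ltr (TH i₀) (w i₂ - w i₀) 1 := by
    funext s
    unfold Xcf ltr
    rw [if_pos hs1]
  have hJ2 : w i₂ ≤ J := (E.wA i₂ n.h2).trans E.AJ
  have hdep : ∀ s : LnT F, DepC c 1 (ltr (TH i₀) (w i₂ - w i₀) 1 s) := fun s =>
    (E.evs i₀ n.h0).thin.depH _ 1
  have hslam : ∀ ω, ltr (TH i₀) (w i₂ - w i₀) 1 (slam F (w i₂) ω) =
      TH i₀ (slam F (w i₀) ω) 1 := fun ω => by
    unfold ltr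
    rw [co_slam F n.w0 hJ2]
  have hfin := hendA hE2 (fun ω hω => hBA ω (s2 ω hω)) hεc (by omega) n he2 he3 hd (fun l hl hsl y
    hy => by
      have h3 := (h1 l hl).1 hsl
      subst h3
      rw [Nat.lt_one_iff.1 hy]
      exact Or.inl hg0) (by omega) (by omega) h1
    (fun y hy hys => (heq y hy hys).imp_right (Or.imp_right fun h3 ω hω => h3 ω (s2 ω hω)))
    (f := f) (s₀ := 1)
    (fun ω hω => by
      have h3 := (hz ω hω).le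
      rw [hV₀] at h3
      have h4 : (2 : ℝ) ^ (w i₃ + g' 0) / 2 ^ g₀ i₃ 1 ≤ 2 ^ X' *
          (2 ^ (w i₃ + g₀ i₃ 0) / 2 ^ (g₀ i₃ 1 + t₀)) := by
        rw [← mul_div_assoc, div_le_div_iff₀ (by positivity) (by positivity), ← pow_add,
          ← pow_add, ← pow_add]
        have := no.g1
        exact p2 (by omega)
      exact h4.trans (mul_le_mul_of_nonneg_left h3 (by positivity)))
    (fun ω hω => by
      have h3 := (hz ω hω).le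
      have h4 := b3 ω (by rw [hB₂] at hω; exact hω.1) (rt F (w i₂) ω)
        (rt_mem F (w i₂) ω) 0 (Set.left_mem_Icc.2 zero_le_one)
      have h5 := kpol_one F hJ2 hdep ω (v0 ω) (v1 ω)
      rw [hslam] at h5
      rw [h5] at h4
      rw [hX1, zp_one (by omega) hc' (w i₂) hdep, Polynomial.eval_mul, Polynomial.eval_C]
      rw [hV₀] at h3 h4
      refine h4.trans ?_
      have h6 : (2 : ℝ) ^ (C₂ * (cl + X + cl + 1)) * 2 ^ (w i₀ + g₀ i₀ 0) /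
          2 ^ (g₀ i₀ 1 + (w i₂ - w i₀)) ≤ 2 ^ X' / 2 ^ f *
          (2 ^ (w i₃ + g₀ i₃ 0) / 2 ^ (g₀ i₃ 1 + t₀)) := by
        rw [div_mul_div_comm, ← pow_add, ← pow_add, ← pow_add, div_le_div_iff₀ (by positivity)
          (by positivity), ← pow_add, ← pow_add]
        have e1 : C₂ * (cl + X + cl + 1) ≤ 2 * (C₂ * (cl + X + 1)) := by nlinarith
        have := no.va
        exact p2 (by omega)
      exact h6.trans (mul_le_mul_of_nonneg_left h3 (by positivity)))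
    hbJ
    { nf with
      f1 := hCX'.trans nf.f1
      n1 := by have := nf.n1; omega
      n2 := fun l hl => by have := nf.n2 l hl; omega
      n3 := by have := nf.n3; omega
      n4 := fun l hl => hCX'.trans (nf.n4 l hl)
      n5 := hCX'.trans nf.n5
      n6 := by have := nf.n6; omega }
  linarith

/-- **The end of the cell with one static coordinate at the place** `1`. -/
theorem st_end (m D r : ℕ) (hD : 1 ≤ D) (hr : 2 ≤ r) : ∃ C : ℕ, 1 ≤ C ∧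
    ∀ {θ : ℝ} {S : PCl m} {P : List (Fin m) × Fin m → ℝ → ℝ → ℝ} (_ : ThrOf (chsys m θ) S P)
    (_ : TmH S) (c : ℕ → Fin m) (_ : Set.InjOn c (Set.Iio (r + 1))) (a₁ : ℚ) (e₁ h₁ : ℝ)
    (_ : 0 ≤ a₁) (_ : a₁ < 1) (_ : e₁ < θ * a₁) (_ : 0 < h₁) (_ : bet P c 0 a₁ a₁ + h₁ ≤ 1)
    (_ : bet P c 1 a₁ a₁ + h₁ ≤ 1) (a w' : ℚ)
    (b eb h' ε κ₀ : ℝ) (_ : 0 ≤ w') (_ : w' ≤ a) (_ : a ≤ 1) (_ : b < 1) (_ : eb < θ * w')
    (_ : 0 < h') (_ : bet P c r a w' + h' ≤ 1) (_ : 0 < ε) (_ : 0 < κ₀),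
    Bas S (fun J F A₀ => ∀ {Dr N M A cl : ℕ} {Sc : ℕ → Prop} {w e h pp : ℕ → ℕ}
      {z g gc gT g₀ : ℕ → ℕ → ℕ} {κ : ℝ} {B : F.Ω → Prop}
      {G : ℕ → PtT F → ℕ → MvPolynomial (Option (Fin m)) ℝ}
      {H : ℕ → LnT F → ℕ → MvPolynomial (Option (Fin m)) ℝ}
      {T : ℕ → PtT F → ℕ → MvPolynomial (Option (Fin m)) ℝ}
      {TH : ℕ → LnT F → ℕ → MvPolynomial (Option (Fin m)) ℝ}
      {Gt : ℕ → PtT F → MvPolynomial (Option (Fin m)) ℝ}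
      {Ht : ℕ → LnT F → MvPolynomial (Option (Fin m)) ℝ},
      CEv F c r D Dr N M A cl Sc w e h pp z g gc gT g₀ κ B G H T TH Gt Ht → Sub B A₀ →
      ε * J ≤ cl → C ≤ cl →
      ∀ {i₀ i₁ i₂ i₃ X X' p x d eM f : ℕ} {g' : ℕ → ℕ},
      NumW r N M A cl J Sc w e pp z g gc gT g₀ i₀ i₁ i₂ i₃ X' p x g' → C * (cl + X + 1) ≤ X' →
      e i₂ ≤ eM → e i₃ ≤ eM → (∀ y < r, g₀ i₃ y ≤ g' y + d) → g₀ i₃ 0 ≤ g' 0 + X' →
      (∀ l < r, Sc l ↔ l = 1) →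
      (∀ y < r, ¬ Sc y → g₀ i₃ y ≤ g' y + X' ∨ ((∀ l < r, y < l → l = 1) ∧
        EqW r N M A cl w pp z g gc gT g₀ i₀ i₁ i₃ X' 1 y g')) →
      (w i₃ : ℝ) ≤ b * J →
      NumO J A X w e gT g₀ i₀ i₂ i₃ f (C * (cl + X + 1)) ⌊(a₁ : ℝ) * J⌋₊ ⌊e₁ * J⌋₊
        ⌊(bet P c 0 a₁ a₁ + h₁) * J⌋₊ ⌊(bet P c 1 a₁ a₁ + h₁) * J⌋₊ g' →
      NumF r J (w i₂) (w i₃) ⌊(a : ℝ) * J⌋₊ ⌊(w' : ℝ) * J⌋₊ ⌊eb * J⌋₊
        ⌊(bet P c r a w' + h') * J⌋₊ eM d (C * (cl + X' + 1)) f p 1 (g₀ i₃) g' (gT i₂) →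
      Pe F.p B < κ₀ * Pe F.p A₀) := by
  obtain ⟨C, hC, hgen⟩ := st_endG m D r hD hr
  refine ⟨C, hC, ?_⟩
  intro θ S P hP hT c hc a₁ e₁ h₁ ha0 ha1 he1 hh1 hb0 hb1 a w' b eb h' ε κ₀ hw0 hwa ha hb he hh h2
    hε hκ
  refine Bas.mono 0 (hgen hP hT c hc a₁ e₁ h₁ ha0 ha1 he1 hh1 hb0 hb1 a w' b eb h' ε κ₀ hw0 hwa ha
    hb he hh h2 hε hκ) ?_
  rintro J - F A₀ hA
  intro Dr N M A cl Sc w e h pp z g gc gT g₀ κ B G H T TH Gt Ht E hBA hεc hCc i₀ i₁ i₂ i₃ X X' p x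
    d eM f g' n hXX he2 he3 hd hg0 h1 heq
  exact hA E hBA hεc hCc n hXX he2 he3 hd hg0 h1 fun y hy hys => (heq y hy hys).imp_right Or.inl

end Pool.TN
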