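import Pool.Agent.H66.D2.Cev

/-!
# Charts of one event as lists of covectors

`chn_nc`, `chn_rnd`: the visible charts against the closed charts, and at the rounded point.
`row_nc`, `row_rnd`: the same for the row label. `CEv.top_en`: the re-centred norm of the ball in the
thin norm.
-/

set_option autoImplicit false

namespace Pool.TN

open Finset Real MvPolynomial
open Pool.Agent.H49.Ent Pool.Agent.H32.Dense Pool.STK Pool.KA Pool.KSAT Pool.K2S Pool.PB Pool.S6C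
open Pool.GEN Pool.CHT Pool.CHX Pool.ISO Pool.D2R Pool.D2Z Pool.D2F
open Pool.FLF (Fam.sub)
open Pool.PB.Trl (rt rt_mem t_rt)

variable {m J : ℕ}

/-- The closed charts against the visible charts. -/
theorem chn_nc (D n : ℕ) : ∃ C : ℕ, 1 ≤ C ∧ ∀ {m J : ℕ} {F : Fam m J} {c : ℕ → Fin m}
    {a w e : ℕ} {g : ℕ → ℕ} {B : F.Ω → Prop} {G : PtT F → ℕ → MvPolynomial (Option (Fin m)) ℝ}
    {H : LnT F → ℕ → MvPolynomial (Option (Fin m)) ℝ}, Set.InjOn c (Set.Iio n) →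
    ChOK F c n (fun _ => D) a w e g B G H → ∀ ω, B ω →
    Nc c g a n (2 ^ C) (fun j => grd (G (ptr F J ω) j) (bt F ω))
      (fun j => grd (H (slam F w ω) j) (bt F ω)) := by
  have hba := fun l : ℕ => box_all l D D
  choose Cb hCb hbl using hba
  obtain ⟨C, hC⟩ := pow_unbounded_of_one_lt (1 + ∑ l ∈ range (n + 1), Cb l) (one_lt_two (α := ℝ))
  have hCbl : ∀ l ≤ n, Cb l ≤ 2 ^ C := by
    intro l hl
    have := Finset.single_le_sum (f := Cb) (fun l _ => by linarith [hCb l])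
      (Finset.mem_range.2 (Nat.lt_succ_of_le hl))
    linarith
  refine ⟨C + 1, by omega, ?_⟩
  intro m J F c a w e g B G H hc hch ω hω l hl V
  have h1 := (hbl l (c := c) (ψ := G (ptr F J ω)) (Q := H (slam F w ω) l - G (ptr F J ω) l)
    (g := g) (a := a) (M := 1 / 2 ^ g l) (x := bt F ω) (hc.mono fun y hy => lt_trans hy hl)
    (hch.degG _) (hch.depG _) (fun y y' h1 h2 => by
      rw [map_sub, map_sub, hch.depG _ l y y' h1 h2, hch.depH _ l y y' h1 h2])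
    ((totalDegree_sub _ _).trans (max_le (hch.degH _ l) (hch.degG _ l))) (by positivity)
    (fun b hb => by
      rw [map_sub, abs_sub_comm]
      exact hch.agr ω hω l hl b hb) (fun j hj => hch.pos ω hω j (hj.trans hl))).1 V
  rw [dd_sub] at h1
  rw [cv_subl, cv_grd, cv_grd, ← nrm_en]
  refine h1.trans (mul_le_mul_of_nonneg_right ?_ (nrm_nonneg _ _ _ _ _ _ _))
  rw [mul_one_div]
  refine div_le_div_of_nonneg_right ((hCbl l hl.le).trans
    (pow_le_pow_right₀ (by norm_num) (by omega))) (by positivity)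

/-- The visible charts at the rounded point. -/
theorem chn_rnd (D n : ℕ) : ∃ C : ℕ, 1 ≤ C ∧ ∀ {m J : ℕ} {F : Fam m J} {c : ℕ → Fin m}
    {a w e : ℕ} {g : ℕ → ℕ} {B : F.Ω → Prop} {G : PtT F → ℕ → MvPolynomial (Option (Fin m)) ℝ}
    {H : LnT F → ℕ → MvPolynomial (Option (Fin m)) ℝ}, Set.InjOn c (Set.Iio n) →
    ChOK F c n (fun _ => D) a w e g B G H → (∀ l < n, e + g l + C ≤ J) → ∀ ω, B ω →
    Nc c g a n 1 (fun j => grd (G (ptr F J ω) j) (bt F ω))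
      (fun j => grd (G (ptr F J ω) j) (hx F ω)) := by
  obtain ⟨C, hC, hmv⟩ := grd_mv3 D n
  refine ⟨C, hC, ?_⟩
  intro m J F c a w e g B G H hc hch hJ ω hω l hl V
  have h1 := (hmv (c := c) (a := a) (e := e) (g := g) (G := G (ptr F J ω)) (x := bt F ω)
    (x' := hx F ω) hc (fun l => hch.degG _ l) (fun l => hch.depG _ l)
    (fun l hl b hb j hj => hch.lip ω hω l hl b hb j hj)
    (fun l hl => hch.pos ω hω l hl) (hx_none F ω) (fun k => hx_some F ω k) hJ l hl).2.1 V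
  rw [cv_subl, cv_grd, cv_grd, ← nrm_en]
  exact h1

/-- A row label which is two-sided on the boxes of a chain. -/
theorem row_nc (D n : ℕ) : ∃ C : ℕ, 1 ≤ C ∧ ∀ {m J : ℕ} {F : Fam m J} {c : ℕ → Fin m}
    {a w e : ℕ} {g : ℕ → ℕ} {B : F.Ω → Prop} {G : PtT F → ℕ → MvPolynomial (Option (Fin m)) ℝ}
    {H : LnT F → ℕ → MvPolynomial (Option (Fin m)) ℝ}, Set.InjOn c (Set.Iio n) →
    ChOK F c n (fun _ => D) a w e g B G H → ∀ ω, B ω →
    ∀ (P Q : MvPolynomial (Option (Fin m)) ℝ) (X : ℝ), P.totalDegree ≤ D → Q.totalDegree ≤ D →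
    DepC c n P → DepC c n Q → 0 ≤ X → (∀ b, NBx c (G (ptr F J ω)) g a (F.t ω) n b →
      |eval b P - eval b Q| ≤ X) →
    ∀ V : Option (Fin m) → ℝ, |cv (grd P (bt F ω) - grd Q (bt F ω)) V| ≤ 2 ^ C * X *
      en c g a (fun j => grd (G (ptr F J ω) j) (bt F ω)) n V := by
  obtain ⟨Cb, hCb, hbl⟩ := box_all n D D
  obtain ⟨C, hC⟩ := pow_unbounded_of_one_lt Cb (one_lt_two (α := ℝ))
  refine ⟨C + 1, by omega, ?_⟩
  intro m J F c a w e g B G H hc hch ω hω P Q X hP hQ hPc hQc hX hb V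
  have h1 := (hbl (c := c) (ψ := G (ptr F J ω)) (Q := P - Q)
    (g := g) (a := a) (M := X) (x := bt F ω) hc (hch.degG _) (hch.depG _) (fun y y' h1 h2 => by
      rw [map_sub, map_sub, hPc y y' h1 h2, hQc y y' h1 h2])
    ((totalDegree_sub _ _).trans (max_le hP hQ)) hX
    (fun b hb' => by
      rw [map_sub]
      exact hb b hb') (fun j hj => hch.pos ω hω j hj)).1 V
  rw [dd_sub] at h1
  rw [cv_subl, cv_grd, cv_grd, ← nrm_en]
  refine h1.trans (mul_le_mul_of_nonneg_right (mul_le_mul_of_nonneg_right (hC.le.trans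
    (pow_le_pow_right₀ (by norm_num) (by omega))) hX) (nrm_nonneg _ _ _ _ _ _ _))

/-- A polynomial which is bounded on the boxes of a chain, at the rounded point. -/
theorem row_rnd (D n : ℕ) : ∃ C : ℕ, 1 ≤ C ∧ ∀ {m J : ℕ} {F : Fam m J} {c : ℕ → Fin m}
    {a w e s : ℕ} {g : ℕ → ℕ} {B : F.Ω → Prop}
    {G : PtT F → ℕ → MvPolynomial (Option (Fin m)) ℝ}
    {H : LnT F → ℕ → MvPolynomial (Option (Fin m)) ℝ}, Set.InjOn c (Set.Iio n) →
    ChOK F c n (fun _ => D) a w e g B G H → s + C ≤ J → (∀ l < n, e + g l + s + C ≤ J) →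
    ∀ ω, B ω → ∀ (Q : MvPolynomial (Option (Fin m)) ℝ) (X : ℝ), Q.totalDegree ≤ D →
    DepC c n Q → 0 ≤ X → (∀ b, NBx c (G (ptr F J ω)) g a (F.t ω) n b → |eval b Q| ≤ X) →
    ∀ V : Option (Fin m) → ℝ, |cv (grd Q (hx F ω) - grd Q (bt F ω)) V| ≤ 2 ^ C * X / 2 ^ s *
      en c g a (fun j => grd (G (ptr F J ω) j) (bt F ω)) n V := by
  obtain ⟨C, hC, hmv⟩ := rnd_dif D n
  refine ⟨C, hC, ?_⟩
  intro m J F c a w e s g B G H hc hch hsJ hJ ω hω Q X hQ hQc hX hb V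
  have h1 := hmv (c := c) (a := a) (e := e) (g := g) (G := G (ptr F J ω)) (x := bt F ω)
    (x' := hx F ω) (Q := Q) (M := X) (s := s) hc (fun l => hch.degG _ l)
    (fun l => hch.depG _ l)
    (fun l hl b hb j hj => hch.lip ω hω l hl b hb j hj)
    (fun l hl => hch.pos ω hω l hl) (hx_none F ω) (fun k => hx_some F ω k) hsJ hJ hQc hQ hX
    (fun b hb' => hb b hb') V
  rw [cv_subl, cv_grd, cv_grd, ← nrm_en]
  exact h1

/-- A size bounded by a monotone sequence. -/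
theorem en_dom {c : ℕ → Fin m} {g : ℕ → ℕ} {a : ℕ} {χ : ℕ → Option (Fin m) → ℝ} {L : ℕ} {X : ℝ}
    (hX : 0 ≤ X) {V : Option (Fin m) → ℝ} {f : ℕ → ℝ} (hf : 2 ^ a * |V none| ≤ f 0)
    (hfm : ∀ l < L, f l ≤ f (l + 1)) (h : ∀ l < L, 2 ^ g l * |V (some (c l)) - cv (χ l) V| ≤
      X * f (l + 1) + X * en c g a χ l V) {l : ℕ} (hl : l ≤ L) :
    en c g a χ l V ≤ (1 + 2 * X) ^ l * f l := by
  have hfn : ∀ l ≤ L, 0 ≤ f l := by
    intro l
    induction l with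
    | zero => exact fun _ => (by positivity : 0 ≤ 2 ^ a * |V none|).trans hf
    | succ l ih => exact fun hl => (ih (by omega)).trans (hfm l (by omega))
  have hs : ∀ l, en c g a χ (l + 1) V = en c g a χ l V +
      2 ^ g l * |V (some (c l)) - cv (χ l) V| := by
    intro l
    rw [en_eq, en_eq, Finset.sum_range_succ, add_assoc]
  induction l with
  | zero =>
    rw [en_eq, Finset.sum_range_zero, add_zero, pow_zero, one_mul]
    exact hf
  | succ l ih =>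
    have h1 := ih (by omega)
    have h2 := h l (by omega)
    have h3 := hfm l (by omega)
    have h4 := hfn (l + 1) hl
    rw [hs]
    obtain ⟨Q, hQ⟩ : ∃ Q, Q = (1 + 2 * X) ^ l := ⟨_, rfl⟩
    have hQ1 : 1 ≤ Q := by
      rw [hQ]
      exact one_le_pow₀ (by linarith)
    rw [← hQ] at h1
    have e1 : (1 + 2 * X) ^ (l + 1) = Q * (1 + 2 * X) := by rw [hQ, pow_succ]
    rw [e1]
    have h5 : en c g a χ l V ≤ Q * f (l + 1) :=
      h1.trans (mul_le_mul_of_nonneg_left h3 (by linarith))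
    have h6 := mul_le_mul_of_nonneg_left h5 hX
    have h7 : X * f (l + 1) ≤ X * (Q * f (l + 1)) :=
      mul_le_mul_of_nonneg_left (le_mul_of_one_le_left h4 hQ1) hX
    have e2 : Q * (1 + 2 * X) * f (l + 1) = Q * f (l + 1) + (X * (Q * f (l + 1)) +
        X * (Q * f (l + 1))) := by ring
    rw [e2]
    linarith

theorem en_le_succ (c : ℕ → Fin m) (g : ℕ → ℕ) (a : ℕ) (χ : ℕ → Option (Fin m) → ℝ) (l : ℕ)
    (V : Option (Fin m) → ℝ) : en c g a χ l V ≤ en c g a χ (l + 1) V := by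
  rw [en_succ]
  have : 0 ≤ 2 ^ g l * |V (some (c l)) - cv (χ l) V| := by positivity
  linarith

/-- Sizes for other sides. -/
theorem en_side {c : ℕ → Fin m} {g g' : ℕ → ℕ} {a a' : ℕ} {χ : ℕ → Option (Fin m) → ℝ} {l : ℕ}
    {X : ℝ} (ha : (2 : ℝ) ^ a ≤ X * 2 ^ a') (h : ∀ j < l, (2 : ℝ) ^ g j ≤ X * 2 ^ g' j)
    (V : Option (Fin m) → ℝ) : en c g a χ l V ≤ X * en c g' a' χ l V := by
  rw [en_eq, en_eq, mul_add]
  refine add_le_add ?_ ?_
  · rw [← mul_assoc]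
    exact mul_le_mul_of_nonneg_right ha (abs_nonneg _)
  · rw [Finset.mul_sum]
    refine Finset.sum_le_sum fun j hj => ?_
    rw [← mul_assoc]
    exact mul_le_mul_of_nonneg_right (h j (Finset.mem_range.1 hj)) (abs_nonneg _)

section

variable {F : Fam m J} {c : ℕ → Fin m} {r D Dr N M A cl : ℕ} {Sc : ℕ → Prop}
    {w e h pp : ℕ → ℕ} {z g gc gT g₀ : ℕ → ℕ → ℕ} {κ : ℝ} {B : F.Ω → Prop}
    {G : ℕ → PtT F → ℕ → MvPolynomial (Option (Fin m)) ℝ}
    {H : ℕ → LnT F → ℕ → MvPolynomial (Option (Fin m)) ℝ}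
    {T : ℕ → PtT F → ℕ → MvPolynomial (Option (Fin m)) ℝ}
    {TH : ℕ → LnT F → ℕ → MvPolynomial (Option (Fin m)) ℝ}
    {Gt : ℕ → PtT F → MvPolynomial (Option (Fin m)) ℝ}
    {Ht : ℕ → LnT F → MvPolynomial (Option (Fin m)) ℝ}

/-- The closed thin charts of the window `k` at the sample. -/
noncomputable def kT {F : Fam m J} (w : ℕ → ℕ)
    (TH : ℕ → LnT F → ℕ → MvPolynomial (Option (Fin m)) ℝ) (ω : F.Ω) (k l : ℕ) :
    Option (Fin m) → ℝ := grd (TH k (slam F (w k) ω) l) (bt F ω)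

/-- The ball of the window `k` at the sample. -/
noncomputable def gG {F : Fam m J} (G : ℕ → PtT F → ℕ → MvPolynomial (Option (Fin m)) ℝ)
    (ω : F.Ω) (k l : ℕ) : Option (Fin m) → ℝ := grd (G k (ptr F J ω) l) (bt F ω)

theorem CEv.radA (E : CEv F c r D Dr N M A cl Sc w e h pp z g gc gT g₀ κ B G H T TH Gt Ht)
    {k : ℕ} (hk : k ≤ N) : w k + (A - w k) = A := by
  have := E.wA k hk
  omega

/-- The visible and the closed thin charts of one window. -/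
theorem CEv.tn (D r : ℕ) : ∃ C : ℕ, 1 ≤ C ∧ ∀ {m J : ℕ} {F : Fam m J} {c : ℕ → Fin m}
    {Dr N M A cl : ℕ} {Sc : ℕ → Prop} {w e h pp : ℕ → ℕ} {z g gc gT g₀ : ℕ → ℕ → ℕ} {κ : ℝ}
    {B : F.Ω → Prop} {G : ℕ → PtT F → ℕ → MvPolynomial (Option (Fin m)) ℝ}
    {H : ℕ → LnT F → ℕ → MvPolynomial (Option (Fin m)) ℝ}
    {T : ℕ → PtT F → ℕ → MvPolynomial (Option (Fin m)) ℝ}
    {TH : ℕ → LnT F → ℕ → MvPolynomial (Option (Fin m)) ℝ}
    {Gt : ℕ → PtT F → MvPolynomial (Option (Fin m)) ℝ}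
    {Ht : ℕ → LnT F → MvPolynomial (Option (Fin m)) ℝ},
    CEv F c r D Dr N M A cl Sc w e h pp z g gc gT g₀ κ B G H T TH Gt Ht → C ≤ cl →
    ∀ k ≤ N, ∀ ω, B ω → Nc c (gT k) A r (2 ^ cl) (fun l => grd (T k (ptr F J ω) l) (bt F ω))
      (kT w TH ω k) ∧ Nc c (gT k) A r 1 (fun l => grd (T k (ptr F J ω) l) (bt F ω))
      (fun l => grd (T k (ptr F J ω) l) (hx F ω)) := by
  obtain ⟨C₁, hC₁, h1⟩ := chn_nc D r
  obtain ⟨C₂, hC₂, h2⟩ := chn_rnd D r
  refine ⟨C₁ + C₂, by omega, ?_⟩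
  intro m J F c Dr N M A cl Sc w e h pp z g gc gT g₀ κ B G H T TH Gt Ht E hcl k hk ω hω
  have hth := (E.evs k hk).thin
  rw [E.radA hk] at hth
  have hc : Set.InjOn c (Set.Iio r) := E.inj.mono (Set.Iio_subset_Iio (by omega))
  refine ⟨(h1 hc hth ω hω).mono (pow_le_pow_right₀ (by norm_num) (by omega)),
    h2 hc hth (fun l hl => ?_) ω hω⟩
  have := E.roomT k hk l hl
  omega

/-- A closed thin chart against the ball. -/
theorem CEv.tb (E : CEv F c r D Dr N M A cl Sc w e h pp z g gc gT g₀ κ B G H T TH Gt Ht)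
    {i j l q : ℕ} (hl : l < r) (hi : i ≤ N) (hj : j ≤ N) (hw : w i ≤ w j)
    (q1 : q + cl ≤ gT i l) (q2 : q + cl ≤ gc j l) {ω : F.Ω} (hω : B ω)
    (V : Option (Fin m) → ℝ) :
    |cv (kT w TH ω i l - gG G ω j l) V| ≤ 2 ^ cl / 2 ^ q * en c (gT j) A (kT w TH ω j) l V +
      2 ^ cl / 2 ^ g₀ j l * en c (g₀ j) (w j) (gG G ω j) l V := by
  have h1 := Pool.RCV.rel1 ((E.lab l hl i hi j hj hw).1 q q1 q2) ((E.wA j hj).trans E.AJ) hω V
  rw [E.radA hj, nrm_en, nrm_en] at h1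
  unfold kT gG
  rw [cv_subl, cv_grd, cv_grd]
  exact h1

/-- Two closed thin charts. -/
theorem CEv.tt (E : CEv F c r D Dr N M A cl Sc w e h pp z g gc gT g₀ κ B G H T TH Gt Ht)
    {i j l q : ℕ} (hl : l < r) (hi : i ≤ N) (hj : j ≤ N) (hw : w i ≤ w j)
    (q1 : q + cl ≤ gT i l) (q2 : q + cl ≤ gT j l) {ω : F.Ω} (hω : B ω)
    (V : Option (Fin m) → ℝ) :
    |cv (kT w TH ω i l - kT w TH ω j l) V| ≤
      2 ^ cl / 2 ^ q * en c (gT j) A (kT w TH ω j) l V := by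
  have hjJ : w j ≤ J := (E.wA j hj).trans E.AJ
  have h1 := ((E.lab l hl i hi j hj hw).2 q q1 q2).win ω hω (rt F (w j) ω) (rt_mem F (w j) ω) V
  rw [ptw_rt F hjJ ω, dd_sub, E.radA hj, nrm_en] at h1
  unfold kT
  rw [cv_subl, cv_grd, cv_grd]
  exact h1

/-- The row label against the ball. -/
theorem CEv.rb (E : CEv F c r D Dr N M A cl Sc w e h pp z g gc gT g₀ κ B G H T TH Gt Ht)
    {i j q : ℕ} (hi : i ≤ N) (hj : j ≤ N) (hw : w i ≤ w j)
    (q1 : q + cl ≤ pp i) (q2 : q + cl ≤ gc j r) {ω : F.Ω} (hω : B ω)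
    (V : Option (Fin m) → ℝ) :
    |cv (grd (Ht i (slam F (w i) ω)) (bt F ω) - gG G ω j r) V| ≤
      2 ^ cl / 2 ^ q * en c (gT j) A (kT w TH ω j) r V +
      2 ^ cl / 2 ^ g₀ j r * en c (g₀ j) (w j) (gG G ω j) r V := by
  have h1 := Pool.RCV.rel1 (E.row i hi j hj hw q q1 q2) ((E.wA j hj).trans E.AJ) hω V
  rw [E.radA hj, nrm_en, nrm_en] at h1
  unfold kT gG
  rw [cv_subl, cv_grd, cv_grd]
  exact h1

/-- A rough thin chart is the re-centred ball chart. -/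
theorem CEv.rgt (E : CEv F c r D Dr N M A cl Sc w e h pp z g gc gT g₀ κ B G H T TH Gt Ht)
    {k l : ℕ} (hk : k ≤ N) (hl : l < r) (hs : ¬ Sc l) (ω : F.Ω) (x : Option (Fin m) → ℝ) :
    grd (T k (ptr F J ω) l) x = grd (G k (ptr F J ω) l) x := by
  have h1 := ((E.evs k hk).rgh l hl hs).2.1 (ptr F J ω)
  rw [h1]
  funext o
  have h2 := dd_Gno (J := J) (c l) (fun y => G k y l) (ptr F J ω) x (Pi.single o 1)
  have h3 : ∀ P : MvPolynomial (Option (Fin m)) ℝ, dd P x (Pi.single o 1) = grd P x o := by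
    classical
    intro P
    unfold dd
    rw [Finset.sum_eq_single o (fun b _ hb => by rw [Pi.single_eq_of_ne hb, mul_zero])
      (fun h => absurd (Finset.mem_univ _) h), Pi.single_eq_same, mul_one]
    rfl
  rw [h3, h3] at h2
  exact h2

/-- The closed ball chart against the visible one. -/
theorem CEv.cb (E : CEv F c r D Dr N M A cl Sc w e h pp z g gc gT g₀ κ B G H T TH Gt Ht)
    {k l : ℕ} (hk : k ≤ N) (hl : l < r) (hs : ¬ Sc l) (h1 : cl ≤ gT k l) (h2 : cl ≤ gc k l)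
    {ω : F.Ω} (hω : B ω) (V : Option (Fin m) → ℝ) :
    |cv (kT w TH ω k l - gG G ω k l) V| ≤
      2 ^ cl / 2 ^ g₀ k l * en c (g₀ k) (w k) (gG G ω k) l V := by
  have h3 := (((E.lab l hl k hk k hk le_rfl).1 0 (by omega) (by omega)).dif ω hω l le_rfl).1 V
  rw [dd_sub, nrm_en] at h3
  unfold kT gG
  rw [cv_subl, cv_grd, cv_grd, ((E.evs k hk).rgh l hl hs).2.2]
  exact h3

end

end Pool.TN
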