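import Pool.Agent.H66.D2.Eqx

/-!
# `DlP` on the event of a static cell

`EqW`: the numbers of the second window which closes the equation of a thin coordinate; `CEv.eqn`: the
equation of the row in a natural direction; `CEv.eqj`: the equation of the row in a thin direction below
static coordinates; `dlp_cev`: the package `DlP`.
-/

set_option autoImplicit false

namespace Pool.TN

open Finset Real MvPolynomial
open Pool.Agent.H49.Ent Pool.Agent.H32.Dense Pool.STK Pool.KA Pool.KSAT Pool.K2S Pool.PB Pool.S6C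
open Pool.GEN Pool.CHT Pool.CHX Pool.ISO Pool.D2R Pool.D2Z Pool.D2F
open Pool.FLF (Fam.sub)
open Pool.PB.Trl (rt rt_mem t_rt)

variable {m J : ℕ}

/-- The numbers of the second window `a` of the rough coordinate `x`. -/
def EqW (r N M A cl : ℕ) (w pp : ℕ → ℕ) (z g gc gT g₀ : ℕ → ℕ → ℕ) (i₀ i₁ i₃ X s₀ x : ℕ)
    (g' : ℕ → ℕ) : Prop :=
  ∃ a P : ℕ, a ≤ N ∧ w i₀ ≤ w a ∧ w i₁ ≤ w a ∧ P + cl ≤ pp i₁ ∧ P + cl ≤ gc a r ∧
    gT a s₀ ≤ gT i₀ s₀ + X ∧ A + g₀ a x + g₀ i₃ r ≤ P + w i₃ + g' x + X ∧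
    w a + g₀ a x + g₀ i₃ r ≤ g₀ a r + w i₃ + g' x + X ∧
    (s₀ < x ∨ (s₀ = x + 1 ∧ s₀ + 1 = r ∧
      g₀ i₃ s₀ + w i₀ + g₀ i₀ x ≤ w i₃ + g' x + g₀ i₀ s₀ + X ∧
      ∃ k ≤ N, ∃ k' ≤ N, ((k = i₃ ∧ k' = a) ∨ (k = a ∧ k' = i₃)) ∧ w k ≤ w k' ∧
        (∃ q ≤ M, z k q = w k' - w k) ∧
        g₀ k' s₀ + g₀ i₃ r + w i₀ + g₀ i₀ x ≤
          min (g k r + (w k' - w k)) (g₀ k' r) + w i₃ + g' x + g₀ i₀ s₀ + X))

theorem mx_mx {Sc : ℕ → Prop} {κ κ' Γ : ℕ → Option (Fin m) → ℝ} :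
    mx Sc (mx Sc κ κ') Γ = mx Sc κ Γ := by
  funext l
  by_cases h : Sc l
  · rw [mx_pos h, mx_pos h, mx_pos h]
  · rw [mx_neg h, mx_neg h]

theorem Xcf_st {F : Fam m J} {w : ℕ → ℕ}
    {TH : ℕ → LnT F → ℕ → MvPolynomial (Option (Fin m)) ℝ} {Sc : ℕ → Prop} {i₀ i₂ : ℕ}
    (h1 : w i₀ ≤ w i₂) (h2 : w i₂ ≤ J) (ω : F.Ω) {l : ℕ} (hl : Sc l) :
    Xcf w TH Sc i₀ i₂ (slam F (w i₂) ω) l = TH i₀ (slam F (w i₀) ω) l := by
  classical
  unfold Xcf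
  rw [if_pos hl, co_slam F h1 h2]

/-- The sum over one static coordinate. -/
theorem sum_one {r s₀ : ℕ} {Sc : ℕ → Prop} (hs₀ : s₀ < r) (h1 : ∀ l < r, Sc l ↔ l = s₀)
    (a f : ℕ → ℝ) : ∑ s ∈ range r, wt Sc a s * f s = a s₀ * f s₀ := by
  rw [Finset.sum_eq_single s₀]
  · rw [wt_pos ((h1 s₀ hs₀).2 rfl)]
  · intro s hs hne
    rw [Finset.mem_range] at hs
    rw [wt_neg (fun h => hne ((h1 s hs).1 h)), zero_mul]
  · intro h
    exact absurd (Finset.mem_range.2 hs₀) h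

section

variable {F : Fam m J} {c : ℕ → Fin m} {r D Dr N M A cl : ℕ} {Sc : ℕ → Prop}
    {w e h pp : ℕ → ℕ} {z g gc gT g₀ : ℕ → ℕ → ℕ} {κ : ℝ} {B : F.Ω → Prop}
    {G : ℕ → PtT F → ℕ → MvPolynomial (Option (Fin m)) ℝ}
    {H : ℕ → LnT F → ℕ → MvPolynomial (Option (Fin m)) ℝ}
    {T : ℕ → PtT F → ℕ → MvPolynomial (Option (Fin m)) ℝ}
    {TH : ℕ → LnT F → ℕ → MvPolynomial (Option (Fin m)) ℝ}
    {Gt : ℕ → PtT F → MvPolynomial (Option (Fin m)) ℝ}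
    {Ht : ℕ → LnT F → MvPolynomial (Option (Fin m)) ℝ}
    {i₀ i₁ i₂ i₃ X p x : ℕ} {g' : ℕ → ℕ}

/-- The ball at the point is near the ball at the sample. -/
theorem CEv.gptG (D r : ℕ) : ∃ C : ℕ, 1 ≤ C ∧ ∀ {m J : ℕ} {F : Fam m J} {c : ℕ → Fin m}
    {Dr N M A cl : ℕ} {Sc : ℕ → Prop} {w e h pp : ℕ → ℕ} {z g gc gT g₀ : ℕ → ℕ → ℕ} {κ : ℝ}
    {B : F.Ω → Prop} {G : ℕ → PtT F → ℕ → MvPolynomial (Option (Fin m)) ℝ}
    {H : ℕ → LnT F → ℕ → MvPolynomial (Option (Fin m)) ℝ}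
    {T : ℕ → PtT F → ℕ → MvPolynomial (Option (Fin m)) ℝ}
    {TH : ℕ → LnT F → ℕ → MvPolynomial (Option (Fin m)) ℝ}
    {Gt : ℕ → PtT F → MvPolynomial (Option (Fin m)) ℝ}
    {Ht : ℕ → LnT F → MvPolynomial (Option (Fin m)) ℝ},
    CEv F c r D Dr N M A cl Sc w e h pp z g gc gT g₀ κ B G H T TH Gt Ht → C ≤ cl →
    ∀ i ≤ N, ∀ ω, B ω → ∀ l ≤ r, ∀ V : Option (Fin m) → ℝ, V none = 0 →
      |cv (gpt F (G i) (ptr F J ω) l - gG G ω i l) V| ≤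
        1 / 2 ^ g₀ i l * sz c (g₀ i) (gG G ω i) l V := by
  obtain ⟨C₅, hC₅, hrnd⟩ := chn_rnd D (r + 1)
  refine ⟨C₅, hC₅, ?_⟩
  intro m J F c Dr N M A cl Sc w e h pp z g gc gT g₀ κ B G H T TH Gt Ht E hcl i hi ω hω l hl
    V h0
  have h1 := hrnd E.inj (E.evs i hi).ball (fun l hl => by
    have a1 := E.room i hi l (by omega)
    have a2 := E.ng i hi l (by omega)
    omega) ω hω l (by omega) V
  rw [en_sz _ _ _ _ _ h0] at h1
  exact h1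

end

/-- **The equation of the row in a natural direction.** -/
theorem CEv.eqn (D r : ℕ) : ∃ C : ℕ, 1 ≤ C ∧ ∀ {m J : ℕ} {F : Fam m J} {c : ℕ → Fin m}
    {Dr N M A cl : ℕ} {Sc : ℕ → Prop} {w e h pp : ℕ → ℕ} {z g gc gT g₀ : ℕ → ℕ → ℕ} {κ : ℝ}
    {B : F.Ω → Prop} {G : ℕ → PtT F → ℕ → MvPolynomial (Option (Fin m)) ℝ}
    {H : ℕ → LnT F → ℕ → MvPolynomial (Option (Fin m)) ℝ}
    {T : ℕ → PtT F → ℕ → MvPolynomial (Option (Fin m)) ℝ}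
    {TH : ℕ → LnT F → ℕ → MvPolynomial (Option (Fin m)) ℝ}
    {Gt : ℕ → PtT F → MvPolynomial (Option (Fin m)) ℝ}
    {Ht : ℕ → LnT F → MvPolynomial (Option (Fin m)) ℝ},
    CEv F c r D Dr N M A cl Sc w e h pp z g gc gT g₀ κ B G H T TH Gt Ht → C ≤ cl →
    ∀ {i₀ i₁ i₂ i₃ X p x d eM s₀ U : ℕ} {g' : ℕ → ℕ},
    NumW r N M A cl J Sc w e pp z g gc gT g₀ i₀ i₁ i₂ i₃ X p x g' → s₀ < r →
    (∀ l < r, Sc l ↔ l = s₀) →
    StP F c r Sc D (w i₂) (w i₃) A eM d (g₀ i₃) g' (gT i₂) p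
      (2 ^ U) B (G i₃) (H i₃) (Xcf w TH Sc i₀ i₂)
      (fun s => Ht i₁ (co (w i₂ - w i₁) s)) (Sgf T G Sc i₀ i₂) (gpt F (G i₃))
      (fun y => grd (Gt i₁ y) (bho J J y)) →
    ∀ y < r, ¬ Sc y → g₀ i₃ y ≤ g' y + X → ∀ ω, B ω →
    |hs (Ht i₁ (slam F (w i₁) ω)) (bt F ω) (bd F ω) (ev c r (mx Sc (kc (w i₂)
          (Xcf w TH Sc i₀ i₂) ω) (gpt F (G i₃) (ptr F J ω))) y) -
      aS c r Sc (w i₂) s₀ (Xcf w TH Sc i₀ i₂) (fun s => Ht i₁ (co (w i₂ - w i₁) s))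
        (gpt F (G i₃)) ω * hs (TH i₀ (slam F (w i₀) ω) s₀) (bt F ω) (bd F ω)
        (ev c r (mx Sc (kc (w i₂) (Xcf w TH Sc i₀ i₂) ω) (gpt F (G i₃) (ptr F J ω))) y)| ≤
      2 ^ ((U + C * (cl + X + 1)) * eE r) * (2 ^ w i₃ / 2 ^ g₀ i₃ r) * 2 ^ g' y := by
  obtain ⟨C₁, hC₁, hex⟩ := CEv.ex r
  obtain ⟨C₂, hC₂, hgp⟩ := CEv.gptG D r
  obtain ⟨C, hC⟩ : ∃ C, C = 3 * C₁ + C₂ + 3 := ⟨_, rfl⟩
  refine ⟨C, by omega, ?_⟩
  intro m J F c Dr N M A cl Sc w e h pp z g gc gT g₀ κ B G H T TH Gt Ht E hcl i₀ i₁ i₂ i₃ X p x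
    d eM s₀ U g' n hs₀ h1 hS y hy hys hyn ω hω
  have hc : Set.InjOn c (Set.Iio r) := E.inj.mono (Set.Iio_subset_Iio (by omega))
  have hAJ : w i₂ ≤ J := (E.wA i₂ n.h2).trans E.AJ
  have hkc := kc_Xcf (TH := TH) (Sc := Sc) n.w0 hAJ ω
  have hΦ : Ht i₁ (co (w i₂ - w i₁) (slam F (w i₂) ω)) = Ht i₁ (slam F (w i₁) ω) := by
    rw [co_slam F n.w1 hAJ]
  have hXs : Xcf w TH Sc i₀ i₂ (slam F (w i₂) ω) s₀ = TH i₀ (slam F (w i₀) ω) s₀ :=
    Xcf_st n.w0 hAJ ω ((h1 s₀ hs₀).2 rfl)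
  obtain ⟨Q, hQ⟩ : ∃ Q, Q = U + C * (cl + X + 1) := ⟨_, rfl⟩
  have e1 : C * (cl + X + 1) = C * cl + C * X + C := by ring
  have e2 : C₁ * (cl + (X + 2 * cl) + 1) = 3 * (C₁ * cl) + C₁ * X + C₁ := by ring
  have e3 : C * cl = 3 * (C₁ * cl) + C₂ * cl + 3 * cl := by rw [hC]; ring
  have e4 : C * X = 3 * (C₁ * X) + C₂ * X + 3 * X := by rw [hC]; ring
  have hpos := n.pos
  have h5 := hS.eq0 hc hs₀ h1 hω (Γ3 := gG G ω i₃) (Z := 2 ^ Q)
    (fun l => cvc_grd ((E.evs i₃ n.h3).ball.depG _ l) _)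
    (fun l hl V hV => (hgp E (by omega) i₃ n.h3 ω hω l hl V hV).trans
      (mul_le_mul_of_nonneg_right (div_le_div_of_nonneg_right (one_le_pow₀ (by norm_num))
        (by positivity)) (sz_nonneg _ _ _ _ _)))
    (p2 (by omega)) (fun l hl hls => ?_) hy hys
    (by
      rw [← pow_add]
      exact p2 (by omega))
  · simp only [hΦ, hXs] at h5
    rw [← hQ, pow_mul]
    exact h5
  · simp only [hΦ, hXs]
    rw [hkc, mx_mx]
    have h6 := hex E (i₀ := i₀) (i₁ := i₁) (k := i₃) (P := p) (X := X + 2 * cl) n.h0 n.h1 n.h3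
      (n.w0.trans n.w2) (n.w1.trans n.w2) (fun l hl _ => ⟨by
        have := (hpos i₀ n.h0).1 l hl
        omega, by
        have := (hpos i₃ n.h3).1 l hl
        omega, by
        have := (hpos i₃ n.h3).2.1 l hl.le
        omega⟩) (fun l hl hsl => ⟨by
        have := n.st3 l hl hsl
        omega, by
        have a1 := n.gr i₃ n.h3 l hl hsl
        have a2 := E.ng i₃ n.h3 l hl.le
        omega⟩) n.pq n.pc ω hω l hls
    rw [sum_one hs₀ h1 (fun s => cv (gG G ω i₃ r - grd (Ht i₁ (slam F (w i₁) ω)) (bt F ω))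
          (ev c r (mx Sc (kT w TH ω i₀) (gG G ω i₃)) s)) (fun s =>
        hs (TH i₀ (slam F (w i₀) ω) s) (bt F ω) (bd F ω)
          (ev c r (mx Sc (kT w TH ω i₀) (gG G ω i₃)) l))] at h6
    refine h6.trans (mul_le_mul_of_nonneg_right ?_ (by positivity))
    have h7 : (2 : ℝ) ^ A / 2 ^ p ≤ 2 ^ X * (2 ^ w i₃ / 2 ^ g₀ i₃ r) := by
      rw [← mul_div_assoc, div_le_div_iff₀ (by positivity) (by positivity), ← pow_add,
        ← pow_add, ← pow_add]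
      have a1 := n.vp
      have a2 := E.wA i₃ n.h3
      exact p2 (by omega)
    obtain ⟨R, hR⟩ : ∃ R : ℝ, R = 2 ^ w i₃ / 2 ^ g₀ i₃ r := ⟨_, rfl⟩
    have hR0 : 0 < R := by rw [hR]; positivity
    rw [← hR] at h7 ⊢
    have h8 : (2 : ℝ) ^ A / 2 ^ p + R ≤ 2 ^ (X + 1) * R := by
      have h9 : (1 : ℝ) ≤ 2 ^ X := one_le_pow₀ (by norm_num)
      have h10 : (2 : ℝ) ^ (X + 1) = 2 ^ X + 2 ^ X := by rw [pow_succ]; ring
      rw [h10]
      nlinarith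
    refine (mul_le_mul_of_nonneg_left h8 (by positivity)).trans ?_
    rw [← mul_assoc, ← pow_add]
    exact mul_le_mul_of_nonneg_right (p2 (by omega)) hR0.le

/-- **The equation of the row in a thin direction**, all coordinates above being static. -/
theorem CEv.eqj (D r : ℕ) : ∃ C : ℕ, 1 ≤ C ∧ ∀ {m J : ℕ} {F : Fam m J} {c : ℕ → Fin m}
    {Dr N M A cl : ℕ} {Sc : ℕ → Prop} {w e h pp : ℕ → ℕ} {z g gc gT g₀ : ℕ → ℕ → ℕ} {κ : ℝ}
    {B : F.Ω → Prop} {G : ℕ → PtT F → ℕ → MvPolynomial (Option (Fin m)) ℝ}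
    {H : ℕ → LnT F → ℕ → MvPolynomial (Option (Fin m)) ℝ}
    {T : ℕ → PtT F → ℕ → MvPolynomial (Option (Fin m)) ℝ}
    {TH : ℕ → LnT F → ℕ → MvPolynomial (Option (Fin m)) ℝ}
    {Gt : ℕ → PtT F → MvPolynomial (Option (Fin m)) ℝ}
    {Ht : ℕ → LnT F → MvPolynomial (Option (Fin m)) ℝ},
    CEv F c r D Dr N M A cl Sc w e h pp z g gc gT g₀ κ B G H T TH Gt Ht → C ≤ cl →
    ∀ {i₀ i₁ i₂ i₃ X p x s₀ : ℕ} {g' : ℕ → ℕ},
    NumW r N M A cl J Sc w e pp z g gc gT g₀ i₀ i₁ i₂ i₃ X p x g' → s₀ < r →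
    (∀ l < r, Sc l ↔ l = s₀) →
    ∀ y < r, ¬ Sc y → (∀ l < r, y < l → l = s₀) →
    EqW r N M A cl w pp z g gc gT g₀ i₀ i₁ i₃ X s₀ y g' → ∀ ω, B ω →
    |hs (Ht i₁ (slam F (w i₁) ω)) (bt F ω) (bd F ω) (ev c r (mx Sc (kc (w i₂)
          (Xcf w TH Sc i₀ i₂) ω) (gpt F (G i₃) (ptr F J ω))) y) -
      aS c r Sc (w i₂) s₀ (Xcf w TH Sc i₀ i₂) (fun s => Ht i₁ (co (w i₂ - w i₁) s))
        (gpt F (G i₃)) ω * hs (TH i₀ (slam F (w i₀) ω) s₀) (bt F ω) (bd F ω)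
        (ev c r (mx Sc (kc (w i₂) (Xcf w TH Sc i₀ i₂) ω) (gpt F (G i₃) (ptr F J ω))) y)| ≤
      2 ^ (C * (cl + X + 1)) * (2 ^ w i₃ / 2 ^ g₀ i₃ r) * 2 ^ g' y := by
  obtain ⟨C₁, hC₁, hex⟩ := CEv.ex r
  obtain ⟨C₂, hC₂, hgp⟩ := CEv.gptG D r
  obtain ⟨C₃, hbal⟩ := bale_dd D r
  obtain ⟨C, hC⟩ : ∃ C, C = 3 * C₁ + C₂ + C₃ + 4 * r + 50 := ⟨_, rfl⟩
  refine ⟨C, by omega, ?_⟩
  intro m J F c Dr N M A cl Sc w e h pp z g gc gT g₀ κ B G H T TH Gt Ht E hcl i₀ i₁ i₂ i₃ X p x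
    s₀ g' n hs₀ h1 y hy hys hya ⟨a, P, haN, haw0, haw1, hP1, hP2, hgTa, hn1, hn2, hcase⟩ ω hω
  have hc : Set.InjOn c (Set.Iio r) := E.inj.mono (Set.Iio_subset_Iio (by omega))
  have hAJ : w i₂ ≤ J := (E.wA i₂ n.h2).trans E.AJ
  have hkc := kc_Xcf (TH := TH) (Sc := Sc) n.w0 hAJ ω
  have hΦ : Ht i₁ (co (w i₂ - w i₁) (slam F (w i₂) ω)) = Ht i₁ (slam F (w i₁) ω) := by
    rw [co_slam F n.w1 hAJ]
  have hss : Sc s₀ := (h1 s₀ hs₀).2 rfl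
  have e1 : C * (cl + X + 1) = C * cl + C * X + C := by ring
  have e2 : C₁ * (cl + (X + 2 * cl) + 1) = 3 * (C₁ * cl) + C₁ * X + C₁ := by ring
  have e3 : C * cl = 3 * (C₁ * cl) + C₂ * cl + C₃ * cl + 4 * (r * cl) + 50 * cl := by
    rw [hC]; ring
  have e4 : C * X = 3 * (C₁ * X) + C₂ * X + C₃ * X + 4 * (r * X) + 50 * X := by rw [hC]; ring
  have hpos := n.pos
  have hκc : ∀ l, CvC c l (kT w TH ω i₀ l) := fun l =>
    cvc_grd ((E.evs i₀ n.h0).thin.depH _ l) _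
  have hGc : ∀ i ≤ N, ∀ l, CvC c l (gG G ω i l) := fun i hi l =>
    cvc_grd ((E.evs i hi).ball.depG _ l) _
  have hΓc : ∀ l, CvC c l (gpt F (G i₃) (ptr F J ω) l) := fun l =>
    cvc_grd ((E.evs i₃ n.h3).ball.depG _ l) _
  rw [hkc, mx_mx]
  -- the two frames
  have hst := ev_stab (Sc := Sc) hc hκc hΓc (hGc a haN) (x := y)
    (fun l hl hyl => (h1 l hl).2 (hya l hl hyl))
  have hQc : DepC c r (Ht i₁ (slam F (w i₁) ω)) := (E.evs i₁ n.h1).pH _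
  have hTc : DepC c s₀ (TH i₀ (slam F (w i₀) ω) s₀) := (E.evs i₀ n.h0).thin.depH _ s₀
  rw [hs_cong hc hQc _ _ (ev_none _ _ _ _) (ev_none _ _ _ _) hst,
    hs_cong (hc.mono (Set.Iio_subset_Iio hs₀.le)) hTc _ _ (ev_none _ _ _ _)
      (ev_none _ _ _ _) (fun j hj => hst j (hj.trans hs₀))]
  -- the equation at the window `a`
  have h6 := hex E (i₀ := i₀) (i₁ := i₁) (k := a) (P := P) (X := X + 2 * cl) n.h0 n.h1 haN
    haw0 haw1 (fun l hl _ => ⟨by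
      have := (hpos i₀ n.h0).1 l hl
      omega, by
      have := (hpos a haN).1 l hl
      omega, by
      have := (hpos a haN).2.1 l hl.le
      omega⟩) (fun l hl hsl => ⟨by
      have : l = s₀ := (h1 l hl).1 hsl
      subst this
      omega, by
      have a1 := n.gr a haN l hl hsl
      have a2 := E.ng a haN l hl.le
      omega⟩) hP1 hP2 ω hω y hys
  rw [sum_one hs₀ h1 (fun s => cv (gG G ω a r - grd (Ht i₁ (slam F (w i₁) ω)) (bt F ω))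
        (ev c r (mx Sc (kT w TH ω i₀) (gG G ω a)) s)) (fun s =>
      hs (TH i₀ (slam F (w i₀) ω) s) (bt F ω) (bd F ω)
        (ev c r (mx Sc (kT w TH ω i₀) (gG G ω a)) y))] at h6
  obtain ⟨V, hV⟩ : ∃ V, V = ev c r (mx Sc (kT w TH ω i₀) (gG G ω a)) y := ⟨_, rfl⟩
  have hV0 : V none = 0 := by rw [hV]; exact ev_none _ _ _ _
  have hmz : ∀ Q' W, DepC c s₀ Q' → s₀ ≤ y → hs Q' (bt F ω) W V = 0 := by
    intro Q' W hQ' hle
    rw [hV]
    exact hs_zero_ev hc hs₀.le (mx_cvc hκc (hGc a haN)) hle hQ' _ _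
  rw [← hV] at h6 ⊢
  obtain ⟨R, hR⟩ : ∃ R : ℝ, R = 2 ^ w i₃ / 2 ^ g₀ i₃ r * 2 ^ g' y := ⟨_, rfl⟩
  have hR0 : 0 < R := by rw [hR]; positivity
  have hRm : (2 : ℝ) ^ (C * (cl + X + 1)) * (2 ^ w i₃ / 2 ^ g₀ i₃ r) * 2 ^ g' y =
      2 ^ (C * (cl + X + 1)) * R := by rw [hR]; ring
  rw [hRm]
  have h7 : (2 : ℝ) ^ (C₁ * (cl + (X + 2 * cl) + 1)) * (2 ^ A / 2 ^ P + 2 ^ w a / 2 ^ g₀ a r) *
      2 ^ g₀ a y ≤ 2 ^ (C₁ * (cl + (X + 2 * cl) + 1) + X + 1) * R := by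
    have a1 : (2 : ℝ) ^ A / 2 ^ P * 2 ^ g₀ a y ≤ 2 ^ X * R := by
      rw [hR, div_mul_eq_mul_div, ← pow_add, div_mul_eq_mul_div, ← pow_add, ← mul_div_assoc,
        div_le_div_iff₀ (by positivity) (by positivity), ← pow_add, ← pow_add, ← pow_add]
      exact p2 (by omega)
    have a2 : (2 : ℝ) ^ w a / 2 ^ g₀ a r * 2 ^ g₀ a y ≤ 2 ^ X * R := by
      rw [hR, div_mul_eq_mul_div, ← pow_add, div_mul_eq_mul_div, ← pow_add, ← mul_div_assoc,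
        div_le_div_iff₀ (by positivity) (by positivity), ← pow_add, ← pow_add, ← pow_add]
      exact p2 (by omega)
    calc (2 : ℝ) ^ (C₁ * (cl + (X + 2 * cl) + 1)) * (2 ^ A / 2 ^ P + 2 ^ w a / 2 ^ g₀ a r) *
          2 ^ g₀ a y = 2 ^ (C₁ * (cl + (X + 2 * cl) + 1)) * (2 ^ A / 2 ^ P * 2 ^ g₀ a y +
            2 ^ w a / 2 ^ g₀ a r * 2 ^ g₀ a y) := by ring
      _ ≤ 2 ^ (C₁ * (cl + (X + 2 * cl) + 1)) * (2 ^ X * R + 2 ^ X * R) :=
          mul_le_mul_of_nonneg_left (add_le_add a1 a2) (by positivity)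
      _ = _ := by
          rw [pow_succ, pow_add]
          ring
  have h8 := h6.trans h7
  rcases hcase with hlt | ⟨hsy, hsr, hn3, k, hk, k', hk', hkk, hwk, ⟨q, hq, hzq⟩, hn4⟩
  · -- the static coordinate is below
    rw [hmz _ _ hTc hlt.le, mul_zero, sub_zero]
    rw [hmz _ _ hTc hlt.le, mul_zero, sub_zero] at h8
    exact h8.trans (mul_le_mul_of_nonneg_right (p2 (by omega)) hR0.le)
  · -- the static coordinate is the last one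
    obtain ⟨zv, hzv⟩ : ∃ zv, zv = hs (TH i₀ (slam F (w i₀) ω) s₀) (bt F ω) (bd F ω) V :=
      ⟨_, rfl⟩
    rw [← hzv] at h8 ⊢
    obtain ⟨a', ha'⟩ : ∃ a', a' = cv (gG G ω a r - grd (Ht i₁ (slam F (w i₁) ω)) (bt F ω))
        (ev c r (mx Sc (kT w TH ω i₀) (gG G ω a)) s₀) := ⟨_, rfl⟩
    rw [← ha'] at h8
    obtain ⟨ao, hao⟩ : ∃ ao, ao = aS c r Sc (w i₂) s₀ (Xcf w TH Sc i₀ i₂)
        (fun s => Ht i₁ (co (w i₂ - w i₁) s)) (gpt F (G i₃)) ω := ⟨_, rfl⟩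
    rw [← hao]
    -- the vector of the last coordinate
    obtain ⟨W, hW⟩ : ∃ W, W = ev c r (mx Sc (kT w TH ω i₀) (gG G ω a)) s₀ := ⟨_, rfl⟩
    have hW0 : W none = 0 := by rw [hW]; exact ev_none _ _ _ _
    have hWs := ev_stab (Sc := Sc) hc hκc hΓc (hGc a haN) (x := s₀)
      (fun l hl hyl => absurd hl (by omega))
    have hao' : ao = cv (gpt F (G i₃) (ptr F J ω) r - grd (Ht i₁ (slam F (w i₁) ω)) (bt F ω))
        W := by
      rw [hao, hW]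
      unfold aS
      show cv (gpt F (G i₃) (ptr F J ω) r - grd (Ht i₁ (co (w i₂ - w i₁) (slam F (w i₂) ω)))
        (bt F ω)) _ = _
      rw [hΦ, hkc, mx_mx]
      refine cv_cong hc ?_ (ev_none _ _ _ _) (ev_none _ _ _ _) hWs
      intro l hl
      have b1 := hΓc r l hl
      have b2 := cvc_grd hQc (bt F ω) l hl
      show gpt F (G i₃) (ptr F J ω) r (some l) - grd (Ht i₁ (slam F (w i₁) ω)) (bt F ω)
        (some l) = 0
      rw [b1, b2, sub_zero]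
    rw [← hW] at ha'
    have hszW : ∀ i ≤ N, sz c (g₀ i) (gG G ω i) r W ≤ 2 ^ g₀ i s₀ := by
      intro i hi
      subst hsr
      rw [hW]
      exact sz_last hc (mx_cvc hκc (hGc a haN)) (hGc i hi) _
    -- the size of `z`
    have hgr : ∀ k ≤ N, cl ≤ gc k r := fun k hk => by
      have := (n.pos k hk).2.1 r le_rfl
      omega
    have hz1 := E.zS n.h0 n.h0 le_rfl (fun l hl => ⟨by
      have := (hpos i₀ n.h0).1 l hl
      omega, by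
      have := (hpos i₀ n.h0).2.1 l hl.le
      omega⟩) (hpos i₀ n.h0).2.2 (hgr i₀ n.h0) hω hs₀ (n.one s₀ hs₀ hss)
      (by
        have := (hpos i₀ n.h0).1 s₀ hs₀
        omega) (X := X + 2 * cl) (by
        have a1 := n.gr i₀ n.h0 s₀ hs₀ hss
        have a2 := E.ng i₀ n.h0 s₀ hs₀.le
        omega) V
    rw [← hzv, en_sz _ _ _ _ _ hV0] at hz1
    have hz2 : sz c (g₀ i₀) (gG G ω i₀) s₀ V ≤ 2 ^ g₀ i₀ y := by
      have b1 : sz c (g₀ i₀) (gG G ω i₀) s₀ V = sz c (g₀ i₀) (gG G ω i₀) s₀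
          (ev c s₀ (mx Sc (kT w TH ω i₀) (gG G ω a)) y) := by
        have b2 : ∀ j < s₀, V (some (c j)) =
            ev c s₀ (mx Sc (kT w TH ω i₀) (gG G ω a)) y (some (c j)) := fun j hj => by
          rw [hV]
          exact ev_cut hc hs₀.le (mx_cvc hκc (hGc a haN)) y j hj
        unfold sz
        refine Finset.sum_congr rfl fun j hj => ?_
        rw [Finset.mem_range] at hj
        rw [b2 j hj, cv_cong (hc.mono (Set.Iio_subset_Iio (hj.trans hs₀).le)) (hGc i₀ n.h0 j)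
          hV0 (ev_none _ _ _ _) (fun i hi => b2 i (hi.trans hj))]
      rw [b1]
      subst hsy
      exact sz_last (hc.mono (Set.Iio_subset_Iio hs₀.le)) (mx_cvc hκc (hGc a haN))
        (hGc i₀ n.h0) _
    have hz3 : |zv| ≤ 2 ^ (14 * cl + 4 * r + X + 10) * (2 ^ (w i₀ + g₀ i₀ y) /
        2 ^ g₀ i₀ s₀) := by
      refine hz1.trans ((mul_le_mul_of_nonneg_left hz2 (by positivity)).trans (le_of_eq ?_))
      rw [show 12 * cl + 4 * r + (X + 2 * cl) + 10 = 14 * cl + 4 * r + X + 10 by ring, pow_add _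
        (w i₀)]
      ring
    -- the two corrections
    have hd1 : |cv (gpt F (G i₃) (ptr F J ω) r - gG G ω i₃ r) W| ≤ 2 ^ g₀ i₃ s₀ /
        2 ^ g₀ i₃ r := by
      refine (hgp E (by omega) i₃ n.h3 ω hω r le_rfl W hW0).trans
        ((mul_le_mul_of_nonneg_left (hszW i₃ n.h3) (by positivity)).trans (le_of_eq ?_))
      ring
    have hd2 : |cv (gG G ω i₃ r - gG G ω a r) W| ≤ 2 ^ (C₃ + cl) * (2 ^ g₀ k' s₀ /
        2 ^ min (g k r + (w k' - w k)) (g₀ k' r)) := by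
      have h4 := hbal hc E.bal (by positivity) hk hk' hq hwk hzq
        (fun y l => (E.evs k hk).ball.degG y l) (fun y l => (E.evs k hk).ball.depG y l)
        (E.evs k' hk').ball ω hω r le_rfl W
      rw [nrm_en] at h4
      have h5 : |cv (gG G ω k r - gG G ω k' r) W| ≤ 2 ^ C₃ * 2 ^ cl /
          2 ^ min (g k r + (w k' - w k)) (g₀ k' r) * sz c (g₀ k') (gG G ω k') r W := by
        rw [← en_sz c (g₀ k') (w k') (gG G ω k') r hW0]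
        unfold gG
        rw [cv_subl, cv_grd, cv_grd]
        exact h4
      have h9 : |cv (gG G ω i₃ r - gG G ω a r) W| = |cv (gG G ω k r - gG G ω k' r) W| := by
        rcases hkk with ⟨rfl, rfl⟩ | ⟨rfl, rfl⟩
        · rfl
        · exact cv_swp _ _ _
      rw [h9]
      refine h5.trans ((mul_le_mul_of_nonneg_left (hszW k' hk') (by positivity)).trans
        (le_of_eq ?_))
      rw [pow_add]
      ring
    have hd3 : |a' - ao| ≤ 2 ^ g₀ i₃ s₀ / 2 ^ g₀ i₃ r + 2 ^ (C₃ + cl) * (2 ^ g₀ k' s₀ /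
        2 ^ min (g k r + (w k' - w k)) (g₀ k' r)) := by
      have b1 : a' - ao = -(cv (gpt F (G i₃) (ptr F J ω) r - gG G ω i₃ r) W +
          cv (gG G ω i₃ r - gG G ω a r) W) := by
        rw [ha', hao', cv_subl, cv_subl, cv_subl, cv_subl]
        ring
      rw [b1, abs_neg]
      exact (abs_add_le _ _).trans (add_le_add hd1 hd2)
    have hd4 : |a' - ao| * |zv| ≤ 2 ^ (14 * cl + 4 * r + 2 * X + 11 + (C₃ + cl)) * R := by
      obtain ⟨S, hSS⟩ : ∃ S : ℝ, S = 2 ^ (w i₀ + g₀ i₀ y) / 2 ^ g₀ i₀ s₀ := ⟨_, rfl⟩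
      have hS0 : 0 < S := by rw [hSS]; positivity
      rw [← hSS] at hz3
      have b1 : 2 ^ g₀ i₃ s₀ / 2 ^ g₀ i₃ r * S ≤ 2 ^ X * R := by
        rw [hSS, hR, div_mul_div_comm, ← pow_add, ← pow_add, div_mul_eq_mul_div, ← pow_add,
          ← mul_div_assoc, div_le_div_iff₀ (by positivity) (by positivity), ← pow_add, ← pow_add,
          ← pow_add]
        exact p2 (by omega)
      have b2 : 2 ^ g₀ k' s₀ / 2 ^ min (g k r + (w k' - w k)) (g₀ k' r) * S ≤ 2 ^ X * R := by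
        obtain ⟨mn, hmn⟩ : ∃ mn, mn = min (g k r + (w k' - w k)) (g₀ k' r) := ⟨_, rfl⟩
        rw [← hmn] at hn4 ⊢
        rw [hSS, hR, div_mul_div_comm, ← pow_add, ← pow_add, div_mul_eq_mul_div, ← pow_add,
          ← mul_div_assoc, div_le_div_iff₀ (by positivity) (by positivity), ← pow_add, ← pow_add,
          ← pow_add]
        exact p2 (by omega)
      have b3 : (1 : ℝ) ≤ 2 ^ (C₃ + cl) := one_le_pow₀ (by norm_num)
      calc |a' - ao| * |zv| ≤ (2 ^ g₀ i₃ s₀ / 2 ^ g₀ i₃ r + 2 ^ (C₃ + cl) * (2 ^ g₀ k' s₀ /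
            2 ^ min (g k r + (w k' - w k)) (g₀ k' r))) *
            (2 ^ (14 * cl + 4 * r + X + 10) * S) :=
            mul_le_mul hd3 hz3 (abs_nonneg _) (by positivity)
        _ = 2 ^ (14 * cl + 4 * r + X + 10) * (2 ^ g₀ i₃ s₀ / 2 ^ g₀ i₃ r * S +
            2 ^ (C₃ + cl) * (2 ^ g₀ k' s₀ /
              2 ^ min (g k r + (w k' - w k)) (g₀ k' r) * S)) := by ring
        _ ≤ 2 ^ (14 * cl + 4 * r + X + 10) * (2 ^ (C₃ + cl) * (2 ^ X * R) +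
            2 ^ (C₃ + cl) * (2 ^ X * R)) := by
            refine mul_le_mul_of_nonneg_left (add_le_add ?_ (mul_le_mul_of_nonneg_left b2
              (by positivity))) (by positivity)
            exact b1.trans (le_mul_of_one_le_left (by positivity) b3)
        _ = _ := by
            rw [show 14 * cl + 4 * r + 2 * X + 11 + (C₃ + cl) = (14 * cl + 4 * r + X + 10) +
              (C₃ + cl) + X + 1 by ring, pow_succ (2 : ℝ) (14 * cl + 4 * r + X + 10 + (C₃ + cl) + X),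
              pow_add (2 : ℝ) (14 * cl + 4 * r + X + 10 + (C₃ + cl)) X,
              pow_add (2 : ℝ) (14 * cl + 4 * r + X + 10) (C₃ + cl)]
            ring
    have hfin : hs (Ht i₁ (slam F (w i₁) ω)) (bt F ω) (bd F ω) V - ao * zv =
        (hs (Ht i₁ (slam F (w i₁) ω)) (bt F ω) (bd F ω) V - a' * zv) + (a' - ao) * zv := by
      ring
    rw [hfin]
    refine (abs_add_le _ _).trans ?_
    rw [abs_mul]
    refine (add_le_add h8 hd4).trans ?_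
    obtain ⟨u1, hu1⟩ : ∃ u, u = C₁ * (cl + (X + 2 * cl) + 1) + X + 1 := ⟨_, rfl⟩
    obtain ⟨u2, hu2⟩ : ∃ u, u = 14 * cl + 4 * r + 2 * X + 11 + (C₃ + cl) := ⟨_, rfl⟩
    rw [← hu1, ← hu2, ← add_mul]
    refine mul_le_mul_of_nonneg_right ?_ hR0.le
    have b4 : C * (cl + X + 1) = C * (cl + X + 1) - 1 + 1 := by omega
    rw [b4, pow_succ, mul_two]
    exact add_le_add (p2 (by omega)) (p2 (by omega))

end Pool.TN
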