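import Pool.Agent.H66.D2.Sp

/-!
# The corrected tower of a static cell is an affine tower

`stp_afd`: from the package `StP` and closed natural corrections `DlP`, the data `AfD` of an affine
tower on a part of the event.
-/

set_option autoImplicit false

namespace Pool.TN

open Finset Real MvPolynomial
open Pool.Agent.H49.Ent Pool.Agent.H32.Dense Pool.STK Pool.KA Pool.KSAT Pool.K2S Pool.PB Pool.S6C
open Pool.GEN Pool.CHT Pool.CHX Pool.ISO Pool.D2R Pool.D2Z Pool.D2F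
open Pool.FLF (Fam.sub)
open Pool.PB.Trl (rt rt_mem t_rt)
open Pool.AFT (AfO AfD ab afo_afd)
open Pool.D2T (der_of)

variable {m J : ℕ}

/-- The derivative of the target row of the tower. -/
theorem lamc_der {F : Fam m J} {c : ℕ → Fin m} {n : ℕ} (hc : Set.InjOn c (Set.Iio n))
    {Sc : ℕ → Prop} {κp : LnT F → ℕ → ℕ → Polynomial ℝ} {φp δp : LnT F → ℕ → Polynomial ℝ}
    {s : LnT F} {τ : ℝ} {κ : ℕ → Option (Fin m) → ℝ} (hκ : ∀ l, CvC c l (κ l))
    (ek : ∀ l < n, ∀ j < l, (κp s l j).eval τ = κ l (some (c j)))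
    {V : Option (Fin m) → ℝ} (h0 : V none = 0) :
    ∑ j ∈ range n, (Polynomial.derivative (lamc n Sc κp φp δp s n j)).eval τ * V (some (c j)) =
      ∑ j ∈ range n, (Polynomial.derivative (φp s j)).eval τ * V (some (c j)) +
      ∑ x ∈ range n, wt Sc (fun l => (Polynomial.derivative (δp s l)).eval τ) x *
        (V (some (c x)) - cv (κ x) V) -
      ∑ x ∈ range n, wt Sc (fun l => (δp s l).eval τ) x *
        ∑ j ∈ range x, (Polynomial.derivative (κp s x j)).eval τ * V (some (c j)) := by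
  classical
  have h1 : ∀ j ∈ range n, (Polynomial.derivative (lamc n Sc κp φp δp s n j)).eval τ *
      V (some (c j)) = (Polynomial.derivative (φp s j)).eval τ * V (some (c j)) +
        ∑ x ∈ range n, (wt Sc (fun l => (Polynomial.derivative (δp s l)).eval τ) x *
          ((if j = x then V (some (c j)) else 0) -
            if j < x then κ x (some (c j)) * V (some (c j)) else 0) -
          wt Sc (fun l => (δp s l).eval τ) x *
            if j < x then (Polynomial.derivative (κp s x j)).eval τ * V (some (c j)) else 0) := by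
    intro j hj
    rw [Finset.mem_range] at hj
    unfold lamc
    rw [if_neg (lt_irrefl n), Polynomial.derivative_add, Polynomial.derivative_sum,
      Polynomial.eval_add, Polynomial.eval_finsetSum, add_mul, Finset.sum_mul]
    congr 1
    refine Finset.sum_congr rfl fun x hx => ?_
    rw [Finset.mem_range] at hx
    unfold wt
    by_cases hs : Sc x
    · simp only [if_pos hs]
      rw [Polynomial.derivative_mul, Polynomial.derivative_sub, Polynomial.eval_add,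
        Polynomial.eval_mul, Polynomial.eval_mul, Polynomial.eval_sub, Polynomial.eval_sub]
      rcases lt_trichotomy j x with h | h | h
      · have h3 : ¬ j = x := by omega
        simp only [if_pos h, if_neg h3, Polynomial.derivative_zero, Polynomial.eval_zero]
        rw [ek x hx j h]
        ring
      · have h3 : ¬ j < x := by omega
        simp only [if_pos h, if_neg h3, Polynomial.derivative_zero, Polynomial.derivative_one,
          Polynomial.eval_zero, Polynomial.eval_one]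
        ring
      · have h3 : ¬ j < x := by omega
        have h4 : ¬ j = x := by omega
        simp only [if_neg h3, if_neg h4, Polynomial.derivative_zero, Polynomial.eval_zero]
        ring
    · simp only [if_neg hs]
      rw [Polynomial.derivative_zero, Polynomial.eval_zero]
      ring
  rw [Finset.sum_congr rfl h1, Finset.sum_add_distrib, add_sub_assoc]
  congr 1
  rw [Finset.sum_comm, ← Finset.sum_sub_distrib]
  refine Finset.sum_congr rfl fun x hx => ?_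
  rw [Finset.mem_range] at hx
  rw [Finset.sum_sub_distrib, ← Finset.mul_sum, ← Finset.mul_sum]
  have hf : ∀ f : ℕ → ℝ, ∑ j ∈ range n, (if j < x then f j else 0) = ∑ j ∈ range x, f j := by
    intro f
    rw [← Finset.sum_filter]
    refine Finset.sum_congr ?_ fun _ _ => rfl
    ext j
    rw [Finset.mem_filter, Finset.mem_range, Finset.mem_range]
    constructor
    · exact fun h => h.2
    · exact fun h => ⟨h.trans hx, h⟩
  rw [hf, Finset.sum_sub_distrib, Finset.sum_ite_eq', if_pos (Finset.mem_range.2 hx), hf,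
    cv_eq (hc.mono (Set.Iio_subset_Iio hx.le)) (hκ x), h0, mul_zero, zero_add]

/-- The closed covectors at the sample. -/
theorem cvc_kc {F : Fam m J} {c : ℕ → Fin m} {t : ℕ}
    {Xc : LnT F → ℕ → MvPolynomial (Option (Fin m)) ℝ} (h : ∀ s l, DepC c l (Xc s l)) (ω : F.Ω)
    (l : ℕ) : CvC c l (kc t Xc ω l) := cvc_grd (h _ _) _

section

variable {F : Fam m J} {c : ℕ → Fin m} {r : ℕ} {Sc : ℕ → Prop} {D t K A e d : ℕ}
  {gK g' gT : ℕ → ℕ} {p : ℕ} {Y : ℝ} {B : F.Ω → Prop}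
  {GK : PtT F → ℕ → MvPolynomial (Option (Fin m)) ℝ}
  {HK Xc : LnT F → ℕ → MvPolynomial (Option (Fin m)) ℝ}
  {Φ : LnT F → MvPolynomial (Option (Fin m)) ℝ}
  {σ Γ : PtT F → ℕ → Option (Fin m) → ℝ} {γ : PtT F → Option (Fin m) → ℝ}

/-- A covector near `Γ l` is near the ball. -/
theorem StP.near (h : StP F c r Sc D t K A e d gK g' gT p Y B GK HK Xc Φ σ Γ γ) {ω : F.Ω}
    (hω : B ω) {l : ℕ} (hl : l ≤ r) {ψ V : Option (Fin m) → ℝ} (h0 : V none = 0) {X : ℝ}
    (hX : 0 ≤ X) (hψ : |cv (ψ - Γ (ptr F J ω) l) V| ≤ X / 2 ^ gK l *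
      sz c gK (Γ (ptr F J ω)) l V) :
    |cv ψ V - dd (GK (ptr F J ω) l) (bt F ω) V| ≤ (X * (1 + Y) ^ (r + 1) + Y) / 2 ^ gK l *
      nrm c (GK (ptr F J ω)) gK K l (bt F ω) V := by
  have hY2 := h.num.y2
  have hn := h.nb ω hω
  have h1 := hn l (by omega) V
  have h2 := hn.en_le (by linarith) (l := l) (by omega) V
  rw [en_sz _ _ _ _ _ h0] at h2
  rw [nrm_en]
  rw [cv_subl, cv_grd] at h1
  rw [cv_subl] at hψ
  obtain ⟨E, hE⟩ : ∃ E, E = en c gK K (fun j => grd (GK (ptr F J ω) j) (bt F ω)) l V := ⟨_, rfl⟩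
  rw [← hE] at h1 h2 ⊢
  have e1 : cv ψ V - dd (GK (ptr F J ω) l) (bt F ω) V = (cv ψ V - cv (Γ (ptr F J ω) l) V) +
      (cv (Γ (ptr F J ω) l) V - dd (GK (ptr F J ω) l) (bt F ω) V) := by ring
  rw [e1]
  refine (abs_add_le _ _).trans ((add_le_add (hψ.trans (mul_le_mul_of_nonneg_left h2
    (by positivity))) h1).trans (le_of_eq ?_))
  ring

/-- The size of the ball in the polynomials and in `Γ`. -/
theorem StP.siz (h : StP F c r Sc D t K A e d gK g' gT p Y B GK HK Xc Φ σ Γ γ) {ω : F.Ω}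
    (hω : B ω) {l : ℕ} (hl : l ≤ r) {V : Option (Fin m) → ℝ} (h0 : V none = 0) :
    nrm c (GK (ptr F J ω)) gK K l (bt F ω) V ≤ (1 + Y) ^ (r + 1) *
      sz c gK (Γ (ptr F J ω)) l V := by
  have hY2 := h.num.y2
  have h2 := (h.nb ω hω).en_ge (by linarith) (l := l) (by omega) V
  rw [en_sz c gK K (Γ (ptr F J ω)) _ h0, ← nrm_en] at h2
  exact h2

theorem StP.rwk (h : StP F c r Sc D t K A e d gK g' gT p Y B GK HK Xc Φ σ Γ γ) {D₁ : ℕ}
    {δp : LnT F → ℕ → Polynomial ℝ} (hδ : DlP F c r Sc D₁ t K gK g' Y B Xc Φ Γ δp) {ω : F.Ω}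
    (hω : B ω) : RwC c r Sc gK g' gT (gK r) p Y (kc t Xc ω) (Γ (ptr F J ω))
      (grd (Φ (slam F t ω)) (bt F ω)) (Γ (ptr F J ω) r)
      (fun l => (δp (slam F t ω) l).eval (rt F t ω)) :=
  ⟨⟨fun l => cvc_kc h.pX ω l, h.cΓ _, h.h1 ω hω, h.h2 ω hω⟩, cvc_grd (h.pP _) _, h.cΓ _ r,
    h.rw1 ω hω, hδ.del ω hω⟩

theorem StP.rwv (h : StP F c r Sc D t K A e d gK g' gT p Y B GK HK Xc Φ σ Γ γ) {ω : F.Ω}
    (hω : B ω) : RwC c r Sc gK g' gT (gK r) p Y (σ (ptr F J ω)) (Γ (ptr F J ω))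
      (γ (ptr F J ω)) (Γ (ptr F J ω) r) (dvi c r Sc σ Γ γ (ptr F J ω)) := by
  have hY2 := h.num.y2
  refine ⟨⟨h.cσ _, h.cΓ _, h.h1' ω hω, h.h2' ω hω⟩, h.cγ _, h.cΓ _ r, h.rw2 ω hω,
    fun l _ _ => ?_⟩
  unfold dvi
  rw [sub_self, abs_zero]
  positivity

end

/-- The constants. -/
theorem num_spa (r k : ℕ) {Y : ℝ} (hY2 : 2 ≤ Y) (hY : Y ≤ 2 ^ k) :
    (2 * Y ^ 4 * (1 + Y ^ 2) ^ r) * (1 + Y) ^ (r + 1) + Y ≤ 2 ^ ((3 * r + 6) * (k + 1)) ∧
    (1 + Y) ^ (r + 1) ≤ 2 ^ ((r + 1) * (k + 1)) := by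
  have hY0 : 0 < Y := by linarith
  have e1 : (2 : ℝ) ^ (k + 1) = 2 ^ k * 2 := pow_succ _ _
  have h1 : 1 + Y ≤ 2 ^ (k + 1) := by
    rw [e1]
    linarith
  have h2 : 1 + Y ^ 2 ≤ 2 ^ (2 * (k + 1)) := by
    have h3 : Y ^ 2 ≤ (2 ^ k) ^ 2 := pow_le_pow_left₀ hY0.le hY 2
    have h4 : (2 : ℝ) ^ (2 * (k + 1)) = (2 ^ k) ^ 2 * 4 := by
      rw [← pow_mul, mul_comm k 2, show 2 * (k + 1) = 2 * k + 2 by ring, pow_add]
      norm_num
    rw [h4]
    nlinarith [sq_nonneg Y]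
  have h3 : (1 + Y) ^ (r + 1) ≤ 2 ^ ((r + 1) * (k + 1)) := by
    rw [mul_comm (r + 1) (k + 1), pow_mul]
    exact pow_le_pow_left₀ (by linarith) h1 _
  refine ⟨?_, h3⟩
  have h4 : (1 + Y ^ 2) ^ r ≤ 2 ^ (2 * r * (k + 1)) := by
    rw [show 2 * r * (k + 1) = 2 * (k + 1) * r by ring, pow_mul]
    exact pow_le_pow_left₀ (by positivity) h2 _
  have h5 : Y ^ 4 ≤ 2 ^ (4 * k) := by
    rw [mul_comm 4 k, pow_mul]
    exact pow_le_pow_left₀ hY0.le hY _
  have h6 : (2 * Y ^ 4 * (1 + Y ^ 2) ^ r) * (1 + Y) ^ (r + 1) ≤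
      2 * 2 ^ (4 * k) * 2 ^ (2 * r * (k + 1)) * 2 ^ ((r + 1) * (k + 1)) :=
    mul_le_mul (mul_le_mul (mul_le_mul_of_nonneg_left h5 (by norm_num)) h4 (by positivity)
      (by positivity)) h3 (by positivity) (by positivity)
  have e2 : (2 : ℝ) * 2 ^ (4 * k) * 2 ^ (2 * r * (k + 1)) * 2 ^ ((r + 1) * (k + 1)) =
      2 ^ (1 + 4 * k + 2 * r * (k + 1) + (r + 1) * (k + 1)) := by
    rw [pow_add, pow_add, pow_add, pow_one]
  rw [e2] at h6
  have h7 : Y ≤ 2 ^ (1 + 4 * k + 2 * r * (k + 1) + (r + 1) * (k + 1)) :=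
    hY.trans (pow_le_pow_right₀ (by norm_num) (by nlinarith [Nat.zero_le (r * k)]))
  have h8 : (2 : ℝ) ^ ((3 * r + 6) * (k + 1)) ≥
      2 ^ (1 + (1 + 4 * k + 2 * r * (k + 1) + (r + 1) * (k + 1))) :=
    pow_le_pow_right₀ (by norm_num) (by nlinarith [Nat.zero_le (r * k)])
  have h9 : (2 : ℝ) ^ (1 + (1 + 4 * k + 2 * r * (k + 1) + (r + 1) * (k + 1))) =
      2 * 2 ^ (1 + 4 * k + 2 * r * (k + 1) + (r + 1) * (k + 1)) := by
    rw [pow_add, pow_one]
  linarith

/-- **One row of derivatives** of the tower. -/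
theorem stp_der (m D D₁ r : ℕ) (hD : 1 ≤ D) : ∃ C : ℕ, 1 ≤ C ∧ ∀ {J : ℕ} {F : Fam m J}
    {c : ℕ → Fin m} {Sc : ℕ → Prop} {t K A e d k p : ℕ} {gK g' gT : ℕ → ℕ} {θ Y : ℝ}
    {B B₁ : F.Ω → Prop} {GK : PtT F → ℕ → MvPolynomial (Option (Fin m)) ℝ}
    {HK Xc : LnT F → ℕ → MvPolynomial (Option (Fin m)) ℝ}
    {Φ : LnT F → MvPolynomial (Option (Fin m)) ℝ}
    {σ Γ : PtT F → ℕ → Option (Fin m) → ℝ} {γ : PtT F → Option (Fin m) → ℝ}
    {l : ℕ} {lam : LnT F → ℕ → Polynomial ℝ} (hB : 0 < Pe F.p B₁),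
    Set.InjOn c (Set.Iio (r + 1)) → t ≤ K → K ≤ J → Y ≤ 2 ^ k → 0 ≤ θ →
    (Fam.sub F B₁ hB).Tm θ → Sub B₁ B →
    C * (θ + 1) ≤ ((J : ℝ) - K) * Real.log 2 → Real.exp (C * (θ + 1)) ≤ 2 ^ k →
    StP F c r Sc D t K A e d gK g' gT p Y B GK HK Xc Φ σ Γ γ → l ≤ r →
    (∀ s j, (lam s j).natDegree ≤ D₁) →
    (∀ ω, B₁ ω → ∀ V : Option (Fin m) → ℝ, V none = 0 →
      |∑ j ∈ range l, (lam (slam F t ω) j).eval (rt F t ω) * V (some (c j)) -
        dd (GK (ptr F J ω) l) (bt F ω) V| ≤ 2 ^ ((3 * r + 6) * (k + 1)) / 2 ^ gK l *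
          nrm c (GK (ptr F J ω)) gK K l (bt F ω) V) →
    ∃ B' : F.Ω → Prop, Sub B' B₁ ∧ Pe F.p B₁ / 2 ≤ Pe F.p B' ∧
      ∀ ω, B' ω → ∀ V : Option (Fin m) → ℝ, V none = 0 →
      |∑ j ∈ range l, (Polynomial.derivative (lam (slam F t ω) j)).eval (rt F t ω) *
        V (some (c j))| ≤ 2 ^ (C * (k + 1)) * 2 ^ (K - t) / 2 ^ gK l *
          sz c gK (Γ (ptr F J ω)) l V := by
  choose C₁ hC₁ hder using fun l => der_of m D D₁ l hD
  obtain ⟨C, hC⟩ : ∃ C, C = (∑ l ∈ range (r + 1), C₁ l) * (3 * r + 7) + (r + 1) := ⟨_, rfl⟩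
  refine ⟨C, by omega, ?_⟩
  intro J F c Sc t K A e d k p gK g' gT θ Y B B₁ GK HK Xc Φ σ Γ γ l lam hB hc htK hKJ hYk hθ hTm
    hsub hCJ hexp h hlr hlam hspa
  have hCl : C₁ l * (3 * r + 7) + (r + 1) ≤ C := by
    have h1 : C₁ l ≤ ∑ l ∈ range (r + 1), C₁ l :=
      Finset.single_le_sum (f := C₁) (fun _ _ => Nat.zero_le _)
        (Finset.mem_range.2 (Nat.lt_succ_of_le hlr))
    rw [hC]
    exact Nat.add_le_add_right (Nat.mul_le_mul_right _ h1) _
  have hCl1 : C₁ l ≤ C := by nlinarith [hC₁ l]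
  have hθ1 : 0 ≤ θ + 1 := by linarith
  have hY2 := h.num.y2
  obtain ⟨k₁, hk₁⟩ : ∃ k₁, k₁ = (3 * r + 6) * (k + 1) := ⟨_, rfl⟩
  have hkk : k ≤ k₁ := by
    rw [hk₁]
    nlinarith
  have hYY : Y ≤ 2 ^ k₁ := hYk.trans (pow_le_pow_right₀ (by norm_num) hkk)
  obtain ⟨B', hB', hPB, hd⟩ := hder l (k := k₁) (Y := 2 ^ k₁) (g := gK) (θ := θ) (w := t) (a := K)
    (c := c) (G := GK) (H := HK) (lam := lam) hB (hc.mono (Set.Iio_subset_Iio (by omega))) htK
    hKJ (hY2.trans hYY) le_rfl hθ hTm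
    (le_trans (mul_le_mul_of_nonneg_right (by exact_mod_cast hCl1) hθ1) hCJ)
    ((Real.exp_le_exp.2 (mul_le_mul_of_nonneg_right (by exact_mod_cast hCl1) hθ1)).trans
      (hexp.trans (pow_le_pow_right₀ (by norm_num) hkk))) h.dH h.pH
    (fun ω hω x hx => ⟨fun V => ((h.dif ω (hsub ω hω) x (hx.trans hlr)).1 V).trans
      (mul_le_mul_of_nonneg_right (div_le_div_of_nonneg_right hYY (by positivity))
        (nrm_nonneg _ _ _ _ _ _ _)), fun V V' Z =>
        ((h.dif ω (hsub ω hω) x (hx.trans hlr)).2 V V' Z).trans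
      (mul_le_mul_of_nonneg_right (div_le_div_of_nonneg_right hYY (by positivity))
        (add_nonneg (mul_nonneg (nrm_nonneg _ _ _ _ _ _ _) (nrm_nonneg _ _ _ _ _ _ _))
          (nrz_nonneg _ _ _ _ _ _ _ _ _)))⟩)
    (fun ω hω => (le_of_eq (nrm_en _ _ _ _ _ _ _)).trans ((en_mono c gK K _ hlr _).trans
      ((le_of_eq (nrm_en _ _ _ _ _ _ _).symm).trans ((h.vb ω (hsub ω hω)).trans
        (mul_le_mul_of_nonneg_right hYY (by positivity))))))
    (fun ω hω x hx V => (h.cur ω (hsub ω hω) x (hx.trans hlr) V).trans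
      (mul_le_mul_of_nonneg_right (mul_le_mul_of_nonneg_right hYY (by positivity))
        (nrm_nonneg _ _ _ _ _ _ _))) hlam
    (fun ω hω V h0 => by
      have := hspa ω hω V h0
      rw [← hk₁] at this
      exact this)
  · refine ⟨B', hB', hPB, fun ω hω V h0 => (hd ω hω V h0).trans ?_⟩
    have h1 := h.siz (hsub ω (hB' ω hω)) hlr h0
    have h2 := (num_spa r k hY2 hYk).2
    have h3 : (2 : ℝ) ^ (C₁ l * (k₁ + 1)) * 2 ^ ((r + 1) * (k + 1)) ≤ 2 ^ (C * (k + 1)) := by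
      rw [← pow_add]
      refine pow_le_pow_right₀ (by norm_num) ?_
      have h4 : k₁ + 1 ≤ (3 * r + 7) * (k + 1) := by
        rw [hk₁]
        nlinarith
      calc C₁ l * (k₁ + 1) + (r + 1) * (k + 1) ≤
            C₁ l * ((3 * r + 7) * (k + 1)) + (r + 1) * (k + 1) :=
            Nat.add_le_add_right (Nat.mul_le_mul_left _ h4) _
        _ = (C₁ l * (3 * r + 7) + (r + 1)) * (k + 1) := by ring
        _ ≤ C * (k + 1) := Nat.mul_le_mul_right _ hCl
    have hs0 := sz_nonneg c gK (Γ (ptr F J ω)) l V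
    calc 2 ^ (K - t) * (2 ^ (C₁ l * (k₁ + 1)) / 2 ^ gK l *
          nrm c (GK (ptr F J ω)) gK K l (bt F ω) V) ≤
          2 ^ (K - t) * (2 ^ (C₁ l * (k₁ + 1)) / 2 ^ gK l *
            (2 ^ ((r + 1) * (k + 1)) * sz c gK (Γ (ptr F J ω)) l V)) := by
          refine mul_le_mul_of_nonneg_left (mul_le_mul_of_nonneg_left (h1.trans ?_)
            (by positivity)) (by positivity)
          exact mul_le_mul_of_nonneg_right h2 hs0
      _ = 2 ^ (C₁ l * (k₁ + 1)) * 2 ^ ((r + 1) * (k + 1)) *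
            (2 ^ (K - t) / 2 ^ gK l * sz c gK (Γ (ptr F J ω)) l V) := by ring
      _ ≤ 2 ^ (C * (k + 1)) * (2 ^ (K - t) / 2 ^ gK l * sz c gK (Γ (ptr F J ω)) l V) :=
          mul_le_mul_of_nonneg_right h3 (by positivity)
      _ = _ := by ring

/-! ### The coefficients of the corrected row -/

/-- The unit vector. -/
noncomputable def un (k : Fin m) : Option (Fin m) → ℝ := fun o => if o = some k then 1 else 0

theorem un_none (k : Fin m) : un k none = 0 := if_neg (by simp)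

theorem cv_un (ψ : Option (Fin m) → ℝ) (k : Fin m) : cv ψ (un k) = ψ (some k) := by
  unfold cv
  rw [Finset.sum_eq_single (some k)]
  · unfold un
    rw [if_pos rfl, mul_one]
  · intro o _ ho
    unfold un
    rw [if_neg ho, mul_zero]
  · intro h
    exact absurd (Finset.mem_univ _) h

/-- The size of the unit vectors. -/
theorem sz_un {c : ℕ → Fin m} {r : ℕ} (hc : Set.InjOn c (Set.Iio r)) {g : ℕ → ℕ} {e : ℕ}
    {χ : ℕ → Option (Fin m) → ℝ} (hχ : ∀ l, CvC c l (χ l))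
    (hl : ∀ l < r, ∀ j < l, |χ l (some (c j))| ≤ 2 ^ (e + nlp g j l)) {j : ℕ} (hj : j < r) :
    sz c g χ r (un (c j)) ≤ r * 2 ^ (e + (Finset.Icc j r).sup g) := by
  unfold sz
  have h1 : ∀ l ∈ range r, 2 ^ g l * |un (c j) (some (c l)) - cv (χ l) (un (c j))| ≤
      (2 : ℝ) ^ (e + (Finset.Icc j r).sup g) := by
    intro l hlr
    rw [Finset.mem_range] at hlr
    rw [cv_un]
    rcases lt_trichotomy l j with h | h | h
    · have h2 : un (c j) (some (c l)) = 0 := by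
        unfold un
        rw [if_neg (fun h3 => ?_)]
        have := hc (Set.mem_Iio.2 hlr) (Set.mem_Iio.2 hj) (Option.some_injective _ h3)
        omega
      have h3 : χ l (some (c j)) = 0 := hχ l (c j) fun i hi h4 => by
        have := hc (Set.mem_Iio.2 (hi.trans hlr)) (Set.mem_Iio.2 hj) h4.symm
        omega
      rw [h2, h3, sub_zero, abs_zero, mul_zero]
      positivity
    · subst h
      have h2 : un (c l) (some (c l)) = 1 := if_pos rfl
      have h3 : χ l (some (c l)) = 0 := hχ l (c l) fun i hi h4 => by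
        have := hc (Set.mem_Iio.2 (hi.trans hlr)) (Set.mem_Iio.2 hlr) h4.symm
        omega
      rw [h2, h3, sub_zero, abs_one, mul_one]
      refine pow_le_pow_right₀ (by norm_num) ?_
      have h4 : g l ≤ (Finset.Icc l r).sup g := Finset.le_sup (f := g)
        (Finset.mem_Icc.2 ⟨le_rfl, hlr.le⟩)
      omega
    · have h2 : un (c j) (some (c l)) = 0 := by
        unfold un
        rw [if_neg (fun h3 => ?_)]
        have := hc (Set.mem_Iio.2 hlr) (Set.mem_Iio.2 hj) (Option.some_injective _ h3)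
        omega
      rw [h2, zero_sub, abs_neg]
      have h4 : (Finset.Icc j l).sup g ≤ (Finset.Icc j r).sup g :=
        Finset.sup_mono (Finset.Icc_subset_Icc_right hlr.le)
      have h5 : g l ≤ (Finset.Icc j l).sup g := Finset.le_sup (f := g)
        (Finset.mem_Icc.2 ⟨h.le, le_rfl⟩)
      have h6 : g l + (e + nlp g j l) ≤ e + (Finset.Icc j r).sup g := by
        unfold nlp
        omega
      calc 2 ^ g l * |χ l (some (c j))| ≤ 2 ^ g l * 2 ^ (e + nlp g j l) :=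
            mul_le_mul_of_nonneg_left (hl l hlr j h) (by positivity)
        _ = 2 ^ (g l + (e + nlp g j l)) := (pow_add _ _ _).symm
        _ ≤ _ := pow_le_pow_right₀ (by norm_num) h6
  refine (Finset.sum_le_sum h1).trans (le_of_eq ?_)
  rw [Finset.sum_const, Finset.card_range, nsmul_eq_mul]

/-- **The coefficients of a covector near the ball.** -/
theorem coe_near {c : ℕ → Fin m} {r : ℕ} (hc : Set.InjOn c (Set.Iio r)) {g : ℕ → ℕ} {e : ℕ}
    {χ : ℕ → Option (Fin m) → ℝ} (hχ : ∀ l, CvC c l (χ l))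
    (hl : ∀ l ≤ r, ∀ j < l, |χ l (some (c j))| ≤ 2 ^ (e + nlp g j l)) {X : ℝ} (hX : 0 ≤ X)
    {ψ : Option (Fin m) → ℝ} (h : ∀ V : Option (Fin m) → ℝ, V none = 0 →
      |cv (ψ - χ r) V| ≤ X / 2 ^ g r * sz c g χ r V) {j : ℕ} (hj : j < r) :
    |ψ (some (c j))| ≤ (1 + X * r) * 2 ^ (e + nlp g j r) := by
  have h1 := h (un (c j)) (un_none _)
  rw [cv_subl, cv_un, cv_un] at h1
  have h2 := sz_un hc hχ (fun l hlr => hl l hlr.le) hj
  have h3 := hl r le_rfl j hj
  have h4 : g r ≤ (Finset.Icc j r).sup g := Finset.le_sup (f := g)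
    (Finset.mem_Icc.2 ⟨hj.le, le_rfl⟩)
  have h5 : (2 : ℝ) ^ (e + (Finset.Icc j r).sup g) = 2 ^ (e + nlp g j r) * 2 ^ g r := by
    rw [← pow_add]
    congr 1
    unfold nlp
    omega
  have h6 : X / 2 ^ g r * sz c g χ r (un (c j)) ≤ X * r * 2 ^ (e + nlp g j r) := by
    refine (mul_le_mul_of_nonneg_left h2 (by positivity)).trans (le_of_eq ?_)
    rw [h5]
    field_simp
  have e1 : ψ (some (c j)) = (ψ (some (c j)) - χ r (some (c j))) + χ r (some (c j)) := by ring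
  rw [e1]
  refine (abs_add_le _ _).trans ((add_le_add (h1.trans h6) h3).trans (le_of_eq ?_))
  ring

/-! ### The tower -/

/-- The rows of the static charts. -/
theorem stp_rows (m D r : ℕ) (hD : 1 ≤ D) : ∃ C : ℕ, 1 ≤ C ∧ ∀ {J : ℕ} {F : Fam m J}
    {c : ℕ → Fin m} {Sc : ℕ → Prop} {t K A e d k p : ℕ} {gK g' gT : ℕ → ℕ} {θ Y : ℝ}
    {B : F.Ω → Prop} {GK : PtT F → ℕ → MvPolynomial (Option (Fin m)) ℝ}
    {HK Xc : LnT F → ℕ → MvPolynomial (Option (Fin m)) ℝ}
    {Φ : LnT F → MvPolynomial (Option (Fin m)) ℝ}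
    {σ Γ : PtT F → ℕ → Option (Fin m) → ℝ} {γ : PtT F → Option (Fin m) → ℝ}
    (_ : 0 < Pe F.p B),
    Set.InjOn c (Set.Iio (r + 1)) → t ≤ K → K ≤ J → Y ≤ 2 ^ k → 0 ≤ θ →
    (∀ (B' : F.Ω → Prop) (hB' : 0 < Pe F.p B'), Sub B' B →
      Pe F.p B ≤ 2 ^ (r + 2) * Pe F.p B' → (Fam.sub F B' hB').Tm θ) →
    C * (θ + 1) ≤ ((J : ℝ) - K) * Real.log 2 → Real.exp (C * (θ + 1)) ≤ 2 ^ k →
    StP F c r Sc D t K A e d gK g' gT p Y B GK HK Xc Φ σ Γ γ →
    ∀ n ≤ r, ∃ B' : F.Ω → Prop, Sub B' B ∧ Pe F.p B ≤ 2 ^ n * Pe F.p B' ∧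
      ∀ ω, B' ω → ∀ l < n, Sc l → ∀ V : Option (Fin m) → ℝ, V none = 0 →
      |∑ j ∈ range l, (Polynomial.derivative (kpol c t (fun s => Xc s l) (slam F t ω) j)).eval
        (rt F t ω) * V (some (c j))| ≤ 2 ^ (C * (k + 1)) * 2 ^ (K - t) / 2 ^ gK l *
          sz c gK (Γ (ptr F J ω)) l V := by
  obtain ⟨C, hC, hder⟩ := stp_der m D D r hD
  refine ⟨C, hC, ?_⟩
  intro J F c Sc t K A e d k p gK g' gT θ Y B GK HK Xc Φ σ Γ γ hB hc htK hKJ hYk hθ hTm hCJ hexp h
    n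
  have hY2 := h.num.y2
  induction n with
  | zero => exact fun _ => ⟨B, fun _ hω => hω, by rw [pow_zero, one_mul], fun ω _ l hl =>
      absurd hl (Nat.not_lt_zero l)⟩
  | succ n ih =>
    intro hn
    obtain ⟨B₁, hB₁, hP₁, hd₁⟩ := ih (by omega)
    have hpos : 0 < Pe F.p B₁ := by
      by_contra hcon
      have : (2 : ℝ) ^ n * Pe F.p B₁ ≤ 0 :=
        mul_nonpos_of_nonneg_of_nonpos (by positivity) (not_lt.1 hcon)
      linarith
    have hp2 : (2 : ℝ) ^ (n + 1) = 2 ^ n * 2 := pow_succ _ _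
    by_cases hs : Sc n
    · have hspa : ∀ ω, B₁ ω → ∀ V : Option (Fin m) → ℝ, V none = 0 →
          |∑ j ∈ range n, (kpol c t (fun s => Xc s n) (slam F t ω) j).eval (rt F t ω) *
            V (some (c j)) - dd (GK (ptr F J ω) n) (bt F ω) V| ≤
            2 ^ ((3 * r + 6) * (k + 1)) / 2 ^ gK n *
              nrm c (GK (ptr F J ω)) gK K n (bt F ω) V := by
        intro ω hω V h0
        have hωB := hB₁ ω hω
        have e1 : ∑ j ∈ range n, (kpol c t (fun s => Xc s n) (slam F t ω) j).eval (rt F t ω) *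
            V (some (c j)) = cv (kc t Xc ω n) V := by
          rw [cv_eq (hc.mono (Set.Iio_subset_Iio (by omega))) (cvc_kc h.pX ω n), h0, mul_zero,
            zero_add]
          refine Finset.sum_congr rfl fun j _ => ?_
          rw [kpol_rt F c (htK.trans hKJ)]
          rfl
        rw [e1]
        refine (h.near hωB (by omega) h0 (by linarith) (h.h1 ω hωB n (by omega) hs V h0)).trans
          (mul_le_mul_of_nonneg_right (div_le_div_of_nonneg_right ?_ (by positivity))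
            (nrm_nonneg _ _ _ _ _ _ _))
        refine le_trans (add_le_add (mul_le_mul_of_nonneg_right ?_ (by positivity)) le_rfl)
          (num_spa r k hY2 hYk).1
        calc Y = 1 * Y * 1 := by ring
          _ ≤ 2 * Y ^ 4 * (1 + Y ^ 2) ^ r := mul_le_mul (mul_le_mul (by norm_num)
            (le_self_pow₀ (by linarith) (by norm_num)) (by linarith) (by norm_num))
            (one_le_pow₀ (by nlinarith)) (by norm_num) (by positivity)
      obtain ⟨B₂, hB₂, hP₂, hd₂⟩ := hder (B := B) (B₁ := B₁) (l := n)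
        (lam := fun s j => kpol c t (fun s => Xc s n) s j) hpos hc htK hKJ hYk hθ
        (hTm B₁ hpos hB₁ (hP₁.trans (mul_le_mul_of_nonneg_right
          (pow_le_pow_right₀ (by norm_num) (by omega)) hpos.le))) hB₁ hCJ hexp h (by omega)
        (fun s j => kpol_deg c t (fun s => h.dX s n) s j) hspa
      refine ⟨B₂, fun ω hω => hB₁ ω (hB₂ ω hω), ?_, fun ω hω l hl => ?_⟩
      · rw [hp2]
        have : (2 : ℝ) ^ n * (Pe F.p B₁) ≤ 2 ^ n * (2 * Pe F.p B₂) :=
          mul_le_mul_of_nonneg_left (by linarith) (by positivity)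
        linarith
      · rcases Nat.lt_succ_iff_lt_or_eq.1 hl with h1 | h1
        · exact hd₁ ω (hB₂ ω hω) l h1
        · subst h1
          exact fun _ => hd₂ ω hω
    · refine ⟨B₁, hB₁, ?_, fun ω hω l hl hs' => ?_⟩
      · rw [hp2]
        have : (0 : ℝ) ≤ 2 ^ n * Pe F.p B₁ := by positivity
        linarith
      · rcases Nat.lt_succ_iff_lt_or_eq.1 hl with h1 | h1
        · exact hd₁ ω hω l h1 hs'
        · subst h1
          exact absurd hs' hs

theorem afd_mono {F : Fam m J} {c : ℕ → Fin m} {n K w a e : ℕ} {g : ℕ → ℕ} {U U' : ℝ}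
    {B : F.Ω → Prop} {St : PtT F → ℕ → Option (Fin m) → ℝ}
    {lam : LnT F → ℕ → ℕ → Polynomial ℝ} (h : AfD F c n K w a e g U B St lam) (hU : U ≤ U') :
    AfD F c n K w a e g U' B St lam :=
  ⟨h.dep, h.deg, h.lip, fun ω hω l hl => (h.vel ω hω l hl).trans
    (mul_le_mul_of_nonneg_right hU (by positivity)),
    fun ω hω l hl V h0 => (h.spa ω hω l hl V h0).trans (mul_le_mul_of_nonneg_right
      (div_le_div_of_nonneg_right hU (by positivity)) (en_nonneg _ _ _ _ _ _)),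
    fun ω hω l hl t ht V h0 => (h.var ω hω l hl t ht V h0).trans (mul_le_mul_of_nonneg_right
      (div_le_div_of_nonneg_right (mul_le_mul_of_nonneg_right hU (by positivity))
        (by positivity)) (en_nonneg _ _ _ _ _ _))⟩

/-- **The corrected tower of a static cell is an affine tower.** -/
theorem stp_afd (m D D₁ r : ℕ) (hD : 1 ≤ D) : ∃ C : ℕ, 1 ≤ C ∧ ∀ {J : ℕ} {F : Fam m J}
    {c : ℕ → Fin m} {Sc : ℕ → Prop} {t K A e d k p : ℕ} {gK g' gT : ℕ → ℕ} {θ Y : ℝ}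
    {B : F.Ω → Prop} {GK : PtT F → ℕ → MvPolynomial (Option (Fin m)) ℝ}
    {HK Xc : LnT F → ℕ → MvPolynomial (Option (Fin m)) ℝ}
    {Φ : LnT F → MvPolynomial (Option (Fin m)) ℝ}
    {σ Γ : PtT F → ℕ → Option (Fin m) → ℝ} {γ : PtT F → Option (Fin m) → ℝ}
    {δp : LnT F → ℕ → Polynomial ℝ} (_ : 0 < Pe F.p B),
    Set.InjOn c (Set.Iio (r + 1)) → t ≤ K → K ≤ J → Y ≤ 2 ^ k → 0 ≤ θ →
    (∀ (B' : F.Ω → Prop) (hB' : 0 < Pe F.p B'), Sub B' B →
      Pe F.p B ≤ 2 ^ (r + 2) * Pe F.p B' → (Fam.sub F B' hB').Tm θ) →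
    C * (θ + 1) ≤ ((J : ℝ) - K) * Real.log 2 → Real.exp (C * (θ + 1)) ≤ 2 ^ k →
    StP F c r Sc D t K A e d gK g' gT p Y B GK HK Xc Φ σ Γ γ →
    DlP F c r Sc D₁ t K gK g' Y B Xc Φ Γ δp →
    ∃ B' : F.Ω → Prop, Sub B' B ∧ Pe F.p B ≤ 2 ^ (r + 2) * Pe F.p B' ∧
      AfD F c (r + 1) (D + D₁) t K (e + d + C * (k + 1))
        (fun l => if l < r then g' l else gK r) (2 ^ (C * (k + 1))) B'
        (fun y l => if l < r then σ y l else cor c r Sc (σ y) (γ y) (dvi c r Sc σ Γ γ y))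
        (ab t (lamc r Sc (fun s l j => kpol c t (fun s => Xc s l) s j)
          (fun s j => kpol c t Φ s j) δp)) := by
  obtain ⟨C₁, hC₁, hrows⟩ := stp_rows m D r hD
  obtain ⟨C₂, hC₂, hder⟩ := stp_der m D (D + D₁) r hD
  obtain ⟨C₃, hC₃, hafo⟩ := afo_afd m (D + D₁) (r + 1)
  obtain ⟨Q, hQ⟩ : ∃ Q, Q = (5 * r + 14) * (r + 2) := ⟨_, rfl⟩
  obtain ⟨N, hN⟩ : ∃ N, N = C₁ + C₂ + 3 * r + 7 := ⟨_, rfl⟩
  obtain ⟨C, hC⟩ : ∃ C, C = C₃ * (N * Q + 1) + N := ⟨_, rfl⟩
  refine ⟨C, by omega, ?_⟩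
  intro J F c Sc t K A e d k p gK g' gT θ Y B GK HK Xc Φ σ Γ γ δp hB hc htK hKJ hYk hθ hTm hCJ
    hexp h hδ
  have hNC : N ≤ C := by
    rw [hC]
    exact Nat.le_add_left _ _
  have hC₁N : C₁ ≤ N := by omega
  have hC₂N : C₂ ≤ N := by omega
  have hC₃C : C₃ ≤ C := by
    rw [hC]
    nlinarith [Nat.zero_le (C₃ * (N * Q)), Nat.zero_le N]
  have hθ1 : 0 ≤ θ + 1 := by linarith
  have hmono : ∀ {X : ℕ}, X ≤ C → (X : ℝ) * (θ + 1) ≤ ((J : ℝ) - K) * Real.log 2 ∧
      Real.exp (X * (θ + 1)) ≤ 2 ^ k := fun hX =>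
    ⟨le_trans (mul_le_mul_of_nonneg_right (by exact_mod_cast hX) hθ1) hCJ,
      (Real.exp_le_exp.2 (mul_le_mul_of_nonneg_right (by exact_mod_cast hX) hθ1)).trans hexp⟩
  have hY2 := h.num.y2
  have hY0 : 0 < Y := by linarith
  have hY1 : 1 ≤ Y := by linarith
  have htJ : t ≤ J := htK.trans hKJ
  have hcr : Set.InjOn c (Set.Iio r) := hc.mono (Set.Iio_subset_Iio (by omega))
  obtain ⟨κp, hκp⟩ : ∃ κp : LnT F → ℕ → ℕ → Polynomial ℝ, κp = fun s l j =>
    kpol c t (fun s => Xc s l) s j := ⟨_, rfl⟩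
  obtain ⟨φp, hφp⟩ : ∃ φp : LnT F → ℕ → Polynomial ℝ, φp = fun s j => kpol c t Φ s j := ⟨_, rfl⟩
  rw [← hκp, ← hφp]
  have hek : ∀ ω, B ω → ∀ l < r, ∀ j < l,
      (κp (slam F t ω) l j).eval (rt F t ω) = kc t Xc ω l (some (c j)) := by
    intro ω _ l _ j _
    rw [hκp]
    exact kpol_rt F c htJ _ ω j
  have hef : ∀ ω, B ω → ∀ j < r, (φp (slam F t ω) j).eval (rt F t ω) =
      grd (Φ (slam F t ω)) (bt F ω) (some (c j)) := by
    intro ω _ j _
    rw [hφp]
    exact kpol_rt F c htJ _ ω j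
  have hdk : ∀ s l j, (κp s l j).natDegree ≤ D := by
    intro s l j
    rw [hκp]
    exact kpol_deg c t (fun s => h.dX s l) s j
  have hdf : ∀ s j, (φp s j).natDegree ≤ D := by
    intro s j
    rw [hφp]
    exact kpol_deg c t h.dP s j
  -- the rows of the static charts
  obtain ⟨B₁, hB₁, hP₁, hd₁⟩ := hrows hB hc htK hKJ hYk hθ hTm (hmono (hC₁N.trans hNC)).1
    (hmono (hC₁N.trans hNC)).2 h r le_rfl
  have hpos₁ : 0 < Pe F.p B₁ := by
    by_contra hcon
    have : (2 : ℝ) ^ r * Pe F.p B₁ ≤ 0 :=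
      mul_nonpos_of_nonneg_of_nonpos (by positivity) (not_lt.1 hcon)
    linarith
  -- the target row
  have hspa : ∀ ω, B₁ ω → ∀ V : Option (Fin m) → ℝ, V none = 0 →
      |∑ j ∈ range r, (lamc r Sc κp φp δp (slam F t ω) r j).eval (rt F t ω) * V (some (c j)) -
        dd (GK (ptr F J ω) r) (bt F ω) V| ≤ 2 ^ ((3 * r + 6) * (k + 1)) / 2 ^ gK r *
          nrm c (GK (ptr F J ω)) gK K r (bt F ω) V := by
    intro ω hω V h0
    have hωB := hB₁ ω hω
    rw [lamc_tgt hcr (fun l => cvc_kc h.pX ω l) (cvc_grd (h.pP _) _) (hek ω hωB)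
      (hef ω hωB) h0]
    have h1 := (h.rwk hδ hωB).nat hcr h.num h0
    refine (h.near hωB le_rfl h0 (by positivity) h1).trans
      (mul_le_mul_of_nonneg_right (div_le_div_of_nonneg_right (num_spa r k hY2 hYk).1
        (by positivity)) (nrm_nonneg _ _ _ _ _ _ _))
  obtain ⟨B₂, hB₂, hP₂, hd₂⟩ := hder (B := B) (B₁ := B₁) (l := r)
    (lam := fun s j => lamc r Sc κp φp δp s r j) hpos₁ hc htK hKJ hYk hθ
    (hTm B₁ hpos₁ hB₁ (hP₁.trans (mul_le_mul_of_nonneg_right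
      (pow_le_pow_right₀ (by norm_num) (by omega)) hpos₁.le))) hB₁ (hmono (hC₂N.trans hNC)).1
    (hmono (hC₂N.trans hNC)).2 h le_rfl (fun s j => lamc_deg hdk hdf hδ.deg s r j) hspa
  have hpos₂ : 0 < Pe F.p B₂ := by linarith
  -- the constant
  obtain ⟨Z, hZ⟩ : ∃ Z : ℝ, Z = 2 ^ (N * (k + 1)) := ⟨_, rfl⟩
  have hpw : ∀ {X : ℕ}, X ≤ N * (k + 1) → (2 : ℝ) ^ X ≤ Z := fun hX => by
    rw [hZ]
    exact pow_le_pow_right₀ (by norm_num) hX
  have hYZ : Y ≤ Z := hYk.trans (hpw (by nlinarith))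
  have hsub : Sub B₂ B := fun ω hω => hB₁ ω (hB₂ ω hω)
  have hK2 : (2 : ℝ) ^ K / 2 ^ t = 2 ^ (K - t) := by
    rw [div_eq_iff (by positivity), ← pow_add]
    congr 1
    omega
  have hCf : CfD F c r Sc D D₁ t K A (e + d + C * (k + 1)) gK g' gT (gK r) p Z B₂
      (kc t Xc) (fun ω => grd (Φ (slam F t ω)) (bt F ω)) σ Γ γ (fun y => Γ y r)
      (dvi c r Sc σ Γ γ) κp φp δp := by
    refine ⟨h.num.mono hYZ, fun ω hω => (h.rwk hδ (hsub ω hω)).mono hYZ,
      fun ω hω => (h.rwv (hsub ω hω)).mono hYZ, h.cσ, h.cγ,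
      fun ω hω V h0 => (h.ag ω (hsub ω hω) V h0).trans (mul_le_mul_of_nonneg_right
        (div_le_div_of_nonneg_right hYZ (by positivity)) (sz_nonneg _ _ _ _ _)),
      fun ω hω l hl hs V h0 => (h.ch ω (hsub ω hω) l hl hs V h0).trans
        (mul_le_mul_of_nonneg_right (div_le_div_of_nonneg_right hYZ (by positivity))
          (sz_nonneg _ _ _ _ _)),
      fun ω hω l hl hs V h0 => (h.rg ω (hsub ω hω) l hl hs V h0).trans
        (mul_le_mul_of_nonneg_right (div_le_div_of_nonneg_right hYZ (by positivity))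
          (sz_nonneg _ _ _ _ _)),
      fun ω hω => hek ω (hsub ω hω), fun ω hω => hef ω (hsub ω hω), hdk, hdf, hδ.deg,
      fun ω hω l hl => (h.vl ω (hsub ω hω) l hl).trans
        (mul_le_mul_of_nonneg_right hYZ (by positivity)),
      fun ω hω l hl hs => (h.vs ω (hsub ω hω) l hl hs).trans
        (div_le_div_of_nonneg_right (mul_le_mul_of_nonneg_right hYZ (by positivity))
          (by positivity)),
      fun ω hω => (h.vn ω (hsub ω hω)).trans (div_le_div_of_nonneg_right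
        (mul_le_mul_of_nonneg_right hYZ (by positivity)) (by positivity)),
      h.vA.trans (mul_le_mul_of_nonneg_right hYZ (by positivity)), ?_, ?_, ?_, ?_, ?_, ?_⟩
    · -- the coefficients
      intro ω hω l hl j hj
      have hωB := hsub ω hω
      rcases Nat.lt_succ_iff_lt_or_eq.1 hl with h1 | h1
      · rw [if_pos h1]
        refine (h.lσ ω hωB l h1 j hj).trans (pow_le_pow_right₀ (by norm_num) ?_)
        have h2 : nlp (fun l => if l < r then g' l else gK r) j l = nlp g' j l :=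
          Pool.CHT.nlp_congr fun x hx => if_pos (hx.trans_lt h1)
        rw [h2]
        omega
      · subst h1
        rw [if_neg (lt_irrefl _)]
        have h1 := coe_near (g := gK) (e := e) hcr (h.cΓ (ptr F J ω)) (h.lΓ ω hωB)
          (X := 2 * Y ^ 4 * (1 + Y ^ 2) ^ l) (by positivity)
          (fun V h0 => (h.rwv hωB).nat hcr h.num h0) hj
        refine h1.trans ?_
        have h2 : nlp gK j l ≤ nlp (fun x => if x < l then g' x else gK l) j l + d := by
          refine Pool.ISO.nlp_cmp (fun x _ hx => ?_) ?_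
          · show gK x ≤ (if x < l then g' x else gK l) + d
            split_ifs with h3
            · exact h.gd x h3
            · have : x = l := by omega
              rw [this]
              omega
          · show (if l < l then g' l else gK l) ≤ gK l
            rw [if_neg (lt_irrefl _)]
        have h3 : 1 + 2 * Y ^ 4 * (1 + Y ^ 2) ^ l * l ≤ 2 ^ (C * (k + 1)) := by
          have h4 := (num_spa l k hY2 hYk).1
          have h5 : (l : ℝ) ≤ (1 + Y) ^ (l + 1) := by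
            have h6 : (l : ℝ) ≤ Y := h.num.yn
            refine h6.trans ((by linarith : Y ≤ 1 + Y).trans ?_)
            exact le_self_pow₀ (by linarith) (by omega)
          have h6 : 2 * Y ^ 4 * (1 + Y ^ 2) ^ l * l ≤
              2 * Y ^ 4 * (1 + Y ^ 2) ^ l * (1 + Y) ^ (l + 1) :=
            mul_le_mul_of_nonneg_left h5 (by positivity)
          have h7 : (2 : ℝ) ^ ((3 * l + 6) * (k + 1)) ≤ 2 ^ (C * (k + 1)) :=
            pow_le_pow_right₀ (by norm_num) (Nat.mul_le_mul_right _ (by omega))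
          linarith
        calc (1 + 2 * Y ^ 4 * (1 + Y ^ 2) ^ l * l) * 2 ^ (e + nlp gK j l) ≤
              2 ^ (C * (k + 1)) * 2 ^ (e + nlp gK j l) :=
              mul_le_mul_of_nonneg_right h3 (by positivity)
          _ = 2 ^ (C * (k + 1) + (e + nlp gK j l)) := (pow_add _ _ _).symm
          _ ≤ _ := pow_le_pow_right₀ (by norm_num) (by omega)
    · -- d1
      intro ω hω l hl hs V h0
      have h1 := hd₁ ω (hB₂ ω hω) l hl hs V h0
      rw [hκp]
      refine h1.trans (mul_le_mul_of_nonneg_right (div_le_div_of_nonneg_right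
        (mul_le_mul_of_nonneg_right (hpw (Nat.mul_le_mul_right _ hC₁N)) (by positivity))
        (by positivity)) (sz_nonneg _ _ _ _ _))
    · -- d2
      intro ω hω l hl hs x hx hsx
      have hωB := hsub ω hω
      rw [hκp]
      rw [kpol_hs F (hcr.mono (Set.Iio_subset_Iio hl.le)) htJ (fun s => h.pX s l) ω
        (ev_none _ _ _ _), abs_mul, abs_of_pos (by positivity : (0 : ℝ) < 1 / 2 ^ t)]
      refine (mul_le_mul_of_nonneg_left (h.x2 ω hωB l hl hs x hx hsx) (by positivity)).trans ?_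
      rw [← hK2]
      calc 1 / 2 ^ t * (Y * 2 ^ K / 2 ^ gK l * 2 ^ g' x) =
            Y * (2 ^ K / 2 ^ t / 2 ^ gK l * 2 ^ g' x) := by ring
        _ ≤ Z * (2 ^ K / 2 ^ t / 2 ^ gK l * 2 ^ g' x) :=
            mul_le_mul_of_nonneg_right hYZ (by positivity)
        _ = _ := by ring
    · -- d3
      intro ω hω l hl hs V h0
      have hωB := hsub ω hω
      rw [hκp]
      rw [kpol_hs F (hcr.mono (Set.Iio_subset_Iio hl.le)) htJ (fun s => h.pX s l) ω h0,
        abs_mul, abs_of_pos (by positivity : (0 : ℝ) < 1 / 2 ^ t)]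
      refine (mul_le_mul_of_nonneg_left (h.hr ω hωB l hl hs V h0) (by positivity)).trans ?_
      rw [← hK2]
      have hs0 := sz_nonneg c g' (kc t Xc ω) l V
      calc 1 / 2 ^ t * (Y * 2 ^ K / 2 ^ g' l * sz c g' (kc t Xc ω) l V) =
            Y * (2 ^ K / 2 ^ t / 2 ^ g' l * sz c g' (kc t Xc ω) l V) := by ring
        _ ≤ Z * (2 ^ K / 2 ^ t / 2 ^ g' l * sz c g' (kc t Xc ω) l V) :=
            mul_le_mul_of_nonneg_right hYZ (by positivity)
        _ = _ := by ring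
    · -- d4
      intro ω hω V h0
      refine (hd₂ ω hω V h0).trans (mul_le_mul_of_nonneg_right (div_le_div_of_nonneg_right
        (mul_le_mul_of_nonneg_right (hpw (Nat.mul_le_mul_right _ hC₂N)) (by positivity))
        (by positivity)) (sz_nonneg _ _ _ _ _))
    · -- d5
      intro ω hω x hx hsx
      have hωB := hsub ω hω
      have hΞ : ∀ l, CvC c l (mx Sc (kc t Xc ω) (Γ (ptr F J ω)) l) :=
        mx_cvc (fun l => cvc_kc h.pX ω l) (h.cΓ _)
      rw [lamc_der hcr (fun l => cvc_kc h.pX ω l) (hek ω hωB) (ev_none _ _ _ _)]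
      have e1 : ∑ y ∈ range r, wt Sc (fun l => (Polynomial.derivative
          (δp (slam F t ω) l)).eval (rt F t ω)) y *
          (ev c r (mx Sc (kc t Xc ω) (Γ (ptr F J ω))) x (some (c y)) -
            cv (kc t Xc ω y) (ev c r (mx Sc (kc t Xc ω) (Γ (ptr F J ω))) x)) = 0 := by
        refine Finset.sum_eq_zero fun y hy => ?_
        rw [Finset.mem_range] at hy
        by_cases hsy : Sc y
        · have h1 := ev_comp hcr hΞ x hy
          rw [mx_pos hsy] at h1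
          have h2 : ¬ y = x := fun h3 => hsx (h3 ▸ hsy)
          rw [if_neg h2] at h1
          rw [h1, mul_zero]
        · rw [wt_neg hsy, zero_mul]
      have e2 : ∑ j ∈ range r, (Polynomial.derivative (φp (slam F t ω) j)).eval (rt F t ω) *
          ev c r (mx Sc (kc t Xc ω) (Γ (ptr F J ω))) x (some (c j)) =
          1 / 2 ^ t * hs (Φ (slam F t ω)) (bt F ω) (bd F ω)
            (ev c r (mx Sc (kc t Xc ω) (Γ (ptr F J ω))) x) := by
        rw [hφp]
        exact kpol_hs F hcr htJ h.pP ω (ev_none _ _ _ _)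
      have e3 : ∑ y ∈ range r, wt Sc (fun l => (δp (slam F t ω) l).eval (rt F t ω)) y *
          ∑ j ∈ range y, (Polynomial.derivative (κp (slam F t ω) y j)).eval (rt F t ω) *
            ev c r (mx Sc (kc t Xc ω) (Γ (ptr F J ω))) x (some (c j)) =
          1 / 2 ^ t * ∑ y ∈ range r, wt Sc (fun l => (δp (slam F t ω) l).eval (rt F t ω)) y *
            hs (Xc (slam F t ω) y) (bt F ω) (bd F ω)
              (ev c r (mx Sc (kc t Xc ω) (Γ (ptr F J ω))) x) := by
        rw [Finset.mul_sum]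
        refine Finset.sum_congr rfl fun y hy => ?_
        rw [Finset.mem_range] at hy
        have h1 := kpol_hs F (hcr.mono (Set.Iio_subset_Iio hy.le)) htJ (fun s => h.pX s y) ω
          (ev_none c r (mx Sc (kc t Xc ω) (Γ (ptr F J ω))) x)
        rw [hκp]
        rw [h1]
        ring
      rw [e1, e2, e3, add_zero, ← mul_sub, abs_mul,
        abs_of_pos (by positivity : (0 : ℝ) < 1 / 2 ^ t)]
      refine (mul_le_mul_of_nonneg_left (hδ.x5 ω hωB x hx hsx) (by positivity)).trans ?_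
      rw [← hK2]
      calc 1 / 2 ^ t * (Y * 2 ^ K / 2 ^ gK r * 2 ^ g' x) =
            Y * (2 ^ K / 2 ^ t / 2 ^ gK r * 2 ^ g' x) := by ring
        _ ≤ Z * (2 ^ K / 2 ^ t / 2 ^ gK r * 2 ^ g' x) :=
            mul_le_mul_of_nonneg_right hYZ (by positivity)
        _ = _ := by ring
  have hAf := hCf.afo hcr
  have hZQ : Z ^ ((5 * r + 14) * (r + 2)) = 2 ^ (N * Q * (k + 1)) := by
    rw [hZ, ← pow_mul, hQ]
    congr 1
    ring
  rw [hZQ] at hAf
  have hkQ : k ≤ N * Q * (k + 1) := by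
    have h1 : 1 ≤ N * Q := by
      have h2 : 1 ≤ N := by omega
      have h3 : 1 ≤ Q := by rw [hQ]; nlinarith
      exact Nat.mul_le_mul h2 h3
    nlinarith
  have hPB₂ : Pe F.p B ≤ 2 ^ (r + 1) * Pe F.p B₂ := by
    have hp2 : (2 : ℝ) ^ (r + 1) = 2 ^ r * 2 := pow_succ _ _
    rw [hp2]
    have : (2 : ℝ) ^ r * (Pe F.p B₁) ≤ 2 ^ r * (2 * Pe F.p B₂) :=
      mul_le_mul_of_nonneg_left (by linarith) (by positivity)
    linarith
  have hp3 : (2 : ℝ) ^ (r + 2) = 2 ^ (r + 1) * 2 := pow_succ _ _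
  have hlog : (0 : ℝ) ≤ Real.log 2 := Real.log_nonneg (by norm_num)
  have htK' : (t : ℝ) ≤ K := by exact_mod_cast htK
  obtain ⟨B₃, hB₃, hP₃, hAd⟩ := hafo (B := B₂) (k := N * Q * (k + 1)) hpos₂ hc htK hKJ hθ
    (hTm B₂ hpos₂ hsub (by
      rw [hp3]
      have : (0 : ℝ) ≤ 2 ^ (r + 1) * Pe F.p B₂ := by positivity
      linarith))
    ((hmono hC₃C).1.trans (mul_le_mul_of_nonneg_right (by linarith) hlog))
    ((hmono hC₃C).2.trans (pow_le_pow_right₀ (by norm_num) hkQ)) hAf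
  refine ⟨B₃, fun ω hω => hsub ω (hB₃ ω hω), ?_, ?_⟩
  · rw [hp3]
    have : (2 : ℝ) ^ (r + 1) * Pe F.p B₂ ≤ 2 ^ (r + 1) * (2 * Pe F.p B₃) :=
      mul_le_mul_of_nonneg_left (by linarith) (by positivity)
    linarith
  · refine afd_mono hAd (pow_le_pow_right₀ (by norm_num) ?_)
    calc C₃ * (N * Q * (k + 1) + 1) ≤ C₃ * ((N * Q + 1) * (k + 1)) :=
          Nat.mul_le_mul_left _ (by nlinarith)
      _ = C₃ * (N * Q + 1) * (k + 1) := by ring
      _ ≤ C * (k + 1) := Nat.mul_le_mul_right _ (by rw [hC]; exact Nat.le_add_right _ _)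

end Pool.TN
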