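import Pool.Agent.H66.D2.Lab
import Pool.Agent.H23.D2.Cls

/-!
# The labels of the chain coordinates at finitely many windows

`labs_out`: for finitely many triples (place `l < r` of the thin chain, two windows `w i ≤ w j` of one
event) the thin label of `c l` of the window `i` against the ball of the window `j` (`ROut1`), and
against the thin label of the window `j` (`LOut`).
-/

set_option autoImplicit false

namespace Pool.D2R

open Finset Real MvPolynomial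
open Pool.Agent.H49.Ent Pool.Agent.H32.Dense Pool.STK Pool.KA Pool.KSAT Pool.K2S Pool.PB Pool.S6C
open Pool.GEN Pool.CHT Pool.CHX Pool.ISO
open Pool.FLF (Fam.sub)
open Pool.RCV (evS_tgt)

/-- **The labels of the chain coordinates** at finitely many windows of one event. -/
theorem labs_out (m D r : ℕ) (hD : 1 ≤ D) : ∃ C : ℕ, 1 ≤ C ∧ ∀ {J : ℕ} {F : Fam m J}
    {c : ℕ → Fin m} {Dr N k : ℕ} {w v M e h p : ℕ → ℕ} {z g gc gT g₀ : ℕ → ℕ → ℕ}
    {R : ℕ → Prop} {θ : ℝ}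
    {G : ℕ → PtT F → ℕ → MvPolynomial (Option (Fin m)) ℝ}
    {H : ℕ → LnT F → ℕ → MvPolynomial (Option (Fin m)) ℝ}
    {T : ℕ → PtT F → ℕ → MvPolynomial (Option (Fin m)) ℝ}
    {TH : ℕ → LnT F → ℕ → MvPolynomial (Option (Fin m)) ℝ}
    {Gt : ℕ → PtT F → MvPolynomial (Option (Fin m)) ℝ}
    {Ht : ℕ → LnT F → MvPolynomial (Option (Fin m)) ℝ},
    Set.InjOn c (Set.Iio (r + 1)) → (∀ i ≤ N, w i ≤ J) →
    (∀ i ≤ N, ∀ j ≤ N, w i + v i = w j + v j) → D ≤ Dr → (∀ i ≤ N, ∀ l < r, 1 ≤ gT i l) →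
    (∀ i ≤ N, ∀ l ≤ r, e i + g₀ i l + C * (k + 1) ≤ J) →
    (∀ i ≤ N, ∀ l < r, e i + gT i l + C * (k + 1) ≤ J) → 0 ≤ θ →
    (∀ i ≤ N, C * (θ + 1) ≤ ((J : ℝ) - w i) * Real.log 2) → Real.exp (C * (θ + 1)) ≤ 2 ^ k →
    ∀ (L : List (ℕ × ℕ × ℕ)), (∀ x ∈ L, x.1 < r ∧ x.2.1 ≤ N ∧ x.2.2 ≤ N ∧ w x.2.1 ≤ w x.2.2) →
    ∀ (κ : ℝ) (B : F.Ω → Prop), 0 ≤ κ → 0 < Pe F.p B →
    (∀ i ≤ N, EvS F c r D Dr (w i) (v i) (M i) (z i) (e i) (h i) (p i) R (g i) (gc i) (gT i)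
      (g₀ i) κ B (G i) (H i) (T i) (TH i) (Gt i) (Ht i)) →
    κ * ((16 * 4 ^ r) ^ 2) ^ (L.length + 1) ≤ 1 →
    (∀ (B' : F.Ω → Prop) (hB' : 0 < Pe F.p B'), Sub B' B →
      Pe F.p B ≤ ((16 * 4 ^ r) ^ 2) ^ (L.length + 1) * Pe F.p B' → (Fam.sub F B' hB').Tm θ) →
    ∃ B' : F.Ω → Prop, Sub B' B ∧ Pe F.p B ≤ ((16 * 4 ^ r) ^ 2) ^ L.length * Pe F.p B' ∧
      ∀ x ∈ L, (∀ q : ℕ, q + C * (h x.2.2 + 1) ≤ gT x.2.1 x.1 →
          q + C * (h x.2.2 + 1) ≤ gc x.2.2 x.1 →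
          ROut1 F c x.1 (w x.2.1) (w x.2.2) (v x.2.2) (g₀ x.2.2) (gT x.2.2) q
            (2 ^ (C * (h x.2.2 + k + 1))) B' (G x.2.2) (H x.2.2) (T x.2.2) (TH x.2.2)
            (fun s => TH x.2.1 s x.1)) ∧
        ∀ q : ℕ, q + C * (h x.2.2 + 1) ≤ gT x.2.1 x.1 → q + C * (h x.2.2 + 1) ≤ gT x.2.2 x.1 →
          LOut F c x.1 (w x.2.1) (w x.2.2) (v x.2.2) (gT x.2.2) q
            (2 ^ (C * (h x.2.2 + k + 1))) B' (T x.2.2) (TH x.2.2)
            (fun s => TH x.2.1 s x.1) (fun s => TH x.2.2 s x.1) := by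
  choose C₁ hC₁ hpair using fun l => pair_out m D l hD
  choose C₂ hC₂ hlab using fun l => lab_out m D l hD
  obtain ⟨C, hC⟩ : ∃ C, C = 1 + ∑ l ∈ range r, (C₁ l + C₂ l) := ⟨_, rfl⟩
  refine ⟨C, by omega, ?_⟩
  intro J F c Dr N k w v M e h p z g gc gT g₀ R θ G H T TH Gt Ht hc hwJ hrad hDr hgT hJ hJT hθ
    hCJ hexp L
  have hp := Pe_nonneg F.isLaw
  have hCl : ∀ l < r, C₁ l + C₂ l ≤ C := by
    intro l hl
    have := Finset.single_le_sum (f := fun l => C₁ l + C₂ l) (fun _ _ => Nat.zero_le _)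
      (Finset.mem_range.2 hl)
    omega
  have hθ1 : 0 ≤ θ + 1 := by linarith
  obtain ⟨Y, hY⟩ : ∃ Y : ℝ, Y = (16 * 4 ^ r) ^ 2 := ⟨_, rfl⟩
  have h41 : (1 : ℝ) ≤ 4 ^ r := one_le_pow₀ (by norm_num)
  have hy1 : (1 : ℝ) ≤ 16 * 4 ^ r := by linarith
  have hY1 : 1 ≤ Y := by rw [hY]; exact one_le_pow₀ hy1
  have hY0 : 0 < Y := by linarith
  have hyY : 16 * 4 ^ r ≤ Y := by
    rw [hY]
    exact le_self_pow₀ hy1 (by norm_num)
  rw [← hY]
  induction L with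
  | nil =>
    intro hL κ B hκ hB hE hκY hTm
    exact ⟨B, fun _ h => h, by simp, fun x hx => absurd hx (List.not_mem_nil)⟩
  | cons x L ih =>
    intro hL κ B hκ hB hE hκY hTm
    obtain ⟨x0, x1, x2, x3⟩ := hL x List.mem_cons_self
    obtain ⟨l, i, j⟩ := x
    simp only at x0 x1 x2 x3
    have hlen : ((l, i, j) :: L).length = L.length + 1 := List.length_cons
    rw [hlen] at hκY hTm ⊢
    have hYl : (1 : ℝ) ≤ Y ^ L.length := one_le_pow₀ hY1
    have hYl1 : (1 : ℝ) ≤ Y ^ (L.length + 1) := one_le_pow₀ hY1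
    have h4l : (4 : ℝ) ^ l ≤ 4 ^ r := pow_le_pow_right₀ (by norm_num) x0.le
    have hcl : Set.InjOn c (Set.Iio (l + 1)) := hc.mono (Set.Iio_subset_Iio (by omega))
    have hcr : Set.InjOn c (Set.Iio r) := hc.mono (Set.Iio_subset_Iio (by omega))
    have hC1l : C₁ l ≤ C := by have := hCl l x0; omega
    have hC2l : C₂ l ≤ C := by have := hCl l x0; omega
    have hCR : ∀ {X : ℕ}, X ≤ C → (X : ℝ) * (θ + 1) ≤ C * (θ + 1) := fun hX =>
      mul_le_mul_of_nonneg_right (by exact_mod_cast hX) hθ1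
    have hT : ∀ {X : ℕ}, X ≤ C → (X : ℝ) * (θ + 1) ≤ ((J : ℝ) - w j) * Real.log 2 ∧
        Real.exp (X * (θ + 1)) ≤ 2 ^ k := fun hX =>
      ⟨(hCR hX).trans (hCJ _ x2), (Real.exp_le_exp.2 (hCR hX)).trans hexp⟩
    have hκy : κ * (16 * 4 ^ r) ≤ 1 := by
      refine le_trans (mul_le_mul_of_nonneg_left ?_ hκ) hκY
      calc (16 * 4 ^ r : ℝ) ≤ Y := hyY
        _ ≤ Y ^ (L.length + 1 + 1) := le_self_pow₀ hY1 (by omega)
    -- the ball
    obtain ⟨B₁, k1, k2, k3⟩ := hpair l (θ := θ) (k := k) hB hcl x3 (hwJ _ x2) (hrad _ x1 _ x2) hDr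
      (evS_tgt hcr (hE _ x1) x0) (evS_tgt hcr (hE _ x2) x0) hκ
      (le_trans (mul_le_mul_of_nonneg_left (by linarith) hκ) hκy)
      (fun y hy => hgT _ x2 y (hy.trans x0))
      (fun y hy => le_trans (Nat.add_le_add_left (Nat.mul_le_mul_right _ hC1l) _)
        (hJ _ x2 y (by omega)))
      (fun y hy => le_trans (Nat.add_le_add_left (Nat.mul_le_mul_right _ hC1l) _)
        (hJT _ x2 y (by omega))) hθ (fun B' hB' s1 s2 => by
        refine hTm B' hB' s1 ?_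
        rw [div_le_iff₀ (by positivity)] at s2
        refine s2.trans ?_
        rw [mul_comm]
        refine mul_le_mul_of_nonneg_right ?_ (hp _)
        calc (16 * 4 ^ l : ℝ) ≤ Y := le_trans (by linarith) hyY
          _ ≤ Y ^ (L.length + 1 + 1) := le_self_pow₀ hY1 (by omega)) (hT hC1l).1 (hT hC1l).2
    have k2' : Pe F.p B ≤ (16 * 4 ^ r) * Pe F.p B₁ :=
      k2.trans (mul_le_mul_of_nonneg_right (by linarith) (hp _))
    have hB₁ : 0 < Pe F.p B₁ := by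
      by_contra hcon
      have : Pe F.p B₁ = 0 := le_antisymm (not_lt.1 hcon) (hp _)
      rw [this, mul_zero] at k2'
      linarith
    -- the labels
    have hy0 : (0 : ℝ) < 16 * 4 ^ r := by linarith
    have hE₁ : ∀ i ≤ N, EvS F c r D Dr (w i) (v i) (M i) (z i) (e i) (h i) (p i) R (g i) (gc i)
        (gT i) (g₀ i) (κ * (16 * 4 ^ r)) B₁ (G i) (H i) (T i) (TH i) (Gt i) (Ht i) :=
      fun i hi => (hE i hi).sub (κ₁ := 1 / (16 * 4 ^ r)) k1 (by
        rw [one_div, inv_mul_le_iff₀ hy0]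
        exact k2') (mul_nonneg hκ hy0.le) (by
        rw [mul_one_div, mul_div_assoc, div_self hy0.ne', mul_one])
    have e16 : Y = (16 * 4 ^ r) * (16 * 4 ^ r) := by rw [hY, sq]
    obtain ⟨B₂, l1, l2, l3⟩ := hlab l (θ := θ) (k := k) hB₁ hcl x3 (hwJ _ x2) (hrad _ x1 _ x2)
      hDr (evS_tgt hcr (hE₁ _ x1) x0) (evS_tgt hcr (hE₁ _ x2) x0) (mul_nonneg hκ hy0.le)
      (by
        refine le_trans ?_ hκY
        rw [mul_assoc]
        refine mul_le_mul_of_nonneg_left ?_ hκ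
        calc (16 * 4 ^ r : ℝ) * (8 * 4 ^ l) ≤ (16 * 4 ^ r) * (16 * 4 ^ r) :=
              mul_le_mul_of_nonneg_left (by linarith) hy0.le
          _ = Y := e16.symm
          _ ≤ Y ^ (L.length + 1 + 1) := le_self_pow₀ hY1 (by omega))
      (fun y hy => hgT _ x2 y (hy.trans x0)) hθ (fun B' hB' s1 s2 => by
        refine hTm B' hB' (fun ω hω => k1 ω (s1 ω hω)) ?_
        rw [div_le_iff₀ (by positivity)] at s2
        refine k2'.trans ((mul_le_mul_of_nonneg_left s2 hy0.le).trans ?_)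
        have e2 : (16 * 4 ^ r : ℝ) * (Pe F.p B' * (4 * 4 ^ l)) =
            ((16 * 4 ^ r) * (4 * 4 ^ l)) * Pe F.p B' := by ring
        rw [e2]
        refine mul_le_mul_of_nonneg_right ?_ (hp _)
        calc (16 * 4 ^ r : ℝ) * (4 * 4 ^ l) ≤ (16 * 4 ^ r) * (16 * 4 ^ r) :=
              mul_le_mul_of_nonneg_left (by linarith) hy0.le
          _ = Y := e16.symm
          _ ≤ Y ^ (L.length + 1 + 1) := le_self_pow₀ hY1 (by omega)) (hT hC2l).1 (hT hC2l).2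
    have l2' : Pe F.p B₁ ≤ (16 * 4 ^ r) * Pe F.p B₂ :=
      l2.trans (mul_le_mul_of_nonneg_right (by linarith) (hp _))
    have hPB : Pe F.p B ≤ Y * Pe F.p B₂ := by
      rw [e16, mul_assoc]
      exact k2'.trans (mul_le_mul_of_nonneg_left l2' hy0.le)
    have hB₂ : 0 < Pe F.p B₂ := by
      by_contra hcon
      have : Pe F.p B₂ = 0 := le_antisymm (not_lt.1 hcon) (hp _)
      rw [this, mul_zero] at hPB
      linarith
    have hs2 : Sub B₂ B := fun ω hω => k1 ω (l1 ω hω)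
    obtain ⟨B₃, m1, m2, m3⟩ := ih (fun y hy => hL y (List.mem_cons_of_mem _ hy)) (κ * Y) B₂
      (mul_nonneg hκ hY0.le) hB₂ (fun i hi => (hE i hi).sub (κ₁ := 1 / Y) hs2 (by
        rw [one_div, inv_mul_le_iff₀ hY0]
        exact hPB) (mul_nonneg hκ hY0.le) (by
        rw [mul_one_div, mul_div_assoc, div_self hY0.ne', mul_one])) (by
        rw [pow_succ] at hκY
        calc κ * Y * Y ^ (L.length + 1) = κ * (Y ^ (L.length + 1) * Y) := by ring
          _ ≤ 1 := hκY) (fun B' hB' s1 s2 => hTm B' hB' (fun ω hω => hs2 ω (s1 ω hω)) (by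
        rw [pow_succ]
        calc Pe F.p B ≤ Y * Pe F.p B₂ := hPB
          _ ≤ Y * (Y ^ (L.length + 1) * Pe F.p B') := mul_le_mul_of_nonneg_left s2 hY0.le
          _ = _ := by ring))
    refine ⟨B₃, fun ω hω => hs2 ω (m1 ω hω), ?_, fun y hy => ?_⟩
    · rw [pow_succ]
      calc Pe F.p B ≤ Y * Pe F.p B₂ := hPB
        _ ≤ Y * (Y ^ L.length * Pe F.p B₃) := mul_le_mul_of_nonneg_left m2 hY0.le
        _ = _ := by ring
    · rcases List.mem_cons.1 hy with h5 | h5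
      · rw [h5]
        have hU : ∀ {X : ℕ}, X ≤ C → (2 : ℝ) ^ (X * (h j + k + 1)) ≤ 2 ^ (C * (h j + k + 1)) :=
          fun hX => pow_le_pow_right₀ (by norm_num) (Nat.mul_le_mul_right _ hX)
        have hq : ∀ {X q b : ℕ}, X ≤ C → q + C * (h j + 1) ≤ b → q + X * (h j + 1) ≤ b :=
          fun hX hb => le_trans (Nat.add_le_add_left (Nat.mul_le_mul_right _ hX) _) hb
        refine ⟨fun q q1 q2 => ?_, fun q q1 q2 => ?_⟩
        · exact ((k3 q (hq hC1l q1) (hq hC1l q2)).mono le_rfl (by positivity) (hU hC1l)).sub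
            (fun ω hω => l1 ω (m1 ω hω))
        · exact ((l3 q (hq hC2l q1) (hq hC2l q2)).mono le_rfl (by positivity) (hU hC2l)).sub m1
      · exact m3 y h5

end Pool.D2R
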