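import Pool.Agent.H66.D2.Lab

/-!
# The row covector over closed static charts

`StaR`: at the own exact point, the static charts `ψ l` which are closed on the longest window
against the thin chain and the ball chart of the ball `a`. `row_cl`: `Pool.RCV.row_cov` where the
vectors are lifted by the charts `ψ l` of the static coordinates.
-/

set_option autoImplicit false

namespace Pool.RCV

open Finset Real MvPolynomial
open Pool.Agent.H49.Ent Pool.Agent.H32.Dense Pool.STK Pool.KA Pool.KSAT Pool.K2S Pool.PB Pool.S6C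
open Pool.GEN Pool.CHT Pool.CHX Pool.ISO Pool.D2R Pool.D2Z Pool.D2F
open Pool.PB.Trl (rt rt_mem t_rt)

variable {m J : ℕ}

/-- **The static charts** `ψ l`, `l ∈ Sc`, against the thin chain `TH` and against the ball chart
`G`, at the point `x` and in the direction `W`; the other coordinates are rough. -/
structure StaR (c : ℕ → Fin m) (r a A v' : ℕ) (g₀ gT : ℕ → ℕ) (Y : ℝ) (Sc : ℕ → Prop)
    (ψ : ℕ → MvPolynomial (Option (Fin m)) ℝ) (TH G : ℕ → MvPolynomial (Option (Fin m)) ℝ)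
    (x W : Option (Fin m) → ℝ) : Prop where
  c1 : ∀ l < r, Sc l → ∀ V : Option (Fin m) → ℝ,
    |dd (ψ l) x V - dd (TH l) x V| ≤ Y / 2 ^ gT l * nrm c TH gT A l x V
  c2 : ∀ l < r, Sc l → ∀ V Z : Option (Fin m) → ℝ,
    |hs (ψ l) x W V + dd (ψ l) x Z - (hs (TH l) x W V + dd (TH l) x Z)| ≤
      Y / 2 ^ gT l * (2 ^ a * nrm c TH gT A l x V + nrz c TH gT A l x W V Z)
  b1 : ∀ l < r, Sc l → ∀ V Z : Option (Fin m) → ℝ,
    |hs (TH l) x W V + dd (TH l) x Z - (hs (G l) x W V + dd (G l) x Z)| ≤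
      Y / 2 ^ (g₀ l + v') * (2 ^ a * nrm c TH gT A l x V + nrz c TH gT A l x W V Z) +
      Y / 2 ^ g₀ l * (nrm c G g₀ a l x W * nrm c G g₀ a l x V + nrz c G g₀ a l x W V Z)
  gs : ∀ l < r, Sc l → g₀ l + v' ≤ gT l
  gr : ∀ l < r, ¬ Sc l → gT l ≤ g₀ l + v'

theorem StaR.mono {c : ℕ → Fin m} {r a A v' : ℕ} {g₀ gT : ℕ → ℕ} {Y Y' : ℝ} {Sc : ℕ → Prop}
    {ψ : ℕ → MvPolynomial (Option (Fin m)) ℝ} {TH G : ℕ → MvPolynomial (Option (Fin m)) ℝ}
    {x W : Option (Fin m) → ℝ} (h : StaR c r a A v' g₀ gT Y Sc ψ TH G x W) (hY : Y ≤ Y') :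
    StaR c r a A v' g₀ gT Y' Sc ψ TH G x W where
  c1 := fun l hl hs V => (h.c1 l hl hs V).trans (mul_le_mul_of_nonneg_right
    (div_le_div_of_nonneg_right hY (by positivity)) (nrm_nonneg _ _ _ _ _ _ _))
  c2 := fun l hl hs V Z => (h.c2 l hl hs V Z).trans (mul_le_mul_of_nonneg_right
    (div_le_div_of_nonneg_right hY (by positivity)) (add_nonneg (mul_nonneg (by positivity)
      (nrm_nonneg _ _ _ _ _ _ _)) (nrz_nonneg _ _ _ _ _ _ _ _ _)))
  b1 := fun l hl hs V Z => (h.b1 l hl hs V Z).trans (add_le_add (mul_le_mul_of_nonneg_right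
    (div_le_div_of_nonneg_right hY (by positivity)) (add_nonneg (mul_nonneg (by positivity)
      (nrm_nonneg _ _ _ _ _ _ _)) (nrz_nonneg _ _ _ _ _ _ _ _ _)))
    (mul_le_mul_of_nonneg_right (div_le_div_of_nonneg_right hY (by positivity))
      (add_nonneg (mul_nonneg (nrm_nonneg _ _ _ _ _ _ _) (nrm_nonneg _ _ _ _ _ _ _))
        (nrz_nonneg _ _ _ _ _ _ _ _ _))))
  gs := h.gs
  gr := h.gr

theorem nrm_succ (c : ℕ → Fin m) (ψ : ℕ → MvPolynomial (Option (Fin m)) ℝ) (g : ℕ → ℕ) (a l : ℕ)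
    (x V : Option (Fin m) → ℝ) : nrm c ψ g a (l + 1) x V = nrm c ψ g a l x V +
      2 ^ g l * |V (some (c l)) - dd (ψ l) x V| := by
  unfold nrm
  rw [Finset.sum_range_succ]
  ring

theorem nrz_succ (c : ℕ → Fin m) (ψ : ℕ → MvPolynomial (Option (Fin m)) ℝ) (g : ℕ → ℕ) (a l : ℕ)
    (x W V Z : Option (Fin m) → ℝ) : nrz c ψ g a (l + 1) x W V Z = nrz c ψ g a l x W V Z +
      2 ^ g l * |Z (some (c l)) - dd (ψ l) x Z - hs (ψ l) x W V| := by
  unfold nrz
  rw [Finset.sum_range_succ]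
  ring

theorem nrm_pre (c : ℕ → Fin m) (ψ : ℕ → MvPolynomial (Option (Fin m)) ℝ) (g : ℕ → ℕ) (a : ℕ)
    {l r : ℕ} (h : l ≤ r) (x V : Option (Fin m) → ℝ) : nrm c ψ g a l x V ≤ nrm c ψ g a r x V := by
  unfold nrm
  have := Finset.sum_le_sum_of_subset_of_nonneg (f := fun l => 2 ^ g l *
    |V (some (c l)) - dd (ψ l) x V|) (Finset.range_mono h) (fun _ _ _ => by positivity)
  linarith

/-- **The lifts are natural** for the thin chain and for the ball chart. -/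
theorem lift_nat {F : Fam m J} {c : ℕ → Fin m} {r w a v p v' : ℕ} {g₀ gT : ℕ → ℕ} {U : ℝ}
    {B : F.Ω → Prop} {G₀ : PtT F → ℕ → MvPolynomial (Option (Fin m)) ℝ}
    {H₀ : LnT F → ℕ → MvPolynomial (Option (Fin m)) ℝ}
    {T : PtT F → ℕ → MvPolynomial (Option (Fin m)) ℝ}
    {TH : LnT F → ℕ → MvPolynomial (Option (Fin m)) ℝ}
    {Ht : LnT F → MvPolynomial (Option (Fin m)) ℝ}
    (h : ROut1 F c r w a v g₀ gT p U B G₀ H₀ T TH Ht) (hU : 0 ≤ U) {Y X : ℝ} (hY : 2 ≤ Y)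
    (hUY : U ≤ Y) (hrY : (r : ℝ) ≤ Y) (hv : v ≤ v') {Sc : ℕ → Prop}
    {ψ : ℕ → MvPolynomial (Option (Fin m)) ℝ} {ω : F.Ω} (hω : B ω)
    (hS : StaR c r a (a + v) v' g₀ gT Y Sc ψ (TH (slam F a ω)) (G₀ (ptr F J ω)) (bt F ω)
      (bd F ω))
    (hT : ∀ l < r, ¬ Sc l → TH (slam F a ω) l = Hno (c l) (fun s => H₀ s l) (slam F a ω))
    (hcur : ∀ l < r, ∀ V : Option (Fin m) → ℝ, |hs (G₀ (ptr F J ω) l) (bt F ω) (bd F ω) V| ≤
      Y * (2 ^ a / 2 ^ g₀ l) * nrm c (G₀ (ptr F J ω)) g₀ a l (bt F ω) V)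
    {V Z : Option (Fin m) → ℝ} (hX : nrm c (G₀ (ptr F J ω)) g₀ a r (bt F ω) V ≤ X)
    (hV : ∀ l < r, Sc l → V (some (c l)) = dd (ψ l) (bt F ω) V) (hZ0 : Z none = 0)
    (hZ : ∀ l < r, Sc l → Z (some (c l)) = dd (ψ l) (bt F ω) Z + hs (ψ l) (bt F ω) (bd F ω) V)
    (hZr : ∀ l < r, ¬ Sc l → 2 ^ g₀ l * |Z (some (c l)) - dd (G₀ (ptr F J ω) l) (bt F ω) Z| ≤
      Y * (2 ^ a * X)) :
    ∀ l ≤ r, nrm c (TH (slam F a ω)) gT (a + v) l (bt F ω) V ≤
        Y ^ ((2 * r + 10) * (l + 1)) * (2 ^ v' * X) ∧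
      nrz c (TH (slam F a ω)) gT (a + v) l (bt F ω) (bd F ω) V Z ≤
        Y ^ ((2 * r + 10) * (l + 1)) * (2 ^ v' * (2 ^ a * X)) ∧
      nrz c (G₀ (ptr F J ω)) g₀ a l (bt F ω) (bd F ω) V Z ≤
        Y ^ ((2 * r + 10) * (l + 1)) * (2 ^ a * X) := by
  have hX0 : 0 ≤ X := (nrm_nonneg _ _ _ _ _ _ _).trans hX
  have hY0 : 0 < Y := by linarith
  have hY1 : 1 ≤ Y := by linarith
  have hYm : ∀ i j, i ≤ j → Y ^ i ≤ Y ^ j := fun i j hij => pow_le_pow_right₀ hY1 hij
  have hr0 : (0 : ℝ) ≤ r := Nat.cast_nonneg r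
  have h1U : 1 + U ≤ Y ^ 2 := by nlinarith
  have h1U0 : 0 ≤ 1 + U := by linarith
  have hWr : ∀ l ≤ r, nrm c (G₀ (ptr F J ω)) g₀ a l (bt F ω) (bd F ω) ≤ Y ^ 3 * 2 ^ a := by
    intro l hl
    refine (nrm_pre _ _ _ _ hl _ _).trans ((nrm_bd h hω).trans (mul_le_mul_of_nonneg_right ?_
      (by positivity)))
    have : (r : ℝ) * U ≤ Y * Y := mul_le_mul hrY hUY hU hY0.le
    nlinarith [sq_nonneg (Y - 1)]
  have hXl : ∀ l ≤ r, nrm c (G₀ (ptr F J ω)) g₀ a l (bt F ω) V ≤ X := fun l hl =>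
    (nrm_pre _ _ _ _ hl _ _).trans hX
  obtain ⟨E, hE⟩ : ∃ E, E = 2 * r + 10 := ⟨_, rfl⟩
  rw [← hE]
  have h2v : (0 : ℝ) < 2 ^ v' := by positivity
  have h2a : (0 : ℝ) < 2 ^ a := by positivity
  intro l
  induction l with
  | zero =>
    intro _
    have e1 : (1 : ℝ) ≤ Y ^ (E * (0 + 1)) := one_le_pow₀ hY1
    refine ⟨?_, ?_, ?_⟩
    · have h1 : nrm c (TH (slam F a ω)) gT (a + v) 0 (bt F ω) V = 2 ^ v * (2 ^ a * |V none|) := by
        unfold nrm
        rw [Finset.sum_range_zero, add_zero, pow_add]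
        ring
      have h2 : 2 ^ a * |V none| ≤ X := by
        have := hXl 0 (Nat.zero_le r)
        unfold nrm at this
        rwa [Finset.sum_range_zero, add_zero] at this
      rw [h1]
      calc (2 : ℝ) ^ v * (2 ^ a * |V none|) ≤ 2 ^ v' * X :=
            mul_le_mul (pow_le_pow_right₀ (by norm_num) hv) h2 (by positivity) (by positivity)
        _ = 1 * (2 ^ v' * X) := (one_mul _).symm
        _ ≤ _ := mul_le_mul_of_nonneg_right e1 (by positivity)
    · unfold nrz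
      rw [hZ0, abs_zero, mul_zero, Finset.sum_range_zero, add_zero]
      positivity
    · unfold nrz
      rw [hZ0, abs_zero, mul_zero, Finset.sum_range_zero, add_zero]
      positivity
  | succ l ih =>
    intro hl
    have hl' : l < r := hl
    obtain ⟨i1, i2, i3⟩ := ih hl'.le
    obtain ⟨K, hK⟩ : ∃ K, K = Y ^ (E * (l + 1)) := ⟨_, rfl⟩
    rw [← hK] at i1 i2 i3
    have hK0 : 0 < K := by rw [hK]; positivity
    have hK1 : 1 ≤ K := by rw [hK]; exact one_le_pow₀ hY1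
    have eK : Y ^ (E * (l + 1 + 1)) = Y ^ E * K := by
      rw [hK, ← pow_add]
      congr 1
      ring
    rw [eK]
    obtain ⟨n1, hn1⟩ : ∃ n1, n1 = nrm c (TH (slam F a ω)) gT (a + v) l (bt F ω) V := ⟨_, rfl⟩
    obtain ⟨z1, hz1⟩ : ∃ z1, z1 = nrz c (TH (slam F a ω)) gT (a + v) l (bt F ω) (bd F ω) V Z :=
      ⟨_, rfl⟩
    obtain ⟨z2, hz2⟩ : ∃ z2, z2 = nrz c (G₀ (ptr F J ω)) g₀ a l (bt F ω) (bd F ω) V Z :=
      ⟨_, rfl⟩
    rw [nrm_succ, nrz_succ, nrz_succ, ← hn1, ← hz1, ← hz2]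
    rw [← hn1] at i1
    rw [← hz1] at i2
    rw [← hz2] at i3
    have n0 : 0 ≤ n1 := by rw [hn1]; exact nrm_nonneg _ _ _ _ _ _ _
    have z0 : 0 ≤ z1 := by rw [hz1]; exact nrz_nonneg _ _ _ _ _ _ _ _ _
    have z0' : 0 ≤ z2 := by rw [hz2]; exact nrz_nonneg _ _ _ _ _ _ _ _ _
    have hkx : 0 ≤ K * X := by positivity
    -- the sums
    have hE3 : ∀ k : ℕ, k + 1 ≤ E → K + Y ^ k * K ≤ Y ^ E * K := by
      intro k hk
      have h1 : 1 + Y ^ k ≤ Y ^ E := by
        have h2 : Y ^ (k + 1) ≤ Y ^ E := hYm _ _ hk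
        have h3 : (1 : ℝ) ≤ Y ^ k := one_le_pow₀ hY1
        have h4 : 2 * Y ^ k ≤ Y ^ (k + 1) := by
          rw [pow_succ, mul_comm]
          exact mul_le_mul_of_nonneg_left hY (by positivity)
        linarith
      nlinarith
    have hcurl := hcur l hl' V
    have hcur' : 2 ^ g₀ l * |hs (G₀ (ptr F J ω) l) (bt F ω) (bd F ω) V| ≤ Y * (2 ^ a * X) := by
      have h1 := hcurl.trans (mul_le_mul_of_nonneg_left (hXl l hl'.le) (by positivity))
      calc 2 ^ g₀ l * |hs (G₀ (ptr F J ω) l) (bt F ω) (bd F ω) V| ≤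
            2 ^ g₀ l * (Y * (2 ^ a / 2 ^ g₀ l) * X) := mul_le_mul_of_nonneg_left h1 (by positivity)
        _ = _ := by field_simp
    by_cases hsc : Sc l
    · -- a static coordinate
      have s1 := hS.c1 l hl' hsc V
      have s2 := hS.c2 l hl' hsc V Z
      have s3 := hS.b1 l hl' hsc V Z
      rw [← hn1] at s1 s2 s3
      rw [← hz1] at s2 s3
      rw [← hz2] at s3
      have hv1 := hV l hl' hsc
      have hz1' := hZ l hl' hsc
      have t1 : 2 ^ gT l * |V (some (c l)) - dd (TH (slam F a ω) l) (bt F ω) V| ≤ Y * n1 := by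
        rw [hv1]
        calc 2 ^ gT l * |dd (ψ l) (bt F ω) V - dd (TH (slam F a ω) l) (bt F ω) V| ≤
              2 ^ gT l * (Y / 2 ^ gT l * n1) := mul_le_mul_of_nonneg_left s1 (by positivity)
          _ = _ := by field_simp
      have t2 : 2 ^ gT l * |Z (some (c l)) - dd (TH (slam F a ω) l) (bt F ω) Z -
          hs (TH (slam F a ω) l) (bt F ω) (bd F ω) V| ≤ Y * (2 ^ a * n1 + z1) := by
        rw [hz1']
        have e1 : dd (ψ l) (bt F ω) Z + hs (ψ l) (bt F ω) (bd F ω) V -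
            dd (TH (slam F a ω) l) (bt F ω) Z - hs (TH (slam F a ω) l) (bt F ω) (bd F ω) V =
            hs (ψ l) (bt F ω) (bd F ω) V + dd (ψ l) (bt F ω) Z -
            (hs (TH (slam F a ω) l) (bt F ω) (bd F ω) V + dd (TH (slam F a ω) l) (bt F ω) Z) := by
          ring
        rw [e1]
        calc _ ≤ 2 ^ gT l * (Y / 2 ^ gT l * (2 ^ a * n1 + z1)) :=
              mul_le_mul_of_nonneg_left s2 (by positivity)
          _ = _ := by field_simp
      have hg := hS.gs l hl' hsc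
      have hgp : (2 : ℝ) ^ g₀ l * 2 ^ v' ≤ 2 ^ gT l := by
        rw [← pow_add]
        exact pow_le_pow_right₀ (by norm_num) hg
      have t3 : 2 ^ g₀ l * |Z (some (c l)) - dd (G₀ (ptr F J ω) l) (bt F ω) Z -
          hs (G₀ (ptr F J ω) l) (bt F ω) (bd F ω) V| ≤
          2 * Y / 2 ^ v' * (2 ^ a * n1 + z1) + Y * (Y ^ 3 * 2 ^ a * X + z2) := by
        rw [hz1']
        have e1 : dd (ψ l) (bt F ω) Z + hs (ψ l) (bt F ω) (bd F ω) V -
            dd (G₀ (ptr F J ω) l) (bt F ω) Z - hs (G₀ (ptr F J ω) l) (bt F ω) (bd F ω) V =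
            (hs (ψ l) (bt F ω) (bd F ω) V + dd (ψ l) (bt F ω) Z -
            (hs (TH (slam F a ω) l) (bt F ω) (bd F ω) V + dd (TH (slam F a ω) l) (bt F ω) Z)) +
            (hs (TH (slam F a ω) l) (bt F ω) (bd F ω) V + dd (TH (slam F a ω) l) (bt F ω) Z -
            (hs (G₀ (ptr F J ω) l) (bt F ω) (bd F ω) V + dd (G₀ (ptr F J ω) l) (bt F ω) Z)) := by
          ring
        rw [e1]
        have h1 : nrm c (G₀ (ptr F J ω)) g₀ a l (bt F ω) (bd F ω) *
            nrm c (G₀ (ptr F J ω)) g₀ a l (bt F ω) V ≤ Y ^ 3 * 2 ^ a * X :=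
          mul_le_mul (hWr l hl'.le) (hXl l hl'.le) (nrm_nonneg _ _ _ _ _ _ _) (by positivity)
        have h2 : 0 ≤ 2 ^ a * n1 + z1 := by positivity
        have h3 : Y / 2 ^ gT l * (2 ^ a * n1 + z1) ≤ Y / (2 ^ g₀ l * 2 ^ v') *
            (2 ^ a * n1 + z1) := mul_le_mul_of_nonneg_right
          (div_le_div_of_nonneg_left hY0.le (by positivity) hgp) h2
        have h4 := (abs_add_le _ _).trans (add_le_add (s2.trans h3) (s3.trans (add_le_add le_rfl
          (mul_le_mul_of_nonneg_left (add_le_add h1 (le_refl z2)) (by positivity)))))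
        refine (mul_le_mul_of_nonneg_left h4 (show (0 : ℝ) ≤ 2 ^ g₀ l by positivity)).trans
          (le_of_eq ?_)
        rw [pow_add]
        field_simp
        ring
      refine ⟨?_, ?_, ?_⟩
      · calc n1 + 2 ^ gT l * |V (some (c l)) - dd (TH (slam F a ω) l) (bt F ω) V| ≤
              n1 + Y * n1 := by linarith
          _ = (1 + Y) * n1 := by ring
          _ ≤ (1 + Y) * (K * (2 ^ v' * X)) := mul_le_mul_of_nonneg_left i1 (by linarith)
          _ = (K + Y ^ 1 * K) * (2 ^ v' * X) := by ring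
          _ ≤ _ := mul_le_mul_of_nonneg_right (hE3 1 (by omega)) (by positivity)
      · have h1 : 2 ^ a * n1 + z1 ≤ 2 * (K * (2 ^ v' * (2 ^ a * X))) := by
          have := mul_le_mul_of_nonneg_left i1 h2a.le
          have e1 : (2 : ℝ) ^ a * (K * (2 ^ v' * X)) = K * (2 ^ v' * (2 ^ a * X)) := by ring
          linarith
        calc _ ≤ z1 + Y * (2 ^ a * n1 + z1) := by linarith
          _ ≤ K * (2 ^ v' * (2 ^ a * X)) + Y * (2 * (K * (2 ^ v' * (2 ^ a * X)))) :=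
              add_le_add i2 (mul_le_mul_of_nonneg_left h1 hY0.le)
          _ = (K + Y * 2 * K) * (2 ^ v' * (2 ^ a * X)) := by ring
          _ ≤ (K + Y ^ 2 * K) * (2 ^ v' * (2 ^ a * X)) := by
              refine mul_le_mul_of_nonneg_right ?_ (by positivity)
              have : Y * 2 ≤ Y ^ 2 := by nlinarith
              nlinarith
          _ ≤ _ := mul_le_mul_of_nonneg_right (hE3 2 (by omega)) (by positivity)
      · have h1 : 2 ^ a * n1 + z1 ≤ 2 ^ v' * (2 * (K * (2 ^ a * X))) := by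
          have := mul_le_mul_of_nonneg_left i1 h2a.le
          have e1 : (2 : ℝ) ^ a * (K * (2 ^ v' * X)) = K * (2 ^ v' * (2 ^ a * X)) := by ring
          have e2 : (2 : ℝ) ^ v' * (2 * (K * (2 ^ a * X))) = 2 * (K * (2 ^ v' * (2 ^ a * X))) := by
            ring
          linarith
        have h2 : 2 * Y / 2 ^ v' * (2 ^ a * n1 + z1) ≤ 4 * Y * (K * (2 ^ a * X)) := by
          calc 2 * Y / 2 ^ v' * (2 ^ a * n1 + z1) ≤
                2 * Y / 2 ^ v' * (2 ^ v' * (2 * (K * (2 ^ a * X)))) :=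
                mul_le_mul_of_nonneg_left h1 (by positivity)
            _ = _ := by field_simp; ring
        calc _ ≤ z2 + (4 * Y * (K * (2 ^ a * X)) + Y * (Y ^ 3 * 2 ^ a * X + z2)) := by linarith
          _ ≤ K * (2 ^ a * X) + (4 * Y * (K * (2 ^ a * X)) +
              Y * (Y ^ 3 * (K * (2 ^ a * X)) + K * (2 ^ a * X))) := by
              refine add_le_add i3 (add_le_add le_rfl (mul_le_mul_of_nonneg_left
                (add_le_add ?_ i3) hY0.le))
              have : (1 : ℝ) * (2 ^ a * X) ≤ K * (2 ^ a * X) :=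
                mul_le_mul_of_nonneg_right hK1 (by positivity)
              have h3 : 0 ≤ Y ^ 3 := by positivity
              nlinarith
          _ = (K + (5 * Y + Y ^ 4) * K) * (2 ^ a * X) := by ring
          _ ≤ (K + Y ^ 5 * K) * (2 ^ a * X) := by
              refine mul_le_mul_of_nonneg_right ?_ (by positivity)
              have h3 : 8 ≤ Y ^ 3 := by
                calc (8 : ℝ) = 2 ^ 3 := by norm_num
                  _ ≤ Y ^ 3 := pow_le_pow_left₀ (by norm_num) hY 3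
              have h4 : 5 * Y + Y ^ 4 ≤ Y ^ 5 := by
                have e1 : 5 * Y + Y ^ 4 = Y * (5 + Y ^ 3) := by ring
                have e2 : Y ^ 5 = Y * (Y * Y ^ 3) := by ring
                rw [e1, e2]
                refine mul_le_mul_of_nonneg_left ?_ hY0.le
                have h5 : 2 * Y ^ 3 ≤ Y * Y ^ 3 := mul_le_mul_of_nonneg_right hY (by positivity)
                linarith
              have h6 := mul_le_mul_of_nonneg_right h4 hK0.le
              linarith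
          _ ≤ _ := mul_le_mul_of_nonneg_right (hE3 5 (by omega)) (by positivity)
    · -- a rough coordinate
      have hTl := hT l hl' hsc
      have hg := hS.gr l hl' hsc
      have hgp : (2 : ℝ) ^ gT l ≤ 2 ^ g₀ l * 2 ^ v' := by
        rw [← pow_add]
        exact pow_le_pow_right₀ (by norm_num) hg
      have d1 := h.dif ω hω l hl'.le
      have hn : nrm c (G₀ (ptr F J ω)) g₀ a (l + 1) (bt F ω) V ≤ X := hXl (l + 1) hl
      rw [nrm_succ] at hn
      have hn' : 2 ^ g₀ l * |V (some (c l)) - dd (G₀ (ptr F J ω) l) (bt F ω) V| ≤ X := by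
        have := nrm_nonneg c (G₀ (ptr F J ω)) g₀ a l (bt F ω) V
        linarith
      have t1 : 2 ^ g₀ l * |V (some (c l)) - dd (TH (slam F a ω) l) (bt F ω) V| ≤
          X + Y * X := by
        have h1 := d1.1 V
        rw [dd_sub, ← hTl] at h1
        have h2 : 2 ^ g₀ l * |dd (TH (slam F a ω) l) (bt F ω) V -
            dd (G₀ (ptr F J ω) l) (bt F ω) V| ≤ Y * X := by
          calc _ ≤ 2 ^ g₀ l * (U / 2 ^ g₀ l * nrm c (G₀ (ptr F J ω)) g₀ a l (bt F ω) V) :=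
                mul_le_mul_of_nonneg_left h1 (by positivity)
            _ = U * nrm c (G₀ (ptr F J ω)) g₀ a l (bt F ω) V := by field_simp
            _ ≤ Y * X := mul_le_mul hUY (hXl l hl'.le) (nrm_nonneg _ _ _ _ _ _ _) hY0.le
        have e1 : V (some (c l)) - dd (TH (slam F a ω) l) (bt F ω) V =
            (V (some (c l)) - dd (G₀ (ptr F J ω) l) (bt F ω) V) -
            (dd (TH (slam F a ω) l) (bt F ω) V - dd (G₀ (ptr F J ω) l) (bt F ω) V) := by ring
        rw [e1]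
        refine (mul_le_mul_of_nonneg_left (abs_sub _ _) (by positivity)).trans ?_
        rw [mul_add]
        exact add_le_add hn' h2
      have hzr := hZr l hl' hsc
      have t3 : 2 ^ g₀ l * |Z (some (c l)) - dd (G₀ (ptr F J ω) l) (bt F ω) Z -
          hs (G₀ (ptr F J ω) l) (bt F ω) (bd F ω) V| ≤ 2 * Y * (2 ^ a * X) := by
        refine (mul_le_mul_of_nonneg_left (abs_sub _ _) (by positivity)).trans ?_
        rw [mul_add]
        linarith
      have t2 : 2 ^ g₀ l * |Z (some (c l)) - dd (TH (slam F a ω) l) (bt F ω) Z -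
          hs (TH (slam F a ω) l) (bt F ω) (bd F ω) V| ≤
          2 * Y * (2 ^ a * X) + Y * (Y ^ 3 * 2 ^ a * X + z2) := by
        have h1 := d1.2 (bd F ω) V Z
        rw [dd_sub, hs_sub, ← hTl, ← hz2] at h1
        have h2 : nrm c (G₀ (ptr F J ω)) g₀ a l (bt F ω) (bd F ω) *
            nrm c (G₀ (ptr F J ω)) g₀ a l (bt F ω) V ≤ Y ^ 3 * 2 ^ a * X :=
          mul_le_mul (hWr l hl'.le) (hXl l hl'.le) (nrm_nonneg _ _ _ _ _ _ _) (by positivity)
        have e1 : Z (some (c l)) - dd (TH (slam F a ω) l) (bt F ω) Z -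
            hs (TH (slam F a ω) l) (bt F ω) (bd F ω) V =
            (Z (some (c l)) - dd (G₀ (ptr F J ω) l) (bt F ω) Z -
            hs (G₀ (ptr F J ω) l) (bt F ω) (bd F ω) V) -
            (hs (TH (slam F a ω) l) (bt F ω) (bd F ω) V - hs (G₀ (ptr F J ω) l) (bt F ω)
              (bd F ω) V + (dd (TH (slam F a ω) l) (bt F ω) Z -
              dd (G₀ (ptr F J ω) l) (bt F ω) Z)) := by ring
        rw [e1]
        refine (mul_le_mul_of_nonneg_left (abs_sub _ _) (by positivity)).trans ?_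
        rw [mul_add]
        refine add_le_add t3 ?_
        calc _ ≤ 2 ^ g₀ l * (U / 2 ^ g₀ l * (Y ^ 3 * 2 ^ a * X + z2)) :=
              mul_le_mul_of_nonneg_left (h1.trans (mul_le_mul_of_nonneg_left
                (add_le_add h2 le_rfl) (by positivity))) (by positivity)
          _ = U * (Y ^ 3 * 2 ^ a * X + z2) := by field_simp
          _ ≤ _ := mul_le_mul_of_nonneg_right hUY (by positivity)
      have hup : ∀ s t : ℝ, 2 ^ g₀ l * |s| ≤ t → 2 ^ gT l * |s| ≤ 2 ^ v' * t := by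
        intro s t hst
        calc (2 : ℝ) ^ gT l * |s| ≤ 2 ^ g₀ l * 2 ^ v' * |s| :=
              mul_le_mul_of_nonneg_right hgp (abs_nonneg _)
          _ = 2 ^ v' * (2 ^ g₀ l * |s|) := by ring
          _ ≤ _ := mul_le_mul_of_nonneg_left hst h2v.le
      have hKX : X ≤ K * X := le_mul_of_one_le_left hX0 hK1
      have hzz : Y * (Y ^ 3 * 2 ^ a * X + z2) ≤ (Y ^ 4 + Y) * (K * (2 ^ a * X)) := by
        have h1 : Y ^ 3 * 2 ^ a * X ≤ Y ^ 3 * (K * (2 ^ a * X)) := by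
          have : 2 ^ a * X ≤ K * (2 ^ a * X) := le_mul_of_one_le_left (by positivity) hK1
          calc Y ^ 3 * 2 ^ a * X = Y ^ 3 * (2 ^ a * X) := by ring
            _ ≤ _ := mul_le_mul_of_nonneg_left this (by positivity)
        calc Y * (Y ^ 3 * 2 ^ a * X + z2) ≤ Y * (Y ^ 3 * (K * (2 ^ a * X)) +
              K * (2 ^ a * X)) := mul_le_mul_of_nonneg_left (add_le_add h1 i3) hY0.le
          _ = _ := by ring
      have h2YX : 2 * Y * (2 ^ a * X) ≤ 2 * Y * (K * (2 ^ a * X)) :=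
        mul_le_mul_of_nonneg_left (le_mul_of_one_le_left (by positivity) hK1) (by linarith)
      have hpoly : 2 * Y + (Y ^ 4 + Y) ≤ Y ^ 5 := by
        have h3 : 8 ≤ Y ^ 3 := by
          calc (8 : ℝ) = 2 ^ 3 := by norm_num
            _ ≤ Y ^ 3 := pow_le_pow_left₀ (by norm_num) hY 3
        have e1 : 2 * Y + (Y ^ 4 + Y) = Y * (3 + Y ^ 3) := by ring
        have e2 : Y ^ 5 = Y * (Y * Y ^ 3) := by ring
        rw [e1, e2]
        refine mul_le_mul_of_nonneg_left ?_ hY0.le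
        have h5 : 2 * Y ^ 3 ≤ Y * Y ^ 3 := mul_le_mul_of_nonneg_right hY (by positivity)
        linarith
      refine ⟨?_, ?_, ?_⟩
      · calc n1 + 2 ^ gT l * |V (some (c l)) - dd (TH (slam F a ω) l) (bt F ω) V| ≤
              n1 + 2 ^ v' * (X + Y * X) := add_le_add le_rfl (hup _ _ t1)
          _ ≤ K * (2 ^ v' * X) + 2 ^ v' * ((1 + Y) * (K * X)) := by
              refine add_le_add i1 (mul_le_mul_of_nonneg_left ?_ h2v.le)
              have : X + Y * X = (1 + Y) * X := by ring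
              rw [this]
              exact mul_le_mul_of_nonneg_left hKX (by linarith)
          _ = (K + (1 + Y) * K) * (2 ^ v' * X) := by ring
          _ ≤ (K + Y ^ 2 * K) * (2 ^ v' * X) := by
              refine mul_le_mul_of_nonneg_right ?_ (by positivity)
              have : 1 + Y ≤ Y ^ 2 := by nlinarith
              nlinarith
          _ ≤ _ := mul_le_mul_of_nonneg_right (hE3 2 (by omega)) (by positivity)
      · calc _ ≤ z1 + 2 ^ v' * (2 * Y * (2 ^ a * X) + Y * (Y ^ 3 * 2 ^ a * X + z2)) :=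
              add_le_add le_rfl (hup _ _ t2)
          _ ≤ K * (2 ^ v' * (2 ^ a * X)) + 2 ^ v' * (2 * Y * (K * (2 ^ a * X)) +
              (Y ^ 4 + Y) * (K * (2 ^ a * X))) := add_le_add i2
                (mul_le_mul_of_nonneg_left (add_le_add h2YX hzz) h2v.le)
          _ = (K + (2 * Y + (Y ^ 4 + Y)) * K) * (2 ^ v' * (2 ^ a * X)) := by ring
          _ ≤ (K + Y ^ 5 * K) * (2 ^ v' * (2 ^ a * X)) := by
              refine mul_le_mul_of_nonneg_right ?_ (by positivity)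
              have := mul_le_mul_of_nonneg_right hpoly hK0.le
              linarith
          _ ≤ _ := mul_le_mul_of_nonneg_right (hE3 5 (by omega)) (by positivity)
      · calc _ ≤ z2 + 2 * Y * (2 ^ a * X) := add_le_add le_rfl t3
          _ ≤ K * (2 ^ a * X) + 2 * Y * (K * (2 ^ a * X)) := add_le_add i3 h2YX
          _ = (K + 2 * Y * K) * (2 ^ a * X) := by ring
          _ ≤ (K + Y ^ 2 * K) * (2 ^ a * X) := by
              refine mul_le_mul_of_nonneg_right ?_ (by positivity)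
              have : 2 * Y ≤ Y ^ 2 := by nlinarith
              nlinarith
          _ ≤ _ := mul_le_mul_of_nonneg_right (hE3 2 (by omega)) (by positivity)

/-- **The row covector over closed static charts.** -/
theorem row_cl {F : Fam m J} {c : ℕ → Fin m} {r w a v p v' : ℕ} {g₀ gT : ℕ → ℕ} {U : ℝ}
    {B : F.Ω → Prop} {G₀ : PtT F → ℕ → MvPolynomial (Option (Fin m)) ℝ}
    {H₀ : LnT F → ℕ → MvPolynomial (Option (Fin m)) ℝ}
    {T : PtT F → ℕ → MvPolynomial (Option (Fin m)) ℝ}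
    {TH : LnT F → ℕ → MvPolynomial (Option (Fin m)) ℝ}
    {Ht : LnT F → MvPolynomial (Option (Fin m)) ℝ}
    (h : ROut1 F c r w a v g₀ gT p U B G₀ H₀ T TH Ht) (ha : a ≤ J) (hU : 0 ≤ U) {Y X : ℝ}
    (hY : 2 ≤ Y) (hUY : U ≤ Y) (hrY : (r : ℝ) ≤ Y) (hv : v ≤ v') {Sc : ℕ → Prop}
    {ψ : ℕ → MvPolynomial (Option (Fin m)) ℝ} {ω : F.Ω} (hω : B ω)
    (hS : StaR c r a (a + v) v' g₀ gT Y Sc ψ (TH (slam F a ω)) (G₀ (ptr F J ω)) (bt F ω)
      (bd F ω))
    (hT : ∀ l < r, ¬ Sc l → TH (slam F a ω) l = Hno (c l) (fun s => H₀ s l) (slam F a ω))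
    (hcur : ∀ l ≤ r, ∀ V : Option (Fin m) → ℝ, |hs (G₀ (ptr F J ω) l) (bt F ω) (bd F ω) V| ≤
      Y * (2 ^ a / 2 ^ g₀ l) * nrm c (G₀ (ptr F J ω)) g₀ a l (bt F ω) V)
    {V Z : Option (Fin m) → ℝ} (hX : nrm c (G₀ (ptr F J ω)) g₀ a r (bt F ω) V ≤ X)
    (hV : ∀ l < r, Sc l → V (some (c l)) = dd (ψ l) (bt F ω) V) (hZ0 : Z none = 0)
    (hZ : ∀ l < r, Sc l → Z (some (c l)) = dd (ψ l) (bt F ω) Z + hs (ψ l) (bt F ω) (bd F ω) V)
    (hZr : ∀ l < r, ¬ Sc l → 2 ^ g₀ l * |Z (some (c l)) - dd (G₀ (ptr F J ω) l) (bt F ω) Z| ≤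
      Y * (2 ^ a * X)) :
    |hs (Ht (slam F w ω)) (bt F ω) (bd F ω) V + dd (Ht (slam F w ω)) (bt F ω) Z -
      dd (G₀ (ptr F J ω) r) (bt F ω) Z| ≤
      Y ^ ((2 * r + 10) * (r + 1) + 10) * (2 ^ (a + v') / 2 ^ p + 2 ^ a / 2 ^ g₀ r) * X := by
  have hX0 : 0 ≤ X := (nrm_nonneg _ _ _ _ _ _ _).trans hX
  have hY0 : 0 < Y := by linarith
  have hY1 : 1 ≤ Y := by linarith
  obtain ⟨l1, l2, l3⟩ := lift_nat h hU hY hUY hrY hv hω hS hT (fun l hl => hcur l hl.le) hX hV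
    hZ0 hZ hZr r le_rfl
  obtain ⟨K, hK⟩ : ∃ K, K = Y ^ ((2 * r + 10) * (r + 1)) := ⟨_, rfl⟩
  rw [← hK] at l1 l2 l3
  have hK1 : 1 ≤ K := by rw [hK]; exact one_le_pow₀ hY1
  have hKY : Y ≤ K := by
    rw [hK]
    calc Y = Y ^ 1 := (pow_one Y).symm
      _ ≤ _ := pow_le_pow_right₀ hY1 (by nlinarith)
  have h1 := row_cov (K := K) h ha hU hω (V := V) (Z := Z) (v' := v') (X := X) hX
    (by linarith [l1]) (by linarith [l2]) l3 ((hcur r le_rfl V).trans (by
      refine mul_le_mul (mul_le_mul_of_nonneg_right hKY (by positivity)) hX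
        (nrm_nonneg _ _ _ _ _ _ _) (by positivity)))
  refine h1.trans (mul_le_mul_of_nonneg_right ?_ hX0)
  rw [pow_add Y, ← hK]
  have hr0 : (0 : ℝ) ≤ r := Nat.cast_nonneg r
  obtain ⟨f1, hf1⟩ : ∃ f1 : ℝ, f1 = 2 ^ (a + v') / 2 ^ p := ⟨_, rfl⟩
  obtain ⟨f2, hf2⟩ : ∃ f2 : ℝ, f2 = 2 ^ a / 2 ^ g₀ r := ⟨_, rfl⟩
  have f10 : 0 ≤ f1 := by rw [hf1]; positivity
  have f20 : 0 ≤ f2 := by rw [hf2]; positivity
  rw [← hf1, ← hf2]
  have h2 : 2 * U * K ≤ K * Y ^ 10 := by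
    have e1 : 2 * U ≤ Y ^ 2 := by nlinarith
    have e2 : Y ^ 2 ≤ Y ^ 10 := pow_le_pow_right₀ hY1 (by norm_num)
    nlinarith
  have h3 : U * (1 + r * U + K) + K ≤ K * Y ^ 10 := by
    have e1 : r * U ≤ Y * Y := mul_le_mul hrY hUY hU hY0.le
    have e2 : 1 + r * U + K ≤ 3 * (Y ^ 2 * K) := by
      have e3 : 1 ≤ Y ^ 2 * K := one_le_mul_of_one_le_of_one_le (one_le_pow₀ hY1) hK1
      have e4 : Y * Y ≤ Y ^ 2 * K := by
        have : Y * Y = Y ^ 2 * 1 := by ring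
        rw [this]
        exact mul_le_mul_of_nonneg_left hK1 (by positivity)
      have e5 : K ≤ Y ^ 2 * K := le_mul_of_one_le_left (by linarith) (one_le_pow₀ hY1)
      linarith
    have e6 : U * (1 + r * U + K) ≤ Y * (3 * (Y ^ 2 * K)) :=
      mul_le_mul hUY e2 (by positivity) hY0.le
    have e7 : Y * (3 * (Y ^ 2 * K)) + K ≤ K * Y ^ 5 := by
      have e8 : 4 ≤ Y ^ 2 := by nlinarith
      have e9 : 3 * Y ^ 3 + 1 ≤ Y ^ 5 := by
        have a1 : Y ^ 5 = Y ^ 2 * Y ^ 3 := by ring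
        have a2 : (1 : ℝ) ≤ Y ^ 3 := one_le_pow₀ hY1
        rw [a1]
        nlinarith
      nlinarith
    have e10 : K * Y ^ 5 ≤ K * Y ^ 10 := mul_le_mul_of_nonneg_left
      (pow_le_pow_right₀ hY1 (by norm_num)) (by linarith)
    linarith
  nlinarith [mul_le_mul_of_nonneg_right h2 f10, mul_le_mul_of_nonneg_right h3 f20]

end Pool.RCV
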