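import Pool.Agent.H60.D2.Rnd

/-!
# Two points of one cell

`grd_mv3`: `Pool.D2Z.grd_move` with the positions and the sizes at the second point. `rnd_box`: the
derivative at the second point of a polynomial which is bounded on the natural box.
-/

set_option autoImplicit false

namespace Pool.D2Z

open Finset Real MvPolynomial
open Pool.Agent.H49.Ent Pool.Agent.H32.Dense Pool.STK Pool.KA Pool.KSAT Pool.K2S Pool.PB Pool.S6C
open Pool.GEN Pool.CHT Pool.CHX Pool.D2F Pool.D2R

variable {m J : ℕ}

/-- **The charts at two points of one cell.** -/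
theorem grd_mv3 (D n : ℕ) : ∃ C : ℕ, 1 ≤ C ∧ ∀ {m J : ℕ} {c : ℕ → Fin m} {a e : ℕ} {g : ℕ → ℕ}
    {G : ℕ → MvPolynomial (Option (Fin m)) ℝ} {x x' : Option (Fin m) → ℝ},
    Set.InjOn c (Set.Iio n) → (∀ l, (G l).totalDegree ≤ D) → (∀ l, DepC c l (G l)) →
    (∀ l < n, ∀ b, NBx c G g a (x none) l b → ∀ j < l,
      |eval b (pderiv (some (c j)) (G l))| ≤ 2 ^ (e + nlp g j l)) →
    (∀ l < n, |x (some (c l)) - eval x (G l)| ≤ 1 / 2 ^ g l) → x' none = x none →
    (∀ k, |x' (some k) - x (some k)| ≤ 1 / 2 ^ J) → (∀ l < n, e + g l + C ≤ J) →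
    ∀ l < n, |x' (some (c l)) - eval x' (G l)| ≤ 2 / 2 ^ g l ∧ (∀ V : Option (Fin m) → ℝ,
      |dd (G l) x' V - dd (G l) x V| ≤ 1 / 2 ^ g l * nrm c G g a l x V) ∧
      (∀ V : Option (Fin m) → ℝ,
        nrm c G g a (l + 1) x' V ≤ 2 ^ (l + 1) * nrm c G g a (l + 1) x V) ∧
      ∀ u ∈ Set.Icc (0 : ℝ) 1, ∀ V : Option (Fin m) → ℝ,
        |hs (G l) (fun o => x o + u * (x' o - x o)) (fun o => x' o - x o) V| ≤
          1 / 2 ^ g l * nrm c G g a l x V := by
  classical
  obtain ⟨c₀, D₁, hD₁, hdil⟩ := nbx_dil (n + 1) (fun _ => D)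
  have hba' := fun l : ℕ => box_all l D D
  choose Cb hCb hbl using hba'
  obtain ⟨C₂, hC₂⟩ : ∃ C₂ : ℝ, C₂ = ∑ l ∈ range (n + 1), Cb l := ⟨_, rfl⟩
  have hCbl : ∀ l ≤ n, Cb l ≤ C₂ := by
    intro l hl
    rw [hC₂]
    exact Finset.single_le_sum (f := Cb) (fun l _ => by linarith [hCb l])
      (Finset.mem_range.2 (by omega))
  have hC₂1 : 1 ≤ C₂ := (hCb 0).trans (hCbl 0 (Nat.zero_le _))
  obtain ⟨N₀, hN₀⟩ := pow_unbounded_of_one_lt C₂ (one_lt_two (α := ℝ))
  obtain ⟨C, hC⟩ : ∃ C : ℕ, C = c₀ + 2 * D₁ + N₀ + 2 * n + 2 := ⟨_, rfl⟩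
  refine ⟨C, by omega, ?_⟩
  intro m J c a e g G x x' hc hdeg hdep hlip hpos hx0 hx1 hJ
  obtain ⟨δ, hδ⟩ : ∃ δ : Option (Fin m) → ℝ, δ = fun o => x' o - x o := ⟨_, rfl⟩
  have hδ0 : δ none = 0 := by rw [hδ]; show x' none - x none = 0; rw [hx0, sub_self]
  have hδk : ∀ k, |δ (some k)| ≤ 1 / 2 ^ J := fun k => by rw [hδ]; exact hx1 k
  obtain ⟨X, hX⟩ : ∃ X : ℝ → Option (Fin m) → ℝ, X = fun u o => x o + u * δ o := ⟨_, rfl⟩
  have hX0 : ∀ u, X u none = x none := fun u => by
    rw [hX]
    show x none + u * δ none = _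
    rw [hδ0, mul_zero, add_zero]
  have hx' : X 1 = x' := by
    rw [hX]
    funext o
    show x o + 1 * δ o = _
    rw [hδ]
    ring
  -- the derivatives are bounded on the larger box
  have hbig : ∀ l < n, ∀ j < l, ∀ b : Option (Fin m) → ℝ, |b none - x none| ≤ 1 / 2 ^ a →
      (∀ i < l, |b (some (c i)) - eval b (G i)| ≤ 2 ^ 2 / 2 ^ g i) →
      |eval b (pderiv (some (c j)) (G l))| ≤ 2 ^ (c₀ + 2 * D₁) * 2 ^ (e + nlp g j l) :=
    fun l hl j hj b hb0 hb1 => hdil (c := c) (i := l) (G := G)
      (Q := pderiv (some (c j)) (G l)) (g := g) (a := a) (t := x none)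
      (M := 2 ^ (e + nlp g j l)) 2 (by omega) (hc.mono fun y hy => lt_trans hy hl) hdeg hdep
      (DepC.pderiv (hdep l) j) (totalDegree_pdσ (hdeg l) _) (by positivity)
      (fun b' hb' => hlip l hl b' hb' j hj) b hb0 hb1
  -- the exponents
  have hexp : ∀ l < n, ∀ j < l, (2 : ℝ) ^ (c₀ + 2 * D₁) * 2 ^ (e + nlp g j l) * (1 / 2 ^ J) ≤
      1 / 2 ^ (g l + (N₀ + 2 * n + 2)) := by
    intro l hl j hj
    rw [← pow_add, mul_one_div, div_le_div_iff₀ (by positivity) (by positivity), one_mul, ← pow_add]
    refine pow_le_pow_right₀ (by norm_num) ?_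
    obtain ⟨i, hi1, hi2⟩ := Finset.exists_mem_eq_sup (Finset.Icc j l)
      ⟨j, Finset.mem_Icc.2 ⟨le_rfl, hj.le⟩⟩ g
    have hi3 := (Finset.mem_Icc.1 hi1).2
    have h6 := hJ i (by omega)
    have h6' := hJ l hl
    have h7 : nlp g j l = (Finset.Icc j l).sup g - g l := rfl
    have h8 : g l ≤ (Finset.Icc j l).sup g :=
      Finset.le_sup (f := g) (Finset.mem_Icc.2 ⟨hj.le, le_rfl⟩)
    rw [hi2] at h7 h8
    omega
  have hn2 : ∀ {l : ℕ}, l < n → (l : ℝ) ≤ 2 ^ n := fun {l} hl => by
    have e4 : ((l : ℕ) : ℝ) ≤ ((2 ^ n : ℕ) : ℝ) := by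
      have : l ≤ 2 ^ n := hl.le.trans (Nat.lt_two_pow_self).le
      exact_mod_cast this
    push_cast at e4
    exact e4
  have main : ∀ l, l < n → (∀ u ∈ Set.Icc (0 : ℝ) 1,
      |X u (some (c l)) - eval (X u) (G l)| ≤ 2 / 2 ^ g l) ∧
      (∀ u ∈ Set.Icc (0 : ℝ) 1, ∀ V : Option (Fin m) → ℝ,
        |dd (G l) (X u) V - dd (G l) x V| ≤ 1 / 2 ^ g l * nrm c G g a l x V) ∧
      (∀ u ∈ Set.Icc (0 : ℝ) 1, ∀ V : Option (Fin m) → ℝ,
        nrm c G g a (l + 1) (X u) V ≤ 2 ^ (l + 1) * nrm c G g a (l + 1) x V) ∧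
      (∀ u ∈ Set.Icc (0 : ℝ) 1, ∀ V : Option (Fin m) → ℝ,
        |hs (G l) (X u) δ V| ≤ 1 / 2 ^ g l * nrm c G g a l x V) := by
    intro l
    induction l using Nat.strong_induction_on with
    | _ l ih =>
      intro hl
      have hle : ∀ {z : ℝ}, 0 < z → 2 / z ≤ 2 ^ 2 / z := fun hz =>
        div_le_div_of_nonneg_right (by norm_num) hz.le
      have hnrm : ∀ u ∈ Set.Icc (0 : ℝ) 1, ∀ V : Option (Fin m) → ℝ,
          nrm c G g a l (X u) V ≤ 2 ^ l * nrm c G g a l x V := by
        intro u hu V
        cases l with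
        | zero =>
          unfold nrm
          rw [Finset.sum_range_zero, Finset.sum_range_zero, pow_zero, one_mul]
        | succ i => exact (ih i (Nat.lt_succ_self i) (by omega)).2.2.1 u hu V
      have h1 : ∀ u ∈ Set.Icc (0 : ℝ) 1, ∀ j < l,
          |eval (X u) (pderiv (some (c j)) (G l))| ≤ 2 ^ (c₀ + 2 * D₁) * 2 ^ (e + nlp g j l) :=
        fun u hu j hj => hbig l hl j hj (X u) (by rw [hX0, sub_self, abs_zero]; positivity)
          fun i hi => ((ih i hi (by omega)).1 u hu).trans (hle (by positivity))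
      -- the values
      have hval : ∀ u ∈ Set.Icc (0 : ℝ) 1, |eval (X u) (G l) - eval x (G l)| ≤
          1 / 2 / 2 ^ g l := by
        intro u hu
        have h2 : ∀ u ∈ Set.Icc (0 : ℝ) 1, |dd (G l) (fun o => x o + u * δ o) δ| ≤
            1 / 2 / 2 ^ g l := by
          intro u hu
          have e1 : (fun o => x o + u * δ o) = X u := by rw [hX]
          rw [e1, ← cv_grd, cv_eq (hc.mono fun y hy => lt_trans hy hl)
            (cvc_grd (hdep l) (X u)), hδ0, mul_zero, zero_add]
          refine (Finset.abs_sum_le_sum_abs _ _).trans ?_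
          have h3 : ∀ j ∈ range l, |grd (G l) (X u) (some (c j)) * δ (some (c j))| ≤
              1 / 2 ^ (g l + (N₀ + 2 * n + 2)) := by
            intro j hj
            have hj' := Finset.mem_range.1 hj
            rw [abs_mul]
            exact (mul_le_mul (h1 u hu j hj') (hδk _) (abs_nonneg _) (by positivity)).trans
              (hexp l hl j hj')
          refine (Finset.sum_le_sum h3).trans ?_
          rw [Finset.sum_const, Finset.card_range, nsmul_eq_mul]
          have e2 : (1 : ℝ) / 2 ^ (g l + (N₀ + 2 * n + 2)) =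
              1 / 2 ^ g l * (1 / 2 ^ (N₀ + 2 * n + 2)) := by
            rw [pow_add]
            field_simp
          rw [e2]
          have e3 : (l : ℝ) * (1 / 2 ^ (N₀ + 2 * n + 2)) ≤ 1 / 2 := by
            rw [mul_one_div, div_le_div_iff₀ (by positivity) (by norm_num), one_mul]
            calc (l : ℝ) * 2 ≤ 2 ^ n * 2 := mul_le_mul_of_nonneg_right (hn2 hl) (by norm_num)
              _ = 2 ^ (n + 1) := (pow_succ _ _).symm
              _ ≤ _ := pow_le_pow_right₀ (by norm_num) (by omega)
          calc (l : ℝ) * (1 / 2 ^ g l * (1 / 2 ^ (N₀ + 2 * n + 2))) =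
                (l : ℝ) * (1 / 2 ^ (N₀ + 2 * n + 2)) * (1 / 2 ^ g l) := by ring
            _ ≤ 1 / 2 * (1 / 2 ^ g l) := mul_le_mul_of_nonneg_right e3 (by positivity)
            _ = _ := by ring
        have h3 := mv_seg (G l) x δ h2 u hu
        have e1 : (fun o => x o + u * δ o) = X u := by rw [hX]
        rwa [e1] at h3
      have hht : ∀ u ∈ Set.Icc (0 : ℝ) 1, |X u (some (c l)) - eval (X u) (G l)| ≤
          2 / 2 ^ g l := by
        intro u hu
        have e1 : X u (some (c l)) - eval (X u) (G l) = (x (some (c l)) - eval x (G l)) +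
            u * δ (some (c l)) - (eval (X u) (G l) - eval x (G l)) := by
          rw [hX]
          ring
        have h2 : |u * δ (some (c l))| ≤ 1 / 2 / 2 ^ g l := by
          rw [abs_mul, abs_of_nonneg hu.1]
          calc u * |δ (some (c l))| ≤ 1 * (1 / 2 ^ J) :=
                mul_le_mul hu.2 (hδk _) (abs_nonneg _) (by norm_num)
            _ ≤ 1 / 2 / 2 ^ g l := by
                rw [one_mul, div_div, ← pow_succ']
                refine one_div_le_one_div_of_le (by positivity) (pow_le_pow_right₀ (by norm_num) ?_)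
                have := hJ l hl
                omega
        rw [e1]
        refine (abs_sub _ _).trans ((add_le_add ((abs_add_le _ _).trans
          (add_le_add (hpos l hl) h2)) (hval u hu)).trans (le_of_eq ?_))
        ring
      -- the gradients
      have hhs : ∀ V : Option (Fin m) → ℝ, ∀ u ∈ Set.Icc (0 : ℝ) 1,
          |hs (G l) (fun o => x o + u * δ o) δ V| ≤ 1 / 2 ^ g l * nrm c G g a l x V := by
          intro V u hu
          have h0 := nrm_nonneg c G g a l x V
          have e1 : (fun o => x o + u * δ o) = X u := by rw [hX]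
          rw [e1]
          -- the derivatives of the derivatives
          have h3 : ∀ j < l, |dd (pderiv (some (c j)) (G l)) (X u) V| ≤
              C₂ * (2 ^ (c₀ + 2 * D₁) * 2 ^ (e + nlp g j l)) * (2 ^ l * nrm c G g a l x V) := by
            intro j hj
            obtain ⟨ψ', hψ'⟩ : ∃ ψ' : ℕ → MvPolynomial (Option (Fin m)) ℝ, ψ' = fun i =>
                G i + MvPolynomial.C (X u (some (c i)) - eval (X u) (G i)) := ⟨_, rfl⟩
            have hdd : ∀ i W, dd (ψ' i) (X u) W = dd (G i) (X u) W := by
              intro i W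
              rw [hψ']
              unfold dd
              refine Finset.sum_congr rfl fun o _ => ?_
              show eval (X u) (pderiv o (G i + MvPolynomial.C _)) * W o = _
              rw [map_add, pderiv_C, add_zero]
            have hn' : nrm c ψ' g a l (X u) V = nrm c G g a l (X u) V := by
              unfold nrm
              simp only [hdd]
            have hev : ∀ i b, eval b (ψ' i) = eval b (G i) +
                (X u (some (c i)) - eval (X u) (G i)) := by
              intro i b
              rw [hψ']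
              show eval b (G i + MvPolynomial.C _) = _
              rw [map_add, eval_C]
            have h4 := (hbl l (c := c) (ψ := ψ') (Q := pderiv (some (c j)) (G l)) (g := g)
              (a := a) (M := 2 ^ (c₀ + 2 * D₁) * 2 ^ (e + nlp g j l)) (x := X u)
              (hc.mono fun y hy => lt_trans hy hl) (fun i => by
                rw [hψ']
                refine (totalDegree_add _ _).trans (max_le (hdeg i) ?_)
                rw [totalDegree_C]
                exact Nat.zero_le _) (fun i b b' h1 h2 => by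
                rw [hev, hev, hdep i b b' h1 h2]) (DepC.pderiv (hdep l) j)
              (totalDegree_pdσ (hdeg l) _) (by positivity) (fun b hb => by
                refine hbig l hl j hj b ?_ fun i hi => ?_
                · have := hb.1
                  rwa [hX0] at this
                · have h5 := hb.2 i hi
                  rw [hev] at h5
                  have h6 := (ih i hi (by omega)).1 u hu
                  have e2 : b (some (c i)) - eval b (G i) = (b (some (c i)) - (eval b (G i) +
                      (X u (some (c i)) - eval (X u) (G i)))) +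
                      (X u (some (c i)) - eval (X u) (G i)) := by ring
                  rw [e2]
                  refine (abs_add_le _ _).trans ((add_le_add h5 h6).trans ?_)
                  rw [← add_div]
                  exact div_le_div_of_nonneg_right (by norm_num) (by positivity))
              (fun i hi => by
                rw [hev, add_sub_cancel, sub_self, abs_zero]
                positivity)).1 V
            rw [hn'] at h4
            refine h4.trans ?_
            have h5 : 0 ≤ 2 ^ (c₀ + 2 * D₁) * (2 : ℝ) ^ (e + nlp g j l) := by positivity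
            exact mul_le_mul (mul_le_mul_of_nonneg_right (hCbl l (by omega)) h5) (hnrm u hu V)
              (nrm_nonneg _ _ _ _ _ _ _) (by positivity)
          have e2 : hs (G l) (X u) δ V = ∑ o, δ o * dd (pderiv o (G l)) (X u) V := by
            rw [hs_comm]
            unfold hs
            exact Finset.sum_congr rfl fun o _ => mul_comm _ _
          rw [e2]
          have h4 : ∀ o ∈ (Finset.univ : Finset (Option (Fin m))), o ∉
              (range l).image (fun j => some (c j)) → δ o * dd (pderiv o (G l)) (X u) V = 0 := by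
            intro o _ ho
            cases o with
            | none => rw [hδ0, zero_mul]
            | some i =>
              have h5 : pderiv (some i) (G l) = 0 := pd_zero' (hdep l) fun j hj h' =>
                ho (Finset.mem_image.2 ⟨j, Finset.mem_range.2 hj, by rw [h']⟩)
              rw [h5]
              unfold dd
              simp
          rw [← Finset.sum_subset (Finset.subset_univ _) h4,
            Finset.sum_image (fun a ha b hb h' => hc (show a < n by
              have := Finset.mem_range.1 (Finset.mem_coe.1 ha); omega) (show b < n by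
              have := Finset.mem_range.1 (Finset.mem_coe.1 hb); omega)
              (Option.some_injective _ h'))]
          refine (Finset.abs_sum_le_sum_abs _ _).trans ?_
          have h5 : ∀ j ∈ range l, |δ (some (c j)) *
              dd (pderiv (some (c j)) (G l)) (X u) V| ≤
              1 / 2 ^ (g l + (N₀ + 2 * n + 2)) * (C₂ * 2 ^ l) * nrm c G g a l x V := by
            intro j hj
            have hj' := Finset.mem_range.1 hj
            rw [abs_mul]
            calc |δ (some (c j))| * |dd (pderiv (some (c j)) (G l)) (X u) V| ≤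
                  1 / 2 ^ J * (C₂ * (2 ^ (c₀ + 2 * D₁) * 2 ^ (e + nlp g j l)) *
                    (2 ^ l * nrm c G g a l x V)) :=
                  mul_le_mul (hδk _) (h3 j hj') (abs_nonneg _) (by positivity)
              _ = (2 ^ (c₀ + 2 * D₁) * 2 ^ (e + nlp g j l) * (1 / 2 ^ J)) *
                    (C₂ * 2 ^ l * nrm c G g a l x V) := by ring
              _ ≤ 1 / 2 ^ (g l + (N₀ + 2 * n + 2)) * (C₂ * 2 ^ l * nrm c G g a l x V) :=
                  mul_le_mul_of_nonneg_right (hexp l hl j hj') (by positivity)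
              _ = _ := by ring
          refine (Finset.sum_le_sum h5).trans ?_
          rw [Finset.sum_const, Finset.card_range, nsmul_eq_mul]
          have e3 : (l : ℝ) * (1 / 2 ^ (g l + (N₀ + 2 * n + 2)) * (C₂ * 2 ^ l) *
              nrm c G g a l x V) = (l * C₂ * 2 ^ l / 2 ^ (N₀ + 2 * n + 2)) * (1 / 2 ^ g l *
              nrm c G g a l x V) := by
            rw [pow_add]
            field_simp
          rw [e3]
          have e4 : l * C₂ * 2 ^ l / 2 ^ (N₀ + 2 * n + 2) ≤ (1 : ℝ) := by
            rw [div_le_one (by positivity)]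
            calc (l : ℝ) * C₂ * 2 ^ l ≤ 2 ^ n * 2 ^ N₀ * 2 ^ n := by
                  refine mul_le_mul (mul_le_mul (hn2 hl) hN₀.le (by linarith) (by positivity))
                    (pow_le_pow_right₀ (by norm_num) hl.le) (by positivity) (by positivity)
              _ = 2 ^ (n + N₀ + n) := by rw [pow_add, pow_add]
              _ ≤ _ := pow_le_pow_right₀ (by norm_num) (by omega)
          calc _ ≤ 1 * (1 / 2 ^ g l * nrm c G g a l x V) :=
                mul_le_mul_of_nonneg_right e4 (by positivity)
            _ = _ := one_mul _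
      have hgr : ∀ u ∈ Set.Icc (0 : ℝ) 1, ∀ V : Option (Fin m) → ℝ,
          |dd (G l) (X u) V - dd (G l) x V| ≤ 1 / 2 ^ g l * nrm c G g a l x V := by
        intro u hu V
        have h3 := dd_seg (G l) x δ V (hhs V) u hu
        have e1 : (fun o => x o + u * δ o) = X u := by rw [hX]
        rwa [e1] at h3
      refine ⟨hht, hgr, fun u hu V => ?_, fun u hu V => ?_⟩
      swap
      · have h3 := hhs V u hu
        have e1 : (fun o => x o + u * δ o) = X u := by rw [hX]
        rwa [e1] at h3
      have h2 := hnrm u hu V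
      have h3 := hgr u hu V
      have h0 := nrm_nonneg c G g a l x V
      have e1 : ∀ y, nrm c G g a (l + 1) y V = nrm c G g a l y V +
          2 ^ g l * |V (some (c l)) - dd (G l) y V| := by
        intro y
        unfold nrm
        rw [Finset.sum_range_succ, add_assoc]
      rw [e1, e1]
      have h4 : 2 ^ g l * |V (some (c l)) - dd (G l) (X u) V| ≤
          2 ^ g l * |V (some (c l)) - dd (G l) x V| + nrm c G g a l x V := by
        have e2 : V (some (c l)) - dd (G l) (X u) V = (V (some (c l)) - dd (G l) x V) -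
            (dd (G l) (X u) V - dd (G l) x V) := by ring
        rw [e2]
        refine (mul_le_mul_of_nonneg_left ((abs_sub (V (some (c l)) - dd (G l) x V)
          (dd (G l) (X u) V - dd (G l) x V)).trans (add_le_add le_rfl h3))
          (by positivity)).trans (le_of_eq ?_)
        field_simp
      have h5 : (1 : ℝ) ≤ 2 ^ l := one_le_pow₀ (by norm_num)
      have h6 : 0 ≤ 2 ^ g l * |V (some (c l)) - dd (G l) x V| := by positivity
      rw [pow_succ]
      nlinarith
  intro l hl
  have h1 := (main l hl).1 1 ⟨zero_le_one, le_rfl⟩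
  have h2 := (main l hl).2.1 1 ⟨zero_le_one, le_rfl⟩
  have h3 := (main l hl).2.2.1 1 ⟨zero_le_one, le_rfl⟩
  have h4 := (main l hl).2.2.2
  rw [hx'] at h1 h2 h3
  rw [hX, hδ] at h4
  exact ⟨h1, h2, h3, h4⟩

/-- **A polynomial which is bounded on a natural box, at the other point of the cell.** -/
theorem rnd_box (D n : ℕ) : ∃ C : ℕ, 1 ≤ C ∧ ∀ {m J : ℕ} {c : ℕ → Fin m} {a e : ℕ} {g : ℕ → ℕ}
    {G : ℕ → MvPolynomial (Option (Fin m)) ℝ} {x x' : Option (Fin m) → ℝ}
    {Q : MvPolynomial (Option (Fin m)) ℝ} {M : ℝ},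
    Set.InjOn c (Set.Iio n) → (∀ l, (G l).totalDegree ≤ D) → (∀ l, DepC c l (G l)) →
    (∀ l < n, ∀ b, NBx c G g a (x none) l b → ∀ j < l,
      |eval b (pderiv (some (c j)) (G l))| ≤ 2 ^ (e + nlp g j l)) →
    (∀ l < n, |x (some (c l)) - eval x (G l)| ≤ 1 / 2 ^ g l) → x' none = x none →
    (∀ k, |x' (some k) - x (some k)| ≤ 1 / 2 ^ J) → (∀ l < n, e + g l + C ≤ J) →
    DepC c n Q → Q.totalDegree ≤ D → 0 ≤ M →
    (∀ b, NBx c G g a (x none) n b → |eval b Q| ≤ M) →
    ∀ V : Option (Fin m) → ℝ, |dd Q x' V| ≤ 2 ^ C * M * nrm c G g a n x V := by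
  classical
  obtain ⟨C₁, hC₁, hmv⟩ := grd_mv3 D n
  obtain ⟨c₀, D₁, hD₁, hdil⟩ := nbx_dil (n + 1) (fun _ => D)
  obtain ⟨Cb, hCb, hbl⟩ := box_all n D D
  obtain ⟨N₀, hN₀⟩ := pow_unbounded_of_one_lt Cb (one_lt_two (α := ℝ))
  refine ⟨C₁ + c₀ + 2 * D₁ + N₀ + n, by omega, ?_⟩
  intro m J c a e g G x x' Q M hc hdeg hdep hlip hpos hx0 hx1 hJ hQ hQd hM hbox V
  have h1 := hmv (J := J) (x' := x') hc hdeg hdep hlip hpos hx0 hx1 (fun l hl => by
    have := hJ l hl
    omega)
  obtain ⟨ψ', hψ'⟩ : ∃ ψ' : ℕ → MvPolynomial (Option (Fin m)) ℝ, ψ' = fun i =>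
      G i + MvPolynomial.C (x' (some (c i)) - eval x' (G i)) := ⟨_, rfl⟩
  have hdd : ∀ i W, dd (ψ' i) x' W = dd (G i) x' W := by
    intro i W
    rw [hψ']
    unfold dd
    refine Finset.sum_congr rfl fun o _ => ?_
    show eval x' (pderiv o (G i + MvPolynomial.C _)) * W o = _
    rw [map_add, pderiv_C, add_zero]
  have hn' : nrm c ψ' g a n x' V = nrm c G g a n x' V := by
    unfold nrm
    simp only [hdd]
  have hev : ∀ i b, eval b (ψ' i) = eval b (G i) + (x' (some (c i)) - eval x' (G i)) := by
    intro i b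
    rw [hψ']
    show eval b (G i + MvPolynomial.C _) = _
    rw [map_add, eval_C]
  have h2 : ∀ b : Option (Fin m) → ℝ, |b none - x none| ≤ 1 / 2 ^ a →
      (∀ l < n, |b (some (c l)) - eval b (G l)| ≤ 2 ^ 2 / 2 ^ g l) →
      |eval b Q| ≤ 2 ^ (c₀ + 2 * D₁) * M := fun b hb0 hb1 =>
    hdil (c := c) (i := n) (G := G) (Q := Q) (g := g) (a := a) (t := x none) (M := M) 2
      (Nat.lt_succ_self n) hc hdeg hdep hQ hQd hM hbox b hb0 hb1
  have h4 := (hbl (c := c) (ψ := ψ') (Q := Q) (g := g) (a := a)
    (M := 2 ^ (c₀ + 2 * D₁) * M) (x := x') hc (fun i => by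
      rw [hψ']
      refine (totalDegree_add _ _).trans (max_le (hdeg i) ?_)
      rw [totalDegree_C]
      exact Nat.zero_le _) (fun i b b' h1 h2 => by
      rw [hev, hev, hdep i b b' h1 h2]) hQ hQd (by positivity) (fun b hb => by
      refine h2 b ?_ fun i hi => ?_
      · have := hb.1
        rwa [hx0] at this
      · have h5 := hb.2 i hi
        rw [hev] at h5
        have h6 := (h1 i hi).1
        have e2 : b (some (c i)) - eval b (G i) = (b (some (c i)) - (eval b (G i) +
            (x' (some (c i)) - eval x' (G i)))) + (x' (some (c i)) - eval x' (G i)) := by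
          ring
        rw [e2]
        refine (abs_add_le _ _).trans ((add_le_add h5 h6).trans ?_)
        rw [← add_div]
        exact div_le_div_of_nonneg_right (by norm_num) (by positivity))
    (fun i hi => by
      rw [hev, add_sub_cancel, sub_self, abs_zero]
      positivity)).1 V
  rw [hn'] at h4
  have h5 : nrm c G g a n x' V ≤ 2 ^ n * nrm c G g a n x V := by
    cases n with
    | zero =>
      unfold nrm
      rw [Finset.sum_range_zero, Finset.sum_range_zero, pow_zero, one_mul]
    | succ i => exact (h1 i (Nat.lt_succ_self i)).2.2.1 V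
  have h0 := nrm_nonneg c G g a n x V
  refine h4.trans ?_
  calc Cb * (2 ^ (c₀ + 2 * D₁) * M) * nrm c G g a n x' V ≤
        2 ^ N₀ * (2 ^ (c₀ + 2 * D₁) * M) * (2 ^ n * nrm c G g a n x V) :=
        mul_le_mul (mul_le_mul_of_nonneg_right hN₀.le (by positivity)) h5
          (nrm_nonneg _ _ _ _ _ _ _) (by positivity)
    _ = 2 ^ (N₀ + (c₀ + 2 * D₁) + n) * M * nrm c G g a n x V := by
        rw [pow_add, pow_add]
        ring
    _ ≤ 2 ^ (C₁ + c₀ + 2 * D₁ + N₀ + n) * M * nrm c G g a n x V :=
        mul_le_mul_of_nonneg_right (mul_le_mul_of_nonneg_right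
          (pow_le_pow_right₀ (by norm_num) (by omega)) hM) h0

/-- **The change of the derivative**, with the room `s`. -/
theorem rnd_dif (D n : ℕ) : ∃ C : ℕ, 1 ≤ C ∧ ∀ {m J : ℕ} {c : ℕ → Fin m} {a e s : ℕ} {g : ℕ → ℕ}
    {G : ℕ → MvPolynomial (Option (Fin m)) ℝ} {x x' : Option (Fin m) → ℝ}
    {Q : MvPolynomial (Option (Fin m)) ℝ} {M : ℝ},
    Set.InjOn c (Set.Iio n) → (∀ l, (G l).totalDegree ≤ D) → (∀ l, DepC c l (G l)) →
    (∀ l < n, ∀ b, NBx c G g a (x none) l b → ∀ j < l,
      |eval b (pderiv (some (c j)) (G l))| ≤ 2 ^ (e + nlp g j l)) →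
    (∀ l < n, |x (some (c l)) - eval x (G l)| ≤ 1 / 2 ^ g l) → x' none = x none →
    (∀ k, |x' (some k) - x (some k)| ≤ 1 / 2 ^ J) → s + C ≤ J →
    (∀ l < n, e + g l + s + C ≤ J) →
    DepC c n Q → Q.totalDegree ≤ D → 0 ≤ M →
    (∀ b, NBx c G g a (x none) n b → |eval b Q| ≤ M) →
    ∀ V : Option (Fin m) → ℝ, |dd Q x' V - dd Q x V| ≤ 2 ^ C * M / 2 ^ s * nrm c G g a n x V := by
  classical
  obtain ⟨C₁, hC₁, hmv⟩ := grd_mv3 D n
  obtain ⟨c₀, D₁, hD₁, hdil⟩ := nbx_dil (n + 1) (fun _ => D)
  obtain ⟨Cb, hCb, hbl⟩ := box_all n D D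
  obtain ⟨N₀, hN₀⟩ := pow_unbounded_of_one_lt Cb (one_lt_two (α := ℝ))
  refine ⟨C₁ + c₀ + 2 * D₁ + N₀ + 2 * n + 2, by omega, ?_⟩
  intro m J c a e s g G x x' Q M hc hdeg hdep hlip hpos hx0 hx1 hsJ hJ hQ hQd hM hbox V
  obtain ⟨δ, hδ⟩ : ∃ δ : Option (Fin m) → ℝ, δ = fun o => x' o - x o := ⟨_, rfl⟩
  have hδ0 : δ none = 0 := by rw [hδ]; show x' none - x none = 0; rw [hx0, sub_self]
  have hδk : ∀ k, |δ (some k)| ≤ 1 / 2 ^ J := fun k => by rw [hδ]; exact hx1 k
  have h2s : (0 : ℝ) < 2 ^ s := by positivity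
  have h2s1 : (1 : ℝ) ≤ 2 ^ s := one_le_pow₀ (by norm_num)
  have hN0 := nrm_nonneg c G g a n x V
  have hmid : ∀ u ∈ Set.Icc (0 : ℝ) 1, |hs Q (fun o => x o + u * δ o) δ V| ≤
      2 ^ (C₁ + c₀ + 2 * D₁ + N₀ + 2 * n + 2) * M / 2 ^ s * nrm c G g a n x V := by
    intro u hu
    obtain ⟨y, hy⟩ : ∃ y : Option (Fin m) → ℝ, y = fun o => x o + u * δ o := ⟨_, rfl⟩
    rw [← hy]
    have hy0 : y none = x none := by
      rw [hy]
      show x none + u * δ none = _
      rw [hδ0, mul_zero, add_zero]
    have hyk : ∀ k, |y (some k) - x (some k)| ≤ 1 / 2 ^ J := by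
      intro k
      rw [hy]
      show |x (some k) + u * δ (some k) - x (some k)| ≤ _
      rw [add_sub_cancel_left, abs_mul, abs_of_nonneg hu.1]
      calc u * |δ (some k)| ≤ 1 * (1 / 2 ^ J) :=
            mul_le_mul hu.2 (hδk k) (abs_nonneg _) (by norm_num)
        _ = _ := one_mul _
    have h1 := hmv (J := J) (x' := y) hc hdeg hdep hlip hpos hy0 hyk (fun l hl => by
      have := hJ l hl
      omega)
    -- the second derivatives, with the gain
    obtain ⟨xs, hxs⟩ : ∃ xs : Option (Fin m) → ℝ, xs = fun o => x o + 2 ^ s * δ o := ⟨_, rfl⟩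
    have h3 := hmv (J := J - s) (x' := xs) hc hdeg hdep hlip hpos (by
      rw [hxs]
      show x none + 2 ^ s * δ none = _
      rw [hδ0, mul_zero, add_zero]) (fun k => by
      rw [hxs]
      show |x (some k) + 2 ^ s * δ (some k) - x (some k)| ≤ _
      rw [add_sub_cancel_left, abs_mul, abs_of_pos h2s]
      calc 2 ^ s * |δ (some k)| ≤ 2 ^ s * (1 / 2 ^ J) :=
            mul_le_mul_of_nonneg_left (hδk k) h2s.le
        _ = 1 / 2 ^ (J - s) := by
            have e1 : (2 : ℝ) ^ J = 2 ^ (J - s) * 2 ^ s := by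
              rw [← pow_add]
              congr 1
              omega
            rw [e1]
            field_simp) (fun l hl => by
      have := hJ l hl
      omega)
    have hhs : ∀ l < n, |hs (G l) y δ V| ≤ 1 / 2 ^ s * (1 / 2 ^ g l * nrm c G g a l x V) := by
      intro l hl
      have h4 := (h3 l hl).2.2.2 (u / 2 ^ s) ⟨div_nonneg hu.1 h2s.le,
        (div_le_one h2s).2 (hu.2.trans h2s1)⟩ V
      have e1 : (fun o => x o + u / 2 ^ s * (xs o - x o)) = y := by
        rw [hxs, hy]
        funext o
        show x o + u / 2 ^ s * (x o + 2 ^ s * δ o - x o) = x o + u * δ o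
        field_simp
        ring
      have e2 : (fun o => xs o - x o) = fun o => 2 ^ s * δ o := by
        rw [hxs]
        funext o
        show x o + 2 ^ s * δ o - x o = _
        ring
      rw [e1, e2] at h4
      have e3 : hs (G l) y (fun o => 2 ^ s * δ o) V = 2 ^ s * hs (G l) y δ V := by
        rw [hs_comm, hs_comm (G l) y δ V]
        unfold hs dd
        rw [Finset.mul_sum]
        refine Finset.sum_congr rfl fun o _ => ?_
        ring
      rw [e3, abs_mul, abs_of_pos h2s] at h4
      rw [one_div, ← div_eq_inv_mul, le_div_iff₀ h2s, mul_comm]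
      exact h4
    -- the box at the point
    obtain ⟨ψ', hψ'⟩ : ∃ ψ' : ℕ → MvPolynomial (Option (Fin m)) ℝ, ψ' = fun i =>
        G i + MvPolynomial.C (y (some (c i)) - eval y (G i)) := ⟨_, rfl⟩
    have hdd : ∀ i x W, dd (ψ' i) x W = dd (G i) x W := by
      intro i x W
      rw [hψ']
      unfold dd
      refine Finset.sum_congr rfl fun o _ => ?_
      show eval x (pderiv o (G i + MvPolynomial.C _)) * W o = _
      rw [map_add, pderiv_C, add_zero]
    have hhs' : ∀ i x W W', hs (ψ' i) x W W' = hs (G i) x W W' := by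
      intro i x W W'
      rw [hψ']
      unfold hs
      refine Finset.sum_congr rfl fun o _ => ?_
      show dd (pderiv o (G i + MvPolynomial.C _)) x W * W' o = _
      rw [map_add, pderiv_C, add_zero]
    have hev : ∀ i b, eval b (ψ' i) = eval b (G i) + (y (some (c i)) - eval y (G i)) := by
      intro i b
      rw [hψ']
      show eval b (G i + MvPolynomial.C _) = _
      rw [map_add, eval_C]
    have h2 : ∀ b : Option (Fin m) → ℝ, |b none - x none| ≤ 1 / 2 ^ a →
        (∀ l < n, |b (some (c l)) - eval b (G l)| ≤ 2 ^ 2 / 2 ^ g l) →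
        |eval b Q| ≤ 2 ^ (c₀ + 2 * D₁) * M := fun b hb0 hb1 =>
      hdil (c := c) (i := n) (G := G) (Q := Q) (g := g) (a := a) (t := x none) (M := M) 2
        (Nat.lt_succ_self n) hc hdeg hdep hQ hQd hM hbox b hb0 hb1
    have h4 := (hbl (c := c) (ψ := ψ') (Q := Q) (g := g) (a := a)
      (M := 2 ^ (c₀ + 2 * D₁) * M) (x := y) hc (fun i => by
        rw [hψ']
        refine (totalDegree_add _ _).trans (max_le (hdeg i) ?_)
        rw [totalDegree_C]
        exact Nat.zero_le _) (fun i b b' h1 h2 => by
        rw [hev, hev, hdep i b b' h1 h2]) hQ hQd (by positivity) (fun b hb => by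
        refine h2 b ?_ fun i hi => ?_
        · have := hb.1
          rwa [hy0] at this
        · have h5 := hb.2 i hi
          rw [hev] at h5
          have h6 := (h1 i hi).1
          have e2 : b (some (c i)) - eval b (G i) = (b (some (c i)) - (eval b (G i) +
              (y (some (c i)) - eval y (G i)))) + (y (some (c i)) - eval y (G i)) := by
            ring
          rw [e2]
          refine (abs_add_le _ _).trans ((add_le_add h5 h6).trans ?_)
          rw [← add_div]
          exact div_le_div_of_nonneg_right (by norm_num) (by positivity))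
      (fun i hi => by
        rw [hev, add_sub_cancel, sub_self, abs_zero]
        positivity)).2 δ V 0
    have e0 : dd Q y (0 : Option (Fin m) → ℝ) = 0 := by
      unfold dd
      simp
    rw [e0, add_zero] at h4
    -- the sizes
    have hnV : nrm c ψ' g a n y V ≤ 2 ^ n * nrm c G g a n x V := by
      have e1 : nrm c ψ' g a n y V = nrm c G g a n y V := by
        unfold nrm
        simp only [hdd]
      rw [e1]
      cases n with
      | zero =>
        unfold nrm
        rw [Finset.sum_range_zero, Finset.sum_range_zero, pow_zero, one_mul]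
      | succ i => exact (h1 i (Nat.lt_succ_self i)).2.2.1 V
    have hnl : ∀ l ≤ n, nrm c G g a l x V ≤ nrm c G g a n x V := fun l hl => by
      unfold nrm
      exact add_le_add le_rfl (Finset.sum_le_sum_of_subset_of_nonneg (Finset.range_mono hl)
        fun _ _ _ => by positivity)
    have hnz : nrz c ψ' g a n y δ V 0 ≤ n * (1 / 2 ^ s * nrm c G g a n x V) := by
      unfold nrz
      have e1 : (0 : Option (Fin m) → ℝ) none = 0 := rfl
      rw [e1, abs_zero, mul_zero, zero_add]
      refine (Finset.sum_le_card_nsmul _ _ (1 / 2 ^ s * nrm c G g a n x V) fun l hl => ?_).trans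
        (le_of_eq ?_)
      · have hl' := Finset.mem_range.1 hl
        have e2 : dd (ψ' l) y (0 : Option (Fin m) → ℝ) = 0 := by
          unfold dd
          simp
        have e3 : (0 : Option (Fin m) → ℝ) (some (c l)) = 0 := rfl
        rw [e2, e3, hhs', sub_zero, zero_sub, abs_neg]
        calc 2 ^ g l * |hs (G l) y δ V| ≤
              2 ^ g l * (1 / 2 ^ s * (1 / 2 ^ g l * nrm c G g a l x V)) :=
              mul_le_mul_of_nonneg_left (hhs l hl') (by positivity)
          _ = 1 / 2 ^ s * nrm c G g a l x V := by field_simp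
          _ ≤ _ := mul_le_mul_of_nonneg_left (hnl l hl'.le) (by positivity)
      · rw [Finset.card_range, nsmul_eq_mul]
    have hnδ : nrm c ψ' g a n y δ ≤ n * (1 / 2 ^ s) := by
      unfold nrm
      rw [hδ0, abs_zero, mul_zero, zero_add]
      refine (Finset.sum_le_card_nsmul _ _ (1 / 2 ^ s) fun l hl => ?_).trans (le_of_eq ?_)
      · have hl' := Finset.mem_range.1 hl
        rw [hdd]
        have hgJ : (2 : ℝ) ^ g l * (1 / 2 ^ J) ≤ 1 / 2 * (1 / 2 ^ s) := by
          have := hJ l hl'
          have e1 : (1 : ℝ) / 2 * (1 / 2 ^ s) = 1 / 2 ^ (s + 1) := by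
            rw [pow_succ]
            field_simp
          rw [mul_one_div, e1, div_le_div_iff₀ (by positivity) (by positivity), one_mul,
            ← pow_add]
          exact pow_le_pow_right₀ (by norm_num) (by omega)
        have h5 : 2 ^ g l * |dd (G l) y δ| ≤ 1 / 2 * (1 / 2 ^ s) := by
          rw [← cv_grd, cv_eq (hc.mono fun z hz => lt_trans hz hl') (cvc_grd (hdep l) y), hδ0,
            mul_zero, zero_add]
          have h6 : ∀ j ∈ range l, |grd (G l) y (some (c j)) * δ (some (c j))| ≤
              1 / 2 ^ (g l + s + (2 * n + 2)) := by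
            intro j hj
            have hj' := Finset.mem_range.1 hj
            rw [abs_mul]
            have h7 : |grd (G l) y (some (c j))| ≤
                2 ^ (c₀ + 2 * D₁) * 2 ^ (e + nlp g j l) :=
              hdil (c := c) (i := l) (G := G) (Q := pderiv (some (c j)) (G l)) (g := g)
                (a := a) (t := x none) (M := 2 ^ (e + nlp g j l)) 2 (by omega)
                (hc.mono fun z hz => lt_trans hz hl') hdeg hdep (DepC.pderiv (hdep l) j)
                (totalDegree_pdσ (hdeg l) _) (by positivity)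
                (fun b' hb' => hlip l hl' b' hb' j hj') y (by
                  rw [hy0, sub_self, abs_zero]
                  positivity) fun i hi => ((h1 i (hi.trans hl')).1).trans
                  (div_le_div_of_nonneg_right (by norm_num) (by positivity))
            refine (mul_le_mul h7 (hδk _) (abs_nonneg _) (by positivity)).trans ?_
            rw [← pow_add, mul_one_div, div_le_div_iff₀ (by positivity) (by positivity),
              one_mul, ← pow_add]
            refine pow_le_pow_right₀ (by norm_num) ?_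
            obtain ⟨i, hi1, hi2⟩ := Finset.exists_mem_eq_sup (Finset.Icc j l)
              ⟨j, Finset.mem_Icc.2 ⟨le_rfl, hj'.le⟩⟩ g
            have hi3 := (Finset.mem_Icc.1 hi1).2
            have h6 := hJ i (by omega)
            have h7 : nlp g j l = (Finset.Icc j l).sup g - g l := rfl
            have h8 : g l ≤ (Finset.Icc j l).sup g :=
              Finset.le_sup (f := g) (Finset.mem_Icc.2 ⟨hj'.le, le_rfl⟩)
            rw [hi2] at h7 h8
            omega
          refine (mul_le_mul_of_nonneg_left ((Finset.abs_sum_le_sum_abs _ _).trans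
            (Finset.sum_le_sum h6)) (by positivity)).trans ?_
          rw [Finset.sum_const, Finset.card_range, nsmul_eq_mul]
          have e2 : (2 : ℝ) ^ g l * (l * (1 / 2 ^ (g l + s + (2 * n + 2)))) =
              l / 2 ^ (2 * n + 2) * (1 / 2 ^ s) := by
            rw [pow_add, pow_add]
            field_simp
          rw [e2]
          refine mul_le_mul_of_nonneg_right ?_ (by positivity)
          rw [div_le_div_iff₀ (by positivity) (by norm_num), one_mul]
          have e4 : ((l : ℕ) : ℝ) ≤ ((2 ^ n : ℕ) : ℝ) := by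
            have : l ≤ 2 ^ n := hl'.le.trans (Nat.lt_two_pow_self).le
            exact_mod_cast this
          push_cast at e4
          calc (l : ℝ) * 2 ≤ 2 ^ n * 2 := mul_le_mul_of_nonneg_right e4 (by norm_num)
            _ = 2 ^ (n + 1) := (pow_succ _ _).symm
            _ ≤ _ := pow_le_pow_right₀ (by norm_num) (by omega)
        calc 2 ^ g l * |δ (some (c l)) - dd (G l) y δ| ≤
              2 ^ g l * (|δ (some (c l))| + |dd (G l) y δ|) :=
              mul_le_mul_of_nonneg_left (abs_sub _ _) (by positivity)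
          _ ≤ 2 ^ g l * (1 / 2 ^ J) + 2 ^ g l * |dd (G l) y δ| := by
              rw [mul_add]
              exact add_le_add (mul_le_mul_of_nonneg_left (hδk _) (by positivity)) le_rfl
          _ ≤ 1 / 2 * (1 / 2 ^ s) + 1 / 2 * (1 / 2 ^ s) := add_le_add hgJ h5
          _ = 1 / 2 ^ s := by ring
      · rw [Finset.card_range, nsmul_eq_mul]
    have hn1 : (n : ℝ) ≤ 2 ^ n := by
      have : n ≤ 2 ^ n := (Nat.lt_two_pow_self).le
      exact_mod_cast this
    refine h4.trans ?_
    have h5 : nrm c ψ' g a n y δ * nrm c ψ' g a n y V + nrz c ψ' g a n y δ V 0 ≤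
        2 ^ (2 * n + 1) * (1 / 2 ^ s * nrm c G g a n x V) := by
      have h6 : nrm c ψ' g a n y δ * nrm c ψ' g a n y V ≤
          n * (1 / 2 ^ s) * (2 ^ n * nrm c G g a n x V) :=
        mul_le_mul hnδ hnV (nrm_nonneg _ _ _ _ _ _ _) (by positivity)
      have h7 : 0 ≤ 1 / 2 ^ s * nrm c G g a n x V := by positivity
      have h8 : (n : ℝ) * 2 ^ n ≤ 2 ^ (2 * n) := by
        rw [two_mul, pow_add]
        exact mul_le_mul_of_nonneg_right hn1 (by positivity)
      have h9 : (n : ℝ) ≤ 2 ^ (2 * n) := hn1.trans (pow_le_pow_right₀ (by norm_num) (by omega))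
      calc _ ≤ n * (1 / 2 ^ s) * (2 ^ n * nrm c G g a n x V) +
            n * (1 / 2 ^ s * nrm c G g a n x V) := add_le_add h6 hnz
        _ = (n * 2 ^ n + n) * (1 / 2 ^ s * nrm c G g a n x V) := by ring
        _ ≤ (2 ^ (2 * n) + 2 ^ (2 * n)) * (1 / 2 ^ s * nrm c G g a n x V) :=
            mul_le_mul_of_nonneg_right (add_le_add h8 h9) h7
        _ = _ := by ring
    calc Cb * (2 ^ (c₀ + 2 * D₁) * M) * (nrm c ψ' g a n y δ * nrm c ψ' g a n y V +
          nrz c ψ' g a n y δ V 0) ≤ 2 ^ N₀ * (2 ^ (c₀ + 2 * D₁) * M) *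
          (2 ^ (2 * n + 1) * (1 / 2 ^ s * nrm c G g a n x V)) :=
          mul_le_mul (mul_le_mul_of_nonneg_right hN₀.le (by positivity)) h5
            (add_nonneg (mul_nonneg (nrm_nonneg _ _ _ _ _ _ _) (nrm_nonneg _ _ _ _ _ _ _))
              (nrz_nonneg _ _ _ _ _ _ _ _ _)) (by positivity)
      _ = 2 ^ (N₀ + (c₀ + 2 * D₁) + (2 * n + 1)) * M / 2 ^ s * nrm c G g a n x V := by
          rw [pow_add, pow_add]
          ring
      _ ≤ _ := mul_le_mul_of_nonneg_right (div_le_div_of_nonneg_right
          (mul_le_mul_of_nonneg_right (pow_le_pow_right₀ (by norm_num) (by omega)) hM)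
          h2s.le) hN0
  have h3 := dd_seg Q x δ V hmid 1 ⟨zero_le_one, le_rfl⟩
  have e1 : (fun o => x o + 1 * δ o) = x' := by
    funext o
    show x o + 1 * δ o = _
    rw [hδ]
    ring
  rwa [e1] at h3

end Pool.D2Z
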