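import Pool.Agent.H66.D2.Rcl
import Pool.Agent.H23.D2.Lin

/-!
# The derivative of a closed gradient

`tm`: the relative time of a longer window as a polynomial of the relative time of a shorter one.
`der_of`: a covector `∑ lam l * V (c l)`, closed on the window `w`, which is natural near the visible
ball chart of the ball `a ≥ w`: if the curvature of the ball charts is natural between the own line
and every direction, then so is the derivative of `lam` along the own line.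
-/

set_option autoImplicit false

namespace Pool.D2T

open Finset Real MvPolynomial
open Pool.Agent.H49.Ent Pool.Agent.H32.Dense Pool.STK Pool.KA Pool.KSAT Pool.K2S Pool.PB Pool.S6C
open Pool.GEN Pool.CHT Pool.CHX Pool.ISO Pool.D2R Pool.D2Z Pool.D2F
open Pool.FLF (Fam.sub)
open Pool.PB.Trl (rt rt_mem t_rt)

variable {m J : ℕ}

/-- The relative time of the longer window. -/
noncomputable def tm {F : Fam m J} (n : ℕ) (s : LnT F) : Polynomial ℝ :=
  Polynomial.C (((s.2.2 % 2 ^ n : ℕ) : ℝ) / 2 ^ n) + Polynomial.C (1 / 2 ^ n) * Polynomial.X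

theorem tm_eval {F : Fam m J} (n : ℕ) (s : LnT F) (τ : ℝ) :
    (tm n s).eval τ = (((s.2.2 % 2 ^ n : ℕ) : ℝ) + τ) / 2 ^ n := by
  unfold tm
  simp only [Polynomial.eval_add, Polynomial.eval_mul, Polynomial.eval_C, Polynomial.eval_X]
  ring

theorem tm_der {F : Fam m J} (n : ℕ) (s : LnT F) :
    Polynomial.derivative (tm n s) = Polynomial.C (1 / 2 ^ n) := by
  unfold tm
  simp only [Polynomial.derivative_add, Polynomial.derivative_C, Polynomial.derivative_C_mul,
    Polynomial.derivative_X, zero_add, mul_one]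

theorem tm_deg {F : Fam m J} (n : ℕ) (s : LnT F) : (tm n s).natDegree ≤ 1 := by
  unfold tm
  refine (Polynomial.natDegree_add_le _ _).trans (max_le ?_ ?_)
  · rw [Polynomial.natDegree_C]
    exact Nat.zero_le _
  · exact (Polynomial.natDegree_C_mul_le _ _).trans Polynomial.natDegree_X_le

/-- The own line in the two windows. -/
theorem lc_tm {F : Fam m J} {w a : ℕ} (hw : w ≤ a) (s : LnT F) (τ : ℝ) (o : Option (Fin m)) :
    (lc w (co (a - w) s) o).eval ((tm (a - w) s).eval τ) = (lc a s o).eval τ := by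
  rw [eval_lc', eval_lc', tm_eval]
  have h2 : (2 : ℝ) ^ a = 2 ^ (a - w) * 2 ^ w := by rw [← pow_add, Nat.sub_add_cancel hw]
  have h3 : ((s.2.2 : ℕ) : ℝ) = 2 ^ (a - w) * ((s.2.2 / 2 ^ (a - w) : ℕ) : ℝ) +
      ((s.2.2 % 2 ^ (a - w) : ℕ) : ℝ) := by
    have := Nat.div_add_mod s.2.2 (2 ^ (a - w))
    exact_mod_cast this.symm
  have e1 : (((co (a - w) s).2.2 : ℝ) + (((s.2.2 % 2 ^ (a - w) : ℕ) : ℝ) + τ) / 2 ^ (a - w)) /
      2 ^ w = ((s.2.2 : ℝ) + τ) / 2 ^ a := by
    show (((s.2.2 / 2 ^ (a - w) : ℕ) : ℝ) + (((s.2.2 % 2 ^ (a - w) : ℕ) : ℝ) + τ) /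
      2 ^ (a - w)) / 2 ^ w = ((s.2.2 : ℝ) + τ) / 2 ^ a
    rw [h3, h2]
    field_simp
    ring
  rw [e1]
  cases o with
  | none => rfl
  | some j => rfl

/-- The own times in the two windows. -/
theorem rt_tm (F : Fam m J) {w a : ℕ} (hw : w ≤ a) (ha : a ≤ J) (ω : F.Ω) :
    (tm (a - w) (slam F a ω)).eval (rt F a ω) = rt F w ω := by
  have h1 := t_rt F (hw.trans ha) ω
  have h2 := t_rt F ha ω
  rw [tm_eval]
  have h3 : (2 : ℝ) ^ a = 2 ^ (a - w) * 2 ^ w := by rw [← pow_add, Nat.sub_add_cancel hw]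
  have h4 : (((slam F a ω).2.2 : ℕ) : ℝ) = 2 ^ (a - w) *
      (((slam F a ω).2.2 / 2 ^ (a - w) : ℕ) : ℝ) +
      (((slam F a ω).2.2 % 2 ^ (a - w) : ℕ) : ℝ) := by
    have := Nat.div_add_mod (slam F a ω).2.2 (2 ^ (a - w))
    exact_mod_cast this.symm
  have h5 : (slam F w ω).2.2 = (slam F a ω).2.2 / 2 ^ (a - w) := by
    rw [← co_slam F hw ha ω]
    rfl
  rw [h1, h5, h4, h3] at h2
  have hp1 : (0 : ℝ) < 2 ^ w := by positivity
  have hp2 : (0 : ℝ) < 2 ^ (a - w) := by positivity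
  rw [div_eq_div_iff hp1.ne' (mul_pos hp2 hp1).ne'] at h2
  have h6 : ((((slam F a ω).2.2 / 2 ^ (a - w) : ℕ) : ℝ) + rt F w ω) * 2 ^ (a - w) =
      2 ^ (a - w) * (((slam F a ω).2.2 / 2 ^ (a - w) : ℕ) : ℝ) +
      (((slam F a ω).2.2 % 2 ^ (a - w) : ℕ) : ℝ) + rt F a ω := by
    have h7 : (((((slam F a ω).2.2 / 2 ^ (a - w) : ℕ) : ℝ) + rt F w ω) * 2 ^ (a - w)) * 2 ^ w =
        (2 ^ (a - w) * (((slam F a ω).2.2 / 2 ^ (a - w) : ℕ) : ℝ) +
        (((slam F a ω).2.2 % 2 ^ (a - w) : ℕ) : ℝ) + rt F a ω) * 2 ^ w := by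
      rw [← h2]
      ring
    exact mul_right_cancel₀ hp1.ne' h7
  rw [div_eq_iff hp2.ne']
  linarith

theorem tm_mem {F : Fam m J} (n : ℕ) (s : LnT F) {τ : ℝ} (hτ : τ ∈ Set.Icc (0 : ℝ) 1) :
    (tm n s).eval τ ∈ Set.Icc (0 : ℝ) 1 := by
  rw [tm_eval]
  have h0 : (0 : ℝ) < 2 ^ n := by positivity
  have h1 : ((s.2.2 % 2 ^ n : ℕ) : ℝ) + 1 ≤ 2 ^ n := by
    have := Nat.mod_lt s.2.2 (show 0 < 2 ^ n by positivity)
    exact_mod_cast this
  refine ⟨div_nonneg (add_nonneg (Nat.cast_nonneg _) hτ.1) h0.le, ?_⟩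
  rw [div_le_one h0]
  linarith [hτ.2]

/-- A closed polynomial in the shorter window. -/
noncomputable def sh {F : Fam m J} (n : ℕ) (q : LnT F → Polynomial ℝ) (s : LnT F) :
    Polynomial ℝ := (q (co n s)).comp (tm n s)

theorem sh_deg {F : Fam m J} (n : ℕ) {q : LnT F → Polynomial ℝ} {D : ℕ}
    (h : ∀ s, (q s).natDegree ≤ D) (s : LnT F) : (sh n q s).natDegree ≤ D := by
  unfold sh
  refine Polynomial.natDegree_comp_le.trans ?_
  calc (q (co n s)).natDegree * (tm n s).natDegree ≤ D * 1 := Nat.mul_le_mul (h _) (tm_deg n s)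
    _ = D := mul_one _

theorem sh_eval {F : Fam m J} (n : ℕ) (q : LnT F → Polynomial ℝ) (s : LnT F) (τ : ℝ) :
    (sh n q s).eval τ = (q (co n s)).eval ((tm n s).eval τ) := Polynomial.eval_comp

theorem sh_rt (F : Fam m J) {w a : ℕ} (hw : w ≤ a) (ha : a ≤ J) (q : LnT F → Polynomial ℝ)
    (ω : F.Ω) : (sh (a - w) q (slam F a ω)).eval (rt F a ω) =
      (q (slam F w ω)).eval (rt F w ω) := by
  rw [sh_eval, rt_tm F hw ha, co_slam F hw ha]

theorem sh_der {F : Fam m J} (n : ℕ) (q : LnT F → Polynomial ℝ) (s : LnT F) (τ : ℝ) :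
    (Polynomial.derivative (sh n q s)).eval τ =
      1 / 2 ^ n * (Polynomial.derivative (q (co n s))).eval ((tm n s).eval τ) := by
  unfold sh
  rw [Polynomial.derivative_comp, tm_der, Polynomial.eval_mul, Polynomial.eval_C,
    Polynomial.eval_comp]

theorem sh_der_rt (F : Fam m J) {w a : ℕ} (hw : w ≤ a) (ha : a ≤ J) (q : LnT F → Polynomial ℝ)
    (ω : F.Ω) : (Polynomial.derivative (sh (a - w) q (slam F a ω))).eval (rt F a ω) =
      1 / 2 ^ (a - w) * (Polynomial.derivative (q (slam F w ω))).eval (rt F w ω) := by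
  rw [sh_der, rt_tm F hw ha, co_slam F hw ha]

/-- **The triangular system along the line**: closed natural components. -/
theorem tri_line {c : ℕ → Fin m} {i a : ℕ} (hc : Set.InjOn c (Set.Iio i)) {ζ : Type}
    {s : ((Fin m → ℝ) × (Fin m → ℝ)) × ζ × ℕ} {H : ℕ → MvPolynomial (Option (Fin m)) ℝ}
    (hdep : ∀ l, DepC c l (H l)) {ν lam : ℕ → Polynomial ℝ}
    (h : ∀ l < i, ν l = lam l - MvPolynomial.aeval (lc a s) (pderiv (some (c l)) (H i)) +
      ∑ l' ∈ Finset.Ico (l + 1) i, ν l' * MvPolynomial.aeval (lc a s) (pderiv (some (c l)) (H l')))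
    (τ : ℝ) {V : Option (Fin m) → ℝ} (hV : V none = 0) :
    (dd (H i) (xt a s τ) V + ∑ l ∈ range i, (ν l).eval τ *
        (V (some (c l)) - dd (H l) (xt a s τ) V) =
      ∑ l ∈ range i, (lam l).eval τ * V (some (c l))) ∧
    1 / 2 ^ a * hs (H i) (xt a s τ) (wd s) V + ∑ l ∈ range i,
        ((Polynomial.derivative (ν l)).eval τ * (V (some (c l)) - dd (H l) (xt a s τ) V) -
          (ν l).eval τ * (1 / 2 ^ a * hs (H l) (xt a s τ) (wd s) V)) =
      ∑ l ∈ range i, (Polynomial.derivative (lam l)).eval τ * V (some (c l)) := by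
  have hev : ∀ τ : ℝ, ∀ l < i, (ν l).eval τ = (lam l).eval τ -
      eval (xt a s τ) (pderiv (some (c l)) (H i)) +
      ∑ l' ∈ Finset.Ico (l + 1) i, (ν l').eval τ *
        eval (xt a s τ) (pderiv (some (c l)) (H l')) := by
    intro τ l hl
    have h1 := congrArg (fun q => Polynomial.eval τ q) (h l hl)
    simp only [Polynomial.eval_add, Polynomial.eval_sub, Polynomial.eval_finsetSum,
      Polynomial.eval_mul, eval_lcR] at h1
    exact h1
  have hid : ∀ τ : ℝ, dd (H i) (xt a s τ) V + ∑ l ∈ range i, (ν l).eval τ *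
      (V (some (c l)) - dd (H l) (xt a s τ) V) =
      ∑ l ∈ range i, (lam l).eval τ * V (some (c l)) := fun τ =>
    tri_id hc hdep (xt a s τ) hV (fun l => (ν l).eval τ) (fun l => (lam l).eval τ) (hev τ)
  refine ⟨hid τ, ?_⟩
  -- the identity of polynomials
  have hdp : ∀ (R : MvPolynomial (Option (Fin m)) ℝ) (τ : ℝ),
      (∑ o, MvPolynomial.aeval (lc a s) (pderiv o R) * Polynomial.C (V o)).eval τ =
      dd R (xt a s τ) V := by
    intro R τ
    unfold dd
    rw [Polynomial.eval_finsetSum]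
    refine Finset.sum_congr rfl fun o _ => ?_
    rw [Polynomial.eval_mul, eval_lcR, Polynomial.eval_C]
  have hdd : ∀ (R : MvPolynomial (Option (Fin m)) ℝ) (τ : ℝ),
      (Polynomial.derivative (∑ o, MvPolynomial.aeval (lc a s) (pderiv o R) *
        Polynomial.C (V o))).eval τ = 1 / 2 ^ a * hs R (xt a s τ) (wd s) V := by
    intro R τ
    unfold hs
    rw [Polynomial.derivative_sum, Polynomial.eval_finsetSum, Finset.mul_sum]
    refine Finset.sum_congr rfl fun o _ => ?_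
    rw [Polynomial.derivative_mul, Polynomial.derivative_C, mul_zero, add_zero,
      Polynomial.eval_mul, der_R, Polynomial.eval_C]
    ring
  have hpol : (∑ o, MvPolynomial.aeval (lc a s) (pderiv o (H i)) * Polynomial.C (V o)) +
      ∑ l ∈ range i, ν l * (Polynomial.C (V (some (c l))) -
        ∑ o, MvPolynomial.aeval (lc a s) (pderiv o (H l)) * Polynomial.C (V o)) =
      ∑ l ∈ range i, lam l * Polynomial.C (V (some (c l))) := by
    refine Polynomial.funext fun τ => ?_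
    have h1 := hid τ
    simp only [Polynomial.eval_add, Polynomial.eval_finsetSum, Polynomial.eval_mul,
      Polynomial.eval_sub, Polynomial.eval_C]
    have h2 : ∀ R : MvPolynomial (Option (Fin m)) ℝ,
        ∑ o, (MvPolynomial.aeval (lc a s) (pderiv o R)).eval τ * V o = dd R (xt a s τ) V := by
      intro R
      rw [← hdp R τ, Polynomial.eval_finsetSum]
      refine Finset.sum_congr rfl fun o _ => ?_
      rw [Polynomial.eval_mul, Polynomial.eval_C]
    rw [h2]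
    simp only [h2]
    exact h1
  have h3 := congrArg (fun q => Polynomial.eval τ (Polynomial.derivative q)) hpol
  simp only [Polynomial.derivative_add, Polynomial.eval_add] at h3
  rw [hdd] at h3
  have h4 : (Polynomial.derivative (∑ l ∈ range i, ν l * (Polynomial.C (V (some (c l))) -
      ∑ o, MvPolynomial.aeval (lc a s) (pderiv o (H l)) * Polynomial.C (V o)))).eval τ =
      ∑ l ∈ range i, ((Polynomial.derivative (ν l)).eval τ *
        (V (some (c l)) - dd (H l) (xt a s τ) V) -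
        (ν l).eval τ * (1 / 2 ^ a * hs (H l) (xt a s τ) (wd s) V)) := by
    rw [Polynomial.derivative_sum, Polynomial.eval_finsetSum]
    refine Finset.sum_congr rfl fun l _ => ?_
    rw [Polynomial.derivative_mul, Polynomial.eval_add, Polynomial.eval_mul, Polynomial.eval_mul,
      Polynomial.derivative_sub, Polynomial.derivative_C, zero_sub, Polynomial.eval_neg, hdd,
      Polynomial.eval_sub, Polynomial.eval_C, hdp]
    ring
  have h5 : (Polynomial.derivative (∑ l ∈ range i, lam l *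
      Polynomial.C (V (some (c l))))).eval τ =
      ∑ l ∈ range i, (Polynomial.derivative (lam l)).eval τ * V (some (c l)) := by
    rw [Polynomial.derivative_sum, Polynomial.eval_finsetSum]
    refine Finset.sum_congr rfl fun l _ => ?_
    rw [Polynomial.derivative_mul, Polynomial.derivative_C, mul_zero, add_zero,
      Polynomial.eval_mul, Polynomial.eval_C]
  rw [h4, h5] at h3
  exact h3

/-- **The derivative of a closed gradient**, ball `a ≥ w`. -/
theorem der_of (m D D₁ i : ℕ) (hD : 1 ≤ D) : ∃ C : ℕ, 1 ≤ C ∧ ∀ {J : ℕ} {F : Fam m J}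
    {c : ℕ → Fin m} {w a k : ℕ} {θ Y : ℝ} {g : ℕ → ℕ} {B : F.Ω → Prop}
    {G : PtT F → ℕ → MvPolynomial (Option (Fin m)) ℝ}
    {H : LnT F → ℕ → MvPolynomial (Option (Fin m)) ℝ} {lam : LnT F → ℕ → Polynomial ℝ}
    (hB : 0 < Pe F.p B), Set.InjOn c (Set.Iio (i + 1)) → w ≤ a → a ≤ J →
    2 ≤ Y → Y ≤ 2 ^ k → 0 ≤ θ → (Fam.sub F B hB).Tm θ →
    C * (θ + 1) ≤ ((J : ℝ) - a) * Real.log 2 → Real.exp (C * (θ + 1)) ≤ 2 ^ k →
    (∀ s l, (H s l).totalDegree ≤ D) → (∀ s l, DepC c l (H s l)) →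
    (∀ ω, B ω → ∀ l ≤ i, (∀ V : Option (Fin m) → ℝ,
      |dd (hn c H (slam F a ω) l - G (ptr F J ω) l) (bt F ω) V| ≤
        Y / 2 ^ g l * nrm c (G (ptr F J ω)) g a l (bt F ω) V) ∧
      ∀ V V' Z : Option (Fin m) → ℝ,
      |hs (hn c H (slam F a ω) l - G (ptr F J ω) l) (bt F ω) V V' +
        dd (hn c H (slam F a ω) l - G (ptr F J ω) l) (bt F ω) Z| ≤
        Y / 2 ^ g l * (nrm c (G (ptr F J ω)) g a l (bt F ω) V *
          nrm c (G (ptr F J ω)) g a l (bt F ω) V' +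
          nrz c (G (ptr F J ω)) g a l (bt F ω) V V' Z)) →
    (∀ ω, B ω → nrm c (G (ptr F J ω)) g a i (bt F ω) (bd F ω) ≤ Y * 2 ^ a) →
    (∀ ω, B ω → ∀ l ≤ i, ∀ V : Option (Fin m) → ℝ,
      |hs (G (ptr F J ω) l) (bt F ω) (bd F ω) V| ≤
        Y * (2 ^ a / 2 ^ g l) * nrm c (G (ptr F J ω)) g a l (bt F ω) V) →
    (∀ s l, (lam s l).natDegree ≤ D₁) →
    (∀ ω, B ω → ∀ V : Option (Fin m) → ℝ, V none = 0 →
      |∑ l ∈ range i, (lam (slam F w ω) l).eval (rt F w ω) * V (some (c l)) -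
        dd (G (ptr F J ω) i) (bt F ω) V| ≤
        Y / 2 ^ g i * nrm c (G (ptr F J ω)) g a i (bt F ω) V) →
    ∃ B' : F.Ω → Prop, Sub B' B ∧ Pe F.p B / 2 ≤ Pe F.p B' ∧
      ∀ ω, B' ω → ∀ V : Option (Fin m) → ℝ, V none = 0 →
      |∑ l ∈ range i, (Polynomial.derivative (lam (slam F w ω) l)).eval (rt F w ω) *
        V (some (c l))| ≤ 2 ^ (a - w) * (2 ^ (C * (k + 1)) / 2 ^ g i *
          nrm c (G (ptr F J ω)) g a i (bt F ω) V) := by
  classical
  obtain ⟨C₁, hC₁, hrem⟩ := rem_fam m (D₁ + D + D * i) i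
  obtain ⟨C₂, hC₂, hder⟩ := der_one (D₁ + D + D * i)
  obtain ⟨N₀, hN₀⟩ := pow_unbounded_of_one_lt (C₂ + i) (one_lt_two (α := ℝ))
  obtain ⟨C, hC⟩ : ∃ C : ℕ, C = 8 * i + 40 + 2 * N₀ + ⌈C₁⌉₊ := ⟨_, rfl⟩
  refine ⟨C, by omega, ?_⟩
  intro J F c w a k θ Y g B G H lam hB hc hwa ha hY2 hYk hθ hTm hCJ hexp hdH hpH hdif hW hcur
    hdl hspa
  have hCC : C₁ ≤ C := by
    refine (Nat.le_ceil C₁).trans ?_
    have : ⌈C₁⌉₊ ≤ C := by omega
    exact_mod_cast this
  have hθ1 : 0 ≤ θ + 1 := by linarith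
  have hexp1 : Real.exp (C₁ * (θ + 1)) ≤ 2 ^ k := (Real.exp_le_exp.2
    (mul_le_mul_of_nonneg_right hCC hθ1)).trans hexp
  have hc' : Set.InjOn c (Set.Iio i) := hc.mono fun y hy => by
    rw [Set.mem_Iio] at hy ⊢
    omega
  have hi0 : (0 : ℝ) ≤ i := Nat.cast_nonneg i
  have hY0 : 0 < Y := by linarith
  have hY1 : 1 ≤ Y := by linarith
  have hhd : ∀ s l, (hn c H s l).totalDegree ≤ D := fun s l => deg_Hno _ _ _ hD (hdH s l)
  have hhp : ∀ s l, DepC c l (hn c H s l) := fun s l => depC_Hno _ _ _ (hpH s l)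
  have hlcd : ∀ (s : LnT F) (P : MvPolynomial (Option (Fin m)) ℝ) (l : ℕ), P.totalDegree ≤ D →
      (MvPolynomial.aeval (lc a s) (pderiv (some (c l)) P)).natDegree ≤ D := fun s P l hP =>
    Pool.KBX.natDegree_aeval_le _ _ (natDegree_lc a s) (totalDegree_pdσ hP _)
  obtain ⟨lA, hlA⟩ : ∃ lA : LnT F → ℕ → Polynomial ℝ, lA = fun s l =>
      sh (a - w) (fun s => lam s l) s := ⟨_, rfl⟩
  have hlAd : ∀ s l, (lA s l).natDegree ≤ D₁ := fun s l => by
    rw [hlA]
    exact sh_deg _ (fun s => hdl s l) s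
  obtain ⟨ν, hν1, hν2⟩ := tri_pol (ι := LnT F) i D (D₁ + D)
    (fun s l => lA s l - MvPolynomial.aeval (lc a s) (pderiv (some (c l)) (hn c H s i)))
    (fun s l' l => MvPolynomial.aeval (lc a s) (pderiv (some (c l)) (hn c H s l')))
    (fun s l => (Polynomial.natDegree_sub_le _ _).trans (max_le
      ((hlAd s l).trans (Nat.le_add_right _ _))
      ((hlcd s _ l (hhd s i)).trans (Nat.le_add_left _ _))))
    (fun s l l' => hlcd s _ l' (hhd s l))
  have hx : ∀ ω, xt a (slam F a ω) (rt F a ω) = bt F ω := fun ω =>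
    funext fun o => eval_lc F ha ω o
  -- the identities at the own time
  have hid : ∀ ω (V : Option (Fin m) → ℝ), V none = 0 →
      (dd (hn c H (slam F a ω) i) (bt F ω) V + ∑ l ∈ range i,
        (ν (slam F a ω) l).eval (rt F a ω) *
          (V (some (c l)) - dd (hn c H (slam F a ω) l) (bt F ω) V) =
      ∑ l ∈ range i, (lam (slam F w ω) l).eval (rt F w ω) * V (some (c l))) ∧
      1 / 2 ^ a * hs (hn c H (slam F a ω) i) (bt F ω) (bd F ω) V + ∑ l ∈ range i,
        ((Polynomial.derivative (ν (slam F a ω) l)).eval (rt F a ω) *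
          (V (some (c l)) - dd (hn c H (slam F a ω) l) (bt F ω) V) -
          (ν (slam F a ω) l).eval (rt F a ω) * (1 / 2 ^ a *
            hs (hn c H (slam F a ω) l) (bt F ω) (bd F ω) V)) =
      1 / 2 ^ (a - w) * ∑ l ∈ range i,
        (Polynomial.derivative (lam (slam F w ω) l)).eval (rt F w ω) * V (some (c l)) := by
    intro ω V hV
    have h1 := tri_line (a := a) (s := slam F a ω) hc' (hhp (slam F a ω))
      (ν := ν (slam F a ω)) (lam := lA (slam F a ω)) (fun l hl => hν2 (slam F a ω) l hl)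
      (rt F a ω) hV
    rw [hx, wd_slam] at h1
    have e1 : ∀ l, (lA (slam F a ω) l).eval (rt F a ω) =
        (lam (slam F w ω) l).eval (rt F w ω) := fun l => by
      rw [hlA]
      exact sh_rt F hwa ha (fun s => lam s l) ω
    have e2 : ∀ l, (Polynomial.derivative (lA (slam F a ω) l)).eval (rt F a ω) =
        1 / 2 ^ (a - w) * (Polynomial.derivative (lam (slam F w ω) l)).eval (rt F w ω) := by
      intro l
      rw [hlA]
      exact sh_der_rt F hwa ha (fun s => lam s l) ω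
    simp only [e1, e2] at h1
    refine ⟨h1.1, h1.2.trans ?_⟩
    rw [Finset.mul_sum]
    exact Finset.sum_congr rfl fun l _ => by ring
  -- the norms of the closed ball chart
  have hnc : ∀ ω, B ω → Nc c g a i Y (fun j => grd (G (ptr F J ω) j) (bt F ω))
      (fun j => grd (hn c H (slam F a ω) j) (bt F ω)) := by
    intro ω hω l hl V
    rw [cv_subl, cv_grd, cv_grd, ← nrm_en]
    have h1 := (hdif ω hω l hl.le).1 V
    rwa [dd_sub] at h1
  have hle : ∀ ω, B ω → ∀ l ≤ i, ∀ V, nrm c (hn c H (slam F a ω)) g a l (bt F ω) V ≤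
      (1 + Y) ^ i * nrm c (G (ptr F J ω)) g a l (bt F ω) V := by
    intro ω hω l hl V
    have h1 := (hnc ω hω).en_le hY0.le hl V
    rwa [← nrm_en, ← nrm_en] at h1
  have hge : ∀ ω, B ω → ∀ l ≤ i, ∀ V, nrm c (G (ptr F J ω)) g a l (bt F ω) V ≤
      (1 + Y) ^ i * nrm c (hn c H (slam F a ω)) g a l (bt F ω) V := by
    intro ω hω l hl V
    have h1 := (hnc ω hω).en_ge hY0.le hl V
    rwa [← nrm_en, ← nrm_en] at h1
  have hY2p : 1 + Y ≤ Y ^ 2 := by nlinarith
  have hYi : (1 + Y) ^ i ≤ Y ^ (2 * i) := by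
    rw [pow_mul]
    exact pow_le_pow_left₀ (by linarith) hY2p i
  obtain ⟨Q, hQ⟩ : ∃ Q : ℝ, Q = (1 + Y) ^ i := ⟨_, rfl⟩
  have hQ1 : 1 ≤ Q := by rw [hQ]; exact one_le_pow₀ (by linarith)
  rw [← hQ] at hYi hle hge
  -- the natural components at the exact point
  have hνx : ∀ ω, B ω → ∀ l < i, |(ν (slam F a ω) l).eval (rt F a ω)| ≤
      2 * Y * Q * (2 ^ g l / 2 ^ g i) := by
    intro ω hω l hl
    obtain ⟨V, hV0, hV⟩ := vec_adapt hc' (hhp (slam F a ω)) (bt F ω) 0
      (fun j => if j = l then 1 else 0) i le_rfl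
    have h1 := (hid ω V hV0).1
    have h2 : ∑ j ∈ range i, (ν (slam F a ω) j).eval (rt F a ω) *
        (V (some (c j)) - dd (hn c H (slam F a ω) j) (bt F ω) V) =
        (ν (slam F a ω) l).eval (rt F a ω) := by
      rw [Finset.sum_eq_single l]
      · rw [hV l hl]
        simp
      · intro j hj hjl
        rw [hV j (Finset.mem_range.1 hj)]
        simp [hjl]
      · intro h
        exact absurd (Finset.mem_range.2 hl) h
    rw [h2] at h1
    have h3 := hspa ω hω V hV0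
    have h4 := (hdif ω hω i le_rfl).1 V
    rw [dd_sub] at h4
    have h5 : nrm c (hn c H (slam F a ω)) g a i (bt F ω) V = 2 ^ g l := by
      unfold nrm
      rw [hV0, abs_zero, mul_zero, zero_add, Finset.sum_eq_single l]
      · rw [hV l hl, if_pos rfl, abs_one, mul_one]
      · intro j hj hjl
        rw [hV j (Finset.mem_range.1 hj), if_neg hjl, abs_zero, mul_zero]
      · intro h
        exact absurd (Finset.mem_range.2 hl) h
    have h6 := hge ω hω i le_rfl V
    rw [h5] at h6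
    have e1 : (ν (slam F a ω) l).eval (rt F a ω) =
        (∑ l ∈ range i, (lam (slam F w ω) l).eval (rt F w ω) * V (some (c l)) -
          dd (G (ptr F J ω) i) (bt F ω) V) -
        (dd (hn c H (slam F a ω) i) (bt F ω) V - dd (G (ptr F J ω) i) (bt F ω) V) := by
      linarith
    rw [e1]
    refine (abs_sub _ _).trans ((add_le_add h3 h4).trans ?_)
    calc Y / 2 ^ g i * nrm c (G (ptr F J ω)) g a i (bt F ω) V +
          Y / 2 ^ g i * nrm c (G (ptr F J ω)) g a i (bt F ω) V =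
          2 * (Y / 2 ^ g i) * nrm c (G (ptr F J ω)) g a i (bt F ω) V := by ring
      _ ≤ 2 * (Y / 2 ^ g i) * (Q * 2 ^ g l) := mul_le_mul_of_nonneg_left h6 (by positivity)
      _ = _ := by ring
  -- on the window
  obtain ⟨B', k1, k2, k3⟩ := hrem J F B hB a (fun l s => ν s l)
    (fun l => 2 * Y * Q * (2 ^ g l / 2 ^ g i)) θ ha (fun l _ s => hν1 s l)
    (fun l _ => by positivity) hθ hTm
    (le_trans (mul_le_mul_of_nonneg_right hCC (by linarith)) hCJ) hνx
  refine ⟨B', k1, k2, fun ω hω V hV => ?_⟩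
  have hωB := k1 ω hω
  obtain ⟨M, hM⟩ : ∃ M : ℝ, M = 2 ^ k * (2 * Y * Q) := ⟨_, rfl⟩
  have hM0 : 0 ≤ M := by rw [hM]; positivity
  have hνw : ∀ l < i, ∀ τ ∈ Set.Icc (0 : ℝ) 1, |(ν (slam F a ω) l).eval τ| ≤
      M * (2 ^ g l / 2 ^ g i) := by
    intro l hl τ hτ
    refine (k3 ω hω l hl τ hτ).trans ?_
    rw [hM]
    calc Real.exp (C₁ * (θ + 1)) * (2 * Y * Q * (2 ^ g l / 2 ^ g i)) ≤
          2 ^ k * (2 * Y * Q * (2 ^ g l / 2 ^ g i)) :=
          mul_le_mul_of_nonneg_right hexp1 (by positivity)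
      _ = _ := by ring
  have hr1 : |rt F a ω| ≤ 1 := by
    rw [abs_of_nonneg (rt_mem F a ω).1]
    exact (rt_mem F a ω).2
  obtain ⟨X, hX⟩ : ∃ X, X = nrm c (G (ptr F J ω)) g a i (bt F ω) V := ⟨_, rfl⟩
  have hX0 : 0 ≤ X := by rw [hX]; exact nrm_nonneg _ _ _ _ _ _ _
  have hXl : ∀ l ≤ i, nrm c (G (ptr F J ω)) g a l (bt F ω) V ≤ X := fun l hl => by
    rw [hX]
    exact Pool.RCV.nrm_pre _ _ _ _ hl _ _
  have hnX : nrm c (hn c H (slam F a ω)) g a i (bt F ω) V ≤ Q * X := by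
    rw [hX]
    exact hle ω hωB i le_rfl V
  -- the closed curvature
  have hcl := cur_cl (c := c) (g := g) (a := a) (n := i + 1) (U := Y) (K := Y) (W₀ := Y)
    (G := G (ptr F J ω)) (ψ := hn c H (slam F a ω)) (x := bt F ω) (W := bd F ω) hY0.le hY0.le
    hY0.le (fun l hl => (hdif ω hωB l (by omega)).1) (fun l hl => (hdif ω hωB l (by omega)).2)
    (fun l hl => (Pool.RCV.nrm_pre _ _ _ _ (by omega) _ _).trans (hW ω hωB))
    (fun l hl => hcur ω hωB l (by omega))
  obtain ⟨K, hK⟩ : ∃ K : ℝ, K = (Y + Y * Y + Y * ((i + 1 : ℕ) * Y)) * (1 + Y) ^ (i + 1) :=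
    ⟨_, rfl⟩
  rw [← hK] at hcl
  have hK0 : 0 ≤ K := by rw [hK]; positivity
  have hcl' : ∀ l ≤ i, |hs (hn c H (slam F a ω) l) (bt F ω) (bd F ω) V| ≤
      K * Q * (2 ^ a / 2 ^ g l) * X := by
    intro l hl
    refine (hcl l (by omega) V).trans ?_
    have h1 : Nv c l a g (hn c H (slam F a ω)) (bt F ω) V ≤ Q * X := by
      rw [nv_en, ← nrm_en]
      exact (Pool.RCV.nrm_pre _ _ _ _ hl _ _).trans hnX
    calc K * (2 ^ a / 2 ^ g l) * Nv c l a g (hn c H (slam F a ω)) (bt F ω) V ≤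
          K * (2 ^ a / 2 ^ g l) * (Q * X) := mul_le_mul_of_nonneg_left h1 (by positivity)
      _ = _ := by ring
  -- the bound
  have h7 := (hid ω V hV).2
  have h8 : |∑ l ∈ range i, (Polynomial.derivative (lam (slam F w ω) l)).eval (rt F w ω) *
      V (some (c l))| = 2 ^ (a - w) * |1 / 2 ^ (a - w) * ∑ l ∈ range i,
        (Polynomial.derivative (lam (slam F w ω) l)).eval (rt F w ω) * V (some (c l))| := by
    rw [abs_mul, abs_of_pos (show (0 : ℝ) < 1 / 2 ^ (a - w) by positivity), ← mul_assoc,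
      mul_one_div, div_self (by positivity), one_mul]
  rw [h8, ← h7]
  refine mul_le_mul_of_nonneg_left ?_ (by positivity)
  have t0 : |1 / 2 ^ a * hs (hn c H (slam F a ω) i) (bt F ω) (bd F ω) V| ≤
      K * Q / 2 ^ g i * X := by
    rw [abs_mul, abs_of_pos (show (0 : ℝ) < 1 / 2 ^ a by positivity)]
    calc 1 / 2 ^ a * |hs (hn c H (slam F a ω) i) (bt F ω) (bd F ω) V| ≤
          1 / 2 ^ a * (K * Q * (2 ^ a / 2 ^ g i) * X) :=
          mul_le_mul_of_nonneg_left (hcl' i le_rfl) (by positivity)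
      _ = _ := by field_simp
  have t1 : ∀ l ∈ range i, |(Polynomial.derivative (ν (slam F a ω) l)).eval (rt F a ω) *
        (V (some (c l)) - dd (hn c H (slam F a ω) l) (bt F ω) V) -
        (ν (slam F a ω) l).eval (rt F a ω) * (1 / 2 ^ a *
          hs (hn c H (slam F a ω) l) (bt F ω) (bd F ω) V)| ≤
      C₂ * M / 2 ^ g i * (2 ^ g l * |V (some (c l)) - dd (hn c H (slam F a ω) l) (bt F ω) V|) +
        M * (K * Q) / 2 ^ g i * X := by
    intro l hl
    have hl' := Finset.mem_range.1 hl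
    have d1 := hder _ _ (hν1 (slam F a ω) l) (hνw l hl') (rt F a ω) hr1
    have d2 := hνw l hl' (rt F a ω) (rt_mem F a ω)
    refine (abs_sub _ _).trans (add_le_add ?_ ?_)
    · rw [abs_mul]
      refine (mul_le_mul_of_nonneg_right d1 (abs_nonneg _)).trans (le_of_eq ?_)
      ring
    · rw [abs_mul, abs_mul, abs_of_pos (show (0 : ℝ) < 1 / 2 ^ a by positivity)]
      calc |(ν (slam F a ω) l).eval (rt F a ω)| *
            (1 / 2 ^ a * |hs (hn c H (slam F a ω) l) (bt F ω) (bd F ω) V|) ≤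
            (M * (2 ^ g l / 2 ^ g i)) * (1 / 2 ^ a * (K * Q * (2 ^ a / 2 ^ g l) * X)) :=
            mul_le_mul d2 (mul_le_mul_of_nonneg_left (hcl' l hl'.le) (by positivity))
              (by positivity) (by positivity)
        _ = _ := by field_simp
  have t2 : ∑ l ∈ range i, (C₂ * M / 2 ^ g i * (2 ^ g l *
      |V (some (c l)) - dd (hn c H (slam F a ω) l) (bt F ω) V|) +
        M * (K * Q) / 2 ^ g i * X) ≤ C₂ * M / 2 ^ g i * (Q * X) +
        i * (M * (K * Q) / 2 ^ g i * X) := by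
    rw [Finset.sum_add_distrib, ← Finset.mul_sum, Finset.sum_const, Finset.card_range,
      nsmul_eq_mul]
    refine add_le_add (mul_le_mul_of_nonneg_left ?_ (by positivity)) le_rfl
    refine le_trans ?_ hnX
    unfold nrm
    have : (0 : ℝ) ≤ 2 ^ a * |V none| := by positivity
    linarith
  refine (abs_add_le _ _).trans ((add_le_add t0 ((Finset.abs_sum_le_sum_abs _ _).trans
    ((Finset.sum_le_sum t1).trans t2))).trans ?_)
  -- the numbers
  have e1 : K * Q / 2 ^ g i * X + (C₂ * M / 2 ^ g i * (Q * X) +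
      i * (M * (K * Q) / 2 ^ g i * X)) = (K * Q + C₂ * M * Q + i * (M * (K * Q))) / 2 ^ g i * X := by
    ring
  rw [e1, ← hX]
  refine mul_le_mul_of_nonneg_right (div_le_div_of_nonneg_right ?_ (by positivity)) hX0
  have hk1 : (1 : ℝ) ≤ 2 ^ k := one_le_pow₀ (by norm_num)
  have hQk : Q ≤ 2 ^ (2 * i * k) := by
    refine hYi.trans ?_
    calc Y ^ (2 * i) ≤ (2 ^ k) ^ (2 * i) := pow_le_pow_left₀ hY0.le hYk _
      _ = 2 ^ (2 * i * k) := by rw [← pow_mul]; congr 1; ring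
  have hN1 : C₂ ≤ 2 ^ N₀ := by linarith
  have hN2 : (i : ℝ) ≤ 2 ^ N₀ := by linarith
  have hKk : K ≤ 2 ^ (N₀ + 4 + 4 * k + 2 * i * k) := by
    rw [hK]
    have a1 : (1 + Y) ^ (i + 1) ≤ 2 ^ (2 * i * k) * 2 ^ (2 * k) := by
      rw [pow_succ, ← hQ]
      refine mul_le_mul hQk ?_ (by linarith) (by positivity)
      calc 1 + Y ≤ Y ^ 2 := hY2p
        _ ≤ (2 ^ k) ^ 2 := pow_le_pow_left₀ hY0.le hYk 2
        _ = 2 ^ (2 * k) := by rw [← pow_mul]; congr 1; ring
    have a2 : Y + Y * Y + Y * ((i + 1 : ℕ) * Y) ≤ 2 ^ (N₀ + 4) * 2 ^ (2 * k) := by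
      have b1 : Y ≤ Y * Y := by nlinarith
      have b2 : ((i + 1 : ℕ) : ℝ) ≤ 2 ^ N₀ + 1 := by
        push_cast
        linarith
      have b3 : (1 : ℝ) ≤ 2 ^ N₀ := one_le_pow₀ (by norm_num)
      have b4 : Y * Y ≤ 2 ^ (2 * k) := by
        calc Y * Y = Y ^ 2 := by ring
          _ ≤ (2 ^ k) ^ 2 := pow_le_pow_left₀ hY0.le hYk 2
          _ = 2 ^ (2 * k) := by rw [← pow_mul]; congr 1; ring
      have b5 : Y + Y * Y + Y * ((i + 1 : ℕ) * Y) ≤ (4 * 2 ^ N₀) * (Y * Y) := by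
        have : Y * ((i + 1 : ℕ) * Y) = ((i + 1 : ℕ) : ℝ) * (Y * Y) := by ring
        rw [this]
        nlinarith [mul_self_nonneg Y]
      refine b5.trans ?_
      have b6 : (4 : ℝ) * 2 ^ N₀ ≤ 2 ^ (N₀ + 4) := by
        rw [pow_add]
        norm_num
        linarith
      exact mul_le_mul b6 b4 (by positivity) (by positivity)
    refine (mul_le_mul a2 a1 (by positivity) (by positivity)).trans (le_of_eq ?_)
    rw [← pow_add, ← pow_add, ← pow_add]
    congr 1
    ring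
  have hMk : M ≤ 2 ^ (2 * k + 1 + 2 * i * k) := by
    rw [hM]
    calc (2 : ℝ) ^ k * (2 * Y * Q) ≤ 2 ^ k * (2 * 2 ^ k * 2 ^ (2 * i * k)) := by
          refine mul_le_mul_of_nonneg_left (mul_le_mul (mul_le_mul_of_nonneg_left hYk
            (by norm_num)) hQk (by linarith) (by positivity)) (by positivity)
      _ = _ := by ring
  have c1 : K * Q ≤ 2 ^ (N₀ + 4 + 4 * k + 4 * i * k) := by
    refine (mul_le_mul hKk hQk (by linarith) (by positivity)).trans (le_of_eq ?_)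
    rw [← pow_add]
    congr 1
    ring
  have c2 : C₂ * M * Q ≤ 2 ^ (N₀ + 1 + 2 * k + 4 * i * k) := by
    refine (mul_le_mul (mul_le_mul hN1 hMk hM0 (by positivity)) hQk (by linarith)
      (by positivity)).trans (le_of_eq ?_)
    rw [← pow_add, ← pow_add]
    congr 1
    ring
  have c3 : i * (M * (K * Q)) ≤ 2 ^ (2 * N₀ + 5 + 6 * k + 6 * i * k) := by
    refine (mul_le_mul hN2 (mul_le_mul hMk c1 (by positivity) (by positivity))
      (by positivity) (by positivity)).trans (le_of_eq ?_)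
    rw [← pow_add, ← pow_add]
    congr 1
    ring
  have hb : ∀ x : ℕ, x + 2 ≤ C * (k + 1) → (2 : ℝ) ^ x ≤ 2 ^ (C * (k + 1)) / 4 := by
    intro x hx
    rw [le_div_iff₀ (by norm_num)]
    calc (2 : ℝ) ^ x * 4 = 2 ^ (x + 2) := by rw [pow_add]; norm_num
      _ ≤ _ := pow_le_pow_right₀ (by norm_num) hx
  have hCk : 2 * N₀ + 7 + 6 * k + 6 * i * k ≤ C * (k + 1) := by
    rw [hC]
    have e2 : (8 * i + 40 + 2 * N₀ + ⌈C₁⌉₊) * (k + 1) = 8 * i * k + 8 * i + 40 * k + 40 +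
        (2 * N₀) * (k + 1) + ⌈C₁⌉₊ * (k + 1) := by ring
    rw [e2]
    have e3 : 2 * N₀ ≤ 2 * N₀ * (k + 1) := Nat.le_mul_of_pos_right _ (Nat.succ_pos k)
    have e4 : 6 * i * k ≤ 8 * i * k := by nlinarith [Nat.zero_le (i * k)]
    omega
  have f1 := c1.trans (hb _ (by nlinarith [Nat.zero_le (i * k)]))
  have f2 := c2.trans (hb _ (by nlinarith [Nat.zero_le (i * k)]))
  have f3 := c3.trans (hb _ (by omega))
  have f4 : (0 : ℝ) < 2 ^ (C * (k + 1)) := by positivity
  linarith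

end Pool.D2T
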