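import Pool.Agent.H66.D2.Cfo
import Pool.Agent.H66.D2.Der
import Pool.Agent.H40.D2A.Afd
import Pool.Agent.H60.D2.Zg

/-!
# The package of a static cell

`StP`: closed charts `Xc l` and a closed row label `Φ` on the window `t`, visible covectors `σ`, `γ`,
`Γ`, the ball `K`, the thin radius `A`. `stp_afd`: with closed corrections `δp` of the static
directions, natural at the ball, the corrected tower is an affine tower (`AfD`) on a part of the event.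
-/

set_option autoImplicit false

namespace Pool.TN

open Finset Real MvPolynomial
open Pool.Agent.H49.Ent Pool.Agent.H32.Dense Pool.STK Pool.KA Pool.KSAT Pool.K2S Pool.PB Pool.S6C
open Pool.GEN Pool.CHT Pool.CHX Pool.ISO Pool.D2R Pool.D2Z Pool.D2F
open Pool.FLF (Fam.sub)
open Pool.PB.Trl (rt rt_mem t_rt)
open Pool.AFT (AfO AfD ab)
open Pool.D2T (der_of)

variable {m J : ℕ}

/-! ### Larger constants -/

theorem Nmb.mono {n : ℕ} {Sc : ℕ → Prop} {gK g' gT : ℕ → ℕ} {gN p : ℕ} {Y Y' : ℝ}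
    (h : Nmb n Sc gK g' gT gN p Y) (hY : Y ≤ Y') : Nmb n Sc gK g' gT gN p Y' :=
  ⟨h.y2.trans hY, h.yn.trans hY,
    fun l hl hs => (h.sT l hl hs).trans (mul_le_mul_of_nonneg_right hY (by positivity)),
    fun l hl hs => (h.sg l hl hs).trans (mul_le_mul_of_nonneg_right hY (by positivity)),
    fun l hl hs => (h.rT l hl hs).trans (mul_le_mul_of_nonneg_right hY (by positivity)),
    fun l hl => (h.rK l hl).trans (mul_le_mul_of_nonneg_right hY (by positivity)),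
    fun j hj hs x hx => (h.tg j hj hs x hx).trans (mul_le_mul_of_nonneg_right hY (by positivity))⟩

theorem ChC.mono {c : ℕ → Fin m} {n : ℕ} {Sc : ℕ → Prop} {gK g' : ℕ → ℕ} {Y Y' : ℝ}
    {κ Γ : ℕ → Option (Fin m) → ℝ} (h : ChC c n Sc gK g' Y κ Γ) (hY : Y ≤ Y') :
    ChC c n Sc gK g' Y' κ Γ :=
  ⟨h.cκ, h.cΓ, fun l hl hs V h0 => (h.h1 l hl hs V h0).trans (mul_le_mul_of_nonneg_right
    (div_le_div_of_nonneg_right hY (by positivity)) (sz_nonneg _ _ _ _ _)),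
    fun l hl hs V h0 => (h.h2 l hl hs V h0).trans (mul_le_mul_of_nonneg_right
    (div_le_div_of_nonneg_right hY (by positivity)) (sz_nonneg _ _ _ _ _))⟩

theorem RwC.mono {c : ℕ → Fin m} {n : ℕ} {Sc : ℕ → Prop} {gK g' gT : ℕ → ℕ} {gN p : ℕ}
    {Y Y' : ℝ} {κ Γ : ℕ → Option (Fin m) → ℝ} {φ ΓN : Option (Fin m) → ℝ} {δ : ℕ → ℝ}
    (h : RwC c n Sc gK g' gT gN p Y κ Γ φ ΓN δ) (hY : Y ≤ Y') :
    RwC c n Sc gK g' gT gN p Y' κ Γ φ ΓN δ :=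
  ⟨h.ch.mono hY, h.cφ, h.cN, fun V h0 => (h.row V h0).trans (add_le_add
    (mul_le_mul_of_nonneg_right (div_le_div_of_nonneg_right hY (by positivity))
      (sz_nonneg _ _ _ _ _)) (mul_le_mul_of_nonneg_right (div_le_div_of_nonneg_right hY
      (by positivity)) (sz_nonneg _ _ _ _ _))),
    fun l hl hs => (h.del l hl hs).trans (mul_le_mul_of_nonneg_right hY (by positivity))⟩

/-! ### The closed gradients as polynomials of the relative time -/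

/-- The gradients of closed charts along the line. -/
noncomputable def kpol {F : Fam m J} (c : ℕ → Fin m) (t : ℕ)
    (Q : LnT F → MvPolynomial (Option (Fin m)) ℝ) (s : LnT F) (j : ℕ) : Polynomial ℝ :=
  MvPolynomial.aeval (lc t s) (pderiv (some (c j)) (Q s))

theorem kpol_deg {F : Fam m J} (c : ℕ → Fin m) (t : ℕ)
    {Q : LnT F → MvPolynomial (Option (Fin m)) ℝ} {D : ℕ} (h : ∀ s, (Q s).totalDegree ≤ D)
    (s : LnT F) (j : ℕ) : (kpol c t Q s j).natDegree ≤ D :=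
  Pool.KBX.natDegree_aeval_le _ _ (natDegree_lc t s) (totalDegree_pdσ (h s) _)

theorem xt_bt (F : Fam m J) {t : ℕ} (ht : t ≤ J) (ω : F.Ω) :
    xt t (slam F t ω) (rt F t ω) = bt F ω := funext fun o => eval_lc F ht ω o

theorem kpol_rt (F : Fam m J) (c : ℕ → Fin m) {t : ℕ} (ht : t ≤ J)
    (Q : LnT F → MvPolynomial (Option (Fin m)) ℝ) (ω : F.Ω) (j : ℕ) :
    (kpol c t Q (slam F t ω) j).eval (rt F t ω) =
      grd (Q (slam F t ω)) (bt F ω) (some (c j)) := by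
  unfold kpol
  rw [eval_lcR, xt_bt F ht]
  rfl

theorem kpol_der (F : Fam m J) (c : ℕ → Fin m) {t : ℕ} (ht : t ≤ J)
    (Q : LnT F → MvPolynomial (Option (Fin m)) ℝ) (ω : F.Ω) (j : ℕ) :
    (Polynomial.derivative (kpol c t Q (slam F t ω) j)).eval (rt F t ω) =
      1 / 2 ^ t * dd (pderiv (some (c j)) (Q (slam F t ω))) (bt F ω) (bd F ω) := by
  unfold kpol
  rw [der_R, xt_bt F ht, wd_slam]

/-- The second derivative as a sum over the coordinates of the chain. -/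
theorem hs_sum_c {c : ℕ → Fin m} {l : ℕ} (hc : Set.InjOn c (Set.Iio l))
    {Q : MvPolynomial (Option (Fin m)) ℝ} (hQ : DepC c l Q) (x W : Option (Fin m) → ℝ)
    {V : Option (Fin m) → ℝ} (h0 : V none = 0) :
    hs Q x W V = ∑ j ∈ range l, dd (pderiv (some (c j)) Q) x W * V (some (c j)) := by
  obtain ⟨φ, hφ⟩ : ∃ φ : Option (Fin m) → ℝ, φ = fun o => dd (pderiv o Q) x W := ⟨_, rfl⟩
  have h1 : hs Q x W V = cv φ V := by
    rw [hφ]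
    rfl
  have h2 : CvC c l φ := by
    intro k hk
    rw [hφ]
    show dd (pderiv (some k) Q) x W = 0
    rw [pd_zero' hQ fun j hj h => hk j hj h.symm]
    unfold dd
    simp
  rw [h1, cv_eq hc h2, h0, mul_zero, zero_add, hφ]

theorem kpol_hs (F : Fam m J) {c : ℕ → Fin m} {l t : ℕ} (hc : Set.InjOn c (Set.Iio l))
    (ht : t ≤ J) {Q : LnT F → MvPolynomial (Option (Fin m)) ℝ} (hQ : ∀ s, DepC c l (Q s))
    (ω : F.Ω) {V : Option (Fin m) → ℝ} (h0 : V none = 0) :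
    ∑ j ∈ range l, (Polynomial.derivative (kpol c t Q (slam F t ω) j)).eval (rt F t ω) *
      V (some (c j)) = 1 / 2 ^ t * hs (Q (slam F t ω)) (bt F ω) (bd F ω) V := by
  rw [hs_sum_c hc (hQ _) _ _ h0, Finset.mul_sum]
  refine Finset.sum_congr rfl fun j _ => ?_
  rw [kpol_der F c ht]
  ring

/-- The gradient of the closed charts at the sample. -/
noncomputable def kc {F : Fam m J} (t : ℕ) (Xc : LnT F → ℕ → MvPolynomial (Option (Fin m)) ℝ)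
    (ω : F.Ω) (l : ℕ) : Option (Fin m) → ℝ := grd (Xc (slam F t ω) l) (bt F ω)

/-- The visible corrections. -/
noncomputable def dvi {F : Fam m J} (c : ℕ → Fin m) (r : ℕ) (Sc : ℕ → Prop)
    (σ Γ : PtT F → ℕ → Option (Fin m) → ℝ) (γ : PtT F → Option (Fin m) → ℝ) (y : PtT F)
    (l : ℕ) : ℝ := cv (Γ y r - γ y) (ev c r (mx Sc (σ y) (Γ y)) l)

/-- **The package.** -/
structure StP (F : Fam m J) (c : ℕ → Fin m) (r : ℕ) (Sc : ℕ → Prop) (D t K A e d : ℕ)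
    (gK g' gT : ℕ → ℕ) (p : ℕ) (Y : ℝ) (B : F.Ω → Prop)
    (GK : PtT F → ℕ → MvPolynomial (Option (Fin m)) ℝ)
    (HK Xc : LnT F → ℕ → MvPolynomial (Option (Fin m)) ℝ)
    (Φ : LnT F → MvPolynomial (Option (Fin m)) ℝ)
    (σ Γ : PtT F → ℕ → Option (Fin m) → ℝ) (γ : PtT F → Option (Fin m) → ℝ) : Prop where
  num : Nmb r Sc gK g' gT (gK r) p Y
  dX : ∀ s l, (Xc s l).totalDegree ≤ D
  dP : ∀ s, (Φ s).totalDegree ≤ D
  dH : ∀ s l, (HK s l).totalDegree ≤ D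
  pX : ∀ s l, DepC c l (Xc s l)
  pP : ∀ s, DepC c r (Φ s)
  pH : ∀ s l, DepC c l (HK s l)
  cσ : ∀ y l, CvC c l (σ y l)
  cΓ : ∀ y l, CvC c l (Γ y l)
  cγ : ∀ y, CvC c r (γ y)
  nb : ∀ ω, B ω → Nc c gK K (r + 1) Y (fun l => grd (GK (ptr F J ω) l) (bt F ω))
    (Γ (ptr F J ω))
  dif : ∀ ω, B ω → ∀ l ≤ r, (∀ V : Option (Fin m) → ℝ,
    |dd (hn c HK (slam F K ω) l - GK (ptr F J ω) l) (bt F ω) V| ≤
      Y / 2 ^ gK l * nrm c (GK (ptr F J ω)) gK K l (bt F ω) V) ∧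
    ∀ V V' Z : Option (Fin m) → ℝ,
    |hs (hn c HK (slam F K ω) l - GK (ptr F J ω) l) (bt F ω) V V' +
      dd (hn c HK (slam F K ω) l - GK (ptr F J ω) l) (bt F ω) Z| ≤
      Y / 2 ^ gK l * (nrm c (GK (ptr F J ω)) gK K l (bt F ω) V *
        nrm c (GK (ptr F J ω)) gK K l (bt F ω) V' +
        nrz c (GK (ptr F J ω)) gK K l (bt F ω) V V' Z)
  vb : ∀ ω, B ω → nrm c (GK (ptr F J ω)) gK K r (bt F ω) (bd F ω) ≤ Y * 2 ^ K
  cur : ∀ ω, B ω → ∀ l ≤ r, ∀ V : Option (Fin m) → ℝ,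
    |hs (GK (ptr F J ω) l) (bt F ω) (bd F ω) V| ≤
      Y * (2 ^ K / 2 ^ gK l) * nrm c (GK (ptr F J ω)) gK K l (bt F ω) V
  h1 : ∀ ω, B ω → ∀ l < r, Sc l → ∀ V : Option (Fin m) → ℝ, V none = 0 →
    |cv (kc t Xc ω l - Γ (ptr F J ω) l) V| ≤ Y / 2 ^ gK l * sz c gK (Γ (ptr F J ω)) l V
  h1' : ∀ ω, B ω → ∀ l < r, Sc l → ∀ V : Option (Fin m) → ℝ, V none = 0 →
    |cv (σ (ptr F J ω) l - Γ (ptr F J ω) l) V| ≤ Y / 2 ^ gK l * sz c gK (Γ (ptr F J ω)) l V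
  h2 : ∀ ω, B ω → ∀ l < r, ¬ Sc l → ∀ V : Option (Fin m) → ℝ, V none = 0 →
    |cv (Γ (ptr F J ω) l - kc t Xc ω l) V| ≤ Y / 2 ^ g' l * sz c g' (kc t Xc ω) l V
  h2' : ∀ ω, B ω → ∀ l < r, ¬ Sc l → ∀ V : Option (Fin m) → ℝ, V none = 0 →
    |cv (Γ (ptr F J ω) l - σ (ptr F J ω) l) V| ≤ Y / 2 ^ g' l * sz c g' (σ (ptr F J ω)) l V
  rw1 : ∀ ω, B ω → ∀ V : Option (Fin m) → ℝ, V none = 0 →
    |cv (grd (Φ (slam F t ω)) (bt F ω) - Γ (ptr F J ω) r) V| ≤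
      Y / 2 ^ p * sz c gT (kc t Xc ω) r V + Y / 2 ^ gK r * sz c gK (Γ (ptr F J ω)) r V
  rw2 : ∀ ω, B ω → ∀ V : Option (Fin m) → ℝ, V none = 0 →
    |cv (γ (ptr F J ω) - Γ (ptr F J ω) r) V| ≤
      Y / 2 ^ p * sz c gT (σ (ptr F J ω)) r V + Y / 2 ^ gK r * sz c gK (Γ (ptr F J ω)) r V
  ag : ∀ ω, B ω → ∀ V : Option (Fin m) → ℝ, V none = 0 →
    |cv (grd (Φ (slam F t ω)) (bt F ω) - γ (ptr F J ω)) V| ≤
      Y / 2 ^ p * sz c gT (kc t Xc ω) r V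
  ch : ∀ ω, B ω → ∀ l < r, Sc l → ∀ V : Option (Fin m) → ℝ, V none = 0 →
    |cv (kc t Xc ω l - σ (ptr F J ω) l) V| ≤ Y / 2 ^ gT l * sz c gT (kc t Xc ω) l V
  rg : ∀ ω, B ω → ∀ l < r, ¬ Sc l → ∀ V : Option (Fin m) → ℝ, V none = 0 →
    |cv (kc t Xc ω l - σ (ptr F J ω) l) V| ≤ Y / 2 ^ g' l * sz c g' (kc t Xc ω) l V
  vl : ∀ ω, B ω → ∀ l < r, |bd F ω (some (c l)) - cv (σ (ptr F J ω) l) (bd F ω)| ≤
    Y * (2 ^ K / 2 ^ g' l)
  vs : ∀ ω, B ω → ∀ l < r, Sc l → |bd F ω (some (c l)) - cv (σ (ptr F J ω) l) (bd F ω)| ≤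
    Y * 2 ^ A / 2 ^ gT l
  vn : ∀ ω, B ω → |bd F ω (some (c r)) - cv (γ (ptr F J ω)) (bd F ω)| ≤ Y * 2 ^ A / 2 ^ p
  vA : (2 : ℝ) ^ A / 2 ^ p ≤ Y * (2 ^ K / 2 ^ gK r)
  lσ : ∀ ω, B ω → ∀ l < r, ∀ j < l, |σ (ptr F J ω) l (some (c j))| ≤ 2 ^ (e + nlp g' j l)
  lΓ : ∀ ω, B ω → ∀ l ≤ r, ∀ j < l, |Γ (ptr F J ω) l (some (c j))| ≤ 2 ^ (e + nlp gK j l)
  gd : ∀ x < r, gK x ≤ g' x + d
  hr : ∀ ω, B ω → ∀ l < r, ¬ Sc l → ∀ V : Option (Fin m) → ℝ, V none = 0 →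
    |hs (Xc (slam F t ω) l) (bt F ω) (bd F ω) V| ≤ Y * 2 ^ K / 2 ^ g' l *
      sz c g' (kc t Xc ω) l V
  x2 : ∀ ω, B ω → ∀ l < r, Sc l → ∀ x < l, ¬ Sc x →
    |hs (Xc (slam F t ω) l) (bt F ω) (bd F ω)
      (ev c l (mx Sc (kc t Xc ω) (Γ (ptr F J ω))) x)| ≤ Y * 2 ^ K / 2 ^ gK l * 2 ^ g' x

/-- **The corrections** of the static directions: closed polynomials, natural at the ball, and the
gain in the rough directions. -/
structure DlP (F : Fam m J) (c : ℕ → Fin m) (r : ℕ) (Sc : ℕ → Prop) (D₁ t K : ℕ)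
    (gK g' : ℕ → ℕ) (Y : ℝ) (B : F.Ω → Prop)
    (Xc : LnT F → ℕ → MvPolynomial (Option (Fin m)) ℝ)
    (Φ : LnT F → MvPolynomial (Option (Fin m)) ℝ)
    (Γ : PtT F → ℕ → Option (Fin m) → ℝ) (δp : LnT F → ℕ → Polynomial ℝ) : Prop where
  deg : ∀ s l, (δp s l).natDegree ≤ D₁
  del : ∀ ω, B ω → ∀ l < r, Sc l → |(δp (slam F t ω) l).eval (rt F t ω) -
    cv (Γ (ptr F J ω) r - grd (Φ (slam F t ω)) (bt F ω))
      (ev c r (mx Sc (kc t Xc ω) (Γ (ptr F J ω))) l)| ≤ Y * (2 ^ gK l / 2 ^ gK r)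
  x5 : ∀ ω, B ω → ∀ x < r, ¬ Sc x → |hs (Φ (slam F t ω)) (bt F ω) (bd F ω)
      (ev c r (mx Sc (kc t Xc ω) (Γ (ptr F J ω))) x) -
    ∑ l ∈ range r, wt Sc (fun l => (δp (slam F t ω) l).eval (rt F t ω)) l *
      hs (Xc (slam F t ω) l) (bt F ω) (bd F ω)
        (ev c r (mx Sc (kc t Xc ω) (Γ (ptr F J ω))) x)| ≤ Y * 2 ^ K / 2 ^ gK r * 2 ^ g' x

end Pool.TN
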