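import Pool.Agent.H66.D2.Wfa
import Pool.Agent.H66.D2.Sp
import Pool.Agent.H66.D2.Labs
import Pool.Agent.H66.D2.Rmv
import Pool.Agent.H66.D2.Rcl
import Pool.Agent.H64.F5.NatH

/-!
# The event of a static cell

`CEv`: finitely many windows `w k`, `k ≤ N`, with the common radius `A`, on one event: the balls, the
thin chains (`Sc`: the static coordinates), the row labels, the labels of the chain coordinates, the
natural curvature, the numbers; `cl`: the loss (number of digits). `cev_of`: from the event of the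
windows.
-/

set_option autoImplicit false

namespace Pool.TN

open Finset Real MvPolynomial
open Pool.Agent.H49.Ent Pool.Agent.H32.Dense Pool.STK Pool.KA Pool.KSAT Pool.K2S Pool.PB Pool.S6C
open Pool.GEN Pool.CHT Pool.CHX Pool.ISO Pool.D2R Pool.D2Z Pool.D2F
open Pool.FLF (Fam.sub)
open Pool.PB.Trl (rt rt_mem t_rt)

variable {m J : ℕ}

/-- **The event of a static cell.** -/
structure CEv (F : Fam m J) (c : ℕ → Fin m) (r D Dr N M A cl : ℕ) (Sc : ℕ → Prop)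
    (w e h pp : ℕ → ℕ) (z g gc gT g₀ : ℕ → ℕ → ℕ) (κ : ℝ) (B : F.Ω → Prop)
    (G : ℕ → PtT F → ℕ → MvPolynomial (Option (Fin m)) ℝ)
    (H : ℕ → LnT F → ℕ → MvPolynomial (Option (Fin m)) ℝ)
    (T : ℕ → PtT F → ℕ → MvPolynomial (Option (Fin m)) ℝ)
    (TH : ℕ → LnT F → ℕ → MvPolynomial (Option (Fin m)) ℝ)
    (Gt : ℕ → PtT F → MvPolynomial (Option (Fin m)) ℝ)
    (Ht : ℕ → LnT F → MvPolynomial (Option (Fin m)) ℝ) : Prop where
  inj : Set.InjOn c (Set.Iio (r + 1))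
  AJ : A ≤ J
  wA : ∀ k ≤ N, w k ≤ A
  evs : ∀ k ≤ N, EvS F c r D Dr (w k) (A - w k) M (z k) (e k) (h k) (pp k) (fun l => ¬ Sc l)
    (g k) (gc k) (gT k) (g₀ k) κ B (G k) (H k) (T k) (TH k) (Gt k) (Ht k)
  bal : BalE F c r N M A w z g gc gT g₀ (2 ^ cl) B G T
  row : ∀ i ≤ N, ∀ j ≤ N, w i ≤ w j → ∀ q : ℕ, q + cl ≤ pp i → q + cl ≤ gc j r →
    ROut1 F c r (w i) (w j) (A - w j) (g₀ j) (gT j) q (2 ^ cl) B (G j) (H j) (T j) (TH j) (Ht i)
  lab : ∀ l < r, ∀ i ≤ N, ∀ j ≤ N, w i ≤ w j →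
    (∀ q : ℕ, q + cl ≤ gT i l → q + cl ≤ gc j l →
      ROut1 F c l (w i) (w j) (A - w j) (g₀ j) (gT j) q (2 ^ cl) B (G j) (H j) (T j) (TH j)
        (fun s => TH i s l)) ∧
    ∀ q : ℕ, q + cl ≤ gT i l → q + cl ≤ gT j l →
      LOut F c l (w i) (w j) (A - w j) (gT j) q (2 ^ cl) B (T j) (TH j) (fun s => TH i s l)
        (fun s => TH j s l)
  cur : ∀ k ≤ N, ∀ ω, B ω → ∀ l ≤ r, ∀ V V' : Option (Fin m) → ℝ,
    |hs (G k (ptr F J ω) l) (bt F ω) V V'| ≤ 2 ^ cl / 2 ^ g₀ k l *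
      (nrm c (G k (ptr F J ω)) (g₀ k) (w k) l (bt F ω) V *
        nrm c (G k (ptr F J ω)) (g₀ k) (w k) l (bt F ω) V')
  ng : ∀ k ≤ N, ∀ l ≤ r, g₀ k l ≤ g k l + cl ∧ g k l ≤ g₀ k l + cl ∧
    g k l + (A - w k) ≤ gc k l + cl ∧ gc k l ≤ g k l + (A - w k) + cl
  room : ∀ k ≤ N, ∀ l ≤ r, e k + g k l + (A - w k) + 3 * cl ≤ J
  roomT : ∀ k ≤ N, ∀ l < r, e k + gT k l + 3 * cl ≤ J

/-- **The event of a static cell** from the event of the windows. -/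
theorem cev_of (m D r : ℕ) (hD : 1 ≤ D) : ∃ C : ℕ, 1 ≤ C ∧ ∀ {J : ℕ} {F : Fam m J}
    {c : ℕ → Fin m} {Dr N M A cl k : ℕ} {Sc : ℕ → Prop} {w e h pp : ℕ → ℕ}
    {z g gc gT g₀ : ℕ → ℕ → ℕ} {κ θ : ℝ} {B : F.Ω → Prop}
    {G : ℕ → PtT F → ℕ → MvPolynomial (Option (Fin m)) ℝ}
    {H : ℕ → LnT F → ℕ → MvPolynomial (Option (Fin m)) ℝ}
    {T : ℕ → PtT F → ℕ → MvPolynomial (Option (Fin m)) ℝ}
    {TH : ℕ → LnT F → ℕ → MvPolynomial (Option (Fin m)) ℝ}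
    {Gt : ℕ → PtT F → MvPolynomial (Option (Fin m)) ℝ}
    {Ht : ℕ → LnT F → MvPolynomial (Option (Fin m)) ℝ},
    Set.InjOn c (Set.Iio (r + 1)) → A ≤ J → (∀ k ≤ N, w k ≤ A) → D ≤ Dr → 0 < Pe F.p B →
    (∀ k ≤ N, EvS F c r D Dr (w k) (A - w k) M (z k) (e k) (h k) (pp k) (fun l => ¬ Sc l)
      (g k) (gc k) (gT k) (g₀ k) κ B (G k) (H k) (T k) (TH k) (Gt k) (Ht k)) →
    BalE F c r N M A w z g gc gT g₀ (2 ^ cl) B G T →
    (∀ i ≤ N, ∀ j ≤ N, w i ≤ w j → ∀ q : ℕ, q + cl ≤ pp i → q + cl ≤ gc j r →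
      ROut1 F c r (w i) (w j) (A - w j) (g₀ j) (gT j) q (2 ^ cl) B (G j) (H j) (T j) (TH j)
        (Ht i)) →
    (∀ k ≤ N, ∀ ω, B ω → ∀ l ≤ r, ∀ V V' : Option (Fin m) → ℝ,
      |hs (G k (ptr F J ω) l) (bt F ω) V V'| ≤ 2 ^ cl / 2 ^ g₀ k l *
        (nrm c (G k (ptr F J ω)) (g₀ k) (w k) l (bt F ω) V *
          nrm c (G k (ptr F J ω)) (g₀ k) (w k) l (bt F ω) V')) →
    (∀ k ≤ N, ∀ l ≤ r, g₀ k l ≤ g k l + cl ∧ g k l ≤ g₀ k l + cl ∧
      g k l + (A - w k) ≤ gc k l + cl ∧ gc k l ≤ g k l + (A - w k) + cl) →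
    (∀ k ≤ N, ∀ l ≤ r, e k + g k l + (A - w k) + 3 * cl ≤ J) →
    (∀ k ≤ N, ∀ l < r, e k + gT k l + 3 * cl ≤ J) → (∀ i ≤ N, ∀ l < r, 1 ≤ gT i l) →
    (∀ i ≤ N, C * (h i + k + 1) ≤ cl) → 0 ≤ θ → 0 ≤ κ →
    (∀ i ≤ N, C * (θ + 1) ≤ ((J : ℝ) - w i) * Real.log 2) → Real.exp (C * (θ + 1)) ≤ 2 ^ k →
    κ * ((16 * 4 ^ r) ^ 2) ^ (r * (N + 1) * (N + 1) + 1) ≤ 1 →
    (∀ (B' : F.Ω → Prop) (hB' : 0 < Pe F.p B'), Sub B' B →
      Pe F.p B ≤ ((16 * 4 ^ r) ^ 2) ^ (r * (N + 1) * (N + 1) + 1) * Pe F.p B' →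
      (Fam.sub F B' hB').Tm θ) →
    ∃ B' : F.Ω → Prop, Sub B' B ∧
      Pe F.p B ≤ ((16 * 4 ^ r) ^ 2) ^ (r * (N + 1) * (N + 1)) * Pe F.p B' ∧
      CEv F c r D Dr N M A cl Sc w e h pp z g gc gT g₀
        (κ * ((16 * 4 ^ r) ^ 2) ^ (r * (N + 1) * (N + 1))) B' G H T TH Gt Ht := by
  classical
  obtain ⟨C, hC, hlab⟩ := labs_out m D r hD
  refine ⟨C, hC, ?_⟩
  intro J F c Dr N M A cl k Sc w e h pp z g gc gT g₀ κ θ B G H T TH Gt Ht hinj hAJ hwA hDr hB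
    hev hbal hrow hcur hng hroom hroomT hgT1 hcl hθ hκ hCJ hexp hκ1 hTm
  -- the triples
  obtain ⟨L, hL⟩ : ∃ L : List (ℕ × ℕ × ℕ), L = (List.range r ×ˢ (List.range (N + 1) ×ˢ
      List.range (N + 1))) := ⟨_, rfl⟩
  obtain ⟨L', hL'⟩ : ∃ L' : List (ℕ × ℕ × ℕ), L' = L.filter (fun x => w x.2.1 ≤ w x.2.2) :=
    ⟨_, rfl⟩
  have hlen : L'.length ≤ r * (N + 1) * (N + 1) := by
    rw [hL']
    refine (List.length_filter_le _ _).trans (le_of_eq ?_)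
    rw [hL, List.length_product, List.length_product, List.length_range, List.length_range,
      mul_assoc]
  have hmem : ∀ l < r, ∀ i ≤ N, ∀ j ≤ N, w i ≤ w j → (l, i, j) ∈ L' := by
    intro l hl i hi j hj hw
    rw [hL', List.mem_filter]
    refine ⟨?_, by simpa using hw⟩
    rw [hL, List.mem_product, List.mem_product, List.mem_range, List.mem_range, List.mem_range]
    exact ⟨hl, by omega, by omega⟩
  have hmem' : ∀ x ∈ L', x.1 < r ∧ x.2.1 ≤ N ∧ x.2.2 ≤ N ∧ w x.2.1 ≤ w x.2.2 := by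
    intro x hx
    rw [hL', List.mem_filter] at hx
    obtain ⟨h1, h2⟩ := hx
    obtain ⟨a, b, d⟩ := x
    rw [hL, List.mem_product, List.mem_product, List.mem_range, List.mem_range,
      List.mem_range] at h1
    simp only at h1 ⊢
    refine ⟨h1.1, by omega, by omega, by simpa using h2⟩
  obtain ⟨Y, hY⟩ : ∃ Y : ℝ, Y = (16 * 4 ^ r) ^ 2 := ⟨_, rfl⟩
  have hY1 : 1 ≤ Y := by
    rw [hY]
    exact one_le_pow₀ (by have : (1 : ℝ) ≤ 4 ^ r := one_le_pow₀ (by norm_num); linarith)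
  have hp := Pe_nonneg F.isLaw
  rw [← hY] at hκ1 hTm ⊢
  have hle : ∀ x : ℝ, 0 ≤ x → ∀ n ≤ r * (N + 1) * (N + 1) + 1, Y ^ n * x ≤
      Y ^ (r * (N + 1) * (N + 1) + 1) * x := fun x hx n hn =>
    mul_le_mul_of_nonneg_right (pow_le_pow_right₀ hY1 hn) hx
  have hC1 : ∀ i ≤ N, C ≤ cl := fun i hi => by
    have := hcl i hi
    nlinarith
  have hCk : ∀ i ≤ N, C * (k + 1) ≤ cl := fun i hi => by
    have := hcl i hi
    nlinarith
  obtain ⟨B', k1, k2, k3⟩ := hlab (F := F) (c := c) (Dr := Dr) (N := N) (k := k) (w := w)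
    (v := fun i => A - w i) (M := fun _ => M) (e := e) (h := h) (p := pp) (z := z) (g := g)
    (gc := gc) (gT := gT) (g₀ := g₀) (R := fun l => ¬ Sc l) (θ := θ) (G := G) (H := H)
    (T := T) (TH := TH) (Gt := Gt) (Ht := Ht) hinj (fun i hi => (hwA i hi).trans hAJ)
    (fun i hi j hj => by
      have := hwA i hi
      have := hwA j hj
      omega) hDr hgT1 (fun i hi l hl => by
      have h1 := hroom i hi l hl
      have h2 := (hng i hi l hl).1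
      have h3 := hCk i hi
      omega) (fun i hi l hl => by
      have h1 := hroomT i hi l hl
      have h3 := hCk i hi
      omega) hθ hCJ hexp L' hmem' κ B hκ hB (fun i hi => by
      have e1 : w i + (A - w i) = A := by
        have := hwA i hi
        omega
      exact hev i hi) (by
      rw [← hY]
      refine le_trans ?_ hκ1
      rw [mul_comm κ, mul_comm κ]
      exact hle κ hκ _ (by omega)) (fun B' hB' s1 s2 => hTm B' hB' s1 (s2.trans (by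
      rw [← hY]
      exact hle _ (hp _) _ (by omega))))
  rw [← hY] at k2
  have hPB : Pe F.p B ≤ Y ^ (r * (N + 1) * (N + 1)) * Pe F.p B' :=
    k2.trans (mul_le_mul_of_nonneg_right (pow_le_pow_right₀ hY1 hlen) (hp _))
  have hYp : 0 < Y ^ (r * (N + 1) * (N + 1)) := by positivity
  refine ⟨B', k1, hPB, ?_⟩
  exact
    { inj := hinj
      AJ := hAJ
      wA := hwA
      evs := fun i hi => (hev i hi).sub (κ₁ := 1 / Y ^ (r * (N + 1) * (N + 1))) k1 (by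
        rw [one_div, inv_mul_le_iff₀ hYp]
        exact hPB) (mul_nonneg hκ hYp.le) (by
        rw [mul_one_div, mul_div_assoc, div_self hYp.ne', mul_one])
      bal := ⟨fun i hi ω hω => hbal.inc i hi ω (k1 ω hω),
        fun i hi j hj q hq hw hz ω hω => hbal.bal i hi j hj q hq hw hz ω (k1 ω hω)⟩
      row := fun i hi j hj hw q q1 q2 => (hrow i hi j hj hw q q1 q2).sub k1
      lab := fun l hl i hi j hj hw => by
        obtain ⟨h1, h2⟩ := k3 (l, i, j) (hmem l hl i hi j hj hw)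
        have h3 : C * (h j + 1) ≤ cl := by
          have := hcl j hj
          nlinarith
        have h4 : (2 : ℝ) ^ (C * (h j + k + 1)) ≤ 2 ^ cl :=
          pow_le_pow_right₀ (by norm_num) (hcl j hj)
        exact ⟨fun q q1 q2 => (h1 q (by simp only; omega) (by simp only; omega)).mono le_rfl
          (by positivity) h4, fun q q1 q2 => (h2 q (by simp only; omega)
          (by simp only; omega)).mono le_rfl (by positivity) h4⟩
      cur := fun i hi ω hω => hcur i hi ω (k1 ω hω)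
      ng := hng
      room := hroom
      roomT := hroomT }

end Pool.TN
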