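import Pool.Agent.H66.D2.Apn
import Pool.Agent.H66.D2.Nst

/-!
# The cell `[one, sta, thin]` away from the critical slope

`cellQ_st`: the class theorem `CellQ` of the target over one coordinate of slope one, one static coordinate
of slope two and a thin coordinate, if the slope of the target is not the slope of the thin one plus one.
-/

set_option autoImplicit false

namespace Pool.TN

open Finset Real MvPolynomial
open Pool.Agent.H49.Ent Pool.Agent.H32.Dense Pool.STK Pool.KA Pool.KSAT Pool.K2S Pool.PB Pool.S6C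
open Pool.GEN Pool.CHT Pool.CHX Pool.ISO Pool.D2R Pool.D2Z Pool.D2F Pool.AFT Pool.PKG
open Pool.LBT (ThrOf)

/-- The windows of the cell. -/
def vst (v0 v1 va : ℝ) (k : ℕ) : ℝ :=
  if k = 0 then v0 else if k = 1 then v1 else if k = 2 then 0 else if k = 3 then 1 else va

theorem fl_le_of {x B : ℝ} (h : x ≤ B) (hB : 0 ≤ B) : (⌊x⌋₊ : ℝ) ≤ B := by
  rcases le_total 0 x with h1 | h1
  · exact (Nat.floor_le h1).trans h
  · rw [Nat.floor_of_nonpos h1]
    simpa using hB

/-- **The class theorem of the cell** `[one, sta, thin]`, static slope two, away from the critical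
slope. -/
theorem cellQ_st {n : ℕ} {Sl : ℕ → ℝ} {κ : ℕ → Kd} (k0 : κ 0 = .one) (k1 : κ 1 = .sta)
    (k2 : κ 2 = .thin) (h0 : Sl 0 = 1) (h1 : Sl 1 = 2) (h2 : 1 < Sl 2) (h3 : 2 < Sl 3)
    (hne : Sl 3 ≠ 1 + Sl 2) : CellQ n 3 Sl κ := by
  intro del hdel S₀ hS₀
  obtain ⟨s, hs⟩ : ∃ s, s = Sl 2 := ⟨_, rfl⟩
  obtain ⟨b, hb⟩ : ∃ b, b = Sl 3 := ⟨_, rfl⟩
  rw [← hs] at h2 hne
  rw [← hb] at h3 hne
  obtain ⟨dd, hdd⟩ : ∃ dd, dd = 1 + s - b := ⟨_, rfl⟩
  have hdd0 : dd ≠ 0 := by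
    rw [hdd]
    intro h
    exact hne (by linarith)
  obtain ⟨va, hva⟩ : ∃ va, va = -(b - 1) / dd := ⟨_, rfl⟩
  have hva1 : dd * va = -(b - 1) := by rw [hva]; field_simp
  obtain ⟨v1, hv1⟩ : ∃ v1, v1 = min 0 va := ⟨_, rfl⟩
  have v1a : v1 ≤ 0 := by rw [hv1]; exact min_le_left _ _
  have v1b : v1 ≤ va := by rw [hv1]; exact min_le_right _ _
  have v1c : -|va| ≤ v1 := by
    rw [hv1]
    exact le_min (by have := abs_nonneg va; linarith) (neg_abs_le va)
  have hab := le_abs_self va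
  have hab0 := abs_nonneg va
  obtain ⟨A', hA'⟩ : ∃ A', A' = 2 * b * (|va| + 1) + 2 := ⟨_, rfl⟩
  have pb1 : 0 ≤ (b - 2) * (v1 + |va|) := mul_nonneg (by linarith) (by linarith)
  have pb2 : 0 ≤ (b - 1) * (|va| - va) := mul_nonneg (by linarith) (by linarith)
  have pb3 : 0 ≤ (b - 2) * |va| := mul_nonneg (by linarith) hab0
  have pb4 : 0 ≤ (b - 1) * (v1 + |va|) := mul_nonneg (by linarith) (by linarith)
  have pb5 : 0 ≤ (b - 1) * |va| := mul_nonneg (by linarith) hab0
  have eA : A' = 2 * (b * |va|) + 2 * b + 2 := by rw [hA']; ring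
  have F1 : (1 + s - b) * va + b + 1 ≤ 2 := by
    rw [← hdd, hva1]
    linarith
  have F2 : (b - 1) * va - (b - 2) * v1 + 1 ≤ A' := by linarith
  have F3 : (b - 1) - (b - 2) * v1 + 1 ≤ A' := by linarith
  have F43 : 6 ≤ A' := by linarith
  have F44 : va + 4 ≤ A' := by linarith
  have F45 : |va| ≤ A' := by linarith
  obtain ⟨K, hK⟩ : ∃ K, K = 2 * A' + s + 3 := ⟨_, rfl⟩
  have F61 : (A' - v1) + 2 * (b - 1) * (1 - v1) + 2 ≤ 3 * K := by linarith
  obtain ⟨v, hv⟩ : ∃ v : ℕ → ℝ, v = vst (-A') v1 va := ⟨_, rfl⟩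
  have e0 : v 0 = -A' := by rw [hv]; rfl
  have e1 : v 1 = v1 := by rw [hv]; rfl
  have e2 : v 2 = 0 := by rw [hv]; rfl
  have e3 : v 3 = 1 := by rw [hv]; rfl
  have e4 : v 4 = va := by rw [hv]; rfl
  have hvb : ∀ k ≤ 4, -A' ≤ v k ∧ v k + 4 ≤ A' := fun k hk => by
    have : k = 0 ∨ k = 1 ∨ k = 2 ∨ k = 3 ∨ k = 4 := by omega
    rcases this with rfl | rfl | rfl | rfl | rfl
    · rw [e0]; constructor <;> linarith
    · rw [e1]; constructor <;> linarith
    · rw [e2]; constructor <;> linarith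
    · rw [e3]; constructor <;> linarith
    · rw [e4]
      have := neg_abs_le va
      constructor <;> linarith
  obtain ⟨Al, hAl⟩ : ∃ Al : ℕ → ℝ, Al = fun k => if k = 5 then 1 else A' := ⟨_, rfl⟩
  obtain ⟨Vl, hVl⟩ : ∃ Vl : ℕ → ℝ, Vl = fun k => if k = 5 then 0 else v k := ⟨_, rfl⟩
  have Al5 : Al 5 = 1 := by rw [hAl]; simp
  have Vl5 : Vl 5 = 0 := by rw [hVl]; simp
  have Alk : ∀ k ≤ 4, Al k = A' := fun k hk => by
    rw [hAl]
    simp only [show k ≠ 5 by omega, if_false]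
  have Vlk : ∀ k ≤ 4, Vl k = v k := fun k hk => by
    rw [hVl]
    simp only [show k ≠ 5 by omega, if_false]
  refine ⟨K, 6, Al, Vl, by linarith, fun k hk => ?_, fun S₂ hS₂ => ?_⟩
  · rcases Nat.lt_or_ge k 5 with h5 | h5
    · rw [Alk k (by omega), Vlk k (by omega)]
      have := hvb k (by omega)
      refine ⟨by linarith, by linarith, by linarith⟩
    · have h6 : k = 5 := by omega
      subst h6
      rw [Al5, Vl5]
      refine ⟨by linarith, by norm_num, by linarith⟩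
  obtain ⟨D, hD, hcev⟩ := RecQ.cev n 3 S₂ (by norm_num) le_rfl (hS₀.trans hS₂)
  obtain ⟨C, hC, hend⟩ := st_end n D 3 hD (by norm_num)
  have hCR : (1 : ℝ) ≤ C := by exact_mod_cast hC
  have hC0 : (0 : ℝ) < C := by linarith
  obtain ⟨y, hy⟩ : ∃ y : ℝ, y = min 1 del / (6000 * C ^ 2) := ⟨_, rfl⟩
  have hm1 : min 1 del ≤ 1 := min_le_left _ _
  have hm2 : min 1 del ≤ del := min_le_right _ _
  have hm0 : 0 < min 1 del := lt_min one_pos hdel
  have hy0 : 0 < y := by rw [hy]; positivity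
  have hyC : 6000 * C ^ 2 * y = min 1 del := by rw [hy]; field_simp
  have hCC : (1 : ℝ) ≤ C ^ 2 := one_le_pow₀ hCR
  have hyy : y ≤ C ^ 2 * y := le_mul_of_one_le_left hy0.le hCC
  have hCy : C * y ≤ C ^ 2 * y := by
    refine mul_le_mul_of_nonneg_right ?_ hy0.le
    nlinarith
  have hy1 : y ≤ 1 / 6000 := by linarith
  obtain ⟨n₀, s', ε₀, hn₀, hs', hns, hε₀, hcev⟩ := hcev D le_rfl Sl y 1 hy0 (by linarith) one_pos
    (fun l hl1 hl2 _ => by
      have : l = 1 ∨ l = 2 := by omega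
      rcases this with rfl | rfl
      · rw [h1]; norm_num
      · rw [← hs]; exact h2)
    (fun _ => by
      rw [h0, h1, ← hs]
      exact ⟨by norm_num, h2⟩)
  obtain ⟨V', hV'⟩ : ∃ V' : ℕ → ℝ, V' = fun j => v (j / n₀) + ((j % n₀ : ℕ) + 1) * s' := ⟨_, rfl⟩
  refine ⟨5 * n₀, V', fun j hj => ?_, min ε₀ (y / 4), lt_min hε₀ (by positivity), ?_⟩
  · have h5 : j / n₀ ≤ 4 := by
      have : j / n₀ < 5 := Nat.div_lt_of_lt_mul (by omega)
      omega
    have h6 : ((j % n₀ : ℕ) : ℝ) + 1 ≤ n₀ + 1 := by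
      have : j % n₀ < n₀ := Nat.mod_lt _ (by omega)
      have : ((j % n₀ : ℕ) : ℝ) ≤ n₀ := by exact_mod_cast this.le
      linarith
    have h7 := mul_le_mul_of_nonneg_right h6 hs'.le
    have h8 := hvb _ h5
    have h9 : 0 ≤ ((j % n₀ : ℕ) + 1 : ℝ) * s' := by positivity
    rw [hV']
    beta_reduce
    constructor <;> linarith
  intro S P P₂ θ θ₂ c Pt L T Eb e₂' q t R
  by_contra hcon
  rw [not_le] at hcon
  have hq := R.q0
  have hεe : min ε₀ (y / 4) ≤ ε₀ := min_le_left _ _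
  have hεy : min ε₀ (y / 4) ≤ y / 4 := min_le_right _ _
  have hε0 : 0 < min ε₀ (y / 4) := lt_min hε₀ (by positivity)
  have hyq : 0 < y * q := mul_pos hy0 hq
  -- the rational points
  obtain ⟨dr, hdr, hrat⟩ := R.rat 5 (by norm_num) (y * q) hyq
  rw [Al5, Vl5, one_mul, zero_mul, add_zero] at hrat
  have eKq : K * q = 2 * (A' * q) + s * q + 3 * q := by rw [hK]; ring
  have hAq : 6 * q ≤ A' * q := mul_le_mul_of_nonneg_right F43 hq.le
  have hsq : q ≤ s * q := by
    have := mul_le_mul_of_nonneg_right h2.le hq.le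
    linarith
  obtain ⟨w', hw1, hw2⟩ := exists_rat_btwn (show t < t + min dr q by
    have : 0 < min dr q := lt_min hdr hq
    linarith)
  obtain ⟨a, ha1, ha2⟩ := exists_rat_btwn (show t + q < t + q + min dr q by
    have : 0 < min dr q := lt_min hdr hq
    linarith)
  have m1 := min_le_left dr q
  have m2 := min_le_right dr q
  have ht0 := R.t0
  have ht1 := R.t1
  obtain ⟨r1, r2, r3⟩ := hrat a w' ha1.le (by linarith) hw1.le (by linarith) (by linarith)
  have bx : ∀ x : ℝ, t ≤ x → x ≤ t + 2 * q → |x - t| ≤ K * q := fun x h4 h5 => by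
    rw [abs_le]
    constructor <;> linarith
  have L1 : ∀ l ≤ 3, L l (t + q) (t + q) ≤ L l t t + Sl l * q + y / 4 * q ∧
      L l t t + Sl l * q - y / 4 * q ≤ L l (t + q) (t + q) := fun l hl => by
    have h4 := abs_le.1 (R.dL l hl (t + q) (bx _ (by linarith) (by linarith)))
    have h5 := mul_le_mul_of_nonneg_right hεy hq.le
    rw [add_sub_cancel_left] at h4
    constructor <;> linarith
  have room1 : ∀ l ≤ 3, L l (t + q) (t + q) + Eb + 3 * K * q < 1 := fun l hl =>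
    R.room l hl _ (bx _ (by linarith) (by linarith))
  have hEb := R.Eb0
  have hEbe := R.Ebe
  have hyq1 : y * q ≤ q / 6000 := by
    have := mul_le_mul_of_nonneg_right hy1 hq.le
    linarith
  have e3K : 3 * K * q = 3 * (K * q) := by ring
  have hL3 : L 3 (t + q) t ≤ L 3 (t + q) (t + q) := by
    have := mul_pos hdel hq
    linarith
  have hb0 : bet P₂ c 0 a a + y * q ≤ 1 := by
    have := room1 0 (by norm_num)
    have := r3 0 (by norm_num)
    linarith
  have hb1 : bet P₂ c 1 a a + y * q ≤ 1 := by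
    have := room1 1 (by norm_num)
    have := r3 1 (by norm_num)
    linarith
  have hb3 : bet P₂ c 3 a w' + y * q ≤ 1 := by
    have := room1 3 le_rfl
    linarith
  have haa : (a : ℝ) < 1 := by linarith
  have ha0' : (0 : ℝ) ≤ a := by linarith
  have hw0' : (0 : ℝ) ≤ w' := by linarith
  have hwa' : (w' : ℝ) ≤ a := by linarith
  -- the event
  obtain ⟨K₁, hK₁, hcev⟩ := hcev R hS₂ hε0.le hεe (by linarith) A' (1 / 2) 4 0 v
    (fun l => l = 1) (by linarith) (by norm_num) (fun k hk => by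
      have := hvb k hk
      constructor <;> linarith) (fun k hk => ⟨k, by omega, Alk k hk, Vlk k hk⟩)
    (fun k hk j hj1 hj2 => ⟨k * n₀ + (j - 1), by
      have h5 : k * n₀ ≤ 4 * n₀ := Nat.mul_le_mul_right _ hk
      omega, by
      have h5 : (k * n₀ + (j - 1)) / n₀ = k := by
        rw [mul_comm, Nat.mul_add_div (by omega), Nat.div_eq_of_lt (by omega), add_zero]
      have h6 : (k * n₀ + (j - 1)) % n₀ = j - 1 := by
        rw [mul_comm, Nat.mul_add_mod, Nat.mod_eq_of_lt (by omega)]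
      rw [hV']
      beta_reduce
      rw [h5, h6]
      have h7 : ((j - 1 : ℕ) : ℝ) + 1 = j := by
        have : ((j - 1 + 1 : ℕ) : ℝ) = j := by rw [Nat.sub_add_cancel hj1]
        push_cast at this
        exact this
      rw [h7]⟩) (fun l hl hsc => by
      have : l = 0 ∨ l = 2 := by omega
      rcases this with rfl | rfl
      · exact Or.inl k0
      · exact Or.inr k2)
  have hB1 := hcev 1 one_pos
  have hB2 := hend R.thr₂ R.tmh c R.inj a e₂' (y * q) (by exact_mod_cast ha0')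
    (by exact_mod_cast haa) (R.e₂θ a (bx _ (by linarith) (by linarith))) hyq hb0 hb1 a w'
    (t + K * q) e₂' (y * q) (y * q / 2) (1 / K₁) (by exact_mod_cast hw0')
    (by exact_mod_cast hwa') (by
      have : (a : ℝ) ≤ 1 := haa.le
      exact_mod_cast this) ht1 (R.e₂θ w' (bx _ hw1.le (by linarith))) hyq
    hb3 (by positivity) (by positivity)
  have hpos : Bas S (fun _ F A => 0 < Pe F.p A) := ⟨1, one_pos, 0, fun J _ F A hA =>
    R.tmh.1 1 J F A hA⟩
  obtain ⟨J₁, hJ₁⟩ := exists_nat_ge (((C : ℝ) + 2) / (y * q))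
  refine Pool.LBT.bas_false R.ne (Φ := fun _ _ _ => True) ⟨1, one_pos, 0, fun _ _ _ _ _ =>
    trivial⟩ (Bas.mono J₁ ((hB1.and hB2).and hpos) ?_)
  rintro J hJ F A₀ ⟨⟨hA1, hA2⟩, hA0⟩ -
  have hJR : (J₁ : ℝ) ≤ J := by exact_mod_cast hJ
  have hyU : (C : ℝ) + 2 ≤ y * (q * J) := by
    have h4 := hJ₁.trans hJR
    rw [div_le_iff₀ hyq] at h4
    linarith
  have hJ0 : (0 : ℝ) ≤ J := Nat.cast_nonneg J
  obtain ⟨U, hU⟩ : ∃ U : ℝ, U = q * J := ⟨_, rfl⟩
  rw [← hU] at hyU
  have hU0 : 0 ≤ U := by rw [hU]; positivity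
  have hyUs : y * U ≤ U / 6000 := by
    have := mul_le_mul_of_nonneg_right hy1 hU0
    linarith
  -- the windows
  obtain ⟨w, hw⟩ : ∃ w : ℕ → ℕ, w = fun k => ⌊(t + v k * q) * J⌋₊ := ⟨_, rfl⟩
  obtain ⟨A, hA⟩ : ∃ A : ℕ, A = ⌊(t + A' * q) * J⌋₊ := ⟨_, rfl⟩
  have hvq : ∀ k ≤ 4, -(A' * q) ≤ v k * q ∧ v k * q + 4 * q ≤ A' * q := fun k hk => by
    have h5 := hvb k hk
    have h6 := mul_le_mul_of_nonneg_right h5.1 hq.le
    have h7 := mul_le_mul_of_nonneg_right h5.2 hq.le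
    constructor <;> linarith
  have wR : ∀ k ≤ 4, t * J + v k * U - 1 ≤ w k ∧ (w k : ℝ) ≤ t * J + v k * U := fun k hk => by
    have h5 : 0 ≤ (t + v k * q) * J := mul_nonneg (by linarith [(hvq k hk).1]) hJ0
    have h6 := Nat.floor_le h5
    have h7 := Nat.lt_floor_add_one ((t + v k * q) * J)
    rw [hw, hU]
    beta_reduce
    constructor <;> nlinarith
  have AR : t * J + A' * U - 1 ≤ A := by
    have h7 := Nat.lt_floor_add_one ((t + A' * q) * J)
    rw [hA, hU]
    nlinarith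
  obtain ⟨zz, hzz⟩ : ∃ zz : ℕ → ℕ → ℕ, zz = fun _ _ => w 3 - w 2 := ⟨_, rfl⟩
  have W2 := wR 2 (by norm_num)
  have W3 := wR 3 (by norm_num)
  rw [e2] at W2
  rw [e3] at W3
  have m23 : w 2 ≤ w 3 := nat_le_of_real (by linarith)
  have wA : ∀ k ≤ 4, w k ≤ A := fun k hk => nat_le_of_real (by
    have h5 := (wR k hk).2
    have h6 := mul_le_mul_of_nonneg_right (hvb k hk).2 hU0
    linarith)
  have hz1 : ∀ k ≤ 4, ∀ p ≤ 0, 1 / 2 * q * J ≤ zz k p ∧ zz k p ≤ ⌊(t + A' * q) * J⌋₊ -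
      ⌊(t + v k * q) * J⌋₊ := fun k hk p _ => by
    rw [hzz, ← hA]
    have h4 : ⌊(t + v k * q) * J⌋₊ = w k := by rw [hw]
    rw [h4]
    beta_reduce
    constructor
    · rw [Nat.cast_sub m23]
      have : 1 / 2 * q * J = 1 / 2 * U := by rw [hU]; ring
      rw [this]
      linarith
    · have h5 : w 3 - w 2 + w k ≤ A := nat_le_of_real (by
        push_cast
        rw [Nat.cast_sub m23]
        have h5 := (wR k hk).2
        have h6 := mul_le_mul_of_nonneg_right (hvb k hk).2 hU0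
        linarith)
      omega
  obtain ⟨B, e, h, pp, g, gc, gT, g₀, G, H, Th, TH, Gt, Ht, hBA, hBP, E, hnum⟩ := hA1 zz hz1
  have hap := apN_of R hy0 hεy (by linarith) (N₁ := 4) (v := v) (fun k hk => by
      have := hvb k hk
      constructor <;> linarith) (fun k hk => ⟨k, by omega, Alk k hk, Vlk k hk⟩)
      (Sc := fun l => l = 1) (fun l hl hl1 => by
        have : l = 1 := hl1
        rw [this]
        exact k1) (by rw [← hU]; linarith) E hnum
  obtain ⟨cl, hcl⟩ : ∃ cl : ℕ, cl = ⌊y * q * J⌋₊ := ⟨_, rfl⟩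
  have c1 : (cl : ℝ) ≤ y * U := by
    have := hap.cl1
    rw [← hcl, ← hU] at this
    exact this
  have c2 : y * U - 1 ≤ cl := by
    have := hap.cl2
    rw [← hcl, ← hU] at this
    exact this
  rw [← hcl, ← hA, ← hw] at E
  rw [← hcl, ← hA, ← hw, ← hU] at hap
  obtain ⟨X, hX⟩ : ∃ X, X = 50 * cl := ⟨_, rfl⟩
  obtain ⟨X', hX'⟩ : ∃ X', X' = C * (cl + X + 1) := ⟨_, rfl⟩
  obtain ⟨Q', hQ'⟩ : ∃ Q', Q' = C * (cl + X' + 1) := ⟨_, rfl⟩
  have XR : (X : ℝ) = 50 * cl := by rw [hX]; push_cast; ring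
  have X'R : (X' : ℝ) ≤ 52 * (C * (y * U)) := by
    have h5 : (X' : ℝ) = C * (cl + 50 * cl + 1) := by rw [hX', hX]; push_cast; ring
    rw [h5]
    have h6 : (cl : ℝ) + 50 * cl + 1 ≤ 52 * (y * U) := by linarith
    have h7 := mul_le_mul_of_nonneg_left h6 hC0.le
    linarith
  have hU1 : C * (y * U) ≤ C ^ 2 * y * U := by
    have := mul_le_mul_of_nonneg_right hCy hU0
    linarith
  have hU2 : y * U ≤ C ^ 2 * y * U := by
    have := mul_le_mul_of_nonneg_right hyy hU0
    linarith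
  have hU3 : C ^ 2 * y * U ≤ U / 6000 := by
    have h5 : 6000 * C ^ 2 * y * U ≤ 1 * U := mul_le_mul_of_nonneg_right (by linarith) hU0
    linarith
  have hU4 : C ^ 2 * y * U ≤ del * U / 6000 := by
    have h5 : 6000 * C ^ 2 * y * U ≤ del * U := mul_le_mul_of_nonneg_right (by linarith) hU0
    linarith
  have Q'R : (Q' : ℝ) ≤ 54 * (C ^ 2 * y * U) := by
    have h5 : (Q' : ℝ) = C * (cl + X' + 1) := by rw [hQ']; push_cast; ring
    rw [h5]
    have h6 : (cl : ℝ) + X' + 1 ≤ 52 * (C * (y * U)) + 2 * (y * U) := by linarith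
    have h7 := mul_le_mul_of_nonneg_left h6 hC0.le
    have h8 : C * (52 * (C * (y * U)) + 2 * (y * U)) = 52 * (C ^ 2 * y * U) +
        2 * (C * (y * U)) := by ring
    linarith
  have hXX : X ≤ X' := by
    rw [hX']
    calc X ≤ 1 * (cl + X + 1) := by omega
      _ ≤ _ := Nat.mul_le_mul_right _ hC
  have hwe3 : w 3 ≤ ⌊(a : ℝ) * J⌋₊ := by
    rw [hw]
    exact Nat.floor_le_floor (mul_le_mul_of_nonneg_right (by rw [e3]; linarith) hJ0)
  have hwe2 : w 2 ≤ ⌊(w' : ℝ) * J⌋₊ := by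
    rw [hw]
    exact Nat.floor_le_floor (mul_le_mul_of_nonneg_right (by rw [e2]; linarith) hJ0)
  have heb : Eb * J + 3 * K * U - 1 ≤ (⌊e₂' * J⌋₊ : ℝ) := by
    have h5 := Nat.lt_floor_add_one (e₂' * J)
    have h6 := mul_le_mul_of_nonneg_right hEbe.le hJ0
    rw [hU]
    linarith
  have hlev : ∀ l ≤ 3, ∀ x : ℝ, x ≤ L l (t + q) (t + q) + y * q →
      (x + y * q) * J ≤ L l t t * J + Sl l * U + 3 * (y * U) := fun l hl x hx => by
    have h5 := (L1 l hl).1
    have h6 : x + y * q ≤ L l t t + Sl l * q + 3 * (y * q) := by linarith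
    have h7 := mul_le_mul_of_nonneg_right h6 hJ0
    rw [hU]
    linarith
  have hLam0 : ∀ l ≤ 3, 0 ≤ L l t t * J + Sl l * U := fun l hl => by
    have h5 := (hap.ga 3 (by norm_num) l hl)
    have h6 := hap.lo 3 (by norm_num) l hl
    rw [e3] at h6
    have h7 : 0 ≤ (K + 1) * U - y * U := by
      have : 0 ≤ (K + 1 - y) * U := mul_nonneg (by linarith) hU0
      linarith
    linarith
  obtain ⟨g', p, x, d, f, n1, n2, n3, n4, n5, n6⟩ := num_st (M := 0) (z := zz) hap
    (fun l _ => Iff.rfl) h0 h1 hs.symm hb.symm h2 h3 e2 e3 (by rw [hzz])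
    (by rw [e4]; exact F1) (by rw [e4, e1]; exact F2) (by rw [e1]; exact F3) (by rw [e1]; exact v1a)
    (by rw [e1, e4]; exact v1b) (by linarith) (by rw [e4]; linarith) (by rw [e0])
    (by rw [e0, e1]; linarith) (by rw [e1]; exact F61) (by linarith) (by linarith)
    (by rw [e0]; linarith) (by linarith) (X := X) (X' := X') (Q := C * (cl + X + 1)) (Q' := Q')
    (by rw [XR]; linarith) hXX (by linarith) (by rw [← hX']; linarith) (by linarith)
    (a₁ := ⌊(a : ℝ) * J⌋₊) (e₁ := ⌊e₂' * J⌋₊) (b0 := ⌊(bet P₂ c 0 a a + y * q) * J⌋₊)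
    (b1 := ⌊(bet P₂ c 1 a a + y * q) * J⌋₊) (at' := ⌊(a : ℝ) * J⌋₊) (wt' := ⌊(w' : ℝ) * J⌋₊)
    (eb' := ⌊e₂' * J⌋₊) (bt' := ⌊(bet P₂ c 3 a w' + y * q) * J⌋₊) hwe3 heb
    (by
      refine fl_le_of ?_ ?_
      · have h5 := hlev 0 (by norm_num) _ (r3 0 (by norm_num))
        rw [h0] at h5
        linarith
      · have h5 := hLam0 0 (by norm_num)
        rw [h0] at h5
        have : 0 ≤ y * U := mul_nonneg hy0.le hU0
        linarith)
    (by
      refine fl_le_of ?_ ?_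
      · have h5 := hlev 1 (by norm_num) _ (r3 1 (by norm_num))
        rw [h1] at h5
        linarith
      · have h5 := hLam0 1 (by norm_num)
        rw [h1] at h5
        have : 0 ≤ y * U := mul_nonneg hy0.le hU0
        linarith) hwe3 hwe2 heb
    (by
      have h5 : (⌊(bet P₂ c 3 a w' + y * q) * J⌋₊ : ℝ) ≤ L 3 t t * J + b * U + 3 * (y * U) -
          del * U := by
        refine fl_le_of ?_ ?_
        · have h6 := (L1 3 le_rfl).1
          rw [← hb] at h6
          have h7 : bet P₂ c 3 a w' + y * q ≤ L 3 t t + b * q + 3 * (y * q) - del * q := by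
            linarith
          have h8 := mul_le_mul_of_nonneg_right h7 hJ0
          rw [hU]
          linarith
        · have h6 := (L1 3 le_rfl).1
          rw [← hb] at h6
          have h7 := (R.lawL 3 le_rfl).mono_a t (t + q) t (by linarith) le_rfl (by linarith)
            (by linarith)
          have h8 : L 3 t t ≤ L 3 t t + b * q + 3 * (y * q) - del * q := by linarith
          have h9 := mul_le_mul_of_nonneg_right h8 hJ0
          have h10 := hap.lo 2 (by norm_num) 3 le_rfl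
          rw [e2] at h10
          have h11 : 0 ≤ K * U - y * U := by
            have : 0 ≤ (K - y) * U := mul_nonneg (by linarith) hU0
            linarith
          rw [hU] at h10 h11 ⊢
          linarith
      linarith)
  have hfin := hA2 E (fun ω hω => hBA ω hω) (by
      have : y * q / 2 * J = y * U / 2 := by rw [hU]; ring
      rw [this]
      linarith) (nat_le_of_real (by linarith)) n1 (le_of_eq hX'.symm) (le_max_left _ _)
    (le_max_right _ _) n2 n3 (fun l _ => Iff.rfl) n4 (by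
      have h5 := W3.2
      have h6 : t * J + 1 * U ≤ (t + K * q) * J := by
        rw [hU]
        have : 0 ≤ (K * q - q) * J := mul_nonneg (by linarith) hJ0
        linarith
      linarith) n5 (by rw [← hQ']; exact n6)
  have h5 : Pe F.p A₀ ≤ K₁ * Pe F.p B := hBP
  have h6 : 1 / K₁ * Pe F.p A₀ ≤ Pe F.p B := by
    rw [div_mul_eq_mul_div, one_mul, div_le_iff₀ hK₁]
    linarith
  linarith

end Pool.TN
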