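import Pool.Agent.H88.D2.Ss1
import Pool.Agent.H88.D2.Cqi
import Pool.Agent.H3.D2G.Afq
import Pool.Agent.H60.ASM.GnM
import Pool.Agent.H66.D2.Cst

/-!
# The cell `[one, sta, thin]` of the assembly

`cell_of_gix`: a cell at the windows whose slopes satisfy a condition, from its class theorem under the
condition. `CellX.split`: a case distinction in a cell. `PartST s`: the class theorem of the cell
`[one, sta, thin]` with static slope two and the critical slope of the target, for the slopes `x` of the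
thin coordinate with `s x`. `LSlT`: the critical cell with a thin slope less than two, all classes.
`c1st_of`, `c1st_ofS`, `c1st_of1`: the cell, from these parts.
-/

set_option autoImplicit false

namespace Pool.ASM

open MeasureTheory Set Filter Topology
open Pool.Agent.H49.Ent Pool.Agent.H32.Dense Pool.STK Pool.KA Pool.KSAT Pool.K2S Pool.PB
open Pool.GEN Pool.S6C Pool.STAT Pool.CHT Pool.GRW Pool.PKG Pool.SW Pool.STA
open Pool.LBT (LSys ThrOf)
open Pool.LEV (Law)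
open Pool.ONE (Ext0 Ext)
open Pool.TOP (TopS)
open Pool.STR (ThinAt SteepAt StaAt sta_of_pairs)
open Pool.ISO (PtD lvN WinD)
open Pool.MIC6

variable {n : ℕ} {hn : 2 ≤ n} {S : PCl n} {P : ℝ → ℝ → ℝ} {r : ℝ → ℝ}
  {P' : ℕ → List (Fin n) × Fin n → ℝ → ℝ → ℝ} {Λ : Finset (Fin n) → Fin n → ℝ → ℝ → ℝ}
  {PB : ℕ → List (Fin n) × Fin n → ℝ → ℝ → ℝ}

/-- **A cell at the windows whose slopes satisfy a condition**, from its class theorem at a window, with
a property at the window. -/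
theorem cell_of_gix {ι : Type} [Countable ι] {Q : PropG n ι} (hQ : AePG n Q)
    (H : PkT hn S P r P' Λ PB) (hTop : TopS n)
    (hF : FZX (n - 1)) (h : ℝ) {κ : List Kd} (hκn : κ.length ≤ n - 1) (φ : (ℕ → ℝ) → Prop)
    (hcls : ∀ Sl : ℕ → ℝ, φ Sl → (∀ (l : ℕ) (hl : l < κ.length), 
      (κ[l] = .one → Sl l = 1) ∧ (κ[l] = .thin → 1 < Sl l) ∧ (κ[l] = .sta → 2 ≤ Sl l)) →
      2 < Sl κ.length → (∀ l < n, 1 ≤ Sl l) → CelQI n κ.length h Sl (kgL κ) Q) :
    CellX H hTop hF h (fun o g => φ (SlL hn P P' o g)) κ := by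
  intro o
  filter_upwards [joint_aeH hQ H hTop hF o (kgL κ), H.dia_all H.pble hTop hF,
    sl_one H hTop hF, one_zero H hTop hF o] with g h1 hdia h1s h0 R hφ _ hk hs hst
  have ho := R.rwd.mem
  obtain ⟨α, Q₁, c', F⟩ := H.toPk.fac hTop hF ho
  have hg0 := F.g0
  have hg1 := F.g1
  have hkg : ∀ l < n, KgAt hn P P' PB o l g (kgL κ l) := fun l hl => by
    rcases lt_trichotomy l κ.length with h5 | h5 | h5
    · rw [kgL_lt h5]
      exact (hk l h5).kg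
    · rw [h5, kgL_len]
      exact ⟨hs, hst⟩
    · unfold kgL
      rw [if_neg (by omega), if_neg (by omega)]
      trivial
  obtain ⟨S', G, HT, hG, hgG, W, hQg⟩ := h1 ho hkg
  obtain ⟨al, g₀, s', d', e', K₁, N₁, hal, hg₀, hC⟩ := HT.cl
  have hl0 : LvL hn P P' o 0 g g = g := by
    rw [Pool.Z4.lvL_eq o (by omega)]
    exact H.toPk.act_diag hTop hF ho
  refine sta_of_pairs (H.lawL o κ.length) hg0 hg1 (hdia o ho κ.length hκn).1
    fun K₀ del hK₀ hdel => ?_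
  obtain ⟨P₂, θ₂, Eb, e₂, S₀, hS₀, W⟩ := W.recG HT hkg (fun l _ => rfl) (h0 ho) hl0 R.rwd.rdif R.defi hal hg₀
    ⟨s', d', e', K₁, N₁, hC⟩
  obtain ⟨K, N, A, V, hK, hAV, hc⟩ := hcls (SlL hn P P' o g) hφ (fun l hl => by
    have h3 := hk l hl
    refine ⟨fun h4 => ?_, fun h4 => ?_, fun h4 => ?_⟩
    · rw [h4] at h3
      exact h3
    · rw [h4] at h3
      exact h3.1
    · rw [h4] at h3
      exact h3.1) hs (h1s o ho) al hal (K₀ + del) (by linarith) del hdel S₀ hS₀ S' g₀ (P' o.2)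
    (tht o.2) (cc hn o.1.1) P r (LvL hn P P' o) (LvT hn PB o) G g hG hgG
    (fun l hl => (hdia o ho l (by omega)).1.hasDerivAt) (fun p => by
      obtain ⟨k₀, h5, -⟩ := hQg p
      exact ⟨k₀, h5⟩)
  obtain ⟨S₂, hS₂, W⟩ := W K₀ K N A V (by linarith) hK hAV del hdel
  obtain ⟨K', N', V', hKK, hV', ε, q₂, hε, hq₂, hc⟩ := hc S₂ hS₂
  obtain ⟨q₁, hq₁, W⟩ := W K' N' V' hKK hV' ε hε
  refine ⟨min q₁ q₂, lt_min hq₁ hq₂, fun q u hq hq' hu => ?_⟩
  obtain ⟨t, ht1, ht2, hR⟩ := W q u hq (hq'.trans_le (min_le_left _ _)) hu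
  exact ⟨t, ht1, ht2, hc P₂ θ₂ Eb e₂ q t (hq'.trans_le (min_le_right _ _)) hR⟩

/-- **A case distinction in a cell.** -/
theorem CellX.split {H : PkT hn S P r P' Λ PB} {hTop : TopS n} {hF : FZX (n - 1)} {h : ℝ}
    {κ : List Kd} {X : Od n → ℝ → Prop} (A : Od n → ℝ → Prop)
    (h1 : CellX H hTop hF h (fun o g => X o g ∧ A o g) κ)
    (h2 : CellX H hTop hF h (fun o g => X o g ∧ ¬ A o g) κ) : CellX H hTop hF h X κ := by
  intro o
  filter_upwards [h1 o, h2 o] with g k1 k2 R hX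
  by_cases hA : A o g
  · exact k1 R ⟨hX, hA⟩
  · exact k2 R ⟨hX, hA⟩

/-- **The cell `κ` of (D2)** at the windows used by the assembly whose slopes satisfy `φ`, all
classes. -/
def LCellS (n : ℕ) (φ : (ℕ → ℝ) → Prop) (κ : List Kd) : Prop := (∀ k, 2 ≤ k → k < n → Ext0 k) →
  Tol fun η => AllC n η fun {hn} {_} {P} {_} {P'} {_} {PB} H hTop hF h =>
    CellX H hTop hF h (fun o g => GainM hn P P' PB o g ∧ φ (SlL hn P P' o g)) κ

theorem LCellM.s {κ : List Kd} (h : LCellM n κ) (φ : (ℕ → ℝ) → Prop) : LCellS n φ κ := fun hi => by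
  refine (h hi).mono fun η h1 => ?_
  intro hn hZ hF hTop D hD hD1 hE S P r P' Λ PB H
  exact (h1 hn hZ hF hTop D hD hD1 hE S P r P' Λ PB H).mono fun o g hx => hx.1

theorem LCellS.mono {κ : List Kd} {φ φ' : (ℕ → ℝ) → Prop} (h : LCellS n φ κ)
    (hφ : ∀ Sl, φ' Sl → φ Sl) : LCellS n φ' κ := fun hi => by
  refine (h hi).mono fun η h1 => ?_
  intro hn hZ hF hTop D hD hD1 hE S P r P' Λ PB H
  exact (h1 hn hZ hF hTop D hD hD1 hE S P r P' Λ PB H).mono fun o g hx => ⟨hx.1, hφ _ hx.2⟩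

/-- **A case distinction**, all classes. -/
theorem LCellS.or {κ : List Kd} {φ φ' : (ℕ → ℝ) → Prop} (h : LCellS n φ κ)
    (h' : LCellS n φ' κ) : LCellS n (fun Sl => φ Sl ∨ φ' Sl) κ := fun hi => by
  refine ((h hi).and (h' hi)).mono fun η h1 => ?_
  intro hn hZ hF hTop D hD hD1 hE S P r P' Λ PB H o
  filter_upwards [h1.1 hn hZ hF hTop D hD hD1 hE S P r P' Λ PB H o,
    h1.2 hn hZ hF hTop D hD hD1 hE S P r P' Λ PB H o] with g k1 k2 R hX
  rcases hX with ⟨hX, h3 | h3⟩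
  · exact k1 R ⟨hX, h3⟩
  · exact k2 R ⟨hX, h3⟩

/-- **The cell** from a case distinction which is complete for the slopes of the cell. -/
theorem LCellS.m {κ : List Kd} {φ : (ℕ → ℝ) → Prop} (h : LCellS n φ κ)
    (hφ : ∀ Sl : ℕ → ℝ, (∀ (l : ℕ) (hl : l < κ.length), 
      (κ[l] = .one → Sl l = 1) ∧ (κ[l] = .thin → 1 < Sl l) ∧ (κ[l] = .sta → 2 ≤ Sl l)) →
      2 < Sl κ.length → φ Sl) : LCellM n κ := fun hi => by
  refine (h hi).mono fun η h1 => ?_
  intro hn hZ hF hTop D hD hD1 hE S P r P' Λ PB H o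
  filter_upwards [h1 hn hZ hF hTop D hD hD1 hE S P r P' Λ PB H o] with g k1 R hX hth hk hs hst
  refine k1 R ⟨hX, hφ _ (fun l hl => ?_) hs⟩ hth hk hs hst
  have h3 := hk l hl
  refine ⟨fun h4 => ?_, fun h4 => ?_, fun h4 => ?_⟩
  · rw [h4] at h3
    exact h3
  · rw [h4] at h3
    exact h3.1
  · rw [h4] at h3
    exact h3.1

/-- **The cell for all classes, slopes with `φ`, from its class theorem at a window**, with the rate and
a property which uses the statements of lower dimension. -/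
theorem lCellS_of_gi {ι : Type} [Countable ι] {Q : PropG n ι}
    (hQ : (∀ k, 1 ≤ k → k < n → FZX k) → AePG n Q) {κ : List Kd} (hκn : κ.length ≤ n - 1)
    (φ : (ℕ → ℝ) → Prop)
    (hcls : ∀ h : ℝ, 0 < h → h ≤ 1 → ∀ Sl : ℕ → ℝ, φ Sl → (∀ (l : ℕ) (hl : l < κ.length), 
      (κ[l] = .one → Sl l = 1) ∧ (κ[l] = .thin → 1 < Sl l) ∧ (κ[l] = .sta → 2 ≤ Sl l)) →
      2 < Sl κ.length → (∀ l < n, 1 ≤ Sl l) → CelQI n κ.length h Sl (kgL κ) Q) :
    LCellS n φ κ := fun _ => by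
  refine (Tol.le (1 / 2) (by norm_num)).mono fun η hη => ?_
  intro hn hZ hF hTop D hD hD1 _ S P r P' Λ PB H
  have h1 := hη D hD
  exact (cell_of_gix (hQ hZ) H hTop hF _ hκn φ
    (hcls _ (mul_pos (by linarith) hD) (by nlinarith))).mono fun o g hx => hx.2

/-- **The cell for all classes, slopes with `φ`, from its class theorem at a window**, with a property
which may depend on the rate. -/
theorem lCellS_gih {κ : List Kd} (hκn : κ.length ≤ n - 1) (φ : (ℕ → ℝ) → Prop)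
    (H : ∀ h : ℝ, 0 < h → h ≤ 1 → ∃ (ι : Type) (_ : Countable ι) (Q : PropG n ι),
      ((∀ k, 1 ≤ k → k < n → FZX k) → AePG n Q) ∧
      ∀ Sl : ℕ → ℝ, φ Sl → (∀ (l : ℕ) (hl : l < κ.length), 
        (κ[l] = .one → Sl l = 1) ∧ (κ[l] = .thin → 1 < Sl l) ∧ (κ[l] = .sta → 2 ≤ Sl l)) →
        2 < Sl κ.length → (∀ l < n, 1 ≤ Sl l) → CelQI n κ.length h Sl (kgL κ) Q) :
    LCellS n φ κ := fun _ => by
  refine (Tol.le (1 / 2) (by norm_num)).mono fun η hη => ?_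
  intro hn hZ hF hTop D hD hD1 _ S P r P' Λ PB H'
  have h1 := hη D hD
  obtain ⟨ι, hι, Q, hQ, hcls⟩ := H ((1 - η D) * D) (mul_pos (by linarith) hD) (by nlinarith)
  exact (cell_of_gix (hQ hZ) H' hTop hF _ hκn φ hcls).mono fun o g hx => hx.2

/-- **The part**: the class theorem of the cell `[one, sta, thin]`, static slope two, critical slope of
the target, with a property which holds at almost every window and may depend on the rate; for the
thin slopes `x` with `s x`. -/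
def PartST (s : ℝ → Prop) : Prop := ∀ h : ℝ, 0 < h → h ≤ 1 →
  ∃ (ι : Type) (_ : Countable ι) (Q : PropG 4 ι), ((∀ k, 1 ≤ k → k < 4 → FZX k) → AePG 4 Q) ∧
  ∀ Sl : ℕ → ℝ, Sl 0 = 1 → Sl 1 = 2 → s (Sl 2) → Sl 3 = 1 + Sl 2 → (∀ l < 4, 1 ≤ Sl l) →
    CelQI 4 3 h Sl (kgL [.one, .sta, .thin]) Q

theorem PartST.mono {s s' : ℝ → Prop} (h : PartST s) (hs : ∀ x, s' x → s x) : PartST s' := by
  intro a h1 h2
  obtain ⟨ι, hι, Q, hQ, h⟩ := h a h1 h2
  exact ⟨ι, hι, Q, hQ, fun Sl k0 k1 k2 => h Sl k0 k1 (hs _ k2)⟩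

/-- The slopes of the part. -/
def SlST (s : ℝ → Prop) (Sl : ℕ → ℝ) : Prop := Sl 1 = 2 ∧ s (Sl 2) ∧ Sl 3 = 1 + Sl 2

theorem PartST.lS {s : ℝ → Prop} (H : PartST s) : LCellS 4 (SlST s) [Kd.one, Kd.sta, Kd.thin] := by
  refine lCellS_gih (by
    show 3 ≤ 4 - 1
    omega) _ fun h h0 h1 => ?_
  obtain ⟨ι, hι, Q, hQ, H⟩ := H h h0 h1
  exact ⟨ι, hι, Q, hQ, fun Sl hφ hk _ hsl =>
    H Sl ((hk 0 (by norm_num)).1 rfl) hφ.1 hφ.2.1 hφ.2.2 hsl⟩

/-- **The part**: the critical cell with a thin slope less than two, all classes. -/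
def LSlT : Prop := LCellS 4 (SlST fun x => x < 2) [Kd.one, Kd.sta, Kd.thin]

/-- The cell away from the critical slopes. -/
theorem lS_st : LCellS 4 (fun Sl => 2 < Sl 1 ∨ Sl 1 = 2 ∧ Sl 3 ≠ 1 + Sl 2)
    [Kd.one, Kd.sta, Kd.thin] := by
  refine lCellS_of_gi (fun _ => aePG_af 4) (by
    show 3 ≤ 4 - 1
    omega) _ fun h h0 h1 Sl hφ hk h2 hsl => ?_
  have k0 : Sl 0 = 1 := (hk 0 (by norm_num)).1 rfl
  have k2 : 1 < Sl 2 := (hk 2 (by norm_num)).2.1 rfl
  have hκ : ∀ l < 3, kgL [Kd.one, Kd.sta, Kd.thin] l =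
      ofKd ((fun l => [Kd.one, Kd.sta, Kd.thin].getD l .one) l) := fun l hl => by
    rw [kgL_lt (κ := [Kd.one, Kd.sta, Kd.thin]) hl]
    beta_reduce
    rw [List.getD_eq_getElem _ _ hl]
  have hqi : CellQ 4 3 Sl (fun l => [Kd.one, Kd.sta, Kd.thin].getD l .one) →
      CelQI 4 3 h Sl (kgL [.one, .sta, .thin]) AfQ := fun H =>
    H.qi (by norm_num) (by norm_num) (kgL_len [Kd.one, Kd.sta, Kd.thin]) hκ
  show CelQI 4 3 h Sl (kgL [.one, .sta, .thin]) AfQ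
  rcases hφ with h3 | ⟨h3, h4⟩
  · exact hqi (Pool.TN.cellQ_s1 rfl rfl k0 h3 k2)
  · exact hqi (Pool.TN.cellQ_st rfl rfl rfl k0 h3 k2 h2 h4)

/-- **The cell** `[one, sta, thin]` of the assembly, from its parts. -/
theorem c1st_ofS (H1 : LCellS 4 (SlST fun x => 2 ≤ x) [Kd.one, Kd.sta, Kd.thin]) (H2 : LSlT) :
    LCellM 4 [Kd.one, Kd.sta, Kd.thin] := by
  refine LCellS.m (lS_st.or (H1.or H2)) fun Sl hk h2 => ?_
  have k1 : 2 ≤ Sl 1 := (hk 1 (by norm_num)).2.2 rfl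
  rcases lt_or_eq_of_le k1 with h3 | h3
  · exact Or.inl (Or.inl h3)
  by_cases h4 : Sl 3 = 1 + Sl 2
  · rcases lt_or_ge (Sl 2) 2 with h5 | h5
    · exact Or.inr (Or.inr ⟨h3.symm, h5, h4⟩)
    · exact Or.inr (Or.inl ⟨h3.symm, h5, h4⟩)
  · exact Or.inl (Or.inr ⟨h3.symm, h4⟩)

/-- The case distinction at the slope two. -/
theorem lS_st2 (H1 : LCellS 4 (SlST fun x => 2 < x) [Kd.one, Kd.sta, Kd.thin])
    (H2 : LCellS 4 (SlST fun x => x = 2) [Kd.one, Kd.sta, Kd.thin]) :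
    LCellS 4 (SlST fun x => 2 ≤ x) [Kd.one, Kd.sta, Kd.thin] :=
  (H1.or H2).mono fun Sl hφ => by
    rcases lt_or_eq_of_le hφ.2.1 with h | h
    · exact Or.inl ⟨hφ.1, h, hφ.2.2⟩
    · exact Or.inr ⟨hφ.1, h.symm, hφ.2.2⟩

/-- **The cell** `[one, sta, thin]` of the assembly, from its parts. -/
theorem c1st_of (H1 : PartST fun x => 2 < x) (H2 : PartST fun x => x = 2) (H3 : LSlT) :
    LCellM 4 [Kd.one, Kd.sta, Kd.thin] := c1st_ofS (lS_st2 H1.lS H2.lS) H3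

/-- **The cell** `[one, sta, thin]` of the assembly, from the class theorem for all slopes. -/
theorem c1st_of1 (H : PartST fun x => 1 < x) : LCellM 4 [Kd.one, Kd.sta, Kd.thin] := by
  refine LCellS.m (lS_st.or H.lS) fun Sl hk h2 => ?_
  have k1 : 2 ≤ Sl 1 := (hk 1 (by norm_num)).2.2 rfl
  rcases lt_or_eq_of_le k1 with h3 | h3
  · exact Or.inl (Or.inl h3)
  by_cases h4 : Sl 3 = 1 + Sl 2
  · exact Or.inr ⟨h3.symm, (hk 2 (by norm_num)).2.1 rfl, h4⟩
  · exact Or.inl (Or.inr ⟨h3.symm, h4⟩)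

end Pool.ASM
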