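import Pool.Agent.H66.D2.Crv

/-!
# The critical cell, static place one: the end with one closed slope

`jcl_st1`: `jcl_st` with a larger error of the closed gradient in the static direction. `st_big1L`,
`st_crit1L`: `st_bigL`, `st_critL` without the closed gradient of the thin place.
-/

set_option autoImplicit false

namespace Pool.TNW

open Finset Real MvPolynomial
open Pool.Agent.H49.Ent Pool.Agent.H32.Dense Pool.STK Pool.KA Pool.KSAT Pool.K2S Pool.PB Pool.S6C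
open Pool.GEN Pool.CHT Pool.CHX Pool.ISO Pool.D2R Pool.D2Z Pool.D2F Pool.TN
open Pool.LBT (ThrOf)
open Pool.FLF (Fam.sub)
open Pool.PB.Trl (rt rt_mem t_rt)

variable {m J : ℕ}

/-- **The critical slope, static place one and thin place two**: the closed gradient of the thin
place, the error of its component in the static direction has the exponent `dd` too. -/
theorem jcl_st1 : ∃ C : ℕ, 1 ≤ C ∧ ∀ {m J : ℕ} {F : Fam m J} {c : ℕ → Fin m}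
    {D Dr N M A cl : ℕ} {Sc : ℕ → Prop} {w e h pp : ℕ → ℕ} {z g gc gT g₀ : ℕ → ℕ → ℕ} {κ : ℝ}
    {B : F.Ω → Prop} {G : ℕ → PtT F → ℕ → MvPolynomial (Option (Fin m)) ℝ}
    {H : ℕ → LnT F → ℕ → MvPolynomial (Option (Fin m)) ℝ}
    {T : ℕ → PtT F → ℕ → MvPolynomial (Option (Fin m)) ℝ}
    {TH : ℕ → LnT F → ℕ → MvPolynomial (Option (Fin m)) ℝ}
    {Gt : ℕ → PtT F → MvPolynomial (Option (Fin m)) ℝ}
    {Ht : ℕ → LnT F → MvPolynomial (Option (Fin m)) ℝ},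
    CEv F c 3 D Dr N M A cl Sc w e h pp z g gc gT g₀ κ B G H T TH Gt Ht →
    ∀ {X Y f dd i i₁ t k P : ℕ}, ¬ Sc 0 → Sc 1 → ¬ Sc 2 →
    JNum N A cl X f dd w pp gc gT g₀ i i₁ t k P 2 1 →
    ∀ {mu mu₂ : LnT F → Polynomial ℝ} {ω : F.Ω}, B ω →
    |cv (gG G ω k 3 - grd (Ht i₁ (slam F (w i₁) ω)) (bt F ω))
        (ev c 3 (mx Sc (kT w TH ω i) (gG G ω k)) 1) -
      (mu (slam F (w t) ω)).eval (rt F (w t) ω)| ≤ 2 ^ Y * (2 ^ g₀ k 1 / 2 ^ g₀ k 3) →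
    |gG G ω k 2 (some (c 1)) - (mu₂ (slam F (w t) ω)).eval (rt F (w t) ω)| ≤
      2 ^ (Y + dd) * (2 ^ g₀ k 1 / 2 ^ g₀ k 2) →
    2 ^ (w k + g₀ k 2) / 2 ^ (g₀ k 3 + dd) ≤
      |hs (Ht i₁ (slam F (w i₁) ω)) (bt F ω) (bd F ω)
          (ev c 3 (mx Sc (kT w TH ω i) (gG G ω k)) 2) -
        cv (gG G ω k 3 - grd (Ht i₁ (slam F (w i₁) ω)) (bt F ω))
          (ev c 3 (mx Sc (kT w TH ω i) (gG G ω k)) 1) *
        hs (TH i (slam F (w i) ω) 1) (bt F ω) (bd F ω)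
          (ev c 3 (mx Sc (kT w TH ω i) (gG G ω k)) 2)| →
    |(jL c (w t) 1 2 (fun s => Ht i₁ (co (w t - w i₁) s)) (Xcf w TH Sc i t) mu
        (slam F (w t) ω)).eval (rt F (w t) ω) -
      (jL c (w t) 1 2 (fun s => Ht i₁ (co (w t - w i₁) s)) (Xcf w TH Sc i t) mu
        (slam F (w t) ω)).eval 0| ≤ 2 ^ (w k + g₀ k 2) / 2 ^ (g₀ k 3 + dd + f + 2) →
    ∀ V : Option (Fin m) → ℝ, V none = 0 →
    |∑ j ∈ range 2, (lamS c (w t) (fun s => Ht i₁ (co (w t - w i₁) s)) (Xcf w TH Sc i t) mu mu₂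
        (slam F (w t) ω) j).eval (rt F (w t) ω) * V (some (c j)) - cv (gG G ω k 2) V| ≤
      2 ^ (C * (cl + X + Y + 1) + dd) / 2 ^ g₀ k 2 * en c (g₀ k) (w k) (gG G ω k) 2 V := by
  obtain ⟨C₁, hC₁, hco⟩ := jcore
  refine ⟨C₁ + 30, by omega, ?_⟩
  intro m J F c D Dr N M A cl Sc w e h pp z g gc gT g₀ κ B G H T TH Gt Ht E X Y f dd i i₁ t k P
    hs0 hs1 hs2 n mu mu₂ ω hω hmu hmu2 hbig hvar V hV
  have hi := n.iN
  have ht := n.tN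
  have hk := n.kN
  have htJ : w t ≤ J := (E.wA t ht).trans E.AJ
  have hc : Set.InjOn c (Set.Iio 3) := E.inj.mono (Set.Iio_subset_Iio (by norm_num))
  have hΓ : ∀ l, CvC c l (gG G ω k l) := fun l => cvc_grd ((E.evs k hk).ball.depG _ l) _
  have hκ : ∀ j ≤ N, ∀ l, CvC c l (kT w TH ω j l) := fun j hj l =>
    cvc_grd ((E.evs j hj).thin.depH _ l) _
  have hSc : ∀ l < 3, (Sc l ↔ l = 1) := fun l hl => by
    have : l = 0 ∨ l = 1 ∨ l = 2 := by omega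
    rcases this with h | h | h
    · rw [h]; exact ⟨fun h => absurd h hs0, fun h => absurd h (by norm_num)⟩
    · rw [h]; exact ⟨fun _ => rfl, fun _ => hs1⟩
    · rw [h]; exact ⟨fun h => absurd h hs2, fun h => absurd h (by norm_num)⟩
  have hzj : 2 ^ Y * (2 ^ g₀ k 1 / 2 ^ g₀ k 3) * |hs (TH i (slam F (w i) ω) 1) (bt F ω) (bd F ω)
          (ev c 3 (mx Sc (kT w TH ω i) (gG G ω k)) 2)| ≤
      2 ^ (w k + g₀ k 2) / 2 ^ (g₀ k 3 + dd + 1) := by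
    rw [hs_zero_ev hc (l := 1) (by norm_num) (fun l => mx_cvc (hκ i hi) hΓ l) (by norm_num)
      (dep_TH E hi _ 1), abs_zero, mul_zero]
    positivity
  -- the first vector
  obtain ⟨Ξ', hΞd'⟩ : ∃ Ξ', Ξ' = mx Sc (kT w TH ω i) (kT w TH ω t) := ⟨_, rfl⟩
  have hΞ' : ∀ l, CvC c l (Ξ' l) := fun l => by rw [hΞd']; exact mx_cvc (hκ i hi) (hκ t ht) l
  have hΞ'1 : Ξ' 1 = kT w TH ω i 1 := by rw [hΞd']; exact mx_pos hs1
  have v0 := ev_none c 3 Ξ' 0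
  have v1 : ev c 3 Ξ' 0 (some (c 0)) = 1 := ev_eq hc hΞ' (by norm_num)
  have v2 : ev c 3 Ξ' 0 (some (c 1)) = cv (kT w TH ω i 1) (ev c 3 Ξ' 0) := by
    have h3 := ev_comp hc hΞ' 0 (show 1 < 3 by norm_num)
    rw [if_neg (by norm_num), hΞ'1] at h3
    linarith
  have c1 := n.cT 1 (by norm_num)
  have c2 := n.cT 2 (by norm_num)
  have hγ := jgam_two E (by norm_num) hs0 hs2 hi ht hk (n.it.trans n.tk) n.tk c1.1 c1.2.2.2
    c1.2.2.1 n.m1 n.lb c2.2.1 c2.2.2.2 n.mj hω v0 v1 v2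
  rw [hΞd'] at hγ
  have hmain := hco E (u := 9 * cl + 3 * X + 10) (Or.inr ⟨rfl, rfl⟩) hSc n hω hmu hbig hzj hvar hγ
  have hcv1 : ∀ W : Option (Fin m) → ℝ, CvC c 1 W → ∀ V : Option (Fin m) → ℝ, V none = 0 →
      cv W V = W (some (c 0)) * V (some (c 0)) := fun W hW V hV => by
    have hc1 : Set.InjOn c (Set.Iio 1) := hc.mono (Set.Iio_subset_Iio (by norm_num))
    rw [cv_eq hc1 hW, hV, mul_zero, zero_add, Finset.sum_range_one]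
  have hcv2 : ∀ W : Option (Fin m) → ℝ, CvC c 2 W → ∀ V : Option (Fin m) → ℝ, V none = 0 →
      cv W V = W (some (c 0)) * V (some (c 0)) + W (some (c 1)) * V (some (c 1)) :=
    fun W hW V hV => by
      have hc2 : Set.InjOn c (Set.Iio 2) := hc.mono (Set.Iio_subset_Iio (by norm_num))
      rw [cv_eq hc2 hW, hV, mul_zero, zero_add, Finset.sum_range_succ, Finset.sum_range_one]
  have hk10 : ev c 3 Ξ' 0 (some (c 1)) = kT w TH ω i 1 (some (c 0)) := by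
    rw [v2, hcv1 _ (hκ i hi 1) _ v0, v1, mul_one]
  rw [← hΞd', cv_subl, hcv2 _ (hΓ 2) _ v0, hcv2 _ (hκ t ht 2) _ v0, v1, hk10, mul_one,
    mul_one] at hmain
  have hgg := st_gg E (by norm_num) hs0 hi hk (n.it.trans n.tk) c1.1 c1.2.2.2 n.m1 n.lb hω hV
  rw [hcv1 _ (by
    have e1 : CvC c 1 (kT w TH ω i 1 - gG G ω k 1) := fun l hl => by
      rw [Pi.sub_apply, hκ i hi 1 l hl, hΓ 1 l hl, sub_zero]
    exact e1) _ hV, Pi.sub_apply] at hgg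
  -- the sum
  have hlam : ∑ j ∈ range 2, (lamS c (w t) (fun s => Ht i₁ (co (w t - w i₁) s))
        (Xcf w TH Sc i t) mu mu₂ (slam F (w t) ω) j).eval (rt F (w t) ω) * V (some (c j)) =
      (kT w TH ω t 2 (some (c 0)) + kT w TH ω i 1 (some (c 0)) * kT w TH ω t 2 (some (c 1)) +
        (jG c (w t) 1 2 (fun s => Ht i₁ (co (w t - w i₁) s)) (Xcf w TH Sc i t) mu
          (slam F (w t) ω)).eval (rt F (w t) ω) -
        kT w TH ω i 1 (some (c 0)) * (mu₂ (slam F (w t) ω)).eval (rt F (w t) ω)) *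
          V (some (c 0)) + (mu₂ (slam F (w t) ω)).eval (rt F (w t) ω) * V (some (c 1)) := by
    rw [Finset.sum_range_succ, Finset.sum_range_one]
    unfold lamS
    rw [if_pos rfl, if_neg (by norm_num), Polynomial.eval_sub, Polynomial.eval_add,
      Polynomial.eval_add, Polynomial.eval_mul, Polynomial.eval_mul, kpol_rt F c htJ,
      kpol_rt F c htJ, kpol_rt F c htJ]
    have e1 : Xcf w TH Sc i t (slam F (w t) ω) 2 = TH t (slam F (w t) ω) 2 := by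
      unfold Xcf
      rw [if_neg hs2]
    have e2 : Xcf w TH Sc i t (slam F (w t) ω) 1 = TH i (slam F (w i) ω) 1 := by
      unfold Xcf
      rw [if_pos hs1, co_slam F n.it htJ]
    rw [e1, e2]
    rfl
  rw [hlam, hcv2 _ (hΓ 2) _ hV]
  obtain ⟨x, hx⟩ : ∃ x, x = (jG c (w t) 1 2 (fun s => Ht i₁ (co (w t - w i₁) s))
    (Xcf w TH Sc i t) mu (slam F (w t) ω)).eval (rt F (w t) ω) := ⟨_, rfl⟩
  obtain ⟨μ, hμ⟩ : ∃ μ, μ = (mu₂ (slam F (w t) ω)).eval (rt F (w t) ω) := ⟨_, rfl⟩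
  obtain ⟨p, hp⟩ : ∃ p, p = kT w TH ω i 1 (some (c 0)) := ⟨_, rfl⟩
  obtain ⟨k0, hk0⟩ : ∃ p, p = kT w TH ω t 2 (some (c 0)) := ⟨_, rfl⟩
  obtain ⟨k1, hk1⟩ : ∃ p, p = kT w TH ω t 2 (some (c 1)) := ⟨_, rfl⟩
  obtain ⟨q0, hq0⟩ : ∃ p, p = gG G ω k 2 (some (c 0)) := ⟨_, rfl⟩
  obtain ⟨q1, hq1⟩ : ∃ p, p = gG G ω k 2 (some (c 1)) := ⟨_, rfl⟩
  obtain ⟨p', hp'⟩ : ∃ p, p = gG G ω k 1 (some (c 0)) := ⟨_, rfl⟩
  obtain ⟨V0, hV0⟩ : ∃ p, p = V (some (c 0)) := ⟨_, rfl⟩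
  obtain ⟨V1, hV1⟩ : ∃ p, p = V (some (c 1)) := ⟨_, rfl⟩
  obtain ⟨En, hEn⟩ : ∃ x, x = en c (g₀ k) (w k) (gG G ω k) 2 V := ⟨_, rfl⟩
  have hEn2 : En = 2 ^ g₀ k 0 * |V0| + 2 ^ g₀ k 1 * |V1 - p' * V0| := by
    rw [hEn, show (2 : ℕ) = 1 + 1 from rfl, en_succ, en_one _ _ (hΓ 0) hV, hcv1 _ (hΓ 1) _ hV,
      hV0, hV1, hp']
  rw [← hx, ← hp, ← hk0, ← hk1, ← hq0, ← hq1] at hmain
  rw [← hμ, ← hq1] at hmu2
  rw [← hp, ← hp', ← hV0] at hgg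
  rw [← hx, ← hμ, ← hp, ← hk0, ← hk1, ← hq0, ← hq1, ← hV0, ← hV1, ← hEn]
  obtain ⟨u, hu⟩ : ∃ u : ℝ, u = 2 ^ (8 * cl + 2 * X + 4) := ⟨_, rfl⟩
  rw [← hu] at hgg
  have hu1 : 1 ≤ u := by rw [hu]; exact one_le_pow₀ (by norm_num)
  have hg0 : (0 : ℝ) < 2 ^ g₀ k 0 := by positivity
  have hg1 : (0 : ℝ) < 2 ^ g₀ k 1 := by positivity
  have hg2 : (0 : ℝ) < 2 ^ g₀ k 2 := by positivity
  have n1 : 0 ≤ 2 ^ g₀ k 0 * |V0| := by positivity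
  have n2 : 0 ≤ 2 ^ g₀ k 1 * |V1 - p' * V0| := by positivity
  have hEn0 : 0 ≤ En := by rw [hEn2]; linarith
  have hVr : |V0| * 2 ^ g₀ k 0 ≤ En := by rw [hEn2]; linarith
  have hVs : |V1 - p * V0| * 2 ^ g₀ k 1 ≤ (1 + u) * En := by
    have e1 : V1 - p * V0 = (V1 - p' * V0) - (p - p') * V0 := by ring
    have e2 := abs_sub (V1 - p' * V0) ((p - p') * V0)
    rw [← e1] at e2
    have e3 := mul_le_mul_of_nonneg_right e2 hg1.le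
    have e4 : u * (2 ^ g₀ k 0 * |V0|) ≤ u * En :=
      mul_le_mul_of_nonneg_left (by rw [hEn2]; linarith) (by linarith)
    have e5 : (|V1 - p' * V0| + |(p - p') * V0|) * 2 ^ g₀ k 1 =
        2 ^ g₀ k 1 * |V1 - p' * V0| + 2 ^ g₀ k 1 * |(p - p') * V0| := by ring
    rw [e5] at e3
    have e6 : 2 ^ g₀ k 1 * |V1 - p' * V0| ≤ En := by rw [hEn2]; linarith
    have e7 : (1 + u) * En = En + u * En := by ring
    rw [e7]
    linarith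
  have e1 : (k0 + p * k1 + x - p * μ) * V0 + μ * V1 - (q0 * V0 + q1 * V1) =
      (x - (q0 + q1 * p - (k0 + k1 * p))) * V0 + -((q1 - μ) * (V1 - p * V0)) := by ring
  rw [e1]
  refine (abs_add_le _ _).trans ?_
  rw [abs_neg, abs_mul, abs_mul]
  obtain ⟨Z, hZ⟩ : ∃ Z, Z = C₁ * (cl + X + Y + 1) + (9 * cl + 3 * X + 10) + dd := ⟨_, rfl⟩
  rw [← hZ] at hmain
  have k1' : |x - (q0 + q1 * p - (k0 + k1 * p))| * |V0| ≤ 2 ^ Z / 2 ^ g₀ k 2 * En := by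
    refine (mul_le_mul_of_nonneg_right hmain (abs_nonneg _)).trans ?_
    have e1 : 2 ^ Z * (2 ^ g₀ k 0 / 2 ^ g₀ k 2) * |V0| =
        2 ^ Z / 2 ^ g₀ k 2 * (|V0| * 2 ^ g₀ k 0) := by ring
    rw [e1]
    exact mul_le_mul_of_nonneg_left hVr (by positivity)
  have k2' : |q1 - μ| * |V1 - p * V0| ≤ 2 ^ (Y + dd) / 2 ^ g₀ k 2 * ((1 + u) * En) := by
    refine (mul_le_mul_of_nonneg_right hmu2 (abs_nonneg _)).trans ?_
    have e1 : 2 ^ (Y + dd) * (2 ^ g₀ k 1 / 2 ^ g₀ k 2) * |V1 - p * V0| =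
        2 ^ (Y + dd) / 2 ^ g₀ k 2 * (|V1 - p * V0| * 2 ^ g₀ k 1) := by ring
    rw [e1]
    exact mul_le_mul_of_nonneg_left hVs (by positivity)
  refine (add_le_add k1' k2').trans ?_
  have e2 : 2 ^ Z / 2 ^ g₀ k 2 * En + 2 ^ (Y + dd) / 2 ^ g₀ k 2 * ((1 + u) * En) =
      (2 ^ Z + 2 ^ (Y + dd) * (1 + u)) / 2 ^ g₀ k 2 * En := by ring
  rw [e2]
  refine mul_le_mul_of_nonneg_right (div_le_div_of_nonneg_right ?_ hg2.le) hEn0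
  obtain ⟨W, hW⟩ : ∃ W, W = C₁ * (cl + X + Y + 1) + 29 * (cl + X + Y + 1) + dd := ⟨_, rfl⟩
  have f1 : (2 : ℝ) ^ Z ≤ 2 ^ W := p2 (by omega)
  have f2 : (2 : ℝ) ^ (Y + dd) * (1 + u) ≤ 2 ^ W := by
    calc (2 : ℝ) ^ (Y + dd) * (1 + u) ≤ 2 ^ (Y + dd) * (2 * u) :=
          mul_le_mul_of_nonneg_left (by linarith) (by positivity)
      _ = 2 ^ (Y + dd + (8 * cl + 2 * X + 4) + 1) := by
          rw [hu, pow_succ 2 (Y + dd + (8 * cl + 2 * X + 4)), pow_add 2 (Y + dd)]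
          ring
      _ ≤ _ := p2 (by omega)
  have f3 : (2 : ℝ) ^ (W + 1) = 2 ^ W * 2 := pow_succ _ _
  have f4 : (2 : ℝ) ^ (W + 1) ≤ 2 ^ ((C₁ + 30) * (cl + X + Y + 1) + dd) := by
    refine p2 ?_
    have e3 : (C₁ + 30) * (cl + X + Y + 1) = C₁ * (cl + X + Y + 1) + 30 * (cl + X + Y + 1) := by
      ring
    omega
  linarith

/-- **The large case, static place one and thin place two**, one closed slope. -/
theorem st_big1L (m D D₁ : ℕ) (hD : 1 ≤ D) : ∃ C : ℕ, 1 ≤ C ∧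
    ∀ {θ : ℝ} {S : PCl m} {P : List (Fin m) × Fin m → ℝ → ℝ → ℝ} (_ : ThrOf (chsys m θ) S P)
    (_ : TmH S) (c : ℕ → Fin m) (_ : Set.InjOn c (Set.Iio (3 + 1))) (a w' : ℚ)
    (b eb h' ε κ₀ : ℝ) (_ : 0 ≤ w') (_ : w' ≤ a) (_ : a ≤ 1) (_ : b < 1) (_ : eb < θ * w')
    (_ : 0 < h') (_ : bet P c 2 a w' + h' ≤ 1) (_ : 0 < ε) (_ : 0 < κ₀),
    Bas S (fun J F A₀ => ∀ {Dr N M A cl : ℕ} {Sc : ℕ → Prop} {w e h pp : ℕ → ℕ}
      {z g gc gT g₀ : ℕ → ℕ → ℕ} {κ : ℝ} {B : F.Ω → Prop}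
      {G : ℕ → PtT F → ℕ → MvPolynomial (Option (Fin m)) ℝ}
      {H : ℕ → LnT F → ℕ → MvPolynomial (Option (Fin m)) ℝ}
      {T : ℕ → PtT F → ℕ → MvPolynomial (Option (Fin m)) ℝ}
      {TH : ℕ → LnT F → ℕ → MvPolynomial (Option (Fin m)) ℝ}
      {Gt : ℕ → PtT F → MvPolynomial (Option (Fin m)) ℝ}
      {Ht : ℕ → LnT F → MvPolynomial (Option (Fin m)) ℝ},
      CEv F c 3 D Dr N M A cl Sc w e h pp z g gc gT g₀ κ B G H T TH Gt Ht → Sub B A₀ →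
      ε * J ≤ cl → C ≤ cl → ¬ Sc 0 → Sc 1 → ¬ Sc 2 →
      ∀ {X Y f dd eL i i₁ t k p : ℕ} {mu : LnT F → Polynomial ℝ},
      JNum N A cl X f dd w pp gc gT g₀ i i₁ t k p 2 1 →
      f + dd + C * (cl + X + 1) ≤ w t - w i₁ →
      (∃ q ≤ M, z t q = w k - w t) → g₀ t 1 + (w k - w t) ≤ g₀ k 1 + X →
      (∀ s, (mu s).natDegree ≤ D₁) →
      (∀ ω, B ω → |jA c Sc w G TH Ht i i₁ k 1 ω - (mu (slam F (w t) ω)).eval (rt F (w t) ω)| ≤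
        2 ^ Y * (2 ^ g₀ k 1 / 2 ^ g₀ k 3)) →
      (∀ ω, B ω → 2 ^ (w k + g₀ k 2) / 2 ^ (g₀ k 3 + dd) ≤ |jZ c Sc w G TH Ht i i₁ k 1 2 ω|) →
      (∀ ω, B ω → ∀ l ≤ 2, ∀ j < l, |gG G ω k l (some (c j))| ≤ 2 ^ (eL + nlp (g₀ k) j l)) →
      (w k : ℝ) ≤ b * J →
      NumG 2 J (w t) (w k) ⌊(a : ℝ) * J⌋₊ ⌊(w' : ℝ) * J⌋₊ ⌊eb * J⌋₊
        ⌊(bet P c 2 a w' + h') * J⌋₊ eL dd (C * (cl + X + Y + 1)) (g₀ k) →
      Pe F.p B < κ₀ * Pe F.p A₀) := by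
  classical
  obtain ⟨Ca, hCa, hjd⟩ := der_row m D D₁ hD
  obtain ⟨Cb, hCb, hjm⟩ := jmu2 D
  obtain ⟨Cc, hCc', hjv⟩ := jvar_st m D
  obtain ⟨Cd, hCd, hjc⟩ := jcl_st1
  obtain ⟨C₁, hC₁e⟩ : ∃ C₁, C₁ = (Ca + Cb + Cc + 2) * (Cd + 1) := ⟨_, rfl⟩
  have hC₁ : 1 ≤ C₁ := by
    rw [hC₁e]
    nlinarith
  have hCaC : Ca ≤ C₁ := by
    rw [hC₁e]
    nlinarith
  have hCcC : Cc ≤ C₁ := by
    rw [hC₁e]
    nlinarith
  obtain ⟨C₂, hC₂, hend⟩ := thin_endL m D (D₁ + 4 * D + 4 * D) 3 2 hD (by norm_num) (Or.inr rfl)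
  obtain ⟨C, hC⟩ : ∃ C, C = C₂ * (C₁ + 4) + 2 * C₁ := ⟨_, rfl⟩
  refine ⟨C, by omega, ?_⟩
  intro θ S P hP hT c hc a w' b eb h' ε κ₀ hw0 hwa ha hb he hh h2 hε hκ
  have hL2 : 0 < Real.log 2 := Real.log_pos (by norm_num)
  obtain ⟨μ, hμ⟩ : ∃ μ : ℝ, μ = min ε (1 - b) * Real.log 2 / 2 := ⟨_, rfl⟩
  have hμ0 : 0 < μ := by
    rw [hμ]
    have : 0 < min ε (1 - b) := lt_min hε (by linarith)
    positivity
  have hC1R : (1 : ℝ) ≤ C₁ := by exact_mod_cast hC₁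
  have hC10 : (0 : ℝ) < C₁ := by linarith
  obtain ⟨ε₁, hε₁⟩ : ∃ ε₁ : ℝ, ε₁ = μ / C₁ := ⟨_, rfl⟩
  have hε₁0 : 0 < ε₁ := by rw [hε₁]; positivity
  have htm := bas_ev (hT.2 ε₁ hε₁0) (show 0 < κ₀ / 8 by positivity)
  have hpos : Bas S (fun _ F A => 0 < Pe F.p A) := ⟨1, one_pos, 0, fun J _ F A hA =>
    hT.1 1 J F A hA⟩
  obtain ⟨J₁, hJ₁⟩ := exists_nat_ge ((C₁ : ℝ) / μ)
  refine Bas.mono J₁ (((hend hP hT c hc a w' b eb h' ε (κ₀ / 8) hw0 hwa ha hb he hh h2 hε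
    (by positivity)).and htm).and hpos) ?_
  rintro J hJ F A₀ ⟨⟨hA, htA⟩, hA0⟩
  intro Dr N M A cl Sc w e h pp z g gc gT g₀ κ B G H T TH Gt Ht E hBA hεc hCc hs0 hs1 hs2 X Y f dd
    eL i i₁ t k p mu n hfr hz hg1 hm1' hmu hbig hlip hKb nu
  by_contra hcon
  rw [not_lt] at hcon
  have hB0 : 0 < Pe F.p B := (mul_pos hκ hA0).trans_le hcon
  have hJ0 : (0 : ℝ) ≤ J := Nat.cast_nonneg J
  have hJ1 : (C₁ : ℝ) ≤ μ * J := by
    have h2 : (J₁ : ℝ) ≤ J := by exact_mod_cast hJ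
    have h3 := hJ₁.trans h2
    rw [div_le_iff₀ hμ0] at h3
    linarith
  have hθ0 : 0 ≤ ε₁ * J := by positivity
  have hmain : C₁ * (ε₁ * J + 1) ≤ min ε (1 - b) * Real.log 2 * J := by
    have e1 : C₁ * (ε₁ * J) = μ * J := by rw [hε₁]; field_simp
    have e2 : 2 * (μ * J) = min ε (1 - b) * Real.log 2 * J := by rw [hμ]; ring
    rw [mul_add, mul_one, e1]
    linarith
  have hm1 : C₁ * (ε₁ * J + 1) ≤ cl * Real.log 2 := by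
    refine hmain.trans ?_
    have e1 : min ε (1 - b) * Real.log 2 * J ≤ ε * Real.log 2 * J :=
      mul_le_mul_of_nonneg_right (mul_le_mul_of_nonneg_right (min_le_left _ _) hL2.le) hJ0
    have e2 := mul_le_mul_of_nonneg_right hεc hL2.le
    linarith
  have hm2 : ∀ x, x ≤ w k → C₁ * (ε₁ * J + 1) ≤ ((J : ℝ) - x) * Real.log 2 := by
    intro x hx
    refine hmain.trans ?_
    have e1 : min ε (1 - b) * Real.log 2 * J ≤ (1 - b) * Real.log 2 * J :=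
      mul_le_mul_of_nonneg_right (mul_le_mul_of_nonneg_right (min_le_right _ _) hL2.le) hJ0
    have e2 : (x : ℝ) ≤ b * J := le_trans (by exact_mod_cast hx) hKb
    have e3 := mul_le_mul_of_nonneg_right e2 hL2.le
    linarith
  have hexp : Real.exp (C₁ * (ε₁ * J + 1)) ≤ 2 ^ cl := by
    have e2 : Real.exp (C₁ * (ε₁ * J + 1)) ≤ Real.exp (cl * Real.log 2) :=
      Real.exp_le_exp.2 hm1
    rw [mul_comm (cl : ℝ), ← Real.rpow_def_of_pos (by norm_num), Real.rpow_natCast] at e2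
    exact e2
  have hθ1 : 0 ≤ ε₁ * J + 1 := by linarith
  have hcast : ∀ {a : ℕ}, a ≤ C₁ → (a : ℝ) * (ε₁ * J + 1) ≤ C₁ * (ε₁ * J + 1) := fun {a} h =>
    mul_le_mul_of_nonneg_right (by exact_mod_cast h) hθ1
  have hQ1 : Cc * (cl + X + cl + 1) ≤ C * (cl + X + 1) := by
    have e1 : Cc * (cl + X + cl + 1) ≤ 2 * (C₁ * (cl + X + 1)) := by
      calc Cc * (cl + X + cl + 1) ≤ C₁ * (cl + X + cl + 1) := Nat.mul_le_mul_right _ hCcC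
        _ ≤ _ := by nlinarith
    have e2 : C * (cl + X + 1) = C₂ * (C₁ + 4) * (cl + X + 1) + 2 * (C₁ * (cl + X + 1)) := by
      rw [hC]; ring
    omega
  -- the derivative of the closed slope
  obtain ⟨Ba, a1, a2, a3⟩ := hjd E (Y := Y) hs0 hs1 hs2 n hB0 hθ0
    (htA B hBA (by linarith) hB0) ((hcast hCaC).trans (hm2 _ le_rfl))
    ((Real.exp_le_exp.2 (hcast hCaC)).trans hexp) hm1' hmu
  have hBa0 : 0 < Pe F.p Ba := by linarith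
  have hEa := E.sb (B' := Ba) (κ₁ := 1 / 2) (κ₂ := 2 * max κ 0) a1 (by linarith) (by positivity)
    (by
      have := le_max_left κ 0
      linarith)
  -- the denominator
  obtain ⟨B', c1, c2, c3⟩ := hjv hEa (n := cl) hs0 hs1 hs2 n hBa0 hθ0 (fun B' hB' s1 s2 =>
    htA B' (fun ω hω => hBA ω (a1 ω (s1 ω hω))) (by linarith) hB')
    ((hcast hCcC).trans (hm2 _ (n.i1t.trans n.tk))) ((Real.exp_le_exp.2 (hcast hCcC)).trans hexp)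
    (by omega)
  have b1 : Sub B' B := fun ω hω => a1 ω (c1 ω hω)
  have hE2 := E.sb (B' := B') (κ₁ := 1 / 4) (κ₂ := 4 * max κ 0) b1 (by linarith) (by positivity)
    (by
      have := le_max_left κ 0
      linarith)
  obtain ⟨mu₂, hmu₂⟩ : ∃ mu₂, mu₂ = mu2S c (w t) (fun s => Ht i₁ (co (w t - w i₁) s))
    (Xcf w TH Sc i t) mu := ⟨_, rfl⟩
  have hXg : ∀ s l, (Xcf w TH Sc i t s l).totalDegree ≤ D := fun s l => by
    unfold Xcf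
    split_ifs
    · exact deg_TH E n.iN _ l
    · exact deg_TH E n.tN _ l
  have hm2' : ∀ s, (mu₂ s).natDegree ≤ D₁ + 4 * D := fun s => by
    rw [hmu₂]
    exact mu2S_deg c (w t) (fun s => (E.evs i₁ n.i1N).dH _) hXg hm1' s
  have hm1'' : ∀ s, (mu s).natDegree ≤ D₁ + 4 * D := fun s => (hm1' s).trans (by omega)
  have hY1 : Cb * (cl + X + 1) + Ca * (cl + X + Y + 1) ≤ (Ca + Cb + 1) * (cl + X + Y + 1) := by
    nlinarith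
  have b3 : ∀ ω, B' ω → ∀ V : Option (Fin m) → ℝ, V none = 0 →
      |∑ j ∈ range 2, (lamS c (w t) (fun s => Ht i₁ (co (w t - w i₁) s)) (Xcf w TH Sc i t) mu mu₂
        (slam F (w t) ω) j).eval (rt F (w t) ω) * V (some (c j)) - cv (gG G ω k 2) V| ≤
      2 ^ (C₁ * (cl + X + Y + 1) + dd) / 2 ^ g₀ k 2 * en c (g₀ k) (w k) (gG G ω k) 2 V := by
    intro ω hω V hV
    have q1 := a3 ω (c1 ω hω)
    have q2 := hbig ω (b1 ω hω)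
    have q3 := c3 mu ω hω
    have q4 := hjm E (Y := Ca * (cl + X + Y + 1)) hs0 hs1 hs2 n hz hg1 (b1 ω hω) q1 q2 q3
    rw [← hmu₂] at q4
    have q5 := hjc E (Y := (Ca + Cb + 1) * (cl + X + Y + 1)) hs0 hs1 hs2 n (b1 ω hω)
      ((hmu ω (b1 ω hω)).trans (mul_le_mul_of_nonneg_right (p2 (by nlinarith))
        (by positivity)))
      (q4.trans (mul_le_mul_of_nonneg_right (p2 (by omega)) (by positivity))) q2 q3 V hV
    refine q5.trans (mul_le_mul_of_nonneg_right (div_le_div_of_nonneg_right (p2 ?_)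
      (by positivity)) (en_nonneg _ _ _ _ _ _))
    have e1 : Cd * (cl + X + (Ca + Cb + 1) * (cl + X + Y + 1) + 1) ≤
        Cd * ((Ca + Cb + 2) * (cl + X + Y + 1)) := by
      refine Nat.mul_le_mul_left _ ?_
      nlinarith
    have e2 : Cd * ((Ca + Cb + 2) * (cl + X + Y + 1)) ≤ C₁ * (cl + X + Y + 1) := by
      rw [← mul_assoc]
      refine Nat.mul_le_mul_right _ ?_
      rw [hC₁e]
      nlinarith
    omega
  have hX : C₂ * (cl + (C₁ * (cl + X + Y + 1) + 2 * X) + 1) ≤ C * (cl + X + Y + 1) := by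
    have e1 : C * (cl + X + Y + 1) = C₂ * ((C₁ + 4) * (cl + X + Y + 1)) +
      2 * C₁ * (cl + X + Y + 1) := by rw [hC]; ring
    rw [e1]
    refine le_trans (Nat.mul_le_mul_left C₂ ?_) (Nat.le_add_right _ _)
    nlinarith
  have hfin := hA hE2 (fun ω hω => hBA ω (b1 ω hω)) hεc
    (by
      have : C₂ ≤ C₂ * (C₁ + 4) := Nat.le_mul_of_pos_right C₂ (by omega)
      omega) (i₀ := i) (t := t)
    (k := k) (X := C₁ * (cl + X + Y + 1) + 2 * X) (dd := dd) (eL := eL)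
    (lam := lamS c (w t) (fun s => Ht i₁ (co (w t - w i₁) s)) (Xcf w TH Sc i t) mu mu₂) n.tN n.kN
    n.tk n.pk n.ck hs0 (fun ω hω => hlip ω (b1 ω hω)) (fun _ => ⟨n.iN, n.it, (n.cT 1 (by norm_num)).1,
      (n.cT 1 (by norm_num)).2.2.2, by
        have := n.m1
        have := n.lb
        omega⟩)
    (fun s j => lamS_deg c (w t) (fun s => (E.evs i₁ n.i1N).dH _) hXg hm1'' hm2' s j)
    (fun ω hω V hV => (b3 ω hω V hV).trans (mul_le_mul_of_nonneg_right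
      (div_le_div_of_nonneg_right (p2 (by omega)) (by positivity)) (en_nonneg _ _ _ _ _ _))) hKb
    { K1 := nu.K1
      t1 := nu.t1
      n1 := by have := nu.n1; omega
      n2 := fun l hl => by have := nu.n2 l hl; omega
      n4 := fun l hl => hX.trans (nu.n4 l hl)
      n5 := by have := nu.n5; omega
      n6 := by have := nu.n6; omega }
  linarith

/-- **The end of the critical cell, static place one and thin place two**, one closed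
slope. -/
theorem st_crit1L (m D D₁ : ℕ) (hD : 1 ≤ D) : ∃ C : ℕ, 1 ≤ C ∧
    ∀ {θ θ' : ℝ} {S : PCl m} {P P' : List (Fin m) × Fin m → ℝ → ℝ → ℝ}
    (_ : ThrOf (chsys m θ) S P) (_ : ThrOf (chsys m θ') S P') (_ : TmH S) (c : ℕ → Fin m) (_ : Set.InjOn c (Set.Iio (3 + 1))) (a₁ : ℚ) (e₁ h₁ : ℝ)
    (_ : 0 ≤ a₁) (_ : a₁ < 1) (_ : e₁ < θ * a₁) (_ : 0 < h₁) (_ : bet P c 0 a₁ a₁ + h₁ ≤ 1)
    (_ : bet P c 1 a₁ a₁ + h₁ ≤ 1) (a w' : ℚ)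
    (b eb h' : ℝ) (_ : 0 ≤ w') (_ : w' ≤ a) (_ : a ≤ 1) (_ : b < 1) (_ : eb < θ * w')
    (_ : 0 < h') (_ : bet P c 3 a w' + h' ≤ 1) (a₂ w₂ : ℚ) (eb₂ h₂ : ℝ) (_ : 0 ≤ w₂)
    (_ : w₂ ≤ a₂) (_ : a₂ ≤ 1) (_ : eb₂ < θ' * w₂) (_ : 0 < h₂) (_ : bet P' c 2 a₂ w₂ + h₂ ≤ 1)
    (ε κ₀ : ℝ) (_ : 0 < ε) (_ : 0 < κ₀),
    Bas S (fun J F A₀ => ∀ {Dr N M A cl : ℕ} {Sc : ℕ → Prop} {w e h pp : ℕ → ℕ}
      {z g gc gT g₀ : ℕ → ℕ → ℕ} {κ : ℝ} {B : F.Ω → Prop}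
      {G : ℕ → PtT F → ℕ → MvPolynomial (Option (Fin m)) ℝ}
      {H : ℕ → LnT F → ℕ → MvPolynomial (Option (Fin m)) ℝ}
      {T : ℕ → PtT F → ℕ → MvPolynomial (Option (Fin m)) ℝ}
      {TH : ℕ → LnT F → ℕ → MvPolynomial (Option (Fin m)) ℝ}
      {Gt : ℕ → PtT F → MvPolynomial (Option (Fin m)) ℝ}
      {Ht : ℕ → LnT F → MvPolynomial (Option (Fin m)) ℝ},
      CEv F c 3 D Dr N M A cl Sc w e h pp z g gc gT g₀ κ B G H T TH Gt Ht → Sub B A₀ →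
      ε * J ≤ cl → C ≤ cl →
      ∀ {i₀ i₁ i₂ i₃ X X' p x d eM f : ℕ} {g' : ℕ → ℕ},
      NumW 3 N M A cl J Sc w e pp z g gc gT g₀ i₀ i₁ i₂ i₃ X' p x g' → C * (cl + X + 1) ≤ X' →
      e i₂ ≤ eM → e i₃ ≤ eM → (∀ y < 3, g₀ i₃ y ≤ g' y + d) → (∀ l < 3, Sc l ↔ l = 1) →
      (w i₃ : ℝ) ≤ b * J →
      NumO J A X w e gT g₀ i₀ i₂ i₃ f (C * (cl + X + 1)) ⌊(a₁ : ℝ) * J⌋₊ ⌊e₁ * J⌋₊
        ⌊(bet P c 0 a₁ a₁ + h₁) * J⌋₊ ⌊(bet P c 1 a₁ a₁ + h₁) * J⌋₊ g' →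
      NumF 3 J (w i₂) (w i₃) ⌊(a : ℝ) * J⌋₊ ⌊(w' : ℝ) * J⌋₊ ⌊eb * J⌋₊
        ⌊(bet P c 3 a w' + h') * J⌋₊ eM d (C * (cl + X' + 1)) f p 1 (g₀ i₃) g' (gT i₂) →
      ∀ {X₂ Y f₂ dd eL t k p₂ : ℕ} {mu : LnT F → Polynomial ℝ},
      JNum N A cl X₂ f₂ dd w pp gc gT g₀ i₀ i₁ t k p₂ 2 1 →
      f₂ + dd + C * (cl + X₂ + 1) ≤ w t - w i₁ →
      w k + g₀ k 2 + g₀ i₃ 3 ≤ w i₃ + g' 2 + g₀ k 3 + dd + X' →
      (∃ q ≤ M, z t q = w k - w t) → g₀ t 1 + (w k - w t) ≤ g₀ k 1 + X₂ →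
      (∀ s, (mu s).natDegree ≤ D₁) →
      (∀ ω, B ω → |jA c Sc w G TH Ht i₀ i₁ k 1 ω - (mu (slam F (w t) ω)).eval (rt F (w t) ω)| ≤
        2 ^ Y * (2 ^ g₀ k 1 / 2 ^ g₀ k 3)) →
      (∀ ω, B ω → ∀ l ≤ 2, ∀ j < l, |gG G ω k l (some (c j))| ≤ 2 ^ (eL + nlp (g₀ k) j l)) →
      (w k : ℝ) ≤ b * J →
      NumG 2 J (w t) (w k) ⌊(a₂ : ℝ) * J⌋₊ ⌊(w₂ : ℝ) * J⌋₊ ⌊eb₂ * J⌋₊
        ⌊(bet P' c 2 a₂ w₂ + h₂) * J⌋₊ eL dd (C * (cl + X₂ + Y + 1)) (g₀ k) →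
      Pe F.p B < κ₀ * Pe F.p A₀) := by
  classical
  obtain ⟨C₁, hC₁, hsm⟩ := st_endG m D 3 hD (by norm_num)
  obtain ⟨C₂, hC₂, hbg⟩ := st_big1L m D D₁ hD
  refine ⟨C₁ + C₂, by omega, ?_⟩
  intro θ θ' S P P' hP hP' hT c hc a₁ e₁ h₁ ha0 ha1 he1 hh1 hb0 hb1 a w' b eb h' hw0 hwa ha hb he hh h2
    a₂ w₂ eb₂ h₂ hw20 hwa2 ha2 he2' hh2 hbt2 ε κ₀ hε hκ
  refine Bas.mono 0 ((hsm hP hT c hc a₁ e₁ h₁ ha0 ha1 he1 hh1 hb0 hb1 a w' b eb h' ε (κ₀ / 2) hw0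
    hwa ha hb he hh h2 hε (by positivity)).and (hbg hP' hT c hc a₂ w₂ b eb₂ h₂ ε (κ₀ / 2) hw20
    hwa2 ha2 hb he2' hh2 hbt2 hε (by positivity))) ?_
  rintro J - F A₀ ⟨hA, hA'⟩
  intro Dr N M A cl Sc w e h pp z g gc gT g₀ κ B G H T TH Gt Ht E hBA hεc hCc i₀ i₁ i₂ i₃ X X' p x
    d eM f g' n hXX he2 he3 hd h1 hbJ no nf X₂ Y f₂ dd eL t k p₂ mu nj hfr hbn hz hg1 hm1 hmu
    hlip hkJ ng
  by_contra hcon
  rw [not_lt] at hcon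
  have hpn := Pe_nonneg F.isLaw
  have hs0 : ¬ Sc 0 := fun h => absurd ((h1 0 (by norm_num)).1 h) (by norm_num)
  have hs1 : Sc 1 := (h1 1 (by norm_num)).2 rfl
  have hs2 : ¬ Sc 2 := fun h => absurd ((h1 2 (by norm_num)).1 h) (by norm_num)
  have eX : (C₁ + C₂) * (cl + X + 1) = C₁ * (cl + X + 1) + C₂ * (cl + X + 1) := by ring
  have eX' : C₁ * (cl + X' + 1) ≤ (C₁ + C₂) * (cl + X' + 1) := Nat.mul_le_mul_right _ (by omega)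
  have eX2 : (C₁ + C₂) * (cl + X₂ + 1) = C₁ * (cl + X₂ + 1) + C₂ * (cl + X₂ + 1) := by ring
  have eY : C₂ * (cl + X₂ + Y + 1) ≤ (C₁ + C₂) * (cl + X₂ + Y + 1) :=
    Nat.mul_le_mul_right _ (by omega)
  obtain ⟨Bs, hBs⟩ : ∃ Bs : F.Ω → Prop, Bs = fun ω => B ω ∧
      |jY c Sc w G TH Ht i₀ i₁ i₂ i₃ 1 2 ω| ≤ 2 ^ X' * (2 ^ w i₃ / 2 ^ g₀ i₃ 3) * 2 ^ g' 2 :=
    ⟨_, rfl⟩
  obtain ⟨Bb, hBb⟩ : ∃ Bb : F.Ω → Prop, Bb = fun ω => B ω ∧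
      ¬ |jY c Sc w G TH Ht i₀ i₁ i₂ i₃ 1 2 ω| ≤ 2 ^ X' * (2 ^ w i₃ / 2 ^ g₀ i₃ 3) * 2 ^ g' 2 :=
    ⟨_, rfl⟩
  have hsB : Sub Bs B := fun ω hω => by rw [hBs] at hω; exact hω.1
  have hbB : Sub Bb B := fun ω hω => by rw [hBb] at hω; exact hω.1
  have hor := Pe_or F.isLaw (A := B) (B₀ := Bs) (B₁ := Bb) (fun ω hω => by
    rw [hBs, hBb]
    by_cases h4 : |jY c Sc w G TH Ht i₀ i₁ i₂ i₃ 1 2 ω| ≤
      2 ^ X' * (2 ^ w i₃ / 2 ^ g₀ i₃ 3) * 2 ^ g' 2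
    · exact Or.inl ⟨hω, h4⟩
    · exact Or.inr ⟨hω, h4⟩)
  have hκm := le_max_left κ 0
  rcases le_or_gt (Pe F.p B / 2) (Pe F.p Bs) with hc1 | hc1
  · -- the small case
    have hE2 := E.sb (B' := Bs) (κ₁ := 1 / 2) (κ₂ := 2 * max κ 0) hsB (by linarith)
      (by positivity) (by linarith)
    have hfin := hA hE2 (fun ω hω => hBA ω (hsB ω hω)) hεc (by omega) n (by omega) he2 he3 hd
      (n.hh 2 (by norm_num) hs2 0 (by norm_num) hs0) h1 (fun y hy hys => by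
        have hy' : y = 0 ∨ y = 1 ∨ y = 2 := by omega
        rcases hy' with h4 | h4 | h4
        · subst h4
          exact Or.inl (n.hh 2 (by norm_num) hs2 0 (by norm_num) hs0)
        · subst h4
          exact absurd hs1 hys
        · subst h4
          refine Or.inr (Or.inr fun ω hω => ?_)
          rw [hBs] at hω
          exact hω.2) hbJ (NumO.mono no (by omega)) (NumF.mono nf eX')
    linarith
  · -- the large case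
    have hc2 : Pe F.p B / 2 ≤ Pe F.p Bb := by linarith
    have hE2 := E.sb (B' := Bb) (κ₁ := 1 / 2) (κ₂ := 2 * max κ 0) hbB (by linarith)
      (by positivity) (by linarith)
    have hfin := hA' hE2 (fun ω hω => hBA ω (hbB ω hω)) hεc (by omega) hs0 hs1 hs2 nj (by omega)
      hz hg1 hm1 (fun ω hω => hmu ω (hbB ω hω)) (fun ω hω => by
        have h4 := jY_st E n.h0 n.h1 n.h2 n.h3 nj.kN n.w0 ω
        rw [hBb] at hω
        rw [← h4]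
        exact (big_num (by omega)).trans (not_le.1 hω.2).le) (fun ω hω => hlip ω (hbB ω hω)) hkJ (NumG.mono ng eY)
    linarith

end Pool.TNW
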