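import Pool.Agent.H66.D2.Rdl
import Pool.Agent.H4.D2.Rpl

/-!
# D2, case [1]: torsion

`tor`: the real algebra. `join1`: on one law (the pair with its copies), the near digits `r` of the
slopes are affine functions of the point with coefficients read from the copies, at both samples; the
own relation `(r' - r) X = 0`, the own number `G p + m α r X` (few bits) and the two-time relation
`τ G = - α (r' - r)` give `(m + 1) α (r' - r) = 0`.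
-/

set_option autoImplicit false

namespace Pool.D2A

open Finset Real
open Pool.Agent.H49.Ent Pool.Agent.H32.Dense Pool.STK
open Pool.BFL (Pb)

/-- **Torsion**, real algebra. -/
theorem tor {m α τ Δ σ ρ G δ₁ δ₂ δ₃ η : ℝ} (hm : 0 ≤ m) (ha : |σ + ρ| ≤ η)
    (hr : |Δ - τ * σ| ≤ δ₁) (hG : |G + m * α * ρ| ≤ δ₂) (hT : |τ * G + α * Δ| ≤ δ₃) :
    (m + 1) * |α| * |Δ| ≤ m * |α| * (δ₁ + |τ| * η) + |τ| * δ₂ + δ₃ := by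
  have e : (m + 1) * α * Δ = m * α * (Δ - τ * σ) + m * α * τ * (σ + ρ) -
      τ * (G + m * α * ρ) + (τ * G + α * Δ) := by ring
  have h0 : (m + 1) * |α| * |Δ| = |(m + 1) * α * Δ| := by
    rw [abs_mul, abs_mul, abs_of_nonneg (by linarith : (0 : ℝ) ≤ m + 1)]
  have h1 : |m * α * (Δ - τ * σ)| ≤ m * |α| * δ₁ := by
    rw [abs_mul, abs_mul, abs_of_nonneg hm]
    exact mul_le_mul_of_nonneg_left hr (by positivity)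
  have h2 : |m * α * τ * (σ + ρ)| ≤ m * |α| * |τ| * η := by
    rw [abs_mul, abs_mul, abs_mul, abs_of_nonneg hm]
    exact mul_le_mul_of_nonneg_left ha (by positivity)
  have h3 : |τ * (G + m * α * ρ)| ≤ |τ| * δ₂ := by
    rw [abs_mul]
    exact mul_le_mul_of_nonneg_left hG (abs_nonneg _)
  rw [h0, e]
  have h4 := abs_add_le (m * α * (Δ - τ * σ) + m * α * τ * (σ + ρ) - τ * (G + m * α * ρ))
    (τ * G + α * Δ)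
  have h5 := abs_sub (m * α * (Δ - τ * σ) + m * α * τ * (σ + ρ)) (τ * (G + m * α * ρ))
  have h6 := abs_add_le (m * α * (Δ - τ * σ)) (m * α * τ * (σ + ρ))
  nlinarith

theorem law_Pb {Ω : Type} [Fintype Ω] (p : Ω → ℝ) (E : Ω → Prop) : law p E True = Pb p E := by
  classical
  unfold law Pb
  refine Finset.sum_congr rfl fun ω _ => ?_
  by_cases h : E ω
  · rw [if_pos h, if_pos (by simpa using h)]
  · rw [if_neg h, if_neg (by simpa using h)]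

theorem Pb_sub {Ω : Type} [Fintype Ω] {p : Ω → ℝ} (h0 : ∀ ω, 0 ≤ p ω) {A B : Ω → Prop}
    (h : ∀ ω, 0 < p ω → A ω → B ω) : Pb p A ≤ Pb p B := by
  classical
  unfold Pb
  refine Finset.sum_le_sum fun ω _ => ?_
  rcases (h0 ω).eq_or_lt with h1 | h1
  · rw [← h1]
    simp
  · by_cases hA : A ω
    · rw [if_pos hA, if_pos (h ω h1 hA)]
    · rw [if_neg hA]
      split_ifs
      · exact h0 ω
      · exact le_rfl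

theorem Pb_or {Ω : Type} [Fintype Ω] {p : Ω → ℝ} (h0 : ∀ ω, 0 ≤ p ω) (A B : Ω → Prop) :
    Pb p (fun ω => A ω ∨ B ω) ≤ Pb p A + Pb p B := by
  classical
  unfold Pb
  rw [← Finset.sum_add_distrib]
  refine Finset.sum_le_sum fun ω _ => ?_
  have := h0 ω
  by_cases hA : A ω
  · by_cases hB : B ω
    · rw [if_pos (Or.inl hA), if_pos hA, if_pos hB]
      linarith
    · rw [if_pos (Or.inl hA), if_pos hA, if_neg hB]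
      linarith
  · by_cases hB : B ω
    · rw [if_pos (Or.inr hB), if_neg hA, if_pos hB]
      linarith
    · rw [if_neg (fun h => h.elim hA hB), if_neg hA, if_neg hB]
      linarith

variable {Ω ζ κ ε : Type} [Fintype Ω]

/-- The direction. -/
def XE (E : ℝ) (i : Fin 2) : ℝ := if i = 0 then 1 else E

/-- The coefficients of the own relation. -/
def ow (M₁ N₁ : Fin 2 → Fin 2 → ℝ) (E : ℝ) (j : Fin 3) : ℝ :=
  if j = 0 then (N₁ 0 0 - M₁ 0 0) + E * (N₁ 1 0 - M₁ 1 0)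
  else if j = 1 then (N₁ 0 1 - M₁ 0 1) + E * (N₁ 1 1 - M₁ 1 1)
  else N₁ 0 0 + (N₁ 0 1 + N₁ 1 0) * E + N₁ 1 1 * E ^ 2

/-- The coefficients of the own number. -/
def on (m α : ℝ) (G : Fin 2 → ℝ) (M₁ : Fin 2 → Fin 2 → ℝ) (E : ℝ) (j : Fin 3) : ℝ :=
  if j = 0 then G 0 + m * α * (M₁ 0 0 + E * M₁ 1 0)
  else if j = 1 then G 1 + m * α * (M₁ 0 1 + E * M₁ 1 1)
  else 0

theorem ow0 (M₁ N₁ : Fin 2 → Fin 2 → ℝ) (E : ℝ) :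
    ow M₁ N₁ E 0 = (N₁ 0 0 - M₁ 0 0) + E * (N₁ 1 0 - M₁ 1 0) := by
  simp [ow]

theorem ow1 (M₁ N₁ : Fin 2 → Fin 2 → ℝ) (E : ℝ) :
    ow M₁ N₁ E 1 = (N₁ 0 1 - M₁ 0 1) + E * (N₁ 1 1 - M₁ 1 1) := by
  simp [ow]

theorem ow2 (M₁ N₁ : Fin 2 → Fin 2 → ℝ) (E : ℝ) :
    ow M₁ N₁ E 2 = N₁ 0 0 + (N₁ 0 1 + N₁ 1 0) * E + N₁ 1 1 * E ^ 2 := by
  simp [ow]

theorem on0 (m α : ℝ) (G : Fin 2 → ℝ) (M₁ : Fin 2 → Fin 2 → ℝ) (E : ℝ) :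
    on m α G M₁ E 0 = G 0 + m * α * (M₁ 0 0 + E * M₁ 1 0) := by
  simp [on]

theorem on1 (m α : ℝ) (G : Fin 2 → ℝ) (M₁ : Fin 2 → Fin 2 → ℝ) (E : ℝ) :
    on m α G M₁ E 1 = G 1 + m * α * (M₁ 0 1 + E * M₁ 1 1) := by
  simp [on]

theorem on2 (m α : ℝ) (G : Fin 2 → ℝ) (M₁ : Fin 2 → Fin 2 → ℝ) (E : ℝ) :
    on m α G M₁ E 2 = 0 := by
  simp [on]

/-- The three variables. -/
def v3 (P : Fin 2 → ℤ) (τ : ℤ) (j : Fin 3) : ℤ := if j = 0 then P 0 else if j = 1 then P 1 else τ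

theorem sum_v3 (a : Fin 3 → ℝ) (P : Fin 2 → ℤ) (τ : ℤ) :
    ∑ j, a j * v3 P τ j = a 0 * P 0 + a 1 * P 1 + a 2 * τ := by
  rw [Fin.sum_univ_three]
  simp [v3]

/-- A small quotient. -/
theorem le_of_read {Q X Y c : ℝ} (hX : 0 < X) (h1 : Q * X ≤ Y) (h2 : Y ≤ c * X) : Q ≤ c :=
  le_of_mul_le_mul_right (h1.trans h2) hX

open Polynomial in
/-- A quadratic polynomial. -/
noncomputable def qd (a b c : ℝ) : ℝ[X] := C a + C b * X + C c * X ^ 2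

open Polynomial in
theorem qd_deg (a b c : ℝ) : (qd a b c).natDegree ≤ 2 := by
  unfold qd
  compute_degree

open Polynomial in
theorem qd_eval (a b c E : ℝ) : (qd a b c).eval E = a + b * E + c * E ^ 2 := by
  unfold qd
  simp

open Polynomial in
theorem qd_coeff (a b c : ℝ) : (qd a b c).coeff 0 = a ∧ (qd a b c).coeff 1 = b ∧
    (qd a b c).coeff 2 = c := by
  unfold qd
  refine ⟨?_, ?_, ?_⟩ <;> simp [coeff_X, coeff_C]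

/-- The last step of `join1`. -/
theorem fin1 {A s g : ℕ} {R B K m μ α τ Δ G n₀ n₁ l₀ l₁ x₀ x₁ x₂ E P₀ P₁ u : ℝ}
    (hm : 0 ≤ m) (hK : 0 ≤ K) (hR : 0 ≤ R) (hB : 0 ≤ B) (hμ : 0 ≤ μ) (hα : |α| ≤ B)
    (hτ : |τ| ≤ A * 2 ^ s) (hP₀ : |P₀| ≤ A * 2 ^ s) (hP₁ : |P₁| ≤ A * 2 ^ s)
    (hu : |u| ≤ μ * 2 ^ s) (h0 : |x₀| ≤ μ) (h1 : |x₁| ≤ μ) (h2 : |x₂| ≤ μ * (1 + R))
    (hanti : |(n₀ + n₁ * E) + (l₀ + l₁ * E)| ≤ 2 * μ * (1 + R))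
    (hd : |Δ - (u + (x₀ * P₀ + x₁ * P₁) + τ * (n₀ + n₁ * E))| ≤ 2 * K)
    (hG : |G + m * α * ((l₀ + l₁ * E) - x₂)| ≤ 1 / 2 ^ g) (hT : |τ * G + α * Δ| ≤ K) :
    (m + 1) * |α| * |Δ| ≤ m * B * ((μ * 2 ^ s * (1 + 2 * A) + 2 * K) +
      A * 2 ^ s * (2 * μ * (1 + R))) + A * 2 ^ s * (1 / 2 ^ g + m * B * (μ * (1 + R))) + K := by
  have hmB : 0 ≤ m * B := mul_nonneg hm hB
  have hA0 : (0 : ℝ) ≤ A := Nat.cast_nonneg A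
  have hs0 : (0 : ℝ) < 2 ^ s := by positivity
  have a1 : |x₀ * P₀| ≤ μ * (A * 2 ^ s) := by
    rw [abs_mul]
    exact mul_le_mul h0 hP₀ (abs_nonneg _) hμ
  have a2 : |x₁ * P₁| ≤ μ * (A * 2 ^ s) := by
    rw [abs_mul]
    exact mul_le_mul h1 hP₁ (abs_nonneg _) hμ
  have a3 : |Δ - τ * (n₀ + n₁ * E)| ≤ μ * 2 ^ s * (1 + 2 * A) + 2 * K := by
    rw [abs_le] at hd a1 a2 hu ⊢
    constructor <;> linarith [hd.1, hd.2, a1.1, a1.2, a2.1, a2.2, hu.1, hu.2]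
  have a4 : |m * α * x₂| ≤ m * B * (μ * (1 + R)) := by
    rw [abs_mul, abs_mul, abs_of_nonneg hm]
    exact mul_le_mul (mul_le_mul_of_nonneg_left hα hm) h2 (abs_nonneg _) hmB
  have a5 : |G + m * α * (l₀ + l₁ * E)| ≤ 1 / 2 ^ g + m * B * (μ * (1 + R)) := by
    have e : G + m * α * (l₀ + l₁ * E) = G + m * α * ((l₀ + l₁ * E) - x₂) + m * α * x₂ := by ring
    rw [e]
    exact (abs_add_le _ _).trans (add_le_add hG a4)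
  have a6 := tor hm hanti a3 a5 hT
  have b1 : 0 ≤ μ * 2 ^ s * (1 + 2 * A) + 2 * K := by positivity
  have b2 : 0 ≤ 2 * μ * (1 + R) := by positivity
  have b3 : |τ| * (2 * μ * (1 + R)) ≤ A * 2 ^ s * (2 * μ * (1 + R)) :=
    mul_le_mul_of_nonneg_right hτ b2
  have b4 : m * |α| * (μ * 2 ^ s * (1 + 2 * A) + 2 * K + |τ| * (2 * μ * (1 + R))) ≤
      m * B * ((μ * 2 ^ s * (1 + 2 * A) + 2 * K) + A * 2 ^ s * (2 * μ * (1 + R))) :=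
    mul_le_mul (mul_le_mul_of_nonneg_left hα hm) (by linarith)
      (by have := abs_nonneg τ; positivity) hmB
  have b5 : 0 ≤ 1 / 2 ^ g + m * B * (μ * (1 + R)) := by positivity
  have b6 : |τ| * (1 / 2 ^ g + m * B * (μ * (1 + R))) ≤
      A * 2 ^ s * (1 / 2 ^ g + m * B * (μ * (1 + R))) := mul_le_mul_of_nonneg_right hτ b5
  linarith

/-- The threshold of `join1`. -/
noncomputable def th1 (A s g : ℕ) (R B K m μ : ℝ) : ℝ :=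
  m * B * ((μ * 2 ^ s * (1 + 2 * A) + 2 * K) + A * 2 ^ s * (2 * μ * (1 + R))) +
    A * 2 ^ s * (1 / 2 ^ g + m * B * (μ * (1 + R))) + K

open Polynomial in
/-- **Case [1]: the join on one law.** -/
theorem join1 {q : Ω → ℝ} (hq : IsLaw q) (zc : Ω → ζ) (Wc : Ω → κ) (e0 : Ω → ε) (ek : Ω → ℤ)
    (E0 : ε → ℝ) (α0 : ζ → ε → ℝ) (G0 : ζ → ε → Fin 2 → ℝ) (b0 : Ω → ℤ)
    (M0 N0 : κ → ζ → Fin 2 → ℝ) (M1 N1 : κ → ζ → Fin 2 → Fin 2 → ℝ)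
    (P r r' : Ω → Fin 2 → ℤ) (τ : Ω → ℤ) (G : Ω → Prop)
    {A s g k : ℕ} {R B K m μ c e1 eH i ρ : ℝ}
    (hA : 1 ≤ A) (hR : 0 ≤ R) (hB : 0 ≤ B) (hK : 0 ≤ K) (hm : 0 ≤ m) (hc : 0 < c)
    (hP : ∀ ω, 0 < q ω → ∀ j, |v3 (P ω) (τ ω) j| ≤ ((A * 2 ^ s : ℕ) : ℤ))
    (hEb : ∀ ω, 0 < q ω → G ω → |E0 (e0 ω)| ≤ R ∧ |2 ^ k * E0 (e0 ω) - ek ω| ≤ 1)
    (hαb : ∀ ω, 0 < q ω → G ω → |α0 (zc ω) (e0 ω)| ≤ B)
    (g1 : ∀ ω, 0 < q ω → G ω → ∀ i, |(r ω i : ℝ) - M0 (Wc ω) (zc ω) i -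
      ∑ j, M1 (Wc ω) (zc ω) i j * P ω j| ≤ K)
    (g2 : ∀ ω, 0 < q ω → G ω → ∀ i, |(r' ω i : ℝ) - N0 (Wc ω) (zc ω) i -
      ∑ j, N1 (Wc ω) (zc ω) i j * (P ω j + τ ω * XE (E0 (e0 ω)) j)| ≤ K)
    (g3 : ∀ ω, 0 < q ω → G ω → |∑ i, ((r' ω i : ℝ) - r ω i) * XE (E0 (e0 ω)) i| ≤ K)
    (g4 : ∀ ω, 0 < q ω → G ω → |(b0 ω : ℝ) - ∑ j, G0 (zc ω) (e0 ω) j * P ω j -
      m * α0 (zc ω) (e0 ω) * ∑ i, r ω i * XE (E0 (e0 ω)) i| ≤ K)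
    (g5 : ∀ ω, 0 < q ω → G ω → ∀ j, |τ ω * G0 (zc ω) (e0 ω) j +
      α0 (zc ω) (e0 ω) * ((r' ω j : ℝ) - r ω j)| ≤ K)
    (hfull : 3 * (s * Real.log 2) - e1 ≤
      CH q (fun ω => v3 (P ω) (τ ω)) (fun ω => (e0 ω, (Wc ω, zc ω))))
    (hb0 : CH q b0 (fun ω => (e0 ω, (Wc ω, zc ω))) ≤ eH)
    (hI : CH q ek zc - i ≤ CH q ek (fun ω => (Wc ω, zc ω)))
    (hE : ∀ G' : Ω → Prop, c ≤ law q G' True → ρ ≤ CH (cond q G' True) ek zc)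
    (hn : (i + Real.log 2) / c + Real.log (3 * 2 : ℕ) < ρ)
    (hμ : ((3 + 2 * R) * 2 ^ k) ^ 2 * (3 * A / 2 ^ g + K * (3 + 2 * R) / 2 ^ s) < μ)
    (hpos : 0 < ((s : ℝ) - g) * Real.log 2 -
      Real.log (2 * (2 * ((1 + m * B) * (K * (3 + 2 * R))) + 3 * A + 1) + 1))
    (hN : e1 + eH + Real.log 4 + 3 * Real.log (2 * A + 1) ≤
      c * (((s : ℝ) - g) * Real.log 2 -
        Real.log (2 * (2 * ((1 + m * B) * (K * (3 + 2 * R))) + 3 * A + 1) + 1))) :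
    Pb q (fun ω => G ω ∧ ∃ j, th1 A s g R B K m μ <
      (m + 1) * |α0 (zc ω) (e0 ω)| * |(r' ω j : ℝ) - r ω j|) ≤ 6 * c := by
  have h0 := hq.nonneg
  have hs0 : (0 : ℝ) < 2 ^ s := by positivity
  have hg0 : (0 : ℝ) < 1 / 2 ^ g := by positivity
  have hA1 : (1 : ℝ) ≤ A := by exact_mod_cast hA
  have heH : 0 ≤ eH := (CH_nonneg h0 _ _).trans hb0
  obtain ⟨D, hD⟩ : ∃ D : ℝ, D = (1 + m * B) * (K * (3 + 2 * R)) := ⟨_, rfl⟩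
  have hmB : 0 ≤ m * B := mul_nonneg hm hB
  have hK3 : 0 ≤ K * (3 + 2 * R) := by positivity
  have hD0 : 0 ≤ D := by rw [hD]; positivity
  have hDK : K * (3 + 2 * R) ≤ D := by
    rw [hD]
    nlinarith
  obtain ⟨X, hX⟩ : ∃ X : ℝ, X = ((s : ℝ) - g) * Real.log 2 -
    Real.log (2 * (2 * D + 3 * A + 1) + 1) := ⟨_, rfl⟩
  rw [← hD] at hpos hN
  rw [← hX] at hpos hN
  obtain ⟨W, hW⟩ : ∃ W : Ω → ε × (κ × ζ), W = fun ω => (e0 ω, (Wc ω, zc ω)) := ⟨_, rfl⟩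
  rw [← hW] at hfull hb0
  -- coefficients
  obtain ⟨a, ha⟩ : ∃ a : Ω → Fin 3 → ℝ, a = fun ω =>
    ow (M1 (Wc ω) (zc ω)) (N1 (Wc ω) (zc ω)) (E0 (e0 ω)) := ⟨_, rfl⟩
  obtain ⟨β, hβ⟩ : ∃ β : Ω → ℝ, β = fun ω => ((N0 (Wc ω) (zc ω) 0 - M0 (Wc ω) (zc ω) 0) +
    E0 (e0 ω) * (N0 (Wc ω) (zc ω) 1 - M0 (Wc ω) (zc ω) 1)) / 2 ^ s := ⟨_, rfl⟩
  obtain ⟨a', ha'⟩ : ∃ a' : Ω → Fin 3 → ℝ, a' = fun ω =>
    on m (α0 (zc ω) (e0 ω)) (G0 (zc ω) (e0 ω)) (M1 (Wc ω) (zc ω)) (E0 (e0 ω)) := ⟨_, rfl⟩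
  obtain ⟨β', hβ'⟩ : ∃ β' : Ω → ℝ, β' = fun ω => (-(b0 ω : ℝ) + m * α0 (zc ω) (e0 ω) *
    (M0 (Wc ω) (zc ω) 0 + E0 (e0 ω) * M0 (Wc ω) (zc ω) 1)) / 2 ^ s := ⟨_, rfl⟩
  -- the difference of the two germs
  have hdif : ∀ ω, 0 < q ω → G ω → ∀ i, |((r' ω i : ℝ) - r ω i) -
      ((N0 (Wc ω) (zc ω) i - M0 (Wc ω) (zc ω) i) +
        ((N1 (Wc ω) (zc ω) i 0 - M1 (Wc ω) (zc ω) i 0) * P ω 0 +
         (N1 (Wc ω) (zc ω) i 1 - M1 (Wc ω) (zc ω) i 1) * P ω 1) +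
        τ ω * (N1 (Wc ω) (zc ω) i 0 + N1 (Wc ω) (zc ω) i 1 * E0 (e0 ω)))| ≤ 2 * K := by
    intro ω hω hG i
    have h1 := g1 ω hω hG i
    have h2 := g2 ω hω hG i
    rw [Fin.sum_univ_two] at h1 h2
    have x0 : XE (E0 (e0 ω)) 0 = 1 := by simp [XE]
    have x1 : XE (E0 (e0 ω)) 1 = E0 (e0 ω) := by simp [XE]
    rw [x0, x1] at h2
    rw [abs_le] at h1 h2 ⊢
    constructor <;> linarith [h1.1, h1.2, h2.1, h2.2]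
  -- own relation
  have r1 : ∀ ω, 0 < q ω → G ω →
      |∑ j, a ω j * v3 (P ω) (τ ω) j + 2 ^ s * β ω| ≤ K * (3 + 2 * R) := by
    intro ω hω hG
    have hE1 := (hEb ω hω hG).1
    have h1 := hdif ω hω hG 0
    have h2 := hdif ω hω hG 1
    have h3 := g3 ω hω hG
    rw [Fin.sum_univ_two] at h3
    have x0 : XE (E0 (e0 ω)) 0 = 1 := by simp [XE]
    have x1 : XE (E0 (e0 ω)) 1 = E0 (e0 ω) := by simp [XE]
    rw [x0, x1, mul_one] at h3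
    obtain ⟨d0, hd0⟩ : ∃ d0 : ℝ, d0 = ((r' ω 0 : ℝ) - r ω 0) -
      ((N0 (Wc ω) (zc ω) 0 - M0 (Wc ω) (zc ω) 0) +
        ((N1 (Wc ω) (zc ω) 0 0 - M1 (Wc ω) (zc ω) 0 0) * P ω 0 +
         (N1 (Wc ω) (zc ω) 0 1 - M1 (Wc ω) (zc ω) 0 1) * P ω 1) +
        τ ω * (N1 (Wc ω) (zc ω) 0 0 + N1 (Wc ω) (zc ω) 0 1 * E0 (e0 ω))) := ⟨_, rfl⟩
    obtain ⟨d1, hd1⟩ : ∃ d1 : ℝ, d1 = ((r' ω 1 : ℝ) - r ω 1) -
      ((N0 (Wc ω) (zc ω) 1 - M0 (Wc ω) (zc ω) 1) +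
        ((N1 (Wc ω) (zc ω) 1 0 - M1 (Wc ω) (zc ω) 1 0) * P ω 0 +
         (N1 (Wc ω) (zc ω) 1 1 - M1 (Wc ω) (zc ω) 1 1) * P ω 1) +
        τ ω * (N1 (Wc ω) (zc ω) 1 0 + N1 (Wc ω) (zc ω) 1 1 * E0 (e0 ω))) := ⟨_, rfl⟩
    rw [← hd0] at h1
    rw [← hd1] at h2
    have e : ∑ j, a ω j * v3 (P ω) (τ ω) j + 2 ^ s * β ω =
        ((r' ω 0 : ℝ) - r ω 0 + ((r' ω 1 : ℝ) - r ω 1) * E0 (e0 ω)) - d0 - d1 * E0 (e0 ω) := by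
      rw [sum_v3, ha, hβ, hd0, hd1]
      dsimp only
      have e2 : ∀ x : ℝ, 2 ^ s * (x / 2 ^ s) = x := fun x => by
        field_simp
      rw [e2, ow0, ow1, ow2]
      ring
    rw [e]
    have h4 : |d1 * E0 (e0 ω)| ≤ 2 * K * R := by
      rw [abs_mul]
      exact mul_le_mul h2 hE1 (abs_nonneg _) (by positivity)
    have h5 := abs_sub ((r' ω 0 : ℝ) - r ω 0 + ((r' ω 1 : ℝ) - r ω 1) * E0 (e0 ω) - d0)
      (d1 * E0 (e0 ω))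
    have h6 := abs_sub ((r' ω 0 : ℝ) - r ω 0 + ((r' ω 1 : ℝ) - r ω 1) * E0 (e0 ω)) d0
    linarith
  -- own number
  have r2 : ∀ ω, 0 < q ω → G ω → |∑ j, a' ω j * v3 (P ω) (τ ω) j + 2 ^ s * β' ω| ≤ D := by
    intro ω hω hG
    have hE1 := (hEb ω hω hG).1
    have hα := hαb ω hω hG
    have h1 := g1 ω hω hG 0
    have h2 := g1 ω hω hG 1
    have h3 := g4 ω hω hG
    rw [Fin.sum_univ_two] at h1 h2
    rw [Fin.sum_univ_two, Fin.sum_univ_two] at h3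
    have x0 : XE (E0 (e0 ω)) 0 = 1 := by simp [XE]
    have x1 : XE (E0 (e0 ω)) 1 = E0 (e0 ω) := by simp [XE]
    rw [x0, x1, mul_one] at h3
    obtain ⟨d0, hd0⟩ : ∃ d0 : ℝ, d0 = (r ω 0 : ℝ) - M0 (Wc ω) (zc ω) 0 -
      (M1 (Wc ω) (zc ω) 0 0 * P ω 0 + M1 (Wc ω) (zc ω) 0 1 * P ω 1) := ⟨_, rfl⟩
    obtain ⟨d1, hd1⟩ : ∃ d1 : ℝ, d1 = (r ω 1 : ℝ) - M0 (Wc ω) (zc ω) 1 -
      (M1 (Wc ω) (zc ω) 1 0 * P ω 0 + M1 (Wc ω) (zc ω) 1 1 * P ω 1) := ⟨_, rfl⟩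
    obtain ⟨d2, hd2⟩ : ∃ d2 : ℝ, d2 = (b0 ω : ℝ) -
      (G0 (zc ω) (e0 ω) 0 * P ω 0 + G0 (zc ω) (e0 ω) 1 * P ω 1) -
      m * α0 (zc ω) (e0 ω) * (r ω 0 + r ω 1 * E0 (e0 ω)) := ⟨_, rfl⟩
    rw [← hd0] at h1
    rw [← hd1] at h2
    rw [← hd2] at h3
    have e : ∑ j, a' ω j * v3 (P ω) (τ ω) j + 2 ^ s * β' ω =
        -d2 - m * α0 (zc ω) (e0 ω) * (d0 + d1 * E0 (e0 ω)) := by
      rw [sum_v3, ha', hβ', hd0, hd1, hd2]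
      dsimp only
      have e2 : ∀ x : ℝ, 2 ^ s * (x / 2 ^ s) = x := fun x => by
        field_simp
      rw [e2, on0, on1, on2]
      ring
    rw [e]
    have h4 : |d1 * E0 (e0 ω)| ≤ K * R := by
      rw [abs_mul]
      exact mul_le_mul h2 hE1 (abs_nonneg _) (by positivity)
    have h5 : |m * α0 (zc ω) (e0 ω) * (d0 + d1 * E0 (e0 ω))| ≤ m * B * (K + K * R) := by
      rw [abs_mul, abs_mul, abs_of_nonneg hm]
      refine mul_le_mul (mul_le_mul_of_nonneg_left hα hm) ?_ (abs_nonneg _) hmB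
      exact (abs_add_le _ _).trans (add_le_add h1 h4)
    have h6 := abs_sub (-d2) (m * α0 (zc ω) (e0 ω) * (d0 + d1 * E0 (e0 ω)))
    rw [abs_neg] at h6
    rw [hD]
    linarith [mul_nonneg hmB hK, mul_nonneg hK hR, mul_nonneg hmB (mul_nonneg hK hR)]
  -- reading
  have hcell1 : CH q (fun ω => cl s (a ω) (β ω)) W ≤ 0 := by
    refine le_of_eq (CH_eq_zero h0 ?_)
    intro ω ω' _ _ h
    rw [hW] at h
    simp only [Prod.mk.injEq] at h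
    obtain ⟨x1, x2, x3⟩ := h
    rw [ha, hβ]
    simp only [x1, x2, x3]
  have hcell2 : CH q (fun ω => cl s (a' ω) (β' ω)) W ≤ eH := by
    refine (CH_mono_left h0 ?_).trans hb0
    intro ω ω' _ _ h
    rw [hW] at h
    simp only [Prod.mk.injEq] at h
    obtain ⟨x0, x1, x2, x3⟩ := h
    rw [ha', hβ']
    simp only [x0, x1, x2, x3]
  have hfull' : ((3 : ℕ) : ℝ) * (s * Real.log 2) - e1 ≤ CH q (fun ω => v3 (P ω) (τ ω)) W := by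
    push_cast
    exact hfull
  have q1 := read_lin hq W hA s g (fun ω => v3 (P ω) (τ ω)) a β G hD0 hP hfull' hcell1
    (fun ω hω hG => (r1 ω hω hG).trans hDK)
  have q2 := read_lin hq W hA s g (fun ω => v3 (P ω) (τ ω)) a' β' G hD0 hP hfull' hcell2 r2
  push_cast at q1 q2
  rw [← hX] at q1 q2
  have e4 : (3 : ℝ) + 1 = 4 := by norm_num
  rw [e4] at q1 q2
  have B1 : Pb q (fun ω => G ω ∧ ∃ j, 1 / 2 ^ g ≤ |a ω j|) ≤ c :=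
    le_of_read hpos q1 (by linarith)
  have B2 : Pb q (fun ω => G ω ∧ ∃ j, 1 / 2 ^ g ≤ |a' ω j|) ≤ c :=
    le_of_read hpos q2 (by linarith)
  -- reading the direction
  obtain ⟨δ, hδ⟩ : ∃ δ : ℝ, δ = 3 * A / 2 ^ g + K * (3 + 2 * R) / 2 ^ s := ⟨_, rfl⟩
  rw [← hδ] at hμ
  have hδ0 : 0 ≤ δ := by rw [hδ]; positivity
  have hgδ : 1 / 2 ^ g ≤ δ := by
    rw [hδ]
    have h1 : (1 : ℝ) / 2 ^ g ≤ 3 * A / 2 ^ g := by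
      apply div_le_div_of_nonneg_right _ (by positivity)
      linarith
    have h2 : 0 ≤ K * (3 + 2 * R) / 2 ^ s := by positivity
    linarith
  have hμ0 : 0 ≤ μ := le_trans (by positivity) hμ.le
  obtain ⟨Hh, hHh⟩ : ∃ Hh : Ω → Prop, Hh = fun ω => G ω ∧ ∀ j, |a ω j| < 1 / 2 ^ g := ⟨_, rfl⟩
  have hread : ∀ f : κ → ζ → ℝ[X],
      (∀ ω, 0 < q ω → Hh ω → (f (Wc ω) (zc ω)).natDegree ≤ 2 ∧
        |(f (Wc ω) (zc ω)).eval (E0 (e0 ω))| ≤ δ) →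
      Pb q (fun ω => Hh ω ∧ ∃ n, μ ≤ |(f (Wc ω) (zc ω)).coeff n|) ≤ c := by
    intro f hf
    have h1 := Pool.D2P.read_poly' hq (fun ω => E0 (e0 ω)) ek Wc zc Hh f (D := 2) (k := k)
      (R := R) (δ := δ) (μ := μ) (c := c) (i := i) (r := ρ) hR hc hμ hI hE
      (fun ω hω hH => hEb ω hω (by rw [hHh] at hH; exact hH.1)) hf hn
    rw [law_Pb] at h1
    exact h1.le
  have hbnd : ∀ ω, 0 < q ω → |(P ω 0 : ℝ)| ≤ A * 2 ^ s ∧ |(P ω 1 : ℝ)| ≤ A * 2 ^ s ∧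
      |(τ ω : ℝ)| ≤ A * 2 ^ s := by
    intro ω hω
    have h1 : |P ω 0| ≤ ((A * 2 ^ s : ℕ) : ℤ) := by
      have := hP ω hω 0
      simpa [v3] using this
    have h2 : |P ω 1| ≤ ((A * 2 ^ s : ℕ) : ℤ) := by
      have := hP ω hω 1
      simpa [v3] using this
    have h3 : |τ ω| ≤ ((A * 2 ^ s : ℕ) : ℤ) := by
      have := hP ω hω 2
      simpa [v3] using this
    refine ⟨?_, ?_, ?_⟩
    · exact_mod_cast h1
    · exact_mod_cast h2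
    · exact_mod_cast h3
  have hβs : ∀ ω, 0 < q ω → Hh ω → |β ω| ≤ δ := by
    intro ω hω hH
    rw [hHh] at hH
    obtain ⟨hG, hj⟩ := hH
    have h1 := r1 ω hω hG
    rw [sum_v3] at h1
    obtain ⟨p0, p1, p2⟩ := hbnd ω hω
    have m0 : |a ω 0 * P ω 0| ≤ 1 / 2 ^ g * (A * 2 ^ s) := by
      rw [abs_mul]
      exact mul_le_mul (hj 0).le p0 (abs_nonneg _) hg0.le
    have m1 : |a ω 1 * P ω 1| ≤ 1 / 2 ^ g * (A * 2 ^ s) := by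
      rw [abs_mul]
      exact mul_le_mul (hj 1).le p1 (abs_nonneg _) hg0.le
    have m2 : |a ω 2 * τ ω| ≤ 1 / 2 ^ g * (A * 2 ^ s) := by
      rw [abs_mul]
      exact mul_le_mul (hj 2).le p2 (abs_nonneg _) hg0.le
    have h2 : |2 ^ s * β ω| ≤ K * (3 + 2 * R) + 3 * (1 / 2 ^ g * (A * 2 ^ s)) := by
      rw [abs_le] at h1 m0 m1 m2 ⊢
      constructor <;> linarith [h1.1, h1.2, m0.1, m0.2, m1.1, m1.2, m2.1, m2.2]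
    rw [abs_mul, abs_of_pos hs0] at h2
    have h3 : 2 ^ s * |β ω| ≤ 2 ^ s * δ := by
      refine h2.trans (le_of_eq ?_)
      rw [hδ]
      field_simp
      ring
    exact le_of_mul_le_mul_left h3 hs0
  have C0 := hread (fun w z => qd (N1 w z 0 0 - M1 w z 0 0) (N1 w z 1 0 - M1 w z 1 0) 0)
    (fun ω hω hH => ⟨qd_deg _ _ _, by
      rw [hHh] at hH
      have h1 := hH.2 0
      rw [ha] at h1
      simp only [ow0] at h1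
      rw [qd_eval]
      refine le_trans (le_of_eq ?_) (h1.le.trans hgδ)
      congr 1
      ring⟩)
  have C1 := hread (fun w z => qd (N1 w z 0 1 - M1 w z 0 1) (N1 w z 1 1 - M1 w z 1 1) 0)
    (fun ω hω hH => ⟨qd_deg _ _ _, by
      rw [hHh] at hH
      have h1 := hH.2 1
      rw [ha] at h1
      simp only [ow1] at h1
      rw [qd_eval]
      refine le_trans (le_of_eq ?_) (h1.le.trans hgδ)
      congr 1
      ring⟩)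
  have C2 := hread (fun w z => qd (N1 w z 0 0) (N1 w z 0 1 + N1 w z 1 0) (N1 w z 1 1))
    (fun ω hω hH => ⟨qd_deg _ _ _, by
      rw [hHh] at hH
      have h1 := hH.2 2
      rw [ha] at h1
      simp only [ow2] at h1
      rw [qd_eval]
      exact h1.le.trans hgδ⟩)
  have C3 := hread (fun w z => qd ((N0 w z 0 - M0 w z 0) / 2 ^ s) ((N0 w z 1 - M0 w z 1) / 2 ^ s) 0)
    (fun ω hω hH => ⟨qd_deg _ _ _, by
      have h1 := hβs ω hω hH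
      rw [hβ] at h1
      dsimp only at h1
      rw [qd_eval]
      refine le_trans (le_of_eq ?_) h1
      congr 1
      ring⟩)
  -- the union
  have hU : ∀ ω, 0 < q ω → (G ω ∧ ∃ j, th1 A s g R B K m μ <
      (m + 1) * |α0 (zc ω) (e0 ω)| * |(r' ω j : ℝ) - r ω j|) →
      ((G ω ∧ ∃ j, 1 / 2 ^ g ≤ |a ω j|) ∨ (G ω ∧ ∃ j, 1 / 2 ^ g ≤ |a' ω j|)) ∨
      (((Hh ω ∧ ∃ n, μ ≤ |(qd (N1 (Wc ω) (zc ω) 0 0 - M1 (Wc ω) (zc ω) 0 0)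
          (N1 (Wc ω) (zc ω) 1 0 - M1 (Wc ω) (zc ω) 1 0) 0).coeff n|) ∨
        (Hh ω ∧ ∃ n, μ ≤ |(qd (N1 (Wc ω) (zc ω) 0 1 - M1 (Wc ω) (zc ω) 0 1)
          (N1 (Wc ω) (zc ω) 1 1 - M1 (Wc ω) (zc ω) 1 1) 0).coeff n|)) ∨
       ((Hh ω ∧ ∃ n, μ ≤ |(qd (N1 (Wc ω) (zc ω) 0 0)
          (N1 (Wc ω) (zc ω) 0 1 + N1 (Wc ω) (zc ω) 1 0) (N1 (Wc ω) (zc ω) 1 1)).coeff n|) ∨
        (Hh ω ∧ ∃ n, μ ≤ |(qd ((N0 (Wc ω) (zc ω) 0 - M0 (Wc ω) (zc ω) 0) / 2 ^ s)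
          ((N0 (Wc ω) (zc ω) 1 - M0 (Wc ω) (zc ω) 1) / 2 ^ s) 0).coeff n|))) := by
    rintro ω hω ⟨hG, j, hj⟩
    by_contra hcon
    rw [not_or, not_or, not_or, not_or, not_or] at hcon
    obtain ⟨⟨n1, n2⟩, ⟨n3, n4⟩, n5, n6⟩ := hcon
    have k1 : ∀ j, |a ω j| < 1 / 2 ^ g := fun j => by
      by_contra h
      exact n1 ⟨hG, j, not_lt.mp h⟩
    have k2 : ∀ j, |a' ω j| < 1 / 2 ^ g := fun j => by
      by_contra h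
      exact n2 ⟨hG, j, not_lt.mp h⟩
    have hH : Hh ω := by
      rw [hHh]
      exact ⟨hG, k1⟩
    have k3 : ∀ x y u : ℝ, ¬ (Hh ω ∧ ∃ n, μ ≤ |(qd x y u).coeff n|) →
        |x| < μ ∧ |y| < μ ∧ |u| < μ := by
      intro x y u h
      obtain ⟨c0, c1, c2⟩ := qd_coeff x y u
      refine ⟨?_, ?_, ?_⟩
      · by_contra h'
        exact h ⟨hH, 0, by rw [c0]; exact not_lt.mp h'⟩
      · by_contra h'
        exact h ⟨hH, 1, by rw [c1]; exact not_lt.mp h'⟩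
      · by_contra h'
        exact h ⟨hH, 2, by rw [c2]; exact not_lt.mp h'⟩
    obtain ⟨s00, s10, _⟩ := k3 _ _ _ n3
    obtain ⟨s01, s11, _⟩ := k3 _ _ _ n4
    obtain ⟨t00, t01, t11⟩ := k3 _ _ _ n5
    obtain ⟨u0, u1, _⟩ := k3 _ _ _ n6
    have hE1 := (hEb ω hω hG).1
    have hα := hαb ω hω hG
    obtain ⟨p0, p1, p2⟩ := hbnd ω hω
    have v0 : |N0 (Wc ω) (zc ω) 0 - M0 (Wc ω) (zc ω) 0| ≤ μ * 2 ^ s := by
      rw [abs_div, abs_of_pos hs0, div_lt_iff₀ hs0] at u0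
      exact u0.le
    have v1 : |N0 (Wc ω) (zc ω) 1 - M0 (Wc ω) (zc ω) 1| ≤ μ * 2 ^ s := by
      rw [abs_div, abs_of_pos hs0, div_lt_iff₀ hs0] at u1
      exact u1.le
    have w0 := k2 0
    have w1 := k2 1
    rw [ha'] at w0 w1
    dsimp only at w0 w1
    rw [on0] at w0
    rw [on1] at w1
    have key : ∀ j : Fin 2, (m + 1) * |α0 (zc ω) (e0 ω)| * |(r' ω j : ℝ) - r ω j| ≤
        th1 A s g R B K m μ := by
      have hx : ∀ x y : ℝ, |x| < μ → |y| < μ → |x + y * E0 (e0 ω)| ≤ μ * (1 + R) := by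
        intro x y hx hy
        have h1 : |y * E0 (e0 ω)| ≤ μ * R := by
          rw [abs_mul]
          exact mul_le_mul hy.le hE1 (abs_nonneg _) hμ0
        have h2 := abs_add_le x (y * E0 (e0 ω))
        linarith
      have hx2 : ∀ x y : ℝ, |x| < μ → |y| < μ → |2 * x + y * E0 (e0 ω)| ≤ 2 * μ * (1 + R) := by
        intro x y hx hy
        have h1 : |y * E0 (e0 ω)| ≤ μ * R := by
          rw [abs_mul]
          exact mul_le_mul hy.le hE1 (abs_nonneg _) hμ0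
        have h2 := abs_add_le (2 * x) (y * E0 (e0 ω))
        have h3 : |2 * x| = 2 * |x| := by
          rw [abs_mul]
          norm_num
        linarith [mul_nonneg hμ0 hR]
      have hx3 : ∀ x y : ℝ, |x| < μ → |y| < μ → |x + 2 * y * E0 (e0 ω)| ≤ 2 * μ * (1 + R) := by
        intro x y hx hy
        have h1 : |2 * y * E0 (e0 ω)| ≤ 2 * μ * R := by
          rw [abs_mul]
          refine mul_le_mul ?_ hE1 (abs_nonneg _) (by positivity)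
          rw [abs_mul]
          norm_num
          exact hy.le
        have h2 := abs_add_le x (2 * y * E0 (e0 ω))
        linarith [mul_nonneg hμ0 hR]
      refine Fin.forall_fin_two.mpr ⟨?_, ?_⟩
      · refine fin1 (G := G0 (zc ω) (e0 ω) 0) (n₀ := N1 (Wc ω) (zc ω) 0 0)
          (n₁ := N1 (Wc ω) (zc ω) 0 1) (l₀ := N1 (Wc ω) (zc ω) 0 0) (l₁ := N1 (Wc ω) (zc ω) 1 0)
          (x₀ := N1 (Wc ω) (zc ω) 0 0 - M1 (Wc ω) (zc ω) 0 0)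
          (x₁ := N1 (Wc ω) (zc ω) 0 1 - M1 (Wc ω) (zc ω) 0 1)
          (x₂ := (N1 (Wc ω) (zc ω) 0 0 - M1 (Wc ω) (zc ω) 0 0) +
            (N1 (Wc ω) (zc ω) 1 0 - M1 (Wc ω) (zc ω) 1 0) * E0 (e0 ω))
          (u := N0 (Wc ω) (zc ω) 0 - M0 (Wc ω) (zc ω) 0) (E := E0 (e0 ω)) (P₀ := P ω 0)
          (P₁ := P ω 1) (τ := τ ω) hm hK hR hB hμ0 hα p2 p0 p1 v0 s00.le s01.le
          (hx _ _ s00 s10) ?_ (hdif ω hω hG 0) ?_ (g5 ω hω hG 0)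
        · refine le_trans (le_of_eq ?_) (hx2 _ _ t00 t01)
          congr 1
          ring
        · refine le_trans (le_of_eq ?_) w0.le
          congr 1
          ring
      · refine fin1 (G := G0 (zc ω) (e0 ω) 1) (n₀ := N1 (Wc ω) (zc ω) 1 0)
          (n₁ := N1 (Wc ω) (zc ω) 1 1) (l₀ := N1 (Wc ω) (zc ω) 0 1) (l₁ := N1 (Wc ω) (zc ω) 1 1)
          (x₀ := N1 (Wc ω) (zc ω) 1 0 - M1 (Wc ω) (zc ω) 1 0)
          (x₁ := N1 (Wc ω) (zc ω) 1 1 - M1 (Wc ω) (zc ω) 1 1)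
          (x₂ := (N1 (Wc ω) (zc ω) 0 1 - M1 (Wc ω) (zc ω) 0 1) +
            (N1 (Wc ω) (zc ω) 1 1 - M1 (Wc ω) (zc ω) 1 1) * E0 (e0 ω))
          (u := N0 (Wc ω) (zc ω) 1 - M0 (Wc ω) (zc ω) 1) (E := E0 (e0 ω)) (P₀ := P ω 0)
          (P₁ := P ω 1) (τ := τ ω) hm hK hR hB hμ0 hα p2 p0 p1 v1 s10.le s11.le
          (hx _ _ s01 s11) ?_ (hdif ω hω hG 1) ?_ (g5 ω hω hG 1)
        · refine le_trans (le_of_eq ?_) (hx3 _ _ t01 t11)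
          congr 1
          ring
        · refine le_trans (le_of_eq ?_) w1.le
          congr 1
          ring
    exact absurd hj (not_lt.mpr (key j))
  have f1 := Pb_sub h0 hU
  have f2 := Pb_or h0 (fun ω => (G ω ∧ ∃ j, 1 / 2 ^ g ≤ |a ω j|) ∨
    (G ω ∧ ∃ j, 1 / 2 ^ g ≤ |a' ω j|)) (fun ω =>
      (((Hh ω ∧ ∃ n, μ ≤ |(qd (N1 (Wc ω) (zc ω) 0 0 - M1 (Wc ω) (zc ω) 0 0)
          (N1 (Wc ω) (zc ω) 1 0 - M1 (Wc ω) (zc ω) 1 0) 0).coeff n|) ∨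
        (Hh ω ∧ ∃ n, μ ≤ |(qd (N1 (Wc ω) (zc ω) 0 1 - M1 (Wc ω) (zc ω) 0 1)
          (N1 (Wc ω) (zc ω) 1 1 - M1 (Wc ω) (zc ω) 1 1) 0).coeff n|)) ∨
       ((Hh ω ∧ ∃ n, μ ≤ |(qd (N1 (Wc ω) (zc ω) 0 0)
          (N1 (Wc ω) (zc ω) 0 1 + N1 (Wc ω) (zc ω) 1 0) (N1 (Wc ω) (zc ω) 1 1)).coeff n|) ∨
        (Hh ω ∧ ∃ n, μ ≤ |(qd ((N0 (Wc ω) (zc ω) 0 - M0 (Wc ω) (zc ω) 0) / 2 ^ s)
          ((N0 (Wc ω) (zc ω) 1 - M0 (Wc ω) (zc ω) 1) / 2 ^ s) 0).coeff n|))))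
  have f3 := Pb_or h0 (fun ω => G ω ∧ ∃ j, 1 / 2 ^ g ≤ |a ω j|)
    (fun ω => G ω ∧ ∃ j, 1 / 2 ^ g ≤ |a' ω j|)
  have f4 := Pb_or h0 (fun ω =>
      ((Hh ω ∧ ∃ n, μ ≤ |(qd (N1 (Wc ω) (zc ω) 0 0 - M1 (Wc ω) (zc ω) 0 0)
          (N1 (Wc ω) (zc ω) 1 0 - M1 (Wc ω) (zc ω) 1 0) 0).coeff n|) ∨
        (Hh ω ∧ ∃ n, μ ≤ |(qd (N1 (Wc ω) (zc ω) 0 1 - M1 (Wc ω) (zc ω) 0 1)
          (N1 (Wc ω) (zc ω) 1 1 - M1 (Wc ω) (zc ω) 1 1) 0).coeff n|)))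
      (fun ω => ((Hh ω ∧ ∃ n, μ ≤ |(qd (N1 (Wc ω) (zc ω) 0 0)
          (N1 (Wc ω) (zc ω) 0 1 + N1 (Wc ω) (zc ω) 1 0) (N1 (Wc ω) (zc ω) 1 1)).coeff n|) ∨
        (Hh ω ∧ ∃ n, μ ≤ |(qd ((N0 (Wc ω) (zc ω) 0 - M0 (Wc ω) (zc ω) 0) / 2 ^ s)
          ((N0 (Wc ω) (zc ω) 1 - M0 (Wc ω) (zc ω) 1) / 2 ^ s) 0).coeff n|)))
  have f5 := Pb_or h0 (fun ω => Hh ω ∧ ∃ n, μ ≤ |(qd (N1 (Wc ω) (zc ω) 0 0 -
      M1 (Wc ω) (zc ω) 0 0) (N1 (Wc ω) (zc ω) 1 0 - M1 (Wc ω) (zc ω) 1 0) 0).coeff n|)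
    (fun ω => Hh ω ∧ ∃ n, μ ≤ |(qd (N1 (Wc ω) (zc ω) 0 1 - M1 (Wc ω) (zc ω) 0 1)
          (N1 (Wc ω) (zc ω) 1 1 - M1 (Wc ω) (zc ω) 1 1) 0).coeff n|)
  have f6 := Pb_or h0 (fun ω => Hh ω ∧ ∃ n, μ ≤ |(qd (N1 (Wc ω) (zc ω) 0 0)
          (N1 (Wc ω) (zc ω) 0 1 + N1 (Wc ω) (zc ω) 1 0) (N1 (Wc ω) (zc ω) 1 1)).coeff n|)
    (fun ω => Hh ω ∧ ∃ n, μ ≤ |(qd ((N0 (Wc ω) (zc ω) 0 - M0 (Wc ω) (zc ω) 0) / 2 ^ s)
          ((N0 (Wc ω) (zc ω) 1 - M0 (Wc ω) (zc ω) 1) / 2 ^ s) 0).coeff n|)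
  linarith

end Pool.D2A
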