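import Pool.Agent.H88.D2.Aft
import Pool.Agent.H66.D2.Der

/-!
# Affine towers, at the own times

`AfO`: the data `AfD` of an affine tower where the gradients `lam l` are polynomials of the relative
time of the window `w`, and all the estimates are at the own times only. `ab`: the gradients as
polynomials of the absolute time.
-/

set_option autoImplicit false

namespace Pool.AFT

open Finset Real MvPolynomial
open Pool.Agent.H49.Ent Pool.Agent.H32.Dense Pool.STK Pool.KA Pool.KSAT Pool.K2S Pool.PB Pool.S6C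
open Pool.GEN Pool.CHT Pool.CHX Pool.ISO Pool.D2R Pool.D2Z Pool.D2F
open Pool.PB.Trl (rt rt_mem t_rt)

variable {m J : ℕ}

/-- **The data of an affine tower, at the own times.** -/
structure AfO (F : Fam m J) (c : ℕ → Fin m) (n D w a e : ℕ) (g : ℕ → ℕ) (U : ℝ) (B : F.Ω → Prop)
    (St : PtT F → ℕ → Option (Fin m) → ℝ) (lam : LnT F → ℕ → ℕ → Polynomial ℝ) : Prop where
  dep : ∀ y l, CvC c l (St y l)
  deg : ∀ s l j, (lam s l j).natDegree ≤ D
  lip : ∀ ω, B ω → ∀ l < n, ∀ j < l, |St (ptr F J ω) l (some (c j))| ≤ 2 ^ (e + nlp g j l)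
  vel : ∀ ω, B ω → ∀ l < n, |bd F ω (some (c l)) - cv (St (ptr F J ω) l) (bd F ω)| ≤
    U * (2 ^ a / 2 ^ g l)
  spa : ∀ ω, B ω → ∀ l < n, ∀ V : Option (Fin m) → ℝ, V none = 0 →
    |∑ j ∈ range l, (lam (slam F w ω) l j).eval (rt F w ω) * V (some (c j)) -
      cv (St (ptr F J ω) l) V| ≤ U / 2 ^ g l * en c g a (St (ptr F J ω)) l V
  der : ∀ ω, B ω → ∀ l < n, ∀ V : Option (Fin m) → ℝ, V none = 0 →
    |∑ j ∈ range l, (Polynomial.derivative (lam (slam F w ω) l j)).eval (rt F w ω) *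
      V (some (c j))| ≤ U * 2 ^ (a - w) / 2 ^ g l * en c g a (St (ptr F J ω)) l V

theorem AfO.sub {F : Fam m J} {c : ℕ → Fin m} {n D w a e : ℕ} {g : ℕ → ℕ} {U : ℝ}
    {B B' : F.Ω → Prop} {St : PtT F → ℕ → Option (Fin m) → ℝ}
    {lam : LnT F → ℕ → ℕ → Polynomial ℝ} (h : AfO F c n D w a e g U B St lam) (hB : Sub B' B) :
    AfO F c n D w a e g U B' St lam :=
  ⟨h.dep, h.deg, fun ω hω => h.lip ω (hB ω hω), fun ω hω => h.vel ω (hB ω hω),
    fun ω hω => h.spa ω (hB ω hω), fun ω hω => h.der ω (hB ω hω)⟩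

/-- **The gradients as polynomials of the absolute time.** -/
noncomputable def ab {ζ : Type} (w : ℕ)
    (lam : ((Fin m → ℝ) × (Fin m → ℝ)) × ζ × ℕ → ℕ → ℕ → Polynomial ℝ)
    (s : ((Fin m → ℝ) × (Fin m → ℝ)) × ζ × ℕ) (l j : ℕ) : Polynomial ℝ :=
  (lam s l j).comp (Polynomial.C ((2 : ℝ) ^ w) * Polynomial.X - Polynomial.C ((s.2.2 : ℝ)))

theorem ab_deg {ζ : Type} (w : ℕ)
    (lam : ((Fin m → ℝ) × (Fin m → ℝ)) × ζ × ℕ → ℕ → ℕ → Polynomial ℝ)
    (s : ((Fin m → ℝ) × (Fin m → ℝ)) × ζ × ℕ) (l j : ℕ) {D : ℕ}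
    (h : (lam s l j).natDegree ≤ D) : (ab w lam s l j).natDegree ≤ D := by
  unfold ab
  refine Polynomial.natDegree_comp_le.trans ?_
  have h1 : (Polynomial.C ((2 : ℝ) ^ w) * Polynomial.X - Polynomial.C ((s.2.2 : ℝ))).natDegree ≤
      1 := by
    refine (Polynomial.natDegree_sub_le _ _).trans (max_le ?_ ?_)
    · exact (Polynomial.natDegree_C_mul_le _ _).trans Polynomial.natDegree_X_le
    · rw [Polynomial.natDegree_C]
      exact Nat.zero_le _
  calc _ ≤ D * 1 := Nat.mul_le_mul h h1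
    _ = D := mul_one D

theorem ab_eval {ζ : Type} (w : ℕ)
    (lam : ((Fin m → ℝ) × (Fin m → ℝ)) × ζ × ℕ → ℕ → ℕ → Polynomial ℝ)
    (s : ((Fin m → ℝ) × (Fin m → ℝ)) × ζ × ℕ) (l j : ℕ) (t : ℝ) :
    (ab w lam s l j).eval t = (lam s l j).eval (2 ^ w * t - s.2.2) := by
  unfold ab
  rw [Polynomial.eval_comp, Polynomial.eval_sub, Polynomial.eval_mul, Polynomial.eval_C,
    Polynomial.eval_X, Polynomial.eval_C]

theorem ab_der {ζ : Type} (w : ℕ)
    (lam : ((Fin m → ℝ) × (Fin m → ℝ)) × ζ × ℕ → ℕ → ℕ → Polynomial ℝ)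
    (s : ((Fin m → ℝ) × (Fin m → ℝ)) × ζ × ℕ) (l j : ℕ) (t : ℝ) :
    (Polynomial.derivative (ab w lam s l j)).eval t =
      2 ^ w * (Polynomial.derivative (lam s l j)).eval (2 ^ w * t - s.2.2) := by
  unfold ab
  rw [Polynomial.derivative_comp, Polynomial.eval_mul, Polynomial.eval_comp]
  simp only [Polynomial.derivative_sub, Polynomial.derivative_mul, Polynomial.derivative_C,
    Polynomial.derivative_X, zero_mul, zero_add, mul_one, sub_zero, Polynomial.eval_sub,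
    Polynomial.eval_mul, Polynomial.eval_C, Polynomial.eval_X]

/-- The relative time of the exact time. -/
theorem ab_rt (F : Fam m J) {w : ℕ} (hw : w ≤ J) (ω : F.Ω) :
    2 ^ w * F.t ω - ((slam F w ω).2.2 : ℝ) = rt F w ω := by
  have h1 := t_rt F hw ω
  rw [h1]
  have h2 : (0 : ℝ) < 2 ^ w := by positivity
  field_simp
  ring

end Pool.AFT
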