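import Mathlib

/-!
# D2: the algebra of the relation (R)

`bf s X Y` is the bilinear form with matrix `s`. A symmetric form which is small at three separated
directions of the plane, or at six general directions of space, is small; a symmetric form of
space which is small at five general directions is a multiple of their conic, up to a small form.
-/

set_option autoImplicit false

namespace Pool.D2A

open Finset

/-- Cramer's rule with bounds. -/
theorem cramer_le {c : ℕ} (A : Matrix (Fin c) (Fin c) ℝ) (δ : Fin c → ℝ) {B μ τ : ℝ}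
    (hB1 : 1 ≤ B) (hB : ∀ i j, |A i j| ≤ B) (hμ : 0 < μ) (hdet : μ ≤ |A.det|)
    (hr : ∀ a, |∑ b, A a b * δ b| ≤ τ) (i : Fin c) :
    |δ i| ≤ c * (c.factorial * B ^ c) * τ / μ := by
  classical
  have hτ : 0 ≤ τ := (abs_nonneg _).trans (hr i)
  have hadj : ∀ i j, |A.adjugate i j| ≤ c.factorial * B ^ c := by
    intro i j
    rw [Matrix.adjugate_apply]
    have h1 := Matrix.det_le (A := A.updateRow j (Pi.single i 1)) (abv := AbsoluteValue.abs)
      (x := B) (by
        intro a b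
        by_cases h : a = j
        · subst h
          rw [Matrix.updateRow_self]
          by_cases h2 : b = i
          · subst h2
            simpa using hB1
          · rw [Pi.single_eq_of_ne h2]
            simp only [AbsoluteValue.abs_apply, abs_zero]
            linarith
        · rw [Matrix.updateRow_ne h]
          exact hB a b)
    rw [Fintype.card_fin, nsmul_eq_mul] at h1
    exact h1
  have h1 : A.det * δ i = ∑ a, A.adjugate i a * ∑ b, A a b * δ b := by
    have e1 : (A.adjugate * A).mulVec δ = (A.det • (1 : Matrix (Fin c) (Fin c) ℝ)).mulVec δ := by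
      rw [Matrix.adjugate_mul]
    have e2 := congrFun e1 i
    rw [Matrix.smul_mulVec, Matrix.one_mulVec, Pi.smul_apply, smul_eq_mul,
      ← Matrix.mulVec_mulVec] at e2
    rw [← e2]
    rfl
  rw [le_div_iff₀ hμ]
  calc |δ i| * μ ≤ |δ i| * |A.det| := mul_le_mul_of_nonneg_left hdet (abs_nonneg _)
    _ = |A.det * δ i| := by rw [abs_mul, mul_comm]
    _ = |∑ a, A.adjugate i a * ∑ b, A a b * δ b| := by rw [h1]
    _ ≤ ∑ a, |A.adjugate i a * ∑ b, A a b * δ b| := Finset.abs_sum_le_sum_abs _ _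
    _ ≤ ∑ _a : Fin c, (c.factorial * B ^ c) * τ := by
        refine Finset.sum_le_sum fun a _ => ?_
        rw [abs_mul]
        exact mul_le_mul (hadj i a) (hr a) (abs_nonneg _) (by positivity)
    _ = c * (c.factorial * B ^ c) * τ := by
        rw [Finset.sum_const, Finset.card_univ, Fintype.card_fin, nsmul_eq_mul]
        ring

/-- The bilinear form with matrix `s`. -/
def bf {m : ℕ} (s : Fin m → Fin m → ℝ) (X Y : Fin m → ℝ) : ℝ := ∑ i, ∑ j, s i j * X i * Y j

variable {m : ℕ}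

theorem bf_comm {s : Fin m → Fin m → ℝ} (hs : ∀ i j, s i j = s j i) (X Y : Fin m → ℝ) :
    bf s X Y = bf s Y X := by
  unfold bf
  rw [Finset.sum_comm]
  refine Finset.sum_congr rfl fun i _ => Finset.sum_congr rfl fun j _ => ?_
  rw [hs j i]
  ring

theorem bf_le {s : Fin m → Fin m → ℝ} {X Y : Fin m → ℝ} {δ R R' : ℝ} (hs : ∀ i j, |s i j| ≤ δ)
    (hX : ∀ i, |X i| ≤ R) (hY : ∀ i, |Y i| ≤ R') (hδ : 0 ≤ δ) (hR : 0 ≤ R) :
    |bf s X Y| ≤ (m : ℝ) ^ 2 * (δ * R * R') := by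
  unfold bf
  refine (Finset.abs_sum_le_sum_abs _ _).trans ?_
  have h1 : ∀ i : Fin m, |∑ j, s i j * X i * Y j| ≤ m * (δ * R * R') := by
    intro i
    refine (Finset.abs_sum_le_sum_abs _ _).trans ?_
    refine (Finset.sum_le_card_nsmul _ _ (δ * R * R') fun j _ => ?_).trans ?_
    · rw [abs_mul, abs_mul]
      exact mul_le_mul (mul_le_mul (hs i j) (hX i) (abs_nonneg _) hδ) (hY j) (abs_nonneg _)
        (mul_nonneg hδ hR)
    · rw [Finset.card_univ, Fintype.card_fin, nsmul_eq_mul]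
  refine (Finset.sum_le_card_nsmul _ _ _ fun i _ => h1 i).trans ?_
  rw [Finset.card_univ, Fintype.card_fin, nsmul_eq_mul]
  exact le_of_eq (by ring)

/-- **Three directions of the plane.** -/
theorem bf_three {s : Fin 2 → Fin 2 → ℝ} (hs : ∀ i j, s i j = s j i) {E : Fin 3 → ℝ} {R κ δ : ℝ}
    (hR : 1 ≤ R) (hE : ∀ k, |E k| ≤ R) (hκ : 0 < κ) (hsep : ∀ k l, k ≠ l → κ ≤ |E k - E l|)
    (h : ∀ k, |bf s ![1, E k] ![1, E k]| ≤ δ) (i j : Fin 2) :
    |s i j| ≤ 20 * R ^ 2 * δ / κ ^ 2 := by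
  have hδ : 0 ≤ δ := (abs_nonneg _).trans (h 0)
  have e : ∀ k, bf s ![1, E k] ![1, E k] = s 0 0 + 2 * s 0 1 * E k + s 1 1 * E k ^ 2 := by
    intro k
    unfold bf
    simp only [Fin.sum_univ_two, Matrix.cons_val_zero, Matrix.cons_val_one]
    rw [hs 1 0]
    ring
  have hk : ∀ k, |s 0 0 + 2 * s 0 1 * E k + s 1 1 * E k ^ 2| ≤ δ := fun k => by
    rw [← e]
    exact h k
  have s01 := hsep 0 1 (by decide)
  have s02 := hsep 0 2 (by decide)
  have s12 := hsep 1 2 (by decide)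
  obtain ⟨a, ha⟩ : ∃ a, a = E 0 := ⟨_, rfl⟩
  obtain ⟨b, hb⟩ : ∃ b, b = E 1 := ⟨_, rfl⟩
  obtain ⟨c, hc⟩ : ∃ c, c = E 2 := ⟨_, rfl⟩
  obtain ⟨p, hp⟩ : ∃ p, p = s 0 0 := ⟨_, rfl⟩
  obtain ⟨q, hq⟩ : ∃ q, q = s 0 1 := ⟨_, rfl⟩
  obtain ⟨r, hr⟩ : ∃ r, r = s 1 1 := ⟨_, rfl⟩
  have k0 := hk 0
  have k1 := hk 1
  have k2 := hk 2
  have b0 := hE 0
  have b1 := hE 1
  rw [← ha] at k0 s01 s02 b0
  rw [← hb] at k1 s01 s12 b1
  rw [← hc] at k2 s02 s12
  rw [← hp, ← hq, ← hr] at k0 k1 k2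
  -- divided differences
  have d1 : |2 * q + r * (a + b)| * κ ≤ 2 * δ := by
    have h1 : |2 * q + r * (a + b)| * |a - b| ≤ 2 * δ := by
      rw [← abs_mul]
      have : (2 * q + r * (a + b)) * (a - b) =
          (p + 2 * q * a + r * a ^ 2) - (p + 2 * q * b + r * b ^ 2) := by ring
      rw [this]
      refine (abs_sub _ _).trans ?_
      linarith
    exact (mul_le_mul_of_nonneg_left s01 (abs_nonneg _)).trans h1
  have d2 : |2 * q + r * (a + c)| * κ ≤ 2 * δ := by
    have h1 : |2 * q + r * (a + c)| * |a - c| ≤ 2 * δ := by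
      rw [← abs_mul]
      have : (2 * q + r * (a + c)) * (a - c) =
          (p + 2 * q * a + r * a ^ 2) - (p + 2 * q * c + r * c ^ 2) := by ring
      rw [this]
      refine (abs_sub _ _).trans ?_
      linarith
    exact (mul_le_mul_of_nonneg_left s02 (abs_nonneg _)).trans h1
  have d3 : |r| * κ ^ 2 ≤ 4 * δ := by
    have h1 : |r| * |b - c| * κ ≤ 4 * δ := by
      rw [← abs_mul]
      have : r * (b - c) = (2 * q + r * (a + b)) - (2 * q + r * (a + c)) := by ring
      rw [this]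
      calc |(2 * q + r * (a + b)) - (2 * q + r * (a + c))| * κ ≤
          (|2 * q + r * (a + b)| + |2 * q + r * (a + c)|) * κ :=
            mul_le_mul_of_nonneg_right (abs_sub _ _) hκ.le
        _ ≤ 4 * δ := by linarith
    calc |r| * κ ^ 2 = |r| * κ * κ := by ring
      _ ≤ |r| * |b - c| * κ :=
          mul_le_mul_of_nonneg_right (mul_le_mul_of_nonneg_left s12 (abs_nonneg _)) hκ.le
      _ ≤ 4 * δ := h1
  have hκR : κ ≤ 2 * R := by
    have := s01.trans (abs_sub _ _)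
    linarith
  have d4 : |q| * κ ^ 2 ≤ 6 * R * δ := by
    have h1 : 2 * q = (2 * q + r * (a + b)) - r * (a + b) := by ring
    have h2 : |2 * q| * κ ^ 2 ≤ |2 * q + r * (a + b)| * κ ^ 2 + |r * (a + b)| * κ ^ 2 := by
      rw [← add_mul]
      refine mul_le_mul_of_nonneg_right ?_ (by positivity)
      conv_lhs => rw [h1]
      exact abs_sub _ _
    have h3 : |2 * q + r * (a + b)| * κ ^ 2 ≤ 2 * δ * (2 * R) := by
      have : |2 * q + r * (a + b)| * κ ^ 2 = (|2 * q + r * (a + b)| * κ) * κ := by ring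
      rw [this]
      exact mul_le_mul d1 hκR hκ.le (by positivity)
    have h4 : |r * (a + b)| * κ ^ 2 ≤ 4 * δ * (2 * R) := by
      rw [abs_mul]
      have h5 : |a + b| ≤ 2 * R := (abs_add_le _ _).trans (by linarith)
      have : |r| * |a + b| * κ ^ 2 = (|r| * κ ^ 2) * |a + b| := by ring
      rw [this]
      exact mul_le_mul d3 h5 (abs_nonneg _) (by positivity)
    rw [abs_mul, abs_two] at h2
    nlinarith
  have d5 : |p| * κ ^ 2 ≤ 20 * R ^ 2 * δ := by
    have h1 : p = (p + 2 * q * a + r * a ^ 2) - 2 * q * a - r * a ^ 2 := by ring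
    have h2 : |p| ≤ δ + 2 * |q| * R + |r| * R ^ 2 := by
      conv_lhs => rw [h1]
      have h3 : |2 * q * a| ≤ 2 * |q| * R := by
        rw [abs_mul, abs_mul, abs_two]
        exact mul_le_mul_of_nonneg_left b0 (by positivity)
      have h4 : |r * a ^ 2| ≤ |r| * R ^ 2 := by
        rw [abs_mul, abs_pow]
        exact mul_le_mul_of_nonneg_left (pow_le_pow_left₀ (abs_nonneg _) b0 2) (abs_nonneg _)
      have h5 := abs_sub (p + 2 * q * a + r * a ^ 2 - 2 * q * a) (r * a ^ 2)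
      have h6 := abs_sub (p + 2 * q * a + r * a ^ 2) (2 * q * a)
      linarith
    have h3 := mul_le_mul_of_nonneg_right h2 (by positivity : (0 : ℝ) ≤ κ ^ 2)
    have h4 : δ * κ ^ 2 ≤ δ * (2 * R) ^ 2 :=
      mul_le_mul_of_nonneg_left (pow_le_pow_left₀ hκ.le hκR 2) hδ
    have h5 : 2 * |q| * R * κ ^ 2 ≤ 2 * R * (6 * R * δ) := by
      have : 2 * |q| * R * κ ^ 2 = 2 * R * (|q| * κ ^ 2) := by ring
      rw [this]
      exact mul_le_mul_of_nonneg_left d4 (by linarith)
    have h6 : |r| * R ^ 2 * κ ^ 2 ≤ R ^ 2 * (4 * δ) := by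
      have : |r| * R ^ 2 * κ ^ 2 = R ^ 2 * (|r| * κ ^ 2) := by ring
      rw [this]
      exact mul_le_mul_of_nonneg_left d3 (by positivity)
    nlinarith
  have hR2 : R ≤ R ^ 2 := by nlinarith
  rw [le_div_iff₀ (by positivity)]
  fin_cases i <;> fin_cases j
  · change |s 0 0| * κ ^ 2 ≤ _
    rw [← hp]
    exact d5
  · change |s 0 1| * κ ^ 2 ≤ _
    rw [← hq]
    nlinarith
  · change |s 1 0| * κ ^ 2 ≤ _
    rw [hs 1 0, ← hq]
    nlinarith
  · change |s 1 1| * κ ^ 2 ≤ _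
    rw [← hr]
    nlinarith

/-- The monomials of degree two. -/
def mono (X : Fin 3 → ℝ) : Fin 6 → ℝ :=
  ![X 0 ^ 2, 2 * X 0 * X 1, 2 * X 0 * X 2, X 1 ^ 2, 2 * X 1 * X 2, X 2 ^ 2]

/-- The coefficients of a form of space. -/
def sv (s : Fin 3 → Fin 3 → ℝ) : Fin 6 → ℝ := ![s 0 0, s 0 1, s 0 2, s 1 1, s 1 2, s 2 2]

/-- The form with given coefficients. -/
def fm (q : Fin 6 → ℝ) : Fin 3 → Fin 3 → ℝ :=
  ![![q 0, q 1, q 2], ![q 1, q 3, q 4], ![q 2, q 4, q 5]]

theorem fm_symm (q : Fin 6 → ℝ) (i j : Fin 3) : fm q i j = fm q j i := by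
  fin_cases i <;> fin_cases j <;> rfl

theorem sv_fm (q : Fin 6 → ℝ) : sv (fm q) = q := by
  funext b
  fin_cases b <;> rfl

theorem fm_sv {s : Fin 3 → Fin 3 → ℝ} (hs : ∀ i j, s i j = s j i) : fm (sv s) = s := by
  funext i j
  fin_cases i <;> fin_cases j <;> first | rfl | exact hs _ _

theorem bf_mono {s : Fin 3 → Fin 3 → ℝ} (hs : ∀ i j, s i j = s j i) (X : Fin 3 → ℝ) :
    bf s X X = ∑ b, mono X b * sv s b := by
  have e : ∑ b, mono X b * sv s b = X 0 ^ 2 * s 0 0 + 2 * X 0 * X 1 * s 0 1 +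
      2 * X 0 * X 2 * s 0 2 + X 1 ^ 2 * s 1 1 + 2 * X 1 * X 2 * s 1 2 + X 2 ^ 2 * s 2 2 := by
    simp only [Fin.sum_univ_succ, Fin.sum_univ_zero, mono, sv]
    simp
    ring
  rw [e]
  unfold bf
  simp only [Fin.sum_univ_three]
  rw [hs 1 0, hs 2 0, hs 2 1]
  ring

theorem mono_le {X : Fin 3 → ℝ} {R : ℝ} (hX : ∀ i, |X i| ≤ R) (b : Fin 6) :
    |mono X b| ≤ 2 * R ^ 2 := by
  have hR : 0 ≤ R := (abs_nonneg _).trans (hX 0)
  have h2 : ∀ i, |X i ^ 2| ≤ 2 * R ^ 2 := by
    intro i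
    rw [abs_pow]
    have := pow_le_pow_left₀ (abs_nonneg _) (hX i) 2
    nlinarith [sq_nonneg R]
  have h3 : ∀ i j, |2 * X i * X j| ≤ 2 * R ^ 2 := by
    intro i j
    rw [abs_mul, abs_mul, abs_two]
    have := mul_le_mul (hX i) (hX j) (abs_nonneg _) hR
    nlinarith
  fin_cases b
  · exact h2 0
  · exact h3 0 1
  · exact h3 0 2
  · exact h2 1
  · exact h3 1 2
  · exact h2 2

/-- The matrix of six directions. -/
def mtx (X : Fin 6 → Fin 3 → ℝ) : Matrix (Fin 6) (Fin 6) ℝ := Matrix.of fun k => mono (X k)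

theorem sv_entry {s : Fin 3 → Fin 3 → ℝ} (hs : ∀ i j, s i j = s j i) {δ : ℝ}
    (h : ∀ b, |sv s b| ≤ δ) (i j : Fin 3) : |s i j| ≤ δ := by
  have h0 := h 0
  have h1 := h 1
  have h2 := h 2
  have h3 := h 3
  have h4 := h 4
  have h5 := h 5
  simp only [sv] at h0 h1 h2 h3 h4 h5
  fin_cases i <;> fin_cases j
  · exact h0
  · exact h1
  · exact h2
  · rw [hs]; exact h1
  · exact h3
  · exact h4
  · rw [hs]; exact h2
  · rw [hs]; exact h4
  · exact h5

/-- **Six directions of space.** -/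
theorem bf_six {s : Fin 3 → Fin 3 → ℝ} (hs : ∀ i j, s i j = s j i) {X : Fin 6 → Fin 3 → ℝ}
    {R κ δ : ℝ} (hR : 1 ≤ R) (hX : ∀ k i, |X k i| ≤ R) (hκ : 0 < κ) (hdet : κ ≤ |(mtx X).det|)
    (h : ∀ k, |bf s (X k) (X k)| ≤ δ) (i j : Fin 3) :
    |s i j| ≤ 6 * (720 * (2 * R ^ 2) ^ 6) * δ / κ := by
  refine sv_entry hs (fun b => ?_) i j
  have h1 := cramer_le (mtx X) (sv s) (B := 2 * R ^ 2) (μ := κ) (τ := δ)
    (by nlinarith) (fun k b => mono_le (hX k) b) hκ hdet (fun k => by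
      have := h k
      rw [bf_mono hs] at this
      exact this) b
  have e : ((6 : ℕ) : ℝ) * (((6 : ℕ).factorial : ℝ) * (2 * R ^ 2) ^ 6) =
      6 * (720 * (2 * R ^ 2) ^ 6) := by
    norm_num [Nat.factorial]
  rw [e] at h1
  exact h1

/-- The conic of the first five directions. -/
noncomputable def con (X : Fin 6 → Fin 3 → ℝ) : Fin 6 → ℝ := fun b => (mtx X).adjugate b 5

theorem con_five {X : Fin 6 → Fin 3 → ℝ} {k : Fin 6} (hk : k ≠ 5) :
    bf (fm (con X)) (X k) (X k) = 0 := by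
  rw [bf_mono (fm_symm _), sv_fm]
  have h1 := congrFun (congrFun (Matrix.mul_adjugate (mtx X)) k) 5
  rw [Matrix.mul_apply, Matrix.smul_apply, Matrix.one_apply_ne hk, smul_zero] at h1
  exact h1

theorem con_six (X : Fin 6 → Fin 3 → ℝ) :
    bf (fm (con X)) (X 5) (X 5) = (mtx X).det := by
  rw [bf_mono (fm_symm _), sv_fm]
  have h1 := congrFun (congrFun (Matrix.mul_adjugate (mtx X)) 5) 5
  rw [Matrix.mul_apply, Matrix.smul_apply, Matrix.one_apply_eq, smul_eq_mul, mul_one] at h1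
  exact h1

/-- The conic depends only on the first five directions. -/
theorem con_congr {X Y : Fin 6 → Fin 3 → ℝ} (h : ∀ k, k ≠ 5 → X k = Y k) : con X = con Y := by
  funext b
  unfold con
  rw [Matrix.adjugate_apply, Matrix.adjugate_apply]
  congr 1
  funext a
  by_cases ha : a = 5
  · subst ha
    rw [Matrix.updateRow_self, Matrix.updateRow_self]
  · rw [Matrix.updateRow_ne ha, Matrix.updateRow_ne ha]
    change mono (X a) = mono (Y a)
    rw [h a ha]

theorem con_le {X : Fin 6 → Fin 3 → ℝ} {R : ℝ} (hR : 1 ≤ R) (hX : ∀ k i, |X k i| ≤ R)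
    (b : Fin 6) : |con X b| ≤ 720 * (2 * R ^ 2) ^ 6 := by
  unfold con
  rw [Matrix.adjugate_apply]
  have h1 := Matrix.det_le (A := (mtx X).updateRow 5 (Pi.single b 1)) (abv := AbsoluteValue.abs)
    (x := 2 * R ^ 2) (by
      intro i j
      by_cases h : i = 5
      · subst h
        rw [Matrix.updateRow_self]
        by_cases h2 : j = b
        · subst h2
          rw [Pi.single_eq_same]
          simp only [AbsoluteValue.abs_apply, abs_one]
          nlinarith
        · rw [Pi.single_eq_of_ne h2]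
          simp only [AbsoluteValue.abs_apply, abs_zero]
          positivity
      · rw [Matrix.updateRow_ne h]
        exact mono_le (hX i) j)
  rw [Fintype.card_fin, nsmul_eq_mul] at h1
  have e : (((6 : ℕ).factorial : ℕ) : ℝ) = 720 := by norm_num [Nat.factorial]
  rw [e] at h1
  exact h1

/-- The coefficient. -/
noncomputable def gco (X : Fin 6 → Fin 3 → ℝ) (s : Fin 3 → Fin 3 → ℝ) : ℝ :=
  (∑ b, con X b * sv s b) / ∑ b, con X b ^ 2

/-- **Five directions of space: the form is a multiple of their conic.** -/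
theorem bf_five {s : Fin 3 → Fin 3 → ℝ} (hs : ∀ i j, s i j = s j i) {X : Fin 6 → Fin 3 → ℝ}
    {R κ δ : ℝ} (hR : 1 ≤ R) (hX : ∀ k i, |X k i| ≤ R) (hκ : 0 < κ) {b₀ : Fin 6}
    (hcon : κ ≤ |con X b₀|) (h : ∀ k, k ≠ 5 → |bf s (X k) (X k)| ≤ δ) (i j : Fin 3) :
    |s i j - gco X s * fm (con X) i j| ≤
      6 * (720 * (720 * (2 * R ^ 2) ^ 6) ^ 6) * δ / κ ^ 2 := by
  have hδ : 0 ≤ δ := (abs_nonneg _).trans (h 0 (by decide))
  obtain ⟨A, hA⟩ : ∃ A, A = (mtx X).updateRow 5 (con X) := ⟨_, rfl⟩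
  have hadj : ∀ b, A.adjugate b 5 = con X b := by
    intro b
    unfold con
    rw [Matrix.adjugate_apply, Matrix.adjugate_apply, hA, Matrix.updateRow_idem]
  have hdetA : A.det = ∑ b, con X b ^ 2 := by
    have h1 := congrFun (congrFun (Matrix.mul_adjugate A) 5) 5
    rw [Matrix.mul_apply, Matrix.smul_apply, Matrix.one_apply_eq, smul_eq_mul, mul_one] at h1
    rw [← h1]
    refine Finset.sum_congr rfl fun b _ => ?_
    rw [hadj, hA, Matrix.updateRow_self]
    ring
  have hq : κ ^ 2 ≤ ∑ b, con X b ^ 2 := by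
    have h1 : con X b₀ ^ 2 ≤ ∑ b, con X b ^ 2 :=
      Finset.single_le_sum (f := fun b => con X b ^ 2) (fun b _ => sq_nonneg _)
        (Finset.mem_univ b₀)
    have h2 := pow_le_pow_left₀ hκ.le hcon 2
    rw [sq_abs] at h2
    exact h2.trans h1
  have hq0 : 0 < ∑ b, con X b ^ 2 := lt_of_lt_of_le (by positivity) hq
  obtain ⟨t, ht⟩ : ∃ t, t = fun i j => s i j - gco X s * fm (con X) i j := ⟨_, rfl⟩
  have hts : ∀ i j, t i j = t j i := fun i j => by
    rw [ht]
    dsimp only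
    rw [hs i j, fm_symm _ i j]
  have hsvt : ∀ b, sv t b = sv s b - gco X s * con X b := by
    intro b
    rw [ht]
    fin_cases b <;> rfl
  have hbft : ∀ Z W, bf t Z W = bf s Z W - gco X s * bf (fm (con X)) Z W := by
    intro Z W
    rw [ht]
    unfold bf
    rw [Finset.mul_sum, ← Finset.sum_sub_distrib]
    refine Finset.sum_congr rfl fun i _ => ?_
    rw [Finset.mul_sum, ← Finset.sum_sub_distrib]
    refine Finset.sum_congr rfl fun j _ => ?_
    ring
  have hrow : ∀ k, |∑ b, A k b * sv t b| ≤ δ := by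
    intro k
    by_cases hk : k = 5
    · subst hk
      have h1 : ∑ b, A 5 b * sv t b = 0 := by
        have h2 : ∀ b, A 5 b * sv t b = con X b * sv s b - gco X s * con X b ^ 2 := by
          intro b
          rw [hA, Matrix.updateRow_self, hsvt]
          ring
        rw [Finset.sum_congr rfl fun b _ => h2 b, Finset.sum_sub_distrib, ← Finset.mul_sum]
        unfold gco
        rw [div_mul_cancel₀ _ hq0.ne', sub_self]
      rw [h1, abs_zero]
      exact hδ
    · have h1 : ∑ b, A k b * sv t b = bf s (X k) (X k) := by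
        have h2 : ∑ b, A k b * sv t b = bf t (X k) (X k) := by
          rw [bf_mono hts]
          refine Finset.sum_congr rfl fun b _ => ?_
          rw [hA, Matrix.updateRow_ne hk]
          rfl
        rw [h2, hbft, con_five hk, mul_zero, sub_zero]
      rw [h1]
      exact h k hk
  have hB1 : (1 : ℝ) ≤ 720 * (2 * R ^ 2) ^ 6 := by
    have h1 : (1 : ℝ) ≤ 2 * R ^ 2 := by nlinarith
    have h2 : (1 : ℝ) ≤ (2 * R ^ 2) ^ 6 := one_le_pow₀ h1
    linarith
  have hBA : ∀ k b, |A k b| ≤ 720 * (2 * R ^ 2) ^ 6 := by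
    intro k b
    rw [hA]
    by_cases hk : k = 5
    · subst hk
      rw [Matrix.updateRow_self]
      exact con_le hR hX b
    · rw [Matrix.updateRow_ne hk]
      refine (mono_le (hX k) b).trans ?_
      have h1 : (1 : ℝ) ≤ 2 * R ^ 2 := by nlinarith
      have h2 : 2 * R ^ 2 ≤ (2 * R ^ 2) ^ 6 := by
        calc 2 * R ^ 2 = (2 * R ^ 2) ^ 1 := (pow_one _).symm
          _ ≤ (2 * R ^ 2) ^ 6 := pow_le_pow_right₀ h1 (by norm_num)
      linarith
  have h1 : ∀ b, |sv t b| ≤ 6 * (720 * (720 * (2 * R ^ 2) ^ 6) ^ 6) * δ / κ ^ 2 := by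
    intro b
    have h2 := cramer_le A (sv t) hB1 hBA (μ := κ ^ 2) (τ := δ) (by positivity)
      (by rw [hdetA, abs_of_pos hq0]; exact hq) hrow b
    have e : ((6 : ℕ) : ℝ) * (((6 : ℕ).factorial : ℝ) * (720 * (2 * R ^ 2) ^ 6) ^ 6) =
        6 * (720 * (720 * (2 * R ^ 2) ^ 6) ^ 6) := by
      norm_num [Nat.factorial]
    rw [e] at h2
    exact h2
  have h2 := sv_entry hts h1 i j
  rw [ht] at h2
  exact h2

section R

variable {k : ℕ}

/-- **(R1)**: if the symmetric form of (R) is small, then `c' theta = - Theta'`. -/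
theorem r_one {Th : Fin m → ℝ} {c : Fin k → ℝ} {th : Fin k → Fin m → ℝ} {s : Fin m → Fin m → ℝ}
    {X : Fin m → ℝ} {δ δs R : ℝ} (hδs : 0 ≤ δs)
    (hR : ∀ i, |Th i + ∑ v, c v * th v i - ∑ j, s i j * X j| ≤ δ)
    (hs : ∀ i j, |s i j| ≤ δs) (hX : ∀ j, |X j| ≤ R) (i : Fin m) :
    |Th i + ∑ v, c v * th v i| ≤ δ + m * (δs * R) := by
  have h1 : |∑ j, s i j * X j| ≤ m * (δs * R) := by
    refine (Finset.abs_sum_le_sum_abs _ _).trans ?_
    refine (Finset.sum_le_card_nsmul _ _ (δs * R) fun j _ => ?_).trans ?_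
    · rw [abs_mul]
      exact mul_le_mul (hs i j) (hX j) (abs_nonneg _) hδs
    · rw [Finset.card_univ, Fintype.card_fin, nsmul_eq_mul]
  have h2 := abs_add_le (Th i + ∑ v, c v * th v i - ∑ j, s i j * X j) (∑ j, s i j * X j)
  rw [sub_add_cancel] at h2
  have h3 := hR i
  linarith

/-- **(R2)**: the normal form of (R) for a form which is near `g Q`. -/
theorem r_two {Th : Fin m → ℝ} {c : Fin k → ℝ} {th : Fin k → Fin m → ℝ}
    {s Q : Fin m → Fin m → ℝ} {g : ℝ} {X : Fin m → ℝ} {δ δs R : ℝ} (hδs : 0 ≤ δs)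
    (hR : ∀ i, |Th i + ∑ v, c v * th v i - ∑ j, s i j * X j| ≤ δ)
    (hs : ∀ i j, |s i j - g * Q i j| ≤ δs) (hX : ∀ j, |X j| ≤ R) (i : Fin m) :
    |Th i + ∑ v, c v * th v i - g * ∑ j, Q i j * X j| ≤ δ + m * (δs * R) := by
  have h1 : |∑ j, (s i j - g * Q i j) * X j| ≤ m * (δs * R) := by
    refine (Finset.abs_sum_le_sum_abs _ _).trans ?_
    refine (Finset.sum_le_card_nsmul _ _ (δs * R) fun j _ => ?_).trans ?_
    · rw [abs_mul]
      exact mul_le_mul (hs i j) (hX j) (abs_nonneg _) hδs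
    · rw [Finset.card_univ, Fintype.card_fin, nsmul_eq_mul]
  have e : Th i + ∑ v, c v * th v i - g * ∑ j, Q i j * X j =
      (Th i + ∑ v, c v * th v i - ∑ j, s i j * X j) + ∑ j, (s i j - g * Q i j) * X j := by
    have : ∑ j, (s i j - g * Q i j) * X j = ∑ j, s i j * X j - g * ∑ j, Q i j * X j := by
      rw [Finset.mul_sum, ← Finset.sum_sub_distrib]
      refine Finset.sum_congr rfl fun j _ => ?_
      ring
    rw [this]
    ring
  rw [e]
  refine (abs_add_le _ _).trans ?_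
  have h3 := hR i
  linarith

/-- (R) read in a direction. -/
theorem r_dir {Th : Fin m → ℝ} {c : Fin k → ℝ} {th : Fin k → Fin m → ℝ} {f : Fin m → ℝ}
    {Y : Fin m → ℝ} {δ R : ℝ} (hδ : 0 ≤ δ)
    (hR : ∀ i, |Th i + ∑ v, c v * th v i - f i| ≤ δ) (hY : ∀ j, |Y j| ≤ R) :
    |∑ i, Th i * Y i + ∑ v, c v * ∑ i, th v i * Y i - ∑ i, f i * Y i| ≤ m * (δ * R) := by
  have e : ∑ i, Th i * Y i + ∑ v, c v * ∑ i, th v i * Y i - ∑ i, f i * Y i =
      ∑ i, (Th i + ∑ v, c v * th v i - f i) * Y i := by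
    have h1 : ∑ v, c v * ∑ i, th v i * Y i = ∑ i, (∑ v, c v * th v i) * Y i := by
      simp only [Finset.mul_sum, Finset.sum_mul]
      rw [Finset.sum_comm]
      refine Finset.sum_congr rfl fun i _ => Finset.sum_congr rfl fun v _ => ?_
      ring
    rw [h1, ← Finset.sum_add_distrib, ← Finset.sum_sub_distrib]
    refine Finset.sum_congr rfl fun i _ => ?_
    ring
  rw [e]
  refine (Finset.abs_sum_le_sum_abs _ _).trans ?_
  refine (Finset.sum_le_card_nsmul _ _ (δ * R) fun i _ => ?_).trans ?_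
  · rw [abs_mul]
    exact mul_le_mul (hR i) (hY i) (abs_nonneg _) hδ
  · rw [Finset.card_univ, Fintype.card_fin, nsmul_eq_mul]

/-- **The two sources**: `Theta'_1 . X_2 + c'_1 . D_2 = O(delta)`: the first term is closed along
the line 1, `D_2` is constant along the line 2. -/
theorem two_src {Th : Fin m → ℝ} {c : Fin k → ℝ} {th : Fin k → Fin m → ℝ} {Y : Fin m → ℝ}
    {D : Fin k → ℝ} {δ δ' R C : ℝ} (hδ : 0 ≤ δ) (hC : 0 ≤ C)
    (hR : ∀ i, |Th i + ∑ v, c v * th v i| ≤ δ) (hY : ∀ j, |Y j| ≤ R) (hc : ∀ v, |c v| ≤ C)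
    (hD : ∀ v, |D v - ∑ i, th v i * Y i| ≤ δ') :
    |∑ i, Th i * Y i + ∑ v, c v * D v| ≤ m * (δ * R) + k * (C * δ') := by
  have h1 := r_dir (f := fun _ => 0) hδ (fun i => by simpa using hR i) hY
  simp only [zero_mul, Finset.sum_const_zero, sub_zero] at h1
  have h2 : |∑ v, c v * (D v - ∑ i, th v i * Y i)| ≤ k * (C * δ') := by
    refine (Finset.abs_sum_le_sum_abs _ _).trans ?_
    refine (Finset.sum_le_card_nsmul _ _ (C * δ') fun v _ => ?_).trans ?_
    · rw [abs_mul]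
      exact mul_le_mul (hc v) (hD v) (abs_nonneg _) hC
    · rw [Finset.card_univ, Fintype.card_fin, nsmul_eq_mul]
  have e : ∑ i, Th i * Y i + ∑ v, c v * D v =
      (∑ i, Th i * Y i + ∑ v, c v * ∑ i, th v i * Y i) +
        ∑ v, c v * (D v - ∑ i, th v i * Y i) := by
    have : ∑ v, c v * (D v - ∑ i, th v i * Y i) =
        ∑ v, c v * D v - ∑ v, c v * ∑ i, th v i * Y i := by
      rw [← Finset.sum_sub_distrib]
      refine Finset.sum_congr rfl fun v _ => ?_
      ring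
    rw [this]
    ring
  rw [e]
  exact (abs_add_le _ _).trans (add_le_add h1 h2)

/-- **Solving for the velocity**: `k` lines with independent rows `A a` determine `D`. -/
theorem solve_vel {A : Matrix (Fin k) (Fin k) ℝ} {D D' : Fin k → ℝ} {B κ τ : ℝ} (hB : 1 ≤ B)
    (hA : ∀ i j, |A i j| ≤ B) (hκ : 0 < κ) (hdet : κ ≤ |A.det|)
    (h : ∀ a, |∑ v, A a v * D v - ∑ v, A a v * D' v| ≤ τ) (v : Fin k) :
    |D v - D' v| ≤ k * (k.factorial * B ^ k) * τ / κ :=
  cramer_le A (fun v => D v - D' v) hB hA hκ hdet (fun a => by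
    have : ∑ b, A a b * (D b - D' b) = ∑ v, A a v * D v - ∑ v, A a v * D' v := by
      rw [← Finset.sum_sub_distrib]
      refine Finset.sum_congr rfl fun b _ => ?_
      ring
    rw [this]
    exact h a) v

end R

end Pool.D2A
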