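import Pool.Agent.H66.D2.Dcv

/-!
# The equation of a thin coordinate in the frame of the ball

`CEv.altG`: from the frame of the ball at the sample to the frame of the ball at the point.
-/

set_option autoImplicit false

namespace Pool.TN

open Finset Real MvPolynomial
open Pool.Agent.H49.Ent Pool.Agent.H32.Dense Pool.STK Pool.KA Pool.KSAT Pool.K2S Pool.PB Pool.S6C
open Pool.GEN Pool.CHT Pool.CHX Pool.ISO Pool.D2R Pool.D2Z Pool.D2F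
open Pool.FLF (Fam.sub)
open Pool.PB.Trl (rt rt_mem t_rt)

/-- **The equation of a thin coordinate** in the frame of the ball at the sample gives the one in the
frame of the ball at the point. -/
theorem CEv.altG (D r : ℕ) : ∃ C : ℕ, 1 ≤ C ∧ ∀ {m J : ℕ} {F : Fam m J} {c : ℕ → Fin m}
    {Dr N M A cl : ℕ} {Sc : ℕ → Prop} {w e h pp : ℕ → ℕ} {z g gc gT g₀ : ℕ → ℕ → ℕ} {κ : ℝ}
    {B : F.Ω → Prop} {G : ℕ → PtT F → ℕ → MvPolynomial (Option (Fin m)) ℝ}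
    {H : ℕ → LnT F → ℕ → MvPolynomial (Option (Fin m)) ℝ}
    {T : ℕ → PtT F → ℕ → MvPolynomial (Option (Fin m)) ℝ}
    {TH : ℕ → LnT F → ℕ → MvPolynomial (Option (Fin m)) ℝ}
    {Gt : ℕ → PtT F → MvPolynomial (Option (Fin m)) ℝ}
    {Ht : ℕ → LnT F → MvPolynomial (Option (Fin m)) ℝ},
    CEv F c r D Dr N M A cl Sc w e h pp z g gc gT g₀ κ B G H T TH Gt Ht → C ≤ cl →
    ∀ {i₀ i₁ i₂ i₃ X p x s₀ : ℕ} {g' : ℕ → ℕ},
    NumW r N M A cl J Sc w e pp z g gc gT g₀ i₀ i₁ i₂ i₃ X p x g' → s₀ < r →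
    (∀ l < r, Sc l ↔ l = s₀) →
    ∀ y < r, ¬ Sc y → (∀ l < r, y < l → l = s₀) →
    (s₀ < y ∨ (s₀ = y + 1 ∧ s₀ + 1 = r ∧
      g₀ i₃ s₀ + w i₀ + g₀ i₀ y ≤ w i₃ + g' y + g₀ i₀ s₀ + X)) → ∀ ω, B ω →
    |hs (Ht i₁ (slam F (w i₁) ω)) (bt F ω) (bd F ω)
        (ev c r (mx Sc (kT w TH ω i₀) (gG G ω i₃)) y) -
      cv (gG G ω i₃ r - grd (Ht i₁ (slam F (w i₁) ω)) (bt F ω))
        (ev c r (mx Sc (kT w TH ω i₀) (gG G ω i₃)) s₀) *
      hs (TH i₀ (slam F (w i₀) ω) s₀) (bt F ω) (bd F ω)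
        (ev c r (mx Sc (kT w TH ω i₀) (gG G ω i₃)) y)| ≤
      2 ^ X * 2 ^ (w i₃ + g' y) / 2 ^ g₀ i₃ r →
    |hs (Ht i₁ (slam F (w i₁) ω)) (bt F ω) (bd F ω) (ev c r (mx Sc (kc (w i₂)
          (Xcf w TH Sc i₀ i₂) ω) (gpt F (G i₃) (ptr F J ω))) y) -
      aS c r Sc (w i₂) s₀ (Xcf w TH Sc i₀ i₂) (fun s => Ht i₁ (co (w i₂ - w i₁) s))
        (gpt F (G i₃)) ω * hs (TH i₀ (slam F (w i₀) ω) s₀) (bt F ω) (bd F ω)
        (ev c r (mx Sc (kc (w i₂) (Xcf w TH Sc i₀ i₂) ω) (gpt F (G i₃) (ptr F J ω))) y)| ≤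
      2 ^ (C * (cl + X + 1)) * (2 ^ w i₃ / 2 ^ g₀ i₃ r) * 2 ^ g' y := by
  obtain ⟨C₂, hC₂, hgp⟩ := CEv.gptG D r
  obtain ⟨C, hC⟩ : ∃ C, C = C₂ + 4 * r + 50 := ⟨_, rfl⟩
  refine ⟨C, by omega, ?_⟩
  intro m J F c Dr N M A cl Sc w e h pp z g gc gT g₀ κ B G H T TH Gt Ht E hcl i₀ i₁ i₂ i₃ X p x
    s₀ g' n hs₀ h1 y hy hys hya hcase ω hω h8
  have hc : Set.InjOn c (Set.Iio r) := E.inj.mono (Set.Iio_subset_Iio (by omega))
  have hAJ : w i₂ ≤ J := (E.wA i₂ n.h2).trans E.AJ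
  have hkc := kc_Xcf (TH := TH) (Sc := Sc) n.w0 hAJ ω
  have hΦ : Ht i₁ (co (w i₂ - w i₁) (slam F (w i₂) ω)) = Ht i₁ (slam F (w i₁) ω) := by
    rw [co_slam F n.w1 hAJ]
  have hss : Sc s₀ := (h1 s₀ hs₀).2 rfl
  have e1 : C * (cl + X + 1) = C * cl + C * X + C := by ring
  have e3 : C * cl = C₂ * cl + 4 * (r * cl) + 50 * cl := by rw [hC]; ring
  have e4 : C * X = C₂ * X + 4 * (r * X) + 50 * X := by rw [hC]; ring
  have hpos := n.pos
  have hκc : ∀ l, CvC c l (kT w TH ω i₀ l) := fun l =>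
    cvc_grd ((E.evs i₀ n.h0).thin.depH _ l) _
  have hGc : ∀ i ≤ N, ∀ l, CvC c l (gG G ω i l) := fun i hi l =>
    cvc_grd ((E.evs i hi).ball.depG _ l) _
  have hΓc : ∀ l, CvC c l (gpt F (G i₃) (ptr F J ω) l) := fun l =>
    cvc_grd ((E.evs i₃ n.h3).ball.depG _ l) _
  rw [hkc, mx_mx]
  -- the two frames
  have hst := ev_stab (Sc := Sc) hc hκc hΓc (hGc i₃ n.h3) (x := y)
    (fun l hl hyl => (h1 l hl).2 (hya l hl hyl))
  have hQc : DepC c r (Ht i₁ (slam F (w i₁) ω)) := (E.evs i₁ n.h1).pH _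
  have hTc : DepC c s₀ (TH i₀ (slam F (w i₀) ω) s₀) := (E.evs i₀ n.h0).thin.depH _ s₀
  rw [hs_cong hc hQc _ _ (ev_none _ _ _ _) (ev_none _ _ _ _) hst,
    hs_cong (hc.mono (Set.Iio_subset_Iio hs₀.le)) hTc _ _ (ev_none _ _ _ _)
      (ev_none _ _ _ _) (fun j hj => hst j (hj.trans hs₀))]
  obtain ⟨V, hV⟩ : ∃ V, V = ev c r (mx Sc (kT w TH ω i₀) (gG G ω i₃)) y := ⟨_, rfl⟩
  have hV0 : V none = 0 := by rw [hV]; exact ev_none _ _ _ _
  have hmz : ∀ Q' W, DepC c s₀ Q' → s₀ ≤ y → hs Q' (bt F ω) W V = 0 := by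
    intro Q' W hQ' hle
    rw [hV]
    exact hs_zero_ev hc hs₀.le (mx_cvc hκc (hGc i₃ n.h3)) hle hQ' _ _
  rw [← hV] at h8 ⊢
  obtain ⟨R, hR⟩ : ∃ R : ℝ, R = 2 ^ w i₃ / 2 ^ g₀ i₃ r * 2 ^ g' y := ⟨_, rfl⟩
  have hR0 : 0 < R := by rw [hR]; positivity
  have hRm : (2 : ℝ) ^ (C * (cl + X + 1)) * (2 ^ w i₃ / 2 ^ g₀ i₃ r) * 2 ^ g' y =
      2 ^ (C * (cl + X + 1)) * R := by rw [hR]; ring
  have hRx : (2 : ℝ) ^ X * 2 ^ (w i₃ + g' y) / 2 ^ g₀ i₃ r = 2 ^ X * R := by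
    rw [hR, pow_add]
    ring
  rw [hRm]
  rw [hRx] at h8
  rcases hcase with hlt | ⟨hsy, hsr, hn3⟩
  · -- the static coordinate is below
    rw [hmz _ _ hTc hlt.le, mul_zero, sub_zero]
    rw [hmz _ _ hTc hlt.le, mul_zero, sub_zero] at h8
    exact h8.trans (mul_le_mul_of_nonneg_right (p2 (by omega)) hR0.le)
  · -- the static coordinate is the last one
    obtain ⟨zv, hzv⟩ : ∃ zv, zv = hs (TH i₀ (slam F (w i₀) ω) s₀) (bt F ω) (bd F ω) V :=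
      ⟨_, rfl⟩
    rw [← hzv] at h8 ⊢
    obtain ⟨a', ha'⟩ : ∃ a', a' = cv (gG G ω i₃ r - grd (Ht i₁ (slam F (w i₁) ω)) (bt F ω))
        (ev c r (mx Sc (kT w TH ω i₀) (gG G ω i₃)) s₀) := ⟨_, rfl⟩
    rw [← ha'] at h8
    obtain ⟨ao, hao⟩ : ∃ ao, ao = aS c r Sc (w i₂) s₀ (Xcf w TH Sc i₀ i₂)
        (fun s => Ht i₁ (co (w i₂ - w i₁) s)) (gpt F (G i₃)) ω := ⟨_, rfl⟩
    rw [← hao]
    -- the vector of the last coordinate
    obtain ⟨W, hW⟩ : ∃ W, W = ev c r (mx Sc (kT w TH ω i₀) (gG G ω i₃)) s₀ := ⟨_, rfl⟩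
    have hW0 : W none = 0 := by rw [hW]; exact ev_none _ _ _ _
    have hWs := ev_stab (Sc := Sc) hc hκc hΓc (hGc i₃ n.h3) (x := s₀)
      (fun l hl hyl => absurd hl (by omega))
    have hao' : ao = cv (gpt F (G i₃) (ptr F J ω) r - grd (Ht i₁ (slam F (w i₁) ω)) (bt F ω))
        W := by
      rw [hao, hW]
      unfold aS
      show cv (gpt F (G i₃) (ptr F J ω) r - grd (Ht i₁ (co (w i₂ - w i₁) (slam F (w i₂) ω)))
        (bt F ω)) _ = _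
      rw [hΦ, hkc, mx_mx]
      refine cv_cong hc ?_ (ev_none _ _ _ _) (ev_none _ _ _ _) hWs
      intro l hl
      have b1 := hΓc r l hl
      have b2 := cvc_grd hQc (bt F ω) l hl
      show gpt F (G i₃) (ptr F J ω) r (some l) - grd (Ht i₁ (slam F (w i₁) ω)) (bt F ω)
        (some l) = 0
      rw [b1, b2, sub_zero]
    rw [← hW] at ha'
    have hszW : sz c (g₀ i₃) (gG G ω i₃) r W ≤ 2 ^ g₀ i₃ s₀ := by
      subst hsr
      rw [hW]
      exact sz_last hc (mx_cvc hκc (hGc i₃ n.h3)) (hGc i₃ n.h3) _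
    -- the size of `z`
    have hgr : ∀ k ≤ N, cl ≤ gc k r := fun k hk => by
      have := (n.pos k hk).2.1 r le_rfl
      omega
    have hz1 := E.zS n.h0 n.h0 le_rfl (fun l hl => ⟨by
      have := (hpos i₀ n.h0).1 l hl
      omega, by
      have := (hpos i₀ n.h0).2.1 l hl.le
      omega⟩) (hpos i₀ n.h0).2.2 (hgr i₀ n.h0) hω hs₀ (n.one s₀ hs₀ hss)
      (by
        have := (hpos i₀ n.h0).1 s₀ hs₀
        omega) (X := X + 2 * cl) (by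
        have a1 := n.gr i₀ n.h0 s₀ hs₀ hss
        have a2 := E.ng i₀ n.h0 s₀ hs₀.le
        omega) V
    rw [← hzv, en_sz _ _ _ _ _ hV0] at hz1
    have hz2 : sz c (g₀ i₀) (gG G ω i₀) s₀ V ≤ 2 ^ g₀ i₀ y := by
      have b1 : sz c (g₀ i₀) (gG G ω i₀) s₀ V = sz c (g₀ i₀) (gG G ω i₀) s₀
          (ev c s₀ (mx Sc (kT w TH ω i₀) (gG G ω i₃)) y) := by
        have b2 : ∀ j < s₀, V (some (c j)) =
            ev c s₀ (mx Sc (kT w TH ω i₀) (gG G ω i₃)) y (some (c j)) := fun j hj => by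
          rw [hV]
          exact ev_cut hc hs₀.le (mx_cvc hκc (hGc i₃ n.h3)) y j hj
        unfold sz
        refine Finset.sum_congr rfl fun j hj => ?_
        rw [Finset.mem_range] at hj
        rw [b2 j hj, cv_cong (hc.mono (Set.Iio_subset_Iio (hj.trans hs₀).le)) (hGc i₀ n.h0 j)
          hV0 (ev_none _ _ _ _) (fun i hi => b2 i (hi.trans hj))]
      rw [b1]
      subst hsy
      exact sz_last (hc.mono (Set.Iio_subset_Iio hs₀.le)) (mx_cvc hκc (hGc i₃ n.h3))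
        (hGc i₀ n.h0) _
    have hz3 : |zv| ≤ 2 ^ (14 * cl + 4 * r + X + 10) * (2 ^ (w i₀ + g₀ i₀ y) /
        2 ^ g₀ i₀ s₀) := by
      refine hz1.trans ((mul_le_mul_of_nonneg_left hz2 (by positivity)).trans (le_of_eq ?_))
      rw [show 12 * cl + 4 * r + (X + 2 * cl) + 10 = 14 * cl + 4 * r + X + 10 by ring, pow_add _
        (w i₀)]
      ring
    -- the two corrections
    have hd1 : |cv (gpt F (G i₃) (ptr F J ω) r - gG G ω i₃ r) W| ≤ 2 ^ g₀ i₃ s₀ /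
        2 ^ g₀ i₃ r := by
      refine (hgp E (by omega) i₃ n.h3 ω hω r le_rfl W hW0).trans
        ((mul_le_mul_of_nonneg_left hszW (by positivity)).trans (le_of_eq ?_))
      ring
    have hd3 : |a' - ao| ≤ 2 ^ g₀ i₃ s₀ / 2 ^ g₀ i₃ r := by
      have b1 : a' - ao = -(cv (gpt F (G i₃) (ptr F J ω) r - gG G ω i₃ r) W) := by
        rw [ha', hao', cv_subl, cv_subl, cv_subl]
        ring
      rw [b1, abs_neg]
      exact hd1
    have hd4 : |a' - ao| * |zv| ≤ 2 ^ (14 * cl + 4 * r + 2 * X + 10) * R := by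
      obtain ⟨S, hSS⟩ : ∃ S : ℝ, S = 2 ^ (w i₀ + g₀ i₀ y) / 2 ^ g₀ i₀ s₀ := ⟨_, rfl⟩
      have hS0 : 0 < S := by rw [hSS]; positivity
      rw [← hSS] at hz3
      have b1 : 2 ^ g₀ i₃ s₀ / 2 ^ g₀ i₃ r * S ≤ 2 ^ X * R := by
        rw [hSS, hR, div_mul_div_comm, ← pow_add, ← pow_add, div_mul_eq_mul_div, ← pow_add,
          ← mul_div_assoc, div_le_div_iff₀ (by positivity) (by positivity), ← pow_add, ← pow_add,
          ← pow_add]
        exact p2 (by omega)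
      calc |a' - ao| * |zv| ≤ 2 ^ g₀ i₃ s₀ / 2 ^ g₀ i₃ r *
            (2 ^ (14 * cl + 4 * r + X + 10) * S) :=
            mul_le_mul hd3 hz3 (abs_nonneg _) (by positivity)
        _ = 2 ^ (14 * cl + 4 * r + X + 10) * (2 ^ g₀ i₃ s₀ / 2 ^ g₀ i₃ r * S) := by ring
        _ ≤ 2 ^ (14 * cl + 4 * r + X + 10) * (2 ^ X * R) :=
            mul_le_mul_of_nonneg_left b1 (by positivity)
        _ = _ := by
            rw [show 14 * cl + 4 * r + 2 * X + 10 = (14 * cl + 4 * r + X + 10) + X by ring,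
              pow_add (2 : ℝ) (14 * cl + 4 * r + X + 10) X]
            ring
    have hfin : hs (Ht i₁ (slam F (w i₁) ω)) (bt F ω) (bd F ω) V - ao * zv =
        (hs (Ht i₁ (slam F (w i₁) ω)) (bt F ω) (bd F ω) V - a' * zv) + (a' - ao) * zv := by
      ring
    rw [hfin]
    refine (abs_add_le _ _).trans ?_
    rw [abs_mul]
    refine (add_le_add h8 hd4).trans ?_
    rw [← add_mul]
    refine mul_le_mul_of_nonneg_right ?_ hR0.le
    obtain ⟨u2, hu2⟩ : ∃ u, u = 14 * cl + 4 * r + 2 * X + 10 := ⟨_, rfl⟩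
    obtain ⟨u3, hu3⟩ : ∃ u, u + 1 = C * (cl + X + 1) := ⟨C * (cl + X + 1) - 1, by omega⟩
    rw [← hu2, ← hu3, pow_succ (2 : ℝ) u3, mul_two]
    exact add_le_add (p2 (by omega)) (p2 (by omega))

end Pool.TN
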