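import Pool.Agent.H66.D2.Ste

/-!
# The numbers of the windows of a static cell, in real form

`ApN`: the levels of the windows `τ + v k U` with the common radius, up to `y U`.
-/

set_option autoImplicit false

namespace Pool.TN

open Finset Real MvPolynomial
open Pool.Agent.H49.Ent Pool.Agent.H32.Dense Pool.STK Pool.KA Pool.KSAT Pool.K2S Pool.PB Pool.S6C
open Pool.GEN Pool.CHT Pool.CHX Pool.ISO Pool.D2R Pool.D2Z Pool.D2F Pool.AFT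
open Pool.LBT (ThrOf)
open Pool.FLF (Fam.sub)
open Pool.PB.Trl (rt rt_mem t_rt)

/-- **The numbers of the windows**, real form: `U` the unit, `τ` the base, `Λ l`, `Sl l` the levels and
slopes, `Ee` the exponent, `K` the radius of the record, `A'` the common radius. -/
structure ApN (r N J A cl : ℕ) (Sc : ℕ → Prop) (w e pp : ℕ → ℕ) (g gc gT g₀ : ℕ → ℕ → ℕ)
    (U y τ Ee K A' : ℝ) (v Sl Λ : ℕ → ℝ) : Prop where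
  U0 : 0 < U
  y0 : 0 < y
  yU : 2 ≤ y * U
  cl1 : (cl : ℝ) ≤ y * U
  cl2 : y * U - 1 ≤ cl
  AJ : A ≤ J
  A1 : τ + A' * U - 1 ≤ A
  A2 : (A : ℝ) ≤ τ + A' * U
  w1 : ∀ k ≤ N, τ + v k * U - 1 ≤ w k ∧ (w k : ℝ) ≤ τ + v k * U
  wA : ∀ k ≤ N, w k ≤ A
  wm : ∀ k ≤ N, ∀ k' ≤ N, v k ≤ v k' → w k ≤ w k'
  ga : ∀ k ≤ N, ∀ l ≤ r, Λ l + Sl l * v k * U - 2 * (y * U) ≤ g₀ k l ∧
    (g₀ k l : ℝ) ≤ Λ l + Sl l * v k * U + 2 * (y * U)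
  gb : ∀ k ≤ N, ∀ l ≤ r, Λ l + Sl l * v k * U - 2 * (y * U) ≤ g k l ∧
    (g k l : ℝ) ≤ Λ l + Sl l * v k * U + 2 * (y * U)
  gd : ∀ k ≤ N, ∀ l ≤ r, Λ l + Sl l * v k * U + (A' - v k) * U - 4 * (y * U) ≤ gc k l ∧
    (gc k l : ℝ) ≤ Λ l + Sl l * v k * U + (A' - v k) * U + 4 * (y * U)
  ng : ∀ k ≤ N, ∀ l ≤ r, g₀ k l ≤ g k l + cl ∧ g k l ≤ g₀ k l + cl ∧
    g k l + (A - w k) ≤ gc k l + cl ∧ gc k l ≤ g k l + (A - w k) + cl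
  gr : ∀ k ≤ N, ∀ l < r, ¬ Sc l → gT k l = gc k l
  gs : ∀ k ≤ N, ∀ l < r, Sc l → Λ l + Sl l * A' * U - 4 * (y * U) ≤ gT k l ∧
    (gT k l : ℝ) ≤ Λ l + Sl l * A' * U + 4 * (y * U)
  pa : ∀ k ≤ N, Λ r + Sl r * v k * U + 2 * (A' - v k) * U - 4 * (y * U) ≤ pp k
  lo : ∀ k ≤ N, ∀ l ≤ r, (K + v k) * U - y * U ≤ Λ l + Sl l * v k * U
  ro : ∀ l ≤ r, Λ l + Sl l * K * U + Ee + 3 * K * U ≤ J + y * U
  ee : ∀ k ≤ N, (e k : ℝ) ≤ Ee + y * U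
  sl : ∀ l ≤ r, 1 ≤ Sl l

theorem nat_le_of_real {a b : ℕ} (h : (a : ℝ) ≤ b) : a ≤ b := by exact_mod_cast h

end Pool.TN
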