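import Pool.Agent.H66.D2.Cor
import Pool.Agent.H66.D2.Afo

/-!
# The corrected tower is affine tower data

`lamc`: the gradients of the chain and, at the place `n`, of the corrected row covector, as polynomials
of the relative time. `CfD`: the data at the samples of an event. `CfD.afo`: they are an affine tower
at the own times (`AfO`).
-/

set_option autoImplicit false

namespace Pool.TN

open Finset Real MvPolynomial
open Pool.Agent.H49.Ent Pool.Agent.H32.Dense Pool.STK Pool.KA Pool.KSAT Pool.K2S Pool.PB Pool.S6C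
open Pool.GEN Pool.CHT Pool.CHX Pool.ISO Pool.D2R Pool.D2Z Pool.D2F
open Pool.PB.Trl (rt rt_mem t_rt)
open Pool.AFT (AfO)

variable {m J : ℕ}

theorem cvc_mono {c : ℕ → Fin m} {i i' : ℕ} {ψ : Option (Fin m) → ℝ} (h : CvC c i ψ)
    (hi : i ≤ i') : CvC c i' ψ := fun k hk => h k fun j hj => hk j (hj.trans_le hi)

/-- The covector with the coefficients `x`. -/
noncomputable def ros (c : ℕ → Fin m) (n : ℕ) (x : ℕ → ℝ) : Option (Fin m) → ℝ := fun o =>
  ∑ j ∈ range n, if o = some (c j) then x j else 0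

theorem cv_ros (c : ℕ → Fin m) (n : ℕ) (x : ℕ → ℝ) (V : Option (Fin m) → ℝ) :
    cv (ros c n x) V = ∑ j ∈ range n, x j * V (some (c j)) := by
  classical
  unfold cv ros
  have h1 : ∀ o, (∑ j ∈ range n, if o = some (c j) then x j else 0) * V o =
      ∑ j ∈ range n, if o = some (c j) then x j * V o else 0 := by
    intro o
    rw [Finset.sum_mul]
    refine Finset.sum_congr rfl fun j _ => ?_
    split_ifs
    · rfl
    · rw [zero_mul]
  rw [Finset.sum_congr rfl fun o _ => h1 o, Finset.sum_comm]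
  refine Finset.sum_congr rfl fun j _ => ?_
  rw [Finset.sum_ite_eq', if_pos (Finset.mem_univ _)]

theorem cvc_ros (c : ℕ → Fin m) (n : ℕ) (x : ℕ → ℝ) : CvC c n (ros c n x) := by
  intro k hk
  unfold ros
  refine Finset.sum_eq_zero fun j hj => ?_
  rw [if_neg (fun h => hk j (Finset.mem_range.1 hj) (Option.some_injective _ h))]

open Classical in
/-- **The gradients of the corrected tower.** -/
noncomputable def lamc {F : Fam m J} (n : ℕ) (Sc : ℕ → Prop)
    (κp : LnT F → ℕ → ℕ → Polynomial ℝ) (φp δp : LnT F → ℕ → Polynomial ℝ) (s : LnT F)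
    (l j : ℕ) : Polynomial ℝ :=
  if l < n then κp s l j else φp s j + ∑ x ∈ range n, if Sc x then
    δp s x * ((if j = x then 1 else 0) - if j < x then κp s x j else 0) else 0

theorem lamc_deg {F : Fam m J} {n : ℕ} {Sc : ℕ → Prop} {κp : LnT F → ℕ → ℕ → Polynomial ℝ}
    {φp δp : LnT F → ℕ → Polynomial ℝ} {D D₁ : ℕ} (hk : ∀ s l j, (κp s l j).natDegree ≤ D)
    (hf : ∀ s j, (φp s j).natDegree ≤ D) (hd : ∀ s x, (δp s x).natDegree ≤ D₁) (s : LnT F)
    (l j : ℕ) : (lamc n Sc κp φp δp s l j).natDegree ≤ D + D₁ := by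
  unfold lamc
  split_ifs with h
  · exact (hk s l j).trans (Nat.le_add_right _ _)
  · refine (Polynomial.natDegree_add_le _ _).trans (max_le ((hf s j).trans
      (Nat.le_add_right _ _)) ?_)
    refine Polynomial.natDegree_sum_le_of_forall_le _ _ fun x _ => ?_
    by_cases h1 : Sc x
    · rw [if_pos h1]
      refine Polynomial.natDegree_mul_le.trans ?_
      rw [add_comm]
      refine Nat.add_le_add ?_ (hd s x)
      refine (Polynomial.natDegree_sub_le _ _).trans (max_le ?_ ?_)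
      · split_ifs
        · rw [Polynomial.natDegree_one]
          exact Nat.zero_le _
        · rw [Polynomial.natDegree_zero]
          exact Nat.zero_le _
      · split_ifs
        · exact hk s x j
        · rw [Polynomial.natDegree_zero]
          exact Nat.zero_le _
    · rw [if_neg h1, Polynomial.natDegree_zero]
      exact Nat.zero_le _

/-- The value of a row of the tower, chain coordinates. -/
theorem lamc_chn {F : Fam m J} {n : ℕ} {Sc : ℕ → Prop} {κp : LnT F → ℕ → ℕ → Polynomial ℝ}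
    {φp δp : LnT F → ℕ → Polynomial ℝ} {l : ℕ} (hl : l < n) (s : LnT F) (j : ℕ) :
    lamc n Sc κp φp δp s l j = κp s l j := if_pos hl

/-- The value of the target row of the tower. -/
theorem lamc_tgt {F : Fam m J} {c : ℕ → Fin m} {n : ℕ} (hc : Set.InjOn c (Set.Iio n))
    {Sc : ℕ → Prop} {κp : LnT F → ℕ → ℕ → Polynomial ℝ} {φp δp : LnT F → ℕ → Polynomial ℝ}
    {s : LnT F} {τ : ℝ} {κ : ℕ → Option (Fin m) → ℝ} {φ : Option (Fin m) → ℝ}
    (hκ : ∀ l, CvC c l (κ l)) (hφ : CvC c n φ)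
    (ek : ∀ l < n, ∀ j < l, (κp s l j).eval τ = κ l (some (c j)))
    (ef : ∀ j < n, (φp s j).eval τ = φ (some (c j))) {V : Option (Fin m) → ℝ}
    (h0 : V none = 0) :
    ∑ j ∈ range n, (lamc n Sc κp φp δp s n j).eval τ * V (some (c j)) =
      cv (cor c n Sc κ φ fun l => (δp s l).eval τ) V := by
  classical
  have h1 : ∀ j ∈ range n, (lamc n Sc κp φp δp s n j).eval τ * V (some (c j)) =
      φ (some (c j)) * V (some (c j)) + ∑ x ∈ range n, wt Sc (fun l => (δp s l).eval τ) x *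
        ((if j = x then V (some (c j)) else 0) -
          if j < x then κ x (some (c j)) * V (some (c j)) else 0) := by
    intro j hj
    rw [Finset.mem_range] at hj
    unfold lamc
    rw [if_neg (lt_irrefl n), Polynomial.eval_add, Polynomial.eval_finsetSum, ef j hj, add_mul,
      Finset.sum_mul]
    congr 1
    refine Finset.sum_congr rfl fun x hx => ?_
    rw [Finset.mem_range] at hx
    unfold wt
    split_ifs with h2 h3 h4 h4
    · omega
    · rw [Polynomial.eval_mul, Polynomial.eval_sub, Polynomial.eval_one, Polynomial.eval_zero]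
      ring
    · rw [Polynomial.eval_mul, Polynomial.eval_sub, Polynomial.eval_zero, ek x hx j h4]
      ring
    · rw [Polynomial.eval_mul, Polynomial.eval_sub, Polynomial.eval_zero]
      ring
    · rw [Polynomial.eval_zero, zero_mul, zero_mul]
    · rw [Polynomial.eval_zero, zero_mul, zero_mul]
    · rw [Polynomial.eval_zero, zero_mul, zero_mul]
    · rw [Polynomial.eval_zero, zero_mul, zero_mul]
  rw [Finset.sum_congr rfl h1, Finset.sum_add_distrib, cv_cor, cv_eq hc hφ, h0, mul_zero,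
    zero_add]
  congr 1
  rw [Finset.sum_comm]
  refine Finset.sum_congr rfl fun x hx => ?_
  rw [Finset.mem_range] at hx
  rw [← Finset.mul_sum]
  congr 1
  rw [Finset.sum_sub_distrib, Finset.sum_ite_eq', if_pos (Finset.mem_range.2 hx),
    cv_eq (hc.mono (Set.Iio_subset_Iio hx.le)) (hκ x), h0, mul_zero, zero_add]
  congr 1
  rw [← Finset.sum_filter]
  refine Finset.sum_congr ?_ fun _ _ => rfl
  ext j
  rw [Finset.mem_filter, Finset.mem_range, Finset.mem_range]
  constructor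
  · exact fun h => h.2
  · exact fun h => ⟨h.trans hx, h⟩

theorem sz_congr {c : ℕ → Fin m} {g g' : ℕ → ℕ} {χ χ' : ℕ → Option (Fin m) → ℝ} {l : ℕ}
    (hg : ∀ j < l, g j = g' j) (hχ : ∀ j < l, χ j = χ' j) (V : Option (Fin m) → ℝ) :
    sz c g χ l V = sz c g' χ' l V := by
  unfold sz
  refine Finset.sum_congr rfl fun j hj => ?_
  rw [Finset.mem_range] at hj
  rw [hg j hj, hχ j hj]

/-- **The data of the corrected tower.** -/
structure CfD (F : Fam m J) (c : ℕ → Fin m) (n : ℕ) (Sc : ℕ → Prop) (D D₁ t K A e : ℕ)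
    (gK g' gT : ℕ → ℕ) (gN p : ℕ) (Y : ℝ) (B : F.Ω → Prop)
    (κ : F.Ω → ℕ → Option (Fin m) → ℝ) (φ : F.Ω → Option (Fin m) → ℝ)
    (σ Γ : PtT F → ℕ → Option (Fin m) → ℝ) (γ ΓN : PtT F → Option (Fin m) → ℝ)
    (δ' : PtT F → ℕ → ℝ) (κp : LnT F → ℕ → ℕ → Polynomial ℝ)
    (φp δp : LnT F → ℕ → Polynomial ℝ) : Prop where
  num : Nmb n Sc gK g' gT gN p Y
  cl : ∀ ω, B ω → RwC c n Sc gK g' gT gN p Y (κ ω) (Γ (ptr F J ω)) (φ ω) (ΓN (ptr F J ω))
    (fun l => (δp (slam F t ω) l).eval (rt F t ω))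
  vi : ∀ ω, B ω → RwC c n Sc gK g' gT gN p Y (σ (ptr F J ω)) (Γ (ptr F J ω)) (γ (ptr F J ω))
    (ΓN (ptr F J ω)) (δ' (ptr F J ω))
  cσ : ∀ y l, CvC c l (σ y l)
  cγ : ∀ y, CvC c n (γ y)
  ag : ∀ ω, B ω → ∀ V : Option (Fin m) → ℝ, V none = 0 →
    |cv (φ ω - γ (ptr F J ω)) V| ≤ Y / 2 ^ p * sz c gT (κ ω) n V
  ch : ∀ ω, B ω → ∀ l < n, Sc l → ∀ V : Option (Fin m) → ℝ, V none = 0 →
    |cv (κ ω l - σ (ptr F J ω) l) V| ≤ Y / 2 ^ gT l * sz c gT (κ ω) l V
  rg : ∀ ω, B ω → ∀ l < n, ¬ Sc l → ∀ V : Option (Fin m) → ℝ, V none = 0 →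
    |cv (κ ω l - σ (ptr F J ω) l) V| ≤ Y / 2 ^ g' l * sz c g' (κ ω) l V
  ek : ∀ ω, B ω → ∀ l < n, ∀ j < l, (κp (slam F t ω) l j).eval (rt F t ω) = κ ω l (some (c j))
  ef : ∀ ω, B ω → ∀ j < n, (φp (slam F t ω) j).eval (rt F t ω) = φ ω (some (c j))
  dk : ∀ s l j, (κp s l j).natDegree ≤ D
  df : ∀ s j, (φp s j).natDegree ≤ D
  dd : ∀ s x, (δp s x).natDegree ≤ D₁
  vl : ∀ ω, B ω → ∀ l < n, |bd F ω (some (c l)) - cv (σ (ptr F J ω) l) (bd F ω)| ≤
    Y * (2 ^ K / 2 ^ g' l)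
  vs : ∀ ω, B ω → ∀ l < n, Sc l → |bd F ω (some (c l)) - cv (σ (ptr F J ω) l) (bd F ω)| ≤
    Y * 2 ^ A / 2 ^ gT l
  vn : ∀ ω, B ω → |bd F ω (some (c n)) - cv (γ (ptr F J ω)) (bd F ω)| ≤ Y * 2 ^ A / 2 ^ p
  vA : (2 : ℝ) ^ A / 2 ^ p ≤ Y * (2 ^ K / 2 ^ gN)
  lip : ∀ ω, B ω → ∀ l < n + 1, ∀ j < l, |(if l < n then σ (ptr F J ω) l else
    cor c n Sc (σ (ptr F J ω)) (γ (ptr F J ω)) (δ' (ptr F J ω))) (some (c j))| ≤
      2 ^ (e + nlp (fun l => if l < n then g' l else gN) j l)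
  d1 : ∀ ω, B ω → ∀ l < n, Sc l → ∀ V : Option (Fin m) → ℝ, V none = 0 →
    |∑ j ∈ range l, (Polynomial.derivative (κp (slam F t ω) l j)).eval (rt F t ω) *
      V (some (c j))| ≤ Y * 2 ^ (K - t) / 2 ^ gK l * sz c gK (Γ (ptr F J ω)) l V
  d2 : ∀ ω, B ω → ∀ l < n, Sc l → ∀ x < l, ¬ Sc x →
    |∑ j ∈ range l, (Polynomial.derivative (κp (slam F t ω) l j)).eval (rt F t ω) *
      ev c l (mx Sc (κ ω) (Γ (ptr F J ω))) x (some (c j))| ≤
        Y * 2 ^ (K - t) / 2 ^ gK l * 2 ^ g' x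
  d3 : ∀ ω, B ω → ∀ l < n, ¬ Sc l → ∀ V : Option (Fin m) → ℝ, V none = 0 →
    |∑ j ∈ range l, (Polynomial.derivative (κp (slam F t ω) l j)).eval (rt F t ω) *
      V (some (c j))| ≤ Y * 2 ^ (K - t) / 2 ^ g' l * sz c g' (κ ω) l V
  d4 : ∀ ω, B ω → ∀ V : Option (Fin m) → ℝ, V none = 0 →
    |∑ j ∈ range n, (Polynomial.derivative (lamc n Sc κp φp δp (slam F t ω) n j)).eval
      (rt F t ω) * V (some (c j))| ≤ Y * 2 ^ (K - t) / 2 ^ gN * sz c gK (Γ (ptr F J ω)) n V
  d5 : ∀ ω, B ω → ∀ x < n, ¬ Sc x →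
    |∑ j ∈ range n, (Polynomial.derivative (lamc n Sc κp φp δp (slam F t ω) n j)).eval
      (rt F t ω) * ev c n (mx Sc (κ ω) (Γ (ptr F J ω))) x (some (c j))| ≤
        Y * 2 ^ (K - t) / 2 ^ gN * 2 ^ g' x

/-- The constants. -/
theorem num_cfo {n : ℕ} {Y : ℝ} (hY : 2 ≤ Y) :
    4 * Y ^ 8 * ((1 + Y ^ 2) ^ n) ^ 2 * (1 + Y) ^ (n + 1) *
      (1 + 2 * Y ^ 6 * (1 + Y ^ 2) ^ n * (1 + Y) ^ (n + 1)) ^ (n + 1) ≤
      Y ^ ((5 * n + 14) * (n + 2)) := by
  have hY0 : 0 < Y := by linarith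
  have hY1 : 1 ≤ Y := by linarith
  have h1 : 1 + Y ^ 2 ≤ Y ^ 3 := by nlinarith [sq_nonneg Y, sq_nonneg (Y - 1)]
  have h2 : 1 + Y ≤ Y ^ 2 := by nlinarith
  have hE : (1 + Y ^ 2) ^ n ≤ Y ^ (3 * n) := by
    rw [pow_mul]
    exact pow_le_pow_left₀ (by positivity) h1 n
  have hF : (1 + Y) ^ (n + 1) ≤ Y ^ (2 * (n + 1)) := by
    rw [pow_mul]
    exact pow_le_pow_left₀ (by positivity) h2 _
  have h3 : 2 * Y ^ 6 * (1 + Y ^ 2) ^ n * (1 + Y) ^ (n + 1) ≤ Y ^ (5 * n + 9) := by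
    calc 2 * Y ^ 6 * (1 + Y ^ 2) ^ n * (1 + Y) ^ (n + 1) ≤
          Y * Y ^ 6 * Y ^ (3 * n) * Y ^ (2 * (n + 1)) :=
          mul_le_mul (mul_le_mul (mul_le_mul_of_nonneg_right hY (by positivity)) hE
            (by positivity) (by positivity)) hF (by positivity) (by positivity)
      _ = _ := by
        rw [← pow_succ', ← pow_add, ← pow_add]
        congr 1
        ring
  have h4 : 1 + 2 * Y ^ 6 * (1 + Y ^ 2) ^ n * (1 + Y) ^ (n + 1) ≤ Y ^ (5 * n + 10) := by
    have h5 : (1 : ℝ) ≤ Y ^ (5 * n + 9) := one_le_pow₀ hY1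
    have h6 : Y ^ (5 * n + 10) = Y ^ (5 * n + 9) * Y := pow_succ _ _
    rw [h6]
    nlinarith
  have h5 : (1 + 2 * Y ^ 6 * (1 + Y ^ 2) ^ n * (1 + Y) ^ (n + 1)) ^ (n + 1) ≤
      Y ^ ((5 * n + 10) * (n + 1)) := by
    rw [pow_mul]
    exact pow_le_pow_left₀ (by positivity) h4 _
  have h6 : ((1 + Y ^ 2) ^ n) ^ 2 ≤ Y ^ (6 * n) := by
    have h7 := pow_le_pow_left₀ (by positivity) hE 2
    refine h7.trans (le_of_eq ?_)
    rw [← pow_mul]
    congr 1
    ring
  have h7 : (4 : ℝ) ≤ Y ^ 2 := by nlinarith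
  calc 4 * Y ^ 8 * ((1 + Y ^ 2) ^ n) ^ 2 * (1 + Y) ^ (n + 1) *
      (1 + 2 * Y ^ 6 * (1 + Y ^ 2) ^ n * (1 + Y) ^ (n + 1)) ^ (n + 1) ≤
        Y ^ 2 * Y ^ 8 * Y ^ (6 * n) * Y ^ (2 * (n + 1)) * Y ^ ((5 * n + 10) * (n + 1)) :=
        mul_le_mul (mul_le_mul (mul_le_mul (mul_le_mul_of_nonneg_right h7 (by positivity)) h6
          (by positivity) (by positivity)) hF (by positivity) (by positivity)) h5
          (by positivity) (by positivity)
    _ = Y ^ (2 + 8 + 6 * n + 2 * (n + 1) + (5 * n + 10) * (n + 1)) := by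
      rw [← pow_add, ← pow_add, ← pow_add, ← pow_add]
    _ ≤ _ := pow_le_pow_right₀ hY1 (by nlinarith)

/-- **The corrected tower is an affine tower at the own times.** -/
theorem CfD.afo {F : Fam m J} {c : ℕ → Fin m} {n : ℕ} {Sc : ℕ → Prop} {D D₁ t K A e : ℕ}
    {gK g' gT : ℕ → ℕ} {gN p : ℕ} {Y : ℝ} {B : F.Ω → Prop}
    {κ : F.Ω → ℕ → Option (Fin m) → ℝ} {φ : F.Ω → Option (Fin m) → ℝ}
    {σ Γ : PtT F → ℕ → Option (Fin m) → ℝ} {γ ΓN : PtT F → Option (Fin m) → ℝ}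
    {δ' : PtT F → ℕ → ℝ} {κp : LnT F → ℕ → ℕ → Polynomial ℝ}
    {φp δp : LnT F → ℕ → Polynomial ℝ} (hc : Set.InjOn c (Set.Iio n))
    (h : CfD F c n Sc D D₁ t K A e gK g' gT gN p Y B κ φ σ Γ γ ΓN δ' κp φp δp) :
    AfO F c (n + 1) (D + D₁) t K e (fun l => if l < n then g' l else gN)
      (Y ^ ((5 * n + 14) * (n + 2))) B
      (fun y l => if l < n then σ y l else cor c n Sc (σ y) (γ y) (δ' y))
      (lamc n Sc κp φp δp) := by
  have hN := h.num
  have hY2 := hN.y2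
  have hY0 : 0 < Y := by linarith
  have hY1 : 1 ≤ Y := by linarith
  obtain ⟨E, hE⟩ : ∃ E, E = (1 + Y ^ 2) ^ n := ⟨_, rfl⟩
  obtain ⟨G, hG⟩ : ∃ G, G = (1 + Y) ^ (n + 1) := ⟨_, rfl⟩
  have hE1 : 1 ≤ E := by
    rw [hE]
    exact one_le_pow₀ (by nlinarith)
  have hG1 : 1 ≤ G := by
    rw [hG]
    exact one_le_pow₀ (by linarith)
  obtain ⟨C₁, hC₁⟩ : ∃ C₁, C₁ = 2 * Y ^ 6 * E * G := ⟨_, rfl⟩
  have hC₁1 : 1 ≤ C₁ := by
    rw [hC₁]
    calc (1 : ℝ) = 1 * 1 * 1 * 1 := by ring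
      _ ≤ 2 * Y ^ 6 * E * G := mul_le_mul (mul_le_mul (mul_le_mul (by norm_num)
        (one_le_pow₀ hY1) (by norm_num) (by norm_num)) hE1 (by norm_num) (by positivity)) hG1
        (by norm_num) (by positivity)
  have hYC : Y ≤ C₁ := by
    rw [hC₁]
    calc Y = 1 * Y * 1 * 1 := by ring
      _ ≤ 2 * Y ^ 6 * E * G := mul_le_mul (mul_le_mul (mul_le_mul (by norm_num)
        (by nlinarith [one_le_pow₀ (n := 5) hY1, pow_succ Y 5]) (by positivity) (by norm_num))
        hE1 (by norm_num) (by positivity)) hG1 (by norm_num) (by positivity)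
  obtain ⟨Z, hZ⟩ : ∃ Z, Z = Y ^ ((5 * n + 14) * (n + 2)) := ⟨_, rfl⟩
  have hnum := num_cfo (n := n) hY2
  rw [← hE, ← hG, ← hC₁, ← hZ] at hnum
  rw [← hZ]
  -- the chain, closed against visible
  have hcs : ∀ ω, B ω → ∀ l < n, ∀ V : Option (Fin m) → ℝ, V none = 0 →
      |cv (κ ω l - σ (ptr F J ω) l) V| ≤ C₁ / 2 ^ g' l * sz c g' (κ ω) l V := by
    intro ω hω l hl V h0
    by_cases hs : Sc l
    · have h1 := chn_two hc hN (h.cl ω hω).ch (h.vi ω hω).ch (h.ch ω hω) hl hs h0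
      rw [← hE, ← hG, ← hC₁] at h1
      exact h1
    · exact (h.rg ω hω l hl hs V h0).trans (mul_le_mul_of_nonneg_right
        (div_le_div_of_nonneg_right hYC (by positivity)) (sz_nonneg _ _ _ _ _))
  have hcs' : ∀ ω, B ω → ∀ {V : Option (Fin m) → ℝ}, V none = 0 → ∀ {l : ℕ}, l ≤ n →
      sz c g' (κ ω) l V ≤ (1 + C₁) ^ n * sz c g' (σ (ptr F J ω)) l V := by
    intro ω hω V h0 l hl
    have h1 : ∀ l < n, |cv (σ (ptr F J ω) l - κ ω l) V| ≤
        C₁ / 2 ^ g' l * sz c g' (κ ω) l V := by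
      intro l hl
      have h2 := hcs ω hω l hl V h0
      have e1 : cv (σ (ptr F J ω) l - κ ω l) V = -cv (κ ω l - σ (ptr F J ω) l) V := by
        rw [cv_subl, cv_subl]
        ring
      rw [e1, abs_neg]
      exact h2
    exact (sz_ge (by linarith) h1 hl).trans (mul_le_mul_of_nonneg_right
      (pow_le_pow_right₀ (by linarith) hl) (sz_nonneg _ _ _ _ _))
  have hen : ∀ (y : PtT F) {V : Option (Fin m) → ℝ}, V none = 0 → ∀ {l : ℕ}, l ≤ n →
      en c (fun l => if l < n then g' l else gN) K (fun l => if l < n then σ y l else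
        cor c n Sc (σ y) (γ y) (δ' y)) l V = sz c g' (σ y) l V := by
    intro y V h0 l hl
    rw [en_sz _ _ _ _ _ h0]
    exact sz_congr (fun j hj => if_pos (by omega)) (fun j hj => if_pos (by omega)) V
  have hfin : ∀ {X : ℝ}, 0 ≤ X → X ≤ 4 * Y ^ 8 * E ^ 2 * G * (1 + C₁) →
      X * (1 + C₁) ^ n ≤ Z := by
    intro X hX0 hX
    refine le_trans ?_ hnum
    calc X * (1 + C₁) ^ n ≤ 4 * Y ^ 8 * E ^ 2 * G * (1 + C₁) * (1 + C₁) ^ n :=
          mul_le_mul_of_nonneg_right hX (by positivity)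
      _ = _ := by ring
  have hbig : ∀ {X : ℝ}, 0 ≤ X → X ≤ 4 * Y ^ 8 * E ^ 2 * G → X ≤ Z := by
    intro X hX0 hX
    have h1 := hfin hX0 (hX.trans (le_mul_of_one_le_right (by positivity) (by linarith)))
    exact (le_mul_of_one_le_right hX0 (one_le_pow₀ (by linarith))).trans h1
  have hEE : E ≤ E ^ 2 := by nlinarith
  refine ⟨fun y l => ?_, lamc_deg h.dk h.df h.dd, fun ω hω l hl j hj => ?_,
    fun ω hω l hl => ?_, fun ω hω l hl V h0 => ?_, fun ω hω l hl V h0 => ?_⟩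
  · show CvC c l (if l < n then σ y l else cor c n Sc (σ y) (γ y) (δ' y))
    split_ifs with hl
    · exact h.cσ y l
    · exact cvc_mono (cvc_cor _ (h.cγ y) (h.cσ y)) (not_lt.1 hl)
  · exact h.lip ω hω l hl j hj
  · -- the velocities
    rcases Nat.lt_succ_iff_lt_or_eq.1 hl with h1 | h1
    · simp only [if_pos h1]
      refine (h.vl ω hω l h1).trans (mul_le_mul_of_nonneg_right ?_ (by positivity))
      refine hbig hY0.le ?_
      calc Y = 1 * Y * 1 * 1 := by ring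
        _ ≤ 4 * Y ^ 8 * E ^ 2 * G := mul_le_mul (mul_le_mul (mul_le_mul (by norm_num)
          (by nlinarith [one_le_pow₀ (n := 7) hY1, pow_succ Y 7]) (by positivity) (by norm_num))
          (one_le_pow₀ hE1) (by norm_num) (by positivity)) hG1 (by norm_num) (by positivity)
    · subst h1
      simp only [lt_irrefl, if_false]
      have h2 := cor_vel hc hN (h.vi ω hω) (X := Y * 2 ^ A) (by positivity) (h.vn ω hω)
        (h.vs ω hω)
      rw [← hE] at h2
      refine h2.trans ?_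
      have h3 := h.vA
      have e1 : Y * 2 ^ A / 2 ^ p = Y * (2 ^ A / 2 ^ p) := by ring
      rw [e1]
      calc 4 * Y ^ 3 * E * (Y * (2 ^ A / 2 ^ p)) ≤ 4 * Y ^ 3 * E * (Y * (Y * (2 ^ K / 2 ^ gN))) :=
            mul_le_mul_of_nonneg_left (mul_le_mul_of_nonneg_left h3 hY0.le) (by positivity)
        _ = 4 * Y ^ 5 * E * (2 ^ K / 2 ^ gN) := by ring
        _ ≤ Z * (2 ^ K / 2 ^ gN) := by
          refine mul_le_mul_of_nonneg_right (hbig (by positivity) ?_) (by positivity)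
          calc 4 * Y ^ 5 * E = 4 * (Y ^ 5 * 1) * E * 1 := by ring
            _ ≤ 4 * (Y ^ 5 * Y ^ 3) * E ^ 2 * G := by
              refine mul_le_mul (mul_le_mul (mul_le_mul_of_nonneg_left
                (mul_le_mul_of_nonneg_left (one_le_pow₀ hY1) (by positivity)) (by norm_num)) hEE
                (by positivity) (by positivity)) hG1 (by norm_num) (by positivity)
            _ = _ := by ring
  · -- the gradients
    rcases Nat.lt_succ_iff_lt_or_eq.1 hl with h1 | h1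
    · rw [hen _ h0 h1.le]
      simp only [if_pos h1, lamc_chn h1]
      have h2 : ∑ j ∈ range l, (κp (slam F t ω) l j).eval (rt F t ω) * V (some (c j)) =
          cv (κ ω l) V := by
        rw [cv_eq (hc.mono (Set.Iio_subset_Iio h1.le)) ((h.cl ω hω).ch.cκ l), h0, mul_zero,
          zero_add]
        refine Finset.sum_congr rfl fun j hj => ?_
        rw [h.ek ω hω l h1 j (Finset.mem_range.1 hj)]
      rw [h2, ← cv_subl]
      refine (hcs ω hω l h1 V h0).trans ?_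
      have h3 := mul_le_mul_of_nonneg_left (hcs' ω hω h0 h1.le)
        (show 0 ≤ C₁ / 2 ^ g' l by positivity)
      refine h3.trans ?_
      have e1 : C₁ / 2 ^ g' l * ((1 + C₁) ^ n * sz c g' (σ (ptr F J ω)) l V) =
          C₁ * (1 + C₁) ^ n / 2 ^ g' l * sz c g' (σ (ptr F J ω)) l V := by ring
      rw [e1]
      refine mul_le_mul_of_nonneg_right (div_le_div_of_nonneg_right (hfin (by linarith) ?_)
        (by positivity)) (sz_nonneg _ _ _ _ _)
      calc C₁ ≤ 1 * 1 * 1 * 1 * (1 + C₁) := by linarith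
        _ ≤ 4 * Y ^ 8 * E ^ 2 * G * (1 + C₁) := mul_le_mul_of_nonneg_right
          (mul_le_mul (mul_le_mul (mul_le_mul (by norm_num) (one_le_pow₀ hY1) (by norm_num)
            (by norm_num)) (one_le_pow₀ hE1) (by norm_num) (by positivity)) hG1 (by norm_num)
            (by positivity)) (by linarith)
    · subst h1
      rw [hen _ h0 le_rfl]
      simp only [lt_irrefl, if_false]
      rw [lamc_tgt hc (h.cl ω hω).ch.cκ (h.cl ω hω).cφ (h.ek ω hω) (h.ef ω hω) h0, ← cv_subl]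
      have h2 := RwC.two hc hN (h.cl ω hω) (h.vi ω hω) (h.ag ω hω) (h.ch ω hω) h0
      rw [← hE, ← hG] at h2
      refine h2.trans ?_
      have h3 := mul_le_mul_of_nonneg_left (hcs' ω hω h0 le_rfl)
        (show 0 ≤ 4 * Y ^ 7 * E ^ 2 * G / 2 ^ gN by positivity)
      refine h3.trans ?_
      have e1 : 4 * Y ^ 7 * E ^ 2 * G / 2 ^ gN * ((1 + C₁) ^ l *
          sz c g' (σ (ptr F J ω)) l V) =
          4 * Y ^ 7 * E ^ 2 * G * (1 + C₁) ^ l / 2 ^ gN * sz c g' (σ (ptr F J ω)) l V := by ring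
      rw [e1]
      refine mul_le_mul_of_nonneg_right (div_le_div_of_nonneg_right (hfin (by positivity) ?_)
        (by positivity)) (sz_nonneg _ _ _ _ _)
      calc 4 * Y ^ 7 * E ^ 2 * G = 4 * (Y ^ 7 * 1) * E ^ 2 * G * 1 := by ring
        _ ≤ 4 * (Y ^ 7 * Y) * E ^ 2 * G * (1 + C₁) := by
          refine mul_le_mul (mul_le_mul_of_nonneg_right (mul_le_mul_of_nonneg_right
            (mul_le_mul_of_nonneg_left (mul_le_mul_of_nonneg_left hY1 (by positivity))
              (by norm_num)) (by positivity)) (by positivity)) (by linarith) (by norm_num)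
              (by positivity)
        _ = _ := by ring
  · -- the derivatives
    have hgen : ∀ {l : ℕ}, l ≤ n → ∀ (W : Option (Fin m) → ℝ) {gl gl' : ℕ}, CvC c l W →
        (2 : ℝ) ^ gl' ≤ Y * 2 ^ gl → (∀ V : Option (Fin m) → ℝ, V none = 0 →
          |cv W V| ≤ Y * 2 ^ (K - t) / 2 ^ gl * sz c gK (Γ (ptr F J ω)) l V) →
        (∀ x < l, ¬ Sc x → |cv W (ev c l (mx Sc (κ ω) (Γ (ptr F J ω))) x)| ≤
          Y * 2 ^ (K - t) / 2 ^ gl * 2 ^ g' x) →
        |cv W V| ≤ Z * 2 ^ (K - t) / 2 ^ gl' * sz c g' (σ (ptr F J ω)) l V := by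
      intro l hl W gl gl' hW hgl hW1 hW2
      have hcl : Set.InjOn c (Set.Iio l) := hc.mono (Set.Iio_subset_Iio hl)
      have hfn := two_nrm hcl (h.cl ω hω).ch.cκ (h.cl ω hω).ch.cΓ (gK := gK) (g' := g')
        (U := Y) (M := Y * 2 ^ (K - t) / 2 ^ gl) (X := Y) hY0.le (by positivity) hY1
        (fun x hx => hN.sg x (hx.trans_le hl)) (fun x hx => (h.cl ω hω).ch.h1 x (hx.trans_le hl))
        (fun x hx => (h.cl ω hω).ch.h2 x (hx.trans_le hl)) hW hW1 hW2 h0
      refine hfn.trans ?_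
      have h2 := hcs' ω hω h0 hl
      have h3 : (l : ℝ) * (1 + Y) ^ (l + 1) * Y ≤ Y * G * Y := by
        refine mul_le_mul_of_nonneg_right (mul_le_mul ?_ ?_ (by positivity) hY0.le) hY0.le
        · exact (by exact_mod_cast hl : (l : ℝ) ≤ n).trans hN.yn
        · rw [hG]
          exact pow_le_pow_right₀ (by linarith) (by omega)
      have h4 : (1 : ℝ) / 2 ^ gl ≤ Y / 2 ^ gl' := by
        rw [div_le_div_iff₀ (by positivity) (by positivity), one_mul]
        exact hgl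
      have hs0 := sz_nonneg c g' (σ (ptr F J ω)) l V
      calc Y * 2 ^ (K - t) / 2 ^ gl * (l * (1 + Y) ^ (l + 1) * Y) * sz c g' (κ ω) l V ≤
            Y * 2 ^ (K - t) / 2 ^ gl * (Y * G * Y) * ((1 + C₁) ^ n *
              sz c g' (σ (ptr F J ω)) l V) :=
            mul_le_mul (mul_le_mul_of_nonneg_left h3 (by positivity)) h2 (sz_nonneg _ _ _ _ _)
              (by positivity)
        _ = Y ^ 3 * G * (1 + C₁) ^ n * 2 ^ (K - t) * sz c g' (σ (ptr F J ω)) l V *
            (1 / 2 ^ gl) := by ring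
        _ ≤ Y ^ 3 * G * (1 + C₁) ^ n * 2 ^ (K - t) * sz c g' (σ (ptr F J ω)) l V *
            (Y / 2 ^ gl') := mul_le_mul_of_nonneg_left h4 (by positivity)
        _ = Y ^ 4 * G * (1 + C₁) ^ n * (2 ^ (K - t) / 2 ^ gl' *
            sz c g' (σ (ptr F J ω)) l V) := by ring
        _ ≤ Z * (2 ^ (K - t) / 2 ^ gl' * sz c g' (σ (ptr F J ω)) l V) := by
          refine mul_le_mul_of_nonneg_right (hfin (by positivity) ?_) (by positivity)
          calc Y ^ 4 * G = 1 * (Y ^ 4 * 1) * 1 * G * 1 := by ring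
            _ ≤ 4 * (Y ^ 4 * Y ^ 4) * E ^ 2 * G * (1 + C₁) := by
              refine mul_le_mul (mul_le_mul_of_nonneg_right (mul_le_mul (mul_le_mul
                (by norm_num) (mul_le_mul_of_nonneg_left (one_le_pow₀ hY1) (by positivity))
                (by positivity) (by norm_num)) (one_le_pow₀ hE1) (by norm_num) (by positivity))
                (by positivity)) (by linarith) (by norm_num) (by positivity)
            _ = _ := by ring
        _ = _ := by ring
    rcases Nat.lt_succ_iff_lt_or_eq.1 hl with h1 | h1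
    · rw [hen _ h0 h1.le]
      simp only [if_pos h1, lamc_chn h1]
      by_cases hs : Sc l
      · have h2 := hgen h1.le (ros c l fun j => (Polynomial.derivative
          (κp (slam F t ω) l j)).eval (rt F t ω)) (gl := gK l) (gl' := g' l) (cvc_ros _ _ _)
          (hN.rK l h1) (fun V hV => by
            rw [cv_ros]
            exact h.d1 ω hω l h1 hs V hV) (fun x hx hsx => by
            rw [cv_ros]
            exact h.d2 ω hω l h1 hs x hx hsx)
        rw [cv_ros] at h2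
        exact h2
      · refine (h.d3 ω hω l h1 hs V h0).trans ?_
        have h2 := mul_le_mul_of_nonneg_left (hcs' ω hω h0 h1.le)
          (show 0 ≤ Y * 2 ^ (K - t) / 2 ^ g' l by positivity)
        refine h2.trans ?_
        have e1 : Y * 2 ^ (K - t) / 2 ^ g' l * ((1 + C₁) ^ n *
            sz c g' (σ (ptr F J ω)) l V) = Y * (1 + C₁) ^ n * (2 ^ (K - t) / 2 ^ g' l *
            sz c g' (σ (ptr F J ω)) l V) := by ring
        have e2 : Z * 2 ^ (K - t) / 2 ^ g' l * sz c g' (σ (ptr F J ω)) l V =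
            Z * (2 ^ (K - t) / 2 ^ g' l * sz c g' (σ (ptr F J ω)) l V) := by ring
        rw [e1, e2]
        have hs0 := sz_nonneg c g' (σ (ptr F J ω)) l V
        refine mul_le_mul_of_nonneg_right (hfin hY0.le ?_) (by positivity)
        refine hYC.trans ?_
        calc C₁ ≤ 1 * 1 * 1 * 1 * (1 + C₁) := by linarith
          _ ≤ 4 * Y ^ 8 * E ^ 2 * G * (1 + C₁) := mul_le_mul_of_nonneg_right
            (mul_le_mul (mul_le_mul (mul_le_mul (by norm_num) (one_le_pow₀ hY1) (by norm_num)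
              (by norm_num)) (one_le_pow₀ hE1) (by norm_num) (by positivity)) hG1 (by norm_num)
              (by positivity)) (by linarith)
    · subst h1
      rw [hen _ h0 le_rfl]
      simp only [lt_irrefl, if_false]
      have h2 := hgen le_rfl (ros c l fun j => (Polynomial.derivative
        (lamc l Sc κp φp δp (slam F t ω) l j)).eval (rt F t ω)) (gl := gN) (gl' := gN)
        (cvc_ros _ _ _) (le_mul_of_one_le_left (by positivity) hY1) (fun V hV => by
          rw [cv_ros]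
          exact h.d4 ω hω V hV) (fun x hx hsx => by
          rw [cv_ros]
          exact h.d5 ω hω x hx hsx)
      rw [cv_ros] at h2
      exact h2

end Pool.TN
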