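import Pool.Agent.H66.D2.Alg
import Pool.Agent.H68.OWN.Ker
import Pool.Agent.H32.Dense.Pair

/-!
# D2: `d` copies through one point

`b i` = the known number of the copy `i` (few bits given the context `Z` and the directions `E`),
a linear function of the unknown coordinates `U` of the germ and of the point `P`. Then the germ is
an affine function of the point with coefficients which are few bits.
-/

set_option autoImplicit false

namespace Pool.D2A

open Finset Real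
open Pool.Agent.H49.Ent Pool.Agent.H32.Dense Pool.STK

variable {Ω ζ ε χ ι : Type} [Fintype Ω] {d k : ℕ}

/-- The constant of `Cramer`. -/
noncomputable def cK (d : ℕ) (B κ : ℝ) : ℝ := d * (d.factorial * B ^ d) / κ

theorem cK_nonneg {B κ : ℝ} (hB : 0 ≤ B) (hκ : 0 < κ) : 0 ≤ cK d B κ := by
  unfold cK
  positivity

theorem cramer_cK (A : Matrix (Fin d) (Fin d) ℝ) (δ : Fin d → ℝ) {B κ τ : ℝ}
    (hB1 : 1 ≤ B) (hB : ∀ i j, |A i j| ≤ B) (hκ : 0 < κ) (hdet : κ ≤ |A.det|)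
    (hr : ∀ a, |∑ b, A a b * δ b| ≤ τ) (i : Fin d) : |δ i| ≤ cK d B κ * τ := by
  have h := cramer_le A δ hB1 hB hκ hdet hr i
  unfold cK
  refine h.trans (le_of_eq ?_)
  ring

/-- **The copies determine the germ** given the directions and the point. -/
theorem cop_few {p : Ω → ℝ} (hp : IsLaw p) (Z : Ω → ζ) (E : Ω → ε) (b : Ω → Fin d → ℤ)
    (P : Ω → Fin k → ℤ) (U : Ω → Fin d → ℤ) {φ : ζ → ε → Matrix (Fin d) (Fin d) ℝ}
    {ψ : ζ → ε → Fin d → Fin k → ℝ} {B κ D : ℝ} (hB1 : 1 ≤ B) (hκ : 0 < κ)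
    (hφ : ∀ ω, 0 < p ω → ∀ i j, |φ (Z ω) (E ω) i j| ≤ B)
    (hdet : ∀ ω, 0 < p ω → κ ≤ |(φ (Z ω) (E ω)).det|)
    (hrel : ∀ ω, 0 < p ω → ∀ i, |(b ω i : ℝ) - ∑ j, φ (Z ω) (E ω) i j * U ω j -
      ∑ j, ψ (Z ω) (E ω) i j * P ω j| ≤ D) :
    CH p U (fun ω => (E ω, (Z ω, P ω))) ≤ CH p b (fun ω => (E ω, Z ω)) +
      d * Real.log (2 * (cK d B κ * (2 * D)) + 1) := by
  have h0 := hp.nonneg
  have h1 := CH_le_add h0 U b (fun ω => (E ω, (Z ω, P ω)))
  have h2 : CH p b (fun ω => (E ω, (Z ω, P ω))) ≤ CH p b (fun ω => (E ω, Z ω)) :=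
    CH_mono_cond h0 fun ω ω' _ _ h => by
      simp only [Prod.mk.injEq] at h ⊢
      tauto
  have h3 := CH_le_vec h0 hp.sum_one U (fun ω => (b ω, (E ω, (Z ω, P ω))))
    (fun _ => cK d B κ * (2 * D)) (by
      intro ω ω' hω hω' h i
      simp only [Prod.mk.injEq] at h
      obtain ⟨e1, e2, e3, e4⟩ := h
      have h4 : ∀ a, |∑ j, φ (Z ω) (E ω) a j * ((U ω j : ℝ) - U ω' j)| ≤ 2 * D := by
        intro a
        have h5 := hrel ω hω a
        have h6 := hrel ω' hω' a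
        rw [← e1, ← e2, ← e3, ← e4] at h6
        have e : ∑ j, φ (Z ω) (E ω) a j * ((U ω j : ℝ) - U ω' j) =
            ((b ω a : ℝ) - ∑ j, φ (Z ω) (E ω) a j * U ω' j - ∑ j, ψ (Z ω) (E ω) a j * P ω j) -
            ((b ω a : ℝ) - ∑ j, φ (Z ω) (E ω) a j * U ω j - ∑ j, ψ (Z ω) (E ω) a j * P ω j) := by
          have : ∑ j, φ (Z ω) (E ω) a j * ((U ω j : ℝ) - U ω' j) =
              ∑ j, φ (Z ω) (E ω) a j * U ω j - ∑ j, φ (Z ω) (E ω) a j * U ω' j := by
            rw [← Finset.sum_sub_distrib]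
            exact Finset.sum_congr rfl fun j _ => by ring
          rw [this]
          ring
        rw [e]
        refine (abs_sub _ _).trans ?_
        linarith
      have h5 := cramer_cK (φ (Z ω) (E ω)) (fun j => (U ω j : ℝ) - U ω' j) hB1 (hφ ω hω) hκ
        (hdet ω hω) h4 i
      push_cast
      exact h5)
  rw [Ex_const hp.sum_one] at h3
  linarith

/-- **The germ is a function of the point**, up to few bits: the directions are free. -/
theorem cop_free {p : Ω → ℝ} (hp : IsLaw p) (Z : Ω → ζ) (E : Ω → ε) (X : Ω → χ)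
    (b : Ω → Fin d → ℤ) (P : Ω → Fin k → ℤ) (U : Ω → Fin d → ℤ)
    {φ : ζ → ε → Matrix (Fin d) (Fin d) ℝ} {ψ : ζ → ε → Fin d → Fin k → ℝ} {B κ D η : ℝ}
    (hB1 : 1 ≤ B) (hκ : 0 < κ)
    (hφ : ∀ ω, 0 < p ω → ∀ i j, |φ (Z ω) (E ω) i j| ≤ B)
    (hdet : ∀ ω, 0 < p ω → κ ≤ |(φ (Z ω) (E ω)).det|)
    (hrel : ∀ ω, 0 < p ω → ∀ i, |(b ω i : ℝ) - ∑ j, φ (Z ω) (E ω) i j * U ω j -
      ∑ j, ψ (Z ω) (E ω) i j * P ω j| ≤ D)
    (hX : Det p (fun ω => (X ω, Z ω)) (fun ω => (U ω, P ω)))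
    (hfree : CH p E Z ≤ CH p E (fun ω => (X ω, Z ω)) + η) :
    CH p U (fun ω => (Z ω, P ω)) ≤ CH p b (fun ω => (E ω, Z ω)) + η +
      d * Real.log (2 * (cK d B κ * (2 * D)) + 1) := by
  have h0 := hp.nonneg
  have h1 := cop_few hp Z E b P U hB1 hκ hφ hdet hrel
  have h2 := CH_bayes h0 E U (fun ω => (Z ω, P ω))
  have h3 : CH p E (fun ω => (Z ω, P ω)) ≤ CH p E Z :=
    CH_mono_cond h0 fun ω ω' _ _ h => (Prod.ext_iff.mp h).1
  have h4 : CH p E (fun ω => (X ω, Z ω)) ≤ CH p E (fun ω => (U ω, (Z ω, P ω))) :=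
    CH_mono_cond h0 fun ω ω' a b' h => by
      have h5 := hX ω ω' a b' h
      simp only [Prod.mk.injEq] at h h5 ⊢
      tauto
  linarith

/-- The linear part of the germ. -/
noncomputable def germ1 (φ : Matrix (Fin d) (Fin d) ℝ) (ψ : Fin d → Fin k → ℝ) (i : Fin d)
    (j : Fin k) : ℝ := -∑ a, φ⁻¹ i a * ψ a j

/-- The constant part of the germ. -/
noncomputable def germ0 (φ : Matrix (Fin d) (Fin d) ℝ) (b : Fin d → ℤ) (i : Fin d) : ℝ :=
  ∑ a, φ⁻¹ i a * b a

/-- **The germ is affine in the point.** -/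
theorem germ_err (φ : Matrix (Fin d) (Fin d) ℝ) (ψ : Fin d → Fin k → ℝ) (b : Fin d → ℤ)
    (U : Fin d → ℤ) (P : Fin k → ℤ) {B κ D : ℝ} (hB1 : 1 ≤ B) (hκ : 0 < κ)
    (hφ : ∀ i j, |φ i j| ≤ B) (hdet : κ ≤ |φ.det|)
    (hrel : ∀ i, |(b i : ℝ) - ∑ j, φ i j * U j - ∑ j, ψ i j * P j| ≤ D) (i : Fin d) :
    |(U i : ℝ) - germ0 φ b i - ∑ j, germ1 φ ψ i j * P j| ≤ cK d B κ * D := by
  have hne : φ.det ≠ 0 := by
    intro h
    rw [h, abs_zero] at hdet
    linarith
  have hu : IsUnit φ.det := isUnit_iff_ne_zero.mpr hne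
  have hinv : ∀ (v : Fin d → ℝ) (a : Fin d), ∑ j, φ a j * (∑ c, φ⁻¹ j c * v c) = v a := by
    intro v a
    have h1 : φ * φ⁻¹ = 1 := Matrix.mul_nonsing_inv φ hu
    have h2 := congrFun (congrArg (fun M : Matrix (Fin d) (Fin d) ℝ => M.mulVec v) h1) a
    rw [Matrix.one_mulVec, ← Matrix.mulVec_mulVec] at h2
    exact h2
  have e1 : ∀ j, germ0 φ b j + ∑ c, germ1 φ ψ j c * P c =
      ∑ a, φ⁻¹ j a * ((b a : ℝ) - ∑ c, ψ a c * P c) := by
    intro j
    unfold germ0 germ1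
    have h1 : ∑ c, (-∑ a, φ⁻¹ j a * ψ a c) * (P c : ℝ) =
        -∑ a, φ⁻¹ j a * ∑ c, ψ a c * P c := by
      simp only [neg_mul, Finset.sum_neg_distrib, Finset.sum_mul, Finset.mul_sum]
      rw [Finset.sum_comm]
      congr 1
      exact Finset.sum_congr rfl fun a _ => Finset.sum_congr rfl fun c _ => by ring
    rw [h1, ← sub_eq_add_neg, ← Finset.sum_sub_distrib]
    exact Finset.sum_congr rfl fun a _ => by ring
  have h2 := cramer_cK φ (fun j => (U j : ℝ) - germ0 φ b j - ∑ c, germ1 φ ψ j c * P c) hB1 hφ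
    hκ hdet (τ := D) (by
      intro a
      have e2 : ∑ j, φ a j * ((U j : ℝ) - germ0 φ b j - ∑ c, germ1 φ ψ j c * P c) =
          ∑ j, φ a j * U j - ((b a : ℝ) - ∑ c, ψ a c * P c) := by
        rw [← hinv (fun a => (b a : ℝ) - ∑ c, ψ a c * P c) a, ← Finset.sum_sub_distrib]
        refine Finset.sum_congr rfl fun j _ => ?_
        rw [← e1]
        ring
      have e3 : ∑ j, φ a j * (U j : ℝ) - ((b a : ℝ) - ∑ c, ψ a c * P c) =
          -((b a : ℝ) - ∑ j, φ a j * U j - ∑ c, ψ a c * P c) := by ring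
      rw [e2, e3, abs_neg]
      exact hrel a) i
  exact h2

/-- The constant part of the germ is few bits. -/
theorem germ_few {p : Ω → ℝ} (h0 : ∀ ω, 0 ≤ p ω) (Z : Ω → ζ) (E : Ω → ε) (b : Ω → Fin d → ℤ)
    (F : (Fin d → ℤ) → ζ → ε → ι) :
    CH p (fun ω => F (b ω) (Z ω) (E ω)) (fun ω => (E ω, Z ω)) ≤
      CH p b (fun ω => (E ω, Z ω)) :=
  CH_mono_left h0 fun ω ω' _ _ h => by
    simp only [Prod.mk.injEq] at h
    rw [h.1, h.2.1, h.2.2]

/-- Subadditivity for a finite family. -/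
theorem CH_fam {κ' S T : Type} [Fintype κ'] {p : Ω → ℝ} (hp0 : ∀ ω, 0 ≤ p ω) (X : Ω → κ' → S)
    (W : Ω → T) : CH p X W ≤ ∑ i, CH p (fun ω => X ω i) W := by
  classical
  have key : ∀ s : Finset κ', CH p (fun ω i => if i ∈ s then some (X ω i) else none) W ≤
      ∑ i ∈ s, CH p (fun ω => X ω i) W := by
    intro s
    induction s using Finset.induction_on with
    | empty =>
      rw [Finset.sum_empty]
      refine le_of_eq (CH_eq_zero hp0 ?_)
      intro ω ω' _ _ _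
      funext i
      simp
    | insert j s hj ih =>
      rw [Finset.sum_insert hj]
      have h1 : CH p (fun ω i => if i ∈ insert j s then some (X ω i) else none) W ≤
          CH p (fun ω => (X ω j, fun i => if i ∈ s then some (X ω i) else none)) W := by
        refine CH_mono_left hp0 ?_
        intro ω ω' _ _ h
        simp only [Prod.mk.injEq] at h
        funext i
        by_cases hi : i = j
        · subst hi
          simp only [Finset.mem_insert_self, if_true]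
          rw [h.1.1]
        · have h2 := congrFun h.1.2 i
          simp only [Finset.mem_insert, hi, false_or]
          exact h2
      have h3 := CH_subadd hp0 (fun ω => X ω j) (fun ω i => if i ∈ s then some (X ω i) else none) W
      linarith
  have h1 := key univ
  refine le_trans (CH_mono_left hp0 ?_) h1
  intro ω ω' _ _ h
  simp only [Finset.mem_univ, if_true, Prod.mk.injEq] at h
  funext i
  have h2 := congrFun h.1 i
  simpa using h2

/-- The numbers of the copies, one by one. -/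
theorem cop_split {ε' : Type} {p : Ω → ℝ} (h0 : ∀ ω, 0 ≤ p ω) (Z : Ω → ζ) (E : Ω → Fin d → ε')
    (b : Ω → Fin d → ℤ) :
    CH p b (fun ω => (E ω, Z ω)) ≤ ∑ i, CH p (fun ω => b ω i) (fun ω => (E ω i, Z ω)) := by
  refine (CH_fam h0 b _).trans (Finset.sum_le_sum fun i _ => ?_)
  exact CH_mono_cond h0 fun ω ω' _ _ h => by
    simp only [Prod.mk.injEq] at h ⊢
    exact ⟨congrFun h.1 i, h.2⟩

end Pool.D2A
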