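import Pool.Agent.H66.D2.Tn

/-!
# The row covector with the static corrections

`cor`: the covector `φ + ∑ δ l (e l - κ l)`, the sum over the static coordinates. `RwC`: a row covector
`φ` over the chain `κ`, against the ball `Γ`, `ΓN`, and the corrections `δ`. `RwC.nat`: the corrected
row covector is natural at the ball. `RwC.two`: two of them (closed and visible) are near in the mixed
norm. `chn_two`: the same for the static coordinates of the chain. `cor_vel`: the velocity.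
-/

set_option autoImplicit false

namespace Pool.TN

open Finset Real MvPolynomial
open Pool.D2F (cv CvC eta cv_nc cv_add cv_sub cv_smul)
open Pool.D2Z (en en_eq cv_subl cv_addl cv_smull cv_neg')

variable {m : ℕ}

open Classical in
/-- The weight of a static coordinate. -/
noncomputable def wt (Sc : ℕ → Prop) (δ : ℕ → ℝ) (l : ℕ) : ℝ := if Sc l then δ l else 0

theorem wt_pos {Sc : ℕ → Prop} {δ : ℕ → ℝ} {l : ℕ} (h : Sc l) : wt Sc δ l = δ l := if_pos h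

theorem wt_neg {Sc : ℕ → Prop} {δ : ℕ → ℝ} {l : ℕ} (h : ¬ Sc l) : wt Sc δ l = 0 := if_neg h

/-- **The row covector with the static corrections.** -/
noncomputable def cor (c : ℕ → Fin m) (n : ℕ) (Sc : ℕ → Prop) (κ : ℕ → Option (Fin m) → ℝ)
    (φ : Option (Fin m) → ℝ) (δ : ℕ → ℝ) : Option (Fin m) → ℝ := fun o =>
  φ o + ∑ l ∈ range n, wt Sc δ l * ((if o = some (c l) then 1 else 0) - κ l o)

theorem cv_cor (c : ℕ → Fin m) (n : ℕ) (Sc : ℕ → Prop) (κ : ℕ → Option (Fin m) → ℝ)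
    (φ : Option (Fin m) → ℝ) (δ : ℕ → ℝ) (V : Option (Fin m) → ℝ) :
    cv (cor c n Sc κ φ δ) V = cv φ V +
      ∑ l ∈ range n, wt Sc δ l * (V (some (c l)) - cv (κ l) V) := by
  classical
  have h1 : cv (cor c n Sc κ φ δ) V = cv φ V + ∑ o, (∑ l ∈ range n, wt Sc δ l *
      ((if o = some (c l) then 1 else 0) - κ l o)) * V o := by
    unfold cv cor
    rw [← Finset.sum_add_distrib]
    exact Finset.sum_congr rfl fun o _ => by ring
  rw [h1]
  congr 1
  have h2 : ∀ o, (∑ l ∈ range n, wt Sc δ l * ((if o = some (c l) then (1 : ℝ) else 0) -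
      κ l o)) * V o = ∑ l ∈ range n, wt Sc δ l * (((if o = some (c l) then (1 : ℝ) else 0) -
      κ l o) * V o) := by
    intro o
    rw [Finset.sum_mul]
    exact Finset.sum_congr rfl fun l _ => by ring
  rw [Finset.sum_congr rfl fun o _ => h2 o, Finset.sum_comm]
  refine Finset.sum_congr rfl fun l _ => ?_
  rw [← Finset.mul_sum]
  congr 1
  unfold cv
  have h3 : ∀ o, ((if o = some (c l) then (1 : ℝ) else 0) - κ l o) * V o =
      (if o = some (c l) then V o else 0) - κ l o * V o := by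
    intro o
    split_ifs <;> ring
  rw [Finset.sum_congr rfl fun o _ => h3 o, Finset.sum_sub_distrib, Finset.sum_ite_eq']
  rw [if_pos (Finset.mem_univ _)]

theorem cvc_cor {c : ℕ → Fin m} {n : ℕ} {Sc : ℕ → Prop} {κ : ℕ → Option (Fin m) → ℝ}
    {φ : Option (Fin m) → ℝ} (δ : ℕ → ℝ) (hφ : CvC c n φ) (hκ : ∀ l, CvC c l (κ l)) :
    CvC c n (cor c n Sc κ φ δ) := by
  intro k hk
  unfold cor
  rw [hφ k hk, zero_add]
  refine Finset.sum_eq_zero fun l hl => ?_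
  rw [Finset.mem_range] at hl
  rw [if_neg (fun h => hk l hl (Option.some_injective _ h)),
    hκ l k fun j hj => hk j (hj.trans hl), sub_zero, mul_zero]

/-- **The numbers.** -/
structure Nmb (n : ℕ) (Sc : ℕ → Prop) (gK g' gT : ℕ → ℕ) (gN p : ℕ) (Y : ℝ) : Prop where
  y2 : 2 ≤ Y
  yn : (n : ℝ) ≤ Y
  sT : ∀ l < n, Sc l → (2 : ℝ) ^ gK l / 2 ^ gN ≤ Y * (2 ^ gT l / 2 ^ p)
  sg : ∀ l < n, Sc l → (2 : ℝ) ^ gK l ≤ Y * 2 ^ g' l
  rT : ∀ l < n, ¬ Sc l → (2 : ℝ) ^ gT l / 2 ^ p ≤ Y * (2 ^ g' l / 2 ^ gN)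
  rK : ∀ l < n, (2 : ℝ) ^ g' l ≤ Y * 2 ^ gK l
  tg : ∀ j < n, ¬ Sc j → ∀ x < n, (2 : ℝ) ^ g' x * 2 ^ gT j ≤ Y * (2 ^ gT x * 2 ^ g' j)

/-- The chain `κ` against the ball `Γ`. -/
structure ChC (c : ℕ → Fin m) (n : ℕ) (Sc : ℕ → Prop) (gK g' : ℕ → ℕ) (Y : ℝ)
    (κ Γ : ℕ → Option (Fin m) → ℝ) : Prop where
  cκ : ∀ l, CvC c l (κ l)
  cΓ : ∀ l, CvC c l (Γ l)
  h1 : ∀ l < n, Sc l → ∀ V : Option (Fin m) → ℝ, V none = 0 →
    |cv (κ l - Γ l) V| ≤ Y / 2 ^ gK l * sz c gK Γ l V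
  h2 : ∀ l < n, ¬ Sc l → ∀ V : Option (Fin m) → ℝ, V none = 0 →
    |cv (Γ l - κ l) V| ≤ Y / 2 ^ g' l * sz c g' κ l V

/-- **A row covector over the chain, against the ball.** -/
structure RwC (c : ℕ → Fin m) (n : ℕ) (Sc : ℕ → Prop) (gK g' gT : ℕ → ℕ) (gN p : ℕ) (Y : ℝ)
    (κ Γ : ℕ → Option (Fin m) → ℝ) (φ ΓN : Option (Fin m) → ℝ) (δ : ℕ → ℝ) : Prop where
  ch : ChC c n Sc gK g' Y κ Γ
  cφ : CvC c n φ
  cN : CvC c n ΓN
  row : ∀ V : Option (Fin m) → ℝ, V none = 0 →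
    |cv (φ - ΓN) V| ≤ Y / 2 ^ p * sz c gT κ n V + Y / 2 ^ gN * sz c gK Γ n V
  del : ∀ l < n, Sc l → |δ l - cv (ΓN - φ) (ev c n (mx Sc κ Γ) l)| ≤ Y * (2 ^ gK l / 2 ^ gN)

section

variable {c : ℕ → Fin m} {n : ℕ} {Sc : ℕ → Prop} {gK g' gT : ℕ → ℕ} {gN p : ℕ} {Y : ℝ}
  {κ σ Γ : ℕ → Option (Fin m) → ℝ} {φ γ ΓN : Option (Fin m) → ℝ} {δ δ' : ℕ → ℝ}

/-- The vectors of the mixed frame in the thin norm. -/
theorem sz_evT (hc : Set.InjOn c (Set.Iio n)) (hN : Nmb n Sc gK g' gT gN p Y)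
    (hC : ChC c n Sc gK g' Y κ Γ) {x l : ℕ} (hl : l ≤ n) :
    sz c gT κ l (ev c n (mx Sc κ Γ) x) ≤ (1 + Y ^ 2) ^ n * 2 ^ gT x := by
  have hY2 := hN.y2
  have h1 : ∀ j < n, |cv (mx Sc κ Γ j - κ j) (ev c n (mx Sc κ Γ) x)| ≤
      Y ^ 2 / 2 ^ gT j * sz c gT κ j (ev c n (mx Sc κ Γ) x) := by
    intro j hj
    by_cases h : Sc j
    · rw [mx_pos h, cv_subl, sub_self, abs_zero]
      exact mul_nonneg (by positivity) (sz_nonneg _ _ _ _ _)
    · rw [mx_neg h]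
      refine (hC.h2 j hj h _ (ev_none _ _ _ _)).trans ?_
      have h2 : sz c g' κ j (ev c n (mx Sc κ Γ) x) ≤
          Y * 2 ^ g' j / 2 ^ gT j * sz c gT κ j (ev c n (mx Sc κ Γ) x) := by
        refine sz_side (fun y hy => ?_) _
        have h3 := hN.tg j hj h y (hy.trans hj)
        have e1 : Y * 2 ^ g' j / 2 ^ gT j * 2 ^ gT y = Y * (2 ^ gT y * 2 ^ g' j) / 2 ^ gT j := by
          ring
        rw [e1, le_div_iff₀ (by positivity)]
        exact h3
      refine (mul_le_mul_of_nonneg_left h2 (by positivity)).trans (le_of_eq ?_)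
      field_simp
  refine (sz_ge (by positivity) h1 hl).trans (mul_le_mul (pow_le_pow_right₀ (by nlinarith) hl)
    (sz_ev hc (mx_cvc hC.cκ hC.cΓ) gT hl) (sz_nonneg _ _ _ _ _) (by positivity))

theorem sz_evK' (hc : Set.InjOn c (Set.Iio n)) (hN : Nmb n Sc gK g' gT gN p Y)
    (hC : ChC c n Sc gK g' Y κ Γ) {x l : ℕ} (hl : l ≤ n) :
    sz c gK Γ l (ev c n (mx Sc κ Γ) x) ≤ (1 + Y ^ 2) ^ n * 2 ^ gK x := by
  have hY2 := hN.y2
  refine (sz_evK hc hC.cκ hC.cΓ (by linarith) hC.h1 hl).trans (mul_le_mul_of_nonneg_right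
    (pow_le_pow_left₀ (by linarith) (by nlinarith) n) (by positivity))

/-- The row covector on the vectors of the frame. -/
theorem RwC.evb (hc : Set.InjOn c (Set.Iio n)) (hN : Nmb n Sc gK g' gT gN p Y)
    (h : RwC c n Sc gK g' gT gN p Y κ Γ φ ΓN δ) {l : ℕ} :
    |cv (φ - ΓN) (ev c n (mx Sc κ Γ) l)| ≤
      Y * (1 + Y ^ 2) ^ n * (2 ^ gT l / 2 ^ p + 2 ^ gK l / 2 ^ gN) := by
  have hY2 := hN.y2
  refine (h.row _ (ev_none _ _ _ _)).trans ((add_le_add
    (mul_le_mul_of_nonneg_left (sz_evT hc hN h.ch le_rfl) (by positivity))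
    (mul_le_mul_of_nonneg_left (sz_evK' hc hN h.ch le_rfl) (by positivity))).trans (le_of_eq ?_))
  ring

/-- **The size of the corrections.** -/
theorem RwC.delb (hc : Set.InjOn c (Set.Iio n)) (hN : Nmb n Sc gK g' gT gN p Y)
    (h : RwC c n Sc gK g' gT gN p Y κ Γ φ ΓN δ) {l : ℕ} (hl : l < n) (hs : Sc l) :
    |δ l| ≤ 3 * Y ^ 2 * (1 + Y ^ 2) ^ n * (2 ^ gT l / 2 ^ p) := by
  have hY2 := hN.y2
  obtain ⟨E, hE⟩ : ∃ E, E = (1 + Y ^ 2) ^ n := ⟨_, rfl⟩
  have hE1 : 1 ≤ E := by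
    rw [hE]
    exact one_le_pow₀ (by nlinarith)
  have h1 := h.del l hl hs
  have h2 := h.evb hc hN (l := l)
  have h3 := hN.sT l hl hs
  obtain ⟨t, ht⟩ : ∃ t : ℝ, t = 2 ^ gT l / 2 ^ p := ⟨_, rfl⟩
  obtain ⟨q, hq⟩ : ∃ q : ℝ, q = 2 ^ gK l / 2 ^ gN := ⟨_, rfl⟩
  have ht0 : 0 < t := by rw [ht]; positivity
  have hq0 : 0 < q := by rw [hq]; positivity
  rw [← ht, ← hq] at h2 h3
  rw [← hq] at h1
  rw [← hE] at h2 ⊢
  rw [← ht]
  have e1 : cv (ΓN - φ) (ev c n (mx Sc κ Γ) l) = -cv (φ - ΓN) (ev c n (mx Sc κ Γ) l) := by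
    rw [cv_subl, cv_subl]
    ring
  rw [e1] at h1
  have h4 : |δ l| ≤ Y * q + Y * E * (t + q) := by
    have e2 : δ l = (δ l - -cv (φ - ΓN) (ev c n (mx Sc κ Γ) l)) -
        cv (φ - ΓN) (ev c n (mx Sc κ Γ) l) := by ring
    rw [e2]
    exact (abs_sub _ _).trans (add_le_add h1 h2)
  refine h4.trans ?_
  have h5 : Y * q ≤ Y * E * (Y * t) := by
    calc Y * q ≤ Y * (Y * t) := mul_le_mul_of_nonneg_left h3 (by linarith)
      _ = Y * 1 * (Y * t) := by ring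
      _ ≤ Y * E * (Y * t) := mul_le_mul_of_nonneg_right
        (mul_le_mul_of_nonneg_left hE1 (by linarith)) (by positivity)
  have h6 : Y * E * (t + q) ≤ Y * E * (Y * t + Y * t) := by
    refine mul_le_mul_of_nonneg_left (add_le_add ?_ h3) (by positivity)
    nlinarith
  calc Y * q + Y * E * (t + q) ≤ Y * E * (Y * t) + Y * E * (Y * t + Y * t) := add_le_add h5 h6
    _ = _ := by ring

/-- **The corrected row covector is natural at the ball.** -/
theorem RwC.nat (hc : Set.InjOn c (Set.Iio n)) (hN : Nmb n Sc gK g' gT gN p Y)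
    (h : RwC c n Sc gK g' gT gN p Y κ Γ φ ΓN δ) {V : Option (Fin m) → ℝ} (h0 : V none = 0) :
    |cv (cor c n Sc κ φ δ - ΓN) V| ≤
      2 * Y ^ 4 * (1 + Y ^ 2) ^ n / 2 ^ gN * sz c gK Γ n V := by
  have hY2 := hN.y2
  have hY0 : 0 < Y := by linarith
  obtain ⟨E, hE⟩ : ∃ E, E = (1 + Y ^ 2) ^ n := ⟨_, rfl⟩
  have hE1 : 1 ≤ E := by
    rw [hE]
    exact one_le_pow₀ (by nlinarith)
  have hΞ := mx_cvc (Sc := Sc) h.ch.cκ h.ch.cΓ
  have hs := sz_nonneg c gK Γ n V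
  have hWc : CvC c n (cor c n Sc κ φ δ - ΓN) := by
    intro k hk
    rw [Pi.sub_apply, cvc_cor δ h.cφ h.ch.cκ k hk, h.cN k hk, sub_zero]
  rw [cv_ev hc hΞ hWc h0]
  have hg : (0 : ℝ) < 2 ^ gN := by positivity
  have hterm : ∀ l ∈ range n, |cv (cor c n Sc κ φ δ - ΓN) (ev c n (mx Sc κ Γ) l) *
      (V (some (c l)) - cv (mx Sc κ Γ l) V)| ≤ 2 * Y ^ 3 * E / 2 ^ gN * sz c gK Γ n V := by
    intro l hl
    rw [Finset.mem_range] at hl
    have hgl : (0 : ℝ) < 2 ^ gK l := by positivity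
    -- the corrections on the vector of the frame
    have hcor : ∑ x ∈ range n, wt Sc δ x * (ev c n (mx Sc κ Γ) l (some (c x)) -
        cv (κ x) (ev c n (mx Sc κ Γ) l)) = wt Sc δ l := by
      have h1 : ∀ x ∈ range n, wt Sc δ x * (ev c n (mx Sc κ Γ) l (some (c x)) -
          cv (κ x) (ev c n (mx Sc κ Γ) l)) = if x = l then wt Sc δ x else 0 := by
        intro x hx
        rw [Finset.mem_range] at hx
        by_cases hsx : Sc x
        · have h2 := ev_comp hc hΞ l hx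
          rw [mx_pos hsx] at h2
          rw [h2]
          split_ifs
          · rw [mul_one]
          · rw [mul_zero]
        · rw [wt_neg hsx, zero_mul]
          split_ifs <;> rfl
      rw [Finset.sum_congr rfl h1, Finset.sum_ite_eq', if_pos (Finset.mem_range.2 hl)]
    have hval : cv (cor c n Sc κ φ δ - ΓN) (ev c n (mx Sc κ Γ) l) =
        wt Sc δ l + cv (φ - ΓN) (ev c n (mx Sc κ Γ) l) := by
      rw [cv_subl, cv_cor, hcor, cv_subl]
      ring
    have hevb := h.evb hc hN (l := l)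
    rw [← hE] at hevb
    rw [abs_mul, hval]
    have h5 := sz_comp (c := c) (g := gK) (χ := Γ) hl V
    by_cases hsl : Sc l
    · rw [wt_pos hsl, mx_pos hsl]
      have h1 := h.del l hl hsl
      have h2 : |δ l + cv (φ - ΓN) (ev c n (mx Sc κ Γ) l)| ≤ Y * (2 ^ gK l / 2 ^ gN) := by
        refine (le_of_eq ?_).trans h1
        congr 1
        rw [cv_subl, cv_subl]
        ring
      have h3 := h.ch.h1 l hl hsl V h0
      have h4 : |V (some (c l)) - cv (κ l) V| ≤ (1 + Y) / 2 ^ gK l * sz c gK Γ n V := by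
        have e1 : V (some (c l)) - cv (κ l) V = (V (some (c l)) - cv (Γ l) V) -
            cv (κ l - Γ l) V := by
          rw [cv_subl]
          ring
        rw [e1]
        have h6 : Y / 2 ^ gK l * sz c gK Γ l V ≤ Y / 2 ^ gK l * sz c gK Γ n V :=
          mul_le_mul_of_nonneg_left (sz_mono _ _ _ hl.le _) (by positivity)
        refine (abs_sub _ _).trans ((add_le_add h5 (h3.trans h6)).trans (le_of_eq ?_))
        ring
      refine (mul_le_mul h2 h4 (abs_nonneg _) (by positivity)).trans ?_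
      have e1 : Y * (2 ^ gK l / 2 ^ gN) * ((1 + Y) / 2 ^ gK l * sz c gK Γ n V) =
          Y * (1 + Y) / 2 ^ gN * sz c gK Γ n V := by
        field_simp
      rw [e1]
      refine mul_le_mul_of_nonneg_right (div_le_div_of_nonneg_right ?_ hg.le) hs
      have h7 : Y * (1 + Y) ≤ 2 * Y ^ 2 := by nlinarith
      have h8 : 2 * Y ^ 2 ≤ 2 * Y ^ 3 := by nlinarith [sq_nonneg Y]
      have h9 : 2 * Y ^ 3 ≤ 2 * Y ^ 3 * E := le_mul_of_one_le_right (by positivity) hE1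
      linarith
    · rw [wt_neg hsl, zero_add, mx_neg hsl]
      refine (mul_le_mul hevb h5 (abs_nonneg _) (by positivity)).trans ?_
      have h1 := hN.rT l hl hsl
      have h2 := hN.rK l hl
      have h3 : (2 : ℝ) ^ gT l / 2 ^ p + 2 ^ gK l / 2 ^ gN ≤ 2 * Y ^ 2 * (2 ^ gK l / 2 ^ gN) := by
        have h4 : Y * ((2 : ℝ) ^ g' l / 2 ^ gN) ≤ Y * (Y * 2 ^ gK l / 2 ^ gN) :=
          mul_le_mul_of_nonneg_left (div_le_div_of_nonneg_right h2 hg.le) hY0.le
        have h6 : (2 : ℝ) ^ gK l / 2 ^ gN ≤ Y ^ 2 * (2 ^ gK l / 2 ^ gN) :=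
          le_mul_of_one_le_left (by positivity) (by nlinarith)
        calc (2 : ℝ) ^ gT l / 2 ^ p + 2 ^ gK l / 2 ^ gN ≤
              Y * (Y * 2 ^ gK l / 2 ^ gN) + Y ^ 2 * (2 ^ gK l / 2 ^ gN) :=
                add_le_add (h1.trans h4) h6
          _ = _ := by ring
      have h7 : Y * E * (2 ^ gT l / 2 ^ p + 2 ^ gK l / 2 ^ gN) * (1 / 2 ^ gK l * sz c gK Γ n V) ≤
          Y * E * (2 * Y ^ 2 * (2 ^ gK l / 2 ^ gN)) * (1 / 2 ^ gK l * sz c gK Γ n V) :=
        mul_le_mul_of_nonneg_right (mul_le_mul_of_nonneg_left h3 (by positivity)) (by positivity)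
      refine h7.trans (le_of_eq ?_)
      field_simp
  refine (Finset.abs_sum_le_sum_abs _ _).trans ((Finset.sum_le_sum hterm).trans ?_)
  rw [Finset.sum_const, Finset.card_range, nsmul_eq_mul, ← hE]
  have h1 := mul_le_mul_of_nonneg_right hN.yn (show 0 ≤ 2 * Y ^ 3 * E / 2 ^ gN * sz c gK Γ n V by
    positivity)
  refine h1.trans (le_of_eq ?_)
  ring

/-- **The closed and the visible corrected row covectors are near** in the mixed norm. -/
theorem RwC.two (hc : Set.InjOn c (Set.Iio n)) (hN : Nmb n Sc gK g' gT gN p Y)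
    (h : RwC c n Sc gK g' gT gN p Y κ Γ φ ΓN δ) (h' : RwC c n Sc gK g' gT gN p Y σ Γ γ ΓN δ')
    (hag : ∀ V : Option (Fin m) → ℝ, V none = 0 → |cv (φ - γ) V| ≤ Y / 2 ^ p * sz c gT κ n V)
    (hch : ∀ l < n, Sc l → ∀ V : Option (Fin m) → ℝ, V none = 0 →
      |cv (κ l - σ l) V| ≤ Y / 2 ^ gT l * sz c gT κ l V)
    {V : Option (Fin m) → ℝ} (h0 : V none = 0) :
    |cv (cor c n Sc κ φ δ - cor c n Sc σ γ δ') V| ≤
      4 * Y ^ 7 * ((1 + Y ^ 2) ^ n) ^ 2 * (1 + Y) ^ (n + 1) / 2 ^ gN * sz c g' κ n V := by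
  have hY2 := hN.y2
  have hY0 : 0 < Y := by linarith
  have hY1 : 1 ≤ Y := by linarith
  obtain ⟨E, hE⟩ : ∃ E, E = (1 + Y ^ 2) ^ n := ⟨_, rfl⟩
  have hE1 : 1 ≤ E := by
    rw [hE]
    exact one_le_pow₀ (by nlinarith)
  have hE0 : 0 < E := by linarith
  have hΞ := mx_cvc (Sc := Sc) h.ch.cκ h.ch.cΓ
  have hg : (0 : ℝ) < 2 ^ gN := by positivity
  obtain ⟨W, hW⟩ : ∃ W, W = cor c n Sc κ φ δ - cor c n Sc σ γ δ' := ⟨_, rfl⟩
  rw [← hW, ← hE]
  have hWc : CvC c n W := by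
    intro k hk
    rw [hW, Pi.sub_apply, cvc_cor δ h.cφ h.ch.cκ k hk, cvc_cor δ' h'.cφ h'.ch.cκ k hk, sub_zero]
  have W1 : ∀ V : Option (Fin m) → ℝ, V none = 0 → |cv W V| ≤
      4 * Y ^ 5 * E ^ 2 / 2 ^ gN * sz c gK Γ n V := by
    intro V hV
    have h1 := h.nat hc hN hV
    have h2 := h'.nat hc hN hV
    rw [← hE] at h1 h2
    have e1 : cv W V = cv (cor c n Sc κ φ δ - ΓN) V - cv (cor c n Sc σ γ δ' - ΓN) V := by
      rw [hW, cv_subl, cv_subl, cv_subl]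
      ring
    rw [e1]
    refine (abs_sub _ _).trans ((add_le_add h1 h2).trans ?_)
    have e2 : 2 * Y ^ 4 * E / 2 ^ gN * sz c gK Γ n V + 2 * Y ^ 4 * E / 2 ^ gN * sz c gK Γ n V =
        4 * Y ^ 4 * E / 2 ^ gN * sz c gK Γ n V := by ring
    rw [e2]
    refine mul_le_mul_of_nonneg_right (div_le_div_of_nonneg_right ?_ hg.le) (sz_nonneg _ _ _ _ _)
    calc 4 * Y ^ 4 * E = 4 * (Y ^ 4 * 1) * (E * 1) := by ring
      _ ≤ 4 * (Y ^ 4 * Y) * (E * E) := by
        refine mul_le_mul (mul_le_mul_of_nonneg_left (mul_le_mul_of_nonneg_left hY1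
          (by positivity)) (by norm_num)) (mul_le_mul_of_nonneg_left hE1 hE0.le)
          (by positivity) (by positivity)
      _ = _ := by ring
  have W2 : ∀ l < n, ¬ Sc l → |cv W (ev c n (mx Sc κ Γ) l)| ≤
      4 * Y ^ 5 * E ^ 2 / 2 ^ gN * 2 ^ g' l := by
    intro l hl hsl
    obtain ⟨e, he⟩ : ∃ e, e = ev c n (mx Sc κ Γ) l := ⟨_, rfl⟩
    have he0 : e none = 0 := by rw [he]; exact ev_none _ _ _ _
    have hszT : ∀ x ≤ n, sz c gT κ x e ≤ E * 2 ^ gT l := fun x hx => by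
      rw [he, hE]
      exact sz_evT hc hN h.ch hx
    have h1 : ∑ x ∈ range n, wt Sc δ x * (e (some (c x)) - cv (κ x) e) = 0 := by
      refine Finset.sum_eq_zero fun x hx => ?_
      rw [Finset.mem_range] at hx
      by_cases hsx : Sc x
      · have h2 := ev_comp hc hΞ l hx
        rw [mx_pos hsx, ← he, if_neg (fun h5 : x = l => hsl (by rw [← h5]; exact hsx))] at h2
        rw [h2, mul_zero]
      · rw [wt_neg hsx, zero_mul]
    have h2 : |∑ x ∈ range n, wt Sc δ' x * (e (some (c x)) - cv (σ x) e)| ≤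
        n * (3 * Y ^ 3 * E ^ 2 * (2 ^ gT l / 2 ^ p)) := by
      refine (Finset.abs_sum_le_sum_abs _ _).trans ((Finset.sum_le_sum
        (g := fun _ => 3 * Y ^ 3 * E ^ 2 * (2 ^ gT l / 2 ^ p)) fun x hx => ?_).trans
        (le_of_eq (by rw [Finset.sum_const, Finset.card_range, nsmul_eq_mul])))
      rw [Finset.mem_range] at hx
      by_cases hsx : Sc x
      · have h3 := ev_comp hc hΞ l hx
        rw [mx_pos hsx, ← he, if_neg (fun h5 : x = l => hsl (by rw [← h5]; exact hsx))] at h3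
        have e1 : e (some (c x)) - cv (σ x) e = cv (κ x - σ x) e := by
          rw [cv_subl]
          linarith
        rw [wt_pos hsx, abs_mul, e1]
        have h4 := h'.delb hc hN hx hsx
        have h5 := (hch x hx hsx e he0).trans (mul_le_mul_of_nonneg_left (hszT x hx.le)
          (by positivity))
        rw [← hE] at h4
        refine (mul_le_mul h4 h5 (abs_nonneg _) (by positivity)).trans (le_of_eq ?_)
        field_simp
      · rw [wt_neg hsx, zero_mul, abs_zero]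
        positivity
    have h3 := (hag e he0).trans (mul_le_mul_of_nonneg_left (hszT n le_rfl) (by positivity))
    have e2 : cv W e = cv (φ - γ) e - ∑ x ∈ range n, wt Sc δ' x *
        (e (some (c x)) - cv (σ x) e) := by
      rw [hW, cv_subl, cv_cor, cv_cor, h1, cv_subl]
      ring
    rw [← he, e2]
    refine (abs_sub _ _).trans ((add_le_add h3 h2).trans ?_)
    have h4 := hN.rT l hl hsl
    obtain ⟨t, ht⟩ : ∃ t : ℝ, t = 2 ^ gT l / 2 ^ p := ⟨_, rfl⟩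
    have ht0 : 0 < t := by rw [ht]; positivity
    have e3 : Y / 2 ^ p * (E * 2 ^ gT l) = Y * E * t := by
      rw [ht]
      ring
    rw [e3, ← ht]
    rw [← ht] at h4
    have h5 : (n : ℝ) * (3 * Y ^ 3 * E ^ 2 * t) ≤ Y * (3 * Y ^ 3 * E ^ 2 * t) :=
      mul_le_mul_of_nonneg_right hN.yn (by positivity)
    have h6 : Y * E * t ≤ Y ^ 4 * E ^ 2 * t := by
      refine mul_le_mul_of_nonneg_right ?_ ht0.le
      calc Y * E = Y * 1 * (E * 1) := by ring
        _ ≤ Y * Y ^ 3 * (E * E) := by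
          refine mul_le_mul (mul_le_mul_of_nonneg_left (one_le_pow₀ hY1) hY0.le)
            (mul_le_mul_of_nonneg_left hE1 hE0.le) (by positivity) (by positivity)
        _ = _ := by ring
    calc Y * E * t + n * (3 * Y ^ 3 * E ^ 2 * t) ≤
          Y ^ 4 * E ^ 2 * t + Y * (3 * Y ^ 3 * E ^ 2 * t) := add_le_add h6 h5
      _ = 4 * Y ^ 4 * E ^ 2 * t := by ring
      _ ≤ 4 * Y ^ 4 * E ^ 2 * (Y * (2 ^ g' l / 2 ^ gN)) :=
        mul_le_mul_of_nonneg_left h4 (by positivity)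
      _ = _ := by ring
  have hfin := two_nrm hc h.ch.cκ h.ch.cΓ (gK := gK) (g' := g') (U := Y)
    (M := 4 * Y ^ 5 * E ^ 2 / 2 ^ gN) (X := Y) hY0.le (by positivity) hY1 hN.sg h.ch.h1 h.ch.h2
    hWc W1 W2 h0
  refine hfin.trans (mul_le_mul_of_nonneg_right ?_ (sz_nonneg _ _ _ _ _))
  have h1 : (n : ℝ) * (1 + Y) ^ (n + 1) * Y ≤ Y * (1 + Y) ^ (n + 1) * Y :=
    mul_le_mul_of_nonneg_right (mul_le_mul_of_nonneg_right hN.yn (by positivity)) hY0.le
  refine (mul_le_mul_of_nonneg_left h1 (by positivity)).trans (le_of_eq ?_)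
  ring

/-- **The static coordinates of the chain, closed and visible, are near** in the mixed norm. -/
theorem chn_two (hc : Set.InjOn c (Set.Iio n)) (hN : Nmb n Sc gK g' gT gN p Y)
    (h : ChC c n Sc gK g' Y κ Γ) (h' : ChC c n Sc gK g' Y σ Γ)
    (hch : ∀ l < n, Sc l → ∀ V : Option (Fin m) → ℝ, V none = 0 →
      |cv (κ l - σ l) V| ≤ Y / 2 ^ gT l * sz c gT κ l V) {l : ℕ} (hl : l < n) (hs : Sc l)
    {V : Option (Fin m) → ℝ} (h0 : V none = 0) :
    |cv (κ l - σ l) V| ≤ 2 * Y ^ 6 * (1 + Y ^ 2) ^ n * (1 + Y) ^ (n + 1) / 2 ^ g' l *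
      sz c g' κ l V := by
  have hY2 := hN.y2
  have hY0 : 0 < Y := by linarith
  have hY1 : 1 ≤ Y := by linarith
  obtain ⟨E, hE⟩ : ∃ E, E = (1 + Y ^ 2) ^ n := ⟨_, rfl⟩
  have hE1 : 1 ≤ E := by
    rw [hE]
    exact one_le_pow₀ (by nlinarith)
  have hE0 : 0 < E := by linarith
  have hcl : Set.InjOn c (Set.Iio l) := hc.mono (Set.Iio_subset_Iio hl.le)
  have hΞ := mx_cvc (Sc := Sc) h.cκ h.cΓ
  have hgl : (0 : ℝ) < 2 ^ g' l := by positivity
  have hNl : Nmb l Sc gK g' gT gN p Y :=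
    ⟨hN.y2, (by exact_mod_cast hl.le : (l : ℝ) ≤ n).trans hN.yn, fun x hx => hN.sT x (hx.trans hl),
      fun x hx => hN.sg x (hx.trans hl), fun x hx => hN.rT x (hx.trans hl),
      fun x hx => hN.rK x (hx.trans hl), fun j hj hs x hx => hN.tg j (hj.trans hl) hs x
        (hx.trans hl)⟩
  have hCl : ChC c l Sc gK g' Y κ Γ :=
    ⟨h.cκ, h.cΓ, fun x hx => h.h1 x (hx.trans hl), fun x hx => h.h2 x (hx.trans hl)⟩
  obtain ⟨W, hW⟩ : ∃ W, W = κ l - σ l := ⟨_, rfl⟩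
  rw [← hW, ← hE]
  have hWc : CvC c l W := by
    intro k hk
    rw [hW, Pi.sub_apply, h.cκ l k hk, h'.cκ l k hk, sub_zero]
  -- the sides
  have hK1 : ∀ j < l, ¬ Sc j → (2 : ℝ) ^ gT j / 2 ^ gT l ≤ Y ^ 2 * (2 ^ g' j / 2 ^ gK l) := by
    intro j hj hsj
    have h1 := hN.tg j (hj.trans hl) hsj l hl
    have h2 := hN.sg l hl hs
    rw [← mul_div_assoc, div_le_div_iff₀ (by positivity) (by positivity)]
    calc (2 : ℝ) ^ gT j * 2 ^ gK l ≤ 2 ^ gT j * (Y * 2 ^ g' l) :=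
          mul_le_mul_of_nonneg_left h2 (by positivity)
      _ = Y * (2 ^ g' l * 2 ^ gT j) := by ring
      _ ≤ Y * (Y * (2 ^ gT l * 2 ^ g' j)) := mul_le_mul_of_nonneg_left h1 hY0.le
      _ = _ := by ring
  have W1 : ∀ V : Option (Fin m) → ℝ, V none = 0 → |cv W V| ≤
      2 * Y ^ 3 * E / 2 ^ gK l * sz c gK Γ l V := by
    intro V hV
    have h1 := h.h1 l hl hs V hV
    have h2 := h'.h1 l hl hs V hV
    have e1 : cv W V = cv (κ l - Γ l) V - cv (σ l - Γ l) V := by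
      rw [hW, cv_subl, cv_subl, cv_subl]
      ring
    rw [e1]
    refine (abs_sub _ _).trans ((add_le_add h1 h2).trans ?_)
    have e2 : Y / 2 ^ gK l * sz c gK Γ l V + Y / 2 ^ gK l * sz c gK Γ l V =
        2 * Y / 2 ^ gK l * sz c gK Γ l V := by ring
    rw [e2]
    refine mul_le_mul_of_nonneg_right (div_le_div_of_nonneg_right ?_ (by positivity))
      (sz_nonneg _ _ _ _ _)
    calc 2 * Y = 2 * (Y * 1) * 1 := by ring
      _ ≤ 2 * (Y * Y ^ 2) * E := mul_le_mul (mul_le_mul_of_nonneg_left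
        (mul_le_mul_of_nonneg_left (one_le_pow₀ hY1) hY0.le) (by norm_num)) hE1 (by norm_num)
        (by positivity)
      _ = _ := by ring
  have W2 : ∀ j < l, ¬ Sc j → |cv W (ev c l (mx Sc κ Γ) j)| ≤
      2 * Y ^ 3 * E / 2 ^ gK l * 2 ^ g' j := by
    intro j hj hsj
    have h1 := hch l hl hs _ (ev_none c l (mx Sc κ Γ) j)
    have h2 := sz_evT hcl hNl hCl (x := j) (l := l) le_rfl
    have h3 : (1 + Y ^ 2) ^ l ≤ E := by
      rw [hE]
      exact pow_le_pow_right₀ (by nlinarith) hl.le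
    rw [← hW] at h1
    refine h1.trans ((mul_le_mul_of_nonneg_left (h2.trans (mul_le_mul_of_nonneg_right h3
      (by positivity))) (by positivity)).trans ?_)
    have h4 := hK1 j hj hsj
    calc Y / 2 ^ gT l * (E * 2 ^ gT j) = Y * E * (2 ^ gT j / 2 ^ gT l) := by ring
      _ ≤ Y * E * (Y ^ 2 * (2 ^ g' j / 2 ^ gK l)) := mul_le_mul_of_nonneg_left h4 (by positivity)
      _ = 1 * (Y ^ 3 * E / 2 ^ gK l * 2 ^ g' j) := by ring
      _ ≤ 2 * (Y ^ 3 * E / 2 ^ gK l * 2 ^ g' j) := mul_le_mul_of_nonneg_right (by norm_num)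
        (by positivity)
      _ = _ := by ring
  have hfin := two_nrm hcl h.cκ h.cΓ (gK := gK) (g' := g') (U := Y)
    (M := 2 * Y ^ 3 * E / 2 ^ gK l) (X := Y) hY0.le (by positivity) hY1
    (fun x hx => hN.sg x (hx.trans hl)) hCl.h1 hCl.h2 hWc W1 W2 h0
  refine hfin.trans ?_
  have h1 : (l : ℝ) * (1 + Y) ^ (l + 1) * Y ≤ Y * (1 + Y) ^ (n + 1) * Y := by
    refine mul_le_mul_of_nonneg_right (mul_le_mul (hNl.yn) (pow_le_pow_right₀ (by linarith)
      (by omega)) (by positivity) hY0.le) hY0.le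
  have h2 : (1 : ℝ) / 2 ^ gK l ≤ Y / 2 ^ g' l := by
    rw [div_le_div_iff₀ (by positivity) hgl, one_mul]
    exact hN.rK l hl
  have hs0 := sz_nonneg c g' κ l V
  calc 2 * Y ^ 3 * E / 2 ^ gK l * (l * (1 + Y) ^ (l + 1) * Y) * sz c g' κ l V =
        2 * Y ^ 3 * E * (l * (1 + Y) ^ (l + 1) * Y) * sz c g' κ l V * (1 / 2 ^ gK l) := by ring
    _ ≤ 2 * Y ^ 3 * E * (Y * (1 + Y) ^ (n + 1) * Y) * sz c g' κ l V * (Y / 2 ^ g' l) := by
      refine mul_le_mul (mul_le_mul_of_nonneg_right (mul_le_mul_of_nonneg_left h1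
        (by positivity)) hs0) h2 (by positivity) (by positivity)
    _ = _ := by ring

/-- **The velocity** in the corrected visible row covector. -/
theorem cor_vel (hc : Set.InjOn c (Set.Iio n)) (hN : Nmb n Sc gK g' gT gN p Y)
    (h' : RwC c n Sc gK g' gT gN p Y σ Γ γ ΓN δ') {x : ℝ} {X : ℝ} {W : Option (Fin m) → ℝ}
    (hX : 0 ≤ X) (hv : |x - cv γ W| ≤ X / 2 ^ p)
    (hl : ∀ l < n, Sc l → |W (some (c l)) - cv (σ l) W| ≤ X / 2 ^ gT l) :
    |x - cv (cor c n Sc σ γ δ') W| ≤ 4 * Y ^ 3 * (1 + Y ^ 2) ^ n * (X / 2 ^ p) := by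
  have hY2 := hN.y2
  have hY0 : 0 < Y := by linarith
  have hY1 : 1 ≤ Y := by linarith
  obtain ⟨E, hE⟩ : ∃ E, E = (1 + Y ^ 2) ^ n := ⟨_, rfl⟩
  have hE1 : 1 ≤ E := by
    rw [hE]
    exact one_le_pow₀ (by nlinarith)
  have h1 : |∑ l ∈ range n, wt Sc δ' l * (W (some (c l)) - cv (σ l) W)| ≤
      n * (3 * Y ^ 2 * E * (X / 2 ^ p)) := by
    refine (Finset.abs_sum_le_sum_abs _ _).trans ((Finset.sum_le_sum
      (g := fun _ => 3 * Y ^ 2 * E * (X / 2 ^ p)) fun y hy => ?_).trans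
      (le_of_eq (by rw [Finset.sum_const, Finset.card_range, nsmul_eq_mul])))
    rw [Finset.mem_range] at hy
    by_cases hs : Sc y
    · rw [wt_pos hs, abs_mul]
      have h4 := h'.delb hc hN hy hs
      rw [← hE] at h4
      refine (mul_le_mul h4 (hl y hy hs) (abs_nonneg _) (by positivity)).trans (le_of_eq ?_)
      field_simp
    · rw [wt_neg hs, zero_mul, abs_zero]
      positivity
  rw [cv_cor, ← hE]
  have e1 : x - (cv γ W + ∑ l ∈ range n, wt Sc δ' l * (W (some (c l)) - cv (σ l) W)) =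
      (x - cv γ W) - ∑ l ∈ range n, wt Sc δ' l * (W (some (c l)) - cv (σ l) W) := by ring
  rw [e1]
  refine (abs_sub _ _).trans ((add_le_add hv h1).trans ?_)
  have hXp : 0 ≤ X / 2 ^ p := by positivity
  have h5 : (n : ℝ) * (3 * Y ^ 2 * E * (X / 2 ^ p)) ≤ Y * (3 * Y ^ 2 * E * (X / 2 ^ p)) :=
    mul_le_mul_of_nonneg_right hN.yn (by positivity)
  have h6 : X / 2 ^ p ≤ Y ^ 3 * E * (X / 2 ^ p) := by
    refine le_mul_of_one_le_left hXp ?_
    calc (1 : ℝ) = 1 * 1 := by ring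
      _ ≤ Y ^ 3 * E := mul_le_mul (one_le_pow₀ hY1) hE1 (by norm_num) (by positivity)
  calc X / 2 ^ p + n * (3 * Y ^ 2 * E * (X / 2 ^ p)) ≤
        Y ^ 3 * E * (X / 2 ^ p) + Y * (3 * Y ^ 2 * E * (X / 2 ^ p)) := add_le_add h6 h5
    _ = _ := by ring

end

end Pool.TN
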