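import Pool.Agent.H23.D2.Grd2
import Pool.Agent.H66.D2.Spa
import Pool.Agent.H66.D2.Der
import Pool.Agent.H23.D2.Crb

/-!
# The closed slope of the static place under a thin place

`cv_ev1`: the frame vector of the place one. `gnh31`: the relative gradient in the direction of the
place one, the place two moves with it. `stC`, `mu_st_pt`: the slope of the target in the direction of
the static place one is closed.
-/

set_option autoImplicit false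

namespace Pool.TN

open Finset Real MvPolynomial
open Pool.Agent.H49.Ent Pool.Agent.H32.Dense Pool.STK Pool.KA Pool.KSAT Pool.K2S Pool.PB Pool.S6C
open Pool.GEN Pool.CHT Pool.CHX Pool.ISO Pool.D2R Pool.D2Z Pool.D2F
open Pool.FLF (Fam.sub)
open Pool.D2T (sh sh_rt sh_deg)
open Pool.PB.Trl (rt rt_mem t_rt)

variable {m J : ℕ}

/-- **The frame vector of the place one.** -/
theorem cv_ev1 {c : ℕ → Fin m} (hc : Set.InjOn c (Set.Iio 3)) {Ξ : ℕ → Option (Fin m) → ℝ}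
    (hΞ : ∀ l, CvC c l (Ξ l)) {ψ : Option (Fin m) → ℝ} (hψ : CvC c 3 ψ) :
    cv ψ (ev c 3 Ξ 1) = ψ (some (c 1)) + Ξ 2 (some (c 1)) * ψ (some (c 2)) := by
  have h0 : ev c 3 Ξ 1 (some (c 0)) = 0 := ev_low hc hΞ 0 (by norm_num) (by norm_num)
  have h1 : ev c 3 Ξ 1 (some (c 1)) = 1 := by
    have h := ev_comp hc hΞ 1 (show 1 < 3 by norm_num)
    rw [if_pos rfl, cv_eq (hc.mono (Set.Iio_subset_Iio (by norm_num))) (hΞ 1), ev_none, mul_zero,
      zero_add, Finset.sum_range_one, h0, mul_zero, sub_zero] at h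
    exact h
  have h2 : ev c 3 Ξ 1 (some (c 2)) = Ξ 2 (some (c 1)) := by
    have h := ev_comp hc hΞ 1 (show 2 < 3 by norm_num)
    rw [if_neg (by norm_num), cv_eq (hc.mono (Set.Iio_subset_Iio (by norm_num))) (hΞ 2), ev_none,
      mul_zero, zero_add, Finset.sum_range_succ, Finset.sum_range_one, h0, h1, mul_zero, zero_add,
      mul_one, sub_eq_zero] at h
    exact h
  rw [cv_eq hc hψ, ev_none, mul_zero, zero_add, Finset.sum_range_succ, Finset.sum_range_succ,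
    Finset.sum_range_one, h0, h1, h2]
  ring

/-- **The relative gradient in the direction of the place one**, the place two moves with it. -/
theorem gnh31 {F : Fam m J} {c : ℕ → Fin m} (hc : Set.InjOn c (Set.Iio 3)) (γ : ℕ → ℕ)
    {G G' : PtT F → ℕ → MvPolynomial (Option (Fin m)) ℝ} (hG : ∀ y l, DepC c l (G y l))
    (hG' : ∀ y l, DepC c l (G' y l)) (ω : F.Ω) :
    gnh F c 3 γ G G' ω 1 = 2 ^ γ 3 / 2 ^ γ 1 *
      ((grd (G' (ptr F J ω) 3) (bt F ω) (some (c 1)) -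
        grd (G (ptr F J ω) 3) (bt F ω) (some (c 1))) +
      grd (G (ptr F J ω) 2) (bt F ω) (some (c 1)) *
        (grd (G' (ptr F J ω) 3) (bt F ω) (some (c 2)) -
          grd (G (ptr F J ω) 3) (bt F ω) (some (c 2)))) := by
  obtain ⟨Ξ, hΞd⟩ : ∃ Ξ : ℕ → Option (Fin m) → ℝ, Ξ = fun l => grd (G (ptr F J ω) l) (bt F ω) :=
    ⟨_, rfl⟩
  have hΞ : ∀ l, CvC c l (Ξ l) := fun l => by rw [hΞd]; exact cvc_grd (hG _ l) _
  have h := gnh_sum hc γ hG hG' ω (V := ev c 3 Ξ 1) (ev_none _ _ _ _)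
  have hdd : ∀ j, dd (G (ptr F J ω) j) (bt F ω) (ev c 3 Ξ 1) = cv (Ξ j) (ev c 3 Ξ 1) := fun j => by
    rw [← cv_grd, hΞd]
  have hL : dd (G' (ptr F J ω) 3 - G (ptr F J ω) 3) (bt F ω) (ev c 3 Ξ 1) =
      (grd (G' (ptr F J ω) 3) (bt F ω) (some (c 1)) -
        grd (G (ptr F J ω) 3) (bt F ω) (some (c 1))) +
      grd (G (ptr F J ω) 2) (bt F ω) (some (c 1)) *
        (grd (G' (ptr F J ω) 3) (bt F ω) (some (c 2)) -
          grd (G (ptr F J ω) 3) (bt F ω) (some (c 2))) := by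
    rw [dd_sub, ← cv_grd, ← cv_grd, cv_ev1 hc hΞ (cvc_grd (hG' _ 3) _),
      cv_ev1 hc hΞ (cvc_grd (hG _ 3) _), hΞd]
    ring
  rw [hL] at h
  have hs : ∑ j ∈ range 3, gnh F c 3 γ G G' ω j * (2 ^ γ j * (ev c 3 Ξ 1 (some (c j)) -
      dd (G (ptr F J ω) j) (bt F ω) (ev c 3 Ξ 1))) = gnh F c 3 γ G G' ω 1 * 2 ^ γ 1 := by
    rw [Finset.sum_eq_single 1]
    · rw [hdd, ev_comp hc hΞ 1 (show 1 < 3 by norm_num), if_pos rfl, mul_one]
    · intro j hj hj1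
      rw [Finset.mem_range] at hj
      rw [hdd, ev_comp hc hΞ 1 hj, if_neg hj1, mul_zero, mul_zero]
    · intro h1
      exact absurd (Finset.mem_range.2 (by norm_num)) h1
  rw [hs] at h
  rw [div_mul_eq_mul_div, eq_div_iff (by positivity), h]

/-- The closed slope in the direction of the static place `1`; `mA`, `mB`, `mC` on the windows `WA`,
`WB`, `WC`, `H` the closed charts of the window `w`, `Φ` the row label of the window `w₁`. -/
noncomputable def stC {F : Fam m J} (c : ℕ → Fin m) (t WA WB WC w w₁ : ℕ) (γ : ℕ → ℕ)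
    (mA mB mC : LnT F → Polynomial ℝ) (H : LnT F → ℕ → MvPolynomial (Option (Fin m)) ℝ)
    (Φ : LnT F → MvPolynomial (Option (Fin m)) ℝ) (s : LnT F) : Polynomial ℝ :=
  Polynomial.C ((2 : ℝ) ^ γ 1 / 2 ^ γ 3) * sh (t - WA) mA s +
    (sh (t - w) (fun s => kpol c w (fun s => H s 3) s 1) s -
      sh (t - w₁) (fun s => kpol c w₁ Φ s 1) s) +
    (sh (t - w) (fun s => kpol c w (fun s => H s 2) s 1) s +
      Polynomial.C ((2 : ℝ) ^ γ 1 / 2 ^ γ 2) * sh (t - WB) mB s) *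
      (sh (t - w) (fun s => kpol c w (fun s => H s 3) s 2) s -
        sh (t - w₁) (fun s => kpol c w₁ Φ s 2) s) +
    Polynomial.C ((2 : ℝ) ^ γ 1 / 2 ^ γ 2 * (2 ^ γ 2 / 2 ^ γ 3)) *
      (sh (t - WB) mB s * sh (t - WC) mC s)

theorem stC_deg {F : Fam m J} {c : ℕ → Fin m} {t WA WB WC w w₁ D D₁ : ℕ} {γ : ℕ → ℕ}
    {mA mB mC : LnT F → Polynomial ℝ} {H : LnT F → ℕ → MvPolynomial (Option (Fin m)) ℝ}
    {Φ : LnT F → MvPolynomial (Option (Fin m)) ℝ} (hA : ∀ s, (mA s).natDegree ≤ D₁)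
    (hB : ∀ s, (mB s).natDegree ≤ D₁) (hC : ∀ s, (mC s).natDegree ≤ D₁)
    (hH : ∀ s l, (H s l).totalDegree ≤ D) (hΦ : ∀ s, (Φ s).totalDegree ≤ D) (s : LnT F) :
    (stC c t WA WB WC w w₁ γ mA mB mC H Φ s).natDegree ≤ 2 * (D + D₁) := by
  have h1 : ∀ (r : ℝ) (W : ℕ) {mu : LnT F → Polynomial ℝ}, (∀ s, (mu s).natDegree ≤ D₁) →
      (Polynomial.C r * sh (t - W) mu s).natDegree ≤ D₁ := fun r W mu hm =>
    (Polynomial.natDegree_C_mul_le _ _).trans (sh_deg _ hm s)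
  have h2 : ∀ (l j : ℕ), (sh (t - w) (fun s => kpol c w (fun s => H s l) s j) s).natDegree ≤ D :=
    fun l j => sh_deg _ (fun s => kpol_deg c w (fun s => hH s l) s j) s
  have h3 : ∀ j : ℕ, (sh (t - w₁) (fun s => kpol c w₁ Φ s j) s).natDegree ≤ D :=
    fun j => sh_deg _ (fun s => kpol_deg c w₁ hΦ s j) s
  have h4 : ∀ l j : ℕ, (sh (t - w) (fun s => kpol c w (fun s => H s l) s j) s -
      sh (t - w₁) (fun s => kpol c w₁ Φ s j) s).natDegree ≤ D := fun l j =>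
    (Polynomial.natDegree_sub_le _ _).trans (max_le (h2 l j) (h3 j))
  unfold stC
  refine (Polynomial.natDegree_add_le _ _).trans (max_le ((Polynomial.natDegree_add_le _ _).trans
    (max_le ((Polynomial.natDegree_add_le _ _).trans (max_le ?_ ?_)) ?_)) ?_)
  · exact (h1 _ WA hA).trans (by omega)
  · exact (h4 3 1).trans (by omega)
  · refine Polynomial.natDegree_mul_le.trans ?_
    have h5 := (Polynomial.natDegree_add_le (sh (t - w) (fun s => kpol c w (fun s => H s 2) s 1) s)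
      (Polynomial.C ((2 : ℝ) ^ γ 1 / 2 ^ γ 2) * sh (t - WB) mB s)).trans
      (max_le_max (h2 2 1) (h1 _ WB hB))
    have h6 := h4 3 2
    have h7 : max D D₁ ≤ D + D₁ := max_le (by omega) (by omega)
    omega
  · refine (Polynomial.natDegree_C_mul_le _ _).trans (Polynomial.natDegree_mul_le.trans ?_)
    have h5 := sh_deg (t - WB) hB s
    have h6 := sh_deg (t - WC) hC s
    omega

theorem stC_rt (F : Fam m J) (c : ℕ → Fin m) {t WA WB WC w w₁ : ℕ} (hA : WA ≤ t) (hB : WB ≤ t)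
    (hC : WC ≤ t) (hw : w ≤ t) (h1 : w₁ ≤ t) (ht : t ≤ J) (γ : ℕ → ℕ)
    (mA mB mC : LnT F → Polynomial ℝ) (H : LnT F → ℕ → MvPolynomial (Option (Fin m)) ℝ)
    (Φ : LnT F → MvPolynomial (Option (Fin m)) ℝ) (ω : F.Ω) :
    (stC c t WA WB WC w w₁ γ mA mB mC H Φ (slam F t ω)).eval (rt F t ω) =
      2 ^ γ 1 / 2 ^ γ 3 * (mA (slam F WA ω)).eval (rt F WA ω) +
        (grd (H (slam F w ω) 3) (bt F ω) (some (c 1)) -
          grd (Φ (slam F w₁ ω)) (bt F ω) (some (c 1))) +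
        (grd (H (slam F w ω) 2) (bt F ω) (some (c 1)) +
          2 ^ γ 1 / 2 ^ γ 2 * (mB (slam F WB ω)).eval (rt F WB ω)) *
        (grd (H (slam F w ω) 3) (bt F ω) (some (c 2)) -
          grd (Φ (slam F w₁ ω)) (bt F ω) (some (c 2))) +
        2 ^ γ 1 / 2 ^ γ 2 * (2 ^ γ 2 / 2 ^ γ 3) * ((mB (slam F WB ω)).eval (rt F WB ω) *
          (mC (slam F WC ω)).eval (rt F WC ω)) := by
  unfold stC
  simp only [Polynomial.eval_add, Polynomial.eval_sub, Polynomial.eval_mul, Polynomial.eval_C]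
  rw [sh_rt F hA ht, sh_rt F hB ht, sh_rt F hC ht, sh_rt F hw ht, sh_rt F hw ht, sh_rt F hw ht,
    sh_rt F h1 ht, sh_rt F h1 ht, kpol_rt F c (hw.trans ht), kpol_rt F c (hw.trans ht),
    kpol_rt F c (hw.trans ht), kpol_rt F c (h1.trans ht), kpol_rt F c (h1.trans ht)]

/-- **The closed slope of the target in the direction of the static place one.** `w`: the window of the
closed charts, `x`: the far window, `K`: the ball. `mB`, `mC` may be zero if the slope of the thin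
place does not change. -/
theorem mu_st_pt {F : Fam m J} {c : ℕ → Fin m} (hc : Set.InjOn c (Set.Iio 3))
    {t WA WB WC w w₁ : ℕ} (hWA : WA ≤ t) (hWB : WB ≤ t)
    (hWC : WC ≤ t) (hw : w ≤ t) (h1 : w₁ ≤ t) (ht : t ≤ J) {γ γK : ℕ → ℕ}
    {Gw Gx GK : PtT F → ℕ → MvPolynomial (Option (Fin m)) ℝ}
    {H : LnT F → ℕ → MvPolynomial (Option (Fin m)) ℝ}
    {Φ : LnT F → MvPolynomial (Option (Fin m)) ℝ} (dw : ∀ y l, DepC c l (Gw y l))
    (dx : ∀ y l, DepC c l (Gx y l)) (dK : ∀ y l, DepC c l (GK y l)) {ω : F.Ω}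
    (dΦ : DepC c 3 (Φ (slam F w₁ ω)))
    (hH2 : Gw (ptr F J ω) 2 = H (slam F w ω) 2) (hH3 : Gw (ptr F J ω) 3 = H (slam F w ω) 3)
    {mA mB mC : LnT F → Polynomial ℝ} {δ U EB EC N₂ : ℝ}
    (hA : |gnh F c 3 γ Gw Gx ω 1 - (mA (slam F WA ω)).eval (rt F WA ω)| ≤ δ)
    (hU : |gnh F c 3 γK GK Gx ω 1| ≤ U)
    (hB : |grd (GK (ptr F J ω) 2) (bt F ω) (some (c 1)) -
      grd (Gw (ptr F J ω) 2) (bt F ω) (some (c 1)) -
      2 ^ γ 1 / 2 ^ γ 2 * (mB (slam F WB ω)).eval (rt F WB ω)| ≤ EB)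
    (hC : |2 ^ γ 1 / 2 ^ γ 2 * (mB (slam F WB ω)).eval (rt F WB ω)| *
      |grd (Gx (ptr F J ω) 3) (bt F ω) (some (c 2)) - grd (Gw (ptr F J ω) 3) (bt F ω) (some (c 2)) -
        2 ^ γ 2 / 2 ^ γ 3 * (mC (slam F WC ω)).eval (rt F WC ω)| ≤ EC)
    (hN : |grd (Gx (ptr F J ω) 3) (bt F ω) (some (c 2)) -
      grd (Φ (slam F w₁ ω)) (bt F ω) (some (c 2))| ≤ N₂)
    {Ξ : ℕ → Option (Fin m) → ℝ} (hΞ : ∀ l, CvC c l (Ξ l))
    (hΞ2 : Ξ 2 = grd (GK (ptr F J ω) 2) (bt F ω)) :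
    |cv (grd (GK (ptr F J ω) 3) (bt F ω) - grd (Φ (slam F w₁ ω)) (bt F ω)) (ev c 3 Ξ 1) -
      (stC c t WA WB WC w w₁ γ mA mB mC H Φ (slam F t ω)).eval (rt F t ω)| ≤
      2 ^ γ 1 / 2 ^ γ 3 * δ + 2 ^ γK 1 / 2 ^ γK 3 * U + EB * N₂ + EC := by
  rw [stC_rt F c hWA hWB hWC hw h1 ht, ← hH2, ← hH3, cv_subl,
    cv_ev1 hc hΞ (cvc_grd (dK _ 3) _), cv_ev1 hc hΞ (cvc_grd dΦ _), hΞ2]
  rw [gnh31 hc γ dw dx] at hA
  rw [gnh31 hc γK dK dx] at hU
  generalize grd (Gx (ptr F J ω) 3) (bt F ω) (some (c 1)) = x1 at *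
  generalize grd (Gx (ptr F J ω) 3) (bt F ω) (some (c 2)) = x2 at *
  generalize grd (GK (ptr F J ω) 3) (bt F ω) (some (c 1)) = k1 at *
  generalize grd (GK (ptr F J ω) 3) (bt F ω) (some (c 2)) = k2 at *
  generalize grd (Gw (ptr F J ω) 3) (bt F ω) (some (c 1)) = w1 at *
  generalize grd (Gw (ptr F J ω) 3) (bt F ω) (some (c 2)) = w2 at *
  generalize grd (Φ (slam F w₁ ω)) (bt F ω) (some (c 1)) = f1 at *
  generalize grd (Φ (slam F w₁ ω)) (bt F ω) (some (c 2)) = f2 at *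
  generalize grd (GK (ptr F J ω) 2) (bt F ω) (some (c 1)) = Dk at *
  generalize grd (Gw (ptr F J ω) 2) (bt F ω) (some (c 1)) = Dw at *
  generalize (mA (slam F WA ω)).eval (rt F WA ω) = a at *
  generalize (mB (slam F WB ω)).eval (rt F WB ω) = b at *
  generalize (mC (slam F WC ω)).eval (rt F WC ω) = d at *
  obtain ⟨ρ, hρ⟩ : ∃ ρ : ℝ, ρ = 2 ^ γ 1 / 2 ^ γ 3 := ⟨_, rfl⟩
  obtain ⟨ρK, hρK⟩ : ∃ ρ : ℝ, ρ = 2 ^ γK 1 / 2 ^ γK 3 := ⟨_, rfl⟩
  obtain ⟨σ, hσ⟩ : ∃ σ : ℝ, σ = 2 ^ γ 1 / 2 ^ γ 2 := ⟨_, rfl⟩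
  obtain ⟨τ, hτ⟩ : ∃ τ : ℝ, τ = 2 ^ γ 2 / 2 ^ γ 3 := ⟨_, rfl⟩
  have hρ0 : 0 < ρ := by rw [hρ]; positivity
  have hρK0 : 0 < ρK := by rw [hρK]; positivity
  have e1 : (2 : ℝ) ^ γ 3 / 2 ^ γ 1 = 1 / ρ := by rw [hρ, one_div_div]
  have e2 : (2 : ℝ) ^ γK 3 / 2 ^ γK 1 = 1 / ρK := by rw [hρK, one_div_div]
  rw [e1] at hA
  rw [e2] at hU
  rw [← hσ] at hB
  rw [← hσ, ← hτ] at hC
  rw [← hρ, ← hρK, ← hσ, ← hτ]
  have k1' : |((x1 - w1) + Dw * (x2 - w2)) - ρ * a| ≤ ρ * δ := by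
    have : ((x1 - w1) + Dw * (x2 - w2)) - ρ * a =
        ρ * (1 / ρ * ((x1 - w1) + Dw * (x2 - w2)) - a) := by field_simp
    rw [this, abs_mul, abs_of_pos hρ0]
    exact mul_le_mul_of_nonneg_left hA hρ0.le
  have k2' : |(x1 - k1) + Dk * (x2 - k2)| ≤ ρK * U := by
    have : (x1 - k1) + Dk * (x2 - k2) = ρK * (1 / ρK * ((x1 - k1) + Dk * (x2 - k2))) := by
      field_simp
    rw [this, abs_mul, abs_of_pos hρK0]
    exact mul_le_mul_of_nonneg_left hU hρK0.le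
  have k3 : |(Dk - Dw - σ * b) * (x2 - f2)| ≤ EB * N₂ := by
    rw [abs_mul]
    exact mul_le_mul hB hN (abs_nonneg _) ((abs_nonneg _).trans hB)
  have k4 : |σ * b * (x2 - w2 - τ * d)| ≤ EC := by
    rw [abs_mul]
    exact hC
  have e3 : k1 + Dk * k2 - (f1 + Dk * f2) - (ρ * a + (w1 - f1) + (Dw + σ * b) * (w2 - f2) +
      σ * τ * (b * d)) = (((x1 - w1) + Dw * (x2 - w2)) - ρ * a) -
      ((x1 - k1) + Dk * (x2 - k2)) + (Dk - Dw - σ * b) * (x2 - f2) +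
      σ * b * (x2 - w2 - τ * d) := by ring
  rw [e3]
  refine (abs_add_le _ _).trans (add_le_add ((abs_add_le _ _).trans (add_le_add
    ((abs_sub _ _).trans (add_le_add k1' k2')) k3)) k4)

end Pool.TN
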