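import Pool.Agent.H23.D2.Crd
import Pool.Agent.H66.D2.Mst

/-!
# The critical cell, static place one: the derivative of the closed slope

`row_tr`: the row label against the ball, up to the static direction. `lamR`: the closed gradient of
the target. `der_row`: the derivative along the own line of the closed slope in the static direction is
the second derivative of the row label. `mu2S`, `jmu2`: the closed gradient of the thin place two in
the static direction, from the closed slope of the target.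
-/

set_option autoImplicit false

namespace Pool.TNW

open Finset Real MvPolynomial
open Pool.Agent.H49.Ent Pool.Agent.H32.Dense Pool.STK Pool.KA Pool.KSAT Pool.K2S Pool.PB Pool.S6C
open Pool.GEN Pool.CHT Pool.CHX Pool.ISO Pool.D2R Pool.D2Z Pool.D2F Pool.TN
open Pool.FLF (Fam.sub)
open Pool.PB.Trl (rt rt_mem t_rt)

variable {m J : ℕ}

/-- The size over three places. -/
theorem sz3 {c : ℕ → Fin m} (g : ℕ → ℕ) {χ : ℕ → Option (Fin m) → ℝ} (hχ : CvC c 0 (χ 0))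
    {V : Option (Fin m) → ℝ} (hV : V none = 0) : Pool.TN.sz c g χ 3 V =
      2 ^ g 0 * |V (some (c 0))| + 2 ^ g 1 * |V (some (c 1)) - cv (χ 1) V| +
        2 ^ g 2 * |V (some (c 2)) - cv (χ 2) V| := by
  unfold Pool.TN.sz
  rw [Finset.sum_range_succ, Finset.sum_range_succ, Finset.sum_range_one, cv_c0 hχ hV, sub_zero]

theorem sz2 {c : ℕ → Fin m} (g : ℕ → ℕ) {χ : ℕ → Option (Fin m) → ℝ} (hχ : CvC c 0 (χ 0))
    {V : Option (Fin m) → ℝ} (hV : V none = 0) : Pool.TN.sz c g χ 2 V =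
      2 ^ g 0 * |V (some (c 0))| + 2 ^ g 1 * |V (some (c 1)) - cv (χ 1) V| := by
  unfold Pool.TN.sz
  rw [Finset.sum_range_succ, Finset.sum_range_one, cv_c0 hχ hV, sub_zero]

section

variable {F : Fam m J} {c : ℕ → Fin m} {D Dr N M A cl : ℕ} {Sc : ℕ → Prop}
    {w e h pp : ℕ → ℕ} {z g gc gT g₀ : ℕ → ℕ → ℕ} {κ : ℝ} {B : F.Ω → Prop}
    {G : ℕ → PtT F → ℕ → MvPolynomial (Option (Fin m)) ℝ}
    {H : ℕ → LnT F → ℕ → MvPolynomial (Option (Fin m)) ℝ}
    {T : ℕ → PtT F → ℕ → MvPolynomial (Option (Fin m)) ℝ}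
    {TH : ℕ → LnT F → ℕ → MvPolynomial (Option (Fin m)) ℝ}
    {Gt : ℕ → PtT F → MvPolynomial (Option (Fin m)) ℝ}
    {Ht : ℕ → LnT F → MvPolynomial (Option (Fin m)) ℝ}

/-- **The component in the static direction** in the norm of the ball. -/
theorem st_dir (E : CEv F c 3 D Dr N M A cl Sc w e h pp z g gc gT g₀ κ B G H T TH Gt Ht)
    (hs0 : ¬ Sc 0) {i k X : ℕ} (hi : i ≤ N) (hk : k ≤ N) (hik : w i ≤ w k)
    (b1 : cl ≤ gT i 1) (b2 : cl ≤ gc k 1) (m1 : gT k 1 ≤ gT i 1 + X)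
    (lb1 : g₀ k 1 + (A - w k) ≤ gT k 1 + X) {ω : F.Ω} (hω : B ω)
    {V : Option (Fin m) → ℝ} (hV : V none = 0) :
    2 ^ g₀ k 1 * |V (some (c 1)) - cv (kT w TH ω i 1) V| ≤
      2 ^ (8 * cl + 2 * X + 5) * Pool.TN.sz c (g₀ k) (gG G ω k) 3 V := by
  have h1 := st_gg E (by norm_num) hs0 hi hk hik b1 b2 m1 lb1 hω hV
  have hΓ : ∀ l, CvC c l (gG G ω k l) := fun l => cvc_grd ((E.evs k hk).ball.depG _ l) _
  have e1 : V (some (c 1)) - cv (kT w TH ω i 1) V =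
      (V (some (c 1)) - cv (gG G ω k 1) V) - cv (kT w TH ω i 1 - gG G ω k 1) V := by
    rw [cv_subl]
    ring
  have h2 := abs_sub (V (some (c 1)) - cv (gG G ω k 1) V)
    (cv (kT w TH ω i 1 - gG G ω k 1) V)
  rw [← e1] at h2
  have h3 := mul_le_mul_of_nonneg_left h2 (show (0 : ℝ) ≤ 2 ^ g₀ k 1 by positivity)
  rw [sz3 _ (hΓ 0) hV]
  obtain ⟨a, ha⟩ : ∃ a, a = 2 ^ g₀ k 0 * |V (some (c 0))| := ⟨_, rfl⟩
  obtain ⟨b, hb⟩ : ∃ b, b = 2 ^ g₀ k 1 * |V (some (c 1)) - cv (gG G ω k 1) V| := ⟨_, rfl⟩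
  obtain ⟨d, hd⟩ : ∃ d, d = 2 ^ g₀ k 2 * |V (some (c 2)) - cv (gG G ω k 2) V| := ⟨_, rfl⟩
  have ha0 : 0 ≤ a := by rw [ha]; positivity
  have hb0 : 0 ≤ b := by rw [hb]; positivity
  have hd0 : 0 ≤ d := by rw [hd]; positivity
  rw [← ha] at h1
  rw [mul_add, ← hb] at h3
  rw [← ha, ← hb, ← hd]
  obtain ⟨u, hu⟩ : ∃ u : ℝ, u = 2 ^ (8 * cl + 2 * X + 4) := ⟨_, rfl⟩
  have hu1 : 1 ≤ u := by rw [hu]; exact one_le_pow₀ (by norm_num)
  have e2 : (2 : ℝ) ^ (8 * cl + 2 * X + 5) = 2 * u := by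
    rw [hu, pow_succ]
    ring
  rw [← hu] at h1
  rw [e2]
  nlinarith [mul_nonneg (show (0 : ℝ) ≤ u - 1 by linarith) hb0,
    mul_nonneg (show (0 : ℝ) ≤ u by linarith) hd0,
    mul_nonneg (show (0 : ℝ) ≤ u by linarith) ha0]

/-- **The row label against the ball**, up to the static direction. -/
theorem row_tr (E : CEv F c 3 D Dr N M A cl Sc w e h pp z g gc gT g₀ κ B G H T TH Gt Ht)
    (hs0 : ¬ Sc 0) (hs1 : Sc 1) (hs2 : ¬ Sc 2) {X f dd i i₁ t k P j : ℕ}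
    (n : JNum N A cl X f dd w pp gc gT g₀ i i₁ t k P j 1) {ω : F.Ω} (hω : B ω)
    {V : Option (Fin m) → ℝ} (hV : V none = 0) :
    |cv (grd (Ht i₁ (slam F (w i₁) ω)) (bt F ω) - gG G ω k 3) V +
        (V (some (c 1)) - cv (kT w TH ω i 1) V) * jA c Sc w G TH Ht i i₁ k 1 ω| ≤
      2 ^ (12 * cl + 3 * X + 8) / 2 ^ g₀ k 3 * Pool.TN.sz c (g₀ k) (gG G ω k) 3 V := by
  have hi := n.iN
  have hi1 := n.i1N
  have hk := n.kN
  have hc : Set.InjOn c (Set.Iio 3) := E.inj.mono (Set.Iio_subset_Iio (by norm_num))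
  have hΓ : ∀ l, CvC c l (gG G ω k l) := fun l => cvc_grd ((E.evs k hk).ball.depG _ l) _
  have hκ : ∀ j ≤ N, ∀ l, CvC c l (kT w TH ω j l) := fun j hj l =>
    cvc_grd ((E.evs j hj).thin.depH _ l) _
  obtain ⟨Ξ, hΞd⟩ : ∃ Ξ, Ξ = mx Sc (kT w TH ω i) (gG G ω k) := ⟨_, rfl⟩
  have hΞ : ∀ l, CvC c l (Ξ l) := fun l => by rw [hΞd]; exact mx_cvc (hκ i hi) hΓ l
  have hΞ1 : Ξ 1 = kT w TH ω i 1 := by rw [hΞd]; exact mx_pos hs1
  have hΞ2 : Ξ 2 = gG G ω k 2 := by rw [hΞd]; exact mx_neg hs2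
  obtain ⟨v, hv⟩ : ∃ v, v = V (some (c 1)) - cv (kT w TH ω i 1) V := ⟨_, rfl⟩
  obtain ⟨E₁, hE₁⟩ : ∃ E₁, E₁ = ev c 3 Ξ 1 := ⟨_, rfl⟩
  have v0 : E₁ none = 0 := by rw [hE₁]; exact ev_none _ _ _ _
  have v1 : E₁ (some (c 0)) = 0 := by
    rw [hE₁]; exact ev_low hc hΞ 0 (by norm_num) (by norm_num)
  have v2 : E₁ (some (c 1)) - cv (kT w TH ω i 1) E₁ = 1 := by
    have h := ev_comp hc hΞ 1 (show 1 < 3 by norm_num)
    rw [if_pos rfl, hΞ1, ← hE₁] at h
    exact h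
  have v3 : E₁ (some (c 2)) - cv (gG G ω k 2) E₁ = 0 := by
    have h := ev_comp hc hΞ 1 (show 2 < 3 by norm_num)
    rw [if_neg (by norm_num), hΞ2, ← hE₁] at h
    exact h
  obtain ⟨W, hW⟩ : ∃ W, W = V - v • E₁ := ⟨_, rfl⟩
  have w0 : W none = 0 := by
    rw [hW, Pi.sub_apply, Pi.smul_apply, v0, hV, smul_zero, sub_zero]
  have w1 : W (some (c 0)) = V (some (c 0)) := by
    rw [hW, Pi.sub_apply, Pi.smul_apply, v1, smul_zero, sub_zero]
  have hcW : ∀ ψ, cv ψ W = cv ψ V - v * cv ψ E₁ := fun ψ => by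
    rw [hW, cv_sub, cv_smul]
  have w2 : W (some (c 1)) = cv (kT w TH ω i 1) W := by
    rw [hcW, hW, Pi.sub_apply, Pi.smul_apply, smul_eq_mul]
    have e1 : v * (E₁ (some (c 1)) - cv (kT w TH ω i 1) E₁) = v := by rw [v2, mul_one]
    rw [hv] at e1 ⊢
    linarith
  have w3 : W (some (c 2)) - cv (gG G ω k 2) W = V (some (c 2)) - cv (gG G ω k 2) V := by
    rw [hcW, hW, Pi.sub_apply, Pi.smul_apply, smul_eq_mul]
    have e1 : v * (E₁ (some (c 2)) - cv (gG G ω k 2) E₁) = 0 := by rw [v3, mul_zero]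
    linarith
  -- the left side
  have hL : cv (grd (Ht i₁ (slam F (w i₁) ω)) (bt F ω) - gG G ω k 3) V +
      v * jA c Sc w G TH Ht i i₁ k 1 ω =
      cv (grd (Ht i₁ (slam F (w i₁) ω)) (bt F ω) - gG G ω k 3) W := by
    have e1 : jA c Sc w G TH Ht i i₁ k 1 ω =
        -cv (grd (Ht i₁ (slam F (w i₁) ω)) (bt F ω) - gG G ω k 3) E₁ := by
      unfold jA
      rw [← hΞd, ← hE₁, cv_subl, cv_subl]
      ring
    rw [e1, hcW]
    ring
  rw [← hv, hL]
  have hrb := E.rb hi1 hk (n.i1t.trans n.tk) n.P1 n.P2 hω W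
  rw [en_sz _ _ _ _ _ w0, en_sz _ _ _ _ _ w0] at hrb
  refine hrb.trans ?_
  rw [sz3 _ (hκ k hk 0) w0, sz3 _ (hΓ 0) w0, sz3 _ (hΓ 0) hV, w1, w3]
  -- the numbers
  have c0 := n.cT 0 (by norm_num)
  have c1 := n.cT 1 (by norm_num)
  have c2 := n.cT 2 (by norm_num)
  obtain ⟨a, ha⟩ : ∃ a, a = 2 ^ g₀ k 0 * |V (some (c 0))| := ⟨_, rfl⟩
  obtain ⟨b, hb⟩ : ∃ b, b = 2 ^ g₀ k 1 * |V (some (c 1)) - cv (gG G ω k 1) V| := ⟨_, rfl⟩
  obtain ⟨d, hd⟩ : ∃ d, d = 2 ^ g₀ k 2 * |V (some (c 2)) - cv (gG G ω k 2) V| := ⟨_, rfl⟩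
  have ha0 : 0 ≤ a := by rw [ha]; positivity
  have hb0 : 0 ≤ b := by rw [hb]; positivity
  have hd0 : 0 ≤ d := by rw [hd]; positivity
  obtain ⟨u, hu⟩ : ∃ u : ℝ, u = 2 ^ (8 * cl + 2 * X + 4) := ⟨_, rfl⟩
  have hu1 : 1 ≤ u := by rw [hu]; exact one_le_pow₀ (by norm_num)
  -- the middle component in the norm of the ball
  have g1 := st_gg E (by norm_num) hs0 hi hk (n.it.trans n.tk) c1.1 c1.2.2.2 n.m1 n.lb hω w0
  rw [w1, ← ha, ← hu, cv_subl, ← w2] at g1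
  -- the middle component in the thin norm
  obtain ⟨q, hq⟩ : ∃ q, q = min (gT i 1) (gT k 1) - cl := ⟨_, rfl⟩
  have hm1 := n.m1
  have g2 := E.tt (l := 1) (by norm_num) hi hk (n.it.trans n.tk) (q := q)
    (by omega) (by omega) hω W
  rw [en_one _ _ (hκ k hk 0) w0, cv_subl, ← w2, w1] at g2
  -- the last component
  have g3 := E.cb hk (l := 2) (by norm_num) hs2 c2.2.2.1 c2.2.2.2 hω W
  rw [en_sz _ _ _ _ _ w0, sz2 _ (hΓ 0) w0, w1, ← ha] at g3
  -- the sides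
  have s0 := E.t_rg hk (show 0 < 3 by norm_num) hs0
  have s2 := E.t_rg hk (show 2 < 3 by norm_num) hs2
  have a0 := E.ng k hk 0 (by norm_num)
  have a2 := E.ng k hk 2 (by norm_num)
  obtain ⟨R, hR⟩ : ∃ R : ℝ, R = 2 ^ (A - w k) := ⟨_, rfl⟩
  have hR0 : 0 < R := by rw [hR]; positivity
  obtain ⟨L, hLd⟩ : ∃ L : ℝ, L = 2 ^ cl := ⟨_, rfl⟩
  have hL1 : 1 ≤ L := by rw [hLd]; exact one_le_pow₀ (by norm_num)
  obtain ⟨Z, hZ⟩ : ∃ Z : ℝ, Z = 2 ^ X := ⟨_, rfl⟩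
  have hZ1 : 1 ≤ Z := by rw [hZ]; exact one_le_pow₀ (by norm_num)
  have t0 : (2 : ℝ) ^ gT k 0 ≤ R * (L * L) * 2 ^ g₀ k 0 := by
    rw [hR, hLd, ← pow_add, ← pow_add, ← pow_add]
    exact p2 (by omega)
  have t2 : (2 : ℝ) ^ gT k 2 ≤ R * (L * L) * 2 ^ g₀ k 2 := by
    rw [hR, hLd, ← pow_add, ← pow_add, ← pow_add]
    exact p2 (by omega)
  have t1 : (2 : ℝ) ^ gT k 1 * (2 ^ cl / 2 ^ q) ≤ L * L * Z := by
    rw [hLd, hZ, ← mul_div_assoc, div_le_iff₀ (by positivity), ← pow_add, ← pow_add, ← pow_add,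
      ← pow_add]
    exact p2 (by omega)
  have x0 : 2 ^ gT k 0 * |V (some (c 0))| ≤ R * (L * L) * a := by
    have h1 := mul_le_mul_of_nonneg_right t0 (abs_nonneg (V (some (c 0))))
    rw [ha]
    calc _ ≤ _ := h1
      _ = _ := by ring
  have x1 : 2 ^ gT k 1 * |W (some (c 1)) - cv (kT w TH ω k 1) W| ≤
      L * L * Z * (R * (L * L) * a) := by
    have h1 := mul_le_mul_of_nonneg_left g2 (show (0 : ℝ) ≤ 2 ^ gT k 1 by positivity)
    have h2 := mul_le_mul t1 x0 (by positivity) (by positivity)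
    calc _ ≤ _ := h1
      _ = 2 ^ gT k 1 * (2 ^ cl / 2 ^ q) * (2 ^ gT k 0 * |V (some (c 0))|) := by ring
      _ ≤ _ := h2
  have y1 : 2 ^ g₀ k 1 * |W (some (c 1)) - cv (gG G ω k 1) W| ≤ u * a := g1
  have x2 : 2 ^ gT k 2 * |W (some (c 2)) - cv (kT w TH ω k 2) W| ≤
      R * (L * L) * (d + L * (a + u * a)) := by
    have e1 : W (some (c 2)) - cv (kT w TH ω k 2) W =
        (V (some (c 2)) - cv (gG G ω k 2) V) - cv (kT w TH ω k 2 - gG G ω k 2) W := by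
      rw [cv_subl, ← w3]
      ring
    have h1 : 2 ^ g₀ k 2 * |W (some (c 2)) - cv (kT w TH ω k 2) W| ≤ d + L * (a + u * a) := by
      rw [e1]
      have h2 := mul_le_mul_of_nonneg_left (abs_sub (V (some (c 2)) - cv (gG G ω k 2) V)
        (cv (kT w TH ω k 2 - gG G ω k 2) W)) (show (0 : ℝ) ≤ 2 ^ g₀ k 2 by positivity)
      have h3 := mul_le_mul_of_nonneg_left g3 (show (0 : ℝ) ≤ 2 ^ g₀ k 2 by positivity)
      have h4 : 2 ^ g₀ k 2 * (2 ^ cl / 2 ^ g₀ k 2 * (a +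
          2 ^ g₀ k 1 * |W (some (c 1)) - cv (gG G ω k 1) W|)) =
          L * (a + 2 ^ g₀ k 1 * |W (some (c 1)) - cv (gG G ω k 1) W|) := by
        rw [hLd]
        field_simp
      rw [h4] at h3
      have h5 := mul_le_mul_of_nonneg_left y1 (show (0 : ℝ) ≤ L by linarith)
      rw [mul_add, ← hd] at h2
      linarith
    have h2 := mul_le_mul_of_nonneg_right t2
      (abs_nonneg (W (some (c 2)) - cv (kT w TH ω k 2) W))
    calc _ ≤ _ := h2
      _ = R * (L * L) * (2 ^ g₀ k 2 * |W (some (c 2)) - cv (kT w TH ω k 2) W|) := by ring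
      _ ≤ _ := mul_le_mul_of_nonneg_left h1 (by positivity)
  obtain ⟨ρ, hρ⟩ : ∃ ρ : ℝ, ρ = 1 / 2 ^ g₀ k 3 := ⟨_, rfl⟩
  have hρ0 : 0 < ρ := by rw [hρ]; positivity
  have tP : (2 : ℝ) ^ cl / 2 ^ P * R ≤ L * Z * ρ := by
    have e1 : L * Z * ρ = 2 ^ (cl + X) / 2 ^ g₀ k 3 := by
      rw [hLd, hZ, hρ, pow_add]
      ring
    rw [e1, hR, div_mul_eq_mul_div, div_le_div_iff₀ (by positivity) (by positivity), ← pow_add,
      ← pow_add, ← pow_add]
    have := n.vp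
    exact p2 (by omega)
  have e3 : (2 : ℝ) ^ cl / 2 ^ g₀ k 3 = L * ρ := by rw [hLd, hρ]; ring
  have e4 : (2 : ℝ) ^ (12 * cl + 3 * X + 8) / 2 ^ g₀ k 3 = 16 * (L * L * L * L * Z * u) * ρ := by
    rw [hLd, hZ, hu, hρ]
    have : (2 : ℝ) ^ (12 * cl + 3 * X + 8) = 16 * (2 ^ cl * 2 ^ cl * 2 ^ cl * 2 ^ cl * 2 ^ X *
        2 ^ (8 * cl + 2 * X + 4)) := by
      rw [← pow_add, ← pow_add, ← pow_add, ← pow_add, ← pow_add, show (16 : ℝ) = 2 ^ 4 by norm_num,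
        ← pow_add]
      congr 1
      ring
    rw [this]
    ring
  rw [← ha, ← hd, ← hb, e3, e4]
  have hZu : L * L * Z ≤ u := by
    rw [hLd, hZ, hu, ← pow_add, ← pow_add]
    exact p2 (by omega)
  have k1 : (2 : ℝ) ^ cl / 2 ^ P * (2 ^ gT k 0 * |V (some (c 0))| +
      2 ^ gT k 1 * |W (some (c 1)) - cv (kT w TH ω k 1) W| +
      2 ^ gT k 2 * |W (some (c 2)) - cv (kT w TH ω k 2) W|) ≤
      L * Z * ρ * (L * L * (a + u * a + (d + L * (a + u * a)))) := by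
    have h1 : 2 ^ gT k 0 * |V (some (c 0))| +
        2 ^ gT k 1 * |W (some (c 1)) - cv (kT w TH ω k 1) W| +
        2 ^ gT k 2 * |W (some (c 2)) - cv (kT w TH ω k 2) W| ≤
        R * (L * L * (a + u * a + (d + L * (a + u * a)))) := by
      have h2 : L * L * Z * (R * (L * L) * a) ≤ u * (R * (L * L) * a) :=
        mul_le_mul_of_nonneg_right hZu (by positivity)
      have h3 : R * (L * L * (a + u * a + (d + L * (a + u * a)))) =
          R * (L * L) * a + u * (R * (L * L) * a) + R * (L * L) * (d + L * (a + u * a)) := by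
        ring
      rw [h3]
      linarith
    refine (mul_le_mul_of_nonneg_left h1 (by positivity)).trans ?_
    rw [← mul_assoc]
    refine mul_le_mul_of_nonneg_right tP ?_
    positivity
  have k2 : L * ρ * (a + 2 ^ g₀ k 1 * |W (some (c 1)) - cv (gG G ω k 1) W| + d) ≤
      L * ρ * (a + u * a + d) :=
    mul_le_mul_of_nonneg_left (by linarith) (by positivity)
  refine (add_le_add k1 k2).trans ?_
  -- the last step
  obtain ⟨S, hS⟩ : ∃ S : ℝ, S = a + b + d := ⟨_, rfl⟩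
  have hS0 : 0 ≤ S := by rw [hS]; linarith
  rw [← hS]
  have f1 : a + u * a ≤ 2 * u * S := by
    have : a ≤ S := by rw [hS]; linarith
    nlinarith
  have f2 : d ≤ S := by rw [hS]; linarith
  have f3 : a + u * a + (d + L * (a + u * a)) ≤ 6 * (L * u) * S := by
    have h1 : L * (a + u * a) ≤ L * (2 * u * S) := mul_le_mul_of_nonneg_left f1 (by linarith)
    have h2 : S ≤ L * u * S := by
      have : 1 ≤ L * u := one_le_mul_of_one_le_of_one_le hL1 hu1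
      exact le_mul_of_one_le_left hS0 this
    have h3 : 2 * u * S ≤ 2 * (L * u) * S := by
      have : u ≤ L * u := le_mul_of_one_le_left (by linarith) hL1
      nlinarith
    nlinarith
  have f4 : a + u * a + d ≤ 3 * (L * u) * S := by
    have h2 : S ≤ L * u * S := by
      have : 1 ≤ L * u := one_le_mul_of_one_le_of_one_le hL1 hu1
      exact le_mul_of_one_le_left hS0 this
    have h3 : 2 * u * S ≤ 2 * (L * u) * S := by
      have : u ≤ L * u := le_mul_of_one_le_left (by linarith) hL1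
      nlinarith
    nlinarith
  have f5 : L * Z * ρ * (L * L * (a + u * a + (d + L * (a + u * a)))) ≤
      6 * (L * L * L * L * Z * u) * ρ * S := by
    calc L * Z * ρ * (L * L * (a + u * a + (d + L * (a + u * a)))) ≤
        L * Z * ρ * (L * L * (6 * (L * u) * S)) :=
          mul_le_mul_of_nonneg_left (mul_le_mul_of_nonneg_left f3 (by positivity))
            (by positivity)
      _ = _ := by ring
  have f6 : L * ρ * (a + u * a + d) ≤ 3 * (L * L * L * L * Z * u) * ρ * S := by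
    have h1 : L * ρ * (a + u * a + d) ≤ L * ρ * (3 * (L * u) * S) :=
      mul_le_mul_of_nonneg_left f4 (by positivity)
    have h2 : L * ρ * (3 * (L * u) * S) = 3 * (L * L * u) * ρ * S := by ring
    have h3 : L * L * u ≤ L * L * L * L * Z * u := by
      have : L * L * 1 ≤ L * L * (L * L * Z) := by
        refine mul_le_mul_of_nonneg_left ?_ (by positivity)
        exact one_le_mul_of_one_le_of_one_le (one_le_mul_of_one_le_of_one_le hL1 hL1) hZ1
      calc L * L * u = L * L * 1 * u := by ring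
        _ ≤ L * L * (L * L * Z) * u := mul_le_mul_of_nonneg_right this (by linarith)
        _ = _ := by ring
    have h4 : 3 * (L * L * u) * ρ * S ≤ 3 * (L * L * L * L * Z * u) * ρ * S :=
      mul_le_mul_of_nonneg_right (mul_le_mul_of_nonneg_right (by linarith) hρ0.le) hS0
    linarith
  have f7 : 0 ≤ (L * L * L * L * Z * u) * ρ * S := by positivity
  linarith

end

end Pool.TNW
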