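import Pool.Agent.H66.D2.Cru

/-!
# The critical cell, static place one: the closed gradient of the thin place

`lamR`: the closed gradient of the target. `der_row`: the derivative along the own line of the closed
slope in the static direction is the second derivative of the row label. `mu2S`, `jmu2`: the closed
gradient of the thin place two in the static direction, from the closed slope of the target.
-/

set_option autoImplicit false

namespace Pool.TNW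

open Finset Real MvPolynomial
open Pool.Agent.H49.Ent Pool.Agent.H32.Dense Pool.STK Pool.KA Pool.KSAT Pool.K2S Pool.PB Pool.S6C
open Pool.GEN Pool.CHT Pool.CHX Pool.ISO Pool.D2R Pool.D2Z Pool.D2F Pool.TN
open Pool.FLF (Fam.sub)
open Pool.PB.Trl (rt rt_mem t_rt)

variable {m J : ℕ}

/-- **The closed gradient of the target**: the row label, with the closed slope `mu` in the static
direction one. -/
noncomputable def lamR {F : Fam m J} (c : ℕ → Fin m) (t : ℕ)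
    (Φ : LnT F → MvPolynomial (Option (Fin m)) ℝ)
    (Xc : LnT F → ℕ → MvPolynomial (Option (Fin m)) ℝ) (mu : LnT F → Polynomial ℝ) (s : LnT F)
    (j : ℕ) : Polynomial ℝ :=
  if j = 0 then kpol c t Φ s 0 - kpol c t (fun s => Xc s 1) s 0 * mu s
  else if j = 1 then kpol c t Φ s 1 + mu s else kpol c t Φ s j

theorem lamR_deg {F : Fam m J} (c : ℕ → Fin m) (t : ℕ)
    {Φ : LnT F → MvPolynomial (Option (Fin m)) ℝ}
    {Xc : LnT F → ℕ → MvPolynomial (Option (Fin m)) ℝ} {mu : LnT F → Polynomial ℝ} {D D₁ : ℕ}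
    (hΦ : ∀ s, (Φ s).totalDegree ≤ D) (hX : ∀ s l, (Xc s l).totalDegree ≤ D)
    (hmu : ∀ s, (mu s).natDegree ≤ D₁) (s : LnT F) (j : ℕ) :
    (lamR c t Φ Xc mu s j).natDegree ≤ D + D₁ := by
  have h1 := fun j => kpol_deg (F := F) c t hΦ s j
  have h2 := kpol_deg (F := F) c t (fun s => hX s 1) s 0
  have h3 := hmu s
  unfold lamR
  split_ifs
  · refine (Polynomial.natDegree_sub_le _ _).trans (max_le ?_
      (Polynomial.natDegree_mul_le.trans ?_))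
    · have := h1 0
      omega
    · omega
  · refine (Polynomial.natDegree_add_le _ _).trans (max_le ?_ ?_)
    · have := h1 1
      omega
    · omega
  · have := h1 j
    omega

/-- **The derivative of the closed slope** in the static direction one. -/
theorem der_row (m D D₁ : ℕ) (hD : 1 ≤ D) : ∃ C : ℕ, 1 ≤ C ∧ ∀ {J : ℕ} {F : Fam m J}
    {c : ℕ → Fin m} {Dr N M A cl : ℕ} {Sc : ℕ → Prop} {w e h pp : ℕ → ℕ}
    {z g gc gT g₀ : ℕ → ℕ → ℕ} {κ θ : ℝ} {B : F.Ω → Prop}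
    {G : ℕ → PtT F → ℕ → MvPolynomial (Option (Fin m)) ℝ}
    {H : ℕ → LnT F → ℕ → MvPolynomial (Option (Fin m)) ℝ}
    {T : ℕ → PtT F → ℕ → MvPolynomial (Option (Fin m)) ℝ}
    {TH : ℕ → LnT F → ℕ → MvPolynomial (Option (Fin m)) ℝ}
    {Gt : ℕ → PtT F → MvPolynomial (Option (Fin m)) ℝ}
    {Ht : ℕ → LnT F → MvPolynomial (Option (Fin m)) ℝ},
    CEv F c 3 D Dr N M A cl Sc w e h pp z g gc gT g₀ κ B G H T TH Gt Ht →
    ∀ {X Y f d₂ i i₁ t k P : ℕ}, ¬ Sc 0 → Sc 1 → ¬ Sc 2 →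
    JNum N A cl X f d₂ w pp gc gT g₀ i i₁ t k P 2 1 →
    ∀ (hB : 0 < Pe F.p B), 0 ≤ θ → (Fam.sub F B hB).Tm θ →
    C * (θ + 1) ≤ ((J : ℝ) - w k) * Real.log 2 → Real.exp (C * (θ + 1)) ≤ 2 ^ cl →
    ∀ {mu : LnT F → Polynomial ℝ}, (∀ s, (mu s).natDegree ≤ D₁) →
    (∀ ω, B ω → |jA c Sc w G TH Ht i i₁ k 1 ω - (mu (slam F (w t) ω)).eval (rt F (w t) ω)| ≤
      2 ^ Y * (2 ^ g₀ k 1 / 2 ^ g₀ k 3)) →
    ∃ B' : F.Ω → Prop, Sub B' B ∧ Pe F.p B / 2 ≤ Pe F.p B' ∧ ∀ ω, B' ω →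
      |hs (Ht i₁ (slam F (w i₁) ω)) (bt F ω) (bd F ω)
          (ev c 3 (mx Sc (kT w TH ω i) (gG G ω k)) 1) +
        2 ^ w t * (Polynomial.derivative (mu (slam F (w t) ω))).eval (rt F (w t) ω)| ≤
      2 ^ (C * (cl + X + Y + 1)) * (2 ^ (w k + g₀ k 1) / 2 ^ g₀ k 3) := by
  classical
  obtain ⟨C₁, hC₁, hder⟩ := Pool.D2T.der_of m D (D + D₁) 3 hD
  refine ⟨20 * C₁, by omega, ?_⟩
  intro J F c Dr N M A cl Sc w e h pp z g gc gT g₀ κ θ B G H T TH Gt Ht E X Y f d₂ i i₁ t k P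
    hs0 hs1 hs2 n hB hθ hTm hJ hexp mu hmd hmu
  have hi := n.iN
  have hi1 := n.i1N
  have ht := n.tN
  have hk := n.kN
  have htJ : w t ≤ J := (E.wA t ht).trans E.AJ
  have hkJ : w k ≤ J := (E.wA k hk).trans E.AJ
  have hc : Set.InjOn c (Set.Iio 3) := E.inj.mono (Set.Iio_subset_Iio (by norm_num))
  have hΓ : ∀ ω l, CvC c l (gG G ω k l) := fun ω l => cvc_grd ((E.evs k hk).ball.depG _ l) _
  have hκ : ∀ ω, ∀ l, CvC c l (kT w TH ω i l) := fun ω l =>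
    cvc_grd ((E.evs i hi).thin.depH _ l) _
  obtain ⟨Φ, hΦ⟩ : ∃ Φ : LnT F → MvPolynomial (Option (Fin m)) ℝ,
    Φ = fun s => Ht i₁ (co (w t - w i₁) s) := ⟨_, rfl⟩
  have hΦd : ∀ s, DepC c 3 (Φ s) := fun s => by
    rw [hΦ]
    exact (E.evs i₁ hi1).pH _
  have hΦs : ∀ ω, Φ (slam F (w t) ω) = Ht i₁ (slam F (w i₁) ω) := fun ω => by
    rw [hΦ]
    show Ht i₁ (co (w t - w i₁) (slam F (w t) ω)) = _
    rw [co_slam F n.i1t htJ]
  have hXs : ∀ ω, Xcf w TH Sc i t (slam F (w t) ω) 1 = TH i (slam F (w i) ω) 1 := fun ω => by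
    unfold Xcf
    rw [if_pos hs1, co_slam F n.it htJ]
  obtain ⟨q, hq⟩ : ∃ q, q = 12 * cl + 3 * X + Y + 10 := ⟨_, rfl⟩
  have hC1R : (1 : ℝ) ≤ C₁ := by exact_mod_cast hC₁
  have hθ1 : 0 ≤ θ + 1 := by linarith
  have hCC : (C₁ : ℝ) * (θ + 1) ≤ ((20 * C₁ : ℕ) : ℝ) * (θ + 1) := by
    refine mul_le_mul_of_nonneg_right ?_ hθ1
    push_cast
    linarith
  have hnr : ∀ ω (l : ℕ) (V : Option (Fin m) → ℝ), nrm c (G k (ptr F J ω)) (g₀ k) (w k) l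
      (bt F ω) V = en c (g₀ k) (w k) (gG G ω k) l V := fun ω l V => nrm_en _ _ _ _ _ _ _
  obtain ⟨B', b1, b2, b3⟩ := hder (F := F) (c := c) (w := w t) (a := w k) (k := q) (θ := θ)
    (Y := 2 ^ q) (g := g₀ k) (B := B) (G := G k) (H := H k)
    (lam := lamR c (w t) Φ (Xcf w TH Sc i t) mu) hB E.inj n.tk hkJ
    (by
      calc (2 : ℝ) = 2 ^ 1 := (pow_one 2).symm
        _ ≤ 2 ^ q := p2 (by omega)) le_rfl hθ hTm (hCC.trans hJ)
    ((Real.exp_le_exp.2 hCC).trans (hexp.trans (p2 (by omega))))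
    (fun s l => (E.evs k hk).ball.degH s l) (fun s l => (E.evs k hk).ball.depH s l)
    (fun ω hω l hl => by
      have h4 := (E.row k hk k hk le_rfl 0 (by have := n.pk; omega)
        (by have := n.ck; omega)).dif ω hω l hl
      refine ⟨fun V => (h4.1 V).trans (mul_le_mul_of_nonneg_right
        (div_le_div_of_nonneg_right (p2 (by omega)) (by positivity))
        (nrm_nonneg _ _ _ _ _ _ _)), fun V V' Z => (h4.2 V V' Z).trans
        (mul_le_mul_of_nonneg_right (div_le_div_of_nonneg_right (p2 (by omega))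
        (by positivity)) (add_nonneg (mul_nonneg (nrm_nonneg _ _ _ _ _ _ _)
        (nrm_nonneg _ _ _ _ _ _ _)) (nrz_nonneg _ _ _ _ _ _ _ _ _)))⟩)
    (fun ω hω => by
      rw [hnr]
      exact ((E.bdG hk n.pk n.ck hω).2 3 le_rfl).trans
        (mul_le_mul_of_nonneg_right ((one_r 3 cl).trans (p2 (by omega))) (by positivity)))
    (fun ω hω l hl V => by
      have h4 := E.hG hk n.pk n.ck hω hl V
      rw [hnr]
      refine h4.trans (mul_le_mul_of_nonneg_right ?_ (en_nonneg _ _ _ _ _ _))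
      rw [mul_div_assoc]
      exact mul_le_mul_of_nonneg_right (p2 (by omega)) (by positivity))
    (fun s l => lamR_deg c (w t) (fun s => by rw [hΦ]; exact (E.evs i₁ hi1).dH _)
      (fun s l => by
        unfold Xcf
        split_ifs
        · exact deg_TH E hi _ l
        · exact deg_TH E ht _ l) hmd s l)
    (fun ω hω V hV => by
      have c1 := n.cT 1 (by norm_num)
      have h1 := row_tr E hs0 hs1 hs2 n hω hV
      have h2 := st_dir E hs0 hi hk (n.it.trans n.tk) c1.1 c1.2.2.2 n.m1 n.lb hω hV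
      have h3 := hmu ω hω
      rw [hnr, en_sz _ _ _ _ _ hV]
      have hkap : cv (kT w TH ω i 1) V = kT w TH ω i 1 (some (c 0)) * V (some (c 0)) := by
        rw [cv_eq (hc.mono (Set.Iio_subset_Iio (by norm_num))) (hκ ω 1), hV, mul_zero, zero_add,
          Finset.sum_range_one]
      have e1 : ∑ l ∈ range 3, (lamR c (w t) Φ (Xcf w TH Sc i t) mu (slam F (w t) ω) l).eval
          (rt F (w t) ω) * V (some (c l)) - dd (G k (ptr F J ω) 3) (bt F ω) V =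
          (cv (grd (Ht i₁ (slam F (w i₁) ω)) (bt F ω) - gG G ω k 3) V +
            (V (some (c 1)) - cv (kT w TH ω i 1) V) * jA c Sc w G TH Ht i i₁ k 1 ω) -
          (V (some (c 1)) - cv (kT w TH ω i 1) V) * (jA c Sc w G TH Ht i i₁ k 1 ω -
            (mu (slam F (w t) ω)).eval (rt F (w t) ω)) := by
        have k1 : cv (grd (Ht i₁ (slam F (w i₁) ω)) (bt F ω) - gG G ω k 3) V =
            (grd (Φ (slam F (w t) ω)) (bt F ω) (some (c 0)) * V (some (c 0)) +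
            grd (Φ (slam F (w t) ω)) (bt F ω) (some (c 1)) * V (some (c 1)) +
            grd (Φ (slam F (w t) ω)) (bt F ω) (some (c 2)) * V (some (c 2))) -
            dd (G k (ptr F J ω) 3) (bt F ω) V := by
          rw [cv_subl, ← hΦs, cv_eq hc (cvc_grd (hΦd _) _), hV, mul_zero, zero_add,
            Finset.sum_range_succ, Finset.sum_range_succ, Finset.sum_range_one]
          unfold gG
          rw [cv_grd]
        rw [k1, hkap, Finset.sum_range_succ, Finset.sum_range_succ, Finset.sum_range_one]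
        unfold lamR
        rw [if_pos rfl, if_neg (by norm_num), if_pos rfl, if_neg (by norm_num),
          if_neg (by norm_num), Polynomial.eval_sub, Polynomial.eval_mul, Polynomial.eval_add,
          kpol_rt F c htJ, kpol_rt F c htJ, kpol_rt F c htJ, kpol_rt F c htJ, hXs]
        unfold kT
        ring
      rw [e1]
      refine (abs_sub _ _).trans ?_
      rw [abs_mul]
      obtain ⟨S, hS⟩ : ∃ S, S = Pool.TN.sz c (g₀ k) (gG G ω k) 3 V := ⟨_, rfl⟩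
      have hS0 : 0 ≤ S := by rw [hS]; exact sz_nonneg _ _ _ _ _
      rw [← hS] at h1 h2 ⊢
      have h4 : |V (some (c 1)) - cv (kT w TH ω i 1) V| *
          |jA c Sc w G TH Ht i i₁ k 1 ω - (mu (slam F (w t) ω)).eval (rt F (w t) ω)| ≤
          2 ^ (8 * cl + 2 * X + 5 + Y) / 2 ^ g₀ k 3 * S := by
        refine (mul_le_mul_of_nonneg_left h3 (abs_nonneg _)).trans ?_
        have e2 : |V (some (c 1)) - cv (kT w TH ω i 1) V| *
            (2 ^ Y * (2 ^ g₀ k 1 / 2 ^ g₀ k 3)) = 2 ^ Y / 2 ^ g₀ k 3 *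
            (2 ^ g₀ k 1 * |V (some (c 1)) - cv (kT w TH ω i 1) V|) := by ring
        rw [e2]
        refine (mul_le_mul_of_nonneg_left h2 (by positivity)).trans (le_of_eq ?_)
        rw [pow_add 2 (8 * cl + 2 * X + 5) Y]
        ring
      have h5 : (2 : ℝ) ^ (12 * cl + 3 * X + 8) + 2 ^ (8 * cl + 2 * X + 5 + Y) ≤ 2 ^ q := by
        have a1 : (2 : ℝ) ^ (12 * cl + 3 * X + 8) ≤ 2 ^ (12 * cl + 3 * X + Y + 9) :=
          p2 (by omega)
        have a2 : (2 : ℝ) ^ (8 * cl + 2 * X + 5 + Y) ≤ 2 ^ (12 * cl + 3 * X + Y + 9) :=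
          p2 (by omega)
        have a3 : (2 : ℝ) ^ q = 2 * 2 ^ (12 * cl + 3 * X + Y + 9) := by
          rw [hq, show 12 * cl + 3 * X + Y + 10 = (12 * cl + 3 * X + Y + 9) + 1 by ring, pow_succ]
          ring
        linarith
      refine (add_le_add h1 h4).trans ?_
      rw [← add_mul, ← add_div]
      exact mul_le_mul_of_nonneg_right (div_le_div_of_nonneg_right h5 (by positivity)) hS0)
  refine ⟨B', b1, b2, fun ω hω => ?_⟩
  have hωB := b1 ω hω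
  obtain ⟨Ξ, hΞd⟩ : ∃ Ξ, Ξ = mx Sc (kT w TH ω i) (gG G ω k) := ⟨_, rfl⟩
  have hΞ : ∀ l, CvC c l (Ξ l) := fun l => by rw [hΞd]; exact mx_cvc (hκ ω) (hΓ ω) l
  have hΞ2 : Ξ 2 = gG G ω k 2 := by rw [hΞd]; exact mx_neg hs2
  obtain ⟨E₁, hE₁⟩ : ∃ E₁, E₁ = ev c 3 Ξ 1 := ⟨_, rfl⟩
  have v0 : E₁ none = 0 := by rw [hE₁]; exact ev_none _ _ _ _
  have v1 : E₁ (some (c 0)) = 0 := by
    rw [hE₁]; exact ev_low hc hΞ 0 (by norm_num) (by norm_num)
  have v2 : E₁ (some (c 1)) = 1 := by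
    rw [hE₁]; exact ev_eq hc hΞ (by norm_num)
  have v3 : E₁ (some (c 2)) - cv (gG G ω k 2) E₁ = 0 := by
    have h := ev_comp hc hΞ 1 (show 2 < 3 by norm_num)
    rw [if_neg (by norm_num), hΞ2, ← hE₁] at h
    exact h
  have h1 := b3 ω hω E₁ v0
  rw [← hΞd, ← hE₁]
  have h2 := kpol_hs F hc htJ hΦd ω v0
  rw [Finset.sum_range_succ, Finset.sum_range_succ, Finset.sum_range_one, v1, v2, mul_zero,
    zero_add, mul_one, hΦs] at h2
  rw [Finset.sum_range_succ, Finset.sum_range_succ, Finset.sum_range_one, v1, v2, mul_zero,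
    zero_add, mul_one] at h1
  have e1 : (Polynomial.derivative (lamR c (w t) Φ (Xcf w TH Sc i t) mu (slam F (w t) ω)
      1)).eval (rt F (w t) ω) = (Polynomial.derivative (kpol c (w t) Φ (slam F (w t) ω)
      1)).eval (rt F (w t) ω) + (Polynomial.derivative (mu (slam F (w t) ω))).eval
      (rt F (w t) ω) := by
    unfold lamR
    rw [if_neg (by norm_num), if_pos rfl, Polynomial.derivative_add, Polynomial.eval_add]
  have e2 : lamR c (w t) Φ (Xcf w TH Sc i t) mu (slam F (w t) ω) 2 =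
      kpol c (w t) Φ (slam F (w t) ω) 2 := by
    unfold lamR
    rw [if_neg (by norm_num), if_neg (by norm_num)]
  rw [e1, e2] at h1
  have hcv1 : cv (gG G ω k 1) E₁ = 0 := by
    rw [cv_eq (hc.mono (Set.Iio_subset_Iio (by norm_num))) (hΓ ω 1), v0, mul_zero, zero_add,
      Finset.sum_range_one, v1, mul_zero]
  have hsz : nrm c (G k (ptr F J ω)) (g₀ k) (w k) 3 (bt F ω) E₁ = 2 ^ g₀ k 1 := by
    rw [hnr, en_sz _ _ _ _ _ v0, sz3 _ (hΓ ω 0) v0, v1, v3, hcv1, v2]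
    simp
  rw [hsz] at h1
  obtain ⟨τ, hτ⟩ : ∃ τ : ℝ, τ = 2 ^ w t := ⟨_, rfl⟩
  have hτ0 : 0 < τ := by rw [hτ]; positivity
  obtain ⟨x, hx⟩ : ∃ x, x = hs (Ht i₁ (slam F (w i₁) ω)) (bt F ω) (bd F ω) E₁ := ⟨_, rfl⟩
  obtain ⟨y, hy⟩ : ∃ y, y = (Polynomial.derivative (mu (slam F (w t) ω))).eval (rt F (w t) ω) :=
    ⟨_, rfl⟩
  rw [← hx, ← hτ] at h2
  rw [← hy] at h1
  rw [← hx, ← hy, ← hτ]
  have e3 : x + τ * y = τ * ((Polynomial.derivative (kpol c (w t) Φ (slam F (w t) ω) 1)).eval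
      (rt F (w t) ω) + y + (Polynomial.derivative (kpol c (w t) Φ (slam F (w t) ω) 2)).eval
      (rt F (w t) ω) * E₁ (some (c 2))) := by
    have : x = τ * (1 / τ * x) := by field_simp
    rw [this, ← h2]
    ring
  rw [e3, abs_mul, abs_of_pos hτ0]
  refine (mul_le_mul_of_nonneg_left h1 hτ0.le).trans ?_
  have e4 : τ * (2 ^ (w k - w t) * (2 ^ (C₁ * (q + 1)) / 2 ^ g₀ k 3 * 2 ^ g₀ k 1)) =
      2 ^ (C₁ * (q + 1)) * (2 ^ (w k + g₀ k 1) / 2 ^ g₀ k 3) := by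
    have e5 : τ * 2 ^ (w k - w t) = (2 : ℝ) ^ w k := by
      rw [hτ, ← pow_add]
      congr 1
      have := n.tk
      omega
    rw [pow_add 2 (w k), ← e5]
    ring
  rw [e4]
  refine mul_le_mul_of_nonneg_right (p2 ?_) (by positivity)
  have e6 : 20 * C₁ * (cl + X + Y + 1) = C₁ * (20 * (cl + X + Y + 1)) := by ring
  rw [e6]
  exact Nat.mul_le_mul_left _ (by omega)

/-- **The closed gradient of the thin place two** in the static direction one. -/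
noncomputable def mu2S {F : Fam m J} (c : ℕ → Fin m) (t : ℕ)
    (Φ : LnT F → MvPolynomial (Option (Fin m)) ℝ)
    (Xc : LnT F → ℕ → MvPolynomial (Option (Fin m)) ℝ) (mu : LnT F → Polynomial ℝ) (s : LnT F) :
    Polynomial ℝ :=
  kpol c t (fun s => Xc s 2) s 1 + Polynomial.C (((jL c t 1 2 Φ Xc mu s).eval 0)⁻¹) *
    (Polynomial.C (-2 ^ t) * Polynomial.derivative (mu s) - zp c 3 t Φ Xc 1 s)

theorem mu2S_deg {F : Fam m J} (c : ℕ → Fin m) (t : ℕ)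
    {Φ : LnT F → MvPolynomial (Option (Fin m)) ℝ}
    {Xc : LnT F → ℕ → MvPolynomial (Option (Fin m)) ℝ} {mu : LnT F → Polynomial ℝ} {D D₁ : ℕ}
    (hΦ : ∀ s, (Φ s).totalDegree ≤ D) (hX : ∀ s l, (Xc s l).totalDegree ≤ D)
    (hmu : ∀ s, (mu s).natDegree ≤ D₁) (s : LnT F) :
    (mu2S c t Φ Xc mu s).natDegree ≤ D₁ + 4 * D := by
  have h1 := kpol_deg (F := F) c t (fun s => hX s 2) s 1
  have h2 := zp_deg c 3 t hΦ hX 1 s
  have h3 := (Polynomial.natDegree_derivative_le (mu s)).trans (Nat.sub_le _ _)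
  have h4 := hmu s
  have h5 : D * (3 + 1) = 4 * D := by ring
  unfold mu2S
  refine (Polynomial.natDegree_add_le _ _).trans (max_le (by omega)
    ((Polynomial.natDegree_C_mul_le _ _).trans ((Polynomial.natDegree_sub_le _ _).trans
    (max_le ((Polynomial.natDegree_C_mul_le _ _).trans ?_) ?_))))
  · omega
  · omega

/-- **The closed gradient of the thin place two** in the static direction one, at one sample. -/
theorem jmu2 (D : ℕ) : ∃ C : ℕ, 1 ≤ C ∧ ∀ {m J : ℕ} {F : Fam m J} {c : ℕ → Fin m}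
    {Dr N M A cl : ℕ} {Sc : ℕ → Prop} {w e h pp : ℕ → ℕ} {z g gc gT g₀ : ℕ → ℕ → ℕ} {κ : ℝ}
    {B : F.Ω → Prop} {G : ℕ → PtT F → ℕ → MvPolynomial (Option (Fin m)) ℝ}
    {H : ℕ → LnT F → ℕ → MvPolynomial (Option (Fin m)) ℝ}
    {T : ℕ → PtT F → ℕ → MvPolynomial (Option (Fin m)) ℝ}
    {TH : ℕ → LnT F → ℕ → MvPolynomial (Option (Fin m)) ℝ}
    {Gt : ℕ → PtT F → MvPolynomial (Option (Fin m)) ℝ}
    {Ht : ℕ → LnT F → MvPolynomial (Option (Fin m)) ℝ},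
    CEv F c 3 D Dr N M A cl Sc w e h pp z g gc gT g₀ κ B G H T TH Gt Ht →
    ∀ {X Y f dd i i₁ t k P : ℕ}, ¬ Sc 0 → Sc 1 → ¬ Sc 2 →
    JNum N A cl X f dd w pp gc gT g₀ i i₁ t k P 2 1 →
    (∃ q ≤ M, z t q = w k - w t) → g₀ t 1 + (w k - w t) ≤ g₀ k 1 + X →
    ∀ {mu : LnT F → Polynomial ℝ} {ω : F.Ω}, B ω →
    |hs (Ht i₁ (slam F (w i₁) ω)) (bt F ω) (bd F ω)
          (ev c 3 (mx Sc (kT w TH ω i) (gG G ω k)) 1) +
        2 ^ w t * (Polynomial.derivative (mu (slam F (w t) ω))).eval (rt F (w t) ω)| ≤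
      2 ^ Y * (2 ^ (w k + g₀ k 1) / 2 ^ g₀ k 3) →
    2 ^ (w k + g₀ k 2) / 2 ^ (g₀ k 3 + dd) ≤ |jZ c Sc w G TH Ht i i₁ k 1 2 ω| →
    |(jL c (w t) 1 2 (fun s => Ht i₁ (co (w t - w i₁) s)) (Xcf w TH Sc i t) mu
        (slam F (w t) ω)).eval (rt F (w t) ω) -
      (jL c (w t) 1 2 (fun s => Ht i₁ (co (w t - w i₁) s)) (Xcf w TH Sc i t) mu
        (slam F (w t) ω)).eval 0| ≤ 2 ^ (w k + g₀ k 2) / 2 ^ (g₀ k 3 + dd + f + 2) →
    |gG G ω k 2 (some (c 1)) - (mu2S c (w t) (fun s => Ht i₁ (co (w t - w i₁) s))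
        (Xcf w TH Sc i t) mu (slam F (w t) ω)).eval (rt F (w t) ω)| ≤
      2 ^ (C * (cl + X + 1) + Y + dd) * (2 ^ g₀ k 1 / 2 ^ g₀ k 2) := by
  obtain ⟨C₃, hbal⟩ := bale_dd D 3
  refine ⟨C₃ + 10, by omega, ?_⟩
  intro m J F c Dr N M A cl Sc w e h pp z g gc gT g₀ κ B G H T TH Gt Ht E X Y f dd i i₁ t k P
    hs0 hs1 hs2 n ⟨zq, hzq, hzz⟩ hg1 mu ω hω hder hbig hvar
  have hi := n.iN
  have hi1 := n.i1N
  have ht := n.tN
  have hk := n.kN
  have htJ : w t ≤ J := (E.wA t ht).trans E.AJ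
  have hc : Set.InjOn c (Set.Iio 3) := E.inj.mono (Set.Iio_subset_Iio (by norm_num))
  have hΓ : ∀ i ≤ N, ∀ l, CvC c l (gG G ω i l) := fun i hi l =>
    cvc_grd ((E.evs i hi).ball.depG _ l) _
  have hκ : ∀ j ≤ N, ∀ l, CvC c l (kT w TH ω j l) := fun j hj l =>
    cvc_grd ((E.evs j hj).thin.depH _ l) _
  -- the two frames
  obtain ⟨Ξ, hΞd⟩ : ∃ Ξ, Ξ = mx Sc (kT w TH ω i) (gG G ω k) := ⟨_, rfl⟩
  obtain ⟨Ξ', hΞd'⟩ : ∃ Ξ', Ξ' = mx Sc (kT w TH ω i) (kT w TH ω t) := ⟨_, rfl⟩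
  have hΞ : ∀ l, CvC c l (Ξ l) := fun l => by rw [hΞd]; exact mx_cvc (hκ i hi) (hΓ k hk) l
  have hΞ' : ∀ l, CvC c l (Ξ' l) := fun l => by rw [hΞd']; exact mx_cvc (hκ i hi) (hκ t ht) l
  have hXc : kc (w t) (Xcf w TH Sc i t) ω = Ξ' := by rw [kc_Xcf n.it htJ, hΞd']
  have hdiff : ∀ l < 3, l ≠ 2 → ∀ V : Option (Fin m) → ℝ, V none = 0 →
      cv (Ξ l) V = cv (Ξ' l) V := by
    intro l hl hlj V hV
    by_cases hls : l = 1
    · rw [hΞd, hΞd', hls, mx_pos hs1, mx_pos hs1]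
    · have : l = 0 := by omega
      subst this
      rw [cv_c0 (hΞ 0) hV, cv_c0 (hΞ' 0) hV]
  have hΞ2 : Ξ 2 = gG G ω k 2 := by rw [hΞd]; exact mx_neg hs2
  have hΞ'2 : Ξ' 2 = kT w TH ω t 2 := by rw [hΞd']; exact mx_neg hs2
  obtain ⟨Q₁, hQ₁⟩ : ∃ Q, Q = Ht i₁ (slam F (w i₁) ω) := ⟨_, rfl⟩
  have hQ1d : DepC c 3 Q₁ := by rw [hQ₁]; exact (E.evs i₁ hi1).pH _
  obtain ⟨Φ, hΦ⟩ : ∃ Φ : LnT F → MvPolynomial (Option (Fin m)) ℝ,
    Φ = fun s => Ht i₁ (co (w t - w i₁) s) := ⟨_, rfl⟩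
  have hΦd : ∀ s, DepC c 3 (Φ s) := fun s => by
    rw [hΦ]
    exact (E.evs i₁ hi1).pH _
  have hΦs : Φ (slam F (w t) ω) = Q₁ := by
    rw [hΦ, hQ₁]
    show Ht i₁ (co (w t - w i₁) (slam F (w t) ω)) = _
    rw [co_slam F n.i1t htJ]
  rw [← hΦ] at hvar ⊢
  -- the vector of the place one
  obtain ⟨V, hVd⟩ : ∃ V, V = ev c 3 Ξ' 1 := ⟨_, rfl⟩
  have v0 : V none = 0 := by rw [hVd]; exact ev_none _ _ _ _
  have v1 : V (some (c 0)) = 0 := by
    rw [hVd]; exact ev_low hc hΞ' 0 (by norm_num) (by norm_num)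
  have v2 : V (some (c 1)) = 1 := by
    rw [hVd]; exact ev_eq hc hΞ' (by norm_num)
  have hcv1 : ∀ W : Option (Fin m) → ℝ, CvC c 1 W → cv W V = 0 := fun W hW => by
    rw [cv_eq (hc.mono (Set.Iio_subset_Iio (by norm_num))) hW, v0, mul_zero, zero_add,
      Finset.sum_range_one, v1, mul_zero]
  have hcv2 : ∀ W : Option (Fin m) → ℝ, CvC c 2 W → cv W V = W (some (c 1)) := fun W hW => by
    rw [cv_eq (hc.mono (Set.Iio_subset_Iio (by norm_num))) hW, v0, mul_zero, zero_add,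
      Finset.sum_range_succ, Finset.sum_range_one, v1, v2, mul_zero, zero_add, mul_one]
  have hsz : ∀ i ≤ N, Pool.TN.sz c (g₀ i) (gG G ω i) 2 V = 2 ^ g₀ i 1 := fun i hi => by
    rw [sz2 _ (hΓ i hi 0) v0, v1, v2, hcv1 _ (hΓ i hi 1)]
    simp
  obtain ⟨R, hR⟩ : ∃ R : ℝ, R = 2 ^ g₀ k 1 / 2 ^ (g₀ t 2 + (w k - w t)) := ⟨_, rfl⟩
  have hR0 : 0 < R := by rw [hR]; positivity
  -- the chart of the window against the ball
  have hγ : |cv (Ξ 2 - Ξ' 2) V| ≤ 2 ^ (C₃ + 2 * cl + X + 1) * R := by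
    have c2 := n.cT 2 (by norm_num)
    have s2 := E.t_rg ht (show 2 < 3 by norm_num) hs2
    have g1 := E.cb ht (l := 2) (by norm_num) hs2 c2.2.1 (by rw [← s2]; exact c2.2.1) hω V
    rw [en_sz _ _ _ _ _ v0, hsz t ht] at g1
    have g2 := hbal hc E.bal (by positivity) ht hk hzq n.tk hzz
      (fun y l => (E.evs t ht).ball.degG y l) (fun y l => (E.evs t ht).ball.depG y l)
      (E.evs k hk).ball ω hω 2 (by norm_num) V
    rw [nrm_en] at g2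
    have g3 : |cv (gG G ω t 2 - gG G ω k 2) V| ≤ 2 ^ C₃ * 2 ^ cl /
        2 ^ min (g t 2 + (w k - w t)) (g₀ k 2) * 2 ^ g₀ k 1 := by
      rw [← hsz k hk, ← en_sz c (g₀ k) (w k) (gG G ω k) 2 v0]
      unfold gG
      rw [cv_subl, cv_grd, cv_grd]
      exact g2
    have e1 : cv (Ξ 2 - Ξ' 2) V = -(cv (kT w TH ω t 2 - gG G ω t 2) V +
        cv (gG G ω t 2 - gG G ω k 2) V) := by
      rw [hΞ2, hΞ'2, cv_subl, cv_subl, cv_subl]
      ring
    rw [e1, abs_neg]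
    refine (abs_add_le _ _).trans ?_
    have a2 := E.ng t ht 2 (by norm_num)
    have hmj := n.mj
    have f1 : (2 : ℝ) ^ cl / 2 ^ g₀ t 2 * 2 ^ g₀ t 1 ≤ 2 ^ (C₃ + 2 * cl + X) * R := by
      rw [hR, div_mul_eq_mul_div, ← mul_div_assoc, div_le_div_iff₀ (by positivity)
        (by positivity), ← pow_add, ← pow_add, ← pow_add, ← pow_add]
      exact p2 (by omega)
    have f2 : (2 : ℝ) ^ C₃ * 2 ^ cl / 2 ^ min (g t 2 + (w k - w t)) (g₀ k 2) * 2 ^ g₀ k 1 ≤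
        2 ^ (C₃ + 2 * cl + X) * R := by
      obtain ⟨mn, hmn⟩ : ∃ mn, mn = min (g t 2 + (w k - w t)) (g₀ k 2) := ⟨_, rfl⟩
      rw [← hmn, hR, div_mul_eq_mul_div, ← mul_div_assoc, div_le_div_iff₀ (by positivity)
        (by positivity), ← pow_add, ← pow_add, ← pow_add, ← pow_add, ← pow_add]
      exact p2 (by omega)
    have f3 : (2 : ℝ) ^ (C₃ + 2 * cl + X + 1) * R = 2 ^ (C₃ + 2 * cl + X) * R +
        2 ^ (C₃ + 2 * cl + X) * R := by
      rw [pow_succ]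
      ring
    rw [f3]
    exact add_le_add (g1.trans f1) (g3.trans f2)
  -- the closed polynomials
  have ez1 : ∀ x, (zp c 3 (w t) Φ (Xcf w TH Sc i t) x (slam F (w t) ω)).eval (rt F (w t) ω) =
      hs Q₁ (bt F ω) (bd F ω) (ev c 3 Ξ' x) := fun x => by
    rw [zp_rt hc htJ hΦd (fun s l => dep_Xcf E hi ht s l), hXc, hΦs]
  have hj2 : hs Q₁ (bt F ω) (bd F ω) (ev c 3 Ξ' 2) = hs Q₁ (bt F ω) (bd F ω) (ev c 3 Ξ 2) :=
    hs_agr hc hQ1d _ _ (ev_none _ _ _ _) (ev_none _ _ _ _) fun l hl =>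
      (ev_chg_j hc hΞ hΞ' (by norm_num) hdiff l hl).symm
  have ejL : (jL c (w t) 1 2 Φ (Xcf w TH Sc i t) mu (slam F (w t) ω)).eval (rt F (w t) ω) =
      hs Q₁ (bt F ω) (bd F ω) (ev c 3 Ξ 2) := by
    unfold jL
    have hz : (zp c 3 (w t) (fun s => Xcf w TH Sc i t s 1) (Xcf w TH Sc i t) 2
        (slam F (w t) ω)).eval (rt F (w t) ω) = 0 := by
      rw [zp_rt hc htJ (fun s => (dep_Xcf E hi ht s 1).mono (by norm_num))
        (fun s l => dep_Xcf E hi ht s l), hXc]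
      exact hs_zero_ev hc (l := 1) (by norm_num) hΞ' (by norm_num) (dep_Xcf E hi ht _ 1) _ _
    rw [Polynomial.eval_sub, Polynomial.eval_mul, ez1, hz, mul_zero, sub_zero, hj2]
  have hjZ : jZ c Sc w G TH Ht i i₁ k 1 2 ω = hs Q₁ (bt F ω) (bd F ω) (ev c 3 Ξ 2) := by
    unfold jZ
    rw [hs_zero_ev hc (l := 1) (by norm_num) (fun l => mx_cvc (hκ i hi) (hΓ k hk) l)
      (by norm_num) (dep_TH E hi _ 1), mul_zero, sub_zero, ← hΞd, hQ₁]
  rw [ejL] at hvar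
  rw [hjZ] at hbig
  rw [← hQ₁, ← hΞd] at hder
  obtain ⟨L0, hL0⟩ : ∃ L0, L0 = (jL c (w t) 1 2 Φ (Xcf w TH Sc i t) mu
    (slam F (w t) ω)).eval 0 := ⟨_, rfl⟩
  rw [← hL0] at hvar
  obtain ⟨y, hy⟩ : ∃ y, y = (Polynomial.derivative (mu (slam F (w t) ω))).eval (rt F (w t) ω) :=
    ⟨_, rfl⟩
  rw [← hy] at hder
  have hmu2 : (mu2S c (w t) Φ (Xcf w TH Sc i t) mu (slam F (w t) ω)).eval (rt F (w t) ω) =
      kT w TH ω t 2 (some (c 1)) + L0⁻¹ * ((-2 ^ w t * y) * 1 -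
        hs Q₁ (bt F ω) (bd F ω) (ev c 3 Ξ' 1)) := by
    unfold mu2S
    rw [Polynomial.eval_add, Polynomial.eval_mul, Polynomial.eval_C, Polynomial.eval_sub,
      Polynomial.eval_mul, Polynomial.eval_C, ez1, ← hL0, ← hy, kpol_rt F c htJ]
    have e1 : Xcf w TH Sc i t (slam F (w t) ω) 2 = TH t (slam F (w t) ω) 2 := by
      unfold Xcf
      rw [if_neg hs2]
    rw [e1, mul_one]
    rfl
  have hD : gG G ω k 2 (some (c 1)) = kT w TH ω t 2 (some (c 1)) + cv (Ξ 2 - Ξ' 2) V := by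
    rw [hΞ2, hΞ'2, cv_subl, hcv2 _ (hΓ k hk 2), hcv2 _ (hκ t ht 2)]
    ring
  rw [hmu2, hD]
  obtain ⟨Λ, hΛ⟩ : ∃ Λ : ℝ, Λ = 2 ^ (w k + g₀ k 2) / 2 ^ (g₀ k 3 + dd) := ⟨_, rfl⟩
  have hΛ0 : 0 < Λ := by rw [hΛ]; positivity
  have hΛf : 2 ^ (w k + g₀ k 2) / 2 ^ (g₀ k 3 + dd + f + 2) ≤ Λ / 2 ^ (f + 1) := by
    rw [hΛ, div_div, ← pow_add]
    exact div_le_div_of_nonneg_left (by positivity) (by positivity) (p2 (by omega))
  have hres := jreal (a := -2 ^ w t * y) (μ := -2 ^ w t * y) (zk := 1) (zc := 1) (zj := 0)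
    (pk := hs Q₁ (bt F ω) (bd F ω) (ev c 3 Ξ 1)) (pc := hs Q₁ (bt F ω) (bd F ω) (ev c 3 Ξ' 1))
    (pj := hs Q₁ (bt F ω) (bd F ω) (ev c 3 Ξ 2)) (γ := cv (Ξ 2 - Ξ' 2) V) (L0 := L0)
    (E₀ := 2 ^ Y * (2 ^ (w k + g₀ k 1) / 2 ^ g₀ k 3)) (E₁ := 0) (Λ := Λ)
    (Gt := 2 ^ (C₃ + 2 * cl + X + 1) * R) (f := f)
    (by rw [hVd]; exact hs_chg hc hΞ hΞ' hdiff 1 hQ1d (bt F ω) (bd F ω)) (by ring)
    (by
      have e1 : hs Q₁ (bt F ω) (bd F ω) (ev c 3 Ξ 1) - -2 ^ w t * y * 1 =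
          hs Q₁ (bt F ω) (bd F ω) (ev c 3 Ξ 1) + 2 ^ w t * y := by ring
      rw [e1]
      exact hder) (by rw [sub_self, abs_zero, zero_mul]) hΛ0
    (by rw [mul_zero, sub_zero, hΛ]; exact hbig)
    (by rw [mul_zero, sub_zero]; exact hvar.trans hΛf) hγ
  have e2 : kT w TH ω t 2 (some (c 1)) + cv (Ξ 2 - Ξ' 2) V - (kT w TH ω t 2 (some (c 1)) +
      L0⁻¹ * (-2 ^ w t * y * 1 - hs Q₁ (bt F ω) (bd F ω) (ev c 3 Ξ' 1))) =
      -(L0⁻¹ * (-2 ^ w t * y * 1 - hs Q₁ (bt F ω) (bd F ω) (ev c 3 Ξ' 1)) -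
        cv (Ξ 2 - Ξ' 2) V) := by ring
  rw [e2, abs_neg]
  refine hres.trans ?_
  obtain ⟨ρ, hρ⟩ : ∃ ρ : ℝ, ρ = 2 ^ g₀ k 1 / 2 ^ g₀ k 2 := ⟨_, rfl⟩
  have hρ0 : 0 < ρ := by rw [hρ]; positivity
  rw [← hρ]
  obtain ⟨W, hW⟩ : ∃ W, W = (C₃ + 10) * (cl + X + 1) + Y + dd := ⟨_, rfl⟩
  have eW : (C₃ + 10) * (cl + X + 1) = C₃ * (cl + X) + C₃ + 10 * (cl + X + 1) := by ring
  have t1 : 2 * (2 ^ Y * (2 ^ (w k + g₀ k 1) / 2 ^ g₀ k 3) + 0) / Λ ≤ 2 ^ (W - 1) * ρ := by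
    have e1 : 2 * (2 ^ Y * (2 ^ (w k + g₀ k 1) / 2 ^ g₀ k 3) + 0) / Λ =
        2 ^ (Y + dd + 1) * ρ := by
      rw [hΛ, hρ]
      simp only [pow_add]
      field_simp
      ring
    rw [e1]
    exact mul_le_mul_of_nonneg_right (p2 (by omega)) hρ0.le
  have t2 : 2 ^ (C₃ + 2 * cl + X + 1) * R / 2 ^ f ≤ 2 ^ (W - 1) * ρ := by
    rw [hR, hρ]
    have e1 : 2 ^ (C₃ + 2 * cl + X + 1) * (2 ^ g₀ k 1 / 2 ^ (g₀ t 2 + (w k - w t))) / 2 ^ f =
        (2 : ℝ) ^ (C₃ + 2 * cl + X + 1 + g₀ k 1) / 2 ^ (g₀ t 2 + (w k - w t) + f) := by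
      rw [pow_add 2 (C₃ + 2 * cl + X + 1), pow_add 2 (g₀ t 2 + (w k - w t))]
      field_simp
    rw [e1, ← mul_div_assoc, div_le_div_iff₀ (by positivity) (by positivity), ← pow_add,
      ← pow_add, ← pow_add]
    have := n.fz
    exact p2 (by omega)
  have t3 : (2 : ℝ) ^ W * ρ = 2 ^ (W - 1) * ρ + 2 ^ (W - 1) * ρ := by
    have e1 : (2 : ℝ) ^ W = 2 ^ (W - 1) * 2 := by
      rw [← pow_succ]
      congr 1
      omega
    rw [e1]
    ring
  rw [← hW, t3]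
  exact add_le_add t1 t2

end Pool.TNW
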