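import Pool.Agent.H66.D2.Dcv

/-!
# `DlP` on the event of a static cell: assembly
-/

set_option autoImplicit false

namespace Pool.TN

open Finset Real MvPolynomial
open Pool.Agent.H49.Ent Pool.Agent.H32.Dense Pool.STK Pool.KA Pool.KSAT Pool.K2S Pool.PB Pool.S6C
open Pool.GEN Pool.CHT Pool.CHX Pool.ISO Pool.D2R Pool.D2Z Pool.D2F
open Pool.FLF (Fam.sub)
open Pool.PB.Trl (rt rt_mem t_rt)

variable {m J : ℕ}

/-- A larger constant, a smaller event. -/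
theorem StP.mono {F : Fam m J} {c : ℕ → Fin m} {r : ℕ} {Sc : ℕ → Prop} {D t K A e d : ℕ}
    {gK g' gT : ℕ → ℕ} {p : ℕ} {Y Y' : ℝ} {B B' : F.Ω → Prop}
    {GK : PtT F → ℕ → MvPolynomial (Option (Fin m)) ℝ}
    {HK Xc : LnT F → ℕ → MvPolynomial (Option (Fin m)) ℝ}
    {Φ : LnT F → MvPolynomial (Option (Fin m)) ℝ}
    {σ Γ : PtT F → ℕ → Option (Fin m) → ℝ} {γ : PtT F → Option (Fin m) → ℝ}
    (h : StP F c r Sc D t K A e d gK g' gT p Y B GK HK Xc Φ σ Γ γ) (hY : Y ≤ Y')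
    (hB : Sub B' B) : StP F c r Sc D t K A e d gK g' gT p Y' B' GK HK Xc Φ σ Γ γ := by
  have hd : ∀ {a : ℕ} {s x : ℝ}, 0 ≤ s → x ≤ Y / 2 ^ a * s → x ≤ Y' / 2 ^ a * s :=
    fun hs hx => hx.trans (mul_le_mul_of_nonneg_right (div_le_div_of_nonneg_right hY
      (by positivity)) hs)
  have hm : ∀ {s x : ℝ}, 0 ≤ s → x ≤ Y * s → x ≤ Y' * s :=
    fun hs hx => hx.trans (mul_le_mul_of_nonneg_right hY hs)
  have hmd : ∀ {a b : ℕ} {s x : ℝ}, 0 ≤ s → x ≤ Y * 2 ^ a / 2 ^ b * s →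
      x ≤ Y' * 2 ^ a / 2 ^ b * s := fun hs hx => hx.trans (mul_le_mul_of_nonneg_right
    (div_le_div_of_nonneg_right (mul_le_mul_of_nonneg_right hY (by positivity))
      (by positivity)) hs)
  exact
    { num := h.num.mono hY
      dX := h.dX
      dP := h.dP
      dH := h.dH
      pX := h.pX
      pP := h.pP
      pH := h.pH
      cσ := h.cσ
      cΓ := h.cΓ
      cγ := h.cγ
      nb := fun ω hω => (h.nb ω (hB ω hω)).mono hY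
      dif := fun ω hω l hl => ⟨fun V => hd (nrm_nonneg _ _ _ _ _ _ _)
          ((h.dif ω (hB ω hω) l hl).1 V),
        fun V V' Z => hd (add_nonneg (mul_nonneg (nrm_nonneg _ _ _ _ _ _ _)
          (nrm_nonneg _ _ _ _ _ _ _)) (nrz_nonneg _ _ _ _ _ _ _ _ _))
          ((h.dif ω (hB ω hω) l hl).2 V V' Z)⟩
      vb := fun ω hω => hm (by positivity) (h.vb ω (hB ω hω))
      cur := fun ω hω l hl V => by
        have h1 := h.cur ω (hB ω hω) l hl V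
        refine h1.trans (mul_le_mul_of_nonneg_right (mul_le_mul_of_nonneg_right hY
          (by positivity)) (nrm_nonneg _ _ _ _ _ _ _))
      h1 := fun ω hω l hl hs V hV => hd (sz_nonneg _ _ _ _ _) (h.h1 ω (hB ω hω) l hl hs V hV)
      h1' := fun ω hω l hl hs V hV => hd (sz_nonneg _ _ _ _ _) (h.h1' ω (hB ω hω) l hl hs V hV)
      h2 := fun ω hω l hl hs V hV => hd (sz_nonneg _ _ _ _ _) (h.h2 ω (hB ω hω) l hl hs V hV)
      h2' := fun ω hω l hl hs V hV => hd (sz_nonneg _ _ _ _ _) (h.h2' ω (hB ω hω) l hl hs V hV)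
      rw1 := fun ω hω V hV => (h.rw1 ω (hB ω hω) V hV).trans (add_le_add
        (hd (sz_nonneg _ _ _ _ _) le_rfl) (hd (sz_nonneg _ _ _ _ _) le_rfl))
      rw2 := fun ω hω V hV => (h.rw2 ω (hB ω hω) V hV).trans (add_le_add
        (hd (sz_nonneg _ _ _ _ _) le_rfl) (hd (sz_nonneg _ _ _ _ _) le_rfl))
      ag := fun ω hω V hV => hd (sz_nonneg _ _ _ _ _) (h.ag ω (hB ω hω) V hV)
      ch := fun ω hω l hl hs V hV => hd (sz_nonneg _ _ _ _ _) (h.ch ω (hB ω hω) l hl hs V hV)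
      rg := fun ω hω l hl hs V hV => hd (sz_nonneg _ _ _ _ _) (h.rg ω (hB ω hω) l hl hs V hV)
      vl := fun ω hω l hl => hm (by positivity) (h.vl ω (hB ω hω) l hl)
      vs := fun ω hω l hl hs => by
        have h1 := h.vs ω (hB ω hω) l hl hs
        rw [mul_div_assoc] at h1 ⊢
        exact hm (by positivity) h1
      vn := fun ω hω => by
        have h1 := h.vn ω (hB ω hω)
        rw [mul_div_assoc] at h1 ⊢
        exact hm (by positivity) h1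
      vA := hm (by positivity) h.vA
      lσ := fun ω hω => h.lσ ω (hB ω hω)
      lΓ := fun ω hω => h.lΓ ω (hB ω hω)
      gd := h.gd
      hr := fun ω hω l hl hs V hV => hmd (sz_nonneg _ _ _ _ _) (h.hr ω (hB ω hω) l hl hs V hV)
      x2 := fun ω hω l hl hs x hx hxs => hmd (by positivity)
        (h.x2 ω (hB ω hω) l hl hs x hx hxs) }

theorem DlP.mono {F : Fam m J} {c : ℕ → Fin m} {r : ℕ} {Sc : ℕ → Prop} {D₁ t K : ℕ}
    {gK g' : ℕ → ℕ} {Y Y' : ℝ} {B B' : F.Ω → Prop}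
    {Xc : LnT F → ℕ → MvPolynomial (Option (Fin m)) ℝ}
    {Φ : LnT F → MvPolynomial (Option (Fin m)) ℝ}
    {Γ : PtT F → ℕ → Option (Fin m) → ℝ} {δp : LnT F → ℕ → Polynomial ℝ}
    (h : DlP F c r Sc D₁ t K gK g' Y B Xc Φ Γ δp) (hY : Y ≤ Y') (hB : Sub B' B) :
    DlP F c r Sc D₁ t K gK g' Y' B' Xc Φ Γ δp where
  deg := h.deg
  del := fun ω hω l hl hs => (h.del ω (hB ω hω) l hl hs).trans
    (mul_le_mul_of_nonneg_right hY (by positivity))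
  x5 := fun ω hω x hx hxs => (h.x5 ω (hB ω hω) x hx hxs).trans
    (mul_le_mul_of_nonneg_right (div_le_div_of_nonneg_right (mul_le_mul_of_nonneg_right hY
      (by positivity)) (by positivity)) (by positivity))

/-- **The packages `StP` and `DlP`**, with the equation of a thin coordinate as an alternative, on the event of a static cell with one static coordinate. -/
theorem dlp_cevG (D r : ℕ) : ∃ C : ℕ, 1 ≤ C ∧ ∀ {m J : ℕ} {F : Fam m J} {c : ℕ → Fin m}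
    {Dr N M A cl : ℕ} {Sc : ℕ → Prop} {w e h pp : ℕ → ℕ} {z g gc gT g₀ : ℕ → ℕ → ℕ} {κ : ℝ}
    {B : F.Ω → Prop} {G : ℕ → PtT F → ℕ → MvPolynomial (Option (Fin m)) ℝ}
    {H : ℕ → LnT F → ℕ → MvPolynomial (Option (Fin m)) ℝ}
    {T : ℕ → PtT F → ℕ → MvPolynomial (Option (Fin m)) ℝ}
    {TH : ℕ → LnT F → ℕ → MvPolynomial (Option (Fin m)) ℝ}
    {Gt : ℕ → PtT F → MvPolynomial (Option (Fin m)) ℝ}
    {Ht : ℕ → LnT F → MvPolynomial (Option (Fin m)) ℝ},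
    CEv F c r D Dr N M A cl Sc w e h pp z g gc gT g₀ κ B G H T TH Gt Ht → C ≤ cl →
    ∀ {i₀ i₁ i₂ i₃ X p x d eM s₀ f : ℕ} {g' : ℕ → ℕ},
    NumW r N M A cl J Sc w e pp z g gc gT g₀ i₀ i₁ i₂ i₃ X p x g' → e i₂ ≤ eM → e i₃ ≤ eM →
    (∀ y < r, g₀ i₃ y ≤ g' y + d) →
    (∀ l < r, Sc l → ∀ y < l, g₀ i₃ y ≤ g' y + X ∨
      (y + 1 = l ∧ w i₂ + g₀ i₂ y + g₀ i₃ l ≤ w i₃ + g₀ i₂ l + g' y + X)) →
    s₀ < r → 0 < s₀ → (∀ l < r, Sc l ↔ l = s₀) →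
    (∀ y < r, ¬ Sc y → g₀ i₃ y ≤ g' y + X ∨ ((∀ l < r, y < l → l = s₀) ∧
      EqW r N M A cl w pp z g gc gT g₀ i₀ i₁ i₃ X s₀ y g') ∨
      ∀ ω, B ω → |hs (Ht i₁ (slam F (w i₁) ω)) (bt F ω) (bd F ω) (ev c r (mx Sc (kc (w i₂)
            (Xcf w TH Sc i₀ i₂) ω) (gpt F (G i₃) (ptr F J ω))) y) -
          aS c r Sc (w i₂) s₀ (Xcf w TH Sc i₀ i₂) (fun s => Ht i₁ (co (w i₂ - w i₁) s))
            (gpt F (G i₃)) ω * hs (TH i₀ (slam F (w i₀) ω) s₀) (bt F ω) (bd F ω)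
            (ev c r (mx Sc (kc (w i₂) (Xcf w TH Sc i₀ i₂) ω) (gpt F (G i₃) (ptr F J ω))) y)| ≤
          2 ^ X * (2 ^ w i₃ / 2 ^ g₀ i₃ r) * 2 ^ g' y) →
    (∀ ω, B ω → 2 ^ (w i₃ + g' 0) / 2 ^ g₀ i₃ s₀ ≤ 2 ^ (C * (cl + X + 1)) *
      |hs (TH i₀ (slam F (w i₀) ω) s₀) (bt F ω) (bd F ω)
        (ev c r (mx Sc (kT w TH ω i₀) (kT w TH ω i₂)) 0)|) →
    (∀ ω, B ω → |hs (TH i₀ (slam F (w i₀) ω) s₀) (bt F ω) (bd F ω)
        (ev c r (mx Sc (kT w TH ω i₀) (kT w TH ω i₂)) 0) -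
      (zp c r (w i₂) (fun s => Xcf w TH Sc i₀ i₂ s s₀) (Xcf w TH Sc i₀ i₂) 0
        (slam F (w i₂) ω)).eval 0| ≤ 2 ^ (C * (cl + X + 1)) / 2 ^ f *
      |hs (TH i₀ (slam F (w i₀) ω) s₀) (bt F ω) (bd F ω)
        (ev c r (mx Sc (kT w TH ω i₀) (kT w TH ω i₂)) 0)|) →
    C * C * (cl + X + 1) ≤ f → gT i₂ s₀ + g₀ i₃ r ≤ p + f + g₀ i₃ s₀ →
    StP F c r Sc D (w i₂) (w i₃) A (eM + d + C * (cl + X + 1)) d (g₀ i₃) g' (gT i₂) p
      (2 ^ (C * C * (cl + X + 1))) B (G i₃) (H i₃) (Xcf w TH Sc i₀ i₂)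
      (fun s => Ht i₁ (co (w i₂ - w i₁) s)) (Sgf T G Sc i₀ i₂) (gpt F (G i₃))
      (fun y => grd (Gt i₁ y) (bho J J y)) ∧
    DlP F c r Sc (D * (r + 1)) (w i₂) (w i₃) (g₀ i₃) g' (2 ^ (C * C * (cl + X + 1))) B
      (Xcf w TH Sc i₀ i₂) (fun s => Ht i₁ (co (w i₂ - w i₁) s)) (gpt F (G i₃))
      (dlt c r (w i₂) s₀ (fun s => Ht i₁ (co (w i₂ - w i₁) s)) (Xcf w TH Sc i₀ i₂)) := by
  obtain ⟨C₁, hC₁, hstp⟩ := stp_cev D r
  obtain ⟨C₂, hC₂, heqn⟩ := CEv.eqn D r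
  obtain ⟨C₃, hC₃, heqj⟩ := CEv.eqj D r
  obtain ⟨C, hC⟩ : ∃ C, C = (2 * (C₁ + C₂ + C₃ + 2)) * ((eE r + 2) * (3 * r + 10)) := ⟨_, rfl⟩
  have hK1 : 1 ≤ (eE r + 2) * (3 * r + 10) := by nlinarith [Nat.zero_le (eE r)]
  have hC4 : 2 * (C₁ + C₂ + C₃ + 2) ≤ C := by
    rw [hC]
    exact Nat.le_mul_of_pos_right _ hK1
  refine ⟨C, by omega, ?_⟩
  intro m J F c Dr N M A cl Sc w e h pp z g gc gT g₀ κ B G H T TH Gt Ht E hcl i₀ i₁ i₂ i₃ X p x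
    d eM s₀ f g' n he2 he3 hd hx2 hs₀ h00 h1 heq hlow hfro hf hfA
  have hc : Set.InjOn c (Set.Iio r) := E.inj.mono (Set.Iio_subset_Iio (by omega))
  have hAJ : w i₂ ≤ J := (E.wA i₂ n.h2).trans E.AJ
  have hkc := fun ω => kc_Xcf (TH := TH) (Sc := Sc) n.w0 hAJ ω
  have hΦ : ∀ ω, Ht i₁ (co (w i₂ - w i₁) (slam F (w i₂) ω)) = Ht i₁ (slam F (w i₁) ω) :=
    fun ω => by rw [co_slam F n.w1 hAJ]
  have hXs : ∀ ω, Xcf w TH Sc i₀ i₂ (slam F (w i₂) ω) s₀ = TH i₀ (slam F (w i₀) ω) s₀ :=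
    fun ω => Xcf_st n.w0 hAJ ω ((h1 s₀ hs₀).2 rfl)
  obtain ⟨q, hq⟩ : ∃ q, q = cl + X + 1 := ⟨_, rfl⟩
  rw [← hq] at hlow hfro hf ⊢
  have hS := hstp E (by omega) n he2 he3 hd hx2
  rw [← hq] at hS
  -- the constant of the middle
  obtain ⟨U, hU⟩ : ∃ U, U = C * q := ⟨_, rfl⟩
  obtain ⟨U', hU'⟩ : ∃ U', U' = (C₁ * q + C₂ * q) * eE r + C₃ * q := ⟨_, rfl⟩
  have hU1 : C₁ * q ≤ U := by
    rw [hU]
    exact Nat.mul_le_mul_right _ (by omega)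
  have hU2 : (C₁ * q + C₂ * q) * eE r ≤ U := by
    have e1 : (C₁ * q + C₂ * q) * eE r = (C₁ + C₂) * eE r * q := by ring
    rw [hU, e1]
    refine Nat.mul_le_mul_right _ ?_
    rw [hC]
    refine Nat.mul_le_mul (by omega) ?_
    nlinarith [Nat.zero_le (eE r)]
  have hU3 : C₃ * q ≤ U := by
    rw [hU]
    exact Nat.mul_le_mul_right _ (by omega)
  have hS' := hS.mono (Y' := 2 ^ U) (p2 hU1) (fun _ hω => hω)
  have hUf : U * (3 * r + 10) ≤ C * C * q := by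
    have e1 : U * (3 * r + 10) = C * (3 * r + 10) * q := by
      rw [hU]
      ring
    rw [e1]
    refine Nat.mul_le_mul_right _ (Nat.mul_le_mul_left _ ?_)
    rw [hC]
    nlinarith [Nat.zero_le (eE r), Nat.zero_le ((eE r + 1) * (3 * r + 10)),
      Nat.zero_le (C₁ + C₂ + C₃)]
  have hU10 : U * 10 ≤ U * (3 * r + 10) := Nat.mul_le_mul_left _ (by omega)
  have hU0 : 1 ≤ U := by
    rw [hU]
    exact Nat.mul_pos (by omega) (by omega)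
  have hE : ∀ ω, B ω → ∀ y < r, ¬ Sc y →
      |hs ((fun s => Ht i₁ (co (w i₂ - w i₁) s)) (slam F (w i₂) ω)) (bt F ω) (bd F ω)
        (ev c r (mx Sc (kc (w i₂) (Xcf w TH Sc i₀ i₂) ω) (gpt F (G i₃) (ptr F J ω))) y) -
      aS c r Sc (w i₂) s₀ (Xcf w TH Sc i₀ i₂) (fun s => Ht i₁ (co (w i₂ - w i₁) s))
        (gpt F (G i₃)) ω * hs (Xcf w TH Sc i₀ i₂ (slam F (w i₂) ω) s₀) (bt F ω) (bd F ω)
        (ev c r (mx Sc (kc (w i₂) (Xcf w TH Sc i₀ i₂) ω) (gpt F (G i₃) (ptr F J ω))) y)| ≤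
      2 ^ U * 2 ^ w i₃ / 2 ^ g₀ i₃ r * 2 ^ g' y := by
    intro ω hω y hy hys
    simp only [hΦ, hXs]
    have e1 : (2 : ℝ) ^ U * 2 ^ w i₃ / 2 ^ g₀ i₃ r * 2 ^ g' y =
        2 ^ U * ((2 ^ w i₃ / 2 ^ g₀ i₃ r) * 2 ^ g' y) := by ring
    rw [e1]
    rcases heq y hy hys with h4 | ⟨h4, h5⟩ | h4
    · have h6 := heqn E (by omega) n hs₀ h1 hS y hy hys h4 ω hω
      rw [← hq, mul_assoc] at h6
      exact h6.trans (mul_le_mul_of_nonneg_right (p2 hU2) (by positivity))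
    · have h6 := heqj E (by omega) n hs₀ h1 y hy hys h4 h5 ω hω
      rw [← hq, mul_assoc] at h6
      exact h6.trans (mul_le_mul_of_nonneg_right (p2 hU3) (by positivity))
    · have h6 := h4 ω hω
      rw [mul_assoc] at h6
      refine h6.trans (mul_le_mul_of_nonneg_right (p2 ?_) (by positivity))
      calc X ≤ 1 * q := by omega
        _ ≤ C₃ * q := Nat.mul_le_mul_right _ hC₃
        _ ≤ U := hU3
  have hD := dlp_one hS' hc hAJ (f := f) hs₀ h00 h1 hE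
    (fun ω hω => by
      rw [hXs, hkc, hU]
      exact hlow ω hω)
    (fun ω hω => by
      rw [hXs, hkc, hU]
      exact hfro ω hω)
    (by
      rw [div_le_div_iff₀ (by positivity) (by norm_num), one_mul, ← pow_succ]
      exact p2 (by omega))
    (by
      rw [← mul_div_assoc, div_le_div_iff₀ (by positivity) (by positivity), ← pow_add, ← pow_add,
        ← pow_add, ← pow_add]
      exact p2 (by omega))
  refine ⟨?_, ?_⟩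
  · have h7 := hS.mono (Y' := 2 ^ (C * C * q)) (p2 (hU1.trans (by omega)))
      (fun _ hω => hω)
    refine { h7 with
      lσ := fun ω hω l hl j hj => (h7.lσ ω hω l hl j hj).trans (p2 ?_)
      lΓ := fun ω hω l hl j hj => (h7.lΓ ω hω l hl j hj).trans (p2 ?_) }
    · omega
    · omega
  · refine hD.mono ?_ (fun _ hω => hω)
    rw [← pow_mul]
    exact p2 hUf

/-- **The packages `StP` and `DlP`** on the event of a static cell with one static coordinate. -/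
theorem dlp_cev (D r : ℕ) : ∃ C : ℕ, 1 ≤ C ∧ ∀ {m J : ℕ} {F : Fam m J} {c : ℕ → Fin m}
    {Dr N M A cl : ℕ} {Sc : ℕ → Prop} {w e h pp : ℕ → ℕ} {z g gc gT g₀ : ℕ → ℕ → ℕ} {κ : ℝ}
    {B : F.Ω → Prop} {G : ℕ → PtT F → ℕ → MvPolynomial (Option (Fin m)) ℝ}
    {H : ℕ → LnT F → ℕ → MvPolynomial (Option (Fin m)) ℝ}
    {T : ℕ → PtT F → ℕ → MvPolynomial (Option (Fin m)) ℝ}
    {TH : ℕ → LnT F → ℕ → MvPolynomial (Option (Fin m)) ℝ}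
    {Gt : ℕ → PtT F → MvPolynomial (Option (Fin m)) ℝ}
    {Ht : ℕ → LnT F → MvPolynomial (Option (Fin m)) ℝ},
    CEv F c r D Dr N M A cl Sc w e h pp z g gc gT g₀ κ B G H T TH Gt Ht → C ≤ cl →
    ∀ {i₀ i₁ i₂ i₃ X p x d eM s₀ f : ℕ} {g' : ℕ → ℕ},
    NumW r N M A cl J Sc w e pp z g gc gT g₀ i₀ i₁ i₂ i₃ X p x g' → e i₂ ≤ eM → e i₃ ≤ eM →
    (∀ y < r, g₀ i₃ y ≤ g' y + d) →
    (∀ l < r, Sc l → ∀ y < l, g₀ i₃ y ≤ g' y + X ∨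
      (y + 1 = l ∧ w i₂ + g₀ i₂ y + g₀ i₃ l ≤ w i₃ + g₀ i₂ l + g' y + X)) →
    s₀ < r → 0 < s₀ → (∀ l < r, Sc l ↔ l = s₀) →
    (∀ y < r, ¬ Sc y → g₀ i₃ y ≤ g' y + X ∨ ((∀ l < r, y < l → l = s₀) ∧
      EqW r N M A cl w pp z g gc gT g₀ i₀ i₁ i₃ X s₀ y g')) →
    (∀ ω, B ω → 2 ^ (w i₃ + g' 0) / 2 ^ g₀ i₃ s₀ ≤ 2 ^ (C * (cl + X + 1)) *
      |hs (TH i₀ (slam F (w i₀) ω) s₀) (bt F ω) (bd F ω)
        (ev c r (mx Sc (kT w TH ω i₀) (kT w TH ω i₂)) 0)|) →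
    (∀ ω, B ω → |hs (TH i₀ (slam F (w i₀) ω) s₀) (bt F ω) (bd F ω)
        (ev c r (mx Sc (kT w TH ω i₀) (kT w TH ω i₂)) 0) -
      (zp c r (w i₂) (fun s => Xcf w TH Sc i₀ i₂ s s₀) (Xcf w TH Sc i₀ i₂) 0
        (slam F (w i₂) ω)).eval 0| ≤ 2 ^ (C * (cl + X + 1)) / 2 ^ f *
      |hs (TH i₀ (slam F (w i₀) ω) s₀) (bt F ω) (bd F ω)
        (ev c r (mx Sc (kT w TH ω i₀) (kT w TH ω i₂)) 0)|) →
    C * C * (cl + X + 1) ≤ f → gT i₂ s₀ + g₀ i₃ r ≤ p + f + g₀ i₃ s₀ →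
    StP F c r Sc D (w i₂) (w i₃) A (eM + d + C * (cl + X + 1)) d (g₀ i₃) g' (gT i₂) p
      (2 ^ (C * C * (cl + X + 1))) B (G i₃) (H i₃) (Xcf w TH Sc i₀ i₂)
      (fun s => Ht i₁ (co (w i₂ - w i₁) s)) (Sgf T G Sc i₀ i₂) (gpt F (G i₃))
      (fun y => grd (Gt i₁ y) (bho J J y)) ∧
    DlP F c r Sc (D * (r + 1)) (w i₂) (w i₃) (g₀ i₃) g' (2 ^ (C * C * (cl + X + 1))) B
      (Xcf w TH Sc i₀ i₂) (fun s => Ht i₁ (co (w i₂ - w i₁) s)) (gpt F (G i₃))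
      (dlt c r (w i₂) s₀ (fun s => Ht i₁ (co (w i₂ - w i₁) s)) (Xcf w TH Sc i₀ i₂)) := by
  obtain ⟨C, hC, hgen⟩ := dlp_cevG D r
  refine ⟨C, hC, ?_⟩
  intro m J F c Dr N M A cl Sc w e h pp z g gc gT g₀ κ B G H T TH Gt Ht E hcl i₀ i₁ i₂ i₃ X p x
    d eM s₀ f g' n he2 he3 hd hx2 hs₀ h00 h1 heq
  exact hgen E hcl n he2 he3 hd hx2 hs₀ h00 h1 fun y hy hys => (heq y hy hys).imp_right Or.inl

end Pool.TN
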