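import Pool.Agent.H39.GEN.DichF

/-!
# The dichotomy with a third kind of window: static thresholds of the target

`CellD.dich3`: as `CellD.dich`, but at a window of an order the threshold over the order is iso or
static, **or the threshold `P` of the target is static** (`StaAt P g`). At the windows of the third
kind the threshold over the order is replaced by `P` itself; there are no cells, and the strategy of
the order is kept (it does not see the threshold).

`micW_dich3`: the micro input. `dich3_full`: the charts and orders of `Pool.STR.CellD.FullI`.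
-/

set_option autoImplicit false

namespace Pool.STR

open MeasureTheory Set Filter Topology Pool.LEV

/-- A static window of the target, with a slope larger than one. -/
def StaU1 (P : ℝ → ℝ → ℝ) (g : ℝ) : Prop := StaAt P g ∧ 1 < deriv (fun a => P a a) g

/-- The threshold which is used at a flag. -/
def flP (P B : ℝ → ℝ → ℝ) : Option Bool → ℝ → ℝ → ℝ
  | none => P
  | some _ => B

namespace CellD

variable {P : ℝ → ℝ → ℝ} {ρ : ℝ → ℝ} (E : CellD P ρ)

/-- All properties on the box with the error `d`; `b`: the flag of the window: iso (`some false`),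
static for the threshold over the order (`some true`), static for the target (`none`). -/
structure FxT (b : Option Bool) (g r : ℝ) (k : E.α × E.O) (d : ℝ) : Prop where
  pos : 0 < d
  bx : E.BxF g r k d
  iso : b = some false → IsoE (E.PB k) g r d
  sta : b = some true → StaD (E.PB k) g r d
  stP : b = none → StaD P g r d
  nf : NfB ρ (1 - deriv ρ (P g g)) d (P g g - r * r / d) (P g g + r * r / d)

theorem FxT.mono {E : CellD P ρ} {b : Option Bool} {g r d d' : ℝ} {k : E.α × E.O}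
    (h : E.FxT b g r k d) (hd : d ≤ d') : E.FxT b g r k d' := by
  have h0 := h.pos
  have h1 : r * r / d' ≤ r * r / d :=
    div_le_div_of_nonneg_left (mul_self_nonneg r) h0 hd
  exact ⟨h0.trans_le hd, h.bx.mono hd, fun hb => IsoE.mono hd (h.iso hb),
    fun hb => StaD.mono hd (h.sta hb), fun hb => StaD.mono hd (h.stP hb),
    fun Q₁ Q₂ k1 k2 k3 => (h.nf Q₁ Q₂ (by linarith) k2 (by linarith)).trans (by linarith)⟩

/-- **The orders with the flag of the window**: iso (`some false`), static (`some true`), or static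
for the target (`none`); then the threshold of the target itself is used. -/
noncomputable def dich3 (hPl : Law P) (N' : Set ℝ) (hN' : volume N' = 0) (hsub : E.N ⊆ N') (hord : E.OrdP N')
    (PT : E.O → ℝ → ℝ → ℝ) (hPT : ∀ x o, E.PB (x, o) = PT o)
    (hC : ∀ᵐ g : ℝ, 0 < g → g < 1 →
      (∃ a', g < a' ∧ a' ≤ 1 ∧ ρ 1 - ρ (P a' a') < 1 - P a' a') →
        ∀ o, g ∈ E.G o → IsoAt (PT o) g ∨ StaAt (PT o) g ∨ StaU1 P g) : CellD P ρ where
  α := E.α
  O := E.O × Option Bool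
  J := E.J
  cα := E.cα
  cO := by
    have := E.cO
    infer_instance
  fJ := E.fJ
  m := E.m
  PB k := flP P (E.PB (k.1, k.2.1)) k.2.2
  be k := E.be (k.1, k.2.1)
  D o := E.D o.1
  f o := E.f o.1
  G o := {g | g ∈ E.G o.1 ∧ (o.2 = some false → IsoAt (PT o.1) g) ∧
    (o.2 = some true → StaAt (PT o.1) g) ∧ (o.2 = none → StaU1 P g)}
  Ad' c k Q g r := E.Ad' c (k.1, k.2.1) Q g r ∧ E.OrF c Q g k.2.1 ∧
    SlpL (fun w => E.PB (k.1, k.2.1) w w) c g r ∧ c ≤ 1 - deriv ρ Q ∧ Lv P (Q, 0) = g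
  df k g r := max (E.df (k.1, k.2.1) g r) (dfi (E.FxT k.2.2 g r (k.1, k.2.1)))
  N := N'
  hPB k := by
    rcases k with ⟨x, o, _ | b⟩
    · exact hPl
    · exact E.hPB _
  hle k := by
    rcases k with ⟨x, o, _ | b⟩
    · exact fun a w _ _ _ => le_rfl
    · exact E.hle _
  hbe k := E.hbe _
  hdia x o := E.hdia x o.1
  hDm o := E.hDm o.1
  hD0 o := E.hD0 o.1
  hD1 o := E.hD1 o.1
  hG := by
    filter_upwards [E.hG, hC] with g h1 h2 h3 h4 h5
    obtain ⟨o, ho⟩ := h1 h3 h4 h5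
    rcases h2 h3 h4 h5 o ho with h6 | h6 | h6
    · exact ⟨(o, some false), ho, fun _ => h6, fun h => absurd h (by simp),
        fun h => absurd h (by simp)⟩
    · exact ⟨(o, some true), ho, fun h => absurd h (by simp), fun _ => h6,
        fun h => absurd h (by simp)⟩
    · exact ⟨(o, none), ho, fun h => absurd h (by simp), fun h => absurd h (by simp),
        fun _ => h6⟩
  hPG x o g hg := by
    rcases o with ⟨o, _ | b⟩
    · intro h0 h1 a' h2 h3
      exact hPl.mono h0.le le_rfl h2.le h2.le le_rfl h3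
    · exact E.hPG x o g hg.1
  hN := hN'
  hch := by
    filter_upwards [E.hch] with Q hQ hrow o ho
    have hrow' : RowD P ρ E.Nᶜ Q := { hrow with mem := fun h => hrow.mem (hsub h) }
    obtain ⟨cA, hcA, hA⟩ := hQ hrow' o.1 ho.1
    obtain ⟨c₁, hc₁, hOr, hsl, hbx⟩ := hord Q hrow o.1 ho.1
    have hh : 0 < 1 - deriv ρ Q := by linarith [hrow.rlt]
    refine ⟨min cA (min c₁ (1 - deriv ρ Q)), lt_min hcA (lt_min hc₁ hh),
      fun c' hc' hc'' e he => ?_⟩
    have m1 : c' ≤ cA := hc''.trans (min_le_left _ _)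
    have m2 : c' ≤ c₁ := (hc''.trans (min_le_right _ _)).trans (min_le_left _ _)
    have m3 : c' ≤ 1 - deriv ρ Q := (hc''.trans (min_le_right _ _)).trans (min_le_right _ _)
    obtain ⟨k, r₀, hr₀, hk⟩ := hA c' hc' m1 e he
    obtain ⟨r₁, hr₁, hsl⟩ := hsl c' hc' m2
    obtain ⟨r₂, hr₂, hbx⟩ := hbx e he
    obtain ⟨r₃, hr₃, hfl⟩ : ∃ r₃ : ℝ, 0 < r₃ ∧ ∀ r : ℝ, 0 < r → r < r₃ →
        (o.2 = some false → IsoE (PT o.1) (Lv P (Q, 0)) r (e * r)) ∧
        (o.2 = some true → StaD (PT o.1) (Lv P (Q, 0)) r (e * r)) ∧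
        (o.2 = none → StaD P (Lv P (Q, 0)) r (e * r)) := by
      rcases hb : o.2 with _ | _ | _
      · obtain ⟨r₃, hr₃, h⟩ := (ho.2.2.2 hb).1 e he
        exact ⟨r₃, hr₃, fun r h1 h2 => ⟨fun h => absurd h (by simp), fun h => absurd h (by simp),
          fun _ => h r h1 h2⟩⟩
      · obtain ⟨r₃, hr₃, h⟩ := ho.2.1 hb e he
        exact ⟨r₃, hr₃, fun r h1 h2 => ⟨fun _ => h r h1 h2, fun h => absurd h (by simp),
          fun h => absurd h (by simp)⟩⟩
      · obtain ⟨r₃, hr₃, h⟩ := ho.2.2.1 hb e he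
        exact ⟨r₃, hr₃, fun r h1 h2 => ⟨fun h => absurd h (by simp), fun _ => h r h1 h2,
          fun h => absurd h (by simp)⟩⟩
    obtain ⟨r₄, hr₄, hnf⟩ := nfB_of hrow.rdif hrow.rlt le_rfl (η := e) (M := 1 / e) he
      (by positivity)
    refine ⟨k, min (min r₀ r₁) (min r₂ (min r₃ r₄)),
      lt_min (lt_min hr₀ hr₁) (lt_min hr₂ (lt_min hr₃ hr₄)), fun r hr hr' => ?_⟩
    have n1 : r < r₀ := (hr'.trans_le (min_le_left _ _)).trans_le (min_le_left _ _)
    have n2 : r < r₁ := (hr'.trans_le (min_le_left _ _)).trans_le (min_le_right _ _)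
    have n3 := hr'.trans_le (min_le_right _ _)
    have n4 : r < r₂ := n3.trans_le (min_le_left _ _)
    have n5 : r < r₃ := (n3.trans_le (min_le_right _ _)).trans_le (min_le_left _ _)
    have n6 : r < r₄ := (n3.trans_le (min_le_right _ _)).trans_le (min_le_right _ _)
    obtain ⟨h1, h2⟩ := hk r hr n1
    obtain ⟨h3, h4, h5⟩ := hfl r hr n5
    refine ⟨⟨h1, hOr.mono m2, hsl r hr n2 (k r), m3, rfl⟩, max_le h2 ?_⟩
    have her : 0 < e * r := mul_pos he hr
    refine dfi_le her.le ⟨her, hbx r hr n4 (k r), fun hb => ?_, fun hb => ?_, fun hb => h5 hb, ?_⟩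
    · rw [hPT]
      exact h3 hb
    · rw [hPT]
      exact h4 hb
    · rw [hOr.val]
      have e1 : r * r / (e * r) = 1 / e * r := by
        field_simp
      rw [e1]
      exact hnf r hr n6

section dich3

variable {hPl : Law P} {N' : Set ℝ} {hN' : volume N' = 0} {hsub : E.N ⊆ N'} {hord : E.OrdP N'}
  {PT : E.O → ℝ → ℝ → ℝ} {hPT : ∀ x o, E.PB (x, o) = PT o}
  {hC : ∀ᵐ g : ℝ, 0 < g → g < 1 →
      (∃ a', g < a' ∧ a' ≤ 1 ∧ ρ 1 - ρ (P a' a') < 1 - P a' a') →
        ∀ o, g ∈ E.G o → IsoAt (PT o) g ∨ StaAt (PT o) g ∨ StaU1 P g}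

/-- The properties of the selected charts of the order with the flag. -/
theorem dich3_ad {c : ℝ} {k : E.α × E.O × Option Bool} {Q g r : ℝ}
    (h : (E.dich3 hPl N' hN' hsub hord PT hPT hC).Ad c k Q g r) :
    E.Ad c (k.1, k.2.1) Q g r ∧ E.OrF c Q g k.2.1 ∧
      SlpL (fun w => E.PB (k.1, k.2.1) w w) c g r ∧ c ≤ 1 - deriv ρ Q ∧ Lv P (Q, 0) = g := by
  obtain ⟨h1, h2, h3, h4, h5, h6⟩ := h
  exact ⟨⟨h1, h2, h3, h4.1, h5⟩, h6⟩

theorem dich3_dfr (k : E.α × E.O × Option Bool) (g r : ℝ) :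
    E.dfr (k.1, k.2.1) g r ≤ (E.dich3 hPl N' hN' hsub hord PT hPT hC).dfr k g r :=
  max_le ((le_max_left _ _).trans (le_max_left _ _)) (le_max_right _ _)

theorem dich3_dfi (k : E.α × E.O × Option Bool) (g r : ℝ) :
    dfi (E.FxT k.2.2 g r (k.1, k.2.1)) ≤ (E.dich3 hPl N' hN' hsub hord PT hPT hC).dfr k g r :=
  (le_max_right _ _).trans (le_max_left _ _)

/-- All properties on the box, from the defect. -/
theorem dich3_fx {k : E.α × E.O × Option Bool} {g r d : ℝ} (hd : 0 < d) (hd1 : 2 * d ≤ 1)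
    (h : (E.dich3 hPl N' hN' hsub hord PT hPT hC).dfr k g r ≤ d) :
    E.FxT k.2.2 g r (k.1, k.2.1) (2 * d) :=
  dfi_spec (fun _ _ hdd hx => hx.mono hdd)
    (lt_of_le_of_lt ((dich3_dfi E k g r).trans h) (by linarith)) hd1

/-- **No front cells.** -/
theorem dich3_noF : (E.dich3 hPl N' hN' hsub hord PT hPT hC).NoF := by
  intro c β h' h1 h2 h3
  obtain ⟨ε, hε⟩ : ∃ ε, ε = min (min (β / 8) (c / 12)) (1 / 80) := ⟨_, rfl⟩
  have hε0 : 0 < ε := by
    rw [hε]
    exact lt_min (lt_min (by linarith) (by linarith)) (by norm_num)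
  have hε1 : ε ≤ 1 / 80 := by rw [hε]; exact min_le_right _ _
  have hε2 : ε ≤ β / 8 := by rw [hε]; exact (min_le_left _ _).trans (min_le_left _ _)
  have hε3 : ε ≤ c / 12 := by rw [hε]; exact (min_le_left _ _).trans (min_le_right _ _)
  refine ⟨c / 4, by linarith, 1, one_pos, ε, hε0,
    fun k Q g r p X al be k0 hX k2 k3 k4 k5 k6 k7 k8 k9 => ?_⟩
  have hXr : X ≤ r := by linarith [k7.dep, k7.dep']
  have hεX : 0 < ε * X := mul_pos hε0 hX
  have hεX1 : ε * X ≤ 1 / 80 * X := mul_le_mul_of_nonneg_right hε1 hX.le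
  have hfx := dich3_fx E hεX (by linarith) k9
  obtain ⟨had, hor, hsl, hcρ, hlP⟩ := dich3_ad E k6
  obtain ⟨x, o, fl⟩ := k
  have hL : Law (E.PB (x, o)) := E.hPB _
  have hlv := hor.lv x
  rcases fl with _ | _ | _
  · exact sta_noF hPl hε0 (by linarith) (by linarith) h2 hX k2 k3 k4 k5 hlP k7 (hfx.stP rfl)
  · have hi := hfx.iso rfl
    have hS := ads_of E k0 (e := 10 * (ε * X) / r) (by positivity) (by
      rw [div_le_one k0]
      linarith) (by linarith) (by
      rw [div_mul_cancel₀ _ k0.ne']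
      linarith) had hor hsl hfx.bx hi
    refine iso_noF hL h1 hS.S1 hS.cS hε0 hε1 (by linarith) (by linarith) hX k2 k3 k4 k5 hlv k7
      fun a w j1 j2 j3 => ?_
    have := hS.iso a w j1 j2 j3
    rwa [div_mul_cancel₀ _ k0.ne'] at this
  · exact sta_noF hL hε0 (by linarith) (by linarith) h2 hX k2 k3 k4 k5 hlv k7 (hfx.sta rfl)

/-- **No joint cells**, if there are none at the iso windows. -/
theorem dich3_noJ (hJ : E.NoJS) : (E.dich3 hPl N' hN' hsub hord PT hPT hC).NoJ := by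
  intro c β T h' h1 h2 h3 h4
  obtain ⟨ε₀, hε₀, H⟩ := hJ c β T h' h1 h2 h3 h4
  obtain ⟨ε, hε⟩ : ∃ ε, ε = min (min (β / 4) (ε₀ / 10)) (1 / 80) := ⟨_, rfl⟩
  have hε0 : 0 < ε := by
    rw [hε]
    exact lt_min (lt_min (by linarith) (by linarith)) (by norm_num)
  have hε1 : ε ≤ 1 / 80 := by rw [hε]; exact min_le_right _ _
  have hε2 : ε ≤ β / 4 := by rw [hε]; exact (min_le_left _ _).trans (min_le_left _ _)
  have hε3 : ε ≤ ε₀ / 10 := by rw [hε]; exact (min_le_left _ _).trans (min_le_right _ _)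
  refine ⟨ε, hε0, fun k Q g r y X lamN muN lam mu k1 k2 k3 k4 k5 k6 k7 k8 k9 => ?_⟩
  have hX := k7.pos
  have hXr : X ≤ r := by linarith [k7.dep, k7.dep']
  have hεX : 0 < ε * X := mul_pos hε0 hX
  have hεX1 : ε * X ≤ 1 / 80 * X := mul_le_mul_of_nonneg_right hε1 hX.le
  have hεX3 : ε * X ≤ ε₀ / 10 * X := mul_le_mul_of_nonneg_right hε3 hX.le
  have hε₀X : 0 < ε₀ * X := mul_pos hε₀ hX
  have e3 : ε₀ / 10 * X = ε₀ * X / 10 := by ring
  have hfx := dich3_fx E hεX (by linarith) k9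
  obtain ⟨had, hor, hsl, hcρ, hlP⟩ := dich3_ad E k6
  obtain ⟨x, o, fl⟩ := k
  have hL : Law (E.PB (x, o)) := E.hPB _
  rcases fl with _ | _ | _
  · exact sta_noJ hPl (by linarith) h2 k2 k3 k7.toJCell (hfx.stP rfl)
  · have hi := hfx.iso rfl
    have hS := ads_of E k1 (e := 10 * (ε * X) / r) (by positivity) (by
      rw [div_le_one k1]
      linarith) (by linarith) (by
      rw [div_mul_cancel₀ _ k1.ne']
      linarith) had hor hsl hfx.bx hi
    refine H ((x, o), 10 * (ε * X) / r) Q g r y X lamN muN lam mu k1 k2 k3 k4 k5 ⟨_, hS⟩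
      (k7.mono (by linarith)) (fun Q₁ Q₂ j1 j2 j3 => (k8 Q₁ Q₂ j1 j2 j3).trans (by linarith)) ?_
    refine max_le ((dich3_dfr E (x, o, some false) g r).trans (k9.trans (by linarith))) ?_
    rw [div_mul_cancel₀ _ k1.ne']
    linarith
  · exact sta_noJ hL (by linarith) h2 k2 k3 k7.toJCell (hfx.sta rfl)

/-- **No joint cells**, if there are no boxes at the iso windows. -/
theorem dich3_noJB (hJ : E.NoBS) : (E.dich3 hPl N' hN' hsub hord PT hPT hC).NoJ := by
  intro c β T h' h1 h2 h3 h4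
  obtain ⟨ε₀, hε₀, hε₀1, M, hM, H⟩ := hJ c (β / 2) c h1 (by linarith) h1
  obtain ⟨ε, hε⟩ : ∃ ε, ε = min (min (β / 80) (ε₀ / 10)) (min (1 / 80) (1 / (2 * M))) := ⟨_, rfl⟩
  have hε0 : 0 < ε := by
    rw [hε]
    exact lt_min (lt_min (by linarith) (by linarith)) (lt_min (by norm_num) (by positivity))
  have hε1 : ε ≤ 1 / 80 := by rw [hε]; exact (min_le_right _ _).trans (min_le_left _ _)
  have hε4 : ε ≤ 1 / (2 * M) := by rw [hε]; exact (min_le_right _ _).trans (min_le_right _ _)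
  have hε2 : ε ≤ β / 80 := by rw [hε]; exact (min_le_left _ _).trans (min_le_left _ _)
  have hε3 : ε ≤ ε₀ / 10 := by rw [hε]; exact (min_le_left _ _).trans (min_le_right _ _)
  refine ⟨ε, hε0, fun k Q g r y X lamN muN lam mu k1 k2 k3 k4 k5 k6 k7 k8 k9 => ?_⟩
  have hX := k7.pos
  have hdep := k7.dep
  have hdep' := k7.dep'
  have hXr : X ≤ r := by linarith
  have hεX : 0 < ε * X := mul_pos hε0 hX
  have hεX1 : ε * X ≤ 1 / 80 * X := mul_le_mul_of_nonneg_right hε1 hX.le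
  have hεXr : ε * X ≤ ε * r := mul_le_mul_of_nonneg_left hXr hε0.le
  have hεr : ε * r ≤ ε₀ / 10 * r := mul_le_mul_of_nonneg_right hε3 k1.le
  have hε₀r : 0 < ε₀ * r := mul_pos hε₀ k1
  have e3 : ε₀ / 10 * r = ε₀ * r / 10 := by ring
  have hfx := dich3_fx E hεX (by linarith) k9
  obtain ⟨had, hor, hsl, hcρ, hlP⟩ := dich3_ad E k6
  obtain ⟨x, o, fl⟩ := k
  have hL : Law (E.PB (x, o)) := E.hPB _
  rcases fl with _ | _ | _
  · exact sta_noJ hPl (by linarith) h2 k2 k3 k7.toJCell (hfx.stP rfl)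
  swap
  · exact sta_noJ hL (by linarith) h2 k2 k3 k7.toJCell (hfx.sta rfl)
  have hi := hfx.iso rfl
  have hS := ads_of E k1 (e := 10 * (ε * X) / r) (by positivity) (by
    rw [div_le_one k1]
    linarith) (by linarith) (by
    rw [div_mul_cancel₀ _ k1.ne']
    linarith) had hor hsl hfx.bx hi
  obtain ⟨S, hSS⟩ : ∃ S, S = deriv (fun a => P a a) g := ⟨_, rfl⟩
  rw [← hSS] at hS
  -- the slope of the target
  have hβS : 1 + β / 2 ≤ S := by
    have hw := abs_le.1 (le_trans (by linarith) k7.win : |y.1 - g| ≤ 3 * r)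
    have haf := (abs_le.1 (k7.aff (y.1 + X, y.2 - X) (by
      rw [Prod.dist_eq, Real.dist_eq, Real.dist_eq]
      simp only [add_sub_cancel_left, sub_sub_cancel_left, abs_neg, abs_of_pos hX, max_self,
        le_refl]))).1
    simp only [Nw, add_sub_cancel_left, sub_sub_cancel_left] at haf
    have e1 : y.1 + X + (y.2 - X) = y.1 + y.2 := by ring
    rw [e1] at haf
    have i1 := (abs_le.1 (hS.iso (y.1 + y.2) (y.1 + X) (by linarith) (by linarith)
      (by linarith))).2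
    have i2 := (abs_le.1 (hS.iso (y.1 + y.2) y.1 (by linarith) (by linarith) (by linarith))).1
    rw [div_mul_cancel₀ _ k1.ne'] at i1 i2
    have hgam := mul_le_mul_of_nonneg_right k7.gam hX.le
    have e2 : (muN + β) * X = muN * X + β * X := by ring
    have e4 : muN * (-X) = -(muN * X) := by ring
    have e5 : (S - 1) * (y.1 + X - g) = (S - 1) * (y.1 - g) + (S - 1) * X := by ring
    have hPB : (E.dich3 hPl N' hN' hsub hord PT hPT hC).PB (x, o, some false) = E.PB (x, o) := rfl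
    rw [hPB] at haf
    have hβX : ε * X ≤ β / 80 * X := mul_le_mul_of_nonneg_right hε2 hX.le
    have e6 : β / 80 * X = β * X / 80 := by ring
    have hβX0 : 0 < β * X := mul_pos h2 hX
    have k10 : (β / 2) * X ≤ (S - 1) * X := by linarith
    have := le_of_mul_le_mul_right k10 hX
    linarith
  -- the rows
  have hdfr := (dich3_dfr E (x, o, some false) g r).trans k9
  have hrε : r ≤ ε₀ := by
    have h5 : r * r ≤ ε * X := (le_max_right _ _).trans hdfr
    have h6 : r * r ≤ ε * r := h5.trans hεXr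
    have h7 := le_of_mul_le_mul_right h6 k1
    linarith
  refine H (x, o) Q g r S k1 k2 k3 k4 k5 hrε ?_ hβS (fun Q₁ Q₂ j1 j2 j3 => ?_)
    (hdfr.trans (by linarith))
  · -- the error
    have hee : 10 * (ε * X) / r ≤ ε₀ := by
      rw [div_le_iff₀ k1]
      linarith
    have hee' : 10 * (ε * X) / r * r ≤ ε₀ * r := mul_le_mul_of_nonneg_right hee k1.le
    exact ⟨⟨hS.ade.ad, hε₀, hε₀1, hS.ade.lv, by
      obtain ⟨S', a1, a2, a3, a4⟩ := hS.ade.dg
      exact ⟨S', a1, a2, fun w hw => (a3 w hw).trans hee', fun w hw => (a4 w hw).trans hee'⟩,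
      hS.ade.sl, fun j => by
      obtain ⟨S', a1, a2, a3⟩ := hS.ade.dj j
      exact ⟨S', a1, a2, fun w hw => (a3 w hw).trans hee'⟩⟩, hS.val, hS.S1, hS.cS,
      fun w hw => (hS.dgP w hw).trans hee', fun w hw => (hS.dgB w hw).trans hee',
      fun a w a1 a2 a3 => (hS.iso a w a1 a2 a3).trans hee'⟩
  · have h5 := hfx.nf Q₁ Q₂
    rw [hor.val] at h5
    have h6 : M * r ≤ r * r / (2 * (ε * X)) := by
      rw [le_div_iff₀ (by linarith)]
      have h7 : ε * (2 * M) ≤ 1 := by rwa [le_div_iff₀ (by positivity)] at hε4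
      have h8 : M * r * (2 * (ε * X)) = ε * (2 * M) * (r * X) := by ring
      have h9 : ε * (2 * M) * (r * X) ≤ 1 * (r * r) :=
        mul_le_mul h7 (mul_le_mul_of_nonneg_left hXr k1.le) (by positivity) zero_le_one
      linarith
    have h7 := h5 (by linarith) j2 (by linarith)
    have h8 : (1 - (1 - deriv ρ Q)) * (Q₂ - Q₁) ≤ (1 - c) * (Q₂ - Q₁) :=
      mul_le_mul_of_nonneg_right (by linarith) (by linarith)
    linarith

end dich3

/-- **The micro input from the dichotomy.** -/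
theorem micW_dich3 (hP : Law P) (hP01 : ∀ a : ℝ, 0 ≤ a → a ≤ 1 → 0 ≤ P a a ∧ P a a ≤ 1)
    (hρ : LipschitzWith 1 ρ) (hJ : E.NoJS ∨ E.NoBS) (PT : E.O → ℝ → ℝ → ℝ)
    (hPT : ∀ x o, E.PB (x, o) = PT o)
    (hC : ∀ᵐ g : ℝ, 0 < g → g < 1 →
      (∃ a', g < a' ∧ a' ≤ 1 ∧ ρ 1 - ρ (P a' a') < 1 - P a' a') →
        ∀ o, g ∈ E.G o → IsoAt (PT o) g ∨ StaAt (PT o) g ∨ StaU1 P g) : MicW P ρ := by
  obtain ⟨N', h1, h2, h3⟩ := E.ordE hP
  refine (E.dich3 hP N' h1 h2 h3 PT hPT hC).mic hP hP01 hρ ?_ (dich3_noF E)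
  rcases hJ with hJ | hJ
  · exact dich3_noJ E hJ
  · exact dich3_noJB E hJ

/-- The levels of a chart; the last one is the threshold of the target. -/
noncomputable def lvP (o : E.O) (x : E.α) (i : ℕ) : ℝ → ℝ → ℝ :=
  if h : i < E.m then E.be (x, o) ⟨i, h⟩ else P

/-- **The play with the threshold of the target**, at its static windows with slope larger than one. -/
def PlayP (W' : E.O → Set ℝ) (Att : E.O → E.α → Set (ℝ × ℝ)) (Q : ℝ) : Prop :=
  ∀ (o : E.O) (c g : ℝ), E.RowO W' Q o c g → StaU1 P g →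
    (∀ i < E.m, 1 ≤ deriv (E.dg o i) g ∧ E.dg o i g < 1) →
    GmI (E.lvP o) (fun x e r => E.Ad c (x, o) Q g (fac P g * r) ∧
        E.dfr (x, o) g (fac P g * r) ≤ e * (fac P g * r)) E.m
      (fun i => deriv (E.dg o i) g) g (W' o) (Att o)

/-- **The strategy**, for the threshold over the order and for the threshold of the target. -/
def Play3 : Prop :=
  ∃ (W' : E.O → Set ℝ) (Att : E.O → E.α → Set (ℝ × ℝ)) (Z : Set ℝ),
    (∀ o, MeasurableSet (W' o)) ∧ (∀ o, ∀ᵐ g : ℝ, g ∈ E.G o → 0 < g → g < 1 → g ∈ W' o) ∧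
    (∀ o x, AttN (Att o x)) ∧ volume Z = 0 ∧
    (∀ᵐ Q : ℝ, RowD P ρ Zᶜ Q → ∀ o, Lv P (Q, 0) ∈ E.G o → ∀ j,
      E.D o (E.f o j) (Lv P (Q, 0)) < 1 ∧ (deriv (E.D o (E.f o j)) (Lv P (Q, 0)) = 1 ∨
        ∀ x a w, 0 ≤ w → w ≤ a → a ≤ 1 → E.be (x, o) j a w ≤ E.be (x, o) j w w + (a - w))) ∧
    ∀ᵐ Q : ℝ, RowD P ρ Zᶜ Q → E.PlayI W' Att Q ∧ E.PlayP W' Att Q

/-- **The charts and orders with the same strategy.** -/
theorem dich3_full (hP : Law P) (hPnn : ∀ a : ℝ, 0 ≤ a → a ≤ 1 → 0 ≤ P a a) (hJ : E.NoJS ∨ E.NoBS)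
    (nn : ∀ k a, 0 ≤ a → a ≤ 1 → 0 ≤ E.PB k a a) (play : E.Play3)
    (PT : E.O → ℝ → ℝ → ℝ) (hPT : ∀ x o, E.PB (x, o) = PT o)
    (hC : ∀ᵐ g : ℝ, 0 < g → g < 1 →
      (∃ a', g < a' ∧ a' ≤ 1 ∧ ρ 1 - ρ (P a' a') < 1 - P a' a') →
        ∀ o, g ∈ E.G o → IsoAt (PT o) g ∨ StaAt (PT o) g ∨ StaU1 P g) :
    ∃ E' : CellD P ρ, E'.FullI := by
  obtain ⟨N', h1, h2, h3⟩ := E.ordE hP
  refine ⟨E.dich3 hP N' h1 h2 h3 PT hPT hC, ?_, dich3_noF E, fun k a h0 h1' => ?_, ?_⟩
  rotate_left 1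
  · rcases k with ⟨x, o, _ | b⟩
    · exact hPnn a h0 h1'
    · exact nn _ a h0 h1'
  rotate_left 1
  · rcases hJ with hJ | hJ
    · exact dich3_noJ E hJ
    · exact dich3_noJB E hJ
  obtain ⟨W', Att, Z, p1, p2, p3, p4, p5, p6⟩ := play
  refine ⟨fun o => W' o.1, fun o => Att o.1, Z, fun o => p1 o.1, fun o => ?_, fun o => p3 o.1, p4,
    ?_, ?_⟩
  · filter_upwards [p2 o.1] with g hg h
    exact hg h.1
  · filter_upwards [p5] with Q hQ hrow o ho
    exact hQ hrow o.1 ho.1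
  · filter_upwards [p6] with Q hQ hrow o c g hO hσ
    obtain ⟨o, fl⟩ := o
    have hO' : E.RowO W' Q o c g :=
      ⟨hO.eq, hO.g0, hO.g1, hO.val, hO.mem.1, hO.dns, hO.dif, hO.der, hO.difD, hO.c0⟩
    rcases fl with _ | b
    · have key := (hQ hrow).2 o c g hO' (hO.mem.2.2.2 rfl) hσ
      intro s
      obtain ⟨ε, hε, e, he, r₁, hr₁, K, H⟩ := key s
      exact ⟨ε, hε, e, he, r₁, hr₁, K, fun x r b k1 k2 k3 k4 k5 k6 k7 =>
        H x r b k1 k2 k3 ⟨(dich3_ad E k4.1).1, (dich3_dfr E (x, o, none) g _).trans k4.2⟩ k5 k6 k7⟩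
    · have key := (hQ hrow).1 o c g hO' hσ
      intro s
      obtain ⟨ε, hε, e, he, r₁, hr₁, K, H⟩ := key s
      exact ⟨ε, hε, e, he, r₁, hr₁, K, fun x r b' k1 k2 k3 k4 k5 k6 k7 =>
        H x r b' k1 k2 k3 ⟨(dich3_ad E k4.1).1, (dich3_dfr E (x, o, some b) g _).trans k4.2⟩
          k5 k6 k7⟩

end CellD

end Pool.STR
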