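import Pool.Agent.H66.D2.Evp

/-!
# The corrections for one static coordinate
-/

set_option autoImplicit false

namespace Pool.TN

open Finset Real MvPolynomial
open Pool.Agent.H49.Ent Pool.Agent.H32.Dense Pool.STK Pool.KA Pool.KSAT Pool.K2S Pool.PB Pool.S6C
open Pool.GEN Pool.CHT Pool.CHX Pool.ISO Pool.D2R Pool.D2Z Pool.D2F
open Pool.FLF (Fam.sub)
open Pool.PB.Trl (rt rt_mem t_rt)

variable {m J : ℕ}

/-- The exact correction of the static direction `s₀`. -/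
noncomputable def aS {F : Fam m J} (c : ℕ → Fin m) (r : ℕ) (Sc : ℕ → Prop) (t s₀ : ℕ)
    (Xc : LnT F → ℕ → MvPolynomial (Option (Fin m)) ℝ)
    (Φ : LnT F → MvPolynomial (Option (Fin m)) ℝ)
    (Γ : PtT F → ℕ → Option (Fin m) → ℝ) (ω : F.Ω) : ℝ :=
  cv (Γ (ptr F J ω) r - grd (Φ (slam F t ω)) (bt F ω))
    (ev c r (mx Sc (kc t Xc ω) (Γ (ptr F J ω))) s₀)

/-- **`DlP` for one static coordinate**: from the equations of the row with the exact correction,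
the lower bound of the second derivative of the static chart and the frozen denominator. -/
theorem dlp_one {F : Fam m J} {c : ℕ → Fin m} {r : ℕ} {Sc : ℕ → Prop} {D t K A e d : ℕ}
    {gK g' gT : ℕ → ℕ} {p : ℕ} {Y : ℝ} {B : F.Ω → Prop}
    {GK : PtT F → ℕ → MvPolynomial (Option (Fin m)) ℝ}
    {HK Xc : LnT F → ℕ → MvPolynomial (Option (Fin m)) ℝ}
    {Φ : LnT F → MvPolynomial (Option (Fin m)) ℝ}
    {σ Γ : PtT F → ℕ → Option (Fin m) → ℝ} {γ : PtT F → Option (Fin m) → ℝ}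
    (h : StP F c r Sc D t K A e d gK g' gT p Y B GK HK Xc Φ σ Γ γ)
    (hc : Set.InjOn c (Set.Iio r)) (ht : t ≤ J) {s₀ f : ℕ} (hs₀ : s₀ < r) (h00 : 0 < s₀)
    (h1 : ∀ l < r, Sc l ↔ l = s₀)
    (hE : ∀ ω, B ω → ∀ x < r, ¬ Sc x →
      |hs (Φ (slam F t ω)) (bt F ω) (bd F ω) (ev c r (mx Sc (kc t Xc ω) (Γ (ptr F J ω))) x) -
        aS c r Sc t s₀ Xc Φ Γ ω * hs (Xc (slam F t ω) s₀) (bt F ω) (bd F ω)
          (ev c r (mx Sc (kc t Xc ω) (Γ (ptr F J ω))) x)| ≤ Y * 2 ^ K / 2 ^ gK r * 2 ^ g' x)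
    (hlow : ∀ ω, B ω → 2 ^ (K + g' 0) / 2 ^ gK s₀ ≤ Y *
      |hs (Xc (slam F t ω) s₀) (bt F ω) (bd F ω) (ev c r (kc t Xc ω) 0)|)
    (hfro : ∀ ω, B ω → |hs (Xc (slam F t ω) s₀) (bt F ω) (bd F ω) (ev c r (kc t Xc ω) 0) -
      (zp c r t (fun s => Xc s s₀) Xc 0 (slam F t ω)).eval 0| ≤ Y / 2 ^ f *
      |hs (Xc (slam F t ω) s₀) (bt F ω) (bd F ω) (ev c r (kc t Xc ω) 0)|)
    (hf : Y / 2 ^ f ≤ 1 / 2) (hfA : 2 ^ gT s₀ / 2 ^ p ≤ Y * 2 ^ f * (2 ^ gK s₀ / 2 ^ gK r)) :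
    DlP F c r Sc (D * (r + 1)) t K gK g' (Y ^ (3 * r + 10)) B Xc Φ Γ (dlt c r t s₀ Φ Xc) := by
  have hY2 := h.num.y2
  have hY1 : 1 ≤ Y := by linarith
  have hY0 : 0 < Y := by linarith
  have hss : Sc s₀ := (h1 s₀ hs₀).2 rfl
  -- powers
  have hpp : ∀ {a b : ℕ}, a ≤ b → Y ^ a ≤ Y ^ b := fun hab => pow_le_pow_right₀ hY1 hab
  have hsuc : ∀ a : ℕ, 2 * Y ^ a ≤ Y ^ (a + 1) := fun a => by
    rw [pow_succ]
    have : 0 ≤ Y ^ a := by positivity
    nlinarith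
  obtain ⟨Q, hQ⟩ : ∃ Q : ℝ, Q = 2 ^ gK s₀ / 2 ^ gK r := ⟨_, rfl⟩
  have hQ0 : 0 < Q := by rw [hQ]; positivity
  -- the main estimate
  have main : ∀ ω, B ω → |(dlt c r t s₀ Φ Xc (slam F t ω) s₀).eval (rt F t ω) -
      aS c r Sc t s₀ Xc Φ Γ ω| ≤ Y ^ (3 * r + 8) * Q := by
    intro ω hω
    have hκc : ∀ l, CvC c l (kc t Xc ω l) := fun l => cvc_kc h.pX ω l
    have hΓc : ∀ l, CvC c l (Γ (ptr F J ω) l) := h.cΓ _
    obtain ⟨κ, hκ⟩ : ∃ κ, κ = kc t Xc ω := ⟨_, rfl⟩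
    obtain ⟨Γo, hΓ⟩ : ∃ Γo, Γo = Γ (ptr F J ω) := ⟨_, rfl⟩
    have hE' := hE ω hω
    have hlow' := hlow ω hω
    have hfro' := hfro ω hω
    obtain ⟨a, ha⟩ : ∃ a, a = aS c r Sc t s₀ Xc Φ Γ ω := ⟨_, rfl⟩
    have ha' : a = cv (Γ (ptr F J ω) r - grd (Φ (slam F t ω)) (bt F ω))
      (ev c r (mx Sc (kc t Xc ω) (Γ (ptr F J ω))) s₀) := ha
    rw [← ha] at hE' ⊢
    rw [← hκ, ← hΓ] at hE' ha'
    rw [← hκ] at hlow' hfro'
    rw [← hκ] at hκc
    rw [← hΓ] at hΓc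
    -- the numerator and the denominator
    have hn : (dlt c r t s₀ Φ Xc (slam F t ω) s₀).eval (rt F t ω) =
        ((zp c r t (fun s => Xc s s₀) Xc 0 (slam F t ω)).eval 0)⁻¹ *
          hs (Φ (slam F t ω)) (bt F ω) (bd F ω) (ev c r κ 0) := by
      unfold dlt
      rw [if_pos rfl, Polynomial.eval_mul, Polynomial.eval_C, zp_rt hc ht h.pP h.pX, hκ]
    rw [hn]
    obtain ⟨W, hW⟩ : ∃ W : Option (Fin m) → ℝ, W = hcv (Φ (slam F t ω)) (bt F ω) (bd F ω) -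
        a • hcv (Xc (slam F t ω) s₀) (bt F ω) (bd F ω) := ⟨_, rfl⟩
    have hWV : ∀ V, cv W V = Pool.D2R.hs (Φ (slam F t ω)) (bt F ω) (bd F ω) V -
        a * Pool.D2R.hs (Xc (slam F t ω) s₀) (bt F ω) (bd F ω) V := by
      intro V
      rw [hW, cv_subl, cv_smull, cv_hcv, cv_hcv]
    have hWc : CvC c r W := by
      intro k hk
      rw [hW]
      have e1 := cvc_hcv (h.pP (slam F t ω)) (bt F ω) (bd F ω) k hk
      have e2 := cvc_hcv ((h.pX (slam F t ω) s₀).mono hs₀.le) (bt F ω) (bd F ω) k hk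
      show hcv (Φ (slam F t ω)) (bt F ω) (bd F ω) (some k) -
        a * hcv (Xc (slam F t ω) s₀) (bt F ω) (bd F ω) (some k) = 0
      rw [e1, e2]
      ring
    have hMc := mx_cvc (Sc := Sc) hκc hΓc
    have hdec := cv_ev hc hMc hWc (V := ev c r κ 0) (ev_none _ _ _ _)
    have hterm : ∀ l ∈ range r, |cv W (ev c r (mx Sc κ Γo) l) *
        (ev c r κ 0 (some (c l)) - cv (mx Sc κ Γo l) (ev c r κ 0))| ≤
        Y ^ 3 * (2 ^ K / 2 ^ gK r * 2 ^ g' 0) := by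
      intro l hl
      rw [Finset.mem_range] at hl
      have hcomp := ev_comp hc hκc 0 hl
      by_cases hsl : Sc l
      · rw [mx_pos hsl, hcomp, if_neg (by
          have := (h1 l hl).1 hsl
          omega), mul_zero, abs_zero]
        positivity
      · rw [mx_neg hsl, abs_mul]
        have e1 : ev c r κ 0 (some (c l)) - cv (Γo l) (ev c r κ 0) =
            (if l = 0 then 1 else 0) - cv (Γo l - κ l) (ev c r κ 0) := by
          rw [← hcomp, cv_subl]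
          ring
        have e2 : |cv (Γo l - κ l) (ev c r κ 0)| ≤ Y * (2 ^ g' 0 / 2 ^ g' l) := by
          have e3 := h.h2 ω hω l hl hsl (ev c r κ 0) (ev_none _ _ _ _)
          rw [← hκ, ← hΓ] at e3
          refine e3.trans ((mul_le_mul_of_nonneg_left (sz_ev hc hκc g' hl.le)
            (by positivity)).trans (le_of_eq ?_))
          ring
        have e4 : |ev c r κ 0 (some (c l)) - cv (Γo l) (ev c r κ 0)| ≤
            Y ^ 2 * (2 ^ g' 0 / 2 ^ g' l) := by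
          rw [e1]
          refine (abs_sub _ _).trans ?_
          have e5 : |(if l = 0 then (1 : ℝ) else 0)| ≤ 2 ^ g' 0 / 2 ^ g' l := by
            by_cases h0 : l = 0
            · subst h0
              rw [if_pos rfl, abs_one, div_self (by positivity)]
            · rw [if_neg h0, abs_zero]
              positivity
          refine (add_le_add e5 e2).trans ?_
          have e6 : 0 ≤ (2 : ℝ) ^ g' 0 / 2 ^ g' l := by positivity
          have e7 : 1 + Y ≤ Y ^ 2 := by nlinarith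
          have e8 := mul_le_mul_of_nonneg_right e7 e6
          linarith
        have e7 := hE' l hl hsl
        rw [← hWV] at e7
        calc |cv W (ev c r (mx Sc κ Γo) l)| *
              |ev c r κ 0 (some (c l)) - cv (Γo l) (ev c r κ 0)| ≤
              (Y * 2 ^ K / 2 ^ gK r * 2 ^ g' l) * (Y ^ 2 * (2 ^ g' 0 / 2 ^ g' l)) :=
              mul_le_mul e7 e4 (abs_nonneg _) (by positivity)
          _ = Y ^ 3 * (2 ^ K / 2 ^ gK r * 2 ^ g' 0) := by field_simp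
    have hsum : |cv W (ev c r κ 0)| ≤ Y ^ 4 * (2 ^ K / 2 ^ gK r * 2 ^ g' 0) := by
      rw [hdec]
      refine (Finset.abs_sum_le_sum_abs _ _).trans ((Finset.sum_le_sum hterm).trans ?_)
      rw [Finset.sum_const, Finset.card_range, nsmul_eq_mul]
      have e1 := h.num.yn
      have e2 : 0 ≤ Y ^ 3 * (2 ^ K / 2 ^ gK r * 2 ^ g' 0 : ℝ) := by positivity
      calc (r : ℝ) * (Y ^ 3 * (2 ^ K / 2 ^ gK r * 2 ^ g' 0)) ≤
            Y * (Y ^ 3 * (2 ^ K / 2 ^ gK r * 2 ^ g' 0)) := mul_le_mul_of_nonneg_right e1 e2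
        _ = _ := by ring
    rw [hWV] at hsum
    obtain ⟨z, hz⟩ : ∃ z, z = Pool.D2R.hs (Xc (slam F t ω) s₀) (bt F ω) (bd F ω)
        (ev c r κ 0) := ⟨_, rfl⟩
    rw [← hz] at hsum hlow' hfro'
    have hz0 : 0 < |z| := by
      have e1 : (0 : ℝ) < 2 ^ (K + g' 0) / 2 ^ gK s₀ := by positivity
      by_contra hcon
      have e2 : |z| = 0 := le_antisymm (not_lt.1 hcon) (abs_nonneg _)
      rw [e2, mul_zero] at hlow'
      linarith
    have hEz : |Pool.D2R.hs (Φ (slam F t ω)) (bt F ω) (bd F ω) (ev c r κ 0) - a * z| ≤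
        (Y ^ 5 * Q) * |z| := by
      refine hsum.trans ?_
      have e1 : (2 : ℝ) ^ K * 2 ^ g' 0 ≤ Y * |z| * 2 ^ gK s₀ := by
        rw [div_le_iff₀ (by positivity), pow_add] at hlow'
        exact hlow'
      calc Y ^ 4 * ((2 : ℝ) ^ K / 2 ^ gK r * 2 ^ g' 0) =
            Y ^ 4 / 2 ^ gK r * (2 ^ K * 2 ^ g' 0) := by ring
        _ ≤ Y ^ 4 / 2 ^ gK r * (Y * |z| * 2 ^ gK s₀) :=
            mul_le_mul_of_nonneg_left e1 (by positivity)
        _ = (Y ^ 5 * Q) * |z| := by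
            rw [hQ]
            ring
    -- the size of the exact correction
    have hCh : ChC c r Sc gK g' Y κ Γo := by
      rw [hκ, hΓ]
      exact ⟨fun l => cvc_kc h.pX ω l, h.cΓ _, h.h1 ω hω, h.h2 ω hω⟩
    have h13 : (1 + Y ^ 2) ^ r ≤ Y ^ (3 * r) := by
      rw [pow_mul]
      refine pow_le_pow_left₀ (by positivity) ?_ r
      have : Y ^ 3 = Y ^ 2 * Y := pow_succ _ _
      nlinarith
    have hab : |a| ≤ Y ^ (3 * r + 3) * 2 ^ f * Q := by
      have e1 := h.rw1 ω hω (ev c r (mx Sc κ Γo) s₀) (ev_none _ _ _ _)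
      have e2 : |a| ≤ Y / 2 ^ p * sz c gT κ r (ev c r (mx Sc κ Γo) s₀) +
          Y / 2 ^ gK r * sz c gK Γo r (ev c r (mx Sc κ Γo) s₀) := by
        rw [ha', hΓ, cv_swp, hκ]
        rw [hκ, hΓ] at e1
        exact e1
      have e3 := sz_evT hc h.num hCh (x := s₀) le_rfl
      have e4 := sz_evK' hc h.num hCh (x := s₀) le_rfl
      have e5 : Y / 2 ^ p * sz c gT κ r (ev c r (mx Sc κ Γo) s₀) ≤
          Y * Y ^ (3 * r) * (Y * 2 ^ f * Q) := by
        calc Y / 2 ^ p * sz c gT κ r (ev c r (mx Sc κ Γo) s₀) ≤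
              Y / 2 ^ p * ((1 + Y ^ 2) ^ r * 2 ^ gT s₀) :=
              mul_le_mul_of_nonneg_left e3 (by positivity)
          _ = Y * (1 + Y ^ 2) ^ r * (2 ^ gT s₀ / 2 ^ p) := by ring
          _ ≤ Y * Y ^ (3 * r) * (Y * 2 ^ f * Q) := by
              rw [hQ]
              exact mul_le_mul (mul_le_mul_of_nonneg_left h13 hY0.le) hfA (by positivity)
                (by positivity)
      have e6 : Y / 2 ^ gK r * sz c gK Γo r (ev c r (mx Sc κ Γo) s₀) ≤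
          Y * Y ^ (3 * r) * Q := by
        calc Y / 2 ^ gK r * sz c gK Γo r (ev c r (mx Sc κ Γo) s₀) ≤
              Y / 2 ^ gK r * ((1 + Y ^ 2) ^ r * 2 ^ gK s₀) :=
              mul_le_mul_of_nonneg_left e4 (by positivity)
          _ = Y * (1 + Y ^ 2) ^ r * Q := by
              rw [hQ]
              ring
          _ ≤ _ := mul_le_mul_of_nonneg_right (mul_le_mul_of_nonneg_left h13 hY0.le) hQ0.le
      refine e2.trans ((add_le_add e5 e6).trans ?_)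
      have e7 : Y * 2 ^ f + 1 ≤ Y ^ 2 * 2 ^ f := by
        have e8 : (1 : ℝ) ≤ 2 ^ f := one_le_pow₀ (by norm_num)
        nlinarith [mul_le_mul_of_nonneg_left e8 hY0.le]
      calc Y * Y ^ (3 * r) * (Y * 2 ^ f * Q) + Y * Y ^ (3 * r) * Q =
            Y * Y ^ (3 * r) * Q * (Y * 2 ^ f + 1) := by ring
        _ ≤ Y * Y ^ (3 * r) * Q * (Y ^ 2 * 2 ^ f) :=
            mul_le_mul_of_nonneg_left e7 (by positivity)
        _ = Y ^ (3 * r + 3) * 2 ^ f * Q := by ring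
    have haf : |a| * (Y / 2 ^ f) ≤ Y ^ (3 * r + 4) * Q := by
      refine (mul_le_mul_of_nonneg_right hab (by positivity)).trans (le_of_eq ?_)
      have : (2 : ℝ) ^ f ≠ 0 := by positivity
      field_simp
      ring
    have h9 := froz hEz hz0 (by positivity) (by positivity) hfro' hf haf
    refine h9.trans ?_
    have e1 : 3 * Y ^ 5 ≤ Y ^ (3 * r + 7) := by
      have e2 : 3 * Y ^ 5 ≤ Y ^ 7 := by
        have : Y ^ 7 = Y ^ 5 * (Y * Y) := by ring
        have e4 : 4 ≤ Y * Y := by nlinarith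
        have e5 : 0 ≤ Y ^ 5 := by positivity
        nlinarith
      exact e2.trans (hpp (by omega))
    have e2 : 2 * Y ^ (3 * r + 4) ≤ Y ^ (3 * r + 7) := (hsuc _).trans (hpp (by omega))
    calc 2 * (Y ^ (3 * r + 4) * Q) + 3 * (Y ^ 5 * Q) =
          (2 * Y ^ (3 * r + 4) + 3 * Y ^ 5) * Q := by ring
      _ ≤ Y ^ (3 * r + 8) * Q := by
          refine mul_le_mul_of_nonneg_right ?_ hQ0.le
          have e3 := hsuc (3 * r + 7)
          linarith
  refine ⟨fun s l => dlt_deg c r t s₀ h.dP h.dX s l, fun ω hω l hl hsl => ?_,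
    fun ω hω x hx hsx => ?_⟩
  · have e1 := (h1 l hl).1 hsl
    subst e1
    have h2 := main ω hω
    unfold aS at h2
    rw [hQ] at h2
    exact h2.trans (mul_le_mul_of_nonneg_right (hpp (by omega)) (by positivity))
  · have hκc : ∀ l, CvC c l (kc t Xc ω l) := fun l => cvc_kc h.pX ω l
    have hMc := mx_cvc (Sc := Sc) hκc (h.cΓ (ptr F J ω))
    obtain ⟨V, hV⟩ : ∃ V, V = ev c r (mx Sc (kc t Xc ω) (Γ (ptr F J ω))) x := ⟨_, rfl⟩
    have hsum : ∑ l ∈ range r, wt Sc (fun l => (dlt c r t s₀ Φ Xc (slam F t ω) l).eval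
        (rt F t ω)) l * Pool.D2R.hs (Xc (slam F t ω) l) (bt F ω) (bd F ω) V =
        (dlt c r t s₀ Φ Xc (slam F t ω) s₀).eval (rt F t ω) *
          Pool.D2R.hs (Xc (slam F t ω) s₀) (bt F ω) (bd F ω) V := by
      rw [Finset.sum_eq_single s₀]
      · rw [wt_pos hss]
      · intro l hl hne
        rw [Finset.mem_range] at hl
        rw [wt_neg (fun h2 => hne ((h1 l hl).1 h2)), zero_mul]
      · intro h2
        exact absurd (Finset.mem_range.2 hs₀) h2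
    have hz : |Pool.D2R.hs (Xc (slam F t ω) s₀) (bt F ω) (bd F ω) V| ≤
        Y * 2 ^ K / 2 ^ gK s₀ * 2 ^ g' x := by
      rcases lt_or_ge x s₀ with h2 | h2
      · rw [hV, hs_cut hc hs₀.le hMc x (h.pX _ _)]
        exact h.x2 ω hω s₀ hs₀ hss x h2 hsx
      · rw [hV, hs_zero_ev hc hs₀.le hMc h2 (h.pX _ _), abs_zero]
        positivity
    have e1 := hE ω hω x hx hsx
    have e2 := main ω hω
    rw [← hV] at e1 ⊢
    rw [hsum]
    obtain ⟨a, ha⟩ : ∃ a, a = aS c r Sc t s₀ Xc Φ Γ ω := ⟨_, rfl⟩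
    obtain ⟨δ, hδ⟩ : ∃ δ, δ = (dlt c r t s₀ Φ Xc (slam F t ω) s₀).eval (rt F t ω) := ⟨_, rfl⟩
    rw [← ha] at e1 e2
    rw [← hδ] at e2 ⊢
    have e3 : ∀ u v : ℝ, u - δ * v = (u - a * v) - (δ - a) * v := fun u v => by ring
    rw [e3]
    refine (abs_sub _ _).trans ?_
    rw [abs_mul]
    have e4 : |δ - a| * |Pool.D2R.hs (Xc (slam F t ω) s₀) (bt F ω) (bd F ω) V| ≤
        (Y ^ (3 * r + 8) * Q) * (Y * 2 ^ K / 2 ^ gK s₀ * 2 ^ g' x) :=
      mul_le_mul e2 hz (abs_nonneg _) (by positivity)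
    refine (add_le_add e1 e4).trans ?_
    have e5 : (Y ^ (3 * r + 8) * Q) * (Y * 2 ^ K / 2 ^ gK s₀ * 2 ^ g' x) =
        Y ^ (3 * r + 9) * (2 ^ K / 2 ^ gK r * 2 ^ g' x) := by
      rw [hQ]
      field_simp
      ring
    have e6 : Y * 2 ^ K / 2 ^ gK r * 2 ^ g' x = Y ^ 1 * (2 ^ K / 2 ^ gK r * 2 ^ g' x) := by
      rw [pow_one]
      ring
    have e7 : Y ^ (3 * r + 10) * 2 ^ K / 2 ^ gK r * 2 ^ g' x =
        Y ^ (3 * r + 10) * (2 ^ K / 2 ^ gK r * 2 ^ g' x) := by ring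
    rw [e5, e6, e7, ← add_mul]
    refine mul_le_mul_of_nonneg_right ?_ (by positivity)
    have e8 := hsuc (3 * r + 9)
    have e9 : Y ^ 1 ≤ Y ^ (3 * r + 9) := hpp (by omega)
    linarith

end Pool.TN
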