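import Pool.Agent.H66.D2.Dlo
import Pool.Agent.H88.D2.Stv

/-!
# The end of the static cells at class level

`end_cls`: an event with `StP` and `DlP`, with a precision of the target above the number of the
class, is small.
-/

set_option autoImplicit false

namespace Pool.TN

open Finset Real MvPolynomial
open Pool.Agent.H49.Ent Pool.Agent.H32.Dense Pool.STK Pool.KA Pool.KSAT Pool.K2S Pool.PB Pool.S6C
open Pool.GEN Pool.CHT Pool.CHX Pool.ISO Pool.D2R Pool.D2Z Pool.D2F Pool.AFT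
open Pool.LBT (ThrOf)
open Pool.FLF (Fam.sub)
open Pool.PB.Trl (rt rt_mem t_rt)

variable {m : ℕ}

/-- The numbers of `end_cls`. -/
theorem num_end {u r x : ℕ} (hx : x = 2 * u + r + 3) :
    (1 + (2 : ℝ) ^ u) + 2 * (r + 1) * 2 ^ u * (2 + 2 ^ u) ≤ 2 ^ x := by
  obtain ⟨U, hU⟩ : ∃ U : ℝ, U = 2 ^ u := ⟨_, rfl⟩
  have hU1 : 1 ≤ U := by rw [hU]; exact one_le_pow₀ (by norm_num)
  have hr : (r : ℝ) + 1 ≤ 2 ^ r := by
    have h1 : r + 1 ≤ 2 ^ r := Nat.lt_two_pow_self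
    have h2 : ((r + 1 : ℕ) : ℝ) ≤ ((2 ^ r : ℕ) : ℝ) := by exact_mod_cast h1
    push_cast at h2
    exact h2
  have e1 : (2 : ℝ) ^ x = 8 * 2 ^ r * (U * U) := by
    rw [hx, hU, pow_add, pow_add, two_mul, pow_add]
    ring
  rw [← hU, e1]
  have hr0 : (0 : ℝ) ≤ r := Nat.cast_nonneg r
  have e2 : U ≤ U * U := by nlinarith
  have e3 : (1 + U) ≤ 2 * (U * U) := by linarith
  have e4 : U * (2 + U) ≤ 3 * (U * U) := by nlinarith
  have e5 : 2 * ((r : ℝ) + 1) * (U * (2 + U)) ≤ 2 * (r + 1) * (3 * (U * U)) :=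
    mul_le_mul_of_nonneg_left e4 (by linarith)
  have e6 : ((r : ℝ) + 1) * (U * U) ≤ 2 ^ r * (U * U) :=
    mul_le_mul_of_nonneg_right hr (by positivity)
  have e7 : (U * U) ≤ ((r : ℝ) + 1) * (U * U) := by nlinarith
  calc (1 + U) + 2 * (r + 1) * U * (2 + U) = (1 + U) + 2 * (r + 1) * (U * (2 + U)) := by ring
    _ ≤ 2 * (U * U) + 2 * (r + 1) * (3 * (U * U)) := add_le_add e3 e5
    _ ≤ 8 * (((r : ℝ) + 1) * (U * U)) := by linarith
    _ ≤ _ := by linarith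

/-- **The end of the static cells.** -/
theorem end_cls (m D D₁ r : ℕ) (hD : 1 ≤ D) : ∃ C : ℕ, 1 ≤ C ∧
    ∀ {θ : ℝ} {S : PCl m} {P : List (Fin m) × Fin m → ℝ → ℝ → ℝ} (_ : ThrOf (chsys m θ) S P)
    (_ : TmH S) (c : ℕ → Fin m) (_ : Set.InjOn c (Set.Iio (r + 1))) (a w : ℚ)
    (b eb h ε κ : ℝ) (_ : 0 ≤ w) (_ : w ≤ a) (_ : a ≤ 1) (_ : b < 1) (_ : eb < θ * w)
    (_ : 0 < h) (_ : bet P c r a w + h ≤ 1) (_ : 0 < ε) (_ : 0 < κ),
    Bas S (fun J F A => ∀ (t K A' e d k p : ℕ) (gK g' gT : ℕ → ℕ) (Sc : ℕ → Prop) (Y : ℝ)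
      (B : F.Ω → Prop) (GK : PtT F → ℕ → MvPolynomial (Option (Fin m)) ℝ)
      (HK Xc : LnT F → ℕ → MvPolynomial (Option (Fin m)) ℝ)
      (Φ : LnT F → MvPolynomial (Option (Fin m)) ℝ)
      (σ Γ : PtT F → ℕ → Option (Fin m) → ℝ) (γ : PtT F → Option (Fin m) → ℝ)
      (δp : LnT F → ℕ → Polynomial ℝ), t ≤ K → K ≤ J → (K : ℝ) ≤ b * J →
      K ≤ ⌊(a : ℝ) * J⌋₊ → t ≤ ⌊(w : ℝ) * J⌋₊ → ε * J ≤ k → Sub B A → Y ≤ 2 ^ k →
      StP F c r Sc D t K A' e d gK g' gT p Y B GK HK Xc Φ σ Γ γ →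
      DlP F c r Sc D₁ t K gK g' Y B Xc Φ Γ δp →
      e + d + C * (k + 1) ≤ ⌊eb * J⌋₊ → (∀ l < r, e + d + g' l + C * (k + 1) ≤ J) →
      e + d + gK r + C * (k + 1) ≤ J → (∀ l < r, C * (k + 1) ≤ g' l) → C * (k + 1) ≤ gK r →
      ⌊(bet P c r a w + h) * J⌋₊ + K + C * (k + 1) ≤ gK r + ⌊(a : ℝ) * J⌋₊ →
      Pe F.p B < κ * Pe F.p A) := by
  classical
  obtain ⟨C₁, hC₁, hafd⟩ := stp_afd m D D₁ r hD
  obtain ⟨C, hC⟩ : ∃ C, C = (r + 1) * (2 * C₁ + r + 3) + C₁ + r + 1 := ⟨_, rfl⟩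
  refine ⟨C, by omega, ?_⟩
  intro θ S P hP hT c hc a w b eb h ε κ hw0 hwa ha hb he hh h2 hε hκ
  have hL2 : 0 < Real.log 2 := Real.log_pos (by norm_num)
  obtain ⟨δ, hδ, b3⟩ := aff_no hP c r (D + D₁) hc a w eb h hw0 hwa ha he hh h2
  obtain ⟨κ₁, hκ₁⟩ : ∃ κ₁ : ℝ, κ₁ = κ / 2 ^ (r + 2) := ⟨_, rfl⟩
  have hκ₁0 : 0 < κ₁ := by rw [hκ₁]; positivity
  obtain ⟨μ, hμ⟩ : ∃ μ : ℝ, μ = min ε (1 - b) * Real.log 2 / 2 := ⟨_, rfl⟩
  have hμ0 : 0 < μ := by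
    rw [hμ]
    have : 0 < min ε (1 - b) := lt_min hε (by linarith)
    positivity
  have hCM0 : (0 : ℝ) < C₁ := by
    have : (1 : ℝ) ≤ C₁ := by exact_mod_cast hC₁
    linarith
  obtain ⟨ε₁, hε₁⟩ : ∃ ε₁ : ℝ, ε₁ = μ / C₁ := ⟨_, rfl⟩
  have hε₁0 : 0 < ε₁ := by rw [hε₁]; positivity
  have htm := bas_ev (hT.2 ε₁ hε₁0) hκ₁0
  have hpos : Bas S (fun _ F A => 0 < Pe F.p A) := ⟨1, one_pos, 0, fun J _ F A hA =>
    hT.1 1 J F A hA⟩
  obtain ⟨J₁, hJ₁⟩ := exists_nat_ge (C₁ / μ)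
  obtain ⟨J₂, hJ₂⟩ := exists_nat_ge (-Real.log (κ₁ / 2) / δ)
  refine Bas.mono (max J₁ J₂) ((b3.and htm).and hpos) ?_
  rintro J hJ F A ⟨⟨haA, htA⟩, hA0⟩
  intro t K A' e d k p gK g' gT Sc Y B GK HK Xc Φ σ Γ γ δp htK hKJ hKb hKa htw hk hBA hYk hS hDl
    n1 n2 n3 n4 n5 n6
  by_contra hcon
  rw [not_lt] at hcon
  have hB0 : 0 < Pe F.p B := (mul_pos hκ hA0).trans_le hcon
  have hJ0 : (0 : ℝ) ≤ J := Nat.cast_nonneg J
  have hJ1 : (C₁ : ℝ) ≤ μ * J := by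
    have h2 : (J₁ : ℝ) ≤ J := by exact_mod_cast (le_max_left _ _).trans hJ
    have h3 := hJ₁.trans h2
    rw [div_le_iff₀ hμ0] at h3
    linarith
  have hJ2 : Real.exp (-(δ * J)) ≤ κ₁ / 2 := by
    have h2 : (J₂ : ℝ) ≤ J := by exact_mod_cast (le_max_right _ _).trans hJ
    have h3 := hJ₂.trans h2
    rw [div_le_iff₀ hδ] at h3
    have h4 : -(δ * (J : ℝ)) ≤ Real.log (κ₁ / 2) := by linarith
    exact (Real.exp_le_exp.2 h4).trans (Real.exp_log (by positivity)).le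
  have hmain : (C₁ : ℝ) * (ε₁ * J + 1) ≤ min ε (1 - b) * Real.log 2 * J := by
    have e1 : (C₁ : ℝ) * (ε₁ * J) = μ * J := by rw [hε₁]; field_simp
    have e2 : 2 * (μ * J) = min ε (1 - b) * Real.log 2 * J := by rw [hμ]; ring
    rw [mul_add, mul_one, e1]
    linarith
  have hm1 : (C₁ : ℝ) * (ε₁ * J + 1) ≤ k * Real.log 2 := by
    refine hmain.trans ?_
    have e1 : min ε (1 - b) * Real.log 2 * J ≤ ε * Real.log 2 * J :=
      mul_le_mul_of_nonneg_right (mul_le_mul_of_nonneg_right (min_le_left _ _) hL2.le) hJ0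
    have e2 := mul_le_mul_of_nonneg_right hk hL2.le
    linarith
  have hm2 : (C₁ : ℝ) * (ε₁ * J + 1) ≤ ((J : ℝ) - K) * Real.log 2 := by
    refine hmain.trans ?_
    have e1 : min ε (1 - b) * Real.log 2 * J ≤ (1 - b) * Real.log 2 * J :=
      mul_le_mul_of_nonneg_right (mul_le_mul_of_nonneg_right (min_le_right _ _) hL2.le) hJ0
    have e3 := mul_le_mul_of_nonneg_right hKb hL2.le
    linarith
  have hexp : Real.exp (C₁ * (ε₁ * J + 1)) ≤ 2 ^ k := by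
    have e2 : Real.exp (C₁ * (ε₁ * J + 1)) ≤ Real.exp (k * Real.log 2) :=
      Real.exp_le_exp.2 hm1
    rwa [mul_comm (k : ℝ), ← Real.rpow_def_of_pos (by norm_num), Real.rpow_natCast] at e2
  have hκB : ∀ {B' : F.Ω → Prop}, Pe F.p B ≤ 2 ^ (r + 2) * Pe F.p B' →
      κ₁ * Pe F.p A ≤ Pe F.p B' := fun {B'} h3 => by
    rw [hκ₁, div_mul_eq_mul_div, div_le_iff₀ (by positivity)]
    linarith
  obtain ⟨B', c1, c2, hAf⟩ := hafd hB0 hc htK hKJ hYk (by positivity) (fun B' hB' s1 s2 =>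
    htA B' (fun ω hω => hBA ω (s1 ω hω)) (hκB s2) hB') hm2 hexp hS hDl
  -- the numbers
  obtain ⟨u, hu⟩ : ∃ u, u = C₁ * (k + 1) := ⟨_, rfl⟩
  obtain ⟨x, hx⟩ : ∃ x, x = 2 * u + r + 3 := ⟨_, rfl⟩
  have hCx : (r + 1) * x + u + r + 1 ≤ C * (k + 1) := by
    have e1 : x ≤ (2 * C₁ + r + 3) * (k + 1) := by
      rw [hx, hu]
      nlinarith [Nat.zero_le (r * k), Nat.zero_le k]
    have e2 := Nat.mul_le_mul_left (r + 1) e1
    have e3 : C * (k + 1) = (r + 1) * ((2 * C₁ + r + 3) * (k + 1)) + C₁ * (k + 1) +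
        (r + 1) * (k + 1) := by
      rw [hC]
      ring
    have e4 : r + 1 ≤ (r + 1) * (k + 1) := Nat.le_mul_of_pos_right _ (Nat.succ_pos k)
    rw [e3]
    omega
  rw [← hu] at hAf
  have hlx : ∀ l < r + 1, (l + 1) * x ≤ (r + 1) * x := fun l hl =>
    Nat.mul_le_mul_right _ (by omega)
  have hfin := haA K t (e + d + u) x (fun l => if l < r then g' l else gK r) (2 ^ u) _ _ B' htK
    hKa htw (by omega) (fun l hl => by
      by_cases h5 : l < r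
      · have := n2 l h5
        simp only [h5, if_true]
        omega
      · simp only [h5, if_false]
        omega) (by positivity) (num_end hx) (fun l hl => by
      have h6 := hlx l hl
      by_cases h5 : l < r
      · have := n4 l h5
        simp only [h5, if_true]
        omega
      · simp only [h5, if_false]
        omega) (by
      simp only [lt_irrefl, if_false]
      omega) (fun ω hω => hBA ω (c1 ω hω)) hAf
  have h9 := hκB c2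
  have h10 : Real.exp (-(δ * J)) * Pe F.p A ≤ κ₁ / 2 * Pe F.p A :=
    mul_le_mul_of_nonneg_right hJ2 hA0.le
  have h11 : 0 < κ₁ * Pe F.p A := mul_pos hκ₁0 hA0
  linarith

end Pool.TN
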