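import Pool.Agent.H66.D2.Dcw
import Pool.Agent.H66.D2.Ecl

/-!
# The end of a static cell at class level, from the event of the windows

`NumF`: the numbers of the end; `end_cev`: the event of a static cell with one static coordinate, the
lower bound of its second derivative and the frozen denominator, is small.
-/

set_option autoImplicit false

namespace Pool.TN

open Finset Real MvPolynomial
open Pool.Agent.H49.Ent Pool.Agent.H32.Dense Pool.STK Pool.KA Pool.KSAT Pool.K2S Pool.PB Pool.S6C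
open Pool.GEN Pool.CHT Pool.CHX Pool.ISO Pool.D2R Pool.D2Z Pool.D2F Pool.AFT
open Pool.LBT (ThrOf)
open Pool.FLF (Fam.sub)
open Pool.PB.Trl (rt rt_mem t_rt)

variable {m : ℕ}

/-- The numbers of the end: `Q` the loss, `t`, `K` the windows, `at'`, `wt'` the roundings of the rational
windows, `eb'` the exponent, `bt'` the level of the threshold. -/
structure NumF (r J t K at' wt' eb' bt' eM d Q f p s₀ : ℕ) (gK g' gT : ℕ → ℕ) : Prop where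
  K1 : K ≤ at'
  t1 : t ≤ wt'
  f1 : Q ≤ f
  f2 : gT s₀ + gK r ≤ p + f + gK s₀
  n1 : eM + 2 * d + Q ≤ eb'
  n2 : ∀ l < r, eM + 2 * d + g' l + Q ≤ J
  n3 : eM + 2 * d + gK r + Q ≤ J
  n4 : ∀ l < r, Q ≤ g' l
  n5 : Q ≤ gK r
  n6 : bt' + K + Q ≤ gK r + at'

/-- **The end of a static cell** with one static coordinate, with the equation of a thin
coordinate as an alternative. -/
theorem end_cevG (m D r : ℕ) (hD : 1 ≤ D) : ∃ C : ℕ, 1 ≤ C ∧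
    ∀ {θ : ℝ} {S : PCl m} {P : List (Fin m) × Fin m → ℝ → ℝ → ℝ} (_ : ThrOf (chsys m θ) S P)
    (_ : TmH S) (c : ℕ → Fin m) (_ : Set.InjOn c (Set.Iio (r + 1))) (a w' : ℚ)
    (b eb h' ε κ₀ : ℝ) (_ : 0 ≤ w') (_ : w' ≤ a) (_ : a ≤ 1) (_ : b < 1) (_ : eb < θ * w')
    (_ : 0 < h') (_ : bet P c r a w' + h' ≤ 1) (_ : 0 < ε) (_ : 0 < κ₀),
    Bas S (fun J F A₀ => ∀ {Dr N M A cl : ℕ} {Sc : ℕ → Prop} {w e h pp : ℕ → ℕ}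
      {z g gc gT g₀ : ℕ → ℕ → ℕ} {κ : ℝ} {B : F.Ω → Prop}
      {G : ℕ → PtT F → ℕ → MvPolynomial (Option (Fin m)) ℝ}
      {H : ℕ → LnT F → ℕ → MvPolynomial (Option (Fin m)) ℝ}
      {T : ℕ → PtT F → ℕ → MvPolynomial (Option (Fin m)) ℝ}
      {TH : ℕ → LnT F → ℕ → MvPolynomial (Option (Fin m)) ℝ}
      {Gt : ℕ → PtT F → MvPolynomial (Option (Fin m)) ℝ}
      {Ht : ℕ → LnT F → MvPolynomial (Option (Fin m)) ℝ},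
      CEv F c r D Dr N M A cl Sc w e h pp z g gc gT g₀ κ B G H T TH Gt Ht → Sub B A₀ →
      ε * J ≤ cl → C ≤ cl →
      ∀ {i₀ i₁ i₂ i₃ X p x d eM s₀ f : ℕ} {g' : ℕ → ℕ},
      NumW r N M A cl J Sc w e pp z g gc gT g₀ i₀ i₁ i₂ i₃ X p x g' → e i₂ ≤ eM → e i₃ ≤ eM →
      (∀ y < r, g₀ i₃ y ≤ g' y + d) →
      (∀ l < r, Sc l → ∀ y < l, g₀ i₃ y ≤ g' y + X ∨
        (y + 1 = l ∧ w i₂ + g₀ i₂ y + g₀ i₃ l ≤ w i₃ + g₀ i₂ l + g' y + X)) →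
      s₀ < r → 0 < s₀ → (∀ l < r, Sc l ↔ l = s₀) →
      (∀ y < r, ¬ Sc y → g₀ i₃ y ≤ g' y + X ∨ ((∀ l < r, y < l → l = s₀) ∧
        EqW r N M A cl w pp z g gc gT g₀ i₀ i₁ i₃ X s₀ y g') ∨
        ∀ ω, B ω → |hs (Ht i₁ (slam F (w i₁) ω)) (bt F ω) (bd F ω) (ev c r (mx Sc (kc (w i₂)
              (Xcf w TH Sc i₀ i₂) ω) (gpt F (G i₃) (ptr F J ω))) y) -
            aS c r Sc (w i₂) s₀ (Xcf w TH Sc i₀ i₂) (fun s => Ht i₁ (co (w i₂ - w i₁) s))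
              (gpt F (G i₃)) ω * hs (TH i₀ (slam F (w i₀) ω) s₀) (bt F ω) (bd F ω)
              (ev c r (mx Sc (kc (w i₂) (Xcf w TH Sc i₀ i₂) ω)
                (gpt F (G i₃) (ptr F J ω))) y)| ≤
            2 ^ X * (2 ^ w i₃ / 2 ^ g₀ i₃ r) * 2 ^ g' y) →
      (∀ ω, B ω → 2 ^ (w i₃ + g' 0) / 2 ^ g₀ i₃ s₀ ≤ 2 ^ X *
        |hs (TH i₀ (slam F (w i₀) ω) s₀) (bt F ω) (bd F ω)
          (ev c r (mx Sc (kT w TH ω i₀) (kT w TH ω i₂)) 0)|) →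
      (∀ ω, B ω → |hs (TH i₀ (slam F (w i₀) ω) s₀) (bt F ω) (bd F ω)
          (ev c r (mx Sc (kT w TH ω i₀) (kT w TH ω i₂)) 0) -
        (zp c r (w i₂) (fun s => Xcf w TH Sc i₀ i₂ s s₀) (Xcf w TH Sc i₀ i₂) 0
          (slam F (w i₂) ω)).eval 0| ≤ 2 ^ X / 2 ^ f *
        |hs (TH i₀ (slam F (w i₀) ω) s₀) (bt F ω) (bd F ω)
          (ev c r (mx Sc (kT w TH ω i₀) (kT w TH ω i₂)) 0)|) →
      (w i₃ : ℝ) ≤ b * J →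
      NumF r J (w i₂) (w i₃) ⌊(a : ℝ) * J⌋₊ ⌊(w' : ℝ) * J⌋₊ ⌊eb * J⌋₊
        ⌊(bet P c r a w' + h') * J⌋₊ eM d (C * (cl + X + 1)) f p s₀ (g₀ i₃) g' (gT i₂) →
      Pe F.p B < κ₀ * Pe F.p A₀) := by
  classical
  obtain ⟨C₁, hC₁, hdlp⟩ := dlp_cevG D r
  obtain ⟨C₂, hC₂, hend⟩ := end_cls m D (D * (r + 1)) r hD
  obtain ⟨C, hC⟩ : ∃ C, C = C₁ + C₁ * C₁ + C₂ * (C₁ * C₁ + 1) := ⟨_, rfl⟩
  refine ⟨C, by omega, ?_⟩
  intro θ S P hP hT c hc a w' b eb h' ε κ₀ hw0 hwa ha hb he hh h2 hε hκ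
  refine Bas.mono 0 (hend hP hT c hc a w' b eb h' ε κ₀ hw0 hwa ha hb he hh h2 hε hκ) ?_
  rintro J - F A₀ hA
  intro Dr N M A cl Sc w e h pp z g gc gT g₀ κ B G H T TH Gt Ht E hBA hεc hCc i₀ i₁ i₂ i₃ X p x
    d eM s₀ f g' n he2 he3 hd hx2 hs₀ h00 h1 heq hlow hfro hbJ nf
  obtain ⟨q, hq⟩ : ∃ q, q = cl + X + 1 := ⟨_, rfl⟩
  have hq1 : 1 ≤ q := by omega
  have e0 : C * q = C₁ * q + C₁ * C₁ * q + C₂ * (C₁ * C₁ + 1) * q := by rw [hC]; ring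
  have e1 : C₂ * (C₁ * C₁ * q + 1) ≤ C₂ * (C₁ * C₁ + 1) * q := by
    have e2 : C₂ * (C₁ * C₁ + 1) * q = C₂ * (C₁ * C₁ * q + q) := by ring
    rw [e2]
    exact Nat.mul_le_mul_left _ (by omega)
  have hXC : X ≤ C₁ * (cl + X + 1) := by
    calc X ≤ 1 * (cl + X + 1) := by omega
      _ ≤ _ := Nat.mul_le_mul_right _ hC₁
  have hf1 := nf.f1
  rw [← hq, e0] at hf1
  obtain ⟨hS, hDl⟩ := hdlp E (by omega) n he2 he3 hd hx2 hs₀ h00 h1 heq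
    (fun ω hω => (hlow ω hω).trans (mul_le_mul_of_nonneg_right (p2 hXC) (abs_nonneg _)))
    (fun ω hω => (hfro ω hω).trans (mul_le_mul_of_nonneg_right (div_le_div_of_nonneg_right
      (p2 hXC) (by positivity)) (abs_nonneg _)))
    (by rw [← hq]; omega) nf.f2
  rw [← hq] at hS hDl
  have k1 := nf.n1
  have k3 := nf.n3
  have k5 := nf.n5
  have k6 := nf.n6
  rw [← hq, e0] at k1 k3 k5 k6
  have hcc : cl ≤ C₁ * C₁ * q := by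
    calc cl ≤ 1 * q := by omega
      _ ≤ _ := Nat.mul_le_mul_right _ (Nat.mul_pos hC₁ hC₁)
  exact hA (w i₂) (w i₃) A _ d (C₁ * C₁ * q) p (g₀ i₃) g' (gT i₂) Sc _ B _ _ _ _ _ _ _ _ n.w2
    ((E.wA i₃ n.h3).trans E.AJ) hbJ nf.K1 nf.t1 (hεc.trans (by exact_mod_cast hcc)) hBA le_rfl
    hS hDl (by omega) (fun l hl => by
      have k2 := nf.n2 l hl
      rw [← hq, e0] at k2
      omega) (by omega) (fun l hl => by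
      have k4 := nf.n4 l hl
      rw [← hq, e0] at k4
      omega) (by omega) (by omega)

/-- **The end of a static cell** with one static coordinate. -/
theorem end_cev (m D r : ℕ) (hD : 1 ≤ D) : ∃ C : ℕ, 1 ≤ C ∧
    ∀ {θ : ℝ} {S : PCl m} {P : List (Fin m) × Fin m → ℝ → ℝ → ℝ} (_ : ThrOf (chsys m θ) S P)
    (_ : TmH S) (c : ℕ → Fin m) (_ : Set.InjOn c (Set.Iio (r + 1))) (a w' : ℚ)
    (b eb h' ε κ₀ : ℝ) (_ : 0 ≤ w') (_ : w' ≤ a) (_ : a ≤ 1) (_ : b < 1) (_ : eb < θ * w')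
    (_ : 0 < h') (_ : bet P c r a w' + h' ≤ 1) (_ : 0 < ε) (_ : 0 < κ₀),
    Bas S (fun J F A₀ => ∀ {Dr N M A cl : ℕ} {Sc : ℕ → Prop} {w e h pp : ℕ → ℕ}
      {z g gc gT g₀ : ℕ → ℕ → ℕ} {κ : ℝ} {B : F.Ω → Prop}
      {G : ℕ → PtT F → ℕ → MvPolynomial (Option (Fin m)) ℝ}
      {H : ℕ → LnT F → ℕ → MvPolynomial (Option (Fin m)) ℝ}
      {T : ℕ → PtT F → ℕ → MvPolynomial (Option (Fin m)) ℝ}
      {TH : ℕ → LnT F → ℕ → MvPolynomial (Option (Fin m)) ℝ}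
      {Gt : ℕ → PtT F → MvPolynomial (Option (Fin m)) ℝ}
      {Ht : ℕ → LnT F → MvPolynomial (Option (Fin m)) ℝ},
      CEv F c r D Dr N M A cl Sc w e h pp z g gc gT g₀ κ B G H T TH Gt Ht → Sub B A₀ →
      ε * J ≤ cl → C ≤ cl →
      ∀ {i₀ i₁ i₂ i₃ X p x d eM s₀ f : ℕ} {g' : ℕ → ℕ},
      NumW r N M A cl J Sc w e pp z g gc gT g₀ i₀ i₁ i₂ i₃ X p x g' → e i₂ ≤ eM → e i₃ ≤ eM →
      (∀ y < r, g₀ i₃ y ≤ g' y + d) →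
      (∀ l < r, Sc l → ∀ y < l, g₀ i₃ y ≤ g' y + X ∨
        (y + 1 = l ∧ w i₂ + g₀ i₂ y + g₀ i₃ l ≤ w i₃ + g₀ i₂ l + g' y + X)) →
      s₀ < r → 0 < s₀ → (∀ l < r, Sc l ↔ l = s₀) →
      (∀ y < r, ¬ Sc y → g₀ i₃ y ≤ g' y + X ∨ ((∀ l < r, y < l → l = s₀) ∧
        EqW r N M A cl w pp z g gc gT g₀ i₀ i₁ i₃ X s₀ y g')) →
      (∀ ω, B ω → 2 ^ (w i₃ + g' 0) / 2 ^ g₀ i₃ s₀ ≤ 2 ^ X *
        |hs (TH i₀ (slam F (w i₀) ω) s₀) (bt F ω) (bd F ω)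
          (ev c r (mx Sc (kT w TH ω i₀) (kT w TH ω i₂)) 0)|) →
      (∀ ω, B ω → |hs (TH i₀ (slam F (w i₀) ω) s₀) (bt F ω) (bd F ω)
          (ev c r (mx Sc (kT w TH ω i₀) (kT w TH ω i₂)) 0) -
        (zp c r (w i₂) (fun s => Xcf w TH Sc i₀ i₂ s s₀) (Xcf w TH Sc i₀ i₂) 0
          (slam F (w i₂) ω)).eval 0| ≤ 2 ^ X / 2 ^ f *
        |hs (TH i₀ (slam F (w i₀) ω) s₀) (bt F ω) (bd F ω)
          (ev c r (mx Sc (kT w TH ω i₀) (kT w TH ω i₂)) 0)|) →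
      (w i₃ : ℝ) ≤ b * J →
      NumF r J (w i₂) (w i₃) ⌊(a : ℝ) * J⌋₊ ⌊(w' : ℝ) * J⌋₊ ⌊eb * J⌋₊
        ⌊(bet P c r a w' + h') * J⌋₊ eM d (C * (cl + X + 1)) f p s₀ (g₀ i₃) g' (gT i₂) →
      Pe F.p B < κ₀ * Pe F.p A₀) := by
  obtain ⟨C, hC, hgen⟩ := end_cevG m D r hD
  refine ⟨C, hC, ?_⟩
  intro θ S P hP hT c hc a w' b eb h' ε κ₀ hw0 hwa ha hb he hh h2 hε hκ
  refine Bas.mono 0 (hgen hP hT c hc a w' b eb h' ε κ₀ hw0 hwa ha hb he hh h2 hε hκ) ?_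
  rintro J - F A₀ hA
  intro Dr N M A cl Sc w e h pp z g gc gT g₀ κ B G H T TH Gt Ht E hBA hεc hCc i₀ i₁ i₂ i₃ X p x
    d eM s₀ f g' n he2 he3 hd hx2 hs₀ h00 h1 heq
  exact hA E hBA hεc hCc n he2 he3 hd hx2 hs₀ h00 h1 fun y hy hys =>
    (heq y hy hys).imp_right Or.inl

end Pool.TN
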