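import Pool.Agent.H66.D2.Dlo
import Pool.Agent.H89.D2.Ex2

/-!
# The equations of the row in the frames of the package

`mx_chg`: change of the mixed frame; `StP.eq0`: the equation of the row with the exact correction of
the package, from the equations in the frame of a near ball.
-/

set_option autoImplicit false

namespace Pool.TN

open Finset Real MvPolynomial
open Pool.Agent.H49.Ent Pool.Agent.H32.Dense Pool.STK Pool.KA Pool.KSAT Pool.K2S Pool.PB Pool.S6C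
open Pool.GEN Pool.CHT Pool.CHX Pool.ISO Pool.D2R Pool.D2Z Pool.D2F
open Pool.FLF (Fam.sub)
open Pool.PB.Trl (rt rt_mem t_rt)

variable {m J : ℕ}

/-- The components of a frame vector above which all coordinates are static. -/
theorem ev_stab {c : ℕ → Fin m} {n : ℕ} (hc : Set.InjOn c (Set.Iio n)) {Sc : ℕ → Prop}
    {κ Γ Γ' : ℕ → Option (Fin m) → ℝ} (hκ : ∀ l, CvC c l (κ l)) (hΓ : ∀ l, CvC c l (Γ l))
    (hΓ' : ∀ l, CvC c l (Γ' l)) {x : ℕ} (hx : ∀ l < n, x < l → Sc l) : ∀ j < n,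
    ev c n (mx Sc κ Γ) x (some (c j)) = ev c n (mx Sc κ Γ') x (some (c j)) := by
  have h1 := mx_cvc (Sc := Sc) hκ hΓ
  have h2 := mx_cvc (Sc := Sc) hκ hΓ'
  intro j
  induction j using Nat.strong_induction_on with
  | _ j ih =>
    intro hj
    rw [ev_rec hc h1 x hj, ev_rec hc h2 x hj]
    congr 1
    refine Finset.sum_congr rfl fun i hi => ?_
    rw [Finset.mem_range] at hi
    rcases Nat.lt_or_ge x j with h | h
    · rw [mx_pos (hx j hj h), mx_pos (hx j hj h), ih i hi (hi.trans hj)]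
    · rw [ev_low hc h1 i (hi.trans hj) (by omega), ev_low hc h2 i (hi.trans hj) (by omega),
        mul_zero, mul_zero]

/-- The second derivative depends only on the components. -/
theorem hs_cong {c : ℕ → Fin m} {l : ℕ} (hc : Set.InjOn c (Set.Iio l))
    {Q : MvPolynomial (Option (Fin m)) ℝ} (hQ : DepC c l Q) (x W : Option (Fin m) → ℝ)
    {V V' : Option (Fin m) → ℝ} (h0 : V none = 0) (h0' : V' none = 0)
    (h : ∀ j < l, V (some (c j)) = V' (some (c j))) : hs Q x W V = hs Q x W V' := by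
  rw [hs_sum_c hc hQ x W h0, hs_sum_c hc hQ x W h0']
  refine Finset.sum_congr rfl fun j hj => ?_
  rw [h j (Finset.mem_range.1 hj)]

theorem cv_cong {c : ℕ → Fin m} {l : ℕ} (hc : Set.InjOn c (Set.Iio l))
    {W : Option (Fin m) → ℝ} (hW : CvC c l W)
    {V V' : Option (Fin m) → ℝ} (h0 : V none = 0) (h0' : V' none = 0)
    (h : ∀ j < l, V (some (c j)) = V' (some (c j))) : cv W V = cv W V' := by
  rw [cv_eq hc hW, cv_eq hc hW, h0, h0']
  congr 1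
  refine Finset.sum_congr rfl fun j hj => ?_
  rw [h j (Finset.mem_range.1 hj)]

/-- The size of the vectors of a near frame. -/
theorem sz_chg {c : ℕ → Fin m} {n : ℕ} (hc : Set.InjOn c (Set.Iio n)) {Sc : ℕ → Prop}
    {κ Γ Γ' : ℕ → Option (Fin m) → ℝ} (hκ : ∀ l, CvC c l (κ l)) (hΓ' : ∀ l, CvC c l (Γ' l))
    {gK : ℕ → ℕ} {U : ℝ} (hU : 0 ≤ U)
    (H1 : ∀ l < n, Sc l → ∀ V : Option (Fin m) → ℝ, V none = 0 →
      |cv (κ l - Γ l) V| ≤ U / 2 ^ gK l * sz c gK Γ l V)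
    (H2 : ∀ l < n, ∀ V : Option (Fin m) → ℝ, V none = 0 →
      |cv (Γ' l - Γ l) V| ≤ U / 2 ^ gK l * sz c gK Γ l V) {x l : ℕ} (hl : l ≤ n) :
    sz c gK Γ l (ev c n (mx Sc κ Γ') x) ≤ (1 + U) ^ n * 2 ^ gK x := by
  have h1 : ∀ j < n, |cv (mx Sc κ Γ' j - Γ j) (ev c n (mx Sc κ Γ') x)| ≤
      U / 2 ^ gK j * sz c gK Γ j (ev c n (mx Sc κ Γ') x) := by
    intro j hj
    by_cases h : Sc j
    · rw [mx_pos h]
      exact H1 j hj h _ (ev_none _ _ _ _)
    · rw [mx_neg h]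
      exact H2 j hj _ (ev_none _ _ _ _)
  exact (sz_ge hU h1 hl).trans (mul_le_mul (pow_le_pow_right₀ (by linarith) hl)
    (sz_ev hc (mx_cvc hκ hΓ') gK hl) (sz_nonneg _ _ _ _ _) (by positivity))

open Classical in
/-- **Change of the mixed frame.** -/
theorem mx_chg {c : ℕ → Fin m} {n : ℕ} (hc : Set.InjOn c (Set.Iio n)) {Sc : ℕ → Prop}
    {κ Γ Γ' : ℕ → Option (Fin m) → ℝ} (hκ : ∀ l, CvC c l (κ l)) (hΓ : ∀ l, CvC c l (Γ l))
    (hΓ' : ∀ l, CvC c l (Γ' l))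
    {gK : ℕ → ℕ} {U M : ℝ} (hU : 0 ≤ U) (hM : 0 ≤ M)
    (H1 : ∀ l < n, Sc l → ∀ V : Option (Fin m) → ℝ, V none = 0 →
      |cv (κ l - Γ l) V| ≤ U / 2 ^ gK l * sz c gK Γ l V)
    (H2 : ∀ l < n, ∀ V : Option (Fin m) → ℝ, V none = 0 →
      |cv (Γ' l - Γ l) V| ≤ U / 2 ^ gK l * sz c gK Γ l V)
    {W : Option (Fin m) → ℝ} (hW : CvC c n W)
    (W2 : ∀ l < n, ¬ Sc l → |cv W (ev c n (mx Sc κ Γ) l)| ≤ M * 2 ^ gK l) {x : ℕ} :
    |cv W (ev c n (mx Sc κ Γ') x) - (if x < n ∧ Sc x then cv W (ev c n (mx Sc κ Γ) x) else 0)| ≤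
      M * (n * (1 + U) ^ (n + 1)) * 2 ^ gK x := by
  have hMc := mx_cvc (Sc := Sc) hκ hΓ
  have hMc' := mx_cvc (Sc := Sc) hκ hΓ'
  obtain ⟨V, hV⟩ : ∃ V, V = ev c n (mx Sc κ Γ') x := ⟨_, rfl⟩
  have hV0 : V none = 0 := by rw [hV]; exact ev_none _ _ _ _
  have hsz : ∀ l ≤ n, sz c gK Γ l V ≤ (1 + U) ^ n * 2 ^ gK x := fun l hl => by
    rw [hV]
    exact sz_chg hc hκ hΓ' hU H1 H2 hl
  have hg1 : (1 : ℝ) ≤ (1 + U) ^ n := one_le_pow₀ (by linarith)
  rw [← hV, cv_ev hc hMc hW hV0]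
  have e0 : (if x < n ∧ Sc x then cv W (ev c n (mx Sc κ Γ) x) else 0) =
      ∑ l ∈ range n, if l = x ∧ Sc x then cv W (ev c n (mx Sc κ Γ) l) else 0 := by
    by_cases hsx : Sc x
    · by_cases hxn : x < n
      · rw [if_pos ⟨hxn, hsx⟩, Finset.sum_eq_single x]
        · rw [if_pos ⟨rfl, hsx⟩]
        · intro l _ hne
          rw [if_neg (fun h => hne h.1)]
        · intro h
          exact absurd (Finset.mem_range.2 hxn) h
      · rw [if_neg (fun h => hxn h.1)]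
        symm
        refine Finset.sum_eq_zero fun l hl => ?_
        rw [Finset.mem_range] at hl
        rw [if_neg (fun h => hxn (by omega))]
    · rw [if_neg (fun h => hsx h.2)]
      symm
      exact Finset.sum_eq_zero fun l _ => if_neg fun h => hsx h.2
  rw [e0, ← Finset.sum_sub_distrib]
  have hterm : ∀ l ∈ range n, |cv W (ev c n (mx Sc κ Γ) l) *
      (V (some (c l)) - cv (mx Sc κ Γ l) V) - (if l = x ∧ Sc x then
        cv W (ev c n (mx Sc κ Γ) l) else 0)| ≤ M * (1 + U) ^ (n + 1) * 2 ^ gK x := by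
    intro l hl
    rw [Finset.mem_range] at hl
    have hcomp := ev_comp hc hMc' x hl
    rw [← hV] at hcomp
    by_cases hsl : Sc l
    · rw [mx_pos hsl] at hcomp ⊢
      rw [hcomp]
      by_cases hlx : l = x
      · rw [if_pos hlx, if_pos ⟨hlx, by rw [← hlx]; exact hsl⟩, mul_one, sub_self, abs_zero]
        positivity
      · rw [if_neg hlx, if_neg (fun h => hlx h.1), mul_zero, sub_zero, abs_zero]
        positivity
    · rw [mx_neg hsl] at hcomp ⊢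
      rw [if_neg (fun h => hsl (by rw [h.1]; exact h.2)), sub_zero, abs_mul]
      have e1 : V (some (c l)) - cv (Γ l) V = (if l = x then 1 else 0) +
          cv (Γ' l - Γ l) V := by
        rw [← hcomp, cv_subl]
        ring
      have e2 := (H2 l hl V hV0).trans (mul_le_mul_of_nonneg_left (hsz l hl.le) (by positivity))
      have e3 : |V (some (c l)) - cv (Γ l) V| ≤ (1 + U) ^ (n + 1) * (2 ^ gK x / 2 ^ gK l) := by
        rw [e1]
        refine (abs_add_le _ _).trans ?_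
        have e5 : |(if l = x then (1 : ℝ) else 0)| ≤ (1 + U) ^ n * (2 ^ gK x / 2 ^ gK l) := by
          by_cases h0 : l = x
          · rw [if_pos h0, abs_one, h0, div_self (by positivity), mul_one]
            exact hg1
          · rw [if_neg h0, abs_zero]
            positivity
        refine (add_le_add e5 e2).trans (le_of_eq ?_)
        rw [pow_succ]
        ring
      calc |cv W (ev c n (mx Sc κ Γ) l)| * |V (some (c l)) - cv (Γ l) V| ≤
            (M * 2 ^ gK l) * ((1 + U) ^ (n + 1) * (2 ^ gK x / 2 ^ gK l)) :=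
            mul_le_mul (W2 l hl hsl) e3 (abs_nonneg _) (by positivity)
        _ = _ := by field_simp
  refine (Finset.abs_sum_le_sum_abs _ _).trans ((Finset.sum_le_sum hterm).trans (le_of_eq ?_))
  rw [Finset.sum_const, Finset.card_range, nsmul_eq_mul]
  ring

/-- The exponent of `StP.eq0`. -/
def eE (r : ℕ) : ℕ := (2 * r + 3) * (r + 1) + 3 * r + 8

/-- **The equation of the row with the exact correction of the package.** -/
theorem StP.eq0 {F : Fam m J} {c : ℕ → Fin m} {r : ℕ} {Sc : ℕ → Prop} {D t K A e d : ℕ}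
    {gK g' gT : ℕ → ℕ} {p : ℕ} {Y : ℝ} {B : F.Ω → Prop}
    {GK : PtT F → ℕ → MvPolynomial (Option (Fin m)) ℝ}
    {HK Xc : LnT F → ℕ → MvPolynomial (Option (Fin m)) ℝ}
    {Φ : LnT F → MvPolynomial (Option (Fin m)) ℝ}
    {σ Γ : PtT F → ℕ → Option (Fin m) → ℝ} {γ : PtT F → Option (Fin m) → ℝ}
    (h : StP F c r Sc D t K A e d gK g' gT p Y B GK HK Xc Φ σ Γ γ)
    (hc : Set.InjOn c (Set.Iio r)) {s₀ : ℕ} (hs₀ : s₀ < r) (h1 : ∀ l < r, Sc l ↔ l = s₀)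
    {ω : F.Ω} (hω : B ω) {Γ3 : ℕ → Option (Fin m) → ℝ} (hΓ3 : ∀ l, CvC c l (Γ3 l))
    (g3 : ∀ l ≤ r, ∀ V : Option (Fin m) → ℝ, V none = 0 →
      |cv (Γ (ptr F J ω) l - Γ3 l) V| ≤ Y / 2 ^ gK l * sz c gK Γ3 l V) {Z : ℝ} (hYZ : Y ≤ Z)
    (Ex : ∀ l < r, ¬ Sc l → |hs (Φ (slam F t ω)) (bt F ω) (bd F ω)
        (ev c r (mx Sc (kc t Xc ω) Γ3) l) -
      cv (Γ3 r - grd (Φ (slam F t ω)) (bt F ω)) (ev c r (mx Sc (kc t Xc ω) Γ3) s₀) *
        hs (Xc (slam F t ω) s₀) (bt F ω) (bd F ω) (ev c r (mx Sc (kc t Xc ω) Γ3) l)| ≤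
      Z * (2 ^ K / 2 ^ gK r) * 2 ^ gK l) {x : ℕ} (hx : x < r) (hxs : ¬ Sc x)
    (hxK : (2 : ℝ) ^ gK x ≤ Z * 2 ^ g' x) :
    |hs (Φ (slam F t ω)) (bt F ω) (bd F ω) (ev c r (mx Sc (kc t Xc ω) (Γ (ptr F J ω))) x) -
      aS c r Sc t s₀ Xc Φ Γ ω * hs (Xc (slam F t ω) s₀) (bt F ω) (bd F ω)
        (ev c r (mx Sc (kc t Xc ω) (Γ (ptr F J ω))) x)| ≤
      Z ^ eE r * (2 ^ K / 2 ^ gK r) * 2 ^ g' x := by
  classical
  have hY2 := h.num.y2
  have hZ2 : 2 ≤ Z := hY2.trans hYZ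
  have hZ1 : 1 ≤ Z := by linarith
  have hY0 : 0 < Y := by linarith
  have hZ0 : 0 < Z := by linarith
  have hss : Sc s₀ := (h1 s₀ hs₀).2 rfl
  have hpp : ∀ {a b : ℕ}, a ≤ b → Z ^ a ≤ Z ^ b := fun hab => pow_le_pow_right₀ hZ1 hab
  have hsuc : ∀ a : ℕ, 2 * Z ^ a ≤ Z ^ (a + 1) := fun a => by
    rw [pow_succ]
    have : 0 ≤ Z ^ a := by positivity
    nlinarith
  have hκc : ∀ l, CvC c l (kc t Xc ω l) := fun l => cvc_kc h.pX ω l
  have hΓc : ∀ l, CvC c l (Γ (ptr F J ω) l) := h.cΓ _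
  have hCh : ChC c r Sc gK g' Y (kc t Xc ω) (Γ (ptr F J ω)) :=
    ⟨hκc, hΓc, h.h1 ω hω, h.h2 ω hω⟩
  have hx2 := h.x2 ω hω s₀ hs₀ hss
  have hrw := h.rw1 ω hω
  have hh1 := h.h1 ω hω
  have hφc : CvC c r (grd (Φ (slam F t ω)) (bt F ω)) := cvc_grd (h.pP _) _
  unfold aS
  obtain ⟨κ, hκ⟩ : ∃ κ, κ = kc t Xc ω := ⟨_, rfl⟩
  obtain ⟨Γo, hΓ⟩ : ∃ Γo, Γo = Γ (ptr F J ω) := ⟨_, rfl⟩
  obtain ⟨φ, hφ⟩ : ∃ φ, φ = grd (Φ (slam F t ω)) (bt F ω) := ⟨_, rfl⟩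
  rw [← hκ, ← hΓ, ← hφ]
  rw [← hκ, ← hφ] at Ex
  rw [← hκ, ← hΓ] at hCh hx2 hh1
  rw [← hκ, ← hΓ, ← hφ] at hrw
  rw [← hΓ] at g3 hΓc
  rw [← hκ] at hκc
  rw [← hφ] at hφc
  -- the constants
  obtain ⟨U, hU⟩ : ∃ U, U = Z ^ (2 * r + 2) := ⟨_, rfl⟩
  have hU0 : 0 ≤ U := by rw [hU]; positivity
  have hU1 : 1 ≤ U := by rw [hU]; exact one_le_pow₀ hZ1
  have h1Y : 1 + Y ≤ Z ^ 2 := by nlinarith
  have h1Yr : ∀ l ≤ r, (1 + Y) ^ l ≤ Z ^ (2 * r) := fun l hl => by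
    refine (pow_le_pow_left₀ (by linarith) h1Y l).trans ?_
    rw [← pow_mul]
    exact hpp (by omega)
  have hYU : Y * Z ^ (2 * r) + Y ≤ U := by
    have e1 : Y * Z ^ (2 * r) ≤ Z * Z ^ (2 * r) := mul_le_mul_of_nonneg_right hYZ (by positivity)
    have e2 : Z * Z ^ (2 * r) = Z ^ (2 * r + 1) := by rw [pow_succ]; ring
    have e3 := hsuc (2 * r + 1)
    have e4 : Y ≤ Z ^ (2 * r + 1) := by
      calc Y ≤ Z ^ 1 := by rw [pow_one]; exact hYZ
        _ ≤ _ := hpp (by omega)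
    rw [hU]
    linarith
  have hYU' : Y ≤ U := by
    have : 0 ≤ Y * Z ^ (2 * r) := by positivity
    linarith
  have hUr : (1 + U) ≤ Z ^ (2 * r + 3) := by
    have e3 := hsuc (2 * r + 2)
    rw [← hU] at e3
    have e4 : (2 * r + 2 + 1) = 2 * r + 3 := by ring
    rw [e4] at e3
    linarith
  have hrZ : (r : ℝ) ≤ Z := h.num.yn.trans hYZ
  obtain ⟨F1, hF1⟩ : ∃ F1, F1 = (2 * r + 3) * (r + 1) + 1 := ⟨_, rfl⟩
  have hfac : (r : ℝ) * (1 + U) ^ (r + 1) ≤ Z ^ F1 := by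
    have e1 : (1 + U) ^ (r + 1) ≤ Z ^ ((2 * r + 3) * (r + 1)) := by
      rw [pow_mul]
      exact pow_le_pow_left₀ (by linarith) hUr _
    calc (r : ℝ) * (1 + U) ^ (r + 1) ≤ Z * Z ^ ((2 * r + 3) * (r + 1)) :=
          mul_le_mul hrZ e1 (by positivity) hZ0.le
      _ = Z ^ F1 := by
          rw [hF1, pow_succ]
          ring
  have hfac' : (1 + U) ^ r ≤ Z ^ F1 := by
    refine (pow_le_pow_left₀ (by linarith) hUr r).trans ?_
    rw [← pow_mul]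
    refine hpp ?_
    rw [hF1]
    have : (2 * r + 3) * r ≤ (2 * r + 3) * (r + 1) := Nat.mul_le_mul_left _ (by omega)
    omega
  -- the static charts against the two balls
  have nb : ∀ V : Option (Fin m) → ℝ, V none = 0 → ∀ l ≤ r,
      sz c gK Γo l V ≤ Z ^ (2 * r) * sz c gK Γ3 l V ∧
      sz c gK Γ3 l V ≤ Z ^ (2 * r) * sz c gK Γo l V := fun V hV l hl =>
    ⟨(sz_le hY0.le (fun j hj => g3 j (by omega) V hV) le_rfl).trans
      (mul_le_mul_of_nonneg_right (h1Yr l hl) (sz_nonneg _ _ _ _ _)),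
      (sz_ge hY0.le (fun j hj => g3 j (by omega) V hV) le_rfl).trans
      (mul_le_mul_of_nonneg_right (h1Yr l hl) (sz_nonneg _ _ _ _ _))⟩
  have H1 : ∀ l < r, Sc l → ∀ V : Option (Fin m) → ℝ, V none = 0 →
      |cv (κ l - Γ3 l) V| ≤ U / 2 ^ gK l * sz c gK Γ3 l V := by
    intro l hl hsl V hV
    have s := sz_nonneg c gK Γ3 l V
    refine (cv_tri _ (Γo l) _ V).trans ((add_le_add ((hh1 l hl hsl V hV).trans
      (mul_le_mul_of_nonneg_left (nb V hV l hl.le).1 (by positivity)))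
      (g3 l hl.le V hV)).trans ?_)
    calc Y / 2 ^ gK l * (Z ^ (2 * r) * sz c gK Γ3 l V) + Y / 2 ^ gK l * sz c gK Γ3 l V =
          (Y * Z ^ (2 * r) + Y) / 2 ^ gK l * sz c gK Γ3 l V := by ring
      _ ≤ _ := mul_le_mul_of_nonneg_right (div_le_div_of_nonneg_right hYU (by positivity)) s
  have H2 : ∀ l < r, ∀ V : Option (Fin m) → ℝ, V none = 0 →
      |cv (Γo l - Γ3 l) V| ≤ U / 2 ^ gK l * sz c gK Γ3 l V := fun l hl V hV =>
    (g3 l hl.le V hV).trans (mul_le_mul_of_nonneg_right (div_le_div_of_nonneg_right hYU'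
      (by positivity)) (sz_nonneg _ _ _ _ _))
  have H1' : ∀ l < r, Sc l → ∀ V : Option (Fin m) → ℝ, V none = 0 →
      |cv (κ l - Γo l) V| ≤ U / 2 ^ gK l * sz c gK Γo l V := fun l hl hsl V hV =>
    (hh1 l hl hsl V hV).trans (mul_le_mul_of_nonneg_right (div_le_div_of_nonneg_right hYU'
      (by positivity)) (sz_nonneg _ _ _ _ _))
  have H2' : ∀ l < r, ∀ V : Option (Fin m) → ℝ, V none = 0 →
      |cv (Γ3 l - Γo l) V| ≤ U / 2 ^ gK l * sz c gK Γo l V := by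
    intro l hl V hV
    rw [cv_swp]
    refine (g3 l hl.le V hV).trans ((mul_le_mul_of_nonneg_left (nb V hV l hl.le).2
      (by positivity)).trans ?_)
    calc Y / 2 ^ gK l * (Z ^ (2 * r) * sz c gK Γo l V) =
          (Y * Z ^ (2 * r)) / 2 ^ gK l * sz c gK Γo l V := by ring
      _ ≤ _ := mul_le_mul_of_nonneg_right (div_le_div_of_nonneg_right (by linarith)
          (by positivity)) (sz_nonneg _ _ _ _ _)
  -- the row in the rough directions
  have hrg : ∀ l < r, ¬ Sc l → |cv (Γo r - φ) (ev c r (mx Sc κ Γo) l)| ≤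
      (Z ^ (3 * r + 4) / 2 ^ gK r) * 2 ^ gK l := by
    intro l hl hsl
    have e1 := hrw (ev c r (mx Sc κ Γo) l) (ev_none _ _ _ _)
    rw [cv_swp] at e1
    have e3 := sz_evT hc h.num hCh (x := l) le_rfl
    have e4 := sz_evK' hc h.num hCh (x := l) le_rfl
    have h13 : (1 + Y ^ 2) ^ r ≤ Z ^ (3 * r) := by
      rw [pow_mul]
      refine pow_le_pow_left₀ (by positivity) ?_ r
      have e5 : Y ^ 2 ≤ Z ^ 2 := pow_le_pow_left₀ hY0.le hYZ 2
      have e6 : Z ^ 3 = Z ^ 2 * Z := pow_succ _ _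
      nlinarith
    have e5 := h.num.rT l hl hsl
    have e6 := h.num.rK l hl
    have e7 : (2 : ℝ) ^ gT l / 2 ^ p ≤ Z ^ 2 * (2 ^ gK l / 2 ^ gK r) := by
      refine e5.trans ?_
      calc Y * (2 ^ g' l / 2 ^ gK r) ≤ Y * ((Y * 2 ^ gK l) / 2 ^ gK r) :=
            mul_le_mul_of_nonneg_left (div_le_div_of_nonneg_right e6 (by positivity)) hY0.le
        _ = Y ^ 2 * (2 ^ gK l / 2 ^ gK r) := by ring
        _ ≤ _ := mul_le_mul_of_nonneg_right (pow_le_pow_left₀ hY0.le hYZ 2) (by positivity)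
    obtain ⟨R, hR⟩ : ∃ R : ℝ, R = 2 ^ gK l / 2 ^ gK r := ⟨_, rfl⟩
    have hR0 : 0 < R := by rw [hR]; positivity
    have e8 : Y / 2 ^ p * sz c gT κ r (ev c r (mx Sc κ Γo) l) ≤ Z ^ (3 * r + 3) * R := by
      calc Y / 2 ^ p * sz c gT κ r (ev c r (mx Sc κ Γo) l) ≤
            Y / 2 ^ p * ((1 + Y ^ 2) ^ r * 2 ^ gT l) :=
            mul_le_mul_of_nonneg_left e3 (by positivity)
        _ = Y * (1 + Y ^ 2) ^ r * (2 ^ gT l / 2 ^ p) := by ring
        _ ≤ Z * Z ^ (3 * r) * (Z ^ 2 * R) := by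
            rw [hR]
            exact mul_le_mul (mul_le_mul hYZ h13 (by positivity) hZ0.le) e7 (by positivity)
              (by positivity)
        _ = _ := by ring
    have e9 : Y / 2 ^ gK r * sz c gK Γo r (ev c r (mx Sc κ Γo) l) ≤ Z ^ (3 * r + 3) * R := by
      calc Y / 2 ^ gK r * sz c gK Γo r (ev c r (mx Sc κ Γo) l) ≤
            Y / 2 ^ gK r * ((1 + Y ^ 2) ^ r * 2 ^ gK l) :=
            mul_le_mul_of_nonneg_left e4 (by positivity)
        _ = Y * (1 + Y ^ 2) ^ r * R := by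
            rw [hR]
            ring
        _ ≤ Z * Z ^ (3 * r) * R := mul_le_mul_of_nonneg_right
            (mul_le_mul hYZ h13 (by positivity) hZ0.le) hR0.le
        _ = Z ^ (3 * r + 1) * R := by ring
        _ ≤ _ := mul_le_mul_of_nonneg_right (hpp (by omega)) hR0.le
    refine e1.trans ((add_le_add e8 e9).trans ?_)
    have e10 := hsuc (3 * r + 3)
    calc Z ^ (3 * r + 3) * R + Z ^ (3 * r + 3) * R = (2 * Z ^ (3 * r + 3)) * R := by ring
      _ ≤ Z ^ (3 * r + 4) * R := mul_le_mul_of_nonneg_right e10 hR0.le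
      _ = _ := by
          rw [hR]
          ring
  -- the two corrections
  obtain ⟨a3, ha3⟩ : ∃ a3, a3 = cv (Γ3 r - φ) (ev c r (mx Sc κ Γ3) s₀) := ⟨_, rfl⟩
  obtain ⟨a, ha⟩ : ∃ a, a = cv (Γo r - φ) (ev c r (mx Sc κ Γo) s₀) := ⟨_, rfl⟩
  rw [← ha3] at Ex
  rw [← ha]
  obtain ⟨Q, hQ⟩ : ∃ Q : ℝ, Q = 2 ^ gK s₀ / 2 ^ gK r := ⟨_, rfl⟩
  have hQ0 : 0 < Q := by rw [hQ]; positivity
  have hWo : CvC c r (Γo r - φ) := by
    intro k hk
    show Γo r (some k) - φ (some k) = 0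
    rw [hΓc r k hk, hφc k hk, sub_zero]
  have e1 := mx_chg (Sc := Sc) (κ := κ) (Γ := Γo) (Γ' := Γ3) (gK := gK) (U := U)
    (M := Z ^ (3 * r + 4) / 2 ^ gK r) hc hκc hΓc hΓ3 hU0 (by positivity) H1' H2' hWo hrg
    (x := s₀)
  rw [if_pos ⟨hs₀, hss⟩, ← ha] at e1
  have e2 : |cv (Γ3 r - Γo r) (ev c r (mx Sc κ Γ3) s₀)| ≤ Z ^ (F1 + 1) * Q := by
    rw [cv_swp]
    have e3 := sz_evK hc hκc hΓ3 (gK := gK) hU0 H1 (x := s₀) le_rfl
    refine (g3 r le_rfl _ (ev_none _ _ _ _)).trans ((mul_le_mul_of_nonneg_left e3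
      (by positivity)).trans ?_)
    calc Y / 2 ^ gK r * ((1 + U) ^ r * 2 ^ gK s₀) = Y * (1 + U) ^ r * Q := by
          rw [hQ]
          ring
      _ ≤ Z * Z ^ F1 * Q := mul_le_mul_of_nonneg_right
          (mul_le_mul hYZ hfac' (by positivity) hZ0.le) hQ0.le
      _ = _ := by
          rw [pow_succ]
          ring
  have haa : |a3 - a| ≤ Z ^ (F1 + 3 * r + 5) * Q := by
    have e3 : a3 - a = cv (Γ3 r - Γo r) (ev c r (mx Sc κ Γ3) s₀) +
        (cv (Γo r - φ) (ev c r (mx Sc κ Γ3) s₀) - a) := by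
      rw [ha3, cv_subl, cv_subl, cv_subl]
      ring
    rw [e3]
    have e4 : Z ^ (3 * r + 4) / 2 ^ gK r * (r * (1 + U) ^ (r + 1)) * 2 ^ gK s₀ ≤
        Z ^ (F1 + 3 * r + 4) * Q := by
      calc Z ^ (3 * r + 4) / 2 ^ gK r * (r * (1 + U) ^ (r + 1)) * 2 ^ gK s₀ =
            Z ^ (3 * r + 4) * (r * (1 + U) ^ (r + 1)) * Q := by
            rw [hQ]
            ring
        _ ≤ Z ^ (3 * r + 4) * Z ^ F1 * Q := mul_le_mul_of_nonneg_right
            (mul_le_mul_of_nonneg_left hfac (by positivity)) hQ0.le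
        _ = _ := by
            rw [← pow_add]
            congr 2
            ring
    refine (abs_add_le _ _).trans ((add_le_add e2 (e1.trans e4)).trans ?_)
    have e5 := hsuc (F1 + 3 * r + 4)
    have e6 : Z ^ (F1 + 1) ≤ Z ^ (F1 + 3 * r + 4) := hpp (by omega)
    rw [← add_mul]
    exact mul_le_mul_of_nonneg_right (by linarith) hQ0.le
  -- the equation
  obtain ⟨W, hW⟩ : ∃ W : Option (Fin m) → ℝ, W = hcv (Φ (slam F t ω)) (bt F ω) (bd F ω) -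
      a3 • hcv (Xc (slam F t ω) s₀) (bt F ω) (bd F ω) := ⟨_, rfl⟩
  have hWV : ∀ V, cv W V = hs (Φ (slam F t ω)) (bt F ω) (bd F ω) V -
      a3 * hs (Xc (slam F t ω) s₀) (bt F ω) (bd F ω) V := by
    intro V
    rw [hW, cv_subl, cv_smull, cv_hcv, cv_hcv]
  have hWc : CvC c r W := by
    intro k hk
    rw [hW]
    have e1 := cvc_hcv (h.pP (slam F t ω)) (bt F ω) (bd F ω) k hk
    have e2 := cvc_hcv ((h.pX (slam F t ω) s₀).mono hs₀.le) (bt F ω) (bd F ω) k hk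
    show hcv (Φ (slam F t ω)) (bt F ω) (bd F ω) (some k) -
      a3 * hcv (Xc (slam F t ω) s₀) (bt F ω) (bd F ω) (some k) = 0
    rw [e1, e2]
    ring
  have e3 := mx_chg (Sc := Sc) (κ := κ) (Γ := Γ3) (Γ' := Γo) (gK := gK) (U := U)
    (M := Z * (2 ^ K / 2 ^ gK r)) hc hκc hΓ3 hΓc hU0 (by positivity) H1 H2 hWc
    (fun l hl hsl => by
      rw [hWV]
      exact Ex l hl hsl) (x := x)
  rw [if_neg (fun h2 => hxs h2.2), sub_zero, hWV] at e3
  obtain ⟨V, hV⟩ : ∃ V, V = ev c r (mx Sc κ Γo) x := ⟨_, rfl⟩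
  have hz : |hs (Xc (slam F t ω) s₀) (bt F ω) (bd F ω) V| ≤
      Y * 2 ^ K / 2 ^ gK s₀ * 2 ^ g' x := by
    have hMc := mx_cvc (Sc := Sc) hκc hΓc
    rcases lt_or_ge x s₀ with h2 | h2
    · rw [hV, hs_cut hc hs₀.le hMc x (h.pX _ _)]
      exact hx2 x h2 hxs
    · rw [hV, hs_zero_ev hc hs₀.le hMc h2 (h.pX _ _), abs_zero]
      positivity
  rw [← hV] at e3 ⊢
  have e4 : ∀ u v : ℝ, u - a * v = (u - a3 * v) + (a3 - a) * v := fun u v => by ring
  rw [e4]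
  refine (abs_add_le _ _).trans ?_
  rw [abs_mul]
  obtain ⟨T, hT⟩ : ∃ T : ℝ, T = 2 ^ K / 2 ^ gK r * 2 ^ g' x := ⟨_, rfl⟩
  have hT0 : 0 < T := by rw [hT]; positivity
  have e5 : Z * (2 ^ K / 2 ^ gK r) * (r * (1 + U) ^ (r + 1)) * 2 ^ gK x ≤ Z ^ (F1 + 2) * T := by
    calc Z * (2 ^ K / 2 ^ gK r) * (r * (1 + U) ^ (r + 1)) * 2 ^ gK x =
          (Z * (2 ^ K / 2 ^ gK r) * (r * (1 + U) ^ (r + 1))) * 2 ^ gK x := by ring
      _ ≤ (Z * (2 ^ K / 2 ^ gK r) * Z ^ F1) * (Z * 2 ^ g' x) := by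
          refine mul_le_mul (mul_le_mul_of_nonneg_left hfac (by positivity)) hxK
            (by positivity) (by positivity)
      _ = Z ^ (F1 + 2) * T := by
          rw [hT]
          ring
  have e6 : |a3 - a| * |hs (Xc (slam F t ω) s₀) (bt F ω) (bd F ω) V| ≤
      Z ^ (F1 + 3 * r + 6) * T := by
    calc |a3 - a| * |hs (Xc (slam F t ω) s₀) (bt F ω) (bd F ω) V| ≤
          (Z ^ (F1 + 3 * r + 5) * Q) * (Y * 2 ^ K / 2 ^ gK s₀ * 2 ^ g' x) :=
          mul_le_mul haa hz (abs_nonneg _) (by positivity)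
      _ = Z ^ (F1 + 3 * r + 5) * Y * T := by
          rw [hQ, hT]
          field_simp
      _ ≤ Z ^ (F1 + 3 * r + 5) * Z * T := mul_le_mul_of_nonneg_right
          (mul_le_mul_of_nonneg_left hYZ (by positivity)) hT0.le
      _ = _ := by rw [← pow_succ]
  have e7 : Z ^ (F1 + 2) * T + Z ^ (F1 + 3 * r + 6) * T ≤ Z ^ eE r * T := by
    rw [← add_mul]
    refine mul_le_mul_of_nonneg_right ?_ hT0.le
    have e8 := hsuc (F1 + 3 * r + 6)
    have e9 : Z ^ (F1 + 2) ≤ Z ^ (F1 + 3 * r + 6) := hpp (by omega)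
    have e10 : eE r = F1 + 3 * r + 6 + 1 := by
      unfold eE
      rw [hF1]
      ring
    rw [e10]
    linarith
  refine (add_le_add (e3.trans e5) e6).trans (e7.trans (le_of_eq ?_))
  rw [hT]
  ring

end Pool.TN
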