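import Pool.Agent.H66.D2.Std

/-!
# Polynomial frame vectors and closed corrections

`evp`: the components of a frame vector of closed charts as polynomials of the relative time;
`zp`: the second derivative of a closed chart in the direction of the line and of a closed frame
vector; `dlt`: the quotient with the denominator at the start of the window. `dlp_one`: `DlP` for
one static coordinate, from the equations of the row and the lower bound.
-/

set_option autoImplicit false

namespace Pool.TN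

open Finset Real MvPolynomial
open Pool.Agent.H49.Ent Pool.Agent.H32.Dense Pool.STK Pool.KA Pool.KSAT Pool.K2S Pool.PB Pool.S6C
open Pool.GEN Pool.CHT Pool.CHX Pool.ISO Pool.D2R Pool.D2Z Pool.D2F
open Pool.FLF (Fam.sub)
open Pool.PB.Trl (rt rt_mem t_rt)

variable {m J : ℕ}

/-! ### Frame vectors -/

/-- The components of a frame vector. -/
theorem ev_rec {c : ℕ → Fin m} {n : ℕ} (hc : Set.InjOn c (Set.Iio n))
    {Ξ : ℕ → Option (Fin m) → ℝ} (hΞ : ∀ l, CvC c l (Ξ l)) (x : ℕ) {j : ℕ} (hj : j < n) :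
    ev c n Ξ x (some (c j)) = (if j = x then 1 else 0) +
      ∑ i ∈ range j, Ξ j (some (c i)) * ev c n Ξ x (some (c i)) := by
  have h1 := ev_comp hc hΞ x hj
  have h2 := cv_eq (hc.mono (Set.Iio_subset_Iio hj.le)) (hΞ j) (ev c n Ξ x)
  rw [ev_none, mul_zero, zero_add] at h2
  rw [← h2, ← h1]
  ring

/-- The components of a frame vector do not depend on the length. -/
theorem ev_cut {c : ℕ → Fin m} {n l : ℕ} (hc : Set.InjOn c (Set.Iio n)) (hl : l ≤ n)
    {Ξ : ℕ → Option (Fin m) → ℝ} (hΞ : ∀ l, CvC c l (Ξ l)) (x : ℕ) : ∀ j < l,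
    ev c n Ξ x (some (c j)) = ev c l Ξ x (some (c j)) := by
  intro j
  induction j using Nat.strong_induction_on with
  | _ j ih =>
    intro hj
    rw [ev_rec hc hΞ x (hj.trans_le hl), ev_rec (hc.mono (Set.Iio_subset_Iio hl)) hΞ x hj]
    congr 1
    refine Finset.sum_congr rfl fun i hi => ?_
    rw [Finset.mem_range] at hi
    rw [ih i hi (hi.trans hj)]

/-- The second derivative as a covector. -/
noncomputable def hcv (Q : MvPolynomial (Option (Fin m)) ℝ) (x W : Option (Fin m) → ℝ) :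
    Option (Fin m) → ℝ := fun o => dd (pderiv o Q) x W

theorem cv_hcv (Q : MvPolynomial (Option (Fin m)) ℝ) (x W V : Option (Fin m) → ℝ) :
    cv (hcv Q x W) V = hs Q x W V := rfl

theorem cvc_hcv {c : ℕ → Fin m} {l : ℕ} {Q : MvPolynomial (Option (Fin m)) ℝ}
    (hQ : DepC c l Q) (x W : Option (Fin m) → ℝ) : CvC c l (hcv Q x W) := by
  intro k hk
  unfold hcv
  rw [pd_zero' hQ fun j hj h => hk j hj h.symm]
  unfold dd
  simp

/-- The second derivative sees only the lower components. -/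
theorem hs_cut {c : ℕ → Fin m} {n l : ℕ} (hc : Set.InjOn c (Set.Iio n)) (hl : l ≤ n)
    {Ξ : ℕ → Option (Fin m) → ℝ} (hΞ : ∀ l, CvC c l (Ξ l)) (i : ℕ)
    {Q : MvPolynomial (Option (Fin m)) ℝ} (hQ : DepC c l Q) (x W : Option (Fin m) → ℝ) :
    hs Q x W (ev c n Ξ i) = hs Q x W (ev c l Ξ i) := by
  have hc' := hc.mono (Set.Iio_subset_Iio hl)
  rw [hs_sum_c hc' hQ x W (ev_none c n Ξ i), hs_sum_c hc' hQ x W (ev_none c l Ξ i)]
  refine Finset.sum_congr rfl fun j hj => ?_
  rw [Finset.mem_range] at hj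
  rw [ev_cut hc hl hΞ i j hj]

/-- Above the last coordinate of the chart the second derivative vanishes. -/
theorem hs_zero_ev {c : ℕ → Fin m} {n l : ℕ} (hc : Set.InjOn c (Set.Iio n)) (hl : l ≤ n)
    {Ξ : ℕ → Option (Fin m) → ℝ} (hΞ : ∀ l, CvC c l (Ξ l)) {i : ℕ} (hi : l ≤ i)
    {Q : MvPolynomial (Option (Fin m)) ℝ} (hQ : DepC c l Q) (x W : Option (Fin m) → ℝ) :
    hs Q x W (ev c n Ξ i) = 0 := by
  have hc' := hc.mono (Set.Iio_subset_Iio hl)
  rw [hs_sum_c hc' hQ x W (ev_none c n Ξ i)]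
  refine Finset.sum_eq_zero fun j hj => ?_
  rw [Finset.mem_range] at hj
  rw [ev_low hc hΞ j (hj.trans_le hl) (hj.trans_le hi), mul_zero]

/-- **The components of a closed frame vector**, as polynomials. -/
noncomputable def evp (K : ℕ → ℕ → Polynomial ℝ) (x : ℕ) : ℕ → Polynomial ℝ
  | j => (if j = x then 1 else 0) + ∑ i : Fin j, K j i * evp K x i
termination_by j => j
decreasing_by exact i.2

theorem evp_eq (K : ℕ → ℕ → Polynomial ℝ) (x j : ℕ) : evp K x j =
    (if j = x then 1 else 0) + ∑ i ∈ range j, K j i * evp K x i := by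
  rw [evp, Finset.sum_range]

theorem evp_deg {K : ℕ → ℕ → Polynomial ℝ} {D : ℕ} (h : ∀ j i, (K j i).natDegree ≤ D)
    (x : ℕ) : ∀ j, (evp K x j).natDegree ≤ D * j := by
  intro j
  induction j using Nat.strong_induction_on with
  | _ j ih =>
    rw [evp_eq]
    refine (Polynomial.natDegree_add_le _ _).trans (max_le ?_ ?_)
    · split_ifs
      · rw [Polynomial.natDegree_one]
        exact Nat.zero_le _
      · rw [Polynomial.natDegree_zero]
        exact Nat.zero_le _
    · refine Polynomial.natDegree_sum_le_of_forall_le _ _ fun i hi => ?_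
      rw [Finset.mem_range] at hi
      refine Polynomial.natDegree_mul_le.trans ((add_le_add (h j i) (ih i hi)).trans ?_)
      calc D + D * i = D * (i + 1) := by ring
        _ ≤ D * j := Nat.mul_le_mul_left _ hi

theorem evp_eval {c : ℕ → Fin m} {n : ℕ} (hc : Set.InjOn c (Set.Iio n))
    {Ξ : ℕ → Option (Fin m) → ℝ} (hΞ : ∀ l, CvC c l (Ξ l)) {K : ℕ → ℕ → Polynomial ℝ} {τ : ℝ}
    (h : ∀ j < n, ∀ i < j, (K j i).eval τ = Ξ j (some (c i))) (x : ℕ) : ∀ j < n,
    (evp K x j).eval τ = ev c n Ξ x (some (c j)) := by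
  intro j
  induction j using Nat.strong_induction_on with
  | _ j ih =>
    intro hj
    rw [evp_eq, ev_rec hc hΞ x hj, Polynomial.eval_add, Polynomial.eval_finsetSum]
    congr 1
    · split_ifs
      · rw [Polynomial.eval_one]
      · rw [Polynomial.eval_zero]
    · refine Finset.sum_congr rfl fun i hi => ?_
      rw [Finset.mem_range] at hi
      rw [Polynomial.eval_mul, h j hj i hi, ih i hi (hi.trans hj)]

/-- **The second derivative along the line in a closed frame vector**, as a polynomial. -/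
noncomputable def zp {F : Fam m J} (c : ℕ → Fin m) (r t : ℕ)
    (Q : LnT F → MvPolynomial (Option (Fin m)) ℝ)
    (Xc : LnT F → ℕ → MvPolynomial (Option (Fin m)) ℝ) (x : ℕ) (s : LnT F) : Polynomial ℝ :=
  Polynomial.C ((2 : ℝ) ^ t) * ∑ j ∈ range r, Polynomial.derivative (kpol c t Q s j) *
    evp (fun j i => kpol c t (fun s => Xc s j) s i) x j

theorem zp_deg {F : Fam m J} (c : ℕ → Fin m) (r t : ℕ)
    {Q : LnT F → MvPolynomial (Option (Fin m)) ℝ}
    {Xc : LnT F → ℕ → MvPolynomial (Option (Fin m)) ℝ} {D : ℕ} (hQ : ∀ s, (Q s).totalDegree ≤ D)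
    (hX : ∀ s l, (Xc s l).totalDegree ≤ D) (x : ℕ) (s : LnT F) :
    (zp c r t Q Xc x s).natDegree ≤ D * (r + 1) := by
  unfold zp
  refine (Polynomial.natDegree_C_mul_le _ _).trans ?_
  refine Polynomial.natDegree_sum_le_of_forall_le _ _ fun j hj => ?_
  rw [Finset.mem_range] at hj
  refine Polynomial.natDegree_mul_le.trans ?_
  have h1 : (Polynomial.derivative (kpol c t Q s j)).natDegree ≤ D :=
    (Polynomial.natDegree_derivative_le _).trans ((Nat.sub_le _ _).trans (kpol_deg c t hQ s j))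
  have h2 := evp_deg (K := fun j i => kpol c t (fun s => Xc s j) s i) (D := D)
    (fun j i => kpol_deg c t (fun s => hX s j) s i) x j
  calc _ ≤ D + D * j := add_le_add h1 h2
    _ = D * (j + 1) := by ring
    _ ≤ _ := Nat.mul_le_mul_left _ (by omega)

theorem zp_rt {F : Fam m J} {c : ℕ → Fin m} {r t : ℕ} (hc : Set.InjOn c (Set.Iio r))
    (ht : t ≤ J) {Q : LnT F → MvPolynomial (Option (Fin m)) ℝ} (hQ : ∀ s, DepC c r (Q s))
    {Xc : LnT F → ℕ → MvPolynomial (Option (Fin m)) ℝ} (hX : ∀ s l, DepC c l (Xc s l))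
    (x : ℕ) (ω : F.Ω) : (zp c r t Q Xc x (slam F t ω)).eval (rt F t ω) =
      hs (Q (slam F t ω)) (bt F ω) (bd F ω) (ev c r (kc t Xc ω) x) := by
  have h1 := kpol_hs F hc ht hQ ω (V := ev c r (kc t Xc ω) x) (ev_none _ _ _ _)
  unfold zp
  rw [Polynomial.eval_mul, Polynomial.eval_C, Polynomial.eval_finsetSum]
  have h2 : ∀ j ∈ range r, (Polynomial.derivative (kpol c t Q (slam F t ω) j) *
      evp (fun j i => kpol c t (fun s => Xc s j) (slam F t ω) i) x j).eval (rt F t ω) =
      (Polynomial.derivative (kpol c t Q (slam F t ω) j)).eval (rt F t ω) *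
        ev c r (kc t Xc ω) x (some (c j)) := by
    intro j hj
    rw [Finset.mem_range] at hj
    rw [Polynomial.eval_mul]
    congr 1
    exact evp_eval hc (Ξ := kc t Xc ω) (fun l => cvc_kc hX ω l) (fun j _ i _ =>
      kpol_rt F c ht (fun s => Xc s j) ω i) x j hj
  rw [Finset.sum_congr rfl h2, h1]
  field_simp

/-- **The closed correction**: the denominator at the start of the window. -/
noncomputable def dlt {F : Fam m J} (c : ℕ → Fin m) (r t s₀ : ℕ)
    (Φ : LnT F → MvPolynomial (Option (Fin m)) ℝ)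
    (Xc : LnT F → ℕ → MvPolynomial (Option (Fin m)) ℝ) (s : LnT F) (l : ℕ) : Polynomial ℝ :=
  if l = s₀ then Polynomial.C (((zp c r t (fun s => Xc s s₀) Xc 0 s).eval 0)⁻¹) *
    zp c r t Φ Xc 0 s else 0

theorem dlt_deg {F : Fam m J} (c : ℕ → Fin m) (r t s₀ : ℕ)
    {Φ : LnT F → MvPolynomial (Option (Fin m)) ℝ}
    {Xc : LnT F → ℕ → MvPolynomial (Option (Fin m)) ℝ} {D : ℕ} (hΦ : ∀ s, (Φ s).totalDegree ≤ D)
    (hX : ∀ s l, (Xc s l).totalDegree ≤ D) (s : LnT F) (l : ℕ) :
    (dlt c r t s₀ Φ Xc s l).natDegree ≤ D * (r + 1) := by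
  unfold dlt
  split_ifs
  · exact (Polynomial.natDegree_C_mul_le _ _).trans (zp_deg c r t hΦ hX 0 s)
  · rw [Polynomial.natDegree_zero]
    exact Nat.zero_le _

/-! ### The corrections -/

/-- Real numbers: the quotient with a frozen denominator. -/
theorem froz {a n z d E ε f : ℝ} (hz : |n - a * z| ≤ E * |z|) (hz0 : 0 < |z|) (hE : 0 ≤ E)
    (hf : 0 ≤ f) (h1 : |z - d| ≤ f * |z|) (h2 : f ≤ 1 / 2) (h3 : |a| * f ≤ ε) :
    |d⁻¹ * n - a| ≤ 2 * ε + 3 * E := by
  have hd : |z| / 2 ≤ |d| := by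
    have h4 : |z| ≤ |z - d| + |d| := by
      have e : z = (z - d) + d := by ring
      calc |z| = |(z - d) + d| := by rw [← e]
        _ ≤ _ := abs_add_le _ _
    have h5 : f * |z| ≤ 1 / 2 * |z| := mul_le_mul_of_nonneg_right h2 hz0.le
    linarith
  have hd0 : 0 < |d| := by linarith
  have hdne : d ≠ 0 := abs_pos.1 hd0
  have e1 : d⁻¹ * n - a = d⁻¹ * ((n - a * z) + a * (z - d)) := by
    field_simp
    ring
  rw [e1, abs_mul, abs_inv, ← div_eq_inv_mul, div_le_iff₀ hd0]
  have h6 : |(n - a * z) + a * (z - d)| ≤ E * |z| + ε * |z| := by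
    refine (abs_add_le _ _).trans (add_le_add hz ?_)
    rw [abs_mul]
    calc |a| * |z - d| ≤ |a| * (f * |z|) := mul_le_mul_of_nonneg_left h1 (abs_nonneg _)
      _ = (|a| * f) * |z| := by ring
      _ ≤ _ := mul_le_mul_of_nonneg_right h3 hz0.le
  have hε : 0 ≤ ε := (mul_nonneg (abs_nonneg _) hf).trans h3
  have h7 : (E + ε) * |z| ≤ (E + ε) * (2 * |d|) := mul_le_mul_of_nonneg_left (by linarith)
    (by linarith)
  have h8 : 0 ≤ E * |d| := mul_nonneg hE hd0.le
  calc _ ≤ E * |z| + ε * |z| := h6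
    _ = (E + ε) * |z| := by ring
    _ ≤ (E + ε) * (2 * |d|) := h7
    _ ≤ _ := by linarith

end Pool.TN
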