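import Pool.Agent.H88.D2.Rcv

/-!
# Two closed labels of one thin box

`lab_fam`: a label of `c r` which is closed on the window `w` and a label which is closed on the
window `a ≥ w`, both two-sided on the natural boxes of a thin chain of the pair `(a + v, a)`. On a
large part of the event their difference has small natural components on the window `a`, and so has
its derivative along the own line. `lab_out`: for two windows of one event (`EvS`); with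
`Pool.RCV.evS_tgt` also for the coordinates of the chain.
-/

set_option autoImplicit false

namespace Pool.D2R

open Finset Real MvPolynomial
open Pool.Agent.H49.Ent Pool.Agent.H32.Dense Pool.STK Pool.KA Pool.KSAT Pool.K2S Pool.PB Pool.S6C
open Pool.GEN Pool.CHT Pool.CHX Pool.ISO
open Pool.FLF (Fam.sub)
open Pool.PB.Trl (rt rt_mem t_rt)

variable {m J : ℕ}

/-- **The data**: two labels of `c r` on the boxes of one thin chain; `Ht` is closed on `w`, `Hr` on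
the window `a` of the chain. -/
structure LDat (F : Fam m J) (c : ℕ → Fin m) (r D w a v e : ℕ) (gT : ℕ → ℕ) (p : ℕ)
    (A : F.Ω → Prop) (T : PtT F → ℕ → MvPolynomial (Option (Fin m)) ℝ)
    (TH : LnT F → ℕ → MvPolynomial (Option (Fin m)) ℝ)
    (Gt : PtT F → MvPolynomial (Option (Fin m)) ℝ)
    (Ht : LnT F → MvPolynomial (Option (Fin m)) ℝ)
    (Gr : PtT F → MvPolynomial (Option (Fin m)) ℝ)
    (Hr : LnT F → MvPolynomial (Option (Fin m)) ℝ) : Prop where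
  thin : ChOK F c r (fun _ => D) (a + v) a e gT A T TH
  dG : ∀ y, (Gt y).totalDegree ≤ D
  dH : ∀ s, (Ht s).totalDegree ≤ D
  pG : ∀ y, DepC c r (Gt y)
  pH : ∀ s, DepC c r (Ht s)
  dG' : ∀ y, (Gr y).totalDegree ≤ D
  dH' : ∀ s, (Hr s).totalDegree ≤ D
  pG' : ∀ y, DepC c r (Gr y)
  pH' : ∀ s, DepC c r (Hr s)
  pos : ∀ ω, A ω → |F.x ω (c r) - eval (bt F ω) (Gt (ptr F J ω))| ≤ 1 / 2 ^ p
  agr : ∀ ω, A ω → ∀ b, NBx c (T (ptr F J ω)) gT (a + v) (F.t ω) r b →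
    |eval b (Gt (ptr F J ω)) - eval b (Ht (slam F w ω))| ≤ 1 / 2 ^ p
  rpos : ∀ ω, A ω → |F.x ω (c r) - eval (bt F ω) (Gr (ptr F J ω))| ≤ 1 / 2 ^ p
  ragr : ∀ ω, A ω → ∀ b, NBx c (T (ptr F J ω)) gT (a + v) (F.t ω) r b →
    |eval b (Gr (ptr F J ω)) - eval b (Hr (slam F a ω))| ≤ 1 / 2 ^ p

/-- **The output**: the difference of the two labels on the boxes, its natural components on the
window `a`, and its second derivative in the direction of the own line. -/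
structure LOut (F : Fam m J) (c : ℕ → Fin m) (r w a v : ℕ) (gT : ℕ → ℕ) (p : ℕ) (U : ℝ)
    (B : F.Ω → Prop) (T : PtT F → ℕ → MvPolynomial (Option (Fin m)) ℝ)
    (TH : LnT F → ℕ → MvPolynomial (Option (Fin m)) ℝ)
    (Ht Hr : LnT F → MvPolynomial (Option (Fin m)) ℝ) : Prop where
  box : ∀ ω, B ω → ∀ b, NBx c (T (ptr F J ω)) gT (a + v) (F.t ω) r b →
    |eval b (Ht (slam F w ω)) - eval b (Hr (slam F a ω))| ≤ U / 2 ^ p
  win : ∀ ω, B ω → ∀ τ ∈ Set.Icc (0 : ℝ) 1, ∀ V : Option (Fin m) → ℝ,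
    |dd (Ht (slam F w ω) - Hr (slam F a ω)) (ptw F a ω τ) V| ≤
      U / 2 ^ p * nrm c (TH (slam F a ω)) gT (a + v) r (ptw F a ω τ) V
  hsw : ∀ ω, B ω → ∀ τ ∈ Set.Icc (0 : ℝ) 1, ∀ V Z : Option (Fin m) → ℝ,
    |hs (Ht (slam F w ω) - Hr (slam F a ω)) (ptw F a ω τ) (bd F ω) V +
      dd (Ht (slam F w ω) - Hr (slam F a ω)) (ptw F a ω τ) Z| ≤
      U / 2 ^ p * (2 ^ a * nrm c (TH (slam F a ω)) gT (a + v) r (ptw F a ω τ) V +
        nrz c (TH (slam F a ω)) gT (a + v) r (ptw F a ω τ) (bd F ω) V Z)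

theorem LOut.sub {F : Fam m J} {c : ℕ → Fin m} {r w a v : ℕ} {gT : ℕ → ℕ} {p : ℕ} {U : ℝ}
    {B B' : F.Ω → Prop} {T : PtT F → ℕ → MvPolynomial (Option (Fin m)) ℝ}
    {TH : LnT F → ℕ → MvPolynomial (Option (Fin m)) ℝ}
    {Ht Hr : LnT F → MvPolynomial (Option (Fin m)) ℝ}
    (h : LOut F c r w a v gT p U B T TH Ht Hr) (hB : Sub B' B) :
    LOut F c r w a v gT p U B' T TH Ht Hr where
  box := fun ω hω => h.box ω (hB ω hω)
  win := fun ω hω => h.win ω (hB ω hω)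
  hsw := fun ω hω => h.hsw ω (hB ω hω)

theorem LOut.mono {F : Fam m J} {c : ℕ → Fin m} {r w a v : ℕ} {gT : ℕ → ℕ} {p p' : ℕ} {U U' : ℝ}
    {B : F.Ω → Prop} {T : PtT F → ℕ → MvPolynomial (Option (Fin m)) ℝ}
    {TH : LnT F → ℕ → MvPolynomial (Option (Fin m)) ℝ}
    {Ht Hr : LnT F → MvPolynomial (Option (Fin m)) ℝ}
    (h : LOut F c r w a v gT p U B T TH Ht Hr) (hp : p' ≤ p) (hU0 : 0 ≤ U) (hU : U ≤ U') :
    LOut F c r w a v gT p' U' B T TH Ht Hr := by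
  have h1 : U / 2 ^ p ≤ U' / 2 ^ p' := (div_le_div_of_nonneg_left hU0 (by positivity)
    (pow_le_pow_right₀ (by norm_num) hp)).trans (div_le_div_of_nonneg_right hU (by positivity))
  exact
    { box := fun ω hω b hb => (h.box ω hω b hb).trans h1
      win := fun ω hω τ hτ V => (h.win ω hω τ hτ V).trans
        (mul_le_mul_of_nonneg_right h1 (nrm_nonneg _ _ _ _ _ _ _))
      hsw := fun ω hω τ hτ V Z => (h.hsw ω hω τ hτ V Z).trans
        (mul_le_mul_of_nonneg_right h1 (add_nonneg (mul_nonneg (by positivity)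
          (nrm_nonneg _ _ _ _ _ _ _)) (nrz_nonneg _ _ _ _ _ _ _ _ _))) }

/-- The numbers. -/
theorem num_l1 {N₀ C₅ h k : ℕ} {C₆ C₈ C₉ : ℝ} (h6 : C₆ ≤ 2 ^ N₀) (h8 : C₈ ≤ 2 ^ N₀)
    (h9 : C₉ ≤ 2 ^ N₀) :
    ∃ Y : ℝ, 2 ≤ Y ∧ Y ^ 10 = 2 ^ (10 * (N₀ + C₅ + 4) * (h + k + 1)) ∧
      C₆ ≤ Y ∧ C₈ ≤ Y ∧ C₉ ≤ Y ∧ (2 : ℝ) ^ k ≤ Y ∧
      (2 : ℝ) ^ C₅ * 2 ^ (h + 2) ≤ Y ∧ (2 : ℝ) ^ (h + 3) ≤ Y := by
  obtain ⟨E, hE⟩ : ∃ E, E = h + k + 1 := ⟨_, rfl⟩
  obtain ⟨n, hn⟩ : ∃ n, n = N₀ + C₅ + 4 := ⟨_, rfl⟩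
  have hE1 : 1 ≤ E := by omega
  have hp : ∀ {x : ℕ}, x ≤ n * E → (2 : ℝ) ^ x ≤ 2 ^ (n * E) := fun hx =>
    pow_le_pow_right₀ (by norm_num) hx
  have e0 : n * E = N₀ * E + C₅ * E + 4 * E := by rw [hn]; ring
  have hNE : N₀ ≤ n * E := by
    calc N₀ ≤ n := by omega
      _ ≤ n * E := Nat.le_mul_of_pos_right _ hE1
  refine ⟨2 ^ (n * E), ?_, ?_, h6.trans (hp hNE), h8.trans (hp hNE), h9.trans (hp hNE), hp ?_,
    ?_, hp ?_⟩
  · calc (2 : ℝ) = 2 ^ 1 := (pow_one 2).symm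
      _ ≤ _ := hp (by nlinarith)
  · rw [← pow_mul, hn, hE]
    congr 1
    ring
  · omega
  · rw [← pow_add]
    refine hp ?_
    have e2 : C₅ ≤ C₅ * E := Nat.le_mul_of_pos_right _ hE1
    omega
  · omega

/-- **Two closed labels on the boxes of one thin chain.** -/
theorem lab_fam (m D r : ℕ) : ∃ C : ℕ, 1 ≤ C ∧ ∀ {J : ℕ} {F : Fam m J}
    {c : ℕ → Fin m} {w a v e h k p : ℕ} {θ κ : ℝ} {gT : ℕ → ℕ} {A : F.Ω → Prop}
    {T : PtT F → ℕ → MvPolynomial (Option (Fin m)) ℝ}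
    {TH : LnT F → ℕ → MvPolynomial (Option (Fin m)) ℝ}
    {Gt : PtT F → MvPolynomial (Option (Fin m)) ℝ} {Ht : LnT F → MvPolynomial (Option (Fin m)) ℝ}
    {Gr : PtT F → MvPolynomial (Option (Fin m)) ℝ} {Hr : LnT F → MvPolynomial (Option (Fin m)) ℝ}
    (_ : 0 < Pe F.p A), Set.InjOn c (Set.Iio (r + 1)) → w ≤ a → a ≤ J →
    LDat F c r D w a v e gT p A T TH Gt Ht Gr Hr →
    RelvF F c r (a + v) a gT D h κ A T → κ ≤ 1 → (∀ l < r, 1 ≤ gT l) → 0 ≤ θ →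
    (∀ (B : F.Ω → Prop) (hB : 0 < Pe F.p B), Sub B A → Pe F.p A / 4 ≤ Pe F.p B →
      (Fam.sub F B hB).Tm θ) →
    C * (θ + 1) ≤ ((J : ℝ) - a) * Real.log 2 → Real.exp (C * (θ + 1)) ≤ 2 ^ k →
    ∃ B : F.Ω → Prop, Sub B A ∧ Pe F.p A / 4 ≤ Pe F.p B ∧
      LOut F c r w a v gT p (2 ^ (C * (h + k + 1))) B T TH Ht Hr := by
  classical
  obtain ⟨C₄, hC₄, hrn⟩ := rem_fam m (D + r * D) (r + 1)
  obtain ⟨C₅, hbs⟩ := box_smp D r
  obtain ⟨C₆, hC₆, hcs⟩ := cmp_smp D r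
  obtain ⟨C₈, hC₈, hder⟩ := der_one (D + r * D)
  obtain ⟨C₉, hdbl⟩ := nbx_dbl (r + 1) (fun _ => D)
  obtain ⟨N₀, hN₀⟩ := pow_unbounded_of_one_lt (|C₆| + |C₈| + 2 ^ C₉) (one_lt_two (α := ℝ))
  obtain ⟨C, hC⟩ : ∃ C : ℕ, C = 10 * (N₀ + C₅ + 4) + ⌈C₄⌉₊ := ⟨_, rfl⟩
  have hC4 : C₄ ≤ C := by
    refine (Nat.le_ceil C₄).trans ?_
    have : ⌈C₄⌉₊ ≤ C := by omega
    exact_mod_cast this
  refine ⟨C, by omega, ?_⟩
  intro J F c w a v e h k p θ κ gT A T TH Gt Ht Gr Hr hA hc hwa haJ hd hR hκ hgT hθ hTm hCJ hexp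
  have hr0 : (0 : ℝ) ≤ r := Nat.cast_nonneg r
  have hC90 : (0 : ℝ) < 2 ^ C₉ := by positivity
  obtain ⟨Y, hY2, hY10, y6, y8, y9, yk, y5, yh⟩ := num_l1 (C₅ := C₅) (h := h) (k := k)
    (N₀ := N₀) (C₆ := C₆) (C₈ := C₈) (C₉ := 2 ^ C₉)
    (by linarith [le_abs_self C₆, abs_nonneg C₈]) (by linarith [le_abs_self C₈, abs_nonneg C₆])
    (by linarith [abs_nonneg C₆, abs_nonneg C₈])
  have hYU : Y ^ 10 ≤ 2 ^ (C * (h + k + 1)) := by
    rw [hY10]
    refine pow_le_pow_right₀ (by norm_num) (Nat.mul_le_mul_right _ ?_)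
    omega
  obtain ⟨U, hU⟩ : ∃ U : ℝ, U = 2 ^ (C * (h + k + 1)) := ⟨_, rfl⟩
  rw [← hU] at hYU ⊢
  have hY0 : 0 < Y := by linarith
  have hY1 : 1 ≤ Y := by linarith
  have hYn : ∀ n ≤ 10, Y ^ n ≤ U := fun n hn => (pow_le_pow_right₀ hY1 hn).trans hYU
  have hYm : ∀ i j, i ≤ j → Y ^ i ≤ Y ^ j := fun i j hij => pow_le_pow_right₀ hY1 hij
  have hθ1 : 0 ≤ θ + 1 := by linarith
  have hexp4 : Real.exp (C₄ * (θ + 1)) ≤ 2 ^ k := (Real.exp_le_exp.2
    (mul_le_mul_of_nonneg_right hC4 hθ1)).trans hexp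
  have hc' : Set.InjOn c (Set.Iio r) := hc.mono fun x hx => by
    rw [Set.mem_Iio] at hx ⊢
    omega
  have hthin := hd.thin
  have hp := Pe_nonneg F.isLaw
  -- no relation
  have hagr := hd.agr
  have hragr := hd.ragr
  obtain ⟨Δ, hΔ⟩ : ∃ Δ : LnT F → MvPolynomial (Option (Fin m)) ℝ,
      Δ = fun s => Ht (co (a - w) s) - Hr s := ⟨_, rfl⟩
  have hΔω : ∀ ω, Δ (slam F a ω) = Ht (slam F w ω) - Hr (slam F a ω) := by
    intro ω
    rw [hΔ]
    show Ht (co (a - w) (slam F a ω)) - _ = _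
    rw [co_slam F hwa haJ]
  have hΔd : ∀ s, (Δ s).totalDegree ≤ D := by
    intro s
    rw [hΔ]
    exact (totalDegree_sub _ _).trans (max_le (hd.dH _) (hd.dH' s))
  have hΔp : ∀ s, DepC c r (Δ s) := by
    intro s b b' h1 h2
    rw [hΔ]
    show eval b (Ht (co (a - w) s) - Hr s) = eval b' (Ht (co (a - w) s) - Hr s)
    rw [map_sub, map_sub, hd.pH _ b b' h1 h2, hd.pH' s b b' h1 h2]
  obtain ⟨B₂, d1, d2, d3⟩ := hR A (fun _ h => h) (by
      calc κ * Pe F.p A ≤ 1 * Pe F.p A := mul_le_mul_of_nonneg_right hκ (hp A)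
        _ = Pe F.p A := one_mul _) (fun y => Gt y - Gr y) Δ (2 / 2 ^ p)
    (fun y => (totalDegree_sub _ _).trans (max_le (hd.dG y) (hd.dG' y))) hΔd
    (fun y b b' h1 h2 => by
      rw [map_sub, map_sub, hd.pG y b b' h1 h2, hd.pG' y b b' h1 h2]) hΔp (by positivity)
    (fun ω hω => by
      rw [map_sub]
      have h1 := hd.pos ω hω
      have h2 := hd.rpos ω hω
      have e1 : eval (bt F ω) (Gt (ptr F J ω)) - eval (bt F ω) (Gr (ptr F J ω)) =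
          (F.x ω (c r) - eval (bt F ω) (Gr (ptr F J ω))) -
          (F.x ω (c r) - eval (bt F ω) (Gt (ptr F J ω))) := by ring
      rw [e1]
      refine (abs_sub _ _).trans ((add_le_add h2 h1).trans (le_of_eq ?_))
      ring)
    (fun ω hω b hb => by
      rw [hΔω, map_sub, map_sub]
      have h1 := hagr ω hω b hb
      have h2 := hragr ω hω b hb
      have e1 : eval b (Gt (ptr F J ω)) - eval b (Gr (ptr F J ω)) -
          (eval b (Ht (slam F w ω)) - eval b (Hr (slam F a ω))) =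
          (eval b (Gt (ptr F J ω)) - eval b (Ht (slam F w ω))) -
          (eval b (Gr (ptr F J ω)) - eval b (Hr (slam F a ω))) := by ring
      rw [e1]
      refine (abs_sub _ _).trans ((add_le_add h1 h2).trans (le_of_eq ?_))
      ring)
  have hB₂0 : 0 < Pe F.p B₂ := by linarith
  obtain ⟨M₁, hM₁⟩ : ∃ M₁ : ℝ, M₁ = 2 ^ (h + 2) / 2 ^ p := ⟨_, rfl⟩
  have h2h : (1 : ℝ) ≤ 2 ^ h := one_le_pow₀ (by norm_num)
  have hM₁0 : 0 < M₁ := by rw [hM₁]; positivity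
  have hp0 : (0 : ℝ) < 2 ^ p := by positivity
  -- the difference on the box of the point
  have hΔ1 : ∀ ω, B₂ ω → ∀ b, NBx c (T (ptr F J ω)) gT (a + v) (F.t ω) r b →
      |eval b (Δ (slam F a ω))| ≤ M₁ := by
    intro ω hω b hb
    have h1 := d3 ω hω b hb
    have h2 := hagr ω (d1 ω hω) b hb
    have h3 := hragr ω (d1 ω hω) b hb
    rw [map_sub] at h1
    rw [hΔω, map_sub]
    have e1 : eval b (Ht (slam F w ω)) - eval b (Hr (slam F a ω)) =
        (eval b (Gt (ptr F J ω)) - eval b (Gr (ptr F J ω))) -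
        (eval b (Gt (ptr F J ω)) - eval b (Ht (slam F w ω))) +
        (eval b (Gr (ptr F J ω)) - eval b (Hr (slam F a ω))) := by ring
    rw [e1]
    refine (abs_add_le _ _).trans ((add_le_add (abs_sub _ _) le_rfl).trans ?_)
    have e2 : 2 ^ h * (2 / (2 : ℝ) ^ p) + 1 / 2 ^ p + 1 / 2 ^ p ≤ M₁ := by
      rw [hM₁, pow_add]
      have e3 : (2 : ℝ) ^ h * (2 / 2 ^ p) + 1 / 2 ^ p + 1 / 2 ^ p = (2 ^ h * 2 + 2) / 2 ^ p := by
        ring
      rw [e3]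
      refine div_le_div_of_nonneg_right ?_ (by positivity)
      linarith
    linarith
  -- on the box of the line
  obtain ⟨M₂, hM₂⟩ : ∃ M₂ : ℝ, M₂ = 2 ^ C₅ * M₁ := ⟨_, rfl⟩
  have hM₂0 : 0 < M₂ := by rw [hM₂]; positivity
  have hM₂Y : M₂ ≤ Y / 2 ^ p := by
    rw [hM₂, hM₁, ← mul_div_assoc]
    exact div_le_div_of_nonneg_right y5 hp0.le
  have hΔ2 : ∀ ω, B₂ ω → ∀ b, NBx c (TH (slam F a ω)) gT (a + v) (F.t ω) r b →
      |eval b (Δ (slam F a ω))| ≤ M₂ := by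
    intro ω hω b hb
    rw [hM₂]
    exact hbs (G := T (ptr F J ω)) (ψ := TH (slam F a ω)) hc' (hthin.degG _) (hthin.depG _)
      (hthin.degH _) (hthin.depH _) (hΔp _) (hΔd _) hM₁0.le (fun j hj b hb =>
        hthin.agr ω (d1 ω hω) j hj b hb) (hΔ1 ω hω) b hb
  -- the natural components
  have hex : ∀ s : LnT F, ∃ (n0 : MvPolynomial (Option (Fin m)) ℝ)
      (nj : ℕ → MvPolynomial (Option (Fin m)) ℝ), n0.totalDegree ≤ D + r * D ∧
      (∀ j, (nj j).totalDegree ≤ D + r * D) ∧ ∀ b W : Option (Fin m) → ℝ, dd (Δ s) b W =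
        eval b n0 * W none + ∑ j ∈ range r, eval b (nj j) *
          (W (some (c j)) - dd (TH s j) b W) := fun s =>
    nat_cov D (hthin.degH s) (hthin.depH s) r hc' D (fun o => pderiv o (Δ s))
      (fun o => totalDegree_pdσ (hΔd s) o) (fun k hk b => pd_zero (hΔp s) hk b)
  choose n0 nj hn0 hnj hid using hex
  have hcmp : ∀ ω, B₂ ω → |eval (bt F ω) (n0 (slam F a ω))| ≤ Y ^ 3 / 2 ^ p * 2 ^ (a + v) ∧
      ∀ j < r, |eval (bt F ω) (nj (slam F a ω) j)| ≤ Y ^ 3 / 2 ^ p * 2 ^ gT j := by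
    intro ω hω
    have hx2 : ∀ l < r, |bt F ω (some (c l)) - eval (bt F ω) (TH (slam F a ω) l)| ≤
        1 / 2 ^ (gT l - 1) := by
      intro l hl
      have h1 := hthin.pos ω (d1 ω hω) l hl
      have h2 := hthin.agr ω (d1 ω hω) l hl _ (hthin.self (d1 ω hω) hl.le)
      have e1 : bt F ω (some (c l)) - eval (bt F ω) (TH (slam F a ω) l) =
          (F.x ω (c l) - eval (bt F ω) (T (ptr F J ω) l)) +
          (eval (bt F ω) (T (ptr F J ω) l) - eval (bt F ω) (TH (slam F a ω) l)) := by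
        have : bt F ω (some (c l)) = F.x ω (c l) := rfl
        rw [this]
        ring
      rw [e1]
      refine (abs_add_le _ _).trans ((add_le_add h1 h2).trans (le_of_eq ?_))
      have h3 := hgT l hl
      have e2 : (2 : ℝ) ^ gT l = 2 ^ (gT l - 1) * 2 := by
        rw [← pow_succ]
        congr 1
        omega
      rw [e2]
      field_simp
      norm_num
    have hbig : ∀ b, NBx c (TH (slam F a ω)) (fun l => gT l - 1) (a + v) (F.t ω) r b →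
        |eval b (Δ (slam F a ω))| ≤ 2 ^ C₉ * M₂ := by
      intro b hb
      refine hdbl (Nat.lt_succ_self r) hc' (hthin.degH _) (hthin.depH _) (hΔp _) (hΔd _) hM₂0.le
        (hΔ2 ω hω) b hb.1 fun l hl => (hb.2 l hl).trans ?_
      rw [div_le_div_iff₀ (by positivity) (by positivity), one_mul]
      have h3 := hgT l hl
      have e2 : (2 : ℝ) ^ gT l = 2 ^ (gT l - 1) * 2 := by
        rw [← pow_succ]
        congr 1
        omega
      rw [e2]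
      have : (0 : ℝ) < 2 ^ (gT l - 1) := by positivity
      linarith
    have h1 := hcs (x := bt F ω) (g := fun l => gT l - 1) hc' (hthin.degH _) (hthin.depH _)
      (hΔp _) (hΔd _) (by positivity) hbig hx2 (hid _)
    have h2 : C₆ * (2 ^ C₉ * M₂) ≤ Y ^ 3 / 2 ^ p := by
      calc C₆ * (2 ^ C₉ * M₂) ≤ Y * (Y * (Y / 2 ^ p)) :=
            mul_le_mul y6 (mul_le_mul y9 hM₂Y hM₂0.le hY0.le) (by positivity) hY0.le
        _ = _ := by ring
    refine ⟨h1.1.trans (mul_le_mul_of_nonneg_right h2 (by positivity)), fun j hj => ?_⟩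
    refine (h1.2 j hj).trans (mul_le_mul h2 (pow_le_pow_right₀ (by norm_num) (Nat.sub_le _ _))
      (by positivity) (by positivity))
  -- on the window
  obtain ⟨B₃, f1, f2, f3⟩ := hrn J F B₂ hB₂0 a (fun i s => if i = 0 then
      MvPolynomial.aeval (lc a s) (n0 s) else MvPolynomial.aeval (lc a s) (nj s (i - 1)))
    (fun i => if i = 0 then Y ^ 3 / 2 ^ p * 2 ^ (a + v) else Y ^ 3 / 2 ^ p * 2 ^ gT (i - 1)) θ haJ
    (fun i _ s => by
      show (if i = 0 then MvPolynomial.aeval (lc a s) (n0 s) else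
        MvPolynomial.aeval (lc a s) (nj s (i - 1))).natDegree ≤ _
      split_ifs
      · exact Pool.KBX.natDegree_aeval_le _ _ (natDegree_lc a s) (hn0 s)
      · exact Pool.KBX.natDegree_aeval_le _ _ (natDegree_lc a s) (hnj s _))
    (fun i _ => by
      show 0 < (if i = 0 then Y ^ 3 / 2 ^ p * 2 ^ (a + v) else Y ^ 3 / 2 ^ p * 2 ^ gT (i - 1))
      split_ifs <;> positivity) hθ (hTm B₂ hB₂0 d1 (by linarith [hp A]))
    ((mul_le_mul_of_nonneg_right hC4 hθ1).trans hCJ) (fun ω hω i hi => by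
      show |(if i = 0 then MvPolynomial.aeval (lc a (slam F a ω)) (n0 (slam F a ω)) else
        MvPolynomial.aeval (lc a (slam F a ω)) (nj (slam F a ω) (i - 1))).eval (rt F a ω)| ≤
        (if i = 0 then Y ^ 3 / 2 ^ p * 2 ^ (a + v) else Y ^ 3 / 2 ^ p * 2 ^ gT (i - 1))
      split_ifs with h0
      · rw [aeval_lc, ptw_rt F haJ]
        exact (hcmp ω hω).1
      · rw [aeval_lc, ptw_rt F haJ]
        exact (hcmp ω hω).2 (i - 1) (by omega))
  have hBA3 : Sub B₃ A := fun ω hω => d1 ω (f1 ω hω)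
  have hY4 : ∀ x : ℝ, 0 ≤ x → 2 ^ k * (Y ^ 3 / 2 ^ p * x) ≤ Y ^ 4 / 2 ^ p * x := by
    intro x hx
    calc 2 ^ k * (Y ^ 3 / 2 ^ p * x) ≤ Y * (Y ^ 3 / 2 ^ p * x) :=
          mul_le_mul_of_nonneg_right yk (by positivity)
      _ = _ := by ring
  have hw0 : ∀ ω, B₃ ω → ∀ τ ∈ Set.Icc (0 : ℝ) 1,
      |(MvPolynomial.aeval (lc a (slam F a ω)) (n0 (slam F a ω))).eval τ| ≤
        Y ^ 4 / 2 ^ p * 2 ^ (a + v) := by
    intro ω hω τ hτ
    have h1 := f3 ω hω 0 (by omega) τ hτ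
    simp only [if_true] at h1
    exact h1.trans ((mul_le_mul_of_nonneg_right hexp4 (by positivity)).trans
      (hY4 _ (by positivity)))
  have hwj : ∀ ω, B₃ ω → ∀ j < r, ∀ τ ∈ Set.Icc (0 : ℝ) 1,
      |(MvPolynomial.aeval (lc a (slam F a ω)) (nj (slam F a ω) j)).eval τ| ≤
        Y ^ 4 / 2 ^ p * 2 ^ gT j := by
    intro ω hω j hj τ hτ
    have h1 := f3 ω hω (j + 1) (by omega) τ hτ
    simp only [Nat.add_sub_cancel, if_neg (Nat.succ_ne_zero j)] at h1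
    exact h1.trans ((mul_le_mul_of_nonneg_right hexp4 (by positivity)).trans
      (hY4 _ (by positivity)))
  refine ⟨B₃, hBA3, by linarith, ⟨?_, ?_, ?_⟩⟩
  · -- box
    intro ω hω b hb
    have h1 := hΔ1 ω (f1 ω hω) b hb
    rw [hΔω, map_sub] at h1
    refine h1.trans ?_
    rw [hM₁]
    refine div_le_div_of_nonneg_right ?_ hp0.le
    refine le_trans ?_ (hYn 1 (by norm_num))
    rw [pow_one]
    refine le_trans ?_ yh
    exact pow_le_pow_right₀ (by norm_num) (by omega)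
  · -- win
    intro ω hω τ hτ V
    rw [← hΔω, hid]
    have h1 := hw0 ω hω τ hτ
    rw [aeval_lc] at h1
    have h2 : ∀ j ∈ range r, |eval (ptw F a ω τ) (nj (slam F a ω) j) * (V (some (c j)) -
        dd (TH (slam F a ω) j) (ptw F a ω τ) V)| ≤ Y ^ 4 / 2 ^ p * (2 ^ gT j *
          |V (some (c j)) - dd (TH (slam F a ω) j) (ptw F a ω τ) V|) := by
      intro j hj
      have h3 := hwj ω hω j (Finset.mem_range.1 hj) τ hτ
      rw [aeval_lc] at h3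
      rw [abs_mul, ← mul_assoc]
      exact mul_le_mul_of_nonneg_right h3 (abs_nonneg _)
    have h3 : |eval (ptw F a ω τ) (n0 (slam F a ω)) * V none| ≤
        Y ^ 4 / 2 ^ p * (2 ^ (a + v) * |V none|) := by
      rw [abs_mul, ← mul_assoc]
      exact mul_le_mul_of_nonneg_right h1 (abs_nonneg _)
    refine (abs_add_le _ _).trans ((add_le_add h3 ((Finset.abs_sum_le_sum_abs _ _).trans
      (Finset.sum_le_sum h2))).trans ?_)
    rw [← Finset.mul_sum, ← mul_add]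
    exact mul_le_mul_of_nonneg_right (div_le_div_of_nonneg_right (hYn 4 (by norm_num)) hp0.le)
      (nrm_nonneg c (TH (slam F a ω)) gT (a + v) r (ptw F a ω τ) V)
  · -- hsw
    intro ω hω τ hτ V Z
    rw [← hΔω, hid]
    have hτ1 : |τ| ≤ 1 := by
      rw [abs_of_nonneg hτ.1]
      exact hτ.2
    obtain ⟨x, hx⟩ : ∃ x, x = ptw F a ω τ := ⟨_, rfl⟩
    obtain ⟨S, hS⟩ : ∃ S, S = slam F a ω := ⟨_, rfl⟩
    rw [← hx, ← hS]
    have hw0' := hw0 ω hω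
    have hwj' := hwj ω hω
    have ha0 : (0 : ℝ) < 2 ^ a := by positivity
    have ht0 : |dd (n0 S) x (bd F ω)| ≤ Y ^ 5 / 2 ^ p * (2 ^ a * 2 ^ (a + v)) := by
      have h1 := hder _ _ (Pool.KBX.natDegree_aeval_le _ _ (natDegree_lc a _) (hn0 (slam F a ω)))
        hw0' τ hτ1
      rw [dd_line, abs_mul, abs_of_pos (show (0 : ℝ) < 1 / 2 ^ a by positivity), ← hx, ← hS,
        one_div_mul_eq_div, div_le_iff₀ ha0] at h1
      refine h1.trans ?_
      calc C₈ * (Y ^ 4 / 2 ^ p * 2 ^ (a + v)) * 2 ^ a ≤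
            Y * (Y ^ 4 / 2 ^ p * 2 ^ (a + v)) * 2 ^ a :=
            mul_le_mul_of_nonneg_right (mul_le_mul_of_nonneg_right y8 (by positivity)) ha0.le
        _ = _ := by ring
    have htj : ∀ j < r, |dd (nj S j) x (bd F ω)| ≤ Y ^ 5 / 2 ^ p * (2 ^ a * 2 ^ gT j) := by
      intro j hj
      have h1 := hder _ _ (Pool.KBX.natDegree_aeval_le _ _ (natDegree_lc a _)
        (hnj (slam F a ω) j)) (hwj' j hj) τ hτ1
      rw [dd_line, abs_mul, abs_of_pos (show (0 : ℝ) < 1 / 2 ^ a by positivity), ← hx, ← hS,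
        one_div_mul_eq_div, div_le_iff₀ ha0] at h1
      refine h1.trans ?_
      calc C₈ * (Y ^ 4 / 2 ^ p * 2 ^ gT j) * 2 ^ a ≤
            Y * (Y ^ 4 / 2 ^ p * 2 ^ gT j) * 2 ^ a :=
            mul_le_mul_of_nonneg_right (mul_le_mul_of_nonneg_right y8 (by positivity)) ha0.le
        _ = _ := by ring
    have hv0 : |eval x (n0 S)| ≤ Y ^ 5 / 2 ^ p * 2 ^ (a + v) := by
      have h1 := hw0' τ hτ
      rw [aeval_lc, ← hx, ← hS] at h1
      exact h1.trans (mul_le_mul_of_nonneg_right (div_le_div_of_nonneg_right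
        (hYm 4 5 (by norm_num)) hp0.le) (by positivity))
    have hvj : ∀ j < r, |eval x (nj S j)| ≤ Y ^ 5 / 2 ^ p * 2 ^ gT j := by
      intro j hj
      have h1 := hwj' j hj τ hτ
      rw [aeval_lc, ← hx, ← hS] at h1
      exact h1.trans (mul_le_mul_of_nonneg_right (div_le_div_of_nonneg_right
        (hYm 4 5 (by norm_num)) hp0.le) (by positivity))
    rw [hess_id (hid S) x (bd F ω) V]
    have e1 : dd (n0 S) x (bd F ω) * V none + ∑ j ∈ range r,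
        (dd (nj S j) x (bd F ω) * (V (some (c j)) - dd (TH S j) x V) -
          eval x (nj S j) * hs (TH S j) x (bd F ω) V) +
        (eval x (n0 S) * Z none + ∑ j ∈ range r, eval x (nj S j) *
          (Z (some (c j)) - dd (TH S j) x Z)) =
        (dd (n0 S) x (bd F ω) * V none + ∑ j ∈ range r,
          dd (nj S j) x (bd F ω) * (V (some (c j)) - dd (TH S j) x V)) +
        (eval x (n0 S) * Z none + ∑ j ∈ range r, eval x (nj S j) *
          (Z (some (c j)) - dd (TH S j) x Z - hs (TH S j) x (bd F ω) V)) := by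
      have e2 : ∑ j ∈ range r, (dd (nj S j) x (bd F ω) * (V (some (c j)) - dd (TH S j) x V) -
          eval x (nj S j) * hs (TH S j) x (bd F ω) V) = ∑ j ∈ range r,
          dd (nj S j) x (bd F ω) * (V (some (c j)) - dd (TH S j) x V) -
          ∑ j ∈ range r, eval x (nj S j) * hs (TH S j) x (bd F ω) V := Finset.sum_sub_distrib _ _
      have e3 : ∑ j ∈ range r, eval x (nj S j) *
          (Z (some (c j)) - dd (TH S j) x Z - hs (TH S j) x (bd F ω) V) = ∑ j ∈ range r,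
          eval x (nj S j) * (Z (some (c j)) - dd (TH S j) x Z) -
          ∑ j ∈ range r, eval x (nj S j) * hs (TH S j) x (bd F ω) V := by
        rw [← Finset.sum_sub_distrib]
        refine Finset.sum_congr rfl fun j _ => ?_
        ring
      rw [e2, e3]
      ring
    rw [e1]
    have k1 : |dd (n0 S) x (bd F ω) * V none + ∑ j ∈ range r,
        dd (nj S j) x (bd F ω) * (V (some (c j)) - dd (TH S j) x V)| ≤
        Y ^ 5 / 2 ^ p * (2 ^ a * nrm c (TH S) gT (a + v) r x V) := by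
      unfold nrm
      rw [mul_add, mul_add, Finset.mul_sum, Finset.mul_sum]
      refine (abs_add_le _ _).trans (add_le_add ?_ ((Finset.abs_sum_le_sum_abs _ _).trans
        (Finset.sum_le_sum fun j hj => ?_)))
      · rw [abs_mul]
        refine (mul_le_mul_of_nonneg_right ht0 (abs_nonneg _)).trans (le_of_eq ?_)
        ring
      · rw [abs_mul]
        refine (mul_le_mul_of_nonneg_right (htj j (Finset.mem_range.1 hj))
          (abs_nonneg _)).trans (le_of_eq ?_)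
        ring
    have k2 : |eval x (n0 S) * Z none + ∑ j ∈ range r, eval x (nj S j) *
        (Z (some (c j)) - dd (TH S j) x Z - hs (TH S j) x (bd F ω) V)| ≤
        Y ^ 5 / 2 ^ p * nrz c (TH S) gT (a + v) r x (bd F ω) V Z := by
      unfold nrz
      rw [mul_add, Finset.mul_sum]
      refine (abs_add_le _ _).trans (add_le_add ?_ ((Finset.abs_sum_le_sum_abs _ _).trans
        (Finset.sum_le_sum fun j hj => ?_)))
      · rw [abs_mul]
        refine (mul_le_mul_of_nonneg_right hv0 (abs_nonneg _)).trans (le_of_eq ?_)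
        ring
      · rw [abs_mul]
        refine (mul_le_mul_of_nonneg_right (hvj j (Finset.mem_range.1 hj))
          (abs_nonneg _)).trans (le_of_eq ?_)
        ring
    refine (abs_add_le _ _).trans ((add_le_add k1 k2).trans ?_)
    rw [← mul_add]
    exact mul_le_mul_of_nonneg_right (div_le_div_of_nonneg_right (hYn 5 (by norm_num)) hp0.le)
      (add_nonneg (mul_nonneg ha0.le (nrm_nonneg _ _ _ _ _ _ _)) (nrz_nonneg _ _ _ _ _ _ _ _ _))

/-- **The labels of two windows of one event.** -/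
theorem lab_out (m D r : ℕ) (hD : 1 ≤ D) : ∃ C : ℕ, 1 ≤ C ∧ ∀ {J : ℕ} {F : Fam m J}
    {c : ℕ → Fin m} {Dr w₁ w₂ v₁ v₂ M₁ M₂ e₁ e₂ h₁ h₂ p₁ p₂ k : ℕ} {z₁ z₂ : ℕ → ℕ}
    {R₁ R₂ : ℕ → Prop} {g₁ gc₁ gT₁ g₀₁ g₂ gc₂ gT₂ g₀₂ : ℕ → ℕ} {κ₁ κ₂ θ : ℝ} {B : F.Ω → Prop}
    {G₁ G₂ : PtT F → ℕ → MvPolynomial (Option (Fin m)) ℝ}
    {H₁ H₂ : LnT F → ℕ → MvPolynomial (Option (Fin m)) ℝ}
    {T₁ T₂ : PtT F → ℕ → MvPolynomial (Option (Fin m)) ℝ}
    {TH₁ TH₂ : LnT F → ℕ → MvPolynomial (Option (Fin m)) ℝ}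
    {Gt₁ Gt₂ : PtT F → MvPolynomial (Option (Fin m)) ℝ}
    {Ht₁ Ht₂ : LnT F → MvPolynomial (Option (Fin m)) ℝ}
    (_ : 0 < Pe F.p B), Set.InjOn c (Set.Iio (r + 1)) → w₁ ≤ w₂ → w₂ ≤ J → w₁ + v₁ = w₂ + v₂ →
    D ≤ Dr → EvS F c r D Dr w₁ v₁ M₁ z₁ e₁ h₁ p₁ R₁ g₁ gc₁ gT₁ g₀₁ κ₁ B G₁ H₁ T₁ TH₁ Gt₁ Ht₁ →
    EvS F c r D Dr w₂ v₂ M₂ z₂ e₂ h₂ p₂ R₂ g₂ gc₂ gT₂ g₀₂ κ₂ B G₂ H₂ T₂ TH₂ Gt₂ Ht₂ →
    0 ≤ κ₂ → κ₂ * (8 * 4 ^ r) ≤ 1 → (∀ l < r, 1 ≤ gT₂ l) → 0 ≤ θ →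
    (∀ (B' : F.Ω → Prop) (hB' : 0 < Pe F.p B'), Sub B' B →
      Pe F.p B / (4 * 4 ^ r) ≤ Pe F.p B' → (Fam.sub F B' hB').Tm θ) →
    C * (θ + 1) ≤ ((J : ℝ) - w₂) * Real.log 2 → Real.exp (C * (θ + 1)) ≤ 2 ^ k →
    ∃ B' : F.Ω → Prop, Sub B' B ∧ Pe F.p B ≤ 4 * 4 ^ r * Pe F.p B' ∧
      ∀ q : ℕ, q + C * (h₂ + 1) ≤ p₁ → q + C * (h₂ + 1) ≤ p₂ →
        LOut F c r w₁ w₂ v₂ gT₂ q (2 ^ (C * (h₂ + k + 1))) B' T₂ TH₂ Ht₁ Ht₂ := by
  classical
  obtain ⟨C₁, hmv⟩ := move_all D (r + 1) hD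
  obtain ⟨C₂, hls⟩ := lab_swap D (r + 1)
  obtain ⟨C₃, hC₃, hr1⟩ := lab_fam m D r
  obtain ⟨C, hC⟩ : ∃ C : ℕ, C = C₂ * (C₁ + 1) + C₃ := ⟨_, rfl⟩
  refine ⟨C, by omega, ?_⟩
  intro J F c Dr w₁ w₂ v₁ v₂ M₁ M₂ e₁ e₂ h₁ h₂ p₁ p₂ k z₁ z₂ R₁ R₂ g₁ gc₁ gT₁ g₀₁ g₂ gc₂ gT₂ g₀₂
    κ₁ κ₂ θ B G₁ G₂ H₁ H₂ T₁ T₂ TH₁ TH₂ Gt₁ Gt₂ Ht₁ Ht₂ hB0 hc hw hw2 hrad hDr hE₁ hE₂ hκ0 hκ hgT
    hθ hTm hCJ hexp
  have hp := Pe_nonneg F.isLaw
  have h4 : (0 : ℝ) < 4 ^ r := by positivity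
  have h2 : (0 : ℝ) < 2 ^ r := by positivity
  have e4 : (4 : ℝ) ^ r = 2 ^ r * 2 ^ r := by
    rw [← mul_pow]
    norm_num
  have hr1' : (1 : ℝ) ≤ 2 ^ r := one_le_pow₀ (by norm_num)
  by_cases hlos : C * (h₂ + 1) ≤ min p₁ p₂
  swap
  · refine ⟨B, fun _ h => h, ?_, fun q q1 q2 => absurd (le_min (by omega) (by omega)) hlos⟩
    have h5 : (1 : ℝ) ≤ 4 * 4 ^ r := by
      have : (1 : ℝ) ≤ 4 ^ r := one_le_pow₀ (by norm_num)
      linarith
    exact le_mul_of_one_le_left (hp B) h5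
  have hc' : Set.InjOn c (Set.Iio r) := hc.mono fun x hx => by
    rw [Set.mem_Iio] at hx ⊢
    omega
  have hR : RelvF F c r (w₂ + v₂) w₂ gT₂ D h₂ κ₂ B T₂ := hE₂.relt.mono hDr le_rfl
  -- the boxes of the thin chain near those of the other window
  have hT₁ := chok_co hE₁.thin hw hw2
  rw [hrad] at hT₁
  obtain ⟨B₁, k1, k2, k3⟩ := hmv (κ' := 1) (Nat.lt_succ_self r) hc' hR (fun _ h => h)
    (by rw [one_mul]) (by
      have h3 : κ₂ * 2 ^ (r + 1) ≤ κ₂ * (8 * 4 ^ r) := by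
        refine mul_le_mul_of_nonneg_left ?_ hκ0
        rw [e4, pow_succ]
        nlinarith
      exact h3.trans hκ) hT₁
  have hP1 : Pe F.p B ≤ 2 ^ r * Pe F.p B₁ := by
    rw [div_le_iff₀ h2] at k2
    linarith
  have hP2 : Pe F.p B ≤ 4 ^ r * Pe F.p B₁ := by
    refine hP1.trans (mul_le_mul_of_nonneg_right ?_ (hp _))
    rw [e4]
    nlinarith
  have hB20 : 0 < Pe F.p B₁ := by
    by_contra hcon
    have : Pe F.p B₁ = 0 := le_antisymm (not_lt.1 hcon) (hp _)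
    rw [this, mul_zero] at hP2
    linarith
  -- the precision
  obtain ⟨p, hpd⟩ : ∃ p, p = min p₁ p₂ - C₂ * (C₁ * (h₂ + 1) + 1) := ⟨_, rfl⟩
  have hCC : C₂ * (C₁ * (h₂ + 1) + 1) ≤ C * (h₂ + 1) := by
    rw [hC]
    nlinarith [Nat.zero_le (C₂ * h₂), Nat.zero_le (C₃ * h₂)]
  have hpp₁ : p + C₂ * (C₁ * (h₂ + 1) + 1) ≤ p₁ := by
    have := min_le_left p₁ p₂
    omega
  have hpp₂ : p + C₂ * (C₁ * (h₂ + 1) + 1) ≤ p₂ := by
    have := min_le_right p₁ p₂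
    omega
  have hdiv : ∀ {x n : ℕ}, p + x ≤ n → (2 : ℝ) ^ x * (1 / 2 ^ n) ≤ 1 / 2 ^ p := by
    intro x n hx
    rw [mul_one_div, div_le_div_iff₀ (by positivity) (by positivity), one_mul, ← pow_add]
    exact pow_le_pow_right₀ (by norm_num) (by omega)
  have hdat : LDat F c r D w₁ w₂ v₂ e₂ gT₂ p B₁ T₂ TH₂ Gt₁ Ht₁ Gt₂ Ht₂ :=
    { thin := hE₂.thin.sub k1
      dG := hE₁.dG
      dH := hE₁.dH
      pG := hE₁.pG
      pH := hE₁.pH
      dG' := hE₂.dG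
      dH' := hE₂.dH
      pG' := hE₂.pG
      pH' := hE₂.pH
      pos := fun ω hω => (hE₁.pos ω (k1 ω hω)).trans (inv_mono (by omega))
      agr := fun ω hω b hb => by
        have h5 := hls (p := C₁ * (h₂ + 1)) (Nat.lt_succ_self r) hc' (hE₁.thin.degG (ptr F J ω))
          (hE₁.thin.depG (ptr F J ω)) (g := gT₁)
          (Q := Gt₁ (ptr F J ω) - Ht₁ (slam F w₁ ω)) (M := 1 / 2 ^ p₁)
          (fun y y' hn hy => by
            rw [map_sub, map_sub, hE₁.pG (ptr F J ω) y y' hn hy, hE₁.pH (slam F w₁ ω) y y' hn hy])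
          ((totalDegree_sub _ _).trans (max_le (hE₁.dG _) (hE₁.dH _))) (by positivity)
          (fun b hb j hj => k3 ω hω b hb j hj) (fun b hb => by
            rw [map_sub]
            refine hE₁.agr ω (k1 ω hω) b ?_
            rw [hrad]
            exact hb) b hb
        rw [map_sub] at h5
        exact h5.trans (hdiv hpp₁)
      rpos := fun ω hω => (hE₂.pos ω (k1 ω hω)).trans (inv_mono (by omega))
      ragr := fun ω hω b hb => (hE₂.agr ω (k1 ω hω) b hb).trans (inv_mono (by omega)) }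
  have hrel : RelvF F c r (w₂ + v₂) w₂ gT₂ D h₂ 1 B₁ T₂ :=
    hR.sub (κ₁ := 1 / 4 ^ r) k1 (by rw [one_div, inv_mul_le_iff₀ h4]; exact hP2)
      (by norm_num) (by
        rw [mul_one_div, le_div_iff₀ (by positivity)]
        calc κ₂ * 4 ^ r ≤ κ₂ * (8 * 4 ^ r) := mul_le_mul_of_nonneg_left (by linarith) hκ0
          _ ≤ 1 := hκ)
  obtain ⟨B₃, n1, n2, n3⟩ := hr1 (θ := θ) (k := k) hB20 hc hw hw2 hdat hrel le_rfl hgT
    hθ (fun B' hB' s1 s2 => hTm B' hB' (fun ω hω => k1 ω (s1 ω hω)) (by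
      rw [div_le_iff₀ (by positivity)]
      have h5 : Pe F.p B₁ ≤ 4 * Pe F.p B' := by linarith
      calc Pe F.p B ≤ 4 ^ r * Pe F.p B₁ := hP2
        _ ≤ 4 ^ r * (4 * Pe F.p B') := mul_le_mul_of_nonneg_left h5 h4.le
        _ = _ := by ring))
    (by
      refine le_trans (mul_le_mul_of_nonneg_right ?_ (by linarith)) hCJ
      have : C₃ ≤ C := by omega
      exact_mod_cast this)
    (by
      refine le_trans (Real.exp_le_exp.2 (mul_le_mul_of_nonneg_right ?_ (by linarith))) hexp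
      have : C₃ ≤ C := by omega
      exact_mod_cast this)
  refine ⟨B₃, fun ω hω => k1 ω (n1 ω hω), ?_, fun q q1 q2 => ?_⟩
  · calc Pe F.p B ≤ 4 ^ r * Pe F.p B₁ := hP2
      _ ≤ 4 ^ r * (4 * Pe F.p B₃) := mul_le_mul_of_nonneg_left (by linarith) h4.le
      _ = _ := by ring
  · refine n3.mono ?_ (by positivity) (pow_le_pow_right₀ (by norm_num)
      (Nat.mul_le_mul_right _ (by omega)))
    have := le_min (show q + C * (h₂ + 1) ≤ p₁ from q1) (show q + C * (h₂ + 1) ≤ p₂ from q2)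
    omega

end Pool.D2R
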