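import Pool.Agent.H66.D2.Cop
import Pool.Agent.H40.STK.MUI
import Pool.Agent.H41.STK.MUL
import Pool.Agent.H15.KM7.Pair
import Pool.Agent.H84.KEND.Ent

/-!
# D2: the law of a pair with copies, and its budget

`PL p S z' sd`: two samples with the same `S` (line and window), and `N` copies: the copy number `r`
has the same record `z'` as the first sample (`sd r = true`) or as the second one (`sd r = false`),
and is independent of everything else given this record.

`pair_budget`: if the direction data `e` are free (nearly independent of `z'` given `z`) and the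
number `B` is few bits given `(e, z)`, then the data `(e, B)` of all copies contain few bits about the
pair given `z`.
-/

set_option autoImplicit false

namespace Pool.D2A

open Finset Real
open Pool.Agent.H49.Ent Pool.Agent.H32.Dense Pool.STK
open Pool.KM7 (P2 P2_isLaw P2_fst P2_snd P2_pos P2_CH)

variable {Ω σ ζ ζ' ε β χ υ : Type} [Fintype Ω] {N : ℕ}

/-- The sample of the pair to which the copy `r` belongs. -/
def sm (sd : Fin N → Bool) (r : Fin N) (v : Ω × Ω) : Ω := bif sd r then v.1 else v.2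

/-- The copy number `r`. -/
def cp (sd : Fin N → Bool) (r : Fin N) (w : (Ω × Ω) × (Fin N → Ω × Ω)) : Ω := sm sd r (w.2 r)

/-- The law of the pair with its copies. -/
noncomputable def PL (p : Ω → ℝ) (S : Ω → σ) (z' : Ω → ζ') (sd : Fin N → Bool) :
    (Ω × Ω) × (Fin N → Ω × Ω) → ℝ :=
  multi (P2 p S) (fun r v => z' (sm sd r v))

theorem PL_isLaw {p : Ω → ℝ} (hp : IsLaw p) (S : Ω → σ) (z' : Ω → ζ') (sd : Fin N → Bool) :
    IsLaw (PL p S z' sd) :=
  (mul_thm _ _ N (P2 p S) (fun r v => z' (sm sd r v)) (P2_isLaw hp S)).1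

/-- The pair. -/
theorem PL_base {p : Ω → ℝ} (hp : IsLaw p) (S : Ω → σ) (z' : Ω → ζ') (sd : Fin N → Bool) :
    Marg (PL p S z' sd) (P2 p S) (fun w => w.1) :=
  (mul_thm _ _ N (P2 p S) (fun r v => z' (sm sd r v)) (P2_isLaw hp S)).2.1

theorem P2_mfst {p : Ω → ℝ} (hp : IsLaw p) (S : Ω → σ) : Marg (P2 p S) p (fun v => v.1) :=
  marg_fst hp.nonneg fun _ => rfl

theorem P2_msnd {p : Ω → ℝ} (hp : IsLaw p) (S : Ω → σ) : Marg (P2 p S) p (fun v => v.2) :=
  marg_snd hp.nonneg fun _ => rfl

theorem P2_sm {p : Ω → ℝ} (hp : IsLaw p) (S : Ω → σ) (sd : Fin N → Bool) (r : Fin N) :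
    Marg (P2 p S) p (sm sd r) := by
  cases h : sd r
  · have e : (sm sd r : Ω × Ω → Ω) = fun v => v.2 := by
      funext v
      unfold sm
      rw [h]
      rfl
    rw [e]
    exact P2_msnd hp S
  · have e : (sm sd r : Ω × Ω → Ω) = fun v => v.1 := by
      funext v
      unfold sm
      rw [h]
      rfl
    rw [e]
    exact P2_mfst hp S

/-- The first sample. -/
theorem PL_fst {p : Ω → ℝ} (hp : IsLaw p) (S : Ω → σ) (z' : Ω → ζ') (sd : Fin N → Bool) :
    Marg (PL p S z' sd) p (fun w => w.1.1) := (PL_base hp S z' sd).comp (P2_mfst hp S)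

/-- The second sample. -/
theorem PL_snd {p : Ω → ℝ} (hp : IsLaw p) (S : Ω → σ) (z' : Ω → ζ') (sd : Fin N → Bool) :
    Marg (PL p S z' sd) p (fun w => w.1.2) := (PL_base hp S z' sd).comp (P2_msnd hp S)

/-- The sample with its copy. -/
theorem PL_pair {p : Ω → ℝ} (hp : IsLaw p) (S : Ω → σ) (z' : Ω → ζ') (sd : Fin N → Bool)
    (r : Fin N) : Marg (PL p S z' sd) (P2 p z') (fun w => (sm sd r w.1, cp sd r w)) :=
  ((mul_thm _ _ N (P2 p S) (fun r v => z' (sm sd r v)) (P2_isLaw hp S)).2.2 r).comp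
    (Marg.glue (Z₁ := z') (Z₂ := z') (P2_sm hp S sd r) (P2_sm hp S sd r))

/-- The copy. -/
theorem PL_cp {p : Ω → ℝ} (hp : IsLaw p) (S : Ω → σ) (z' : Ω → ζ') (sd : Fin N → Bool)
    (r : Fin N) : Marg (PL p S z' sd) p (cp sd r) :=
  (PL_pair hp S z' sd r).comp (P2_msnd hp z')

/-- The support. -/
theorem PL_pos {p : Ω → ℝ} (hp : IsLaw p) (S : Ω → σ) (z' : Ω → ζ') (sd : Fin N → Bool)
    {w : (Ω × Ω) × (Fin N → Ω × Ω)} (hw : 0 < PL p S z' sd w) :
    0 < p w.1.1 ∧ 0 < p w.1.2 ∧ S w.1.1 = S w.1.2 ∧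
      ∀ r, 0 < p (cp sd r w) ∧ z' (sm sd r w.1) = z' (cp sd r w) := by
  have h1 := (PL_base hp S z' sd).pos (PL_isLaw hp S z' sd).nonneg hw
  obtain ⟨h2, h3, h4⟩ := (P2_pos hp w.1).mp h1
  refine ⟨h2, h3, h4, fun r => ?_⟩
  have h5 := (PL_pair hp S z' sd r).pos (PL_isLaw hp S z' sd).nonneg hw
  exact ⟨((P2_pos hp _).mp h5).2.1, ((P2_pos hp _).mp h5).2.2⟩

/-- Quantities of the pair. -/
theorem PL_CH {p : Ω → ℝ} (hp : IsLaw p) (S : Ω → σ) (z' : Ω → ζ') (sd : Fin N → Bool)
    (X : Ω × Ω → χ) (Y : Ω × Ω → υ) :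
    CH (PL p S z' sd) (fun w => X w.1) (fun w => Y w.1) = CH (P2 p S) X Y :=
  (PL_base hp S z' sd).CH X Y

/-- The second sample is independent of the first one given `S`. -/
theorem PL_time {p : Ω → ℝ} (hp : IsLaw p) (S : Ω → σ) (z' : Ω → ζ') (sd : Fin N → Bool)
    (X : Ω → χ) : CH (PL p S z' sd) (fun w => X w.1.2) (fun w => w.1.1) = CH p X S := by
  rw [← P2_CH hp S X]
  exact (PL_base hp S z' sd).CH (fun v => X v.2) (fun v => v.1)

/-- The copy given its sample. -/
theorem dbl_sm {p : Ω → ℝ} (hp : IsLaw p) (S : Ω → σ) (z' : Ω → ζ') (sd : Fin N → Bool)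
    (r : Fin N) (X : Ω → χ) :
    CH (dbl (P2 p S) (fun v => z' (sm sd r v))) (fun v => X (sm sd r v.2)) (fun v => v.1) =
      CH p X z' := by
  have h1 := P2_CH (P2_isLaw hp S) (fun v => z' (sm sd r v)) (fun v => X (sm sd r v))
  rw [← (P2_sm hp S sd r).CH X z']
  exact h1

/-- **The copies are independent** given the pair. -/
theorem cop_all {p : Ω → ℝ} (hp : IsLaw p) (S : Ω → σ) (z' : Ω → ζ') (sd : Fin N → Bool)
    (X : Fin N → Ω → χ) :
    ∑ r, CH p (X r) z' ≤
      CH (PL p S z' sd) (fun w r => X r (cp sd r w)) (fun w => w.1) := by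
  have h := mui_thm mul_thm _ _ χ N (P2 p S) (fun r v => z' (sm sd r v)) (P2_isLaw hp S)
    (fun r v => X r (sm sd r v.2))
  rw [Finset.sum_congr rfl fun r _ => dbl_sm hp S z' sd r (X r)] at h
  exact h

/-- **Each copy is independent of the others and of the pair**, given its record. -/
theorem cop_one {p : Ω → ℝ} (hp : IsLaw p) (S : Ω → σ) (z' : Ω → ζ') (sd : Fin N → Bool)
    (r : Fin N) (X : Ω → χ) :
    CH p X z' ≤ CH (PL p S z' sd) (fun w => X (cp sd r w))
      (fun w => (w.1, fun j : {j : Fin N // j ≠ r} => cp sd j.1 w)) := by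
  classical
  have hq := (PL_isLaw hp S z' sd).nonneg
  have h1 := cop_all hp S z' sd (fun (j : Fin N) (ω : Ω) =>
    if j = r then (Sum.inl (X ω) : χ ⊕ Ω) else Sum.inr ω)
  have h2 := CH_le_add hq (fun w => fun j : Fin N =>
    if j = r then (Sum.inl (X (cp sd j w)) : χ ⊕ Ω) else Sum.inr (cp sd j w))
    (fun w => fun j : {j : Fin N // j ≠ r} => cp sd j.1 w) (fun w => w.1)
  have h3 : CH (PL p S z' sd) (fun w => fun j : {j : Fin N // j ≠ r} => cp sd j.1 w)
      (fun w => w.1) ≤ ∑ j ∈ univ.erase r, CH p (fun ω : Ω => ω) z' := by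
    refine (CH_fam hq _ _).trans ?_
    have e1 : ∀ j : {j : Fin N // j ≠ r}, CH (PL p S z' sd) (fun w => cp sd j.1 w)
        (fun w => w.1) ≤ CH p (fun ω : Ω => ω) z' := by
      intro j
      have h4 := (PL_pair hp S z' sd j.1).CH (fun v => v.2) (fun v => z' v.1)
      have h5 : CH (P2 p z') (fun v => v.2) (fun v => z' v.1) = CH p (fun ω : Ω => ω) z' := by
        rw [← (P2_msnd hp z').CH (fun ω : Ω => ω) z']
        refine CH_congr (P2_isLaw hp z').nonneg (fun _ _ _ _ h => (Prod.ext_iff.mp h).1)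
          (fun _ _ _ _ h => (Prod.ext_iff.mp h).1) ?_ ?_
        · intro v v' a b h
          have e1 := ((P2_pos hp v).mp a).2.2
          have e2 := ((P2_pos hp v').mp b).2.2
          simp only at h ⊢
          rw [← e1, ← e2, h]
        · intro v v' a b h
          have e1 := ((P2_pos hp v).mp a).2.2
          have e2 := ((P2_pos hp v').mp b).2.2
          simp only at h ⊢
          rw [e1, e2, h]
      rw [← h5, ← h4]
      exact CH_mono_cond hq fun w w' _ _ h => by
        simp only at h ⊢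
        rw [h]
    refine (Finset.sum_le_sum fun j _ => e1 j).trans (le_of_eq ?_)
    rw [Finset.sum_const, Finset.sum_const, Finset.card_univ, Fintype.card_subtype_compl,
      Finset.card_erase_of_mem (Finset.mem_univ r)]
    simp
  have h6 : ∑ j, CH p (fun ω => if j = r then (Sum.inl (X ω) : χ ⊕ Ω) else Sum.inr ω) z' =
      CH p X z' + ∑ j ∈ univ.erase r, CH p (fun ω : Ω => ω) z' := by
    rw [← Finset.add_sum_erase _ _ (Finset.mem_univ r)]
    congr 1
    · refine CH_congr hp.nonneg ?_ ?_ (fun _ _ _ _ h => h) (fun _ _ _ _ h => h)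
      · intro a b _ _ h
        have h' := (Prod.ext_iff.mp h).1
        simpa using h'
      · intro a b _ _ h
        have h' := (Prod.ext_iff.mp h).1
        simpa using h'
    · refine Finset.sum_congr rfl fun j hj => ?_
      have hj' : j ≠ r := Finset.ne_of_mem_erase hj
      refine CH_congr hp.nonneg ?_ ?_ (fun _ _ _ _ h => h) (fun _ _ _ _ h => h)
      · intro a b _ _ h
        have h'' := (Prod.ext_iff.mp h).1
        simpa [hj'] using h''
      · intro a b _ _ h
        have h'' := (Prod.ext_iff.mp h).1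
        simpa [hj'] using h''
  have h7 : CH (PL p S z' sd) (fun w => fun j : Fin N =>
      if j = r then (Sum.inl (X (cp sd j w)) : χ ⊕ Ω) else Sum.inr (cp sd j w))
      (fun w => ((fun j : {j : Fin N // j ≠ r} => cp sd j.1 w), w.1)) ≤
      CH (PL p S z' sd) (fun w => X (cp sd r w))
      (fun w => (w.1, fun j : {j : Fin N // j ≠ r} => cp sd j.1 w)) := by
    have e1 : CH (PL p S z' sd) (fun w => fun j : Fin N =>
        if j = r then (Sum.inl (X (cp sd j w)) : χ ⊕ Ω) else Sum.inr (cp sd j w))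
        (fun w => ((fun j : {j : Fin N // j ≠ r} => cp sd j.1 w), w.1)) ≤
        CH (PL p S z' sd) (fun w => X (cp sd r w))
        (fun w => ((fun j : {j : Fin N // j ≠ r} => cp sd j.1 w), w.1)) := by
      refine CH_mono_left hq ?_
      intro w w' _ _ h
      simp only [Prod.mk.injEq] at h ⊢
      funext j
      by_cases hj : j = r
      · subst hj
        simp only [if_true]
        rw [h.1]
      · simp only [hj, if_false]
        have := congrFun h.2.1 ⟨j, hj⟩
        simp only at this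
        rw [this]
    refine e1.trans (CH_mono_cond hq ?_)
    intro w w' _ _ h
    simp only [Prod.mk.injEq] at h ⊢
    exact ⟨h.2, h.1⟩
  rw [h6] at h1
  linarith

/-- **The budget.** The data of the copies contain few bits about the pair. -/
theorem pair_budget {p : Ω → ℝ} (hp : IsLaw p) {S : Ω → σ} {z : Ω → ζ} {z' : Ω → ζ'}
    (hz' : Det p z' z) (hS : Det p S z) (sd : Fin N → Bool) (e : Ω → ε) (B : Ω → β) {ηF ηH : ℝ}
    (hF : CH p e z ≤ CH p e z' + ηF) (hH : CH p B (fun ω => (e ω, z ω)) ≤ ηH)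
    (X : Ω × Ω → χ) (Y : Ω × Ω → υ) :
    CH (PL p S z' sd) (fun w => X w.1) (fun w => (Y w.1, z w.1.1)) ≤
      CH (PL p S z' sd) (fun w => X w.1)
        (fun w => (Y w.1, ((fun r => (e (cp sd r w), B (cp sd r w))), z w.1.1))) +
      N * (ηF + ηH) := by
  have h0 := hp.nonneg
  have hq := (PL_isLaw hp S z' sd).nonneg
  obtain ⟨q, hqd⟩ : ∃ q, q = PL p S z' sd := ⟨_, rfl⟩
  obtain ⟨W, hW⟩ : ∃ W : (Ω × Ω) × (Fin N → Ω × Ω) → Fin N → ε × β,
    W = fun w r => (e (cp sd r w), B (cp sd r w)) := ⟨_, rfl⟩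
  have h1 := Pool.KEND.info_symm hq (fun w => X w.1) W (fun w => (Y w.1, z w.1.1))
  -- upper bound
  have h2 : CH (PL p S z' sd) W (fun w => (Y w.1, z w.1.1)) ≤ ∑ _r : Fin N, (CH p e z + ηH) := by
    have e1 : CH (PL p S z' sd) W (fun w => (Y w.1, z w.1.1)) ≤
        CH (PL p S z' sd) W (fun w => z w.1.1) :=
      CH_mono_cond hq fun w w' _ _ h => (Prod.ext_iff.mp h).2
    refine e1.trans ((CH_fam hq W _).trans (Finset.sum_le_sum fun r _ => ?_))
    have e2 : CH (PL p S z' sd) (fun w => W w r) (fun w => z w.1.1) ≤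
        CH (PL p S z' sd) (fun w => W w r) (fun w => z (cp sd r w)) := by
      refine CH_mono_cond hq fun w w' a b h => ?_
      have key : ∀ w, 0 < PL p S z' sd w → z (cp sd r w) = z w.1.1 := by
        intro w a
        obtain ⟨a1, a2, a3, a4⟩ := PL_pos hp S z' sd a
        have e3 : 0 < p (sm sd r w.1) := by
          unfold sm
          cases sd r
          · exact a2
          · exact a1
        have e4 : z (sm sd r w.1) = z (cp sd r w) := hz' _ _ e3 (a4 r).1 (a4 r).2
        have e5 : z (sm sd r w.1) = z w.1.1 := by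
          unfold sm
          cases sd r
          · exact (hS _ _ a1 a2 a3).symm
          · rfl
        rw [← e4, e5]
      have h' : z w.1.1 = z w'.1.1 := h
      show z (cp sd r w) = z (cp sd r w')
      rw [key w a, key w' b, h']
    have e3 : CH (PL p S z' sd) (fun w => W w r) (fun w => z (cp sd r w)) =
        CH p (fun ω => (e ω, B ω)) z := by
      rw [hW]
      exact (PL_cp hp S z' sd r).CH (fun ω => (e ω, B ω)) z
    have e4 : CH p (fun ω => (e ω, B ω)) z = CH p e z + CH p B (fun ω => (e ω, z ω)) := by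
      have := CH_chain h0 B e z
      rw [← this]
      exact CH_congr h0 (fun _ _ _ _ h => by
        simp only [Prod.mk.injEq] at h ⊢
        exact ⟨h.1.2, h.1.1⟩) (fun _ _ _ _ h => by
        simp only [Prod.mk.injEq] at h ⊢
        exact ⟨h.1.2, h.1.1⟩) (fun _ _ _ _ h => h) (fun _ _ _ _ h => h)
    linarith
  -- lower bound
  have h3 : ∑ _r : Fin N, CH p e z' ≤
      CH (PL p S z' sd) W (fun w => (X w.1, (Y w.1, z w.1.1))) := by
    have e1 := cop_all hp S z' sd (fun (_ : Fin N) ω => (e ω, B ω))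
    have e2 : ∑ _r : Fin N, CH p e z' ≤ ∑ _r : Fin N, CH p (fun ω => (e ω, B ω)) z' :=
      Finset.sum_le_sum fun r _ => CH_mono_left h0 fun _ _ _ _ h => by
        simp only [Prod.mk.injEq] at h
        exact h.1.1
    have e3 : CH (PL p S z' sd) W (fun w => w.1) ≤
        CH (PL p S z' sd) W (fun w => (X w.1, (Y w.1, z w.1.1))) :=
      CH_mono_cond hq fun w w' _ _ h => by
        have h' : w.1 = w'.1 := h
        rw [h']
    rw [hW] at e3 ⊢
    linarith
  simp only [Finset.sum_const, Finset.card_univ, Fintype.card_fin, nsmul_eq_mul] at h2 h3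
  have h4 : (N : ℝ) * CH p e z ≤ N * (CH p e z' + ηF) :=
    mul_le_mul_of_nonneg_left hF (Nat.cast_nonneg N)
  have h5 : CH (PL p S z' sd) (fun w => X w.1) (fun w => (W w, (Y w.1, z w.1.1))) ≤
      CH (PL p S z' sd) (fun w => X w.1) (fun w => (Y w.1, (W w, z w.1.1))) :=
    CH_mono_cond hq fun w w' _ _ h => by
      simp only [Prod.mk.injEq] at h ⊢
      exact ⟨h.2.1, h.1, h.2.2⟩
  rw [hW] at h1 h2 h3 h5
  linarith

end Pool.D2A
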