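import Pool.Agent.H66.D2.Wfh

/-!
# Second derivatives at one sample

`CEv.zG`: the second derivative of the closed ball charts is natural. `CEv.zS`: the second derivative
of the static labels is natural at every ball.
-/

set_option autoImplicit false

namespace Pool.TN

open Finset Real MvPolynomial
open Pool.Agent.H49.Ent Pool.Agent.H32.Dense Pool.STK Pool.KA Pool.KSAT Pool.K2S Pool.PB Pool.S6C
open Pool.GEN Pool.CHT Pool.CHX Pool.ISO Pool.D2R Pool.D2Z Pool.D2F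
open Pool.FLF (Fam.sub)
open Pool.PB.Trl (rt rt_mem t_rt)

variable {m J : ℕ}

section

variable {F : Fam m J} {c : ℕ → Fin m} {r D Dr N M A cl : ℕ} {Sc : ℕ → Prop}
    {w e h pp : ℕ → ℕ} {z g gc gT g₀ : ℕ → ℕ → ℕ} {κ : ℝ} {B : F.Ω → Prop}
    {G : ℕ → PtT F → ℕ → MvPolynomial (Option (Fin m)) ℝ}
    {H : ℕ → LnT F → ℕ → MvPolynomial (Option (Fin m)) ℝ}
    {T : ℕ → PtT F → ℕ → MvPolynomial (Option (Fin m)) ℝ}
    {TH : ℕ → LnT F → ℕ → MvPolynomial (Option (Fin m)) ℝ}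
    {Gt : ℕ → PtT F → MvPolynomial (Option (Fin m)) ℝ}
    {Ht : ℕ → LnT F → MvPolynomial (Option (Fin m)) ℝ}

theorem dd0 (P : MvPolynomial (Option (Fin m)) ℝ) (x : Option (Fin m) → ℝ) :
    dd P x (0 : Option (Fin m) → ℝ) = 0 := by
  unfold dd
  simp

/-- The numbers of the sizes of the direction of the own line. -/
theorem one_r (r cl : ℕ) : (1 : ℝ) + r * 2 ^ cl ≤ 2 ^ (r + cl) := by
  have h1 : (1 : ℝ) ≤ 2 ^ cl := one_le_pow₀ (by norm_num)
  have h2 : (1 : ℝ) + r ≤ 2 ^ r := by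
    have : r + 1 ≤ 2 ^ r := Nat.lt_two_pow_self
    have h3 : ((r + 1 : ℕ) : ℝ) ≤ ((2 ^ r : ℕ) : ℝ) := by exact_mod_cast this
    push_cast at h3
    linarith
  rw [pow_add]
  have h4 := mul_le_mul_of_nonneg_right h2 (show (0 : ℝ) ≤ 2 ^ cl by positivity)
  linarith

/-- The second derivative of the balls in the direction of the own line. -/
theorem CEv.hG (E : CEv F c r D Dr N M A cl Sc w e h pp z g gc gT g₀ κ B G H T TH Gt Ht)
    {k : ℕ} (hk : k ≤ N) (h1 : cl ≤ pp k) (h2 : cl ≤ gc k r) {ω : F.Ω} (hω : B ω) {l : ℕ}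
    (hl : l ≤ r) (V : Option (Fin m) → ℝ) :
    |hs (G k (ptr F J ω) l) (bt F ω) (bd F ω) V| ≤ 2 ^ (2 * cl + r) * 2 ^ w k / 2 ^ g₀ k l *
      en c (g₀ k) (w k) (gG G ω k) l V := by
  have h3 := E.cur k hk ω hω l hl (bd F ω) V
  rw [nrm_en, nrm_en] at h3
  have h4 := (E.bdG hk h1 h2 hω).2 l hl
  have n1 := en_nonneg c (g₀ k) (w k) (gG G ω k) l V
  have h5 : (1 + (l : ℝ) * 2 ^ cl) ≤ 2 ^ (r + cl) := by
    refine le_trans ?_ (one_r r cl)
    have : (l : ℝ) ≤ r := by exact_mod_cast hl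
    have := mul_le_mul_of_nonneg_right this (show (0 : ℝ) ≤ 2 ^ cl by positivity)
    linarith
  have h6 := h4.trans (mul_le_mul_of_nonneg_right h5 (by positivity))
  refine h3.trans ((mul_le_mul_of_nonneg_left (mul_le_mul_of_nonneg_right h6 n1)
    (by positivity)).trans (le_of_eq ?_))
  rw [show 2 * cl + r = cl + (r + cl) by ring, pow_add]
  unfold gG
  ring

/-- **The second derivative of the closed ball charts.** -/
theorem CEv.zG (E : CEv F c r D Dr N M A cl Sc w e h pp z g gc gT g₀ κ B G H T TH Gt Ht)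
    {k : ℕ} (hk : k ≤ N) (h1 : cl ≤ pp k) (h2 : cl ≤ gc k r) {ω : F.Ω} (hω : B ω) {l : ℕ}
    (hl : l ≤ r) (V : Option (Fin m) → ℝ) :
    |hs (Hno (c l) (fun s => H k s l) (slam F (w k) ω)) (bt F ω) (bd F ω) V| ≤
      2 ^ (3 * cl + 2 * r + 2) * 2 ^ w k / 2 ^ g₀ k l * en c (g₀ k) (w k) (gG G ω k) l V := by
  have hG := fun x (hx : x ≤ r) => E.hG hk h1 h2 hω hx V
  obtain ⟨N₁, hN₁⟩ : ∃ x : ℝ, x = en c (g₀ k) (w k) (gG G ω k) l V := ⟨_, rfl⟩
  have n0 := en_nonneg c (g₀ k) (w k) (gG G ω k) l V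
  have h3 := ((E.row k hk k hk le_rfl 0 (by omega) (by omega)).dif ω hω l hl).2 (bd F ω) V 0
  rw [hs_sub, dd_sub, dd0, dd0, nrm_en, nrm_en] at h3
  have h4 := (E.bdG hk h1 h2 hω).2 l hl
  have h5 : (1 + (l : ℝ) * 2 ^ cl) ≤ 2 ^ (r + cl) := by
    refine le_trans ?_ (one_r r cl)
    have : (l : ℝ) ≤ r := by exact_mod_cast hl
    have := mul_le_mul_of_nonneg_right this (show (0 : ℝ) ≤ 2 ^ cl by positivity)
    linarith
  have h6 := h4.trans (mul_le_mul_of_nonneg_right h5 (by positivity))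
  have hz : nrz c (G k (ptr F J ω)) (g₀ k) (w k) l (bt F ω) (bd F ω) V 0 ≤
      l * (2 ^ (2 * cl + r) * 2 ^ w k * N₁) := by
    unfold nrz
    have e1 : (0 : Option (Fin m) → ℝ) none = 0 := rfl
    rw [e1, abs_zero, mul_zero, zero_add]
    refine (Finset.sum_le_card_nsmul _ _ (2 ^ (2 * cl + r) * 2 ^ w k * N₁)
      fun j hj => ?_).trans (le_of_eq ?_)
    · have hj' := Finset.mem_range.1 hj
      have e3 : (0 : Option (Fin m) → ℝ) (some (c j)) = 0 := rfl
      rw [dd0, e3, sub_zero, zero_sub, abs_neg]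
      have h7 := hG j (by omega)
      have h8 : en c (g₀ k) (w k) (gG G ω k) j V ≤ N₁ := by
        rw [hN₁]
        exact Pool.D2Z.en_mono _ _ _ _ hj'.le V
      calc 2 ^ g₀ k j * |hs (G k (ptr F J ω) j) (bt F ω) (bd F ω) V| ≤
            2 ^ g₀ k j * (2 ^ (2 * cl + r) * 2 ^ w k / 2 ^ g₀ k j *
              en c (g₀ k) (w k) (gG G ω k) j V) := mul_le_mul_of_nonneg_left h7 (by positivity)
        _ = 2 ^ (2 * cl + r) * 2 ^ w k * en c (g₀ k) (w k) (gG G ω k) j V := by field_simp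
        _ ≤ _ := mul_le_mul_of_nonneg_left h8 (by positivity)
    · rw [Finset.card_range, nsmul_eq_mul]
  rw [← hN₁] at n0 ⊢
  have e0 : (fun j => grd (G k (ptr F J ω) j) (bt F ω)) = gG G ω k := rfl
  rw [e0, ← hN₁] at h3
  have h7 := hG l hl
  rw [← hN₁] at h7
  have hr2 : (l : ℝ) ≤ 2 ^ r := by
    have h8 : l ≤ 2 ^ r := hl.trans (Nat.lt_two_pow_self).le
    exact_mod_cast h8
  have h9 : 2 ^ cl / 2 ^ g₀ k l * (en c (g₀ k) (w k) (gG G ω k) l (bd F ω) * N₁ +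
      nrz c (G k (ptr F J ω)) (g₀ k) (w k) l (bt F ω) (bd F ω) V 0) ≤
      (2 ^ (2 * cl + r) + 2 ^ (3 * cl + 2 * r)) * 2 ^ w k / 2 ^ g₀ k l * N₁ := by
    calc _ ≤ 2 ^ cl / 2 ^ g₀ k l * (2 ^ (r + cl) * 2 ^ w k * N₁ +
          2 ^ r * (2 ^ (2 * cl + r) * 2 ^ w k * N₁)) := by
          refine mul_le_mul_of_nonneg_left (add_le_add (mul_le_mul_of_nonneg_right h6 n0)
            (hz.trans (mul_le_mul_of_nonneg_right hr2 (by positivity)))) (by positivity)
      _ = _ := by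
          rw [show 2 * cl + r = cl + (r + cl) by ring,
            show 3 * cl + 2 * r = cl + (r + (cl + (r + cl))) by ring]
          simp only [pow_add]
          ring
  have e1 : ∀ a b : ℝ, a = (a - b + (0 - 0)) + b := fun a b => by ring
  rw [e1 (hs (Hno (c l) (fun s => H k s l) (slam F (w k) ω)) (bt F ω) (bd F ω) V)
    (hs (G k (ptr F J ω) l) (bt F ω) (bd F ω) V)]
  refine (abs_add_le _ _).trans ((add_le_add (h3.trans h9) h7).trans ?_)
  have e2 : (2 ^ (2 * cl + r) + 2 ^ (3 * cl + 2 * r)) * 2 ^ w k / 2 ^ g₀ k l * N₁ +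
      2 ^ (2 * cl + r) * 2 ^ w k / 2 ^ g₀ k l * N₁ =
      (2 ^ (2 * cl + r) + 2 ^ (2 * cl + r) + 2 ^ (3 * cl + 2 * r)) *
        (2 ^ w k / 2 ^ g₀ k l * N₁) := by ring
  have e3 : (2 : ℝ) ^ (3 * cl + 2 * r + 2) * 2 ^ w k / 2 ^ g₀ k l * N₁ =
      2 ^ (3 * cl + 2 * r + 2) * (2 ^ w k / 2 ^ g₀ k l * N₁) := by ring
  rw [e2, e3]
  refine mul_le_mul_of_nonneg_right ?_ (by positivity)
  have h10 : (2 : ℝ) ^ (2 * cl + r) ≤ 2 ^ (3 * cl + 2 * r) := p2 (by omega)
  have h11 : (2 : ℝ) ^ (3 * cl + 2 * r + 2) = 4 * 2 ^ (3 * cl + 2 * r) := by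
    rw [pow_add]
    ring
  have h12 : (0 : ℝ) ≤ 2 ^ (3 * cl + 2 * r) := by positivity
  linarith

/-- The thin norm over rough coordinates in the natural norm of the ball. -/
theorem CEv.tg (E : CEv F c r D Dr N M A cl Sc w e h pp z g gc gT g₀ κ B G H T TH Gt Ht)
    {k : ℕ} (hk : k ≤ N) (h1 : ∀ l < r, cl ≤ gT k l ∧ cl ≤ gc k l) {ω : F.Ω} (hω : B ω) {l : ℕ}
    (hl : l < r) (hns : ∀ x < l, ¬ Sc x) (V : Option (Fin m) → ℝ) :
    en c (gT k) A (kT w TH ω k) l V ≤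
      2 ^ (A - w k) * (2 ^ (3 * cl + r + 2) * en c (g₀ k) (w k) (gG G ω k) l V) := by
  have hrad := E.radA hk
  obtain ⟨N₁, hN₁⟩ : ∃ x : ℝ, x = en c (g₀ k) (w k) (gG G ω k) l V := ⟨_, rfl⟩
  have n0 := en_nonneg c (g₀ k) (w k) (gG G ω k) l V
  rw [en_eq, ← hN₁]
  rw [← hN₁] at n0
  have ht : 2 ^ A * |V none| ≤ 2 ^ (A - w k) * N₁ := by
    rw [hN₁, en_eq]
    have e1 : (2 : ℝ) ^ A = 2 ^ (A - w k) * 2 ^ w k := by
      rw [← pow_add]
      congr 1
      omega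
    rw [e1, mul_assoc]
    refine mul_le_mul_of_nonneg_left ?_ (by positivity)
    have : 0 ≤ ∑ j ∈ range l, 2 ^ g₀ k j * |V (some (c j)) - cv (gG G ω k j) V| :=
      Finset.sum_nonneg fun _ _ => by positivity
    linarith
  have hsum : ∑ j ∈ range l, 2 ^ gT k j * |V (some (c j)) - cv (kT w TH ω k j) V| ≤
      ∑ j ∈ range l, 2 ^ (A - w k) * (2 ^ (3 * cl + 1) * N₁) := by
    refine Finset.sum_le_sum fun j hj => ?_
    have hj' := Finset.mem_range.1 hj
    have hjr : j < r := hj'.trans hl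
    have hsj := hns j hj'
    have h2 := E.cb hk hjr hsj (h1 j hjr).1 (h1 j hjr).2 hω V
    rw [cv_swp] at h2
    have h3 := cv_dev (kT w TH ω k j) (gG G ω k j) V (V (some (c j)))
    have h4 : en c (g₀ k) (w k) (gG G ω k) j V ≤ N₁ := by
      rw [hN₁]
      exact Pool.D2Z.en_mono _ _ _ _ hj'.le V
    have h5 : 2 ^ g₀ k j * |V (some (c j)) - cv (gG G ω k j) V| ≤ N₁ := by
      rw [hN₁, en_eq]
      have h6 : 2 ^ g₀ k j * |V (some (c j)) - cv (gG G ω k j) V| ≤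
          ∑ j ∈ range l, 2 ^ g₀ k j * |V (some (c j)) - cv (gG G ω k j) V| :=
        Finset.single_le_sum (f := fun j => 2 ^ g₀ k j * |V (some (c j)) - cv (gG G ω k j) V|)
          (fun _ _ => by positivity) hj
      have h7 : 0 ≤ 2 ^ w k * |V none| := by positivity
      linarith
    have h8 : 2 ^ g₀ k j * |V (some (c j)) - cv (kT w TH ω k j) V| ≤ 2 ^ (cl + 1) * N₁ := by
      calc 2 ^ g₀ k j * |V (some (c j)) - cv (kT w TH ω k j) V| ≤
            2 ^ g₀ k j * (|V (some (c j)) - cv (gG G ω k j) V| +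
              2 ^ cl / 2 ^ g₀ k j * en c (g₀ k) (w k) (gG G ω k) j V) :=
            mul_le_mul_of_nonneg_left (h3.trans (add_le_add le_rfl h2)) (by positivity)
        _ = 2 ^ g₀ k j * |V (some (c j)) - cv (gG G ω k j) V| +
              2 ^ cl * en c (g₀ k) (w k) (gG G ω k) j V := by field_simp
        _ ≤ N₁ + 2 ^ cl * N₁ := add_le_add h5 (mul_le_mul_of_nonneg_left h4 (by positivity))
        _ ≤ 2 ^ (cl + 1) * N₁ := by
            have : (1 : ℝ) ≤ 2 ^ cl := one_le_pow₀ (by norm_num)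
            rw [pow_succ]
            nlinarith
    have h9 : (2 : ℝ) ^ gT k j ≤ 2 ^ (A - w k + 2 * cl) * 2 ^ g₀ k j := by
      rw [← pow_add]
      have a1 := E.t_rg hk hjr hsj
      have a2 := E.ng k hk j hjr.le
      exact p2 (by omega)
    calc 2 ^ gT k j * |V (some (c j)) - cv (kT w TH ω k j) V| ≤
          2 ^ (A - w k + 2 * cl) * 2 ^ g₀ k j * |V (some (c j)) - cv (kT w TH ω k j) V| :=
          mul_le_mul_of_nonneg_right h9 (abs_nonneg _)
      _ = 2 ^ (A - w k + 2 * cl) * (2 ^ g₀ k j * |V (some (c j)) - cv (kT w TH ω k j) V|) := by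
          ring
      _ ≤ 2 ^ (A - w k + 2 * cl) * (2 ^ (cl + 1) * N₁) :=
          mul_le_mul_of_nonneg_left h8 (by positivity)
      _ = _ := by
          rw [pow_add, show 3 * cl + 1 = 2 * cl + (cl + 1) by ring, pow_add _ (2 * cl)]
          ring
  refine (add_le_add ht hsum).trans ?_
  rw [Finset.sum_const, Finset.card_range, nsmul_eq_mul]
  have hlr : (l : ℝ) ≤ 2 ^ r := by
    have h8 : l ≤ 2 ^ r := hl.le.trans (Nat.lt_two_pow_self).le
    exact_mod_cast h8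
  calc 2 ^ (A - w k) * N₁ + l * (2 ^ (A - w k) * (2 ^ (3 * cl + 1) * N₁)) =
        2 ^ (A - w k) * ((1 + l * 2 ^ (3 * cl + 1)) * N₁) := by ring
    _ ≤ 2 ^ (A - w k) * (2 ^ (3 * cl + r + 2) * N₁) := by
        refine mul_le_mul_of_nonneg_left (mul_le_mul_of_nonneg_right ?_ n0) (by positivity)
        have a1 : (l : ℝ) * 2 ^ (3 * cl + 1) ≤ 2 ^ (3 * cl + r + 1) := by
          calc (l : ℝ) * 2 ^ (3 * cl + 1) ≤ 2 ^ r * 2 ^ (3 * cl + 1) :=
                mul_le_mul_of_nonneg_right hlr (by positivity)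
            _ = 2 ^ (3 * cl + r + 1) := by
                rw [← pow_add]
                congr 1
                ring
        have a2 : (1 : ℝ) ≤ 2 ^ (3 * cl + r + 1) := one_le_pow₀ (by norm_num)
        have a3 : (2 : ℝ) ^ (3 * cl + r + 2) = 2 ^ (3 * cl + r + 1) * 2 := pow_succ _ _
        linarith

/-- **The second derivative of the static labels** at every ball. -/
theorem CEv.zS (E : CEv F c r D Dr N M A cl Sc w e h pp z g gc gT g₀ κ B G H T TH Gt Ht)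
    {i k X : ℕ} (hi : i ≤ N) (hk : k ≤ N) (hw : w i ≤ w k) (h1 : ∀ l < r, cl ≤ gT k l ∧
      cl ≤ gc k l) (hp : cl ≤ pp k) (hgr : cl ≤ gc k r) {ω : F.Ω} (hω : B ω) {l : ℕ}
    (hl : l < r) (hns : ∀ x < l, ¬ Sc x) (hgi : cl ≤ gT i l)
    (hX : g₀ k l + (A - w k) ≤ gT i l + X) (V : Option (Fin m) → ℝ) :
    |hs (TH i (slam F (w i) ω) l) (bt F ω) (bd F ω) V| ≤
      2 ^ (12 * cl + 4 * r + X + 10) * 2 ^ w k / 2 ^ g₀ k l *
        en c (g₀ k) (w k) (gG G ω k) l V := by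
  have hrad := E.radA hk
  obtain ⟨q, hq⟩ : ∃ q, q = g₀ k l + (A - w k) - (3 * cl + X) := ⟨_, rfl⟩
  have a0 := E.ng k hk l hl.le
  have a1 := h1 l hl
  have h3 := Pool.RCV.rel2 ((E.lab l hl i hi k hk hw).1 q (by omega) (by omega))
    ((E.wA k hk).trans E.AJ) hω V 0
  rw [hrad, dd0, dd0, add_zero, add_zero, nrm_en, nrm_en, nrm_en] at h3
  obtain ⟨N₁, hN₁⟩ : ∃ x : ℝ, x = en c (g₀ k) (w k) (gG G ω k) l V := ⟨_, rfl⟩
  have n0 := en_nonneg c (g₀ k) (w k) (gG G ω k) l V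
  have e0 : (fun j => grd (G k (ptr F J ω) j) (bt F ω)) = gG G ω k := rfl
  have e0' : (fun j => grd (TH k (slam F (w k) ω) j) (bt F ω)) = kT w TH ω k := rfl
  have htg := E.tg hk h1 hω hl hns V
  rw [e0, e0'] at h3
  rw [← hN₁] at n0 htg h3 ⊢
  -- the direction
  have h4 := (E.bdG hk hp hgr hω).2 l hl.le
  have h5 : (1 + (l : ℝ) * 2 ^ cl) ≤ 2 ^ (r + cl) := by
    refine le_trans ?_ (one_r r cl)
    have : (l : ℝ) ≤ r := by exact_mod_cast hl.le
    have := mul_le_mul_of_nonneg_right this (show (0 : ℝ) ≤ 2 ^ cl by positivity)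
    linarith
  have h6 := h4.trans (mul_le_mul_of_nonneg_right h5 (by positivity))
  have hlr : (l : ℝ) ≤ 2 ^ r := by
    have h8 : l ≤ 2 ^ r := hl.le.trans (Nat.lt_two_pow_self).le
    exact_mod_cast h8
  -- the two `nrz`
  have hz2 : nrz c (G k (ptr F J ω)) (g₀ k) (w k) l (bt F ω) (bd F ω) V 0 ≤
      l * (2 ^ (2 * cl + r) * 2 ^ w k * N₁) := by
    unfold nrz
    have e1 : (0 : Option (Fin m) → ℝ) none = 0 := rfl
    rw [e1, abs_zero, mul_zero, zero_add]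
    refine (Finset.sum_le_card_nsmul _ _ (2 ^ (2 * cl + r) * 2 ^ w k * N₁)
      fun j hj => ?_).trans (le_of_eq ?_)
    · have hj' := Finset.mem_range.1 hj
      have e3 : (0 : Option (Fin m) → ℝ) (some (c j)) = 0 := rfl
      rw [dd0, e3, sub_zero, zero_sub, abs_neg]
      have h7 := E.hG hk hp hgr hω (l := j) (by omega) V
      have h8 : en c (g₀ k) (w k) (gG G ω k) j V ≤ N₁ := by
        rw [hN₁]
        exact Pool.D2Z.en_mono _ _ _ _ hj'.le V
      calc 2 ^ g₀ k j * |hs (G k (ptr F J ω) j) (bt F ω) (bd F ω) V| ≤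
            2 ^ g₀ k j * (2 ^ (2 * cl + r) * 2 ^ w k / 2 ^ g₀ k j *
              en c (g₀ k) (w k) (gG G ω k) j V) := mul_le_mul_of_nonneg_left h7 (by positivity)
        _ = 2 ^ (2 * cl + r) * 2 ^ w k * en c (g₀ k) (w k) (gG G ω k) j V := by field_simp
        _ ≤ _ := mul_le_mul_of_nonneg_left h8 (by positivity)
    · rw [Finset.card_range, nsmul_eq_mul]
  have hz1 : nrz c (TH k (slam F (w k) ω)) (gT k) A l (bt F ω) (bd F ω) V 0 ≤
      l * (2 ^ (A - w k) * (2 ^ (5 * cl + 2 * r + 2) * 2 ^ w k * N₁)) := by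
    unfold nrz
    have e1 : (0 : Option (Fin m) → ℝ) none = 0 := rfl
    rw [e1, abs_zero, mul_zero, zero_add]
    refine (Finset.sum_le_card_nsmul _ _ (2 ^ (A - w k) *
      (2 ^ (5 * cl + 2 * r + 2) * 2 ^ w k * N₁)) fun j hj => ?_).trans (le_of_eq ?_)
    · have hj' := Finset.mem_range.1 hj
      have hjr : j < r := hj'.trans hl
      have hsj := hns j hj'
      have e3 : (0 : Option (Fin m) → ℝ) (some (c j)) = 0 := rfl
      rw [dd0, e3, sub_zero, zero_sub, abs_neg, ((E.evs k hk).rgh j hjr hsj).2.2]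
      have h7 := E.zG hk hp hgr hω (l := j) (by omega) V
      have h8 : en c (g₀ k) (w k) (gG G ω k) j V ≤ N₁ := by
        rw [hN₁]
        exact Pool.D2Z.en_mono _ _ _ _ hj'.le V
      have h9 : (2 : ℝ) ^ gT k j ≤ 2 ^ (A - w k + 2 * cl) * 2 ^ g₀ k j := by
        rw [← pow_add]
        have a1 := E.t_rg hk hjr hsj
        have a2 := E.ng k hk j hjr.le
        exact p2 (by omega)
      calc 2 ^ gT k j * |hs (Hno (c j) (fun s => H k s j) (slam F (w k) ω)) (bt F ω)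
              (bd F ω) V| ≤ (2 ^ (A - w k + 2 * cl) * 2 ^ g₀ k j) *
            (2 ^ (3 * cl + 2 * r + 2) * 2 ^ w k / 2 ^ g₀ k j *
              en c (g₀ k) (w k) (gG G ω k) j V) :=
            mul_le_mul h9 h7 (abs_nonneg _) (by positivity)
        _ = 2 ^ (A - w k + 2 * cl) * (2 ^ (3 * cl + 2 * r + 2) * 2 ^ w k *
              en c (g₀ k) (w k) (gG G ω k) j V) := by field_simp
        _ ≤ 2 ^ (A - w k + 2 * cl) * (2 ^ (3 * cl + 2 * r + 2) * 2 ^ w k * N₁) :=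
            mul_le_mul_of_nonneg_left (mul_le_mul_of_nonneg_left h8 (by positivity))
              (by positivity)
        _ = _ := by
            rw [show 5 * cl + 2 * r + 2 = 2 * cl + (3 * cl + 2 * r + 2) by ring]
            simp only [pow_add]
            ring
    · rw [Finset.card_range, nsmul_eq_mul]
  have h7 := E.hG hk hp hgr hω (l := l) hl.le V
  rw [← hN₁] at h7
  -- the bounds
  obtain ⟨U, hU⟩ : ∃ U : ℝ, U = 2 ^ w k / 2 ^ g₀ k l * N₁ := ⟨_, rfl⟩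
  have hU0 : 0 ≤ U := by rw [hU]; positivity
  have eA : (2 : ℝ) ^ A = 2 ^ (A - w k) * 2 ^ w k := by
    rw [← pow_add]
    congr 1
    omega
  have k1 : 2 ^ cl / 2 ^ q * (2 ^ w k * en c (gT k) A (kT w TH ω k) l V +
      nrz c (TH k (slam F (w k) ω)) (gT k) A l (bt F ω) (bd F ω) V 0) ≤
      2 ^ (11 * cl + 4 * r + X + 6) * U := by
    have b1 : 2 ^ w k * en c (gT k) A (kT w TH ω k) l V +
        nrz c (TH k (slam F (w k) ω)) (gT k) A l (bt F ω) (bd F ω) V 0 ≤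
        2 ^ (7 * cl + 4 * r + 5) * (2 ^ (A - w k) * (2 ^ w k * N₁)) := by
      have b2 : 2 ^ w k * en c (gT k) A (kT w TH ω k) l V ≤
          2 ^ (3 * cl + r + 2) * (2 ^ (A - w k) * (2 ^ w k * N₁)) := by
        refine (mul_le_mul_of_nonneg_left htg (by positivity)).trans (le_of_eq ?_)
        ring
      have b3 : nrz c (TH k (slam F (w k) ω)) (gT k) A l (bt F ω) (bd F ω) V 0 ≤
          2 ^ (5 * cl + 3 * r + 2) * (2 ^ (A - w k) * (2 ^ w k * N₁)) := by
        refine hz1.trans ((mul_le_mul_of_nonneg_right hlr (by positivity)).trans (le_of_eq ?_))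
        rw [show 5 * cl + 3 * r + 2 = r + (5 * cl + 2 * r + 2) by ring, pow_add _ r]
        ring
      have b4 : (2 : ℝ) ^ (3 * cl + r + 2) + 2 ^ (5 * cl + 3 * r + 2) ≤
          2 ^ (7 * cl + 4 * r + 5) := by
        have c1 : (2 : ℝ) ^ (3 * cl + r + 2) ≤ 2 ^ (7 * cl + 4 * r + 4) := p2 (by omega)
        have c2 : (2 : ℝ) ^ (5 * cl + 3 * r + 2) ≤ 2 ^ (7 * cl + 4 * r + 4) := p2 (by omega)
        have c3 : (2 : ℝ) ^ (7 * cl + 4 * r + 5) = 2 ^ (7 * cl + 4 * r + 4) * 2 := pow_succ _ _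
        linarith
      have b5 : 0 ≤ 2 ^ (A - w k) * (2 ^ w k * N₁) := by positivity
      have b6 := mul_le_mul_of_nonneg_right b4 b5
      linarith
    calc _ ≤ 2 ^ cl / 2 ^ q * (2 ^ (7 * cl + 4 * r + 5) * (2 ^ (A - w k) * (2 ^ w k * N₁))) :=
          mul_le_mul_of_nonneg_left b1 (by positivity)
      _ = (2 ^ cl * 2 ^ (7 * cl + 4 * r + 5) * 2 ^ (A - w k) / 2 ^ q) * (2 ^ w k * N₁) := by
          ring
      _ ≤ (2 ^ (11 * cl + 4 * r + X + 6) / 2 ^ g₀ k l) * (2 ^ w k * N₁) := by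
          refine mul_le_mul_of_nonneg_right ?_ (by positivity)
          rw [← pow_add, ← pow_add, div_le_div_iff₀ (by positivity) (by positivity),
            ← pow_add, ← pow_add]
          exact p2 (by omega)
      _ = _ := by
          rw [hU]
          ring
  have k2 : 2 ^ cl / 2 ^ g₀ k l * (en c (g₀ k) (w k) (gG G ω k) l (bd F ω) * N₁ +
      nrz c (G k (ptr F J ω)) (g₀ k) (w k) l (bt F ω) (bd F ω) V 0) ≤
      2 ^ (11 * cl + 4 * r + X + 6) * U := by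
    calc _ ≤ 2 ^ cl / 2 ^ g₀ k l * (2 ^ (r + cl) * 2 ^ w k * N₁ +
          2 ^ r * (2 ^ (2 * cl + r) * 2 ^ w k * N₁)) := by
          refine mul_le_mul_of_nonneg_left (add_le_add (mul_le_mul_of_nonneg_right h6 n0)
            (hz2.trans (mul_le_mul_of_nonneg_right hlr (by positivity)))) (by positivity)
      _ = (2 ^ (2 * cl + r) + 2 ^ (3 * cl + 2 * r)) * U := by
          rw [hU, show 2 * cl + r = cl + (r + cl) by ring,
            show 3 * cl + 2 * r = cl + (r + (cl + (r + cl))) by ring]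
          simp only [pow_add]
          ring
      _ ≤ _ := by
          refine mul_le_mul_of_nonneg_right ?_ hU0
          have c1 : (2 : ℝ) ^ (2 * cl + r) ≤ 2 ^ (11 * cl + 4 * r + X + 5) := p2 (by omega)
          have c2 : (2 : ℝ) ^ (3 * cl + 2 * r) ≤ 2 ^ (11 * cl + 4 * r + X + 5) := p2 (by omega)
          have c3 : (2 : ℝ) ^ (11 * cl + 4 * r + X + 6) = 2 ^ (11 * cl + 4 * r + X + 5) * 2 :=
            pow_succ _ _
          linarith
  have k3 : 2 ^ (2 * cl + r) * 2 ^ w k / 2 ^ g₀ k l * N₁ ≤ 2 ^ (11 * cl + 4 * r + X + 6) * U := by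
    have e1 : 2 ^ (2 * cl + r) * 2 ^ w k / 2 ^ g₀ k l * N₁ = 2 ^ (2 * cl + r) * U := by
      rw [hU]
      ring
    rw [e1]
    exact mul_le_mul_of_nonneg_right (p2 (by omega)) hU0
  have e1 : ∀ a b : ℝ, a = (a - b) + b := fun a b => by ring
  rw [e1 (hs (TH i (slam F (w i) ω) l) (bt F ω) (bd F ω) V)
    (hs (G k (ptr F J ω) l) (bt F ω) (bd F ω) V)]
  refine (abs_add_le _ _).trans ((add_le_add (h3.trans (add_le_add k1 k2))
    (h7.trans k3)).trans ?_)
  have e2 : 2 ^ (12 * cl + 4 * r + X + 10) * 2 ^ w k / 2 ^ g₀ k l * N₁ =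
      2 ^ (12 * cl + 4 * r + X + 10) * U := by
    rw [hU]
    ring
  rw [e2]
  have e3 : (2 : ℝ) ^ (11 * cl + 4 * r + X + 6) * 16 ≤ 2 ^ (12 * cl + 4 * r + X + 10) := by
    have : (2 : ℝ) ^ (11 * cl + 4 * r + X + 10) = 2 ^ (11 * cl + 4 * r + X + 6) * 16 := by
      rw [show 11 * cl + 4 * r + X + 10 = (11 * cl + 4 * r + X + 6) + 4 by ring, pow_add]
      norm_num
    rw [← this]
    exact p2 (by omega)
  have e4 := mul_le_mul_of_nonneg_right e3 hU0
  have e5 : 0 ≤ 2 ^ (11 * cl + 4 * r + X + 6) * U := by positivity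
  linarith

end

end Pool.TN
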