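import Pool.Agent.H66.D2.Wfh
import Pool.Agent.H66.D2.Zna
import Pool.Agent.H66.D2.Spa
import Pool.Agent.H60.D2.Crw

/-!
# Facts of the package `StP` on the event of a static cell

Velocities over the visible charts (`CEv.vls`, `CEv.vlr`, `CEv.vln`), the sizes (`WF.g2`), the second
derivatives of the rough closed charts (`CEv.hrr`), the coefficients (`CEv.lgG`).
-/

set_option autoImplicit false

namespace Pool.TN

open Finset Real MvPolynomial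
open Pool.Agent.H49.Ent Pool.Agent.H32.Dense Pool.STK Pool.KA Pool.KSAT Pool.K2S Pool.PB Pool.S6C
open Pool.GEN Pool.CHT Pool.CHX Pool.ISO Pool.D2R Pool.D2Z Pool.D2F
open Pool.FLF (Fam.sub)
open Pool.PB.Trl (rt rt_mem t_rt)

variable {m J : ℕ}

/-- The ball of `t` (radius `K`) in the ball of `K`. -/
theorem WF.g2 {c : ℕ → Fin m} {r : ℕ} {Sc : ℕ → Prop} {gT0 gT1 gT gT3 gK g' gF : ℕ → ℕ}
    {v p : ℕ} {Y : ℝ} {κ0 κ1 κ2 κ3 Γ2 Γ3 Γo σ : ℕ → Option (Fin m) → ℝ}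
    {Φ γ : Option (Fin m) → ℝ} {V : Option (Fin m) → ℝ}
    (h : WF c r Sc gT0 gT1 gT gT3 gK g' gF v p Y κ0 κ1 κ2 κ3 Γ2 Γ3 Γo σ Φ γ)
    (h0 : V none = 0) {l : ℕ} (hl : l ≤ r) :
    sz c gF Γ2 l V ≤ Y ^ (4 * l) * sz c gK Γ3 l V := by
  have hY := h.y2
  have hY0 : 0 ≤ Y := by linarith
  refine (sz_dom (X := Y ^ 2) (by positivity) (L := r)
    (f := fun l => sz c gK Γ3 l V)
    (fun l => sz_nonneg _ _ _ _ _) (fun x _ => sz_mono _ _ _ (Nat.le_succ x) V)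
    (fun x hx => ?_) hl).trans (mul_le_mul_of_nonneg_right (pw_dom hY 2 l)
    (sz_nonneg _ _ _ _ _))
  have s1 := sz_nonneg c gF Γ2 x V
  have s2 := sz_nonneg c gK Γ3 x V
  have h1 := cv_dev (Γ2 x) (Γ3 x) V (V (some (c x)))
  have h2 := h.bl x hx V h0
  rw [cv_swp] at h2
  have h3 : (2 : ℝ) ^ gF x ≤ Y ^ 2 * 2 ^ gK x := by
    refine (h.fF x hx).trans ((mul_le_mul_of_nonneg_left (h.rK x hx) hY0).trans (le_of_eq ?_))
    ring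
  have h4 : 2 ^ gK x * |V (some (c x)) - cv (Γ3 x) V| + sz c gK Γ3 x V =
      sz c gK Γ3 (x + 1) V := by
    rw [sz_succ]
    ring
  have h5 : 0 ≤ |V (some (c x)) - cv (Γ3 x) V| := abs_nonneg _
  calc 2 ^ gF x * |V (some (c x)) - cv (Γ2 x) V| ≤
        2 ^ gF x * (|V (some (c x)) - cv (Γ3 x) V| + Y / 2 ^ gF x * sz c gK Γ3 x V) :=
        mul_le_mul_of_nonneg_left (h1.trans (add_le_add le_rfl h2)) (by positivity)
    _ = 2 ^ gF x * |V (some (c x)) - cv (Γ3 x) V| + Y * sz c gK Γ3 x V := by field_simp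
    _ ≤ Y ^ 2 * 2 ^ gK x * |V (some (c x)) - cv (Γ3 x) V| + Y ^ 2 * sz c gK Γ3 x V := by
        refine add_le_add (mul_le_mul_of_nonneg_right h3 h5) (mul_le_mul_of_nonneg_right ?_ s2)
        nlinarith
    _ = Y ^ 2 * sz c gK Γ3 (x + 1) V := by
        rw [← h4]
        ring
    _ ≤ _ := by
        have : 0 ≤ Y ^ 2 * sz c gF Γ2 x V := by positivity
        linarith

section

variable {F : Fam m J} {c : ℕ → Fin m} {r D Dr N M A cl : ℕ} {Sc : ℕ → Prop}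
    {w e h pp : ℕ → ℕ} {z g gc gT g₀ : ℕ → ℕ → ℕ} {κ : ℝ} {B : F.Ω → Prop}
    {G : ℕ → PtT F → ℕ → MvPolynomial (Option (Fin m)) ℝ}
    {H : ℕ → LnT F → ℕ → MvPolynomial (Option (Fin m)) ℝ}
    {T : ℕ → PtT F → ℕ → MvPolynomial (Option (Fin m)) ℝ}
    {TH : ℕ → LnT F → ℕ → MvPolynomial (Option (Fin m)) ℝ}
    {Gt : ℕ → PtT F → MvPolynomial (Option (Fin m)) ℝ}
    {Ht : ℕ → LnT F → MvPolynomial (Option (Fin m)) ℝ}

/-- The closed thin charts against the visible ones at the rounded point. -/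
theorem ncTH (D r : ℕ) : ∃ C : ℕ, 1 ≤ C ∧ ∀ {m J : ℕ} {F : Fam m J} {c : ℕ → Fin m}
    {Dr N M A cl : ℕ} {Sc : ℕ → Prop} {w e h pp : ℕ → ℕ} {z g gc gT g₀ : ℕ → ℕ → ℕ} {κ : ℝ}
    {B : F.Ω → Prop} {G : ℕ → PtT F → ℕ → MvPolynomial (Option (Fin m)) ℝ}
    {H : ℕ → LnT F → ℕ → MvPolynomial (Option (Fin m)) ℝ}
    {T : ℕ → PtT F → ℕ → MvPolynomial (Option (Fin m)) ℝ}
    {TH : ℕ → LnT F → ℕ → MvPolynomial (Option (Fin m)) ℝ}
    {Gt : ℕ → PtT F → MvPolynomial (Option (Fin m)) ℝ}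
    {Ht : ℕ → LnT F → MvPolynomial (Option (Fin m)) ℝ},
    CEv F c r D Dr N M A cl Sc w e h pp z g gc gT g₀ κ B G H T TH Gt Ht → C ≤ cl →
    ∀ k ≤ N, ∀ ω, B ω → Nc c (gT k) A r (2 ^ (C * (cl + 1))) (kT w TH ω k)
      (fun l => grd (T k (ptr F J ω) l) (hx F ω)) := by
  obtain ⟨C₁, hC₁, h1⟩ := CEv.tn D r
  refine ⟨C₁ + 2 * (r + 1) * (r + 1) + 4, by omega, ?_⟩
  intro m J F c Dr N M A cl Sc w e h pp z g gc gT g₀ κ B G H T TH Gt Ht E hcl k hk ω hω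
  obtain ⟨a1, a2⟩ := h1 E (by omega) k hk ω hω
  have a3 := a1.symm2
  have a2' : Nc c (gT k) A r (2 ^ 0) (fun l => grd (T k (ptr F J ω) l) (bt F ω))
      (fun l => grd (T k (ptr F J ω) l) (hx F ω)) := by rwa [pow_zero]
  refine (a3.trans2 a2').mono (pow_le_pow_right₀ (by norm_num) ?_)
  obtain ⟨y, hy⟩ : ∃ y, y = cl + (cl + 1) * r := ⟨_, rfl⟩
  rw [← hy]
  have b1 : y + 1 = (cl + 1) * (r + 1) := by
    rw [hy]
    ring
  rw [b1]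
  have b2 : (cl + 1) * (r + 1) * r + (cl + 1) * (r + 1) = (r + 1) * (r + 1) * (cl + 1) := by ring
  have b3 : (C₁ + 2 * (r + 1) * (r + 1) + 4) * (cl + 1) =
      C₁ * (cl + 1) + 2 * ((r + 1) * (r + 1) * (cl + 1)) + 4 * (cl + 1) := by ring
  rw [b3]
  omega

/-- The direction over the static visible charts. -/
theorem CEv.vls (D r : ℕ) : ∃ C : ℕ, 1 ≤ C ∧ ∀ {m J : ℕ} {F : Fam m J} {c : ℕ → Fin m}
    {Dr N M A cl : ℕ} {Sc : ℕ → Prop} {w e h pp : ℕ → ℕ} {z g gc gT g₀ : ℕ → ℕ → ℕ} {κ : ℝ}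
    {B : F.Ω → Prop} {G : ℕ → PtT F → ℕ → MvPolynomial (Option (Fin m)) ℝ}
    {H : ℕ → LnT F → ℕ → MvPolynomial (Option (Fin m)) ℝ}
    {T : ℕ → PtT F → ℕ → MvPolynomial (Option (Fin m)) ℝ}
    {TH : ℕ → LnT F → ℕ → MvPolynomial (Option (Fin m)) ℝ}
    {Gt : ℕ → PtT F → MvPolynomial (Option (Fin m)) ℝ}
    {Ht : ℕ → LnT F → MvPolynomial (Option (Fin m)) ℝ},
    CEv F c r D Dr N M A cl Sc w e h pp z g gc gT g₀ κ B G H T TH Gt Ht → C ≤ cl →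
    ∀ k ≤ N, cl ≤ pp k → cl ≤ gc k r → ∀ ω, B ω → ∀ l < r,
    |bd F ω (some (c l)) - cv (grd (T k (ptr F J ω) l) (hx F ω)) (bd F ω)| ≤
      2 ^ (C * (cl + 1)) * 2 ^ A / 2 ^ gT k l := by
  obtain ⟨C₁, hC₁, h1⟩ := ncTH D r
  refine ⟨C₁ + r + 3, by omega, ?_⟩
  intro m J F c Dr N M A cl Sc w e h pp z g gc gT g₀ κ B G H T TH Gt Ht E hcl k hk q1 q2 ω hω
    l hl
  have a1 := h1 E (by omega) k hk ω hω l hl (bd F ω)
  have a2 := E.bdT hk q1 q2 hω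
  have a3 := cv_dev (grd (T k (ptr F J ω) l) (hx F ω)) (kT w TH ω k l) (bd F ω)
    (bd F ω (some (c l)))
  rw [cv_swp] at a1
  have a4 : en c (gT k) A (kT w TH ω k) l (bd F ω) ≤ 2 ^ (r + cl) * 2 ^ A := by
    refine (a2.2 l hl.le).trans (mul_le_mul_of_nonneg_right ?_ (by positivity))
    refine le_trans ?_ (one_r r cl)
    have : (l : ℝ) ≤ r := by exact_mod_cast hl.le
    have := mul_le_mul_of_nonneg_right this (show (0 : ℝ) ≤ 2 ^ cl by positivity)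
    linarith
  refine a3.trans ((add_le_add (a2.1 l hl) (a1.trans (mul_le_mul_of_nonneg_left a4
    (by positivity)))).trans ?_)
  have e1 : (2 : ℝ) ^ cl * 2 ^ A / 2 ^ gT k l + 2 ^ (C₁ * (cl + 1)) / 2 ^ gT k l *
      (2 ^ (r + cl) * 2 ^ A) = (2 ^ cl + 2 ^ (C₁ * (cl + 1)) * 2 ^ (r + cl)) *
      (2 ^ A / 2 ^ gT k l) := by ring
  rw [e1, mul_div_assoc]
  refine mul_le_mul_of_nonneg_right ?_ (by positivity)
  rw [← pow_add]
  have b1 : (2 : ℝ) ^ cl ≤ 2 ^ (C₁ * (cl + 1) + (r + cl)) := p2 (by omega)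
  have b2 : (2 : ℝ) ^ (C₁ * (cl + 1) + (r + cl)) + 2 ^ (C₁ * (cl + 1) + (r + cl)) =
      2 ^ (C₁ * (cl + 1) + (r + cl) + 1) := by rw [pow_succ]; ring
  refine (add_le_add b1 le_rfl).trans (b2.le.trans (p2 ?_))
  have b3 : (C₁ + r + 3) * (cl + 1) = C₁ * (cl + 1) + (r * cl + r) + 3 * (cl + 1) := by ring
  rw [b3]
  omega

/-- The direction over the rounded ball. -/
theorem CEv.vlr (D r : ℕ) : ∃ C : ℕ, 1 ≤ C ∧ ∀ {m J : ℕ} {F : Fam m J} {c : ℕ → Fin m}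
    {Dr N M A cl : ℕ} {Sc : ℕ → Prop} {w e h pp : ℕ → ℕ} {z g gc gT g₀ : ℕ → ℕ → ℕ} {κ : ℝ}
    {B : F.Ω → Prop} {G : ℕ → PtT F → ℕ → MvPolynomial (Option (Fin m)) ℝ}
    {H : ℕ → LnT F → ℕ → MvPolynomial (Option (Fin m)) ℝ}
    {T : ℕ → PtT F → ℕ → MvPolynomial (Option (Fin m)) ℝ}
    {TH : ℕ → LnT F → ℕ → MvPolynomial (Option (Fin m)) ℝ}
    {Gt : ℕ → PtT F → MvPolynomial (Option (Fin m)) ℝ}
    {Ht : ℕ → LnT F → MvPolynomial (Option (Fin m)) ℝ},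
    CEv F c r D Dr N M A cl Sc w e h pp z g gc gT g₀ κ B G H T TH Gt Ht → C ≤ cl →
    ∀ k ≤ N, cl ≤ pp k → cl ≤ gc k r → ∀ j ≤ M, ∀ ω, B ω → ∀ l ≤ r,
    |bd F ω (some (c l)) - cv (grd (G k (ptr F J ω) l) (hx F ω)) (bd F ω)| ≤
      2 ^ (C * (cl + 1)) * 2 ^ w k / 2 ^ g₀ k l := by
  obtain ⟨C₁, hC₁, h1⟩ := chn_rnd D (r + 1)
  refine ⟨C₁ + r + 5, by omega, ?_⟩
  intro m J F c Dr N M A cl Sc w e h pp z g gc gT g₀ κ B G H T TH Gt Ht E hcl k hk q1 q2 jz hjz ω hω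
    l hl
  have a0 := h1 E.inj (E.evs k hk).ball (fun l hl => by
    have h5 := E.room k hk l (by omega)
    have h6 := E.ng k hk l (by omega)
    omega) ω hω l (by omega) (bd F ω)
  have a2 := E.bdG hk q1 q2 hω
  have a3 := cv_dev (grd (G k (ptr F J ω) l) (hx F ω)) (gG G ω k l) (bd F ω)
    (bd F ω (some (c l)))
  have a1 : |cv (gG G ω k l - grd (G k (ptr F J ω) l) (hx F ω)) (bd F ω)| ≤
      1 / 2 ^ g₀ k l * en c (g₀ k) (w k) (gG G ω k) l (bd F ω) := by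
    rw [cv_swp]
    exact a0
  have a4 : en c (g₀ k) (w k) (gG G ω k) l (bd F ω) ≤ 2 ^ (r + cl) * 2 ^ w k := by
    refine (a2.2 l hl).trans (mul_le_mul_of_nonneg_right ?_ (by positivity))
    refine le_trans ?_ (one_r r cl)
    have : (l : ℝ) ≤ r := by exact_mod_cast hl
    have := mul_le_mul_of_nonneg_right this (show (0 : ℝ) ≤ 2 ^ cl by positivity)
    linarith
  refine a3.trans ((add_le_add (a2.1 l hl) (a1.trans (mul_le_mul_of_nonneg_left a4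
    (by positivity)))).trans ?_)
  have e1 : (2 : ℝ) ^ cl * 2 ^ w k / 2 ^ g₀ k l + 1 / 2 ^ g₀ k l *
      (2 ^ (r + cl) * 2 ^ w k) = (2 ^ cl + 2 ^ (r + cl)) *
      (2 ^ w k / 2 ^ g₀ k l) := by ring
  rw [e1, mul_div_assoc]
  refine mul_le_mul_of_nonneg_right ?_ (by positivity)
  have b1 : (2 : ℝ) ^ cl ≤ 2 ^ (r + cl) := p2 (by omega)
  have b2 : (2 : ℝ) ^ (r + cl) + 2 ^ (r + cl) = 2 ^ (r + cl + 1) := by rw [pow_succ]; ring
  refine (add_le_add b1 le_rfl).trans (b2.le.trans (p2 ?_))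
  have b3 : (C₁ + r + 5) * (cl + 1) = C₁ * (cl + 1) + (r * cl + r) + 5 * (cl + 1) := by ring
  rw [b3]
  omega

/-- The velocity of the target over the visible row label. -/
theorem CEv.vln (D r : ℕ) : ∃ C : ℕ, 1 ≤ C ∧ ∀ {m J : ℕ} {F : Fam m J} {c : ℕ → Fin m}
    {Dr N M A cl : ℕ} {Sc : ℕ → Prop} {w e h pp : ℕ → ℕ} {z g gc gT g₀ : ℕ → ℕ → ℕ} {κ : ℝ}
    {B : F.Ω → Prop} {G : ℕ → PtT F → ℕ → MvPolynomial (Option (Fin m)) ℝ}
    {H : ℕ → LnT F → ℕ → MvPolynomial (Option (Fin m)) ℝ}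
    {T : ℕ → PtT F → ℕ → MvPolynomial (Option (Fin m)) ℝ}
    {TH : ℕ → LnT F → ℕ → MvPolynomial (Option (Fin m)) ℝ}
    {Gt : ℕ → PtT F → MvPolynomial (Option (Fin m)) ℝ}
    {Ht : ℕ → LnT F → MvPolynomial (Option (Fin m)) ℝ},
    CEv F c r D Dr N M A cl Sc w e h pp z g gc gT g₀ κ B G H T TH Gt Ht → C ≤ cl →
    ∀ {i₀ i₁ i₂ i₃ X p x : ℕ} {g' : ℕ → ℕ},
    NumW r N M A cl J Sc w e pp z g gc gT g₀ i₀ i₁ i₂ i₃ X p x g' → ∀ ω, B ω →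
    |bd F ω (some (c r)) - cv (grd (Gt i₁ (ptr F J ω)) (hx F ω)) (bd F ω)| ≤
      2 ^ (C * (cl + X + 1)) * 2 ^ A / 2 ^ p := by
  obtain ⟨C₂, hC₂, hrow⟩ := CEv.row_r D r
  refine ⟨C₂ + 8 * r + 12, by omega, ?_⟩
  intro m J F c Dr N M A cl Sc w e h pp z g gc gT g₀ κ B G H T TH Gt Ht E hcl i₀ i₁ i₂ i₃ X p x
    g' n ω hω
  have h1 := n.h1
  have h3 := n.h3
  have hJ3 : w i₃ ≤ J := (E.wA i₃ h3).trans E.AJ
  have a0 := (n.pos i₃ h3).2.1 r le_rfl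
  have a0' := (n.pos i₁ h1).2.1 r le_rfl
  have h4 := hrow E (by omega) h1 n.pq n.px (by omega) (n.gr i₁ h1) (fun l hl => ⟨by
    have := (n.pos i₁ h1).1 l hl
    omega, by
    have := (n.pos i₁ h1).2.1 l hl.le
    omega⟩) n.r0 n.r1 n.r2 n.r3 ω hω (bd F ω)
  have a4 : en c (gT i₁) A (kT w TH ω i₁) r (bd F ω) ≤ 2 ^ (r + cl) * 2 ^ A :=
    ((E.bdT h1 (n.pos i₁ h1).2.2 (by omega) hω).2 r le_rfl).trans
      (mul_le_mul_of_nonneg_right (one_r r cl) (by positivity))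
  have a5 : en c (gT i₃) A (kT w TH ω i₃) r (bd F ω) ≤ 2 ^ (r + cl) * 2 ^ A :=
    ((E.bdT h3 (n.pos i₃ h3).2.2 (by omega) hω).2 r le_rfl).trans
      (mul_le_mul_of_nonneg_right (one_r r cl) (by positivity))
  have h5 := (E.row i₁ h1 i₃ h3 (n.w1.trans n.w2) p n.pq n.pc).win ω hω (rt F (w i₃) ω)
    (rt_mem F (w i₃) ω) (bd F ω)
  rw [ptw_rt F hJ3 ω, dd_sub, E.radA h3, nrm_en, Hno_vel F (c r) hJ3] at h5
  have e0 : (fun j => grd (TH i₃ (slam F (w i₃) ω) j) (bt F ω)) = kT w TH ω i₃ := rfl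
  rw [e0] at h5
  have h6 := h5.trans (mul_le_mul_of_nonneg_left a5 (by positivity))
  have h7 := h4.trans (mul_le_mul_of_nonneg_left a4 (by positivity))
  have h8 := cv_dev (grd (Gt i₁ (ptr F J ω)) (hx F ω)) (grd (Ht i₁ (slam F (w i₁) ω)) (bt F ω))
    (bd F ω) (bd F ω (some (c r)))
  rw [cv_swp] at h7
  rw [abs_sub_comm, ← cv_grd] at h6
  refine h8.trans ((add_le_add h6 h7).trans ?_)
  have e1 : (2 : ℝ) ^ cl / 2 ^ p * (2 ^ (r + cl) * 2 ^ A) +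
      2 ^ ((6 * cl + X + 4) * r + cl + 2) / 2 ^ p * (2 ^ (r + cl) * 2 ^ A) =
      (2 ^ cl + 2 ^ ((6 * cl + X + 4) * r + cl + 2)) * 2 ^ (r + cl) * (2 ^ A / 2 ^ p) := by ring
  rw [e1, mul_div_assoc]
  refine mul_le_mul_of_nonneg_right ?_ (by positivity)
  have b1 : (2 : ℝ) ^ cl ≤ 2 ^ ((6 * cl + X + 4) * r + cl + 2) := p2 (by omega)
  have b2 : (2 : ℝ) ^ ((6 * cl + X + 4) * r + cl + 2) + 2 ^ ((6 * cl + X + 4) * r + cl + 2) =
      2 ^ ((6 * cl + X + 4) * r + cl + 2 + 1) := by rw [pow_succ]; ring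
  refine (mul_le_mul_of_nonneg_right ((add_le_add b1 le_rfl).trans b2.le)
    (by positivity)).trans ?_
  rw [← pow_add]
  refine p2 ?_
  have b3 : (6 * cl + X + 4) * r ≤ 6 * r * (cl + X + 1) := by
    have : 6 * cl + X + 4 ≤ 6 * (cl + X + 1) := by omega
    calc (6 * cl + X + 4) * r ≤ 6 * (cl + X + 1) * r := Nat.mul_le_mul_right _ this
      _ = _ := by ring
  have b4 : (C₂ + 8 * r + 12) * (cl + X + 1) = C₂ * (cl + X + 1) + 6 * r * (cl + X + 1) +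
      2 * r * (cl + X + 1) + 12 * (cl + X + 1) := by ring
  have b5 : r ≤ 2 * r * (cl + X + 1) := by nlinarith
  rw [b4]
  omega

end

end Pool.TN
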