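import Pool.Agent.H66.D2.Stb

/-!
# The package `StP` on the event of a static cell

`Xcf`: the closed charts (static coordinates: window `i₀`, rough coordinates: window `i₂`);
`Sgf`: the visible charts. `stp_cev`: `StP`.
-/

set_option autoImplicit false

namespace Pool.TN

open Finset Real MvPolynomial
open Pool.Agent.H49.Ent Pool.Agent.H32.Dense Pool.STK Pool.KA Pool.KSAT Pool.K2S Pool.PB Pool.S6C
open Pool.GEN Pool.CHT Pool.CHX Pool.ISO Pool.D2R Pool.D2Z Pool.D2F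
open Pool.FLF (Fam.sub)
open Pool.PB.Trl (rt rt_mem t_rt)

variable {m J : ℕ}

/-- The lower components of a frame vector vanish. -/
theorem ev_low {c : ℕ → Fin m} {n : ℕ} (hc : Set.InjOn c (Set.Iio n))
    {Ξ : ℕ → Option (Fin m) → ℝ} (hΞ : ∀ l, CvC c l (Ξ l)) {x : ℕ} : ∀ j < n, j < x →
    ev c n Ξ x (some (c j)) = 0 := by
  intro j
  induction j using Nat.strong_induction_on with
  | _ j ih =>
    intro hj hx
    have h1 := ev_comp hc hΞ x hj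
    rw [if_neg (by omega)] at h1
    have h2 : cv (Ξ j) (ev c n Ξ x) = 0 := by
      rw [cv_eq (hc.mono (Set.Iio_subset_Iio hj.le)) (hΞ j), ev_none, mul_zero, zero_add]
      exact Finset.sum_eq_zero fun i hi => by
        rw [Finset.mem_range] at hi
        rw [ih i hi (by omega) (by omega), mul_zero]
    linarith

/-- The size of the last vector of a frame in every other frame. -/
theorem sz_last {c : ℕ → Fin m} {x : ℕ} (hc : Set.InjOn c (Set.Iio (x + 1)))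
    {Ξ χ : ℕ → Option (Fin m) → ℝ} (hΞ : ∀ l, CvC c l (Ξ l)) (hχ : ∀ l, CvC c l (χ l))
    (g : ℕ → ℕ) : sz c g χ (x + 1) (ev c (x + 1) Ξ x) ≤ 2 ^ g x := by
  have hz : ∀ ψ : ℕ → Option (Fin m) → ℝ, (∀ l, CvC c l (ψ l)) → ∀ j ≤ x,
      cv (ψ j) (ev c (x + 1) Ξ x) = 0 := by
    intro ψ hψ j hj
    rw [cv_eq (hc.mono (Set.Iio_subset_Iio (by omega))) (hψ j), ev_none, mul_zero, zero_add]
    exact Finset.sum_eq_zero fun i hi => by
      rw [Finset.mem_range] at hi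
      rw [ev_low hc hΞ i (by omega) (by omega), mul_zero]
  unfold sz
  have h1 : ∀ j ∈ range (x + 1), (2 : ℝ) ^ g j * |ev c (x + 1) Ξ x (some (c j)) -
      cv (χ j) (ev c (x + 1) Ξ x)| = if j = x then 2 ^ g x else 0 := by
    intro j hj
    rw [Finset.mem_range] at hj
    rw [hz χ hχ j (by omega), sub_zero]
    by_cases h : j = x
    · subst h
      have h2 := ev_comp hc hΞ j (Nat.lt_succ_self j)
      rw [if_pos rfl, hz Ξ hΞ j le_rfl, sub_zero] at h2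
      rw [h2, if_pos rfl, abs_one, mul_one]
    · rw [if_neg h, ev_low hc hΞ j (by omega) (by omega), abs_zero, mul_zero]
  rw [Finset.sum_congr rfl h1, Finset.sum_ite_eq', if_pos (Finset.mem_range.2 (by omega))]

/-- Natural exponents for comparable sides. -/
theorem nlp_le {g g' : ℕ → ℕ} {j l x y : ℕ} (h1 : ∀ i, j ≤ i → i ≤ l → g i ≤ g' i + x)
    (h2 : g' l ≤ g l + y) (hj : j ≤ l) : nlp g j l ≤ nlp g' j l + (x + y) := by
  unfold nlp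
  have h3 : (Finset.Icc j l).sup g ≤ (Finset.Icc j l).sup g' + x :=
    Finset.sup_le fun i hi => by
      rw [Finset.mem_Icc] at hi
      have h4 : g' i ≤ (Finset.Icc j l).sup g' := Finset.le_sup (f := g')
        (Finset.mem_Icc.2 hi)
      have := h1 i hi.1 hi.2
      omega
  have h4 : g' l ≤ (Finset.Icc j l).sup g' := Finset.le_sup (f := g')
    (Finset.mem_Icc.2 ⟨hj, le_rfl⟩)
  omega

/-- The coefficients of the charts at the sample. -/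
theorem lip_bt {F : Fam m J} {c : ℕ → Fin m} {r a w e : ℕ} {K : ℕ → ℕ} {g : ℕ → ℕ}
    {B : F.Ω → Prop} {G : PtT F → ℕ → MvPolynomial (Option (Fin m)) ℝ}
    {H : LnT F → ℕ → MvPolynomial (Option (Fin m)) ℝ} (h : ChOK F c r K a w e g B G H)
    {ω : F.Ω} (hω : B ω) {l : ℕ} (hl : l < r) {j : ℕ} (hj : j < l) :
    |grd (G (ptr F J ω) l) (bt F ω) (some (c j))| ≤ 2 ^ (e + nlp g j l) := by
  refine h.lip ω hω l hl (bt F ω) ⟨?_, fun i hi => ?_⟩ j hj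
  · have : bt F ω none = F.t ω := rfl
    rw [this, sub_self, abs_zero]
    positivity
  · exact h.pos ω hω i (hi.trans hl)

/-- The closed charts. -/
noncomputable def Xcf {F : Fam m J} (w : ℕ → ℕ)
    (TH : ℕ → LnT F → ℕ → MvPolynomial (Option (Fin m)) ℝ) (Sc : ℕ → Prop) (i₀ i₂ : ℕ)
    (s : LnT F) (l : ℕ) : MvPolynomial (Option (Fin m)) ℝ :=
  open Classical in if Sc l then TH i₀ (co (w i₂ - w i₀) s) l else TH i₂ s l

/-- The visible charts. -/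
noncomputable def Sgf {F : Fam m J}
    (T : ℕ → PtT F → ℕ → MvPolynomial (Option (Fin m)) ℝ)
    (G : ℕ → PtT F → ℕ → MvPolynomial (Option (Fin m)) ℝ) (Sc : ℕ → Prop) (i₀ i₂ : ℕ)
    (y : PtT F) (l : ℕ) : Option (Fin m) → ℝ :=
  mx Sc (fun l => grd (T i₀ y l) (bho J J y)) (fun l => grd (G i₂ y l) (bho J J y)) l

theorem kc_Xcf {F : Fam m J} {w : ℕ → ℕ}
    {TH : ℕ → LnT F → ℕ → MvPolynomial (Option (Fin m)) ℝ} {Sc : ℕ → Prop} {i₀ i₂ : ℕ}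
    (h1 : w i₀ ≤ w i₂) (h2 : w i₂ ≤ J) (ω : F.Ω) :
    kc (w i₂) (Xcf w TH Sc i₀ i₂) ω = mx Sc (kT w TH ω i₀) (kT w TH ω i₂) := by
  classical
  funext l
  unfold kc Xcf
  by_cases hs : Sc l
  · rw [if_pos hs, mx_pos hs, co_slam F h1 h2]
    rfl
  · rw [if_neg hs, mx_neg hs]
    rfl

section

variable {F : Fam m J} {c : ℕ → Fin m} {r D Dr N M A cl : ℕ} {Sc : ℕ → Prop}
    {w e h pp : ℕ → ℕ} {z g gc gT g₀ : ℕ → ℕ → ℕ} {κ : ℝ} {B : F.Ω → Prop}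
    {G : ℕ → PtT F → ℕ → MvPolynomial (Option (Fin m)) ℝ}
    {H : ℕ → LnT F → ℕ → MvPolynomial (Option (Fin m)) ℝ}
    {T : ℕ → PtT F → ℕ → MvPolynomial (Option (Fin m)) ℝ}
    {TH : ℕ → LnT F → ℕ → MvPolynomial (Option (Fin m)) ℝ}
    {Gt : ℕ → PtT F → MvPolynomial (Option (Fin m)) ℝ}
    {Ht : ℕ → LnT F → MvPolynomial (Option (Fin m)) ℝ}
    {i₀ i₁ i₂ i₃ X p x : ℕ} {g' : ℕ → ℕ}

/-- **The second derivatives of the rough closed charts.** -/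
theorem CEv.hrr (E : CEv F c r D Dr N M A cl Sc w e h pp z g gc gT g₀ κ B G H T TH Gt Ht)
    (n : NumW r N M A cl J Sc w e pp z g gc gT g₀ i₀ i₁ i₂ i₃ X p x g') {ω : F.Ω} (hω : B ω)
    {gT0 gT1 gT3 : ℕ → ℕ} {v Z : ℕ} {κ0 κ1 κ2 κ3 Γ3 Γo σ : ℕ → Option (Fin m) → ℝ}
    {Φ γ : Option (Fin m) → ℝ}
    (W : WF c r Sc gT0 gT1 (gT i₂) gT3 (g₀ i₃) g' (fun l => g i₂ l + (w i₃ - w i₂)) v p (2 ^ Z)
      κ0 κ1 κ2 κ3 (gG G ω i₂) Γ3 Γo σ Φ γ) {l : ℕ} (hl : l < r) (hns : ¬ Sc l)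
    {V : Option (Fin m) → ℝ} (h0 : V none = 0) :
    |hs (TH i₂ (slam F (w i₂) ω) l) (bt F ω) (bd F ω) V| ≤
      2 ^ (6 * cl + 2 * r + 2 + Z * ((5 * r + 10) * r)) * 2 ^ w i₃ / 2 ^ g' l *
        sz c g' (mx Sc κ0 κ2) l V := by
  have h2 := n.h2
  have h3 := n.h3
  rw [((E.evs i₂ h2).rgh l hl hns).2.2]
  have h4 := E.zG h2 (n.pos i₂ h2).2.2 (by
    have := (n.pos i₂ h2).2.1 r le_rfl
    omega) hω hl.le V
  rw [en_sz _ _ _ _ _ h0] at h4
  have h5 : sz c (g₀ i₂) (gG G ω i₂) l V ≤ 2 ^ cl *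
      sz c (fun l => g i₂ l + (w i₃ - w i₂)) (gG G ω i₂) l V := by
    refine sz_side (fun j hj => ?_) V
    rw [← pow_add]
    have := E.ng i₂ h2 j (by omega)
    exact p2 (by omega)
  have h6 := W.g2 h0 hl.le
  have h7 := W.ns h0 hl hns
  have hY1 : (1 : ℝ) ≤ 2 ^ Z := one_le_pow₀ (by norm_num)
  obtain ⟨S, hS⟩ : ∃ S, S = sz c g' (mx Sc κ0 κ2) l V := ⟨_, rfl⟩
  have hS0 : 0 ≤ S := by rw [hS]; exact sz_nonneg _ _ _ _ _
  rw [← hS] at h7 ⊢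
  have h8 : sz c (g₀ i₂) (gG G ω i₂) l V ≤ 2 ^ (cl + Z * ((5 * r + 10) * r)) * S := by
    refine h5.trans ?_
    rw [pow_add, mul_assoc]
    refine mul_le_mul_of_nonneg_left (h6.trans ((mul_le_mul_of_nonneg_left h7
      (by positivity)).trans ?_)) (by positivity)
    rw [← mul_assoc, ← pow_add, ← pow_mul]
    refine mul_le_mul_of_nonneg_right (p2 (Nat.mul_le_mul_left _ ?_)) hS0
    calc 4 * l + (5 * r + 6) * l = (5 * r + 10) * l := by ring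
      _ ≤ _ := Nat.mul_le_mul_left _ hl.le
  have h9 : (2 : ℝ) ^ w i₂ / 2 ^ g₀ i₂ l ≤ 2 ^ (2 * cl) * 2 ^ w i₃ / 2 ^ g' l := by
    rw [div_le_div_iff₀ (by positivity) (by positivity), ← pow_add, ← pow_add, ← pow_add]
    have a1 := n.rT l hl hns
    have a2 := E.t_rg h2 hl hns
    have a3 := E.ng i₂ h2 l hl.le
    have a4 := n.w2
    have a5 := E.wA i₃ h3
    exact p2 (by omega)
  refine h4.trans ?_
  calc 2 ^ (3 * cl + 2 * r + 2) * 2 ^ w i₂ / 2 ^ g₀ i₂ l * sz c (g₀ i₂) (gG G ω i₂) l V =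
        2 ^ (3 * cl + 2 * r + 2) * (2 ^ w i₂ / 2 ^ g₀ i₂ l) *
          sz c (g₀ i₂) (gG G ω i₂) l V := by ring
    _ ≤ 2 ^ (3 * cl + 2 * r + 2) * (2 ^ (2 * cl) * 2 ^ w i₃ / 2 ^ g' l) *
          (2 ^ (cl + Z * ((5 * r + 10) * r)) * S) := by
        refine mul_le_mul (mul_le_mul_of_nonneg_left h9 (by positivity)) h8
          (sz_nonneg _ _ _ _ _) (by positivity)
    _ = 2 ^ (6 * cl + 2 * r + 2 + Z * ((5 * r + 10) * r)) * 2 ^ w i₃ / 2 ^ g' l * S := by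
        rw [show 6 * cl + 2 * r + 2 + Z * ((5 * r + 10) * r) = (3 * cl + 2 * r + 2) + 2 * cl +
          (cl + Z * ((5 * r + 10) * r)) by ring, pow_add _ (3 * cl + 2 * r + 2 + 2 * cl),
          pow_add _ (3 * cl + 2 * r + 2) (2 * cl)]
        ring

/-- **The second derivatives of the static labels in the rough frame vectors.** -/
theorem CEv.xx2 (E : CEv F c r D Dr N M A cl Sc w e h pp z g gc gT g₀ κ B G H T TH Gt Ht)
    (n : NumW r N M A cl J Sc w e pp z g gc gT g₀ i₀ i₁ i₂ i₃ X p x g') {ω : F.Ω} (hω : B ω)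
    {Z : ℕ} {Γo κm : ℕ → Option (Fin m) → ℝ} (hΓ : ∀ l, CvC c l (Γo l))
    (hκ : ∀ l, CvC c l (κm l))
    (g3 : ∀ l ≤ r, ∀ V : Option (Fin m) → ℝ, V none = 0 →
      |cv (Γo l - gG G ω i₃ l) V| ≤ 2 ^ Z / 2 ^ g₀ i₃ l * sz c (g₀ i₃) (gG G ω i₃) l V)
    {l : ℕ} (hl : l < r) (hsl : Sc l) {y : ℕ} (hy : y < l)
    (hxy : g₀ i₃ y ≤ g' y + X ∨
      (y + 1 = l ∧ w i₂ + g₀ i₂ y + g₀ i₃ l ≤ w i₃ + g₀ i₂ l + g' y + X)) :
    |hs (TH i₀ (slam F (w i₀) ω) l) (bt F ω) (bd F ω) (ev c l (mx Sc κm Γo) y)| ≤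
      2 ^ (13 * cl + 4 * r + 3 * X + 10 + (Z + 1) * r) * 2 ^ w i₃ / 2 ^ g₀ i₃ l * 2 ^ g' y := by
  have h0 := n.h0
  have h2 := n.h2
  have h3 := n.h3
  have hc : Set.InjOn c (Set.Iio l) := E.inj.mono (Set.Iio_subset_Iio (by omega))
  have hns : ∀ j < l, ¬ Sc j := n.one l hl hsl
  obtain ⟨V, hV⟩ : ∃ V, V = ev c l (mx Sc κm Γo) y := ⟨_, rfl⟩
  have hV0 : V none = 0 := by rw [hV]; exact ev_none _ _ _ _
  have p1 := (n.pos i₀ h0).1 l hl
  have hev : ∀ k ≤ N, (∀ l < r, cl ≤ gT k l ∧ cl ≤ gc k l) := fun k hk l hl => ⟨by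
    have := (n.pos k hk).1 l hl
    omega, by
    have := (n.pos k hk).2.1 l hl.le
    omega⟩
  have hgr : ∀ k ≤ N, cl ≤ gc k r := fun k hk => by
    have := (n.pos k hk).2.1 r le_rfl
    omega
  rw [← hV]
  rcases hxy with hy1 | ⟨hy1, hy2⟩
  · have h4 := E.zS h0 h3 (n.w0.trans n.w2) (hev i₃ h3) (n.pos i₃ h3).2.2 (hgr i₃ h3) hω hl hns
      (by omega) (n.stK l hl hsl) V
    rw [en_sz _ _ _ _ _ hV0] at h4
    have h5 : sz c (g₀ i₃) (gG G ω i₃) l V ≤ (1 + 2 ^ Z) ^ l * sz c (g₀ i₃) Γo l V :=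
      sz_ge (by positivity) (fun j hj => g3 j (by omega) V hV0) le_rfl
    have h6 : sz c (g₀ i₃) Γo l V = sz c (g₀ i₃) (mx Sc κm Γo) l V := by
      unfold sz
      refine Finset.sum_congr rfl fun j hj => ?_
      rw [mx_neg (hns j (Finset.mem_range.1 hj))]
    have h7 : sz c (g₀ i₃) (mx Sc κm Γo) l V ≤ 2 ^ g₀ i₃ y := by
      rw [hV]
      exact sz_ev hc (mx_cvc hκ hΓ) _ le_rfl
    have h8 : ((1 : ℝ) + 2 ^ Z) ^ l ≤ 2 ^ ((Z + 1) * r) := by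
      refine (pow_le_pow_left₀ (by positivity) (?_ : (1 : ℝ) + 2 ^ Z ≤ 2 ^ (Z + 1)) l).trans ?_
      · have : (1 : ℝ) ≤ 2 ^ Z := one_le_pow₀ (by norm_num)
        rw [pow_succ]
        linarith
      · rw [← pow_mul]
        exact p2 (Nat.mul_le_mul_left _ hl.le)
    have h9 : sz c (g₀ i₃) (gG G ω i₃) l V ≤ 2 ^ ((Z + 1) * r) * (2 ^ X * 2 ^ g' y) := by
      refine h5.trans (mul_le_mul h8 ?_ (sz_nonneg _ _ _ _ _) (by positivity))
      rw [h6]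
      refine h7.trans ?_
      rw [← pow_add]
      exact p2 (by omega)
    refine h4.trans ((mul_le_mul_of_nonneg_left h9 (by positivity)).trans ?_)
    have e0 : (2 : ℝ) ^ (12 * cl + 4 * r + X + 10) * 2 ^ w i₃ / 2 ^ g₀ i₃ l *
        (2 ^ ((Z + 1) * r) * (2 ^ X * 2 ^ g' y)) = 2 ^ (12 * cl + 4 * r + X + 10 +
        (Z + 1) * r + X) * (2 ^ w i₃ / 2 ^ g₀ i₃ l * 2 ^ g' y) := by
      rw [pow_add _ (12 * cl + 4 * r + X + 10 + (Z + 1) * r),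
        pow_add _ (12 * cl + 4 * r + X + 10)]
      ring
    rw [e0, mul_div_assoc, mul_assoc]
    refine mul_le_mul_of_nonneg_right (p2 ?_) (by positivity)
    omega
  · have ew := n.w2
    have eA := E.wA i₃ h3
    have hst : g₀ i₂ l + (A - w i₂) ≤ gT i₀ l + (X + cl + X) := by
      have a1 := n.up l hl.le
      have a2 := n.stK l hl hsl
      have a3 := E.ng i₂ h2 l hl.le
      omega
    have h4 := E.zS h0 h2 n.w0 (hev i₂ h2) (n.pos i₂ h2).2.2 (hgr i₂ h2) hω hl hns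
      (by omega) hst V
    rw [en_sz _ _ _ _ _ hV0] at h4
    have h7 : sz c (g₀ i₂) (gG G ω i₂) l V ≤ 2 ^ g₀ i₂ y := by
      rw [hV]
      subst hy1
      exact sz_last hc (mx_cvc hκ hΓ) (fun j => cvc_grd ((E.evs i₂ h2).ball.depG _ j) _) _
    refine h4.trans ((mul_le_mul_of_nonneg_left h7 (by positivity)).trans ?_)
    have e1 : (2 : ℝ) ^ (12 * cl + 4 * r + (X + cl + X) + 10) * 2 ^ w i₂ / 2 ^ g₀ i₂ l *
        2 ^ g₀ i₂ y = 2 ^ (12 * cl + 4 * r + (X + cl + X) + 10 + (w i₂ + g₀ i₂ y)) /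
        2 ^ g₀ i₂ l := by
      rw [pow_add _ (12 * cl + 4 * r + (X + cl + X) + 10), pow_add]
      ring
    have e2 : (2 : ℝ) ^ (13 * cl + 4 * r + 3 * X + 10 + (Z + 1) * r) * 2 ^ w i₃ /
        2 ^ g₀ i₃ l * 2 ^ g' y = 2 ^ (13 * cl + 4 * r + 3 * X + 10 + (Z + 1) * r +
        (w i₃ + g' y)) / 2 ^ g₀ i₃ l := by
      rw [pow_add _ (13 * cl + 4 * r + 3 * X + 10 + (Z + 1) * r), pow_add _ (w i₃)]
      ring
    rw [e1, e2, div_le_div_iff₀ (by positivity) (by positivity), ← pow_add, ← pow_add]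
    refine p2 ?_
    omega

end

end Pool.TN
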