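import Pool.Agent.H68.OWN.Kt

/-!
# D2, conic world: the entropy half of the three hops

`c` = the first digits of the free time, `u` = its fine digits, `alpha` = the slope of the row in
`c` (a known multiple of `u`), `nu` = the rest of the row, few bits given `u`. Then the row has at
least the entropy of `u`, given everything which does not know `u`.
-/

set_option autoImplicit false

namespace Pool.D2T

open Finset Real
open Pool.Agent.H49.Ent Pool.Agent.H32.Dense Pool.STK Pool.OWN68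

variable {Ω ζ γ δ : Type} [Fintype Ω]

/-- The row. -/
noncomputable def pz (s : ℕ) (ν α c : ℤ) : ℤ := ⌊(ν : ℝ) + (α : ℝ) / 2 ^ s * c⌋

/-- The slope and the height. -/
noncomputable def yz (s : ℕ) (ν α : ℤ) : (Fin 1 → ℝ) × ℝ := (fun _ => (α : ℝ) / 2 ^ s, (ν : ℝ) / 2 ^ s)

theorem pos_yz (s : ℕ) (ν α c : ℤ) :
    Pool.OWN68.pos s (yz s ν α) (fun _ => c) = pz s ν α c := by
  unfold Pool.OWN68.pos yz pz
  rw [Fin.sum_univ_one]
  have h2 : (2 : ℝ) ^ s ≠ 0 := by positivity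
  rw [mul_div_cancel₀ _ h2]

/-- The error of Kaufman's theorem. -/
noncomputable def er (C s : ℕ) (β D : ℝ) : ℝ :=
  (Real.log 2 + Real.log (2 * (s + 1)) + Real.log (nlb 1 C s)) +
    Real.log (2 * ((1 + 2 * D) / β) + 1)

/-- **The row is full if its slope in the free time is.** -/
theorem kauf_low {p : Ω → ℝ} (hp : IsLaw p) (W : Ω → ζ) {C : ℕ} (hC : 1 ≤ C) (s : ℕ)
    (α ν u c : Ω → ℤ) (hα : ∀ ω, 0 < p ω → |(α ω : ℝ) / 2 ^ s| ≤ C)
    (hc : ∀ ω, 0 < p ω → |c ω| ≤ ((C * 2 ^ s : ℕ) : ℤ)) {cst : ζ → ℝ} {β D : ℝ} (hβ : 0 < β)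
    (hD : 0 ≤ D) (hcst : ∀ ω, 0 < p ω → β ≤ |cst (W ω)|)
    (hsl : ∀ ω, 0 < p ω → |(α ω : ℝ) - cst (W ω) * u ω| ≤ D) :
    CH p u W ≤ CH p (fun ω => pz s (ν ω) (α ω) (c ω)) (fun ω => (c ω, W ω)) +
      2 * (Real.log (bx 1 (C * 2 ^ s)).card -
        CH p (fun ω (_ : Fin 1) => c ω) (fun ω => (yz s (ν ω) (α ω), W ω))) + er C s β D := by
  have h0 := hp.nonneg
  obtain ⟨κ, hκs, _, _, h1, _⟩ := kaufg hp W le_rfl hC s (b := 1) le_rfl
    (fun ω => yz s (ν ω) (α ω)) (fun ω _ => c ω) (fun ω hω _ => hα ω hω) (fun ω hω _ => hc ω hω)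
  have hpos : CH p (fun ω => Pool.OWN68.pos s (yz s (ν ω) (α ω)) (fun _ => c ω))
      (fun ω => ((fun _ : Fin 1 => c ω), W ω)) =
      CH p (fun ω => pz s (ν ω) (α ω) (c ω)) (fun ω => (c ω, W ω)) := by
    refine CH_congr h0 ?_ ?_ ?_ ?_
    · intro ω ω' _ _ h
      dsimp only at h ⊢
      rw [← pos_yz, ← pos_yz]
      exact (Prod.ext_iff.mp h).1
    · intro ω ω' _ _ h
      dsimp only at h ⊢
      rw [pos_yz, pos_yz]
      exact (Prod.ext_iff.mp h).1
    · intro ω ω' _ _ h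
      have h1 := Prod.ext_iff.mp h
      exact Prod.ext (congrFun h1.1 0) h1.2
    · intro ω ω' _ _ h
      have h1 := Prod.ext_iff.mp h
      exact Prod.ext (funext fun _ => h1.1) h1.2
  rw [hpos] at h1
  -- the label determines `u` to `s - κ` digits
  have h2 : CH p u (fun ω => ((κ ω, lbl (κ ω) (yz s (ν ω) (α ω))), W ω)) ≤
      Ex p (fun ω => (s : ℝ) - κ ω) * Real.log 2 + Real.log (2 * ((1 + 2 * D) / β) + 1) := by
    have h3 := CH_le_int h0 hp.sum_one u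
      (fun ω => ((κ ω, lbl (κ ω) (yz s (ν ω) (α ω))), W ω))
      (fun ω => (2 ^ (s - κ ω) + 2 * D) / β) (by
        intro ω ω' hω hω' h
        simp only [Prod.mk.injEq] at h
        obtain ⟨⟨hk, hl⟩, hw⟩ := h
        rw [hk] at hl
        have hl1 := congrFun (Prod.ext_iff.mp hl).1 0
        unfold lbl yz at hl1
        dsimp only at hl1
        have h4 := (Int.abs_sub_lt_one_of_floor_eq_floor hl1).le
        have hκ' := hκs ω'
        have hS : (2 : ℝ) ^ s = 2 ^ κ ω' * 2 ^ (s - κ ω') := by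
          rw [← pow_add]
          congr 1
          omega
        have h5 : |(α ω : ℝ) - α ω'| ≤ 2 ^ (s - κ ω) := by
          rw [hk]
          have e : (2 : ℝ) ^ κ ω' * ((α ω : ℝ) / 2 ^ s) - 2 ^ κ ω' * ((α ω' : ℝ) / 2 ^ s) =
              ((α ω : ℝ) - α ω') / 2 ^ (s - κ ω') := by
            rw [hS]
            have h2k : (2 : ℝ) ^ κ ω' ≠ 0 := by positivity
            have h2k' : (2 : ℝ) ^ (s - κ ω') ≠ 0 := by positivity
            field_simp
          rw [e, abs_div, abs_of_pos (by positivity : (0 : ℝ) < 2 ^ (s - κ ω')),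
            div_le_one (by positivity)] at h4
          exact h4
        have h6 := hsl ω hω
        have h7 := hsl ω' hω'
        rw [← hw] at h7
        have h8 : |cst (W ω)| * |((u ω - u ω' : ℤ) : ℝ)| ≤ 2 ^ (s - κ ω) + 2 * D := by
          rw [← abs_mul]
          push_cast
          have e : cst (W ω) * ((u ω : ℝ) - u ω') = ((α ω : ℝ) - α ω') -
              ((α ω : ℝ) - cst (W ω) * u ω) + ((α ω' : ℝ) - cst (W ω) * u ω') := by ring
          rw [e]
          refine (abs_add_le _ _).trans ?_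
          have h9 := abs_sub ((α ω : ℝ) - α ω') ((α ω : ℝ) - cst (W ω) * u ω)
          linarith
        rw [le_div_iff₀ hβ, mul_comm]
        exact (mul_le_mul_of_nonneg_right (hcst ω hω) (abs_nonneg _)).trans h8)
    refine h3.trans ?_
    have h4 : Ex p (fun ω => Real.log (2 * ((2 ^ (s - κ ω) + 2 * D) / β) + 1)) ≤
        Ex p (fun ω => ((s : ℝ) - κ ω) * Real.log 2 + Real.log (2 * ((1 + 2 * D) / β) + 1)) := by
      refine Ex_mono h0 fun ω _ => ?_
      have h5 : (1 : ℝ) ≤ 2 ^ (s - κ ω) := one_le_pow₀ (by norm_num)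
      have h6 : ((s : ℝ) - κ ω) * Real.log 2 = Real.log (2 ^ (s - κ ω)) := by
        rw [Real.log_pow, Nat.cast_sub (hκs ω)]
      have h8 : (0 : ℝ) < 2 * ((1 + 2 * D) / β) + 1 := by positivity
      rw [h6, ← Real.log_mul (by positivity) h8.ne']
      refine Real.log_le_log (by positivity) ?_
      have h7 : (2 ^ (s - κ ω) + 2 * D) / β ≤ 2 ^ (s - κ ω) * ((1 + 2 * D) / β) := by
        rw [mul_div_assoc']
        refine div_le_div_of_nonneg_right ?_ hβ.le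
        nlinarith
      nlinarith
    refine h4.trans (le_of_eq ?_)
    rw [Ex_add, Ex_const hp.sum_one]
    congr 1
    unfold Ex
    rw [Finset.sum_mul]
    exact Finset.sum_congr rfl fun ω _ => by ring
  have h3 := CH_le_add h0 u (fun ω => (κ ω, lbl (κ ω) (yz s (ν ω) (α ω)))) W
  have e1 : ((1 : ℕ) : ℝ) * Real.log 2 = Real.log 2 := by push_cast; ring
  rw [e1] at h1
  unfold er
  linarith

/-- **The row given everything which does not know `u`.** -/
theorem three_low {p : Ω → ℝ} (hp : IsLaw p) (W : Ω → ζ) (G : Ω → γ) {C : ℕ} (hC : 1 ≤ C) (s : ℕ)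
    (α ν u c : Ω → ℤ) (hα : ∀ ω, 0 < p ω → |(α ω : ℝ) / 2 ^ s| ≤ C)
    (hc : ∀ ω, 0 < p ω → |c ω| ≤ ((C * 2 ^ s : ℕ) : ℤ)) {cst : ζ → ℝ} {β D : ℝ} (hβ : 0 < β)
    (hD : 0 ≤ D) (hcst : ∀ ω, 0 < p ω → β ≤ |cst (W ω)|)
    (hsl : ∀ ω, 0 < p ω → |(α ω : ℝ) - cst (W ω) * u ω| ≤ D)
    (hG : Det p G (fun ω => (c ω, W ω))) :
    CH p u G ≤ CH p (fun ω => pz s (ν ω) (α ω) (c ω)) G +
      CH p (fun ω => (α ω, ν ω)) (fun ω => (u ω, W ω)) +
      2 * (Real.log (bx 1 (C * 2 ^ s)).card -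
        CH p (fun ω (_ : Fin 1) => c ω) (fun ω => (yz s (ν ω) (α ω), W ω))) + er C s β D := by
  have h0 := hp.nonneg
  have h1 := kauf_low hp W hC s α ν u c hα hc hβ hD hcst hsl
  -- `u` given the row and `G`
  have h2 := CH_le_add h0 u (fun ω => pz s (ν ω) (α ω) (c ω)) G
  have h3 : CH p u (fun ω => (pz s (ν ω) (α ω) (c ω), G ω)) ≤
      CH p u (fun ω => (pz s (ν ω) (α ω) (c ω), (c ω, W ω))) :=
    CH_mono_cond h0 fun ω ω' a b h => by
      have h4 := Prod.ext_iff.mp h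
      exact Prod.ext h4.1 (hG ω ω' a b h4.2)
  have h4 := CH_bayes h0 u (fun ω => pz s (ν ω) (α ω) (c ω)) (fun ω => (c ω, W ω))
  have h5 : CH p u (fun ω => (c ω, W ω)) ≤ CH p u W :=
    CH_mono_cond h0 fun ω ω' _ _ h => (Prod.ext_iff.mp h).2
  have h6 : CH p (fun ω => pz s (ν ω) (α ω) (c ω)) (fun ω => (u ω, (c ω, W ω))) ≤
      CH p (fun ω => (α ω, ν ω)) (fun ω => (u ω, W ω)) := by
    have h7 : CH p (fun ω => pz s (ν ω) (α ω) (c ω)) (fun ω => (u ω, (c ω, W ω))) ≤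
        CH p (fun ω => (α ω, ν ω)) (fun ω => (u ω, (c ω, W ω))) :=
      CH_mono_left h0 fun ω ω' _ _ h => by
        simp only [Prod.mk.injEq] at h
        rw [h.1.1, h.1.2, h.2.2.1]
    refine h7.trans (CH_mono_cond h0 fun ω ω' _ _ h => ?_)
    simp only [Prod.mk.injEq] at h ⊢
    tauto
  linarith

/-- **The three hops**: `R` = the row of `N` at the end, `K` = its known part, `X` = what the
nonfullness of `N` conditions on. -/
theorem three_end {p : Ω → ℝ} (hp : IsLaw p) (W : Ω → ζ) (G : Ω → γ) (X : Ω → δ) {C : ℕ}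
    (hC : 1 ≤ C) (s : ℕ) (α ν u c R K : Ω → ℤ) (hα : ∀ ω, 0 < p ω → |(α ω : ℝ) / 2 ^ s| ≤ C)
    (hc : ∀ ω, 0 < p ω → |c ω| ≤ ((C * 2 ^ s : ℕ) : ℤ)) {cst : ζ → ℝ} {β D D' h e₁ : ℝ}
    (hβ : 0 < β) (hD : 0 ≤ D) (hcst : ∀ ω, 0 < p ω → β ≤ |cst (W ω)|)
    (hsl : ∀ ω, 0 < p ω → |(α ω : ℝ) - cst (W ω) * u ω| ≤ D)
    (hG : Det p G (fun ω => (c ω, W ω)))
    (hR : ∀ ω, 0 < p ω → |((R ω - K ω - pz s (ν ω) (α ω) (c ω) : ℤ) : ℝ)| ≤ D')
    (hnf : CH p R X ≤ (1 - h) * (s * Real.log 2) + e₁) :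
    CH p u G ≤ (1 - h) * (s * Real.log 2) + e₁ + CH p X G + CH p K G +
      Real.log (4 * D' + 1) + CH p (fun ω => (α ω, ν ω)) (fun ω => (u ω, W ω)) +
      2 * (Real.log (bx 1 (C * 2 ^ s)).card -
        CH p (fun ω (_ : Fin 1) => c ω) (fun ω => (yz s (ν ω) (α ω), W ω))) + er C s β D := by
  have h0 := hp.nonneg
  have h1 := three_low hp W G hC s α ν u c hα hc hβ hD hcst hsl hG
  have h2 := CH_le_add h0 (fun ω => pz s (ν ω) (α ω) (c ω)) (fun ω => (R ω, K ω)) G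
  have h3 := CH_subadd h0 R K G
  have h4 : CH p (fun ω => pz s (ν ω) (α ω) (c ω)) (fun ω => ((R ω, K ω), G ω)) ≤
      Real.log (4 * D' + 1) := by
    have h5 := CH_le_int h0 hp.sum_one (fun ω => pz s (ν ω) (α ω) (c ω))
      (fun ω => ((R ω, K ω), G ω)) (fun _ => 2 * D') (by
        intro ω ω' hω hω' h
        simp only [Prod.mk.injEq] at h
        obtain ⟨⟨e1, e2⟩, _⟩ := h
        have h6 := hR ω hω
        have h7 := hR ω' hω'
        rw [← e1, ← e2] at h7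
        push_cast at h6 h7 ⊢
        have e : ((pz s (ν ω) (α ω) (c ω) : ℤ) : ℝ) - (pz s (ν ω') (α ω') (c ω') : ℤ) =
            ((R ω : ℝ) - K ω - (pz s (ν ω') (α ω') (c ω') : ℤ)) -
            ((R ω : ℝ) - K ω - (pz s (ν ω) (α ω) (c ω) : ℤ)) := by ring
        rw [e]
        refine (abs_sub _ _).trans ?_
        linarith)
    rw [Ex_const hp.sum_one] at h5
    refine h5.trans (le_of_eq ?_)
    congr 1
    ring
  have h5 := CH_le_add h0 R X G
  have h6 : CH p R (fun ω => (X ω, G ω)) ≤ CH p R X :=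
    CH_mono_cond h0 fun ω ω' _ _ h => (Prod.ext_iff.mp h).1
  linarith

end Pool.D2T
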