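import Pool.Agent.H28.D2.Inst
import Pool.Agent.H60.D2.Fra

/-!
# Two norms

Pointwise linear algebra of the end of the static cells. `sz c g χ l V`: the size of a vector in the
frame of the covectors `χ`, with the sides `g`. `ev c n Ξ x`: the vector of the frame. `two_nrm`: a
covector which is small in the norm of the ball and on the rough vectors is small in the mixed norm.
`cor`: the row covector with the static corrections `δ`; `cor_del`, `cor_nat`, `cor_two`: it is near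
the ball, and near the visible one in the mixed norm.
-/

set_option autoImplicit false

namespace Pool.TN

open Finset Real MvPolynomial
open Pool.D2F (cv CvC eta cv_nc cv_add cv_sub cv_smul)
open Pool.D2F2 (fv fv_none fv_comp cv_fv)
open Pool.D2Z (en en_eq cv_subl cv_addl cv_smull cv_neg')

variable {m : ℕ}

/-- The size of a vector (without the time component). -/
noncomputable def sz (c : ℕ → Fin m) (g : ℕ → ℕ) (χ : ℕ → Option (Fin m) → ℝ) (l : ℕ)
    (V : Option (Fin m) → ℝ) : ℝ := ∑ j ∈ range l, 2 ^ g j * |V (some (c j)) - cv (χ j) V|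

theorem sz_nonneg (c : ℕ → Fin m) (g : ℕ → ℕ) (χ : ℕ → Option (Fin m) → ℝ) (l : ℕ)
    (V : Option (Fin m) → ℝ) : 0 ≤ sz c g χ l V :=
  Finset.sum_nonneg fun _ _ => by positivity

theorem sz_zero (c : ℕ → Fin m) (g : ℕ → ℕ) (χ : ℕ → Option (Fin m) → ℝ)
    (V : Option (Fin m) → ℝ) : sz c g χ 0 V = 0 := Finset.sum_range_zero _

theorem sz_succ (c : ℕ → Fin m) (g : ℕ → ℕ) (χ : ℕ → Option (Fin m) → ℝ) (l : ℕ)
    (V : Option (Fin m) → ℝ) : sz c g χ (l + 1) V =
      sz c g χ l V + 2 ^ g l * |V (some (c l)) - cv (χ l) V| := Finset.sum_range_succ _ _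

theorem sz_mono (c : ℕ → Fin m) (g : ℕ → ℕ) (χ : ℕ → Option (Fin m) → ℝ) {l l' : ℕ}
    (h : l ≤ l') (V : Option (Fin m) → ℝ) : sz c g χ l V ≤ sz c g χ l' V :=
  Finset.sum_le_sum_of_subset_of_nonneg (Finset.range_mono h) fun _ _ _ => by positivity

/-- For vectors without time component the sizes `en` and `sz` agree. -/
theorem en_sz (c : ℕ → Fin m) (g : ℕ → ℕ) (a : ℕ) (χ : ℕ → Option (Fin m) → ℝ) (l : ℕ)
    {V : Option (Fin m) → ℝ} (h : V none = 0) : en c g a χ l V = sz c g χ l V := by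
  rw [en_eq, h, abs_zero, mul_zero, zero_add]
  rfl

theorem sz_le_en (c : ℕ → Fin m) (g : ℕ → ℕ) (a : ℕ) (χ : ℕ → Option (Fin m) → ℝ) (l : ℕ)
    (V : Option (Fin m) → ℝ) : sz c g χ l V ≤ en c g a χ l V := by
  rw [en_eq]
  have : (0 : ℝ) ≤ 2 ^ a * |V none| := by positivity
  unfold sz
  linarith

/-- A component of a vector. -/
theorem sz_comp {c : ℕ → Fin m} {g : ℕ → ℕ} {χ : ℕ → Option (Fin m) → ℝ} {j l : ℕ} (h : j < l)
    (V : Option (Fin m) → ℝ) : |V (some (c j)) - cv (χ j) V| ≤ 1 / 2 ^ g j * sz c g χ l V := by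
  have h1 : 2 ^ g j * |V (some (c j)) - cv (χ j) V| ≤ sz c g χ l V :=
    Finset.single_le_sum (f := fun j => 2 ^ g j * |V (some (c j)) - cv (χ j) V|)
      (fun _ _ => by positivity) (Finset.mem_range.2 h)
  have h2 : (0 : ℝ) < 2 ^ g j := by positivity
  rw [one_div, ← div_eq_inv_mul, le_div_iff₀ h2, mul_comm]
  exact h1

/-- The sizes for other sides. -/
theorem sz_side {c : ℕ → Fin m} {g g' : ℕ → ℕ} {χ : ℕ → Option (Fin m) → ℝ} {l : ℕ} {X : ℝ}
    (h : ∀ j < l, (2 : ℝ) ^ g j ≤ X * 2 ^ g' j) (V : Option (Fin m) → ℝ) :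
    sz c g χ l V ≤ X * sz c g' χ l V := by
  unfold sz
  rw [Finset.mul_sum]
  refine Finset.sum_le_sum fun j hj => ?_
  rw [← mul_assoc]
  exact mul_le_mul_of_nonneg_right (h j (Finset.mem_range.1 hj)) (abs_nonneg _)

/-- Two lists of covectors which are near on the vectors without time component: one direction. -/
theorem sz_le {c : ℕ → Fin m} {g : ℕ → ℕ} {χ χ' : ℕ → Option (Fin m) → ℝ} {L : ℕ} {K : ℝ}
    (hK : 0 ≤ K) {V : Option (Fin m) → ℝ} (h : ∀ l < L, |cv (χ' l - χ l) V| ≤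
      K / 2 ^ g l * sz c g χ l V) {l : ℕ} (hl : l ≤ L) :
    sz c g χ' l V ≤ (1 + K) ^ l * sz c g χ l V := by
  induction l with
  | zero => rw [sz_zero, sz_zero, mul_zero]
  | succ l ih =>
    rw [sz_succ, sz_succ]
    have h1 := ih (by omega)
    have h2 := h l (by omega)
    have hg : (0 : ℝ) < 2 ^ g l := by positivity
    have h3 : 2 ^ g l * |V (some (c l)) - cv (χ' l) V| ≤
        2 ^ g l * |V (some (c l)) - cv (χ l) V| + K * sz c g χ l V := by
      have e1 : V (some (c l)) - cv (χ' l) V =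
          (V (some (c l)) - cv (χ l) V) - cv (χ' l - χ l) V := by
        rw [cv_subl]
        ring
      rw [e1]
      have h4 := mul_le_mul_of_nonneg_left ((abs_sub (V (some (c l)) - cv (χ l) V)
        (cv (χ' l - χ l) V)).trans (add_le_add le_rfl h2)) hg.le
      refine h4.trans (le_of_eq ?_)
      field_simp
    have h0 := sz_nonneg c g χ l V
    have h5 : 0 ≤ 2 ^ g l * |V (some (c l)) - cv (χ l) V| := by positivity
    have h6 : (1 : ℝ) ≤ (1 + K) ^ l := one_le_pow₀ (by linarith)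
    have h6' : (1 : ℝ) ≤ (1 + K) ^ (l + 1) := one_le_pow₀ (by linarith)
    have h7 : K * sz c g χ l V ≤ K * ((1 + K) ^ l * sz c g χ l V) := by
      refine mul_le_mul_of_nonneg_left ?_ hK
      nlinarith
    rw [mul_add]
    have h8 : (1 + K) ^ (l + 1) * sz c g χ l V = (1 + K) ^ l * sz c g χ l V +
        K * ((1 + K) ^ l * sz c g χ l V) := by ring
    rw [h8]
    have h9 : 2 ^ g l * |V (some (c l)) - cv (χ l) V| ≤
        (1 + K) ^ (l + 1) * (2 ^ g l * |V (some (c l)) - cv (χ l) V|) :=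
      le_mul_of_one_le_left h5 h6'
    linarith

/-- The other direction. -/
theorem sz_ge {c : ℕ → Fin m} {g : ℕ → ℕ} {χ χ' : ℕ → Option (Fin m) → ℝ} {L : ℕ} {K : ℝ}
    (hK : 0 ≤ K) {V : Option (Fin m) → ℝ} (h : ∀ l < L, |cv (χ' l - χ l) V| ≤
      K / 2 ^ g l * sz c g χ l V) {l : ℕ} (hl : l ≤ L) :
    sz c g χ l V ≤ (1 + K) ^ l * sz c g χ' l V := by
  induction l with
  | zero => rw [sz_zero, sz_zero, mul_zero]
  | succ l ih =>
    rw [sz_succ, sz_succ]
    have h1 := ih (by omega)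
    have h2 := h l (by omega)
    have hg : (0 : ℝ) < 2 ^ g l := by positivity
    have h3 : 2 ^ g l * |V (some (c l)) - cv (χ l) V| ≤
        2 ^ g l * |V (some (c l)) - cv (χ' l) V| + K * sz c g χ l V := by
      have e1 : V (some (c l)) - cv (χ l) V =
          (V (some (c l)) - cv (χ' l) V) + cv (χ' l - χ l) V := by
        rw [cv_subl]
        ring
      rw [e1]
      have h4 := mul_le_mul_of_nonneg_left ((abs_add_le (V (some (c l)) - cv (χ' l) V)
        (cv (χ' l - χ l) V)).trans (add_le_add le_rfl h2)) hg.le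
      refine h4.trans (le_of_eq ?_)
      field_simp
    have h0 := sz_nonneg c g χ' l V
    have h5 : 0 ≤ 2 ^ g l * |V (some (c l)) - cv (χ' l) V| := by positivity
    have h6' : (1 : ℝ) ≤ (1 + K) ^ (l + 1) := one_le_pow₀ (by linarith)
    have h7 : (1 + K) * sz c g χ l V ≤ (1 + K) * ((1 + K) ^ l * sz c g χ' l V) :=
      mul_le_mul_of_nonneg_left h1 (by linarith)
    have h8 : 2 ^ g l * |V (some (c l)) - cv (χ' l) V| ≤
        (1 + K) ^ (l + 1) * (2 ^ g l * |V (some (c l)) - cv (χ' l) V|) :=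
      le_mul_of_one_le_left h5 h6'
    rw [mul_add]
    have h9 : (1 + K) ^ (l + 1) * sz c g χ' l V = (1 + K) * ((1 + K) ^ l * sz c g χ' l V) := by
      ring
    rw [h9]
    linarith

/-! ### The vectors of the frame -/

/-- **The vector of the frame** in the direction of `c x`. -/
noncomputable def ev (c : ℕ → Fin m) (n : ℕ) (Ξ : ℕ → Option (Fin m) → ℝ) (x : ℕ) :
    Option (Fin m) → ℝ := fv c (fun _ => 0) 0 n Ξ x

theorem ev_none (c : ℕ → Fin m) (n : ℕ) (Ξ : ℕ → Option (Fin m) → ℝ) (x : ℕ) :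
    ev c n Ξ x none = 0 := fv_none _ _ _ _ _ _

theorem ev_comp {c : ℕ → Fin m} {n : ℕ} (hc : Set.InjOn c (Set.Iio n))
    {Ξ : ℕ → Option (Fin m) → ℝ} (hΞ : ∀ l, CvC c l (Ξ l)) (x : ℕ) {j : ℕ} (hj : j < n) :
    ev c n Ξ x (some (c j)) - cv (Ξ j) (ev c n Ξ x) = if j = x then 1 else 0 :=
  fv_comp hc _ _ hΞ x hj

/-- A covector in the components of the frame. -/
theorem cv_ev {c : ℕ → Fin m} {n : ℕ} (hc : Set.InjOn c (Set.Iio n))
    {Ξ : ℕ → Option (Fin m) → ℝ} (hΞ : ∀ l, CvC c l (Ξ l)) {W : Option (Fin m) → ℝ}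
    (hW : CvC c n W) {V : Option (Fin m) → ℝ} (h0 : V none = 0) :
    cv W V = ∑ l ∈ range n, cv W (ev c n Ξ l) * (V (some (c l)) - cv (Ξ l) V) := by
  rw [cv_nc hc (fun _ => 0) 0 hΞ hW, Finset.sum_range_succ']
  have e0 : eta c (fun _ => 0) 0 Ξ V 0 = 0 := by
    simp only [eta]
    rw [h0, mul_zero]
  rw [e0, mul_zero, add_zero]
  refine Finset.sum_congr rfl fun l _ => ?_
  unfold ev
  rw [cv_fv]
  simp only [eta]
  ring

theorem sz_ev {c : ℕ → Fin m} {n : ℕ} (hc : Set.InjOn c (Set.Iio n))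
    {Ξ : ℕ → Option (Fin m) → ℝ} (hΞ : ∀ l, CvC c l (Ξ l)) (g : ℕ → ℕ) {x l : ℕ}
    (hl : l ≤ n) : sz c g Ξ l (ev c n Ξ x) ≤ 2 ^ g x := by
  have h1 : sz c g Ξ l (ev c n Ξ x) = ∑ j ∈ range l, if j = x then (2 : ℝ) ^ g x else 0 := by
    unfold sz
    refine Finset.sum_congr rfl fun j hj => ?_
    rw [ev_comp hc hΞ x ((Finset.mem_range.1 hj).trans_le hl)]
    by_cases h : j = x
    · rw [if_pos h, if_pos h, h, abs_one, mul_one]
    · rw [if_neg h, if_neg h, abs_zero, mul_zero]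
  rw [h1, Finset.sum_ite_eq']
  split_ifs
  · exact le_rfl
  · positivity

/-! ### The mixed frame -/

open Classical in
/-- The mixed chain: static coordinates `κ`, rough coordinates `Γ`. -/
noncomputable def mx (Sc : ℕ → Prop) (κ Γ : ℕ → Option (Fin m) → ℝ) (l : ℕ) :
    Option (Fin m) → ℝ := if Sc l then κ l else Γ l

theorem mx_pos {Sc : ℕ → Prop} {κ Γ : ℕ → Option (Fin m) → ℝ} {l : ℕ} (h : Sc l) :
    mx Sc κ Γ l = κ l := if_pos h

theorem mx_neg {Sc : ℕ → Prop} {κ Γ : ℕ → Option (Fin m) → ℝ} {l : ℕ} (h : ¬ Sc l) :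
    mx Sc κ Γ l = Γ l := if_neg h

theorem mx_cvc {c : ℕ → Fin m} {Sc : ℕ → Prop} {κ Γ : ℕ → Option (Fin m) → ℝ}
    (hκ : ∀ l, CvC c l (κ l)) (hΓ : ∀ l, CvC c l (Γ l)) (l : ℕ) : CvC c l (mx Sc κ Γ l) := by
  by_cases h : Sc l
  · rw [mx_pos h]
    exact hκ l
  · rw [mx_neg h]
    exact hΓ l

/-- The vectors of the mixed frame in the norm of the ball. -/
theorem sz_evK {c : ℕ → Fin m} {n : ℕ} (hc : Set.InjOn c (Set.Iio n)) {Sc : ℕ → Prop}
    {κ Γ : ℕ → Option (Fin m) → ℝ} (hκ : ∀ l, CvC c l (κ l)) (hΓ : ∀ l, CvC c l (Γ l))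
    {gK : ℕ → ℕ} {U : ℝ} (hU : 0 ≤ U)
    (H1 : ∀ l < n, Sc l → ∀ V : Option (Fin m) → ℝ, V none = 0 →
      |cv (κ l - Γ l) V| ≤ U / 2 ^ gK l * sz c gK Γ l V) {x l : ℕ} (hl : l ≤ n) :
    sz c gK Γ l (ev c n (mx Sc κ Γ) x) ≤ (1 + U) ^ n * 2 ^ gK x := by
  have h1 : ∀ j < n, |cv (mx Sc κ Γ j - Γ j) (ev c n (mx Sc κ Γ) x)| ≤
      U / 2 ^ gK j * sz c gK Γ j (ev c n (mx Sc κ Γ) x) := by
    intro j hj
    by_cases h : Sc j
    · rw [mx_pos h]
      exact H1 j hj h _ (ev_none _ _ _ _)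
    · rw [mx_neg h, cv_subl, sub_self, abs_zero]
      exact mul_nonneg (by positivity) (sz_nonneg _ _ _ _ _)
  refine (sz_ge hU h1 hl).trans (mul_le_mul (pow_le_pow_right₀ (by linarith) hl)
    (sz_ev hc (mx_cvc hκ hΓ) gK hl) (sz_nonneg _ _ _ _ _) (by positivity))

/-- **Two norms.** -/
theorem two_nrm {c : ℕ → Fin m} {n : ℕ} (hc : Set.InjOn c (Set.Iio n)) {Sc : ℕ → Prop}
    {κ Γ : ℕ → Option (Fin m) → ℝ} (hκ : ∀ l, CvC c l (κ l)) (hΓ : ∀ l, CvC c l (Γ l))
    {gK g' : ℕ → ℕ} {U M X : ℝ} (hU : 0 ≤ U) (hM : 0 ≤ M) (hX : 1 ≤ X)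
    (hgs : ∀ l < n, Sc l → (2 : ℝ) ^ gK l ≤ X * 2 ^ g' l)
    (H1 : ∀ l < n, Sc l → ∀ V : Option (Fin m) → ℝ, V none = 0 →
      |cv (κ l - Γ l) V| ≤ U / 2 ^ gK l * sz c gK Γ l V)
    (H2 : ∀ l < n, ¬ Sc l → ∀ V : Option (Fin m) → ℝ, V none = 0 →
      |cv (Γ l - κ l) V| ≤ U / 2 ^ g' l * sz c g' κ l V)
    {W : Option (Fin m) → ℝ} (hW : CvC c n W)
    (W1 : ∀ V : Option (Fin m) → ℝ, V none = 0 → |cv W V| ≤ M * sz c gK Γ n V)
    (W2 : ∀ l < n, ¬ Sc l → |cv W (ev c n (mx Sc κ Γ) l)| ≤ M * 2 ^ g' l)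
    {V : Option (Fin m) → ℝ} (h0 : V none = 0) :
    |cv W V| ≤ M * (n * (1 + U) ^ (n + 1) * X) * sz c g' κ n V := by
  rw [cv_ev hc (mx_cvc (Sc := Sc) hκ hΓ) hW h0]
  have hs := sz_nonneg c g' κ n V
  have h1U : (1 : ℝ) ≤ 1 + U := by linarith
  have hterm : ∀ l ∈ range n, |cv W (ev c n (mx Sc κ Γ) l) *
      (V (some (c l)) - cv (mx Sc κ Γ l) V)| ≤ M * ((1 + U) ^ (n + 1) * X) * sz c g' κ n V := by
    intro l hl
    rw [Finset.mem_range] at hl
    have hg' : (0 : ℝ) < 2 ^ g' l := by positivity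
    rw [abs_mul]
    by_cases h : Sc l
    · have h1 : |cv W (ev c n (mx Sc κ Γ) l)| ≤ M * ((1 + U) ^ n * 2 ^ gK l) :=
        (W1 _ (ev_none _ _ _ _)).trans (mul_le_mul_of_nonneg_left
          (sz_evK hc hκ hΓ hU H1 le_rfl) hM)
      rw [mx_pos h]
      have h2 := sz_comp (c := c) (g := g') (χ := κ) hl V
      refine (mul_le_mul h1 h2 (abs_nonneg _) (by positivity)).trans ?_
      have h3 : M * ((1 + U) ^ n * 2 ^ gK l) ≤ M * ((1 + U) ^ n * (X * 2 ^ g' l)) :=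
        mul_le_mul_of_nonneg_left (mul_le_mul_of_nonneg_left (hgs l hl h) (by positivity)) hM
      refine (mul_le_mul_of_nonneg_right h3 (by positivity)).trans ?_
      have e1 : M * ((1 + U) ^ n * (X * 2 ^ g' l)) * (1 / 2 ^ g' l * sz c g' κ n V) =
          M * ((1 + U) ^ n * X) * sz c g' κ n V := by
        field_simp
      rw [e1]
      refine mul_le_mul_of_nonneg_right (mul_le_mul_of_nonneg_left (mul_le_mul_of_nonneg_right
        (pow_le_pow_right₀ h1U (Nat.le_succ n)) (by linarith)) hM) hs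
    · rw [mx_neg h]
      have h2 := sz_comp (c := c) (g := g') (χ := κ) hl V
      have h3 := H2 l hl h V h0
      have h4 : |V (some (c l)) - cv (Γ l) V| ≤ (1 + U) / 2 ^ g' l * sz c g' κ n V := by
        have e1 : V (some (c l)) - cv (Γ l) V = (V (some (c l)) - cv (κ l) V) -
            cv (Γ l - κ l) V := by
          rw [cv_subl]
          ring
        rw [e1]
        have h5 : U / 2 ^ g' l * sz c g' κ l V ≤ U / 2 ^ g' l * sz c g' κ n V :=
          mul_le_mul_of_nonneg_left (sz_mono _ _ _ hl.le _) (by positivity)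
        refine (abs_sub _ _).trans ((add_le_add h2 (h3.trans h5)).trans (le_of_eq ?_))
        ring
      refine (mul_le_mul (W2 l hl h) h4 (abs_nonneg _) (by positivity)).trans ?_
      have e1 : M * 2 ^ g' l * ((1 + U) / 2 ^ g' l * sz c g' κ n V) =
          M * ((1 + U) ^ 1 * 1) * sz c g' κ n V := by
        field_simp
      rw [e1]
      refine mul_le_mul_of_nonneg_right (mul_le_mul_of_nonneg_left (mul_le_mul
        (pow_le_pow_right₀ h1U (by omega)) hX (by norm_num) (by positivity)) hM) hs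
  refine (Finset.abs_sum_le_sum_abs _ _).trans ((Finset.sum_le_sum hterm).trans (le_of_eq ?_))
  rw [Finset.sum_const, Finset.card_range, nsmul_eq_mul]
  ring

end Pool.TN
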