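import Mathlib

/-!
# D2, one coordinate of slope two: closed formulas

Real algebra with errors. `h = (hy, hv, hu)` is the derivative along the own line of the gradient of
the closed label of the target, `(θ, k)` the gradient of `u` over `(y, v)`, `M` the slope of `v`,
`Mu = θ + k M` the slope of `u`.

* `cl_div`, `cl_frz`: division by a closed number, at the time or at a fixed time.
* `cl_two`: `hv + k hu = 0` and `hy + M hv + Mu hu = 0` give `k` and `θ`.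
* `cl_k3`: the case `v` contact, `u` rough: `T + A m = κ c`, `m' = κ k`, `c' = - A k` give
  `T' = - 2 κ A k`.
* `cl_sig`, `cl_both`: both contact: `σ = c + k cu` has `σ' = cu k'`.
-/

set_option autoImplicit false

namespace Pool.D2T

/-- **Division by a closed number.** -/
theorem cl_div {A k c ε μ : ℝ} (hμ : 0 < μ) (hA : μ ≤ |A|) (h : |c + k * A| ≤ ε) :
    |k - -(c / A)| ≤ ε / μ := by
  have hA0 : A ≠ 0 := by
    intro h0
    rw [h0, abs_zero] at hA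
    linarith
  have hA1 : 0 < |A| := hμ.trans_le hA
  have hε : 0 ≤ ε := (abs_nonneg _).trans h
  have e : k - -(c / A) = (c + k * A) / A := by
    field_simp
    ring
  rw [e, abs_div]
  exact div_le_div₀ hε h hμ hA

/-- Division by the closed number at a fixed time. -/
theorem cl_frz {A A₀ k c ε ε' μ K : ℝ} (hμ : 0 < μ) (hA : μ ≤ |A₀|) (h : |c + k * A| ≤ ε)
    (hk : |k| ≤ K) (hf : |A - A₀| ≤ ε') : |k - -(c / A₀)| ≤ (ε + K * ε') / μ := by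
  refine cl_div hμ hA ?_
  have e : c + k * A₀ = (c + k * A) - k * (A - A₀) := by ring
  have hε' : 0 ≤ ε' := (abs_nonneg _).trans hf
  have h1 : |k * (A - A₀)| ≤ K * ε' := by
    rw [abs_mul]
    exact mul_le_mul hk hf (abs_nonneg _) ((abs_nonneg _).trans hk)
  rw [e]
  exact (abs_sub _ _).trans (add_le_add h h1)

/-- **`v`, `u` rough**: the gradient of `u` is closed. -/
theorem cl_two {hy hv hu θ k M ε₁ ε₂ μ K : ℝ} (hμ : 0 < μ) (hA : μ ≤ |hu|) (hM : |M| ≤ K)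
    (h1 : |hv + k * hu| ≤ ε₁) (h2 : |hy + M * hv + (θ + k * M) * hu| ≤ ε₂) :
    |k - -(hv / hu)| ≤ ε₁ / μ ∧ |θ - -(hy / hu)| ≤ (ε₂ + K * ε₁) / μ := by
  refine ⟨cl_div hμ hA h1, cl_div hμ hA ?_⟩
  have e : hy + θ * hu = (hy + M * hv + (θ + k * M) * hu) - M * (hv + k * hu) := by ring
  have h3 : |M * (hv + k * hu)| ≤ K * ε₁ := by
    rw [abs_mul]
    exact mul_le_mul hM h1 (abs_nonneg _) ((abs_nonneg _).trans hM)
  rw [e]
  exact (abs_sub _ _).trans (add_le_add h2 h3)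

/-- If `hu` is small, then so are all components. -/
theorem cl_small {hy hv hu θ k M ε₁ ε₂ δ K : ℝ} (hu' : |hu| ≤ δ) (hM : |M| ≤ K) (hk : |k| ≤ K)
    (hθ : |θ| ≤ K) (h1 : |hv + k * hu| ≤ ε₁) (h2 : |hy + M * hv + (θ + k * M) * hu| ≤ ε₂) :
    |hv| ≤ ε₁ + K * δ ∧ |hy| ≤ ε₂ + K * ε₁ + K * δ := by
  have hδ : 0 ≤ δ := (abs_nonneg _).trans hu'
  have hK : 0 ≤ K := (abs_nonneg _).trans hM
  constructor
  · have e : hv = (hv + k * hu) - k * hu := by ring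
    have h3 : |k * hu| ≤ K * δ := by
      rw [abs_mul]
      exact mul_le_mul hk hu' (abs_nonneg _) hK
    rw [e]
    exact (abs_sub _ _).trans (add_le_add h1 h3)
  · have e : hy = (hy + M * hv + (θ + k * M) * hu) - M * (hv + k * hu) - θ * hu := by ring
    have h3 : |M * (hv + k * hu)| ≤ K * ε₁ := by
      rw [abs_mul]
      exact mul_le_mul hM h1 (abs_nonneg _) hK
    have h4 : |θ * hu| ≤ K * δ := by
      rw [abs_mul]
      exact mul_le_mul hθ hu' (abs_nonneg _) hK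
    rw [e]
    exact (abs_sub _ _).trans (add_le_add ((abs_sub _ _).trans (add_le_add h2 h3)) h4)

/-- **`v` contact, `u` rough**: two close times; `T` closed, `m`, `c`, `k` visible. -/
theorem cl_k3 {T₁ T₂ m₁ m₂ c₁ c₂ A κ k Δ ε μ : ℝ} (hμ : 0 < μ) (hA : μ ≤ |2 * κ * A * Δ|)
    (h1 : |T₁ + A * m₁ - κ * c₁| ≤ ε) (h2 : |T₂ + A * m₂ - κ * c₂| ≤ ε)
    (h3 : |m₂ - m₁ - κ * k * Δ| ≤ ε) (h4 : |c₂ - c₁ + A * k * Δ| ≤ ε) :
    |k - -((T₂ - T₁) / (2 * κ * A * Δ))| ≤ (2 + |A| + |κ|) * ε / μ := by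
  refine cl_div hμ hA ?_
  have e : T₂ - T₁ + k * (2 * κ * A * Δ) = (T₂ + A * m₂ - κ * c₂) - (T₁ + A * m₁ - κ * c₁) -
      A * (m₂ - m₁ - κ * k * Δ) + κ * (c₂ - c₁ + A * k * Δ) := by ring
  have h5 : |A * (m₂ - m₁ - κ * k * Δ)| ≤ |A| * ε := by
    rw [abs_mul]
    exact mul_le_mul_of_nonneg_left h3 (abs_nonneg _)
  have h6 : |κ * (c₂ - c₁ + A * k * Δ)| ≤ |κ| * ε := by
    rw [abs_mul]
    exact mul_le_mul_of_nonneg_left h4 (abs_nonneg _)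
  rw [e]
  rw [abs_le] at h1 h2 h5 h6 ⊢
  constructor <;> linarith [h1.1, h1.2, h2.1, h2.2, h5.1, h5.2, h6.1, h6.2]

/-- **Both contact**: `σ = c + k cu` moves as `cu k'`. -/
theorem cl_sig {c₁ c₂ k₁ k₂ u₁ u₂ ε : ℝ} (h : |c₂ - c₁ + k₁ * (u₂ - u₁)| ≤ ε) :
    |(c₂ + k₂ * u₂) - (c₁ + k₁ * u₁) - u₂ * (k₂ - k₁)| ≤ ε := by
  have e : (c₂ + k₂ * u₂) - (c₁ + k₁ * u₁) - u₂ * (k₂ - k₁) = c₂ - c₁ + k₁ * (u₂ - u₁) := by ring
  rw [e]
  exact h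

/-- **Both contact**: with `σ` and `k` closed, `cu` and `c` are closed. -/
theorem cl_both {c₁ c₂ k₁ k₂ u₁ u₂ s₁ s₂ ε μ K : ℝ} (hμ : 0 < μ) (hk : μ ≤ |k₂ - k₁|)
    (hK : |k₂| ≤ K) (h : |c₂ - c₁ + k₁ * (u₂ - u₁)| ≤ ε) (hs₁ : |c₁ + k₁ * u₁ - s₁| ≤ ε)
    (hs₂ : |c₂ + k₂ * u₂ - s₂| ≤ ε) :
    |u₂ - (s₂ - s₁) / (k₂ - k₁)| ≤ 3 * ε / μ ∧
      |c₂ - (s₂ - k₂ * ((s₂ - s₁) / (k₂ - k₁)))| ≤ ε + K * (3 * ε / μ) := by
  have hk0 : k₂ - k₁ ≠ 0 := by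
    intro h0
    rw [h0, abs_zero] at hk
    linarith
  have h1 := cl_sig (k₂ := k₂) h
  have hu : |u₂ - (s₂ - s₁) / (k₂ - k₁)| ≤ 3 * ε / μ := by
    have e : u₂ - (s₂ - s₁) / (k₂ - k₁) = (u₂ * (k₂ - k₁) - (s₂ - s₁)) / (k₂ - k₁) := by
      field_simp
    have h2 : |u₂ * (k₂ - k₁) - (s₂ - s₁)| ≤ 3 * ε := by
      rw [abs_le] at h1 hs₁ hs₂ ⊢
      constructor <;> linarith [h1.1, h1.2, hs₁.1, hs₁.2, hs₂.1, hs₂.2]
    rw [e, abs_div]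
    exact div_le_div₀ ((abs_nonneg _).trans h2) h2 hμ hk
  refine ⟨hu, ?_⟩
  have e : c₂ - (s₂ - k₂ * ((s₂ - s₁) / (k₂ - k₁))) =
      (c₂ + k₂ * u₂ - s₂) - k₂ * (u₂ - (s₂ - s₁) / (k₂ - k₁)) := by ring
  have h3 : |k₂ * (u₂ - (s₂ - s₁) / (k₂ - k₁))| ≤ K * (3 * ε / μ) := by
    rw [abs_mul]
    exact mul_le_mul hK hu (abs_nonneg _) ((abs_nonneg _).trans hK)
  rw [e]
  exact (abs_sub _ _).trans (add_le_add hs₂ h3)

end Pool.D2T
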