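import Pool.Agent.H66.D2.Cor

/-!
# The first-order facts of a static cell

`WF`: at one sample, the closed thin chains `κ0`, `κ1`, `κ2`, `κ3` of the windows `w00`, `w0`, `t`,
`K` (radius `A`), the balls `Γ2`, `Γ3` of the windows `t`, `K`, the row covector `Φ` and their
visible partners, against each other. `wf_out`: all first-order facts of the package `StP`.
-/

set_option autoImplicit false

namespace Pool.TN

open Finset Real
open Pool.D2F (cv CvC)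
open Pool.D2Z (cv_subl)

variable {m : ℕ}

/-- A size bounded by a monotone sequence. -/
theorem sz_dom {c : ℕ → Fin m} {g : ℕ → ℕ} {χ : ℕ → Option (Fin m) → ℝ} {L : ℕ} {X : ℝ}
    (hX : 0 ≤ X) {V : Option (Fin m) → ℝ} {f : ℕ → ℝ} (hf0 : ∀ l, 0 ≤ f l)
    (hfm : ∀ l < L, f l ≤ f (l + 1)) (h : ∀ l < L, 2 ^ g l * |V (some (c l)) - cv (χ l) V| ≤
      X * f (l + 1) + X * sz c g χ l V) {l : ℕ} (hl : l ≤ L) :
    sz c g χ l V ≤ (1 + 2 * X) ^ l * f l := by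
  induction l with
  | zero =>
    rw [sz_zero, pow_zero, one_mul]
    exact hf0 0
  | succ l ih =>
    have h1 := ih (by omega)
    have h2 := h l (by omega)
    have h3 := hfm l (by omega)
    rw [sz_succ]
    obtain ⟨Q, hQ⟩ : ∃ Q, Q = (1 + 2 * X) ^ l := ⟨_, rfl⟩
    have hQ1 : 1 ≤ Q := by
      rw [hQ]
      exact one_le_pow₀ (by linarith)
    rw [← hQ] at h1
    have e1 : (1 + 2 * X) ^ (l + 1) = Q * (1 + 2 * X) := by rw [hQ, pow_succ]
    rw [e1]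
    have h4 : sz c g χ l V ≤ Q * f (l + 1) := h1.trans (mul_le_mul_of_nonneg_left h3 (by linarith))
    have h5 := mul_le_mul_of_nonneg_left h4 hX
    have h6 : X * f (l + 1) ≤ X * (Q * f (l + 1)) :=
      mul_le_mul_of_nonneg_left (le_mul_of_one_le_left (hf0 _) hQ1) hX
    have e2 : Q * (1 + 2 * X) * f (l + 1) = Q * f (l + 1) + (X * (Q * f (l + 1)) +
        X * (Q * f (l + 1))) := by ring
    rw [e2]
    linarith

/-- Powers. -/
theorem pw_dom {Y : ℝ} (hY : 2 ≤ Y) (a l : ℕ) : (1 + 2 * Y ^ a) ^ l ≤ Y ^ ((a + 2) * l) := by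
  have h1 : (1 : ℝ) ≤ Y ^ a := one_le_pow₀ (by linarith)
  have h2 : 1 + 2 * Y ^ a ≤ Y ^ (a + 2) := by
    have e : Y ^ (a + 2) = Y ^ a * (Y * Y) := by ring
    rw [e]
    have h3 : 4 ≤ Y * Y := by nlinarith
    nlinarith
  rw [pow_mul]
  exact pow_le_pow_left₀ (by positivity) h2 l

theorem pw_one {Y : ℝ} (hY : 2 ≤ Y) (a l : ℕ) : (1 + Y ^ a) ^ l ≤ Y ^ ((a + 2) * l) := by
  refine (pow_le_pow_left₀ (by positivity) ?_ l).trans (pw_dom hY a l)
  have : (0 : ℝ) ≤ Y ^ a := by positivity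
  linarith

/-- **The first-order facts at one sample.** -/
structure WF (c : ℕ → Fin m) (r : ℕ) (Sc : ℕ → Prop) (gT0 gT1 gT gT3 gK g' gF : ℕ → ℕ)
    (v p : ℕ) (Y : ℝ) (κ0 κ1 κ2 κ3 Γ2 Γ3 Γo σ : ℕ → Option (Fin m) → ℝ)
    (Φ γ : Option (Fin m) → ℝ) : Prop where
  y2 : 2 ≤ Y
  one : ∀ l < r, Sc l → ∀ x < l, ¬ Sc x
  n0 : ∀ l < r, (2 : ℝ) ^ gT0 l ≤ Y * 2 ^ gT l
  n1 : ∀ l < r, (2 : ℝ) ^ gT1 l ≤ Y * 2 ^ gT l
  s3 : ∀ l < r, Sc l → (2 : ℝ) ^ gT3 l ≤ Y * 2 ^ gT l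
  s0 : ∀ l < r, Sc l → (2 : ℝ) ^ gT l ≤ Y * 2 ^ gT0 l
  sK : ∀ l < r, Sc l → (2 : ℝ) ^ (gK l + v) ≤ Y * 2 ^ gT l
  sp : ∀ l < r, Sc l → g' l = gK l
  rT : ∀ l < r, ¬ Sc l → gT l = g' l + v
  r3 : ∀ l < r, ¬ Sc l → (2 : ℝ) ^ gT3 l ≤ Y * 2 ^ (gK l + v)
  rK : ∀ l < r, (2 : ℝ) ^ g' l ≤ Y * 2 ^ gK l
  fF : ∀ l < r, (2 : ℝ) ^ gF l ≤ Y * 2 ^ g' l
  Ff : ∀ l < r, ¬ Sc l → (2 : ℝ) ^ g' l ≤ Y * 2 ^ gF l
  hh : ∀ l < r, ¬ Sc l → ∀ x < l, ¬ Sc x → (2 : ℝ) ^ gK x ≤ Y * 2 ^ g' x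
  vp : (2 : ℝ) ^ v / 2 ^ p ≤ Y / 2 ^ gK r
  a0 : ∀ l < r, ∀ V : Option (Fin m) → ℝ, V none = 0 →
    |cv (κ0 l - κ2 l) V| ≤ Y / 2 ^ gT0 l * sz c gT κ2 l V
  a1 : ∀ l < r, ∀ V : Option (Fin m) → ℝ, V none = 0 →
    |cv (κ1 l - κ2 l) V| ≤ Y / 2 ^ gT1 l * sz c gT κ2 l V
  a3 : ∀ l < r, Sc l → ∀ V : Option (Fin m) → ℝ, V none = 0 →
    |cv (κ0 l - κ3 l) V| ≤ Y / 2 ^ gT3 l * sz c gT3 κ3 l V
  b3 : ∀ l < r, Sc l → ∀ V : Option (Fin m) → ℝ, V none = 0 →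
    |cv (κ0 l - Γ3 l) V| ≤ Y / 2 ^ (gK l + v) * sz c gT3 κ3 l V + Y / 2 ^ gK l * sz c gK Γ3 l V
  d3 : ∀ l < r, ¬ Sc l → ∀ V : Option (Fin m) → ℝ, V none = 0 →
    |cv (κ3 l - Γ3 l) V| ≤ Y / 2 ^ gK l * sz c gK Γ3 l V
  c3 : ∀ V : Option (Fin m) → ℝ, V none = 0 →
    |cv (Φ - Γ3 r) V| ≤ Y / 2 ^ p * sz c gT3 κ3 r V + Y / 2 ^ gK r * sz c gK Γ3 r V
  e2 : ∀ l < r, ¬ Sc l → ∀ V : Option (Fin m) → ℝ, V none = 0 →
    |cv (κ2 l - Γ2 l) V| ≤ Y / 2 ^ g' l * sz c gF Γ2 l V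
  bl : ∀ l < r, ∀ V : Option (Fin m) → ℝ, V none = 0 →
    |cv (Γ2 l - Γ3 l) V| ≤ Y / 2 ^ gF l * sz c gK Γ3 l V
  f0 : ∀ l < r, Sc l → ∀ V : Option (Fin m) → ℝ, V none = 0 →
    |cv (κ0 l - σ l) V| ≤ Y / 2 ^ gT0 l * sz c gT0 κ0 l V
  f1 : ∀ V : Option (Fin m) → ℝ, V none = 0 → |cv (Φ - γ) V| ≤ Y / 2 ^ p * sz c gT1 κ1 r V
  f2 : ∀ l < r, ¬ Sc l → ∀ V : Option (Fin m) → ℝ, V none = 0 →
    |cv (κ2 l - σ l) V| ≤ Y / 2 ^ g' l * sz c gF Γ2 l V
  g3 : ∀ l ≤ r, ∀ V : Option (Fin m) → ℝ, V none = 0 →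
    |cv (Γo l - Γ3 l) V| ≤ Y / 2 ^ gK l * sz c gK Γ3 l V

section

variable {c : ℕ → Fin m} {r : ℕ} {Sc : ℕ → Prop} {gT0 gT1 gT gT3 gK g' gF : ℕ → ℕ}
  {v p : ℕ} {Y : ℝ} {κ0 κ1 κ2 κ3 Γ2 Γ3 Γo σ : ℕ → Option (Fin m) → ℝ}
  {Φ γ : Option (Fin m) → ℝ} {V : Option (Fin m) → ℝ}

theorem cv_tri (ψ χ φ : Option (Fin m) → ℝ) (V : Option (Fin m) → ℝ) :
    |cv (ψ - φ) V| ≤ |cv (ψ - χ) V| + |cv (χ - φ) V| := by
  have e : cv (ψ - φ) V = cv (ψ - χ) V + cv (χ - φ) V := by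
    rw [cv_subl, cv_subl, cv_subl]
    ring
  rw [e]
  exact abs_add_le _ _

theorem cv_swp (ψ χ : Option (Fin m) → ℝ) (V : Option (Fin m) → ℝ) :
    |cv (ψ - χ) V| = |cv (χ - ψ) V| := by
  have e : cv (ψ - χ) V = -cv (χ - ψ) V := by
    rw [cv_subl, cv_subl]
    ring
  rw [e, abs_neg]

theorem cv_dev (ψ χ : Option (Fin m) → ℝ) (V : Option (Fin m) → ℝ) (x : ℝ) :
    |x - cv ψ V| ≤ |x - cv χ V| + |cv (χ - ψ) V| := by
  have e : x - cv ψ V = (x - cv χ V) + cv (χ - ψ) V := by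
    rw [cv_subl]
    ring
  rw [e]
  exact abs_add_le _ _

/-- The closed thin chain of `t` and the mixed chain. -/
theorem WF.mt (h : WF c r Sc gT0 gT1 gT gT3 gK g' gF v p Y κ0 κ1 κ2 κ3 Γ2 Γ3 Γo σ Φ γ)
    (h0 : V none = 0) {l : ℕ} (hl : l ≤ r) :
    sz c gT (mx Sc κ0 κ2) l V ≤ Y ^ (4 * l) * sz c gT κ2 l V ∧
    sz c gT κ2 l V ≤ Y ^ (4 * l) * sz c gT (mx Sc κ0 κ2) l V := by
  have hY := h.y2
  have h1 : ∀ x < r, |cv (mx Sc κ0 κ2 x - κ2 x) V| ≤ Y ^ 2 / 2 ^ gT x * sz c gT κ2 x V := by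
    intro x hx
    by_cases hs : Sc x
    · rw [mx_pos hs]
      refine (h.a0 x hx V h0).trans (mul_le_mul_of_nonneg_right ?_ (sz_nonneg _ _ _ _ _))
      rw [div_le_div_iff₀ (by positivity) (by positivity)]
      have := mul_le_mul_of_nonneg_left (h.s0 x hx hs) (show 0 ≤ Y by linarith)
      calc Y * 2 ^ gT x ≤ Y * (Y * 2 ^ gT0 x) := this
        _ = Y ^ 2 * 2 ^ gT0 x := by ring
    · rw [mx_neg hs, cv_subl, sub_self, abs_zero]
      exact mul_nonneg (by positivity) (sz_nonneg _ _ _ _ _)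
  have h2 : (1 + Y ^ 2) ^ l ≤ Y ^ (4 * l) := pw_one hY 2 l
  exact ⟨(sz_le (by positivity) h1 hl).trans (mul_le_mul_of_nonneg_right h2
    (sz_nonneg _ _ _ _ _)), (sz_ge (by positivity) h1 hl).trans (mul_le_mul_of_nonneg_right h2
    (sz_nonneg _ _ _ _ _))⟩

/-- The thin chain of the ball `K`. -/
theorem WF.n3 (h : WF c r Sc gT0 gT1 gT gT3 gK g' gF v p Y κ0 κ1 κ2 κ3 Γ2 Γ3 Γo σ Φ γ)
    (h0 : V none = 0) {l : ℕ} (hl : l ≤ r) :
    sz c gT3 κ3 l V ≤ Y ^ (5 * l) * (sz c gT (mx Sc κ0 κ2) l V + 2 ^ v * sz c gK Γ3 l V) := by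
  have hY := h.y2
  have hY0 : 0 ≤ Y := by linarith
  have hY1 : 1 ≤ Y := by linarith
  refine (sz_dom (X := Y ^ 3) (by positivity)
    (f := fun l => sz c gT (mx Sc κ0 κ2) l V + 2 ^ v * sz c gK Γ3 l V)
    (fun l => add_nonneg (sz_nonneg _ _ _ _ _) (mul_nonneg (by positivity)
      (sz_nonneg _ _ _ _ _))) (fun x _ => add_le_add (sz_mono _ _ _ (Nat.le_succ x) V)
      (mul_le_mul_of_nonneg_left (sz_mono _ _ _ (Nat.le_succ x) V) (by positivity)))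
    (fun x hx => ?_) hl).trans ?_
  · have s1 := sz_nonneg c gT3 κ3 x V
    have s2 := sz_nonneg c gT (mx Sc κ0 κ2) x V
    have s3 := sz_nonneg c gK Γ3 x V
    rw [sz_succ c gT, sz_succ c gK]
    have y2 : Y ≤ Y ^ 3 := le_self_pow₀ hY1 (by norm_num)
    by_cases hs : Sc x
    · have h1 := h.a3 x hx hs V h0
      have h2 := h.s3 x hx hs
      rw [mx_pos hs]
      obtain ⟨d, hd⟩ : ∃ d, d = |V (some (c x)) - cv (κ0 x) V| := ⟨_, rfl⟩
      have h3 := cv_dev (κ3 x) (κ0 x) V (V (some (c x)))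
      rw [← hd] at h3 ⊢
      have hd0 : 0 ≤ d := by rw [hd]; exact abs_nonneg _
      have a1 : 0 ≤ 2 ^ v * (sz c gK Γ3 x V + 2 ^ gK x *
          |V (some (c x)) - cv (Γ3 x) V|) := by positivity
      calc 2 ^ gT3 x * |V (some (c x)) - cv (κ3 x) V| ≤
            2 ^ gT3 x * (d + Y / 2 ^ gT3 x * sz c gT3 κ3 x V) :=
            mul_le_mul_of_nonneg_left (h3.trans (add_le_add le_rfl h1)) (by positivity)
        _ = 2 ^ gT3 x * d + Y * sz c gT3 κ3 x V := by field_simp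
        _ ≤ Y * 2 ^ gT x * d + Y * sz c gT3 κ3 x V :=
            add_le_add (mul_le_mul_of_nonneg_right h2 hd0) le_rfl
        _ ≤ Y ^ 3 * (sz c gT (mx Sc κ0 κ2) x V + 2 ^ gT x * d + 2 ^ v * (sz c gK Γ3 x V +
              2 ^ gK x * |V (some (c x)) - cv (Γ3 x) V|)) + Y ^ 3 * sz c gT3 κ3 x V := by
            have a2 : 0 ≤ 2 ^ gT x * d := by positivity
            have a3 := mul_le_mul_of_nonneg_right y2 a2
            have a4 := mul_le_mul_of_nonneg_right y2 s1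
            have a5 : 0 ≤ Y ^ 3 * (sz c gT (mx Sc κ0 κ2) x V) := by positivity
            have a6 : 0 ≤ Y ^ 3 * (2 ^ v * (sz c gK Γ3 x V + 2 ^ gK x *
              |V (some (c x)) - cv (Γ3 x) V|)) := by positivity
            nlinarith
    · have h1 := h.d3 x hx hs V h0
      have h2 := h.r3 x hx hs
      obtain ⟨d, hd⟩ : ∃ d, d = |V (some (c x)) - cv (Γ3 x) V| := ⟨_, rfl⟩
      have h3 := cv_dev (κ3 x) (Γ3 x) V (V (some (c x)))
      rw [← hd, cv_swp] at h3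
      rw [← hd]
      have hd0 : 0 ≤ d := by rw [hd]; exact abs_nonneg _
      have e1 : (2 : ℝ) ^ (gK x + v) = 2 ^ gK x * 2 ^ v := pow_add _ _ _
      have a0 : 0 ≤ 2 ^ gT x * |V (some (c x)) - cv (mx Sc κ0 κ2 x) V| := by positivity
      calc 2 ^ gT3 x * |V (some (c x)) - cv (κ3 x) V| ≤
            Y * 2 ^ (gK x + v) * (d + Y / 2 ^ gK x * sz c gK Γ3 x V) :=
            mul_le_mul h2 (h3.trans (add_le_add le_rfl h1)) (abs_nonneg _) (by positivity)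
        _ = Y * (2 ^ v * (2 ^ gK x * d)) + Y ^ 2 * (2 ^ v * sz c gK Γ3 x V) := by
            rw [e1]
            field_simp
        _ ≤ _ := by
            have a1 : 0 ≤ 2 ^ v * (2 ^ gK x * d) := by positivity
            have a2 : 0 ≤ 2 ^ v * sz c gK Γ3 x V := by positivity
            have a3 := mul_le_mul_of_nonneg_right y2 a1
            have a4 := mul_le_mul_of_nonneg_right
              (show Y ^ 2 ≤ Y ^ 3 from pow_le_pow_right₀ hY1 (by norm_num)) a2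
            have a5 : 0 ≤ Y ^ 3 * (sz c gT (mx Sc κ0 κ2) x V + 2 ^ gT x *
              |V (some (c x)) - cv (mx Sc κ0 κ2 x) V|) := by positivity
            have a6 : 0 ≤ Y ^ 3 * sz c gT3 κ3 x V := by positivity
            have e2 : Y ^ 3 * (sz c gT (mx Sc κ0 κ2) x V + 2 ^ gT x *
              |V (some (c x)) - cv (mx Sc κ0 κ2 x) V| + 2 ^ v * (sz c gK Γ3 x V +
              2 ^ gK x * d)) = Y ^ 3 * (sz c gT (mx Sc κ0 κ2) x V + 2 ^ gT x *
              |V (some (c x)) - cv (mx Sc κ0 κ2 x) V|) + Y ^ 3 * (2 ^ v * sz c gK Γ3 x V) +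
              Y ^ 3 * (2 ^ v * (2 ^ gK x * d)) := by ring
            rw [e2]
            linarith
  · exact mul_le_mul_of_nonneg_right (pw_dom hY 3 l) (add_nonneg (sz_nonneg _ _ _ _ _)
      (mul_nonneg (by positivity) (sz_nonneg _ _ _ _ _)))

/-- The thin chain of the ball `K` below a static coordinate. -/
theorem WF.n3s (h : WF c r Sc gT0 gT1 gT gT3 gK g' gF v p Y κ0 κ1 κ2 κ3 Γ2 Γ3 Γo σ Φ γ)
    (h0 : V none = 0) {l : ℕ} (hl : l < r) (hs : Sc l) :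
    sz c gT3 κ3 l V ≤ Y ^ (5 * l) * (2 ^ v * sz c gK Γ3 l V) := by
  have hY := h.y2
  have hY0 : 0 ≤ Y := by linarith
  have hY1 : 1 ≤ Y := by linarith
  refine (sz_dom (X := Y ^ 3) (by positivity) (L := l)
    (f := fun l => 2 ^ v * sz c gK Γ3 l V) (fun l => mul_nonneg (by positivity)
      (sz_nonneg _ _ _ _ _)) (fun x _ => mul_le_mul_of_nonneg_left
      (sz_mono _ _ _ (Nat.le_succ x) V) (by positivity)) (fun x hx => ?_) le_rfl).trans ?_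
  · have s1 := sz_nonneg c gT3 κ3 x V
    have s3 := sz_nonneg c gK Γ3 x V
    rw [sz_succ c gK]
    have hsx := h.one l hl hs x hx
    have hxr : x < r := hx.trans hl
    have h1 := h.d3 x hxr hsx V h0
    have h2 := h.r3 x hxr hsx
    obtain ⟨d, hd⟩ : ∃ d, d = |V (some (c x)) - cv (Γ3 x) V| := ⟨_, rfl⟩
    have h3 := cv_dev (κ3 x) (Γ3 x) V (V (some (c x)))
    rw [← hd, cv_swp] at h3
    rw [← hd]
    have hd0 : 0 ≤ d := by rw [hd]; exact abs_nonneg _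
    have e1 : (2 : ℝ) ^ (gK x + v) = 2 ^ gK x * 2 ^ v := pow_add _ _ _
    calc 2 ^ gT3 x * |V (some (c x)) - cv (κ3 x) V| ≤
          Y * 2 ^ (gK x + v) * (d + Y / 2 ^ gK x * sz c gK Γ3 x V) :=
          mul_le_mul h2 (h3.trans (add_le_add le_rfl h1)) (abs_nonneg _) (by positivity)
      _ = Y * (2 ^ v * (2 ^ gK x * d)) + Y ^ 2 * (2 ^ v * sz c gK Γ3 x V) := by
          rw [e1]
          field_simp
      _ ≤ _ := by
          have a1 : 0 ≤ 2 ^ v * (2 ^ gK x * d) := by positivity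
          have a2 : 0 ≤ 2 ^ v * sz c gK Γ3 x V := by positivity
          have a3 := mul_le_mul_of_nonneg_right
            (show Y ≤ Y ^ 3 from le_self_pow₀ hY1 (by norm_num)) a1
          have a4 := mul_le_mul_of_nonneg_right
            (show Y ^ 2 ≤ Y ^ 3 from pow_le_pow_right₀ hY1 (by norm_num)) a2
          have a6 : 0 ≤ Y ^ 3 * sz c gT3 κ3 x V := by positivity
          have e2 : Y ^ 3 * (2 ^ v * (sz c gK Γ3 x V + 2 ^ gK x * d)) =
            Y ^ 3 * (2 ^ v * sz c gK Γ3 x V) + Y ^ 3 * (2 ^ v * (2 ^ gK x * d)) := by ring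
          rw [e2]
          linarith
  · exact mul_le_mul_of_nonneg_right (pw_dom hY 3 l) (mul_nonneg (by positivity)
      (sz_nonneg _ _ _ _ _))

/-- **The static charts are natural at the ball.** -/
theorem WF.s1 (h : WF c r Sc gT0 gT1 gT gT3 gK g' gF v p Y κ0 κ1 κ2 κ3 Γ2 Γ3 Γo σ Φ γ)
    (h0 : V none = 0) {l : ℕ} (hl : l < r) (hs : Sc l) :
    |cv (κ0 l - Γ3 l) V| ≤ Y ^ (5 * r + 3) / 2 ^ gK l * sz c gK Γ3 l V := by
  have hY := h.y2
  have hY1 : 1 ≤ Y := by linarith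
  have h1 := h.b3 l hl hs V h0
  have h2 := h.n3s h0 hl hs
  have s3 := sz_nonneg c gK Γ3 l V
  have h3 : Y ^ (5 * l) ≤ Y ^ (5 * r) := pow_le_pow_right₀ hY1 (by omega)
  have e1 : (2 : ℝ) ^ (gK l + v) = 2 ^ gK l * 2 ^ v := pow_add _ _ _
  refine h1.trans ?_
  calc Y / 2 ^ (gK l + v) * sz c gT3 κ3 l V + Y / 2 ^ gK l * sz c gK Γ3 l V ≤
        Y / 2 ^ (gK l + v) * (Y ^ (5 * l) * (2 ^ v * sz c gK Γ3 l V)) +
          Y / 2 ^ gK l * sz c gK Γ3 l V :=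
        add_le_add (mul_le_mul_of_nonneg_left h2 (by positivity)) le_rfl
    _ = (Y ^ (5 * l) + 1) * Y / 2 ^ gK l * sz c gK Γ3 l V := by
        rw [e1]
        field_simp
    _ ≤ Y ^ (5 * r + 3) / 2 ^ gK l * sz c gK Γ3 l V := by
        refine mul_le_mul_of_nonneg_right (div_le_div_of_nonneg_right ?_ (by positivity)) s3
        have e2 : Y ^ (5 * r + 3) = Y ^ (5 * r) * (Y * Y) * Y := by ring
        rw [e2]
        refine mul_le_mul_of_nonneg_right ?_ (by linarith)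
        have h4 : (1 : ℝ) ≤ Y ^ (5 * r) := one_le_pow₀ hY1
        have h5 : 4 ≤ Y * Y := by nlinarith
        nlinarith

theorem tr_nn (X : ℝ) {a b : ℝ} (h : a ≤ b) (hX : 0 ≤ X) : X * a ≤ X * b :=
  mul_le_mul_of_nonneg_left h hX

/-- The ball of `t` in the norm of the ball `K`. -/
theorem WF.r2 (h : WF c r Sc gT0 gT1 gT gT3 gK g' gF v p Y κ0 κ1 κ2 κ3 Γ2 Γ3 Γo σ Φ γ)
    (h0 : V none = 0) {l : ℕ} (hl : l ≤ r) :
    sz c gF Γ2 l V ≤ Y ^ (5 * l) * sz c gK Γ3 l V := by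
  have hY := h.y2
  have hY1 : 1 ≤ Y := by linarith
  refine (sz_dom (X := Y ^ 3) (by positivity) (L := r) (f := fun l => sz c gK Γ3 l V)
    (fun l => sz_nonneg _ _ _ _ _) (fun x _ => sz_mono _ _ _ (Nat.le_succ x) V)
    (fun x hx => ?_) hl).trans (mul_le_mul_of_nonneg_right (pw_dom hY 3 l) (sz_nonneg _ _ _ _ _))
  have s1 := sz_nonneg c gF Γ2 x V
  have s2 := sz_nonneg c gK Γ3 x V
  have h1 := h.bl x hx V h0
  rw [cv_swp] at h1
  have h2 := cv_dev (Γ2 x) (Γ3 x) V (V (some (c x)))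
  have h3 := h.fF x hx
  have h4 := h.rK x hx
  rw [sz_succ c gK]
  obtain ⟨d, hd⟩ : ∃ d, d = |V (some (c x)) - cv (Γ3 x) V| := ⟨_, rfl⟩
  rw [← hd] at h2 ⊢
  have hd0 : 0 ≤ d := by rw [hd]; exact abs_nonneg _
  have e1 : Y ≤ Y ^ 3 := le_self_pow₀ hY1 (by norm_num)
  have e2 : Y ^ 2 ≤ Y ^ 3 := pow_le_pow_right₀ hY1 (by norm_num)
  calc 2 ^ gF x * |V (some (c x)) - cv (Γ2 x) V| ≤
        2 ^ gF x * (d + Y / 2 ^ gF x * sz c gK Γ3 x V) :=
        mul_le_mul_of_nonneg_left (h2.trans (add_le_add le_rfl h1)) (by positivity)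
    _ = 2 ^ gF x * d + Y * sz c gK Γ3 x V := by field_simp
    _ ≤ Y * (Y * 2 ^ gK x) * d + Y * sz c gK Γ3 x V := by
        refine add_le_add (mul_le_mul_of_nonneg_right ?_ hd0) le_rfl
        exact h3.trans (mul_le_mul_of_nonneg_left h4 (by linarith))
    _ = Y ^ 2 * (2 ^ gK x * d) + Y * sz c gK Γ3 x V := by ring
    _ ≤ Y ^ 3 * (sz c gK Γ3 x V + 2 ^ gK x * d) + Y ^ 3 * sz c gF Γ2 x V := by
        have a1 : 0 ≤ 2 ^ gK x * d := by positivity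
        have a2 := mul_le_mul_of_nonneg_right e2 a1
        have a3 := mul_le_mul_of_nonneg_right e1 s2
        have a4 : 0 ≤ Y ^ 3 * sz c gF Γ2 x V := by positivity
        linarith

/-- A rough chart against the ball `K`, in the norm of the ball. -/
theorem WF.s2 (h : WF c r Sc gT0 gT1 gT gT3 gK g' gF v p Y κ0 κ1 κ2 κ3 Γ2 Γ3 Γo σ Φ γ)
    (h0 : V none = 0) {l : ℕ} (hl : l < r) (hs : ¬ Sc l) :
    |cv (κ2 l - Γ3 l) V| ≤ Y ^ (5 * r + 3) / 2 ^ g' l * sz c gK Γ3 l V := by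
  have hY := h.y2
  have hY1 : 1 ≤ Y := by linarith
  have s3 := sz_nonneg c gK Γ3 l V
  have h1 := h.e2 l hl hs V h0
  have h2 := h.bl l hl V h0
  have h3 := h.r2 h0 hl.le
  have h4 := h.Ff l hl hs
  have h5 : Y / 2 ^ gF l ≤ Y ^ 2 / 2 ^ g' l := by
    rw [div_le_div_iff₀ (by positivity) (by positivity)]
    calc Y * 2 ^ g' l ≤ Y * (Y * 2 ^ gF l) := mul_le_mul_of_nonneg_left h4 (by linarith)
      _ = Y ^ 2 * 2 ^ gF l := by ring
  have h6 : Y ^ (5 * l) ≤ Y ^ (5 * r) := pow_le_pow_right₀ hY1 (by omega)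
  refine (cv_tri _ (Γ2 l) _ V).trans ((add_le_add h1 h2).trans ?_)
  calc Y / 2 ^ g' l * sz c gF Γ2 l V + Y / 2 ^ gF l * sz c gK Γ3 l V ≤
        Y / 2 ^ g' l * (Y ^ (5 * r) * sz c gK Γ3 l V) + Y ^ 2 / 2 ^ g' l * sz c gK Γ3 l V :=
        add_le_add (mul_le_mul_of_nonneg_left (h3.trans (mul_le_mul_of_nonneg_right h6 s3))
          (by positivity)) (mul_le_mul_of_nonneg_right h5 s3)
    _ = (Y * Y ^ (5 * r) + Y ^ 2) / 2 ^ g' l * sz c gK Γ3 l V := by ring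
    _ ≤ Y ^ (5 * r + 3) / 2 ^ g' l * sz c gK Γ3 l V := by
        refine mul_le_mul_of_nonneg_right (div_le_div_of_nonneg_right ?_ (by positivity)) s3
        have e2 : Y ^ (5 * r + 3) = Y ^ (5 * r) * (Y * Y * Y) := by ring
        rw [e2]
        have h7 : (1 : ℝ) ≤ Y ^ (5 * r) := one_le_pow₀ hY1
        have h8 : Y + Y ^ 2 ≤ Y * Y * Y := by nlinarith
        have h9 : Y * Y ^ (5 * r) + Y ^ 2 ≤ Y ^ (5 * r) * (Y + Y ^ 2) := by nlinarith
        exact h9.trans (mul_le_mul_of_nonneg_left h8 (by positivity))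

/-- The norm of the ball `K` below a rough coordinate. -/
theorem WF.ns (h : WF c r Sc gT0 gT1 gT gT3 gK g' gF v p Y κ0 κ1 κ2 κ3 Γ2 Γ3 Γo σ Φ γ)
    (h0 : V none = 0) {l : ℕ} (hl : l < r) (hs : ¬ Sc l) :
    sz c gK Γ3 l V ≤ Y ^ ((5 * r + 6) * l) * sz c g' (mx Sc κ0 κ2) l V := by
  have hY := h.y2
  have hY1 : 1 ≤ Y := by linarith
  refine (sz_dom (X := Y ^ (5 * r + 4)) (by positivity) (L := l)
    (f := fun l => sz c g' (mx Sc κ0 κ2) l V)
    (fun l => sz_nonneg _ _ _ _ _) (fun x _ => sz_mono _ _ _ (Nat.le_succ x) V)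
    (fun x hx => ?_) le_rfl).trans (mul_le_mul_of_nonneg_right (pw_dom hY (5 * r + 4) l)
    (sz_nonneg _ _ _ _ _))
  have s1 := sz_nonneg c g' (mx Sc κ0 κ2) x V
  have s2 := sz_nonneg c gK Γ3 x V
  have hxr : x < r := hx.trans hl
  have e1 : (1 : ℝ) ≤ Y ^ (5 * r + 4) := one_le_pow₀ hY1
  have e2 : Y ^ (5 * r + 3) ≤ Y ^ (5 * r + 4) := pow_le_pow_right₀ hY1 (by omega)
  have e3 : Y ≤ Y ^ (5 * r + 4) := le_self_pow₀ hY1 (by omega)
  rw [sz_succ c g']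
  by_cases hsx : Sc x
  · have h1 := h.s1 h0 hxr hsx
    have h2 := cv_dev (Γ3 x) (κ0 x) V (V (some (c x)))
    rw [mx_pos hsx]
    obtain ⟨d, hd⟩ : ∃ d, d = |V (some (c x)) - cv (κ0 x) V| := ⟨_, rfl⟩
    rw [← hd] at h2 ⊢
    have hd0 : 0 ≤ d := by rw [hd]; exact abs_nonneg _
    have h3 := h.sp x hxr hsx
    calc 2 ^ gK x * |V (some (c x)) - cv (Γ3 x) V| ≤
          2 ^ gK x * (d + Y ^ (5 * r + 3) / 2 ^ gK x * sz c gK Γ3 x V) :=
          mul_le_mul_of_nonneg_left (h2.trans (add_le_add le_rfl h1)) (by positivity)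
      _ = 2 ^ g' x * d + Y ^ (5 * r + 3) * sz c gK Γ3 x V := by
          rw [h3]
          field_simp
      _ ≤ _ := by
          have a1 : 0 ≤ 2 ^ g' x * d := by positivity
          have a2 := mul_le_mul_of_nonneg_right e1 (add_nonneg s1 a1)
          have a3 := mul_le_mul_of_nonneg_right e2 s2
          linarith
  · have h1 := h.s2 h0 hxr hsx
    have h2 := cv_dev (Γ3 x) (κ2 x) V (V (some (c x)))
    rw [mx_neg hsx]
    obtain ⟨d, hd⟩ : ∃ d, d = |V (some (c x)) - cv (κ2 x) V| := ⟨_, rfl⟩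
    rw [← hd] at h2 ⊢
    have hd0 : 0 ≤ d := by rw [hd]; exact abs_nonneg _
    have h3 := h.hh l hl hs x hx hsx
    have e4 : Y ^ (5 * r + 4) = Y * Y ^ (5 * r + 3) := by ring
    calc 2 ^ gK x * |V (some (c x)) - cv (Γ3 x) V| ≤
          Y * 2 ^ g' x * (d + Y ^ (5 * r + 3) / 2 ^ g' x * sz c gK Γ3 x V) :=
          mul_le_mul h3 (h2.trans (add_le_add le_rfl h1)) (abs_nonneg _) (by positivity)
      _ = Y * (2 ^ g' x * d) + Y ^ (5 * r + 4) * sz c gK Γ3 x V := by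
          rw [e4]
          field_simp
      _ ≤ _ := by
          have a1 : 0 ≤ 2 ^ g' x * d := by positivity
          have a2 := mul_le_mul_of_nonneg_right e3 a1
          have a3 : 0 ≤ Y ^ (5 * r + 4) * sz c g' (mx Sc κ0 κ2) x V := by positivity
          linarith

/-- The mixed norm in the norm of the ball `K`. -/
theorem WF.sn (h : WF c r Sc gT0 gT1 gT gT3 gK g' gF v p Y κ0 κ1 κ2 κ3 Γ2 Γ3 Γo σ Φ γ)
    (h0 : V none = 0) {l : ℕ} (hl : l ≤ r) :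
    sz c g' (mx Sc κ0 κ2) l V ≤ Y ^ ((5 * r + 5) * l) * sz c gK Γ3 l V := by
  have hY := h.y2
  have hY1 : 1 ≤ Y := by linarith
  refine (sz_dom (X := Y ^ (5 * r + 3)) (by positivity) (L := r)
    (f := fun l => sz c gK Γ3 l V)
    (fun l => sz_nonneg _ _ _ _ _) (fun x _ => sz_mono _ _ _ (Nat.le_succ x) V)
    (fun x hx => ?_) hl).trans (mul_le_mul_of_nonneg_right (pw_dom hY (5 * r + 3) l)
    (sz_nonneg _ _ _ _ _))
  have s1 := sz_nonneg c g' (mx Sc κ0 κ2) x V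
  have s2 := sz_nonneg c gK Γ3 x V
  have e1 : (1 : ℝ) ≤ Y ^ (5 * r + 3) := one_le_pow₀ hY1
  have e3 : Y ≤ Y ^ (5 * r + 3) := le_self_pow₀ hY1 (by omega)
  rw [sz_succ c gK]
  obtain ⟨d, hd⟩ : ∃ d, d = |V (some (c x)) - cv (Γ3 x) V| := ⟨_, rfl⟩
  have hd0 : 0 ≤ d := by rw [hd]; exact abs_nonneg _
  have a1 : 0 ≤ 2 ^ gK x * d := by positivity
  have a4 : 0 ≤ Y ^ (5 * r + 3) * sz c g' (mx Sc κ0 κ2) x V := by positivity
  by_cases hsx : Sc x
  · have h1 := h.s1 h0 hx hsx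
    rw [cv_swp] at h1
    have h2 := cv_dev (κ0 x) (Γ3 x) V (V (some (c x)))
    rw [mx_pos hsx]
    rw [← hd] at h2 ⊢
    rw [h.sp x hx hsx]
    calc 2 ^ gK x * |V (some (c x)) - cv (κ0 x) V| ≤
          2 ^ gK x * (d + Y ^ (5 * r + 3) / 2 ^ gK x * sz c gK Γ3 x V) :=
          mul_le_mul_of_nonneg_left (h2.trans (add_le_add le_rfl h1)) (by positivity)
      _ = 2 ^ gK x * d + Y ^ (5 * r + 3) * sz c gK Γ3 x V := by field_simp
      _ ≤ _ := by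
          have a2 := mul_le_mul_of_nonneg_right e1 a1
          linarith
  · have h1 := h.s2 h0 hx hsx
    rw [cv_swp] at h1
    have h2 := cv_dev (κ2 x) (Γ3 x) V (V (some (c x)))
    rw [mx_neg hsx]
    rw [← hd] at h2 ⊢
    calc 2 ^ g' x * |V (some (c x)) - cv (κ2 x) V| ≤
          2 ^ g' x * (d + Y ^ (5 * r + 3) / 2 ^ g' x * sz c gK Γ3 x V) :=
          mul_le_mul_of_nonneg_left (h2.trans (add_le_add le_rfl h1)) (by positivity)
      _ = 2 ^ g' x * d + Y ^ (5 * r + 3) * sz c gK Γ3 x V := by field_simp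
      _ ≤ Y * 2 ^ gK x * d + Y ^ (5 * r + 3) * sz c gK Γ3 x V :=
          add_le_add (mul_le_mul_of_nonneg_right (h.rK x hx) hd0) le_rfl
      _ ≤ _ := by
          have a2 := mul_le_mul_of_nonneg_right e3 a1
          linarith

/-- The closed thin chains of `w00`, `w0` in the norm of `t`. -/
theorem WF.t0 (h : WF c r Sc gT0 gT1 gT gT3 gK g' gF v p Y κ0 κ1 κ2 κ3 Γ2 Γ3 Γo σ Φ γ)
    (h0 : V none = 0) {l : ℕ} (hl : l ≤ r) :
    sz c gT0 κ0 l V ≤ Y ^ (7 * l) * sz c gT (mx Sc κ0 κ2) l V ∧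
    sz c gT1 κ1 l V ≤ Y ^ (7 * l) * sz c gT (mx Sc κ0 κ2) l V := by
  have hY := h.y2
  have hY1 : 1 ≤ Y := by linarith
  have key : ∀ (g : ℕ → ℕ) (κ : ℕ → Option (Fin m) → ℝ),
      (∀ l < r, (2 : ℝ) ^ g l ≤ Y * 2 ^ gT l) → (∀ l < r, |cv (κ l - κ2 l) V| ≤
        Y / 2 ^ g l * sz c gT κ2 l V) →
      sz c g κ l V ≤ Y ^ (7 * l) * sz c gT (mx Sc κ0 κ2) l V := by
    intro g κ hn ha
    have h1 : sz c g κ l V ≤ Y ^ (3 * l) * sz c gT κ2 l V := by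
      refine (sz_dom (X := Y ^ 1) (by positivity) (L := r) (f := fun l => sz c gT κ2 l V)
        (fun l => sz_nonneg _ _ _ _ _) (fun x _ => sz_mono _ _ _ (Nat.le_succ x) V)
        (fun x hx => ?_) hl).trans (mul_le_mul_of_nonneg_right (pw_dom hY 1 l)
        (sz_nonneg _ _ _ _ _))
      have s1 := sz_nonneg c gT κ2 x V
      have s2 := sz_nonneg c g κ x V
      have h2 := ha x hx
      rw [cv_swp] at h2
      have h3 := cv_dev (κ x) (κ2 x) V (V (some (c x)))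
      rw [sz_succ c gT, pow_one]
      obtain ⟨d, hd⟩ : ∃ d, d = |V (some (c x)) - cv (κ2 x) V| := ⟨_, rfl⟩
      rw [← hd] at h3 ⊢
      have hd0 : 0 ≤ d := by rw [hd]; exact abs_nonneg _
      calc 2 ^ g x * |V (some (c x)) - cv (κ x) V| ≤
            2 ^ g x * (d + Y / 2 ^ g x * sz c gT κ2 x V) :=
            mul_le_mul_of_nonneg_left (h3.trans (add_le_add le_rfl h2)) (by positivity)
        _ = 2 ^ g x * d + Y * sz c gT κ2 x V := by field_simp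
        _ ≤ Y * 2 ^ gT x * d + Y * sz c gT κ2 x V :=
            add_le_add (mul_le_mul_of_nonneg_right (hn x hx) hd0) le_rfl
        _ ≤ _ := by
            have a1 : 0 ≤ Y * sz c g κ x V := mul_nonneg (by linarith) s2
            have e1 : Y * 2 ^ gT x * d = Y * (2 ^ gT x * d) := by ring
            rw [e1]
            linarith
    have h2 := (h.mt h0 hl).2
    calc sz c g κ l V ≤ Y ^ (3 * l) * (Y ^ (4 * l) * sz c gT (mx Sc κ0 κ2) l V) :=
          h1.trans (mul_le_mul_of_nonneg_left h2 (by positivity))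
      _ = Y ^ (7 * l) * sz c gT (mx Sc κ0 κ2) l V := by
          rw [← mul_assoc, ← pow_add]
          congr 2
          ring
  exact ⟨key gT0 κ0 h.n0 fun l hl => h.a0 l hl V h0,
    key gT1 κ1 h.n1 fun l hl => h.a1 l hl V h0⟩

/-- The thin norm below a static coordinate. -/
theorem WF.mS (h : WF c r Sc gT0 gT1 gT gT3 gK g' gF v p Y κ0 κ1 κ2 κ3 Γ2 Γ3 Γo σ Φ γ)
    {l : ℕ} (hl : l < r) (hs : Sc l) :
    sz c gT (mx Sc κ0 κ2) l V = 2 ^ v * sz c g' (mx Sc κ0 κ2) l V := by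
  unfold sz
  rw [Finset.mul_sum]
  refine Finset.sum_congr rfl fun x hx => ?_
  rw [Finset.mem_range] at hx
  rw [h.rT x (hx.trans hl) (h.one l hl hs x hx), pow_add]
  ring

/-- The thin norm above the mixed norm. -/
theorem WF.Sm (h : WF c r Sc gT0 gT1 gT gT3 gK g' gF v p Y κ0 κ1 κ2 κ3 Γ2 Γ3 Γo σ Φ γ)
    {l : ℕ} (hl : l ≤ r) :
    2 ^ v * sz c g' (mx Sc κ0 κ2) l V ≤ Y * sz c gT (mx Sc κ0 κ2) l V := by
  have hY := h.y2
  unfold sz
  rw [Finset.mul_sum, Finset.mul_sum]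
  refine Finset.sum_le_sum fun x hx => ?_
  rw [Finset.mem_range] at hx
  have hxr : x < r := hx.trans_le hl
  rw [← mul_assoc, ← mul_assoc]
  refine mul_le_mul_of_nonneg_right ?_ (abs_nonneg _)
  by_cases hsx : Sc x
  · have h1 := h.sK x hxr hsx
    rw [h.sp x hxr hsx, mul_comm, ← pow_add]
    exact h1
  · rw [h.rT x hxr hsx, pow_add]
    have : (0 : ℝ) < 2 ^ g' x * 2 ^ v := by positivity
    nlinarith

/-- **The closed and the visible charts, static.** -/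
theorem WF.ch (h : WF c r Sc gT0 gT1 gT gT3 gK g' gF v p Y κ0 κ1 κ2 κ3 Γ2 Γ3 Γo σ Φ γ)
    (h0 : V none = 0) {l : ℕ} (hl : l < r) (hs : Sc l) :
    |cv (κ0 l - σ l) V| ≤ Y ^ (7 * r + 2) / 2 ^ gT l * sz c gT (mx Sc κ0 κ2) l V := by
  have hY := h.y2
  have hY1 : 1 ≤ Y := by linarith
  have s := sz_nonneg c gT (mx Sc κ0 κ2) l V
  have h1 := h.f0 l hl hs V h0
  have h2 := (h.t0 h0 hl.le).1
  have h3 : Y / 2 ^ gT0 l ≤ Y ^ 2 / 2 ^ gT l := by
    rw [div_le_div_iff₀ (by positivity) (by positivity)]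
    calc Y * 2 ^ gT l ≤ Y * (Y * 2 ^ gT0 l) := mul_le_mul_of_nonneg_left (h.s0 l hl hs)
          (by linarith)
      _ = Y ^ 2 * 2 ^ gT0 l := by ring
  have h4 : Y ^ (7 * l) ≤ Y ^ (7 * r) := pow_le_pow_right₀ hY1 (by omega)
  calc |cv (κ0 l - σ l) V| ≤ Y / 2 ^ gT0 l * sz c gT0 κ0 l V := h1
    _ ≤ Y ^ 2 / 2 ^ gT l * (Y ^ (7 * r) * sz c gT (mx Sc κ0 κ2) l V) :=
        mul_le_mul h3 (h2.trans (mul_le_mul_of_nonneg_right h4 s)) (sz_nonneg _ _ _ _ _)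
          (by positivity)
    _ = Y ^ (7 * r + 2) / 2 ^ gT l * sz c gT (mx Sc κ0 κ2) l V := by ring

/-- The closed and the visible charts in the mixed norm. -/
theorem WF.cs (h : WF c r Sc gT0 gT1 gT gT3 gK g' gF v p Y κ0 κ1 κ2 κ3 Γ2 Γ3 Γo σ Φ γ)
    (h0 : V none = 0) {l : ℕ} (hl : l < r) :
    |cv (mx Sc κ0 κ2 l - σ l) V| ≤ Y ^ ((5 * r + 9) * (r + 1)) / 2 ^ g' l *
      sz c g' (mx Sc κ0 κ2) l V := by
  have hY := h.y2
  have hY1 : 1 ≤ Y := by linarith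
  have s := sz_nonneg c g' (mx Sc κ0 κ2) l V
  by_cases hs : Sc l
  · rw [mx_pos hs]
    have h1 := h.ch h0 hl hs
    rw [h.mS hl hs] at h1
    have h2 := h.sK l hl hs
    rw [h.sp l hl hs]
    refine h1.trans ?_
    calc Y ^ (7 * r + 2) / 2 ^ gT l * (2 ^ v * sz c g' (mx Sc κ0 κ2) l V) =
          Y ^ (7 * r + 2) * (2 ^ v / 2 ^ gT l) * sz c g' (mx Sc κ0 κ2) l V := by ring
      _ ≤ Y ^ (7 * r + 2) * (Y / 2 ^ gK l) * sz c g' (mx Sc κ0 κ2) l V := by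
          refine mul_le_mul_of_nonneg_right (mul_le_mul_of_nonneg_left ?_ (by positivity)) s
          rw [div_le_div_iff₀ (by positivity) (by positivity), mul_comm, ← pow_add]
          exact h2
      _ = Y ^ (7 * r + 3) / 2 ^ gK l * sz c g' (mx Sc κ0 κ2) l V := by ring
      _ ≤ _ := by
          refine mul_le_mul_of_nonneg_right (div_le_div_of_nonneg_right
            (pow_le_pow_right₀ hY1 ?_) (by positivity)) s
          nlinarith
  · rw [mx_neg hs]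
    have h1 := h.f2 l hl hs V h0
    have h2 := h.r2 h0 hl.le
    have h3 := h.ns h0 hl hs
    calc |cv (κ2 l - σ l) V| ≤ Y / 2 ^ g' l * sz c gF Γ2 l V := h1
      _ ≤ Y / 2 ^ g' l * (Y ^ (5 * l) * (Y ^ ((5 * r + 6) * l) *
            sz c g' (mx Sc κ0 κ2) l V)) :=
          mul_le_mul_of_nonneg_left (h2.trans (mul_le_mul_of_nonneg_left h3 (by positivity)))
            (by positivity)
      _ = Y ^ (1 + 5 * l + (5 * r + 6) * l) / 2 ^ g' l * sz c g' (mx Sc κ0 κ2) l V := by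
          rw [pow_add, pow_add]
          ring
      _ ≤ _ := by
          refine mul_le_mul_of_nonneg_right (div_le_div_of_nonneg_right
            (pow_le_pow_right₀ hY1 ?_) (by positivity)) s
          have e1 : l * (r + 1) ≤ r * (r + 1) := Nat.mul_le_mul_right _ hl.le
          nlinarith

/-- The closed and the visible charts in the thin norm. -/
theorem WF.ct (h : WF c r Sc gT0 gT1 gT gT3 gK g' gF v p Y κ0 κ1 κ2 κ3 Γ2 Γ3 Γo σ Φ γ)
    (h0 : V none = 0) {l : ℕ} (hl : l < r) :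
    |cv (mx Sc κ0 κ2 l - σ l) V| ≤ Y ^ ((5 * r + 10) * (r + 1)) / 2 ^ gT l *
      sz c gT (mx Sc κ0 κ2) l V := by
  have hY := h.y2
  have hY1 : 1 ≤ Y := by linarith
  have s := sz_nonneg c gT (mx Sc κ0 κ2) l V
  by_cases hs : Sc l
  · rw [mx_pos hs]
    refine (h.ch h0 hl hs).trans (mul_le_mul_of_nonneg_right (div_le_div_of_nonneg_right
      (pow_le_pow_right₀ hY1 ?_) (by positivity)) s)
    nlinarith
  · have h1 := h.cs h0 hl
    have h2 := h.Sm (V := V) hl.le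
    refine h1.trans ?_
    have e1 : (2 : ℝ) ^ gT l = 2 ^ g' l * 2 ^ v := by rw [h.rT l hl hs, pow_add]
    calc Y ^ ((5 * r + 9) * (r + 1)) / 2 ^ g' l * sz c g' (mx Sc κ0 κ2) l V =
          Y ^ ((5 * r + 9) * (r + 1)) / 2 ^ gT l * (2 ^ v * sz c g' (mx Sc κ0 κ2) l V) := by
          rw [e1]
          field_simp
      _ ≤ Y ^ ((5 * r + 9) * (r + 1)) / 2 ^ gT l * (Y * sz c gT (mx Sc κ0 κ2) l V) :=
          mul_le_mul_of_nonneg_left h2 (by positivity)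
      _ = Y ^ ((5 * r + 9) * (r + 1) + 1) / 2 ^ gT l * sz c gT (mx Sc κ0 κ2) l V := by ring
      _ ≤ _ := by
          refine mul_le_mul_of_nonneg_right (div_le_div_of_nonneg_right
            (pow_le_pow_right₀ hY1 ?_) (by positivity)) s
          nlinarith

/-- All inequalities with one constant. -/
theorem nw {Y : ℝ} (hY : 2 ≤ Y) {a E : ℕ} (h : a ≤ E) {g : ℝ} (hg : 0 < g) {s x : ℝ}
    (hs : 0 ≤ s) (hx : x ≤ Y ^ a / g * s) : x ≤ Y ^ E / g * s :=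
  hx.trans (mul_le_mul_of_nonneg_right (div_le_div_of_nonneg_right
    (pow_le_pow_right₀ (by linarith) h) hg.le) hs)

/-- The last exponent. -/
def wE (r : ℕ) : ℕ := 4 * ((5 * r + 12) * (r + 1) + 3) * (r + 1)

/-- **All first-order facts of the package.** -/
theorem WF.out (h : WF c r Sc gT0 gT1 gT gT3 gK g' gF v p Y κ0 κ1 κ2 κ3 Γ2 Γ3 Γo σ Φ γ)
    (h0 : V none = 0) :
    (∀ l < r, Sc l → |cv (mx Sc κ0 κ2 l - Γo l) V| ≤ Y ^ wE r / 2 ^ gK l * sz c gK Γo l V) ∧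
    (∀ l < r, Sc l → |cv (σ l - Γo l) V| ≤ Y ^ wE r / 2 ^ gK l * sz c gK Γo l V) ∧
    (∀ l < r, ¬ Sc l → |cv (Γo l - mx Sc κ0 κ2 l) V| ≤ Y ^ wE r / 2 ^ g' l *
      sz c g' (mx Sc κ0 κ2) l V) ∧
    (∀ l < r, ¬ Sc l → |cv (Γo l - σ l) V| ≤ Y ^ wE r / 2 ^ g' l * sz c g' σ l V) ∧
    (|cv (Φ - Γo r) V| ≤ Y ^ wE r / 2 ^ p * sz c gT (mx Sc κ0 κ2) r V +
      Y ^ wE r / 2 ^ gK r * sz c gK Γo r V) ∧
    (|cv (γ - Γo r) V| ≤ Y ^ wE r / 2 ^ p * sz c gT σ r V +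
      Y ^ wE r / 2 ^ gK r * sz c gK Γo r V) ∧
    (|cv (Φ - γ) V| ≤ Y ^ wE r / 2 ^ p * sz c gT (mx Sc κ0 κ2) r V) ∧
    (∀ l < r, Sc l → |cv (mx Sc κ0 κ2 l - σ l) V| ≤ Y ^ wE r / 2 ^ gT l *
      sz c gT (mx Sc κ0 κ2) l V) ∧
    (∀ l < r, ¬ Sc l → |cv (mx Sc κ0 κ2 l - σ l) V| ≤ Y ^ wE r / 2 ^ g' l *
      sz c g' (mx Sc κ0 κ2) l V) := by
  have hY := h.y2
  have hY1 : 1 ≤ Y := by linarith
  have hY0 : 0 ≤ Y := by linarith
  -- the norms
  obtain ⟨F1, hF1⟩ : ∃ F, F = (5 * r + 12) * (r + 1) := ⟨_, rfl⟩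
  have hF : 1 + 5 * r + (5 * r + 6) * r ≤ F1 := by rw [hF1]; nlinarith
  have hrr : r ≤ r * r ∨ r = 0 := by
    rcases Nat.eq_zero_or_pos r with h | h
    · exact Or.inr h
    · exact Or.inl (Nat.le_mul_of_pos_left r h)
  have hF2 : 7 * r + 3 ≤ F1 := by rw [hF1]; nlinarith
  have hF3 : (5 * r + 10) * (r + 1) ≤ F1 := by rw [hF1]; nlinarith
  have hF4 : (5 * r + 9) * (r + 1) ≤ F1 := by rw [hF1]; nlinarith
  have hF6 : (5 * r + 5) * r ≤ F1 := by rw [hF1]; nlinarith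
  -- `N ≤ Y ^ (3 r) No`
  have nN : ∀ l ≤ r, sz c gK Γ3 l V ≤ Y ^ (3 * r) * sz c gK Γo l V := by
    intro l hl
    refine (sz_ge (K := Y) hY0 (fun x hx => h.g3 x hx.le V h0) hl).trans
      (mul_le_mul_of_nonneg_right ?_ (sz_nonneg _ _ _ _ _))
    have h1 := pw_one hY 1 l
    rw [pow_one] at h1
    exact h1.trans (pow_le_pow_right₀ hY1 (by omega))
  have nM : ∀ l ≤ r, sz c gT (mx Sc κ0 κ2) l V ≤ Y ^ ((F1 + 2) * r) * sz c gT σ l V := by
    intro l hl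
    refine (sz_ge (K := Y ^ F1) (by positivity) (fun x hx => ?_) hl).trans
      (mul_le_mul_of_nonneg_right ?_ (sz_nonneg _ _ _ _ _))
    · rw [cv_swp]
      exact nw hY hF3 (by positivity) (sz_nonneg _ _ _ _ _) (h.ct h0 hx)
    · exact (pw_one hY F1 l).trans (pow_le_pow_right₀ hY1 (Nat.mul_le_mul_left _ hl))
  have nS : ∀ l ≤ r, sz c g' (mx Sc κ0 κ2) l V ≤ Y ^ ((F1 + 2) * r) * sz c g' σ l V := by
    intro l hl
    refine (sz_ge (K := Y ^ F1) (by positivity) (fun x hx => ?_) hl).trans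
      (mul_le_mul_of_nonneg_right ?_ (sz_nonneg _ _ _ _ _))
    · rw [cv_swp]
      exact nw hY hF4 (by positivity) (sz_nonneg _ _ _ _ _) (h.cs h0 hx)
    · exact (pw_one hY F1 l).trans (pow_le_pow_right₀ hY1 (Nat.mul_le_mul_left _ hl))
  have nSN : ∀ l ≤ r, sz c g' (mx Sc κ0 κ2) l V ≤ Y ^ F1 * sz c gK Γ3 l V := by
    intro l hl
    exact (h.sn h0 hl).trans (mul_le_mul_of_nonneg_right (pow_le_pow_right₀ hY1
      ((Nat.mul_le_mul_left _ hl).trans hF6)) (sz_nonneg _ _ _ _ _))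
  -- exponents
  have w0 : F1 + (F1 + 3) * (r + 1) + (F1 + 3) * (r + 1) + 3 ≤ wE r := by
    unfold wE
    rw [← hF1]
    nlinarith
  have y2 : ∀ a : ℕ, Y ^ a + Y ^ a ≤ Y ^ (a + 1) := by
    intro a
    rw [pow_succ]
    have : 0 ≤ Y ^ a := by positivity
    nlinarith
  -- static, against the ball
  have o1 : ∀ l < r, Sc l → |cv (κ0 l - Γo l) V| ≤ Y ^ (F1 + 1) / 2 ^ gK l *
      sz c gK Γ3 l V := by
    intro l hl hs
    have s := sz_nonneg c gK Γ3 l V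
    have h1 := h.s1 h0 hl hs
    have h2 := h.g3 l hl.le V h0
    rw [cv_swp] at h2
    have h3 : Y / 2 ^ gK l * sz c gK Γ3 l V ≤ Y ^ F1 / 2 ^ gK l * sz c gK Γ3 l V := by
      refine nw hY (a := 1) (by omega) (by positivity) s ?_
      rw [pow_one]
    have h4 := nw hY (a := 5 * r + 3) (E := F1) (by omega) (by positivity) s h1
    refine (cv_tri _ (Γ3 l) _ V).trans ((add_le_add h4 (h2.trans h3)).trans ?_)
    rw [← add_mul, ← add_div]
    exact mul_le_mul_of_nonneg_right (div_le_div_of_nonneg_right (y2 F1) (by positivity)) s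
  -- rough, against the ball
  have o2 : ∀ l < r, ¬ Sc l → |cv (Γo l - κ2 l) V| ≤ Y ^ (F1 + F1) / 2 ^ g' l *
      sz c g' (mx Sc κ0 κ2) l V := by
    intro l hl hs
    have s := sz_nonneg c gK Γ3 l V
    have h1 := h.s2 h0 hl hs
    rw [cv_swp] at h1
    have h2 := h.g3 l hl.le V h0
    have h3 : Y / 2 ^ gK l ≤ Y ^ 2 / 2 ^ g' l := by
      rw [div_le_div_iff₀ (by positivity) (by positivity)]
      calc Y * 2 ^ g' l ≤ Y * (Y * 2 ^ gK l) := mul_le_mul_of_nonneg_left (h.rK l hl) hY0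
        _ = Y ^ 2 * 2 ^ gK l := by ring
    have h4 := h2.trans (mul_le_mul_of_nonneg_right h3 s)
    have h4' := nw hY (a := 2) (E := 5 * r + 3) (by omega) (by positivity) s h4
    have h5 : |cv (Γo l - κ2 l) V| ≤ Y ^ (5 * r + 4) / 2 ^ g' l * sz c gK Γ3 l V := by
      refine (cv_tri _ (Γ3 l) _ V).trans ((add_le_add h4' h1).trans ?_)
      rw [← add_mul, ← add_div]
      exact mul_le_mul_of_nonneg_right (div_le_div_of_nonneg_right (y2 _) (by positivity)) s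
    have h6 := h.ns h0 hl hs
    refine h5.trans ?_
    calc Y ^ (5 * r + 4) / 2 ^ g' l * sz c gK Γ3 l V ≤ Y ^ (5 * r + 4) / 2 ^ g' l *
          (Y ^ ((5 * r + 6) * l) * sz c g' (mx Sc κ0 κ2) l V) :=
          mul_le_mul_of_nonneg_left h6 (by positivity)
      _ = Y ^ (5 * r + 4 + (5 * r + 6) * l) / 2 ^ g' l * sz c g' (mx Sc κ0 κ2) l V := by
          rw [pow_add Y (5 * r + 4)]
          ring
      _ ≤ _ := by
          refine mul_le_mul_of_nonneg_right (div_le_div_of_nonneg_right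
            (pow_le_pow_right₀ hY1 ?_) (by positivity)) (sz_nonneg _ _ _ _ _)
          have e1 : (5 * r + 6) * l ≤ (5 * r + 6) * r := Nat.mul_le_mul_left _ hl.le
          omega
  -- the row
  have o3 : |cv (Φ - Γo r) V| ≤ Y ^ (F1 + 1) / 2 ^ p * sz c gT (mx Sc κ0 κ2) r V +
      Y ^ (F1 + 1) / 2 ^ gK r * sz c gK Γ3 r V := by
    have s := sz_nonneg c gK Γ3 r V
    have sM := sz_nonneg c gT (mx Sc κ0 κ2) r V
    have h1 := h.c3 V h0
    have h2 := h.g3 r le_rfl V h0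
    rw [cv_swp] at h2
    have h3 := h.n3 h0 (le_refl r)
    have h4 : Y / 2 ^ p * sz c gT3 κ3 r V ≤ Y ^ (5 * r + 1) / 2 ^ p *
        sz c gT (mx Sc κ0 κ2) r V + Y ^ (5 * r + 2) / 2 ^ gK r * sz c gK Γ3 r V := by
      calc Y / 2 ^ p * sz c gT3 κ3 r V ≤ Y / 2 ^ p * (Y ^ (5 * r) *
            (sz c gT (mx Sc κ0 κ2) r V + 2 ^ v * sz c gK Γ3 r V)) :=
            mul_le_mul_of_nonneg_left h3 (by positivity)
        _ = Y ^ (5 * r + 1) / 2 ^ p * sz c gT (mx Sc κ0 κ2) r V +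
            Y ^ (5 * r + 1) * (2 ^ v / 2 ^ p) * sz c gK Γ3 r V := by ring
        _ ≤ Y ^ (5 * r + 1) / 2 ^ p * sz c gT (mx Sc κ0 κ2) r V +
            Y ^ (5 * r + 1) * (Y / 2 ^ gK r) * sz c gK Γ3 r V :=
            add_le_add le_rfl (mul_le_mul_of_nonneg_right (mul_le_mul_of_nonneg_left h.vp
              (by positivity)) s)
        _ = _ := by ring
    have h5 : Y ^ (5 * r + 2) / 2 ^ gK r * sz c gK Γ3 r V + (Y / 2 ^ gK r * sz c gK Γ3 r V +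
        Y / 2 ^ gK r * sz c gK Γ3 r V) ≤ Y ^ (F1 + 1) / 2 ^ gK r * sz c gK Γ3 r V := by
      have e1 : Y ^ (5 * r + 2) / 2 ^ gK r * sz c gK Γ3 r V + (Y / 2 ^ gK r * sz c gK Γ3 r V +
        Y / 2 ^ gK r * sz c gK Γ3 r V) = (Y ^ (5 * r + 2) + (Y + Y)) / 2 ^ gK r *
          sz c gK Γ3 r V := by ring
      rw [e1]
      refine mul_le_mul_of_nonneg_right (div_le_div_of_nonneg_right ?_ (by positivity)) s
      have e2 : Y ^ 1 + Y ^ 1 ≤ Y ^ 2 := y2 1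
      rw [pow_one] at e2
      have e3 : Y ^ 2 ≤ Y ^ F1 := pow_le_pow_right₀ hY1 (by omega)
      have e4 : Y ^ (5 * r + 2) ≤ Y ^ F1 := pow_le_pow_right₀ hY1 (by omega)
      have e5 := y2 F1
      linarith
    have h6 : Y ^ (5 * r + 1) / 2 ^ p * sz c gT (mx Sc κ0 κ2) r V ≤
        Y ^ (F1 + 1) / 2 ^ p * sz c gT (mx Sc κ0 κ2) r V :=
      mul_le_mul_of_nonneg_right (div_le_div_of_nonneg_right
        (pow_le_pow_right₀ hY1 (by omega)) (by positivity)) sM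
    refine (cv_tri _ (Γ3 r) _ V).trans ((add_le_add h1 h2).trans ?_)
    linarith
  have o4 : |cv (Φ - γ) V| ≤ Y ^ F1 / 2 ^ p * sz c gT (mx Sc κ0 κ2) r V := by
    have sM := sz_nonneg c gT (mx Sc κ0 κ2) r V
    have h1 := h.f1 V h0
    have h2 := (h.t0 h0 (le_refl r)).2
    calc |cv (Φ - γ) V| ≤ Y / 2 ^ p * sz c gT1 κ1 r V := h1
      _ ≤ Y / 2 ^ p * (Y ^ (7 * r) * sz c gT (mx Sc κ0 κ2) r V) :=
          mul_le_mul_of_nonneg_left h2 (by positivity)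
      _ = Y ^ (7 * r + 1) / 2 ^ p * sz c gT (mx Sc κ0 κ2) r V := by ring
      _ ≤ _ := mul_le_mul_of_nonneg_right (div_le_div_of_nonneg_right
        (pow_le_pow_right₀ hY1 (by omega)) (by positivity)) sM
  refine ⟨fun l hl hs => ?_, fun l hl hs => ?_, fun l hl hs => ?_, fun l hl hs => ?_, ?_, ?_,
    ?_, fun l hl hs => ?_, fun l hl hs => ?_⟩
  · rw [mx_pos hs]
    have s := sz_nonneg c gK Γo l V
    have h1 := (o1 l hl hs).trans (mul_le_mul_of_nonneg_left (nN l hl.le) (by positivity))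
    refine nw hY (a := F1 + 1 + 3 * r) ?_ (by positivity) s (h1.trans (le_of_eq ?_))
    · nlinarith
    · rw [pow_add Y (F1 + 1)]
      ring
  · have s := sz_nonneg c gK Γo l V
    have h1 := (o1 l hl hs).trans (mul_le_mul_of_nonneg_left (nN l hl.le) (by positivity))
    have h2 := h.cs h0 hl
    rw [mx_pos hs, h.sp l hl hs, cv_swp] at h2
    have h3 : |cv (σ l - κ0 l) V| ≤ Y ^ (F1 + F1 + 3 * r) / 2 ^ gK l * sz c gK Γo l V := by
      have h4 : sz c g' (mx Sc κ0 κ2) l V ≤ Y ^ F1 * (Y ^ (3 * r) * sz c gK Γo l V) :=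
        (nSN l hl.le).trans (mul_le_mul_of_nonneg_left (nN l hl.le) (by positivity))
      refine (nw hY hF4 (by positivity) (sz_nonneg _ _ _ _ _) h2).trans
        ((mul_le_mul_of_nonneg_left h4 (by positivity)).trans (le_of_eq ?_))
      rw [pow_add, pow_add]
      ring
    have h5 : |cv (κ0 l - Γo l) V| ≤ Y ^ (F1 + F1 + 3 * r) / 2 ^ gK l * sz c gK Γo l V := by
      refine nw hY (a := F1 + 1 + 3 * r) (by omega) (by positivity) s (h1.trans (le_of_eq ?_))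
      rw [pow_add Y (F1 + 1)]
      ring
    refine nw hY (a := F1 + F1 + 3 * r + 1) ?_ (by positivity) s
      ((cv_tri _ (κ0 l) _ V).trans ((add_le_add h3 h5).trans ?_))
    · nlinarith
    · rw [← add_mul, ← add_div]
      exact mul_le_mul_of_nonneg_right (div_le_div_of_nonneg_right (y2 _) (by positivity)) s
  · rw [mx_neg hs]
    refine nw hY (a := F1 + F1) ?_ (by positivity) (sz_nonneg _ _ _ _ _) (o2 l hl hs)
    nlinarith
  · have s := sz_nonneg c g' (mx Sc κ0 κ2) l V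
    have h1 := o2 l hl hs
    have h2 := nw hY (a := (5 * r + 9) * (r + 1)) (E := F1 + F1) (by omega)
      (by positivity) s (h.cs h0 hl)
    rw [mx_neg hs] at h2
    have h3 : |cv (Γo l - σ l) V| ≤ Y ^ (F1 + F1 + 1) / 2 ^ g' l *
        sz c g' (mx Sc κ0 κ2) l V := by
      refine (cv_tri _ (κ2 l) _ V).trans ((add_le_add h1 h2).trans ?_)
      rw [← add_mul, ← add_div]
      exact mul_le_mul_of_nonneg_right (div_le_div_of_nonneg_right (y2 _) (by positivity)) s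
    refine nw hY (a := F1 + F1 + 1 + (F1 + 2) * r) ?_ (by positivity) (sz_nonneg _ _ _ _ _)
      ((h3.trans (mul_le_mul_of_nonneg_left (nS l hl.le) (by positivity))).trans (le_of_eq ?_))
    · nlinarith
    · rw [pow_add Y (F1 + F1 + 1)]
      ring
  · refine o3.trans (add_le_add (nw hY ?_ (by positivity) (sz_nonneg _ _ _ _ _) le_rfl) ?_)
    · nlinarith
    · refine nw hY (a := F1 + 1 + 3 * r) ?_ (by positivity) (sz_nonneg _ _ _ _ _)
        ((mul_le_mul_of_nonneg_left (nN r le_rfl) (by positivity)).trans (le_of_eq ?_))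
      · nlinarith
      · rw [pow_add Y (F1 + 1)]
        ring
  · have sM := sz_nonneg c gT (mx Sc κ0 κ2) r V
    rw [cv_swp] at o4
    have h1 := (cv_tri γ Φ (Γo r) V).trans (add_le_add o4 o3)
    have h2 : Y ^ F1 / 2 ^ p * sz c gT (mx Sc κ0 κ2) r V +
        Y ^ (F1 + 1) / 2 ^ p * sz c gT (mx Sc κ0 κ2) r V ≤
        Y ^ (F1 + 2 + (F1 + 2) * r) / 2 ^ p * sz c gT σ r V := by
      have e1 : Y ^ F1 / 2 ^ p * sz c gT (mx Sc κ0 κ2) r V +
        Y ^ (F1 + 1) / 2 ^ p * sz c gT (mx Sc κ0 κ2) r V =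
        (Y ^ F1 + Y ^ (F1 + 1)) / 2 ^ p * sz c gT (mx Sc κ0 κ2) r V := by ring
      have e2 : Y ^ F1 + Y ^ (F1 + 1) ≤ Y ^ (F1 + 2) := by
        have := y2 (F1 + 1)
        have h3 : Y ^ F1 ≤ Y ^ (F1 + 1) := pow_le_pow_right₀ hY1 (by omega)
        linarith
      rw [e1, pow_add Y (F1 + 2)]
      calc (Y ^ F1 + Y ^ (F1 + 1)) / 2 ^ p * sz c gT (mx Sc κ0 κ2) r V ≤
            Y ^ (F1 + 2) / 2 ^ p * (Y ^ ((F1 + 2) * r) * sz c gT σ r V) :=
            mul_le_mul (div_le_div_of_nonneg_right e2 (by positivity)) (nM r le_rfl) sM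
              (by positivity)
        _ = _ := by ring
    have h3 : Y ^ (F1 + 1) / 2 ^ gK r * sz c gK Γ3 r V ≤
        Y ^ wE r / 2 ^ gK r * sz c gK Γo r V := by
      refine nw hY (a := F1 + 1 + 3 * r) ?_ (by positivity) (sz_nonneg _ _ _ _ _)
        ((mul_le_mul_of_nonneg_left (nN r le_rfl) (by positivity)).trans (le_of_eq ?_))
      · nlinarith
      · rw [pow_add Y (F1 + 1)]
        ring
    have h4 : Y ^ (F1 + 2 + (F1 + 2) * r) / 2 ^ p * sz c gT σ r V ≤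
        Y ^ wE r / 2 ^ p * sz c gT σ r V := by
      refine nw hY ?_ (by positivity) (sz_nonneg _ _ _ _ _) le_rfl
      nlinarith
    linarith
  · refine nw hY (a := F1) ?_ (by positivity) (sz_nonneg _ _ _ _ _) o4
    nlinarith
  · have h1 := h.ch h0 hl hs
    rw [mx_pos hs]
    refine nw hY (a := 7 * r + 2) ?_ (by positivity) (sz_nonneg _ _ _ _ _) h1
    nlinarith
  · refine nw hY (a := (5 * r + 9) * (r + 1)) ?_ (by positivity) (sz_nonneg _ _ _ _ _)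
      (h.cs h0 hl)
    nlinarith

end

end Pool.TN
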