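import Pool.Agent.H66.D2.Wfe

/-!
# Norms and velocities of the event of a static cell

`CEv.top_en`: the re-centred norm of the ball in the thin norm. `CEv.bdT`, `CEv.bdG`: the direction of
the own line. `CEv.row_r`: the row label at the rounded point, against the closed one.
-/

set_option autoImplicit false

namespace Pool.TN

open Finset Real MvPolynomial
open Pool.Agent.H49.Ent Pool.Agent.H32.Dense Pool.STK Pool.KA Pool.KSAT Pool.K2S Pool.PB Pool.S6C
open Pool.GEN Pool.CHT Pool.CHX Pool.ISO Pool.D2R Pool.D2Z Pool.D2F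
open Pool.FLF (Fam.sub)
open Pool.PB.Trl (rt rt_mem t_rt)

variable {m J : ℕ}

section

variable {F : Fam m J} {c : ℕ → Fin m} {r D Dr N M A cl : ℕ} {Sc : ℕ → Prop}
    {w e h pp : ℕ → ℕ} {z g gc gT g₀ : ℕ → ℕ → ℕ} {κ : ℝ} {B : F.Ω → Prop}
    {G : ℕ → PtT F → ℕ → MvPolynomial (Option (Fin m)) ℝ}
    {H : ℕ → LnT F → ℕ → MvPolynomial (Option (Fin m)) ℝ}
    {T : ℕ → PtT F → ℕ → MvPolynomial (Option (Fin m)) ℝ}
    {TH : ℕ → LnT F → ℕ → MvPolynomial (Option (Fin m)) ℝ}
    {Gt : ℕ → PtT F → MvPolynomial (Option (Fin m)) ℝ}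
    {Ht : ℕ → LnT F → MvPolynomial (Option (Fin m)) ℝ}

theorem p2 {a b : ℕ} (h : a ≤ b) : (2 : ℝ) ^ a ≤ 2 ^ b := pow_le_pow_right₀ (by norm_num) h

theorem CEv.t_rg (E : CEv F c r D Dr N M A cl Sc w e h pp z g gc gT g₀ κ B G H T TH Gt Ht)
    {k l : ℕ} (hk : k ≤ N) (hl : l < r) (hs : ¬ Sc l) : gT k l = gc k l :=
  ((E.evs k hk).rgh l hl hs).1

/-- The natural norm of the ball in the re-centred one. -/
theorem CEv.g0_gc (E : CEv F c r D Dr N M A cl Sc w e h pp z g gc gT g₀ κ B G H T TH Gt Ht)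
    {k l : ℕ} (hk : k ≤ N) (hl : l ≤ r + 1) (χ : ℕ → Option (Fin m) → ℝ)
    (V : Option (Fin m) → ℝ) :
    2 ^ (A - w k) * en c (g₀ k) (w k) χ l V ≤ 2 ^ (2 * cl) * en c (gc k) A χ l V := by
  have h0 := E.radA hk
  have h1 : en c (g₀ k) (w k) χ l V ≤ 2 ^ (2 * cl) / 2 ^ (A - w k) * en c (gc k) A χ l V := by
    refine en_side ?_ (fun j hj => ?_) V
    · rw [div_mul_eq_mul_div, le_div_iff₀ (by positivity), ← pow_add, ← pow_add]
      exact p2 (by omega)
    · rw [div_mul_eq_mul_div, le_div_iff₀ (by positivity), ← pow_add, ← pow_add]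
      have := E.ng k hk j (by omega)
      exact p2 (by omega)
  calc 2 ^ (A - w k) * en c (g₀ k) (w k) χ l V ≤
        2 ^ (A - w k) * (2 ^ (2 * cl) / 2 ^ (A - w k) * en c (gc k) A χ l V) :=
        mul_le_mul_of_nonneg_left h1 (by positivity)
    _ = _ := by field_simp

/-- **The re-centred norm of the ball in the thin norm.** -/
theorem CEv.top_en (E : CEv F c r D Dr N M A cl Sc w e h pp z g gc gT g₀ κ B G H T TH Gt Ht)
    {k X : ℕ} (hk : k ≤ N) (hX : ∀ l < r, Sc l → gc k l ≤ gT k l + X)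
    (h1 : ∀ l < r, cl ≤ gT k l ∧ cl ≤ gc k l) {ω : F.Ω} (hω : B ω) {l : ℕ} (hl : l ≤ r)
    (V : Option (Fin m) → ℝ) :
    en c (gc k) A (gG G ω k) l V ≤ 2 ^ ((6 * cl + X + 4) * l) * en c (gT k) A (kT w TH ω k) l V := by
  have hrad := E.radA hk
  refine (en_dom (X := 2 ^ (6 * cl + X + 2)) (by positivity)
    (f := fun l => en c (gT k) A (kT w TH ω k) l V) (L := r) ?_
    (fun x _ => en_le_succ _ _ _ _ _ _) (fun x hx => ?_) hl).trans ?_
  · rw [en_eq, Finset.sum_range_zero, add_zero]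
  · -- the step
    obtain ⟨a1, a2, a3, a4⟩ := E.ng k hk x hx.le
    obtain ⟨b1, b2⟩ := h1 x hx
    have n1 := en_nonneg c (gT k) A (kT w TH ω k) x V
    have n2 := en_nonneg c (gc k) A (gG G ω k) x V
    have n3 := en_nonneg c (g₀ k) (w k) (gG G ω k) x V
    have hball : 2 ^ gc k x * (2 ^ cl / 2 ^ g₀ k x * en c (g₀ k) (w k) (gG G ω k) x V) ≤
        2 ^ (5 * cl) * en c (gc k) A (gG G ω k) x V := by
      have h2 := E.g0_gc hk (l := x) (by omega) (gG G ω k) V
      have h3 : (2 : ℝ) ^ gc k x * 2 ^ cl ≤ 2 ^ g₀ k x * 2 ^ (A - w k) * 2 ^ (3 * cl) := by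
        rw [← pow_add, ← pow_add, ← pow_add]
        exact p2 (by omega)
      calc 2 ^ gc k x * (2 ^ cl / 2 ^ g₀ k x * en c (g₀ k) (w k) (gG G ω k) x V) =
            2 ^ gc k x * 2 ^ cl * (en c (g₀ k) (w k) (gG G ω k) x V / 2 ^ g₀ k x) := by ring
        _ ≤ 2 ^ g₀ k x * 2 ^ (A - w k) * 2 ^ (3 * cl) *
              (en c (g₀ k) (w k) (gG G ω k) x V / 2 ^ g₀ k x) :=
            mul_le_mul_of_nonneg_right h3 (by positivity)
        _ = 2 ^ (3 * cl) * (2 ^ (A - w k) * en c (g₀ k) (w k) (gG G ω k) x V) := by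
            field_simp
        _ ≤ 2 ^ (3 * cl) * (2 ^ (2 * cl) * en c (gc k) A (gG G ω k) x V) :=
            mul_le_mul_of_nonneg_left h2 (by positivity)
        _ = _ := by
            rw [← mul_assoc, ← pow_add]
            congr 2
            ring
    have hs := en_le_succ c (gT k) A (kT w TH ω k) x V
    have hcomp : 2 ^ gT k x * |V (some (c x)) - cv (kT w TH ω k x) V| ≤
        en c (gT k) A (kT w TH ω k) (x + 1) V := by
      rw [Pool.D2Z.en_succ]
      linarith
    have htri := cv_dev (gG G ω k x) (kT w TH ω k x) V (V (some (c x)))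
    have e5 : (2 : ℝ) ^ (5 * cl) ≤ 2 ^ (6 * cl + X + 2) := p2 (by omega)
    by_cases hsx : Sc x
    · -- a static coordinate
      obtain ⟨q, hq⟩ : ∃ q, q = min (gT k x) (gc k x) - cl := ⟨_, rfl⟩
      have hq1 : q + cl ≤ gT k x := by omega
      have hq2 : q + cl ≤ gc k x := by omega
      have hq3 : gc k x ≤ q + cl + X := by
        have := hX x hx hsx
        omega
      have h2 := E.tb hx hk hk le_rfl hq1 hq2 hω V
      calc 2 ^ gc k x * |V (some (c x)) - cv (gG G ω k x) V| ≤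
            2 ^ gc k x * (|V (some (c x)) - cv (kT w TH ω k x) V| +
              (2 ^ cl / 2 ^ q * en c (gT k) A (kT w TH ω k) x V +
              2 ^ cl / 2 ^ g₀ k x * en c (g₀ k) (w k) (gG G ω k) x V)) :=
            mul_le_mul_of_nonneg_left (htri.trans (add_le_add le_rfl h2)) (by positivity)
        _ = 2 ^ gc k x * |V (some (c x)) - cv (kT w TH ω k x) V| +
              2 ^ gc k x * (2 ^ cl / 2 ^ q) * en c (gT k) A (kT w TH ω k) x V +
              2 ^ gc k x * (2 ^ cl / 2 ^ g₀ k x * en c (g₀ k) (w k) (gG G ω k) x V) := by ring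
        _ ≤ 2 ^ X * (2 ^ gT k x * |V (some (c x)) - cv (kT w TH ω k x) V|) +
              2 ^ (2 * cl + X) * en c (gT k) A (kT w TH ω k) x V +
              2 ^ (5 * cl) * en c (gc k) A (gG G ω k) x V := by
            refine add_le_add (add_le_add ?_ (mul_le_mul_of_nonneg_right ?_ n1)) hball
            · rw [← mul_assoc, ← pow_add]
              refine mul_le_mul_of_nonneg_right (p2 ?_) (abs_nonneg _)
              have := hX x hx hsx
              omega
            · rw [mul_div_assoc', div_le_iff₀ (by positivity), ← pow_add, ← pow_add]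
              exact p2 (by omega)
        _ ≤ _ := by
            have f1 : (2 : ℝ) ^ X * (2 ^ gT k x * |V (some (c x)) - cv (kT w TH ω k x) V|) ≤
                2 ^ X * en c (gT k) A (kT w TH ω k) (x + 1) V :=
              mul_le_mul_of_nonneg_left hcomp (by positivity)
            have f2 : (2 : ℝ) ^ (2 * cl + X) * en c (gT k) A (kT w TH ω k) x V ≤
                2 ^ (2 * cl + X) * en c (gT k) A (kT w TH ω k) (x + 1) V :=
              mul_le_mul_of_nonneg_left hs (by positivity)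
            have n4 := en_nonneg c (gT k) A (kT w TH ω k) (x + 1) V
            have f3 : (2 : ℝ) ^ X + 2 ^ (2 * cl + X) ≤ 2 ^ (6 * cl + X + 2) := by
              have g1 : (2 : ℝ) ^ X ≤ 2 ^ (2 * cl + X) := p2 (by omega)
              have g2 : (2 : ℝ) ^ (2 * cl + X) * 2 = 2 ^ (2 * cl + X + 1) := by rw [pow_succ]
              have g3 : (2 : ℝ) ^ (2 * cl + X + 1) ≤ 2 ^ (6 * cl + X + 2) := p2 (by omega)
              linarith
            have f4 := mul_le_mul_of_nonneg_right f3 n4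
            have f5 := mul_le_mul_of_nonneg_right e5 n2
            linarith
    · -- a rough coordinate
      have h2 := E.cb hk hx hsx b1 b2 hω V
      rw [E.t_rg hk hx hsx] at hcomp
      calc 2 ^ gc k x * |V (some (c x)) - cv (gG G ω k x) V| ≤
            2 ^ gc k x * (|V (some (c x)) - cv (kT w TH ω k x) V| +
              2 ^ cl / 2 ^ g₀ k x * en c (g₀ k) (w k) (gG G ω k) x V) :=
            mul_le_mul_of_nonneg_left (htri.trans (add_le_add le_rfl h2)) (by positivity)
        _ = 2 ^ gc k x * |V (some (c x)) - cv (kT w TH ω k x) V| +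
              2 ^ gc k x * (2 ^ cl / 2 ^ g₀ k x * en c (g₀ k) (w k) (gG G ω k) x V) := by ring
        _ ≤ en c (gT k) A (kT w TH ω k) (x + 1) V +
              2 ^ (5 * cl) * en c (gc k) A (gG G ω k) x V := add_le_add hcomp hball
        _ ≤ _ := by
            have n4 := en_nonneg c (gT k) A (kT w TH ω k) (x + 1) V
            have f3 : (1 : ℝ) ≤ 2 ^ (6 * cl + X + 2) := one_le_pow₀ (by norm_num)
            have f4 := mul_le_mul_of_nonneg_right f3 n4
            have f5 := mul_le_mul_of_nonneg_right e5 n2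
            linarith
  · refine mul_le_mul_of_nonneg_right ?_ (en_nonneg _ _ _ _ _ _)
    rw [pow_mul]
    refine pow_le_pow_left₀ (by positivity) ?_ l
    have e1 : (2 : ℝ) * 2 ^ (6 * cl + X + 2) = 2 ^ (6 * cl + X + 3) := by
      rw [pow_succ (2 : ℝ) (6 * cl + X + 2)]
      ring
    rw [e1]
    have e2 : (1 : ℝ) ≤ 2 ^ (6 * cl + X + 3) := one_le_pow₀ (by norm_num)
    have e3 : (2 : ℝ) ^ (6 * cl + X + 4) = 2 ^ (6 * cl + X + 3) * 2 := pow_succ _ _
    linarith

/-- The direction of the own line in the thin norm. -/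
theorem CEv.bdT (E : CEv F c r D Dr N M A cl Sc w e h pp z g gc gT g₀ κ B G H T TH Gt Ht)
    {k : ℕ} (hk : k ≤ N) (h1 : cl ≤ pp k) (h2 : cl ≤ gc k r) {ω : F.Ω} (hω : B ω) :
    (∀ l < r, |bd F ω (some (c l)) - cv (kT w TH ω k l) (bd F ω)| ≤
      2 ^ cl * 2 ^ A / 2 ^ gT k l) ∧
    ∀ l ≤ r, en c (gT k) A (kT w TH ω k) l (bd F ω) ≤ (1 + l * 2 ^ cl) * 2 ^ A := by
  have hrad := E.radA hk
  have h3 := E.row k hk k hk le_rfl 0 (by omega) (by omega)
  have h4 : ∀ l < r, |bd F ω (some (c l)) - cv (kT w TH ω k l) (bd F ω)| ≤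
      2 ^ cl * 2 ^ A / 2 ^ gT k l := by
    intro l hl
    have h5 := h3.velT ω ω hω hω rfl l hl
    rw [hrad] at h5
    unfold kT
    rw [cv_grd]
    exact h5
  refine ⟨h4, fun l hl => ?_⟩
  rw [en_eq]
  have h0 : (bd F ω : Option (Fin m) → ℝ) none = 1 := rfl
  rw [h0, abs_one, mul_one]
  have h2 : ∑ j ∈ range l, 2 ^ gT k j * |bd F ω (some (c j)) - cv (kT w TH ω k j) (bd F ω)| ≤
      ∑ j ∈ range l, 2 ^ cl * 2 ^ A := by
    refine Finset.sum_le_sum fun j hj => ?_
    have h5 := h4 j ((Finset.mem_range.1 hj).trans_le hl)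
    rw [le_div_iff₀ (by positivity)] at h5
    linarith
  refine (add_le_add le_rfl h2).trans (le_of_eq ?_)
  rw [Finset.sum_const, Finset.card_range, nsmul_eq_mul]
  ring

/-- The direction of the own line in the norm of the ball. -/
theorem CEv.bdG (E : CEv F c r D Dr N M A cl Sc w e h pp z g gc gT g₀ κ B G H T TH Gt Ht)
    {k : ℕ} (hk : k ≤ N) (h1 : cl ≤ pp k) (h2 : cl ≤ gc k r) {ω : F.Ω} (hω : B ω) :
    (∀ l ≤ r, |bd F ω (some (c l)) - cv (gG G ω k l) (bd F ω)| ≤
      2 ^ cl * 2 ^ w k / 2 ^ g₀ k l) ∧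
    ∀ l ≤ r, en c (g₀ k) (w k) (gG G ω k) l (bd F ω) ≤ (1 + l * 2 ^ cl) * 2 ^ w k := by
  have h3 := E.row k hk k hk le_rfl 0 (by omega) (by omega)
  have h4 : ∀ l ≤ r, |bd F ω (some (c l)) - cv (gG G ω k l) (bd F ω)| ≤
      2 ^ cl * 2 ^ w k / 2 ^ g₀ k l := by
    intro l hl
    have h5 := h3.vel ω ω hω hω rfl l hl
    unfold gG
    rw [cv_grd]
    exact h5
  refine ⟨h4, fun l hl => ?_⟩
  rw [en_eq]
  have h0 : (bd F ω : Option (Fin m) → ℝ) none = 1 := rfl
  rw [h0, abs_one, mul_one]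
  have h2 : ∑ j ∈ range l, 2 ^ g₀ k j * |bd F ω (some (c j)) - cv (gG G ω k j) (bd F ω)| ≤
      ∑ j ∈ range l, 2 ^ cl * 2 ^ w k := by
    refine Finset.sum_le_sum fun j hj => ?_
    have h5 := h4 j ((Finset.mem_range.1 hj).le.trans hl)
    rw [le_div_iff₀ (by positivity)] at h5
    linarith
  refine (add_le_add le_rfl h2).trans (le_of_eq ?_)
  rw [Finset.sum_const, Finset.card_range, nsmul_eq_mul]
  ring

end

/-- A chart of the ball with the target precision `P`, at the rounded point. -/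
theorem top_rnd (D n : ℕ) : ∃ C : ℕ, 1 ≤ C ∧ ∀ {m J : ℕ} {F : Fam m J} {c : ℕ → Fin m}
    {a w e P : ℕ} {g : ℕ → ℕ} {B : F.Ω → Prop}
    {G : PtT F → ℕ → MvPolynomial (Option (Fin m)) ℝ}
    {H : LnT F → ℕ → MvPolynomial (Option (Fin m)) ℝ}, Set.InjOn c (Set.Iio (n + 1)) →
    ChOK F c (n + 1) (fun _ => D) a w e g B G H → g n ≤ P →
    (∀ l < n, e + (P - g n) + g l + C ≤ J) → e + (P - g n) + P + C ≤ J → ∀ ω, B ω →
    ∀ V : Option (Fin m) → ℝ,
    |cv (grd (G (ptr F J ω) n) (hx F ω) - grd (G (ptr F J ω) n) (bt F ω)) V| ≤ 1 / 2 ^ P *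
      en c g a (fun j => grd (G (ptr F J ω) j) (bt F ω)) n V := by
  obtain ⟨C, hC, hmv⟩ := grd_mv3 D (n + 1)
  refine ⟨C, hC, ?_⟩
  intro m J F c a w e P g B G H hc hch hP hJ hJn ω hω V
  obtain ⟨G', hG'⟩ : ∃ G' : ℕ → MvPolynomial (Option (Fin m)) ℝ, G' = fun l =>
      G (ptr F J ω) l + MvPolynomial.C (if l = n then
        bt F ω (some (c n)) - eval (bt F ω) (G (ptr F J ω) n) else 0) := ⟨_, rfl⟩
  obtain ⟨g', hg'⟩ : ∃ g' : ℕ → ℕ, g' = fun l => if l = n then P else g l := ⟨_, rfl⟩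
  have hev : ∀ l ≠ n, ∀ b, eval b (G' l) = eval b (G (ptr F J ω) l) := by
    intro l hl b
    rw [hG']
    show eval b (G (ptr F J ω) l + MvPolynomial.C (if l = n then _ else 0)) = _
    rw [if_neg hl, map_add, eval_C, add_zero]
  have hpd : ∀ l o, pderiv o (G' l) = pderiv o (G (ptr F J ω) l) := by
    intro l o
    rw [hG']
    show pderiv o (G (ptr F J ω) l + MvPolynomial.C _) = _
    rw [map_add, pderiv_C, add_zero]
  have hg'l : ∀ l ≠ n, g' l = g l := fun l hl => by rw [hg']; exact if_neg hl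
  have hg'n : g' n = P := by rw [hg']; exact if_pos rfl
  have hbox : ∀ l ≤ n, ∀ b, NBx c G' g' a (F.t ω) l b → NBx c (G (ptr F J ω)) g a (F.t ω) l b := by
    intro l hl b hb
    refine ⟨hb.1, fun j hj => ?_⟩
    have h1 := hb.2 j hj
    rw [hev j (by omega), hg'l j (by omega)] at h1
    exact h1
  have hnlp : ∀ l ≤ n, ∀ j < l, nlp g j l ≤ (P - g n) + nlp g' j l := by
    intro l hl j hj
    rcases Nat.lt_or_ge l n with h | h
    · have e1 : (Finset.Icc j l).sup g' = (Finset.Icc j l).sup g := by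
        refine Finset.sup_congr rfl fun i hi => hg'l i ?_
        rw [Finset.mem_Icc] at hi
        omega
      have : nlp g' j l = nlp g j l := by
        unfold nlp
        rw [e1, hg'l l (by omega)]
      omega
    · have hln : l = n := by omega
      rw [hln]
      unfold nlp
      rw [hg'n]
      have h2 : (Finset.Icc j n).sup g ≤ (Finset.Icc j n).sup g' := by
        refine Finset.sup_mono_fun fun i _ => ?_
        rcases eq_or_ne i n with h3 | h3
        · rw [h3, hg'n]
          exact hP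
        · rw [hg'l i h3]
      omega
  have h1 := (hmv (J := J) (c := c) (a := a) (e := e + (P - g n)) (g := g') (G := G')
    (x := bt F ω) (x' := hx F ω) hc (fun l => by
      rw [hG']
      refine (totalDegree_add _ _).trans (max_le (hch.degG _ l) ?_)
      rw [totalDegree_C]
      exact Nat.zero_le _) (fun l b b' h1 h2 => by
      rw [hG']
      show eval b (G (ptr F J ω) l + MvPolynomial.C _) =
        eval b' (G (ptr F J ω) l + MvPolynomial.C _)
      rw [map_add, map_add, hch.depG _ l b b' h1 h2, eval_C, eval_C])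
    (fun l hl b hb j hj => by
      rw [hpd]
      refine (hch.lip ω hω l hl b (hbox l (by omega) b hb) j hj).trans (p2 ?_)
      have := hnlp l (by omega) j hj
      omega) (fun l hl => by
      rcases eq_or_ne l n with h3 | h3
      · rw [h3, hG']
        show |bt F ω (some (c n)) - eval (bt F ω) (G (ptr F J ω) n + MvPolynomial.C
          (if n = n then _ else 0))| ≤ _
        rw [if_pos rfl, map_add, eval_C]
        have e1 : bt F ω (some (c n)) - (eval (bt F ω) (G (ptr F J ω) n) +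
            (bt F ω (some (c n)) - eval (bt F ω) (G (ptr F J ω) n))) = 0 := by ring
        rw [e1, abs_zero]
        positivity
      · rw [hev l h3, hg'l l h3]
        exact hch.pos ω hω l hl) (hx_none F ω) (fun k => hx_some F ω k) (fun l hl => by
      rcases eq_or_ne l n with h3 | h3
      · rw [h3, hg'n]
        exact hJn
      · rw [hg'l l h3]
        exact hJ l (by omega)) n (Nat.lt_succ_self n)).2.1 V
  have hdd : ∀ l x W, dd (G' l) x W = dd (G (ptr F J ω) l) x W := by
    intro l x W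
    unfold dd
    exact Finset.sum_congr rfl fun o _ => by rw [hpd]
  have hn : nrm c G' g' a n (bt F ω) V = nrm c (G (ptr F J ω)) g a n (bt F ω) V := by
    unfold nrm
    congr 1
    refine Finset.sum_congr rfl fun j hj => ?_
    rw [hdd, hg'l j (Finset.mem_range.1 hj).ne]
  rw [hn, hdd, hdd, hg'n] at h1
  rw [cv_subl, cv_grd, cv_grd, ← nrm_en]
  exact h1

end Pool.TN
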