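import Pool.Agent.H66.D2.Wff

/-!
# The row label at the rounded point
-/

set_option autoImplicit false

namespace Pool.TN

open Finset Real MvPolynomial
open Pool.Agent.H49.Ent Pool.Agent.H32.Dense Pool.STK Pool.KA Pool.KSAT Pool.K2S Pool.PB Pool.S6C
open Pool.GEN Pool.CHT Pool.CHX Pool.ISO Pool.D2R Pool.D2Z Pool.D2F
open Pool.FLF (Fam.sub)
open Pool.PB.Trl (rt rt_mem t_rt)

variable {m J : ℕ}

/-- **The row label at the rounded point** against the closed row label at the sample. -/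
theorem CEv.row_r (D r : ℕ) : ∃ C : ℕ, 1 ≤ C ∧ ∀ {m J : ℕ} {F : Fam m J} {c : ℕ → Fin m}
    {Dr N M A cl : ℕ} {Sc : ℕ → Prop} {w e h pp : ℕ → ℕ} {z g gc gT g₀ : ℕ → ℕ → ℕ} {κ : ℝ}
    {B : F.Ω → Prop} {G : ℕ → PtT F → ℕ → MvPolynomial (Option (Fin m)) ℝ}
    {H : ℕ → LnT F → ℕ → MvPolynomial (Option (Fin m)) ℝ}
    {T : ℕ → PtT F → ℕ → MvPolynomial (Option (Fin m)) ℝ}
    {TH : ℕ → LnT F → ℕ → MvPolynomial (Option (Fin m)) ℝ}
    {Gt : ℕ → PtT F → MvPolynomial (Option (Fin m)) ℝ}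
    {Ht : ℕ → LnT F → MvPolynomial (Option (Fin m)) ℝ},
    CEv F c r D Dr N M A cl Sc w e h pp z g gc gT g₀ κ B G H T TH Gt Ht → C ≤ cl →
    ∀ {k P x X : ℕ}, k ≤ N → P + cl ≤ pp k → P ≤ gc k r + x → cl ≤ gc k r →
    (∀ l < r, Sc l → gc k l ≤ gT k l + X) → (∀ l < r, cl ≤ gT k l ∧ cl ≤ gc k l) →
    x + 4 * cl ≤ J → (∀ l < r, e k + gT k l + x + 4 * cl ≤ J) →
    (∀ l < r, e k + gc k l + x + cl ≤ J) → e k + gc k r + 2 * x + cl ≤ J →
    ∀ ω, B ω → ∀ V : Option (Fin m) → ℝ,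
    |cv (grd (Gt k (ptr F J ω)) (hx F ω) - grd (Ht k (slam F (w k) ω)) (bt F ω)) V| ≤
      2 ^ ((6 * cl + X + 4) * r + cl + 2) / 2 ^ P * en c (gT k) A (kT w TH ω k) r V := by
  obtain ⟨C₁, hC₁, hnc⟩ := row_nc D r
  obtain ⟨C₂, hC₂, hrn⟩ := row_rnd D r
  obtain ⟨C₃, hC₃, htop⟩ := top_rnd D r
  obtain ⟨C₄, hC₄, htn⟩ := CEv.tn D r
  refine ⟨C₁ + C₂ + C₃ + C₄, by omega, ?_⟩
  intro m J F c Dr N M A cl Sc w e h pp z g gc gT g₀ κ B G H T TH Gt Ht E hcl k P x X hk hP hPx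
    hgr hX hT0 hxJ hTJ hcJ hrJ ω hω V
  have hrad := E.radA hk
  have hev := E.evs k hk
  have hth := hev.thin
  have htp := hev.top
  rw [hrad] at hth htp
  have hc := E.inj
  have hc' : Set.InjOn c (Set.Iio r) := hc.mono (Set.Iio_subset_Iio (by omega))
  obtain ⟨nT, -⟩ := htn E (by omega) k hk ω hω
  have n1 := en_nonneg c (gT k) A (kT w TH ω k) r V
  have hT : en c (gT k) A (fun j => grd (T k (ptr F J ω) j) (bt F ω)) r V ≤
      2 ^ ((cl + 1) * r) * en c (gT k) A (kT w TH ω k) r V := by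
    refine (nT.en_ge (by positivity) le_rfl V).trans (mul_le_mul_of_nonneg_right ?_ n1)
    rw [pow_mul]
    refine pow_le_pow_left₀ (by positivity) ?_ r
    have e1 : (1 : ℝ) ≤ 2 ^ cl := one_le_pow₀ (by norm_num)
    rw [pow_succ]
    linarith
  -- the difference with the ball
  obtain ⟨q, hq⟩ : ∃ q, q = min (pp k) (gc k r) - cl := ⟨_, rfl⟩
  have hq1 : q + cl ≤ pp k := by omega
  have hq2 : q + cl ≤ gc k r := by omega
  have hq3 : P ≤ q + x + cl := by omega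
  have hrow := E.row k hk k hk le_rfl q hq1 hq2
  have hbx := hrow.box ω hω
  rw [hrad] at hbx
  obtain ⟨Gn, hGn⟩ : ∃ Gn : MvPolynomial (Option (Fin m)) ℝ,
      Gn = Gno (c r) J J (fun y => G k y r) (ptr F J ω) := ⟨_, rfl⟩
  rw [← hGn] at hbx
  have hGnd : Gn.totalDegree ≤ D := by rw [hGn]; exact htp.degG (ptr F J ω) r
  have hGnc : DepC c r Gn := by rw [hGn]; exact htp.depG (ptr F J ω) r
  have hag := hev.agr ω hω
  rw [hrad] at hag
  have hQ := hrn hc' hth (s := x + 2 * cl + 1) (by omega) (fun l hl => by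
    have := hTJ l hl
    omega) ω hω (Gt k (ptr F J ω) - Gn) (2 ^ (cl + 1) / 2 ^ q)
    ((totalDegree_sub _ _).trans (max_le (hev.dG _) hGnd)) (fun y y' h1 h2 => by
      rw [map_sub, map_sub, hev.pG _ y y' h1 h2, hGnc y y' h1 h2]) (by positivity) (fun b hb => by
      rw [map_sub]
      have e1 : eval b (Gt k (ptr F J ω)) - eval b Gn = (eval b (Gt k (ptr F J ω)) -
          eval b (Ht k (slam F (w k) ω))) + (eval b (Ht k (slam F (w k) ω)) - eval b Gn) := by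
        ring
      rw [e1]
      refine (abs_add_le _ _).trans ((add_le_add (hag b hb) (hbx b hb)).trans ?_)
      have h2 : (1 : ℝ) / 2 ^ pp k ≤ 2 ^ cl / 2 ^ q := by
        rw [div_le_div_iff₀ (by positivity) (by positivity), one_mul, ← pow_add]
        exact p2 (by omega)
      have e2 : (2 : ℝ) ^ (cl + 1) / 2 ^ q = 2 ^ cl / 2 ^ q + 2 ^ cl / 2 ^ q := by
        rw [pow_succ]
        ring
      rw [e2]
      linarith) V
  have hG := htop hc htp (P := gc k r + x) (by omega) (fun l hl => by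
    have := hcJ l hl
    omega) (by omega) ω hω V
  have hGh : Gno (c r) J J (fun y => G k y r) (ptr F J ω) = Gn := hGn.symm
  rw [hGh] at hG
  have hcl0 : en c (gc k) A (fun j => grd (Gno (c j) J J (fun y => G k y j)
      (ptr F J ω)) (bt F ω)) r V = en c (gc k) A (gG G ω k) r V := by
    rw [← nrm_en, nrm_Gno, nrm_en]
    rfl
  rw [hcl0] at hG
  have hten := E.top_en hk hX hT0 hω (le_refl r) V
  have hN := hnc hc' hth ω hω (Gt k (ptr F J ω)) (Ht k (slam F (w k) ω)) (1 / 2 ^ pp k)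
    (hev.dG _) (hev.dH _) (hev.pG _) (hev.pH _) (by positivity) (fun b hb => hag b hb) V
  -- the sum
  have e1 : cv (grd (Gt k (ptr F J ω)) (hx F ω) - grd (Ht k (slam F (w k) ω)) (bt F ω)) V =
      cv (grd (Gt k (ptr F J ω) - Gn) (hx F ω) - grd (Gt k (ptr F J ω) - Gn) (bt F ω)) V +
      cv (grd Gn (hx F ω) - grd Gn (bt F ω)) V +
      cv (grd (Gt k (ptr F J ω)) (bt F ω) - grd (Ht k (slam F (w k) ω)) (bt F ω)) V := by
    simp only [cv_subl, cv_grd, dd_sub]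
    ring
  rw [e1]
  obtain ⟨S, hS⟩ : ∃ S : ℝ, S = en c (gT k) A (kT w TH ω k) r V := ⟨_, rfl⟩
  rw [← hS] at n1 hT hten ⊢
  have hexp : (cl + 1) * r + cl ≤ (6 * cl + X + 4) * r + cl := by
    have : (cl + 1) * r ≤ (6 * cl + X + 4) * r := Nat.mul_le_mul_right _ (by omega)
    omega
  have b1 : 2 ^ C₂ * (2 ^ (cl + 1) / 2 ^ q) / 2 ^ (x + 2 * cl + 1) *
      en c (gT k) A (fun j => grd (T k (ptr F J ω) j) (bt F ω)) r V ≤
      2 ^ ((6 * cl + X + 4) * r + cl) / 2 ^ P * S := by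
    calc _ ≤ 2 ^ C₂ * (2 ^ (cl + 1) / 2 ^ q) / 2 ^ (x + 2 * cl + 1) *
          (2 ^ ((cl + 1) * r) * S) := mul_le_mul_of_nonneg_left hT (by positivity)
      _ = 2 ^ C₂ * 2 ^ (cl + 1) * 2 ^ ((cl + 1) * r) / (2 ^ q * 2 ^ (x + 2 * cl + 1)) * S := by
          field_simp
      _ ≤ _ := by
          refine mul_le_mul_of_nonneg_right ?_ n1
          rw [← pow_add, ← pow_add, ← pow_add, div_le_div_iff₀ (by positivity) (by positivity),
            ← pow_add, ← pow_add]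
          exact p2 (by omega)
  have b2 : 1 / 2 ^ (gc k r + x) * en c (gc k) A (gG G ω k) r V ≤
      2 ^ ((6 * cl + X + 4) * r + cl) / 2 ^ P * S := by
    calc _ ≤ 1 / 2 ^ (gc k r + x) * (2 ^ ((6 * cl + X + 4) * r) * S) :=
          mul_le_mul_of_nonneg_left hten (by positivity)
      _ = 2 ^ ((6 * cl + X + 4) * r) / 2 ^ (gc k r + x) * S := by ring
      _ ≤ _ := by
          refine mul_le_mul_of_nonneg_right ?_ n1
          rw [div_le_div_iff₀ (by positivity) (by positivity), ← pow_add, ← pow_add]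
          exact p2 (by omega)
  have b3 : 2 ^ C₁ * (1 / 2 ^ pp k) *
      en c (gT k) A (fun j => grd (T k (ptr F J ω) j) (bt F ω)) r V ≤
      2 ^ ((6 * cl + X + 4) * r + cl) / 2 ^ P * S := by
    calc _ ≤ 2 ^ C₁ * (1 / 2 ^ pp k) * (2 ^ ((cl + 1) * r) * S) :=
          mul_le_mul_of_nonneg_left hT (by positivity)
      _ = 2 ^ C₁ * 2 ^ ((cl + 1) * r) / 2 ^ pp k * S := by ring
      _ ≤ _ := by
          refine mul_le_mul_of_nonneg_right ?_ n1
          rw [← pow_add, div_le_div_iff₀ (by positivity) (by positivity),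
            ← pow_add, ← pow_add]
          exact p2 (by omega)
  have hY0 : 0 ≤ 2 ^ ((6 * cl + X + 4) * r + cl) / 2 ^ P * S := by positivity
  have e2 : (2 : ℝ) ^ ((6 * cl + X + 4) * r + cl + 2) / 2 ^ P * S =
      4 * (2 ^ ((6 * cl + X + 4) * r + cl) / 2 ^ P * S) := by
    rw [pow_add _ _ 2]
    ring
  rw [e2]
  refine (abs_add_le _ _).trans ((add_le_add ((abs_add_le _ _).trans (add_le_add
    (hQ.trans b1) (hG.trans b2))) (hN.trans b3)).trans ?_)
  linarith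

end Pool.TN
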