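import Pool.Agent.H66.D2.Wfg

/-!
# The first-order facts from the event of a static cell

`NumW`: the numbers. `wf_cev`: `WF` at every sample of the event, windows `w i₀`, `w i₁`, `w i₂`,
`w i₃`.
-/

set_option autoImplicit false

namespace Pool.TN

open Finset Real MvPolynomial
open Pool.Agent.H49.Ent Pool.Agent.H32.Dense Pool.STK Pool.KA Pool.KSAT Pool.K2S Pool.PB Pool.S6C
open Pool.GEN Pool.CHT Pool.CHX Pool.ISO Pool.D2R Pool.D2Z Pool.D2F
open Pool.FLF (Fam.sub)
open Pool.PB.Trl (rt rt_mem t_rt)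

variable {m J : ℕ}

/-- **The numbers** of the windows `i₀` (static labels), `i₁` (row label), `i₂` (`t`), `i₃` (`K`). -/
structure NumW (r N M A cl J : ℕ) (Sc : ℕ → Prop) (w e pp : ℕ → ℕ) (z g gc gT g₀ : ℕ → ℕ → ℕ)
    (i₀ i₁ i₂ i₃ X p x : ℕ) (g' : ℕ → ℕ) : Prop where
  h0 : i₀ ≤ N
  h1 : i₁ ≤ N
  h2 : i₂ ≤ N
  h3 : i₃ ≤ N
  w0 : w i₀ ≤ w i₂
  w1 : w i₁ ≤ w i₂
  w2 : w i₂ ≤ w i₃
  jz : ∃ j ≤ M, z i₂ j = w i₃ - w i₂
  one : ∀ l < r, Sc l → ∀ x < l, ¬ Sc x
  pos : ∀ i ≤ N, (∀ l < r, cl + X ≤ gT i l) ∧ (∀ l ≤ r, cl + X ≤ gc i l) ∧ cl ≤ pp i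
  mo0 : ∀ l < r, gT i₀ l ≤ gT i₂ l + X
  mo1 : ∀ l < r, gT i₁ l ≤ gT i₂ l + X
  st2 : ∀ l < r, Sc l → gT i₂ l ≤ gT i₀ l + X
  st3 : ∀ l < r, Sc l → gT i₃ l ≤ gT i₀ l + X
  stK : ∀ l < r, Sc l → g₀ i₃ l + (A - w i₃) ≤ gT i₀ l + X
  gr : ∀ i ≤ N, ∀ l < r, Sc l → gc i l ≤ gT i l + X
  sp : ∀ l < r, Sc l → g' l = g₀ i₃ l
  rT : ∀ l < r, ¬ Sc l → gT i₂ l = g' l + (A - w i₃)
  up : ∀ l ≤ r, g i₂ l + (w i₃ - w i₂) ≤ g₀ i₃ l + X
  hh : ∀ l < r, ¬ Sc l → ∀ x < l, ¬ Sc x → g₀ i₃ x ≤ g' x + X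
  vp : (A - w i₃) + g₀ i₃ r ≤ p + X
  pq : p + cl ≤ pp i₁
  pc : p + cl ≤ gc i₃ r
  px : p ≤ gc i₁ r + x
  r0 : x + 4 * cl ≤ J
  r1 : ∀ l < r, e i₁ + gT i₁ l + x + 4 * cl ≤ J
  r2 : ∀ l < r, e i₁ + gc i₁ l + x + cl ≤ J
  r3 : e i₁ + gc i₁ r + 2 * x + cl ≤ J

theorem grd_Gno {ζ : Type} (k : Fin m)
    (G : (Fin m → ℤ) × (ℕ × ζ) → MvPolynomial (Option (Fin m)) ℝ) (y : (Fin m → ℤ) × (ℕ × ζ))
    (x : Option (Fin m) → ℝ) : grd (Gno k J J G y) x = grd (G y) x := by
  unfold grd Gno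
  funext o
  rw [map_add, pderiv_C, add_zero]

/-- The sides of the mixed charts. -/
theorem sz_of_en {c : ℕ → Fin m} {g : ℕ → ℕ} {a : ℕ} {χ : ℕ → Option (Fin m) → ℝ} {l : ℕ}
    {V : Option (Fin m) → ℝ} {x K : ℝ} (h0 : V none = 0) (h : x ≤ K * en c g a χ l V) :
    x ≤ K * sz c g χ l V := by
  rwa [en_sz _ _ _ _ _ h0] at h

/-- **The first-order facts.** -/
theorem wf_cev (D r : ℕ) : ∃ C : ℕ, 1 ≤ C ∧ ∀ {m J : ℕ} {F : Fam m J} {c : ℕ → Fin m}
    {Dr N M A cl : ℕ} {Sc : ℕ → Prop} {w e h pp : ℕ → ℕ} {z g gc gT g₀ : ℕ → ℕ → ℕ} {κ : ℝ}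
    {B : F.Ω → Prop} {G : ℕ → PtT F → ℕ → MvPolynomial (Option (Fin m)) ℝ}
    {H : ℕ → LnT F → ℕ → MvPolynomial (Option (Fin m)) ℝ}
    {T : ℕ → PtT F → ℕ → MvPolynomial (Option (Fin m)) ℝ}
    {TH : ℕ → LnT F → ℕ → MvPolynomial (Option (Fin m)) ℝ}
    {Gt : ℕ → PtT F → MvPolynomial (Option (Fin m)) ℝ}
    {Ht : ℕ → LnT F → MvPolynomial (Option (Fin m)) ℝ},
    CEv F c r D Dr N M A cl Sc w e h pp z g gc gT g₀ κ B G H T TH Gt Ht → C ≤ cl →
    ∀ {i₀ i₁ i₂ i₃ X p x : ℕ} {g' : ℕ → ℕ},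
    NumW r N M A cl J Sc w e pp z g gc gT g₀ i₀ i₁ i₂ i₃ X p x g' → ∀ ω, B ω →
    WF c r Sc (fun l => gT i₀ l - (cl + X)) (fun l => gT i₁ l - (cl + X)) (gT i₂) (gT i₃) (g₀ i₃)
      g' (fun l => g i₂ l + (w i₃ - w i₂)) (A - w i₃) p (2 ^ (C * (cl + X + 1)))
      (kT w TH ω i₀) (kT w TH ω i₁) (kT w TH ω i₂) (kT w TH ω i₃) (gG G ω i₂) (gG G ω i₃)
      (gpt F (G i₃) (ptr F J ω))
      (mx Sc (fun l => grd (T i₀ (ptr F J ω) l) (hx F ω))
        (fun l => grd (G i₂ (ptr F J ω) l) (hx F ω)))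
      (grd (Ht i₁ (slam F (w i₁) ω)) (bt F ω)) (grd (Gt i₁ (ptr F J ω)) (hx F ω)) := by
  obtain ⟨C₁, hC₁, htn⟩ := CEv.tn D r
  obtain ⟨C₂, hC₂, hrow⟩ := CEv.row_r D r
  obtain ⟨C₃, hbal⟩ := bale_dd D r
  obtain ⟨C₄, hC₄, hnc⟩ := chn_nc D (r + 1)
  obtain ⟨C₅, hC₅, hrnd⟩ := chn_rnd D (r + 1)
  obtain ⟨C, hC⟩ : ∃ C, C = C₁ + C₂ + C₃ + C₄ + C₅ +
      10 * ((r + 1) * (r + 1)) + 20 := ⟨_, rfl⟩
  refine ⟨C, by omega, ?_⟩
  intro m J F c Dr N M A cl Sc w e h pp z g gc gT g₀ κ B G H T TH Gt Ht E hcl i₀ i₁ i₂ i₃ X p x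
    g' n ω hω
  obtain ⟨Z, hZ⟩ : ∃ Z : ℕ, Z = C * (cl + X + 1) := ⟨_, rfl⟩
  rw [← hZ]
  have hCR : C * (cl + X + 1) = C * cl + C * X + C := by ring
  have h0 := n.h0
  have h1 := n.h1
  have h2 := n.h2
  have h3 := n.h3
  have hZ1 : 10 * cl + 10 * X + C ≤ Z := by
    rw [hZ, hCR]
    have a1 : 10 * cl ≤ C * cl := Nat.mul_le_mul_right _ (by omega)
    have a2 : 10 * X ≤ C * X := Nat.mul_le_mul_right _ (by omega)
    omega
  have hYp : ∀ {a b : ℕ}, a ≤ Z + b → (2 : ℝ) ^ a ≤ 2 ^ Z * 2 ^ b := fun hab => by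
    rw [← pow_add]
    exact p2 hab
  have hdv : ∀ {a b : ℕ}, b ≤ Z + a → (1 : ℝ) / 2 ^ a ≤ 2 ^ Z / 2 ^ b := fun hab => by
    rw [div_le_div_iff₀ (by positivity) (by positivity), one_mul, ← pow_add]
    exact p2 hab
  have hdk : ∀ {a b d : ℕ}, d + b ≤ Z + a → (2 : ℝ) ^ d / 2 ^ a ≤ 2 ^ Z / 2 ^ b := fun hab => by
    rw [div_le_div_iff₀ (by positivity) (by positivity), ← pow_add, ← pow_add]
    exact p2 hab
  have hg3 : ∀ l ≤ r, gc i₃ l ≤ g₀ i₃ l + (A - w i₃) + 2 * cl ∧
      g₀ i₃ l + (A - w i₃) ≤ gc i₃ l + 2 * cl := fun l hl => by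
    have := E.ng i₃ h3 l hl
    omega
  have hA2 : A - w i₂ = (w i₃ - w i₂) + (A - w i₃) := by
    have := n.w2
    have := E.wA i₃ h3
    omega
  have hc := E.inj
  have hc' : Set.InjOn c (Set.Iio r) := hc.mono (Set.Iio_subset_Iio (by omega))
  have w03 : w i₀ ≤ w i₃ := n.w0.trans n.w2
  have w13 : w i₁ ≤ w i₃ := n.w1.trans n.w2
  -- the thin chains of `i₀`, `i₁`
  obtain ⟨nT0, nR0⟩ := htn E (by omega) i₀ h0 ω hω
  -- the ball of `t` at the radius `K`
  obtain ⟨jz, hjz, hzz⟩ := n.jz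
  have hrad := (E.evs i₂ h2).rad jz hjz
  rw [hzz] at hrad
  have ewK : w i₂ + (w i₃ - w i₂) = w i₃ := by
    have := n.w2
    omega
  rw [ewK] at hrad
  have nc2 := hnc hc hrad ω hω
  have nr2 := hrnd hc hrad (fun l hl => by
    have h4 := E.room i₂ h2 l (by omega)
    omega) ω hω
  have hG2 : ∀ y, (fun j => grd (Gno (c j) J J (fun y => G i₂ y j) (ptr F J ω)) y) =
      fun j => grd (G i₂ (ptr F J ω) j) y := fun y => funext fun j => grd_Gno _ _ _ _
  have nc2' : Nc c (fun l => g i₂ l + (w i₃ - w i₂)) (w i₃) (r + 1) (2 ^ C₄) (gG G ω i₂)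
      (fun j => grd (Hno (c j) (fun s => H i₂ s j) (slam F (w i₂) ω)) (bt F ω)) := by
    have h4 := nc2
    rw [hG2] at h4
    exact h4
  have nr2' : Nc c (fun l => g i₂ l + (w i₃ - w i₂)) (w i₃) (r + 1) 1 (gG G ω i₂)
      (fun j => grd (G i₂ (ptr F J ω) j) (hx F ω)) := by
    have h4 := nr2
    rw [hG2, hG2] at h4
    exact h4
  -- the two balls
  have hbl : ∀ l ≤ r, ∀ V : Option (Fin m) → ℝ, |cv (gG G ω i₂ l - gG G ω i₃ l) V| ≤
      2 ^ C₃ * 2 ^ cl / 2 ^ min (g i₂ l + (w i₃ - w i₂)) (g₀ i₃ l) *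
        en c (g₀ i₃) (w i₃) (gG G ω i₃) l V := by
    intro l hl V
    have h4 := hbal hc' E.bal (by positivity) h2 h3 hjz n.w2 hzz
      (fun y l => (E.evs i₂ h2).ball.degG y l) (fun y l => (E.evs i₂ h2).ball.depG y l)
      (E.evs i₃ h3).ball ω hω l hl V
    rw [nrm_en] at h4
    unfold gG
    rw [cv_subl, cv_grd, cv_grd]
    exact h4
  exact
    { y2 := by
        calc (2 : ℝ) = 2 ^ 1 := (pow_one 2).symm
          _ ≤ 2 ^ Z := p2 (by omega)
      one := n.one
      n0 := fun l hl => hYp (by have := n.mo0 l hl; omega)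
      n1 := fun l hl => hYp (by have := n.mo1 l hl; omega)
      s3 := fun l hl hs => hYp (by
        have a1 := n.st3 l hl hs
        have a2 := n.mo0 l hl
        omega)
      s0 := fun l hl hs => hYp (by have := n.st2 l hl hs; omega)
      sK := fun l hl hs => hYp (by
        have a1 := n.stK l hl hs
        have a2 := n.mo0 l hl
        omega)
      sp := n.sp
      rT := n.rT
      r3 := fun l hl hs => hYp (by
        have a1 := E.t_rg h3 hl hs
        have a2 := hg3 l hl.le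
        omega)
      rK := fun l hl => hYp (by
        by_cases hs : Sc l
        · rw [n.sp l hl hs]
          omega
        · have a1 := n.rT l hl hs
          have a2 := E.t_rg h2 hl hs
          have a3 := E.ng i₂ h2 l hl.le
          have a4 := n.up l hl.le
          omega)
      fF := fun l hl => hYp (by
        by_cases hs : Sc l
        · rw [n.sp l hl hs]
          have a4 := n.up l hl.le
          omega
        · have a1 := n.rT l hl hs
          have a2 := E.t_rg h2 hl hs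
          have a3 := E.ng i₂ h2 l hl.le
          omega)
      Ff := fun l hl hs => hYp (by
        have a1 := n.rT l hl hs
        have a2 := E.t_rg h2 hl hs
        have a3 := E.ng i₂ h2 l hl.le
        omega)
      hh := fun l hl hs y hy hsy => hYp (by
        have := n.hh l hl hs y hy hsy
        omega)
      vp := hdk (by have := n.vp; omega)
      a0 := fun l hl V h0' => sz_of_en h0' ((E.tt hl h0 h2 n.w0 (q := gT i₀ l - (cl + X)) (by
        have := (n.pos i₀ h0).1 l hl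
        omega) (by
        have := (n.pos i₀ h0).1 l hl
        have := n.mo0 l hl
        omega) hω V).trans (mul_le_mul_of_nonneg_right (hdk (by omega))
        (en_nonneg _ _ _ _ _ _)))
      a1 := fun l hl V h0' => sz_of_en h0' ((E.tt hl h1 h2 n.w1 (q := gT i₁ l - (cl + X)) (by
        have := (n.pos i₁ h1).1 l hl
        omega) (by
        have := (n.pos i₁ h1).1 l hl
        have := n.mo1 l hl
        omega) hω V).trans (mul_le_mul_of_nonneg_right (hdk (by omega))
        (en_nonneg _ _ _ _ _ _)))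
      a3 := fun l hl hs V h0' => sz_of_en h0' ((E.tt hl h0 h3 w03 (q := gT i₃ l - (cl + X)) (by
        have := (n.pos i₃ h3).1 l hl
        have := n.st3 l hl hs
        omega) (by
        have := (n.pos i₃ h3).1 l hl
        omega) hω V).trans (mul_le_mul_of_nonneg_right (hdk (by omega))
        (en_nonneg _ _ _ _ _ _)))
      b3 := fun l hl hs V h0' => by
        have a0 := (n.pos i₀ h0).1 l hl
        have a1 := (n.pos i₃ h3).2.1 l hl.le
        have a2 := hg3 l hl.le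
        have a3 := n.stK l hl hs
        have h4 := E.tb hl h0 h3 w03 (q := g₀ i₃ l + (A - w i₃) - (3 * cl + X))
          (by omega) (by omega) hω V
        rw [en_sz _ _ _ _ _ h0', en_sz _ _ _ _ _ h0'] at h4
        refine h4.trans (add_le_add (mul_le_mul_of_nonneg_right (hdk (by omega))
          (sz_nonneg _ _ _ _ _)) (mul_le_mul_of_nonneg_right (hdk (by omega))
          (sz_nonneg _ _ _ _ _)))
      d3 := fun l hl hs V h0' => sz_of_en h0' ((E.cb h3 hl hs (by
        have := (n.pos i₃ h3).1 l hl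
        omega) (by
        have := (n.pos i₃ h3).2.1 l hl.le
        omega) hω V).trans (mul_le_mul_of_nonneg_right (hdk (by omega))
        (en_nonneg _ _ _ _ _ _)))
      c3 := fun V h0' => by
        have h4 := E.rb h1 h3 w13 n.pq n.pc hω V
        rw [en_sz _ _ _ _ _ h0', en_sz _ _ _ _ _ h0'] at h4
        refine h4.trans (add_le_add (mul_le_mul_of_nonneg_right (hdk (by omega))
          (sz_nonneg _ _ _ _ _)) (mul_le_mul_of_nonneg_right (hdk (by omega))
          (sz_nonneg _ _ _ _ _)))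
      e2 := fun l hl hs V h0' => by
        have h4 := nc2' l (by omega) V
        have h5 : kT w TH ω i₂ l = grd (Hno (c l) (fun s => H i₂ s l) (slam F (w i₂) ω))
            (bt F ω) := by
          unfold kT
          rw [((E.evs i₂ h2).rgh l hl hs).2.2]
        rw [h5]
        refine sz_of_en h0' (h4.trans (mul_le_mul_of_nonneg_right (hdk ?_)
          (en_nonneg _ _ _ _ _ _)))
        have a1 := n.rT l hl hs
        have a2 := E.t_rg h2 hl hs
        have a3 := E.ng i₂ h2 l hl.le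
        show C₄ + g' l ≤ Z + (g i₂ l + (w i₃ - w i₂))
        omega
      bl := fun l hl V h0' => by
        refine sz_of_en h0' ((hbl l hl.le V).trans (mul_le_mul_of_nonneg_right ?_
          (en_nonneg _ _ _ _ _ _)))
        rw [← pow_add]
        refine hdk ?_
        have a4 := n.up l hl.le
        show C₃ + cl + (g i₂ l + (w i₃ - w i₂)) ≤ _
        omega
      f0 := fun l hl hs V h0' => by
        have a0 := (n.pos i₀ h0).1 l hl
        rw [mx_pos hs]
        -- through the visible thin chain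
        have hsy := nT0.symm (by positivity)
        have htr := hsy.trans nR0 (by positivity) zero_le_one
        have h4 := htr l hl V
        rw [cv_swp]
        rw [en_sz _ _ _ _ _ h0'] at h4
        have h5 : sz c (gT i₀) (kT w TH ω i₀) l V ≤ 2 ^ (cl + X) *
            sz c (fun l => gT i₀ l - (cl + X)) (kT w TH ω i₀) l V := by
          refine sz_side (fun j hj => ?_) V
          rw [← pow_add]
          exact p2 (by omega)
        refine h4.trans ((mul_le_mul_of_nonneg_left h5 (by positivity)).trans ?_)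
        rw [← mul_assoc]
        refine mul_le_mul_of_nonneg_right ?_ (sz_nonneg _ _ _ _ _)
        obtain ⟨b, hb⟩ : ∃ b, b = (cl + 1) * (r + 1) := ⟨_, rfl⟩
        have e1 : (2 : ℝ) ^ cl * (1 + 2 ^ cl) ^ r ≤ 2 ^ b := by
          have e2 : (1 + (2 : ℝ) ^ cl) ^ r ≤ 2 ^ ((cl + 1) * r) := by
            rw [pow_mul]
            refine pow_le_pow_left₀ (by positivity) ?_ r
            have : (1 : ℝ) ≤ 2 ^ cl := one_le_pow₀ (by norm_num)
            rw [pow_succ]
            linarith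
          calc (2 : ℝ) ^ cl * (1 + 2 ^ cl) ^ r ≤ 2 ^ cl * 2 ^ ((cl + 1) * r) :=
                mul_le_mul_of_nonneg_left e2 (by positivity)
            _ = 2 ^ (cl + (cl + 1) * r) := (pow_add _ _ _).symm
            _ ≤ 2 ^ b := p2 (by
                have : b = (cl + 1) * r + (cl + 1) := by rw [hb]; ring
                omega)
        have e3 : (1 + (2 : ℝ) ^ cl * (1 + 2 ^ cl) ^ r) ^ r ≤ 2 ^ ((b + 1) * r) := by
          rw [pow_mul]
          refine pow_le_pow_left₀ (by positivity) ?_ r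
          have : (1 : ℝ) ≤ 2 ^ b := one_le_pow₀ (by norm_num)
          rw [pow_succ]
          linarith
        have e4 : (2 : ℝ) ^ cl * (1 + 2 ^ cl) ^ r + 1 * (1 + 2 ^ cl * (1 + 2 ^ cl) ^ r) ^ r ≤
            2 ^ ((b + 1) * (r + 1)) := by
          have e5 : (2 : ℝ) ^ b ≤ 2 ^ ((b + 1) * r + b) := p2 (by omega)
          have e6 : (2 : ℝ) ^ ((b + 1) * r) ≤ 2 ^ ((b + 1) * r + b) := p2 (by omega)
          have e7 : (2 : ℝ) ^ ((b + 1) * (r + 1)) = 2 ^ ((b + 1) * r + b) * 2 := by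
            rw [← pow_succ]
            congr 1
          rw [e7]
          linarith
        rw [div_mul_eq_mul_div]
        refine (div_le_div_of_nonneg_right (mul_le_mul_of_nonneg_right e4 (by positivity))
          (by positivity)).trans ?_
        rw [← pow_add]
        refine hdk ?_
        have a1 : (b + 1) * (r + 1) ≤ 2 * ((r + 1) * (r + 1)) * (cl + X + 1) := by
          have a2 : b + 1 ≤ 2 * ((cl + X + 1) * (r + 1)) := by
            rw [hb]
            nlinarith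
          calc (b + 1) * (r + 1) ≤ 2 * ((cl + X + 1) * (r + 1)) * (r + 1) :=
                Nat.mul_le_mul_right _ a2
            _ = _ := by ring
        have a2 : 2 * ((r + 1) * (r + 1)) * (cl + X + 1) + 20 * (cl + X + 1) ≤ Z := by
          rw [hZ, ← add_mul]
          exact Nat.mul_le_mul_right _ (by omega)
        show (b + 1) * (r + 1) + (cl + X) + (gT i₀ l - (cl + X)) ≤ Z + gT i₀ l
        omega
      f1 := fun V h0' => by
        have h4 := hrow E (by omega) h1 n.pq n.px (by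
          have := (n.pos i₁ h1).2.1 r le_rfl
          omega) (n.gr i₁ h1) (fun l hl => ⟨by
          have := (n.pos i₁ h1).1 l hl
          omega, by
          have := (n.pos i₁ h1).2.1 l hl.le
          omega⟩) n.r0 n.r1 n.r2 n.r3 ω hω V
        rw [en_sz _ _ _ _ _ h0'] at h4
        rw [cv_swp]
        have h5 : sz c (gT i₁) (kT w TH ω i₁) r V ≤ 2 ^ (cl + X) *
            sz c (fun l => gT i₁ l - (cl + X)) (kT w TH ω i₁) r V := by
          refine sz_side (fun j hj => ?_) V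
          rw [← pow_add]
          exact p2 (by omega)
        refine h4.trans ((mul_le_mul_of_nonneg_left h5 (by positivity)).trans ?_)
        rw [← mul_assoc]
        refine mul_le_mul_of_nonneg_right ?_ (sz_nonneg _ _ _ _ _)
        rw [div_mul_eq_mul_div, ← pow_add]
        refine div_le_div_of_nonneg_right (p2 ?_) (by positivity)
        have a1 : (6 * cl + X + 4) * r ≤ 6 * ((r + 1) * (r + 1)) * (cl + X + 1) := by
          calc (6 * cl + X + 4) * r ≤ (6 * (cl + X + 1)) * ((r + 1) * (r + 1)) :=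
                Nat.mul_le_mul (by omega) (by nlinarith)
            _ = _ := by ring
        have a2 : 6 * ((r + 1) * (r + 1)) * (cl + X + 1) + 20 * (cl + X + 1) ≤ Z := by
          rw [hZ, ← add_mul]
          exact Nat.mul_le_mul_right _ (by omega)
        omega
      f2 := fun l hl hs V h0' => by
        rw [mx_neg hs]
        have h4 := nc2' l (by omega) V
        have h6 := nr2' l (by omega) V
        have h5 : kT w TH ω i₂ l = grd (Hno (c l) (fun s => H i₂ s l) (slam F (w i₂) ω))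
            (bt F ω) := by
          unfold kT
          rw [((E.evs i₂ h2).rgh l hl hs).2.2]
        rw [h5]
        have h7 := cv_tri (grd (Hno (c l) (fun s => H i₂ s l) (slam F (w i₂) ω)) (bt F ω))
          (gG G ω i₂ l) (grd (G i₂ (ptr F J ω) l) (hx F ω)) V
        rw [cv_swp (gG G ω i₂ l)] at h7
        refine sz_of_en (a := w i₃) h0' (h7.trans ((add_le_add h4 h6).trans ?_))
        rw [← add_mul, ← add_div]
        refine mul_le_mul_of_nonneg_right ?_ (en_nonneg _ _ _ _ _ _)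
        have h8 : (2 : ℝ) ^ C₄ + 1 ≤ 2 ^ (C₄ + 1) := by
          have : (1 : ℝ) ≤ 2 ^ C₄ := one_le_pow₀ (by norm_num)
          rw [pow_succ]
          linarith
        refine (div_le_div_of_nonneg_right h8 (by positivity)).trans (hdk ?_)
        have a1 := n.rT l hl hs
        have a2 := E.t_rg h2 hl hs
        have a3 := E.ng i₂ h2 l hl.le
        show C₄ + 1 + g' l ≤ Z + (g i₂ l + (w i₃ - w i₂))
        omega
      g3 := fun l hl V h0' => by
        have h4 := hrnd hc (E.evs i₃ h3).ball (fun l hl => by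
          have h5 := E.room i₃ h3 l (by omega)
          have h6 := E.ng i₃ h3 l (by omega)
          omega) ω hω l (by omega) V
        refine sz_of_en h0' (h4.trans (mul_le_mul_of_nonneg_right (hdv (by omega))
          (en_nonneg _ _ _ _ _ _))) }

end Pool.TN
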